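import Pool.Agent.Lib.MP_640417_ag.SignCount

/-!
# Sign vectors orthogonal to all translates of an odd function of small support
-/

namespace Pool.Agent.Lib.MP_640417_ag

open Module

variable {S : Type*} [Fintype S]

/-- A transversal of a fixed point free involution has half the cardinality. -/
lemma two_mul_card_transversal (c : S → S) (hc : ∀ s, c (c s) = s)
    (X : Finset S) (hX : ∀ s, s ∈ X ↔ c s ∉ X) : 2 * X.card = Fintype.card S := by
  classical
  have hcinj : Function.Injective c := fun a b h => by rw [← hc a, h, hc b]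
  have h1 : (X.image c) = Xᶜ := by
    ext s
    simp only [Finset.mem_image, Finset.mem_compl]
    constructor
    · rintro ⟨a, ha, rfl⟩
      exact (hX a).mp ha
    · intro hs
      refine ⟨c s, ?_, hc s⟩
      by_contra h
      exact hs ((hX s).mpr h)
  have h2 : (X.image c).card = X.card := Finset.card_image_of_injective X hcinj
  have h3 : (Xᶜ).card = Fintype.card S - X.card := Finset.card_compl X
  have h4 : X.card ≤ Fintype.card S := Finset.card_le_univ X
  rw [h1, h3] at h2
  omega

/-- Existence of a transversal of a fixed point free involution. -/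
lemma exists_transversal (c : S → S) (hc : ∀ s, c (c s) = s) (hne : ∀ s, c s ≠ s) :
    ∃ X : Finset S, ∀ s, s ∈ X ↔ c s ∉ X := by
  classical
  let e : S ≃ Fin (Fintype.card S) := Fintype.equivFin S
  refine ⟨Finset.univ.filter (fun s => e s < e (c s)), fun s => ?_⟩
  simp only [Finset.mem_filter, Finset.mem_univ, true_and, hc, not_lt]
  constructor
  · exact le_of_lt
  · intro h
    refine lt_of_le_of_ne h ?_
    intro h'
    exact hne s (e.injective h').symm

/-- The odd functions form a space of dimension at most half the number of points. -/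
lemma finrank_odd_le (c : S → S) (X : Finset S) (hX : ∀ s, s ∈ X ↔ c s ∉ X)
    (V : Submodule ℝ (S → ℝ)) (hV : ∀ v ∈ V, ∀ s, v (c s) = - v s) :
    finrank ℝ V ≤ X.card := by
  classical
  let r : V →ₗ[ℝ] (X → ℝ) :=
    (LinearMap.pi (fun x : X => LinearMap.proj (x : S))).comp V.subtype
  have hr : Function.Injective r := by
    rw [← LinearMap.ker_eq_bot, LinearMap.ker_eq_bot']
    intro v hv
    apply Subtype.ext
    funext s
    have h0 : ∀ s ∈ X, v.1 s = 0 := by
      intro s hs
      exact congrFun hv ⟨s, hs⟩
    by_cases hs : s ∈ X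
    · exact h0 s hs
    · have h1 : c s ∈ X := by
        by_contra h
        exact hs ((hX s).mpr h)
      have h2 := h0 _ h1
      rw [hV v.1 v.2 s] at h2
      simpa using h2
  calc finrank ℝ V ≤ finrank ℝ (X → ℝ) := LinearMap.finrank_le_finrank_of_injective hr
    _ = X.card := by simp

/-- If `F` is a nonzero odd function with at most `4 * i` nonzero values, then at most
`2 ^ (g - ⌈g / (2 i)⌉)` odd sign vectors are orthogonal to all its translates. -/
lemma ncard_orthogonal_le {G : Type*} [Group G] [MulAction G S] [MulAction.IsPretransitive G S]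
    (c : S → S) (hc : ∀ s, c (c s) = s) (hne : ∀ s, c s ≠ s)
    (hcomm : ∀ (γ : G) (s : S), γ • c s = c (γ • s))
    (F : S → ℝ) (hF : ∀ s, F (c s) = - F s) (hF0 : F ≠ 0)
    (i : ℕ) (hi : 1 ≤ i) (hsupp : (Finset.univ.filter (fun s => F s ≠ 0)).card ≤ 4 * i)
    (g : ℕ) (hg : Fintype.card S = 2 * g) :
    {e : S → ℝ | (∀ s, e s = 1 ∨ e s = -1) ∧ (∀ s, e (c s) = - e s) ∧
      ∀ γ : G, ∑ s, F s * e (γ • s) = 0}.ncard ≤ 2 ^ (g - (g + 2 * i - 1) / (2 * i)) := by
  classical
  obtain ⟨X, hX⟩ := exists_transversal c hc hne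
  have hXcard : X.card = g := by
    have := two_mul_card_transversal c hc X hX
    omega
  -- translates
  let t : G → (S → ℝ) := fun γ s => F (γ⁻¹ • s)
  have htodd : ∀ γ s, t γ (c s) = - t γ s := by
    intro γ s
    simp only [t, hcomm, hF]
  let U : Submodule ℝ (S → ℝ) := Submodule.span ℝ (Set.range t)
  let W : Submodule ℝ (S → ℝ) :=
    { carrier := {v | (∀ s, v (c s) = - v s) ∧ ∀ γ : G, ∑ s, t γ s * v s = 0}
      add_mem' := by
        rintro a b ⟨ha, ha'⟩ ⟨hb, hb'⟩
        refine ⟨fun s => ?_, fun γ => ?_⟩
        · simp only [Pi.add_apply, ha, hb]; ring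
        · simp only [Pi.add_apply, mul_add, Finset.sum_add_distrib, ha', hb', add_zero]
      zero_mem' := by simp
      smul_mem' := by
        rintro r a ⟨ha, ha'⟩
        refine ⟨fun s => ?_, fun γ => ?_⟩
        · simp only [Pi.smul_apply, smul_eq_mul, ha]; ring
        · have : ∑ s, t γ s * (r • a) s = r * ∑ s, t γ s * a s := by
            rw [Finset.mul_sum]
            apply Finset.sum_congr rfl
            intro s _
            simp only [Pi.smul_apply, smul_eq_mul]; ring
          rw [this, ha', mul_zero] }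
  have hUodd : ∀ v ∈ U, ∀ s, v (c s) = - v s := by
    intro v hv
    induction hv using Submodule.span_induction with
    | mem x hx =>
      obtain ⟨γ, rfl⟩ := hx
      exact htodd γ
    | zero => simp
    | add x y _ _ hx hy => intro s; simp only [Pi.add_apply, hx, hy]; ring
    | smul a x _ hx => intro s; simp only [Pi.smul_apply, smul_eq_mul, hx]; ring
  have hUW : ∀ u ∈ U, ∀ w ∈ W, ∑ s, u s * w s = 0 := by
    intro u hu w hw
    induction hu using Submodule.span_induction with
    | mem x hx =>
      obtain ⟨γ, rfl⟩ := hx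
      exact hw.2 γ
    | zero => simp
    | add x y _ _ hx hy => simp only [Pi.add_apply, add_mul, Finset.sum_add_distrib, hx, hy, add_zero]
    | smul a x _ hx =>
      have : ∑ s, (a • x) s * w s = a * ∑ s, x s * w s := by
        rw [Finset.mul_sum]
        apply Finset.sum_congr rfl
        intro s _
        simp only [Pi.smul_apply, smul_eq_mul]; ring
      rw [this, hx, mul_zero]
  have hinf : U ⊓ W = ⊥ := by
    rw [Submodule.eq_bot_iff]
    rintro v ⟨hvU, hvW⟩
    have h0 := hUW v hvU v hvW
    have h1 : ∀ s ∈ Finset.univ, v s * v s = 0 :=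
      (Finset.sum_eq_zero_iff_of_nonneg (fun s _ => mul_self_nonneg (v s))).mp h0
    funext s
    exact mul_self_eq_zero.mp (h1 s (Finset.mem_univ s))
  have hsum : finrank ℝ U + finrank ℝ W ≤ g := by
    have h1 := Submodule.finrank_sup_add_finrank_inf_eq U W
    rw [hinf, finrank_bot, add_zero] at h1
    rw [← h1, ← hXcard]
    apply finrank_odd_le c X hX
    intro v hv s
    obtain ⟨u, hu, w, hw, rfl⟩ := Submodule.mem_sup.mp hv
    simp only [Pi.add_apply, hUodd u hu, hw.1]; ring
  -- the lower bound for the dimension of `U`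
  have hUlow : 2 * g ≤ finrank ℝ U * (4 * i) := by
    obtain ⟨b, hb, hspan, hli⟩ := exists_linearIndependent ℝ (Set.range t)
    have hbU : ∀ v ∈ b, v ∈ U := fun v hv => Submodule.subset_span (hb hv)
    let ι : b → U := fun v => ⟨v.1, hbU v.1 v.2⟩
    have hli' : LinearIndependent ℝ ι := by
      apply LinearIndependent.of_comp U.subtype
      exact hli
    have : Finite b := by
      have := hli'.finite
      exact this
    have : Fintype b := Fintype.ofFinite b
    have hbcard : Fintype.card b ≤ finrank ℝ U := hli'.fintype_card_le_finrank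
    have hcover : (Finset.univ : Finset S) ⊆
        Finset.univ.biUnion (fun v : b => Finset.univ.filter (fun s => v.1 s ≠ 0)) := by
      intro s _
      rw [Finset.mem_biUnion]
      by_contra hcon
      push Not at hcon
      have hz : ∀ v ∈ b, v s = 0 := by
        intro v hv
        have := hcon ⟨v, hv⟩ (Finset.mem_univ _)
        simpa using this
      have hz2 : ∀ v ∈ Submodule.span ℝ b, v s = 0 := by
        intro v hv
        induction hv using Submodule.span_induction with
        | mem x hx => exact hz x hx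
        | zero => rfl
        | add x y _ _ hx hy => simp only [Pi.add_apply, hx, hy, add_zero]
        | smul a x _ hx => simp only [Pi.smul_apply, smul_eq_mul, hx, mul_zero]
      obtain ⟨s₀, hs₀⟩ : ∃ s₀, F s₀ ≠ 0 := by
        by_contra h
        push Not at h
        exact hF0 (funext h)
      obtain ⟨γ, hγ⟩ := MulAction.exists_smul_eq G s₀ s
      have h1 : t γ s = F s₀ := by
        simp only [t, ← hγ, inv_smul_smul]
      have h2 : t γ ∈ Submodule.span ℝ b := by
        rw [hspan]; exact Submodule.subset_span ⟨γ, rfl⟩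
      exact hs₀ (h1 ▸ hz2 _ h2)
    have hcard1 : ∀ v : b, (Finset.univ.filter (fun s => v.1 s ≠ 0)).card ≤ 4 * i := by
      intro v
      obtain ⟨γ, hγ⟩ := hb v.2
      have : (Finset.univ.filter (fun s => v.1 s ≠ 0)).card =
          (Finset.univ.filter (fun s => F s ≠ 0)).card := by
        apply Finset.card_bij (fun s _ => γ⁻¹ • s)
        · intro s hs
          simp only [Finset.mem_filter, Finset.mem_univ, true_and, ← hγ, t] at hs ⊢
          exact hs
        · intro a _ b _ hab
          exact MulAction.injective γ⁻¹ hab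
        · intro s hs
          refine ⟨γ • s, ?_, by simp⟩
          simp only [Finset.mem_filter, Finset.mem_univ, true_and, ← hγ, t, inv_smul_smul] at hs ⊢
          exact hs
      rw [this]; exact hsupp
    calc 2 * g = (Finset.univ : Finset S).card := by rw [Finset.card_univ, hg]
      _ ≤ _ := Finset.card_le_card hcover
      _ ≤ ∑ v : b, (Finset.univ.filter (fun s => v.1 s ≠ 0)).card := Finset.card_biUnion_le
      _ ≤ ∑ v : b, 4 * i := Finset.sum_le_sum (fun v _ => hcard1 v)
      _ = Fintype.card b * (4 * i) := by simp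
      _ ≤ finrank ℝ U * (4 * i) := Nat.mul_le_mul_right _ hbcard
  have hWbound : finrank ℝ W ≤ g - (g + 2 * i - 1) / (2 * i) := by
    have h1 : (g + 2 * i - 1) / (2 * i) ≤ finrank ℝ U := by
      have h2 : g ≤ finrank ℝ U * (2 * i) := by nlinarith
      rw [Nat.div_le_iff_le_mul_add_pred (by omega)]
      have : finrank ℝ U * (2 * i) = 2 * i * finrank ℝ U := by ring
      omega
    omega
  have hsub : {e : S → ℝ | (∀ s, e s = 1 ∨ e s = -1) ∧ (∀ s, e (c s) = - e s) ∧
      ∀ γ : G, ∑ s, F s * e (γ • s) = 0} ⊆ {e : S → ℝ | e ∈ W ∧ ∀ s, e s = 1 ∨ e s = -1} := by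
    rintro e ⟨h1, h2, h3⟩
    refine ⟨⟨h2, fun γ => ?_⟩, h1⟩
    rw [← h3 γ]
    symm
    apply Fintype.sum_bijective (fun s => γ • s) (MulAction.bijective γ)
    intro s
    simp only [t, inv_smul_smul]
  have hfin : {e : S → ℝ | e ∈ W ∧ ∀ s, e s = 1 ∨ e s = -1}.Finite := by
    apply Set.Finite.subset (Set.Finite.pi (fun _ : S => (Set.toFinite ({1, -1} : Set ℝ))))
    rintro e ⟨_, he⟩
    intro s _
    rcases he s with h | h <;> simp [h]
  calc _ ≤ {e : S → ℝ | e ∈ W ∧ ∀ s, e s = 1 ∨ e s = -1}.ncard := Set.ncard_le_ncard hsub hfin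
    _ ≤ 2 ^ finrank ℝ W := ncard_sign_le W
    _ ≤ _ := Nat.pow_le_pow_right (by norm_num) hWbound

end Pool.Agent.Lib.MP_640417_ag
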