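import Pool.Agent.Lib.MP_640417_ag.SylowOrbit
import Pool.Agent.Lib.MP_640417_ag.Translates

/-!
# Sign functions without odd relations between their translates

`G` acts on the finite set `S`, and `z` is a central involution of `G` without fixed points on `S`.
-/

namespace Pool.Agent.Lib.MP_640417_ag

section basic

variable {S : Type*} [Fintype S] {G : Type*} [Group G] [MulAction G S]

/-- The odd integral relations between the translates of `e`. -/
def oddRel (z : G) (e : S → ℤ) : AddSubgroup (S → ℤ) where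
  carrier := {v | (∀ s, v (z • s) = - v s) ∧ ∀ γ : G, ∑ s, v s * e (γ • s) = 0}
  add_mem' := by
    rintro a b ⟨ha, ha'⟩ ⟨hb, hb'⟩
    refine ⟨fun s => ?_, fun γ => ?_⟩
    · simp only [Pi.add_apply, ha s, hb s]; ring
    · simp only [Pi.add_apply, add_mul, Finset.sum_add_distrib, ha' γ, hb' γ, add_zero]
  zero_mem' := by
    refine ⟨fun s => ?_, fun γ => ?_⟩
    · simp
    · simp
  neg_mem' := by
    rintro a ⟨ha, ha'⟩
    refine ⟨fun s => ?_, fun γ => ?_⟩
    · simp only [Pi.neg_apply, ha s]
    · simp only [Pi.neg_apply, neg_mul, Finset.sum_neg_distrib, ha' γ, neg_zero]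

lemma mem_oddRel (z : G) (e v : S → ℤ) :
    v ∈ oddRel z e ↔ (∀ s, v (z • s) = - v s) ∧ ∀ γ : G, ∑ s, v s * e (γ • s) = 0 := Iff.rfl

/-- Odd sign functions. -/
def IsSgn (z : G) (e : S → ℤ) : Prop := (∀ s, e s = 1 ∨ e s = -1) ∧ ∀ s, e (z • s) = - e s

lemma oddRel_saturated (z : G) (e : S → ℤ) (n : ℤ) (v : S → ℤ) (hn : n ≠ 0)
    (h : n • v ∈ oddRel z e) : v ∈ oddRel z e := by
  obtain ⟨h1, h2⟩ := h
  refine ⟨fun φ => ?_, fun τ => ?_⟩
  · have := h1 φ
    simp only [Pi.smul_apply, smul_eq_mul] at this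
    have h3 : n * v (z • φ) = n * (- v φ) := by rw [this]; ring
    exact mul_left_cancel₀ hn h3
  · have := h2 τ
    simp only [Pi.smul_apply, smul_eq_mul, mul_assoc, ← Finset.mul_sum] at this
    exact (mul_eq_zero.mp this).resolve_left hn

lemma oddRel_comp (z : G) (hz : ∀ γ : G, γ * z = z * γ) (e : S → ℤ) (γ : G) (v : S → ℤ)
    (hv : v ∈ oddRel z e) : (fun s => v (γ • s)) ∈ oddRel z e := by
  obtain ⟨h1, h2⟩ := hv
  refine ⟨fun s => ?_, fun σ => ?_⟩
  · change v (γ • z • s) = - v (γ • s)
    rw [← mul_smul, hz, mul_smul, h1]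
  · rw [← h2 (σ * γ⁻¹)]
    apply Fintype.sum_bijective (fun s => γ • s) (MulAction.bijective γ)
    intro s
    rw [← mul_smul, mul_assoc, inv_mul_cancel, mul_one]

/-- There is an odd sign function without relations. -/
def Good (S : Type*) [Fintype S] {G : Type*} [Group G] [MulAction G S] (z : G) : Prop :=
  ∃ e : S → ℤ, IsSgn z e ∧ ∀ v ∈ oddRel z e, v = 0

lemma Good.of_subgroup (P : Subgroup G) (z : P) (h : Good S z) : Good S (z : G) := by
  obtain ⟨e, he, hrel⟩ := h
  refine ⟨e, he, fun v hv => hrel v ⟨hv.1, fun γ => hv.2 γ⟩⟩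

/-- If all the values of all the relations at one point are divisible by `p`, there are none. -/
lemma eq_zero_of_dvd [MulAction.IsPretransitive G S] (z : G) (hz : ∀ γ : G, γ * z = z * γ)
    (e : S → ℤ) (p : ℕ) [Fact p.Prime] (s₀ : S) (h : ∀ v ∈ oddRel z e, (p : ℤ) ∣ v s₀) :
    ∀ v ∈ oddRel z e, v = 0 := by
  intro v hv
  by_contra hv0
  obtain ⟨u, hu, hu0⟩ := exists_primitive_vector (oddRel z e) (oddRel_saturated z e) v hv hv0 p
  apply hu0
  funext s
  obtain ⟨γ, hγ⟩ := MulAction.exists_smul_eq G s₀ s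
  have h1 := h _ (oddRel_comp z hz e γ u hu)
  simp only [hγ] at h1
  exact (ZMod.intCast_zmod_eq_zero_iff_dvd _ _).mpr h1

lemma eq_zero_of_zero [MulAction.IsPretransitive G S] (z : G) (hz : ∀ γ : G, γ * z = z * γ)
    (e : S → ℤ) (s₀ : S) (h : ∀ v ∈ oddRel z e, v s₀ = 0) :
    ∀ v ∈ oddRel z e, v = 0 := by
  intro v hv
  funext s
  obtain ⟨γ, hγ⟩ := MulAction.exists_smul_eq G s₀ s
  have h1 := h _ (oddRel_comp z hz e γ v hv)
  simp only [hγ] at h1
  exact h1

/-- For a transitive `2`-group, nonzero relations lead to a relation with odd values. -/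
lemma exists_odd_values [MulAction.IsPretransitive G S] (z : G) (hz : ∀ γ : G, γ * z = z * γ)
    (hG : IsPGroup 2 G) (e v : S → ℤ) (hv : v ∈ oddRel z e) (hv0 : v ≠ 0) :
    ∃ u ∈ oddRel z e, ∀ s, Odd (u s) := by
  obtain ⟨u, hu, hu0, hinv⟩ := exists_fixed_reduction (oddRel z e) (oddRel_saturated z e) v hv hv0 2
    hG (fun γ u hu => oddRel_comp z hz e γ u hu)
  refine ⟨u, hu, ?_⟩
  obtain ⟨s₁, hs₁⟩ : ∃ s₁, (u s₁ : ZMod 2) ≠ 0 := by
    by_contra hcon
    push Not at hcon
    exact hu0 (funext hcon)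
  intro s
  obtain ⟨γ, hγ⟩ := MulAction.exists_smul_eq G s₁ s
  have h1 := hinv γ s₁
  rw [hγ] at h1
  rw [← h1] at hs₁
  rw [← Int.not_even_iff_odd]
  intro heven
  apply hs₁
  exact (ZMod.intCast_zmod_eq_zero_iff_dvd _ _).mpr (by exact_mod_cast heven.two_dvd)

end basic

section oddprime

variable {S : Type*} [Fintype S] {G : Type*} [Group G] [MulAction G S]

lemma dvd_sum_of_fibers {A B : Type*} [Fintype A] [Fintype B] [DecidableEq B] (φ : A → B) (m : ℕ)
    (hφ : ∀ b, (Finset.univ.filter (fun a => φ a = b)).card = m) (f : A → ℤ)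
    (hf : ∀ a a', φ a = φ a' → f a = f a') : (m : ℤ) ∣ ∑ a, f a := by
  rw [← Finset.sum_fiberwise Finset.univ φ f]
  apply Finset.dvd_sum
  intro b _
  by_cases hne : (Finset.univ.filter (fun a => φ a = b)).Nonempty
  · obtain ⟨a₀, ha₀⟩ := hne
    have h1 : ∑ a ∈ Finset.univ.filter (fun a => φ a = b), f a
        = ∑ _a ∈ Finset.univ.filter (fun a => φ a = b), f a₀ := by
      apply Finset.sum_congr rfl
      intro a ha
      apply hf
      rw [Finset.mem_filter] at ha ha₀
      rw [ha.2, ha₀.2]
    rw [h1, Finset.sum_const, hφ b, nsmul_eq_mul]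
    exact dvd_mul_right _ _
  · rw [Finset.not_nonempty_iff_eq_empty] at hne
    rw [hne, Finset.sum_empty]
    exact dvd_zero _

/-- A sign function on the group which is odd under `z` and invariant on the left under a
`p`-subgroup and on the right under a subgroup not containing `z`. -/
lemma exists_sign_on_group [Finite G] (z : G) (hz : ∀ γ : G, γ * z = z * γ) (hz2 : z * z = 1)
    (p : ℕ) [Fact p.Prime] (hp : p ≠ 2) (D K : Subgroup G) (hD : IsPGroup p D) (hzK : z ∉ K) :
    ∃ u : G → ℤ, (∀ σ, u σ = 1 ∨ u σ = -1) ∧ (∀ σ, u (z * σ) = - u σ) ∧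
      ∀ d ∈ D, ∀ σ, ∀ κ ∈ K, u (d * σ * κ) = u σ := by
  classical
  have hfin : Fintype G := Fintype.ofFinite G
  let Q := DoubleCoset.Quotient (D : Set G) (K : Set G)
  have hrel : ∀ a b : G, (DoubleCoset.setoid (D : Set G) (K : Set G)).r a b ↔
      ∃ d ∈ D, ∃ κ ∈ K, b = d * a * κ := fun a b => DoubleCoset.rel_iff
  let c : Q → Q := Quotient.map (fun σ => z * σ) (by
    intro a b hab
    obtain ⟨d, hd, κ, hκ, rfl⟩ := (hrel a b).mp hab
    refine (hrel _ _).mpr ⟨d, hd, κ, hκ, ?_⟩
    rw [← mul_assoc, ← mul_assoc, ← hz d]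
    group)
  have hc : ∀ q, c (c q) = q := by
    intro q
    induction q using Quotient.inductionOn with
    | _ a =>
      change (Quotient.mk _ (z * (z * a)) : Q) = Quotient.mk _ a
      rw [← mul_assoc, hz2, one_mul]
  have hne : ∀ q, c q ≠ q := by
    intro q
    induction q using Quotient.inductionOn with
    | _ a =>
      intro h
      change (Quotient.mk _ (z * a) : Q) = Quotient.mk _ a at h
      have h1 := Quotient.exact h
      obtain ⟨d, hd, κ, hκ, h2⟩ := (hrel _ _).mp h1
      -- `a = d z a κ`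
      obtain ⟨k, hk⟩ := hD ⟨d, hd⟩
      have hdk : d ^ p ^ k = 1 := by
        have := congrArg (fun x : D => (x : G)) hk
        simpa using this
      have hodd : Odd (p ^ k) := ((Fact.out : p.Prime).odd_of_ne_two hp).pow
      have h3 : κ⁻¹ = (a⁻¹ * d * a) * z := by
        have h4 : a * κ⁻¹ = d * (z * a) := mul_inv_eq_iff_eq_mul.mpr h2
        have h5 : κ⁻¹ = a⁻¹ * (d * (z * a)) := eq_inv_mul_iff_mul_eq.mpr h4
        rw [h5, ← hz a]
        group
      have h6 : (κ⁻¹) ^ (p ^ k) = z := by
        have hcomm : Commute (a⁻¹ * d * a) z := hz _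
        rw [h3, hcomm.mul_pow]
        have h7 : (a⁻¹ * d * a) ^ (p ^ k) = 1 := by
          have := conj_pow (i := p ^ k) (a := a⁻¹) (b := d)
          rw [inv_inv] at this
          rw [this, hdk, mul_one, inv_mul_cancel]
        obtain ⟨j, hj⟩ := hodd
        rw [h7, one_mul, hj, pow_succ, pow_mul, pow_two, hz2, one_pow, one_mul]
      exact hzK (h6 ▸ K.pow_mem (K.inv_mem hκ) _)
  have hQ : Finite Q := Quotient.finite _
  have hQ' : Fintype Q := Fintype.ofFinite Q
  obtain ⟨X, hX⟩ := exists_transversal c hc hne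
  let mk : G → Q := fun σ => Quotient.mk _ σ
  refine ⟨fun σ => if mk σ ∈ X then 1 else -1, ?_, ?_, ?_⟩
  · intro σ
    by_cases h : mk σ ∈ X <;> simp [h]
  · intro σ
    have h1 : mk (z * σ) = c (mk σ) := rfl
    have h2 := hX (mk σ)
    simp only [h1]
    by_cases h : mk σ ∈ X
    · have h3 := h2.mp h
      rw [if_neg h3, if_pos h]
    · have h3 : c (mk σ) ∈ X := by
        by_contra h4
        exact h (h2.mpr h4)
      rw [if_pos h3, if_neg h]
      norm_num
  · intro d hd σ κ hκ
    have h1 : mk (d * σ * κ) = mk σ := by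
      symm
      apply Quotient.sound
      exact (hrel _ _).mpr ⟨d, hd, κ, hκ, rfl⟩
    simp only [h1]

/-- **The odd prime case.** -/
theorem good_of_odd_prime [Finite G] [MulAction.IsPretransitive G S] (z : G)
    (hz : ∀ γ : G, γ * z = z * γ) (hz2 : z * z = 1) (hzs : ∀ s : S, z • s ≠ s) (s₀ : S)
    (p : ℕ) [Fact p.Prime] (hp : p ≠ 2) (hpS : p ∣ Nat.card S) : Good S z := by
  classical
  have hfin : Fintype G := Fintype.ofFinite G
  let D : Sylow p G := default
  let H : Subgroup G := MulAction.stabilizer G s₀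
  let K : Subgroup G := D.1 ⊔ H
  have hzH : z ∉ H := fun h => hzs s₀ h
  -- the subgroup with respect to which the sign function is constant
  obtain ⟨K', hHK', hzK', hK'⟩ : ∃ K' : Subgroup G, H ≤ K' ∧ z ∉ K' ∧ (z ∉ K → K' = K) := by
    by_cases h : z ∈ K
    · exact ⟨H, le_refl _, hzH, fun h' => absurd h h'⟩
    · exact ⟨K, le_sup_right, h, fun _ => rfl⟩
  obtain ⟨u, hu1, hu2, hu3⟩ := exists_sign_on_group z hz hz2 p hp D.1 K' D.2 hzK'
  -- a section
  have hsec : ∀ s : S, ∃ σ : G, σ • s₀ = s := fun s => MulAction.exists_smul_eq G s₀ s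
  choose sec hsec' using hsec
  let w : S → ℤ := fun s => u (sec s)
  have hw : ∀ σ : G, w (σ • s₀) = u σ := by
    intro σ
    have h1 : σ⁻¹ * sec (σ • s₀) ∈ H := by
      change (σ⁻¹ * sec (σ • s₀)) • s₀ = s₀
      rw [mul_smul, hsec', inv_smul_smul]
    have h2 := hu3 1 D.1.one_mem σ _ (hHK' h1)
    rw [one_mul, mul_inv_cancel_left] at h2
    exact h2
  have hwpm : ∀ s, w s = 1 ∨ w s = -1 := fun s => hu1 _
  have hwz : ∀ s, w (z • s) = - w s := by
    intro s
    obtain ⟨σ, rfl⟩ := MulAction.exists_smul_eq G s₀ s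
    rw [← mul_smul, hw, hw, hu2]
  have hwD : ∀ d ∈ D.1, ∀ s, w (d • s) = w s := by
    intro d hd s
    obtain ⟨σ, rfl⟩ := MulAction.exists_smul_eq G s₀ s
    have h1 := hu3 d hd σ 1 K'.one_mem
    rw [mul_one] at h1
    rw [← mul_smul, hw, hw, h1]
  -- the perturbed sign function
  let e : S → ℤ := fun s => if s = s₀ ∨ s = z • s₀ then - w s else w s
  have hzz : ∀ s : S, z • z • s = s := by
    intro s
    rw [← mul_smul, hz2, one_smul]
  have he : IsSgn z e := by
    refine ⟨fun s => ?_, fun s => ?_⟩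
    · simp only [e]
      rcases hwpm s with h | h <;> split_ifs <;> simp [h]
    · have h1 : (z • s = s₀ ∨ z • s = z • s₀) ↔ (s = s₀ ∨ s = z • s₀) := by
        constructor
        · rintro (h | h)
          · right; rw [← h, hzz]
          · left; exact MulAction.injective z h
        · rintro (h | h)
          · right; rw [h]
          · left; rw [h, hzz]
      simp only [e, h1]
      split_ifs
      · rw [hwz]
      · rw [hwz]
  have hsum : ∀ v ∈ oddRel z e, ∑ s, v s * w s = 4 * (v s₀ * w s₀) := by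
    intro v hv
    have h1 := hv.2 1
    simp only [one_smul] at h1
    have h2 : ∀ s, v s * e s = v s * w s - (if s = s₀ then 2 * (v s * w s) else 0)
        - (if s = z • s₀ then 2 * (v s * w s) else 0) := by
      intro s
      by_cases ha : s = s₀
      · simp only [e, ha, true_or, if_true]
        rw [if_neg (fun h => hzs s₀ h.symm)]
        ring
      · by_cases hb : s = z • s₀
        · simp only [e, hb, or_true, if_true]
          rw [if_neg (hzs s₀)]
          ring
        · simp only [e, ha, hb, or_false, if_false]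
          ring
    rw [Finset.sum_congr rfl (fun s _ => h2 s), Finset.sum_sub_distrib, Finset.sum_sub_distrib,
      Finset.sum_ite_eq' Finset.univ s₀, Finset.sum_ite_eq' Finset.univ (z • s₀)] at h1
    simp only [Finset.mem_univ, if_true, hv.1, hwz] at h1
    linarith
  have hDinv : ∀ v ∈ oddRel z e, ∀ d ∈ D.1, v (d • s₀) = v s₀ := by
    intro v hv d hd
    have h1 := hsum v hv
    have h2 := hsum _ (oddRel_comp z hz e d v hv)
    have h3 : ∑ s, v (d • s) * w s = ∑ s, v s * w s := by
      apply Fintype.sum_bijective (fun s => d • s) (MulAction.bijective d)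
      intro s
      rw [hwD d hd]
    rw [h3, h1] at h2
    rcases hwpm s₀ with h | h <;> rw [h] at h2 <;> linarith
  have hKinv : ∀ κ ∈ K, ∀ v ∈ oddRel z e, v (κ • s₀) = v s₀ := by
    let T : Subgroup G :=
      { carrier := {κ | ∀ v ∈ oddRel z e, v (κ • s₀) = v s₀}
        mul_mem' := by
          intro a b ha hb v hv
          have h1 : v (a • b • s₀) = v (a • s₀) := hb _ (oddRel_comp z hz e a v hv)
          rw [mul_smul, h1]
          exact ha v hv
        one_mem' := by
          intro v _
          rw [one_smul]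
        inv_mem' := by
          intro a ha v hv
          have h1 : v (a⁻¹ • a • s₀) = v (a⁻¹ • s₀) := ha _ (oddRel_comp z hz e a⁻¹ v hv)
          rw [inv_smul_smul] at h1
          exact h1.symm }
    have hDT : D.1 ≤ T := fun d hd v hv => hDinv v hv d hd
    have hHT : H ≤ T := by
      intro h hh v _
      have h1 : h • s₀ = s₀ := hh
      rw [h1]
    exact fun κ hκ => (sup_le hDT hHT) hκ
  refine ⟨e, he, ?_⟩
  by_cases hzK : z ∈ K
  · apply eq_zero_of_zero z hz e s₀
    intro v hv
    have h1 := hKinv z hzK v hv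
    rw [hv.1] at h1
    linarith
  -- the blocks
  have hKK : K' = K := hK' hzK
  subst hKK
  apply eq_zero_of_dvd z hz e p s₀
  intro v hv
  have hcard : ∃ m : ℕ, p ∣ m ∧ ∀ q : G ⧸ K, (Finset.univ.filter
      (fun s : S => (QuotientGroup.mk (sec s) : G ⧸ K) = q)).card = m := by
    have hequiv : ∀ (γ : G) (s : S), (QuotientGroup.mk (sec (γ • s)) : G ⧸ K)
        = γ • (QuotientGroup.mk (sec s) : G ⧸ K) := by
      intro γ s
      change (QuotientGroup.mk (sec (γ • s)) : G ⧸ K) = QuotientGroup.mk (γ * sec s)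
      rw [QuotientGroup.eq]
      apply hHK'
      change ((sec (γ • s))⁻¹ * (γ * sec s)) • s₀ = s₀
      rw [mul_smul, mul_smul, hsec', inv_smul_eq_iff, hsec']
    have htr : ∀ q : G ⧸ K, (Finset.univ.filter
        (fun s : S => (QuotientGroup.mk (sec s) : G ⧸ K) = q)).card
        = (Finset.univ.filter (fun s : S => (QuotientGroup.mk (sec s) : G ⧸ K)
          = QuotientGroup.mk 1)).card := by
      intro q
      induction q using QuotientGroup.induction_on with
      | H γ =>
        symm
        apply Finset.card_bij (fun s _ => γ • s)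
        · intro s hs
          rw [Finset.mem_filter] at hs ⊢
          refine ⟨Finset.mem_univ _, ?_⟩
          rw [hequiv, hs.2]
          change (QuotientGroup.mk (γ * 1) : G ⧸ K) = _
          rw [mul_one]
        · intro s _ s' _ h
          exact MulAction.injective γ h
        · intro s hs
          rw [Finset.mem_filter] at hs
          refine ⟨γ⁻¹ • s, ?_, smul_inv_smul γ s⟩
          rw [Finset.mem_filter]
          refine ⟨Finset.mem_univ _, ?_⟩
          rw [hequiv, hs.2]
          change (QuotientGroup.mk (γ⁻¹ * γ) : G ⧸ K) = _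
          rw [inv_mul_cancel]
    refine ⟨_, ?_, htr⟩
    have hFQ : Fintype (G ⧸ K) := Fintype.ofFinite _
    have hcS : Fintype.card S = Fintype.card (G ⧸ K) * (Finset.univ.filter
        (fun s : S => (QuotientGroup.mk (sec s) : G ⧸ K) = QuotientGroup.mk 1)).card := by
      have h1 := Finset.card_eq_sum_card_fiberwise (s := (Finset.univ : Finset S))
        (t := (Finset.univ : Finset (G ⧸ K)))
        (f := fun s : S => (QuotientGroup.mk (sec s) : G ⧸ K)) (fun _ _ => Finset.mem_univ _)
      rw [Finset.card_univ, Finset.sum_congr rfl (fun q _ => htr q), Finset.sum_const,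
        Finset.card_univ, smul_eq_mul] at h1
      exact h1
    have hpi : ¬ p ∣ Fintype.card (G ⧸ K) := by
      intro h1
      rw [← Nat.card_eq_fintype_card] at h1
      have h2 : p ∣ D.1.index := dvd_trans h1 (Subgroup.index_dvd_of_le le_sup_left)
      exact D.not_dvd_index h2
    rw [Nat.card_eq_fintype_card, hcS] at hpS
    exact ((Fact.out : p.Prime).dvd_mul.mp hpS).resolve_left hpi
  obtain ⟨m, hpm, hm⟩ := hcard
  have h1 := dvd_sum_of_fibers (fun s : S => (QuotientGroup.mk (sec s) : G ⧸ K)) m hm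
    (fun s => v s * w s) (by
      intro s s' h
      have h2 : (sec s)⁻¹ * sec s' ∈ K := QuotientGroup.eq.mp h
      have h3 : v s = v s' := by
        have h4 := hKinv _ h2 _ (oddRel_comp z hz e (sec s) v hv)
        simp only [← mul_smul, mul_inv_cancel_left, hsec'] at h4
        exact h4.symm
      have h5 : w s = w s' := by
        have h6 := hu3 1 D.1.one_mem (sec s) _ h2
        rw [one_mul, mul_inv_cancel_left] at h6
        exact h6.symm
      simp only [h3, h5])
  rw [hsum v hv] at h1
  have h2 : (p : ℤ) ∣ 4 * (v s₀ * w s₀) := dvd_trans (by exact_mod_cast hpm) h1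
  have hp' : Prime (p : ℤ) := Nat.prime_iff_prime_int.mp Fact.out
  rcases hp'.dvd_or_dvd h2 with h3 | h3
  · exfalso
    have h4 : (p : ℤ) ∣ 2 ^ 2 := by norm_num; exact h3
    have h5 := hp'.dvd_of_dvd_pow h4
    have h6 : p ∣ 2 := by exact_mod_cast h5
    exact hp ((Nat.prime_dvd_prime_iff_eq Fact.out Nat.prime_two).mp h6)
  · rcases hwpm s₀ with h | h <;> rw [h] at h3
    · simpa using h3
    · simpa using h3

end oddprime

end Pool.Agent.Lib.MP_640417_ag
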