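import Pool.Agent.Lib.MP_640417_ag.FpCore
import Pool.Agent.Lib.MP_640417_ag.Nondeg

/-!
# Counting odd sign functions orthogonal to all translates of a function modulo `p`
-/

namespace Pool.Agent.Lib.MP_640417_ag

open Module

section signs

/-- A subspace of dimension `d` contains at most `2 ^ d` sign vectors. -/
lemma ncard_sign_le_field {K : Type*} [Field K] (h1 : (1 : K) ≠ -1) {S : Type*} [Fintype S]
    (W : Submodule K (S → K)) :
    {e : S → K | e ∈ W ∧ ∀ s, e s = 1 ∨ e s = -1}.ncard ≤ 2 ^ finrank K W := by
  classical
  let v : S → Dual K W := fun s => (LinearMap.proj s).comp W.subtype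
  obtain ⟨b, hb, hspan, hli⟩ := exists_linearIndependent K (Set.range v)
  have hbfin : b.Finite := (Set.finite_range v).subset hb
  have : Fintype b := hbfin.fintype
  have hcard : Fintype.card b ≤ finrank K W := by
    have h := hli.fintype_card_le_finrank
    rwa [Subspace.dual_finrank_eq] at h
  let T : Set (S → K) := {e : S → K | e ∈ W ∧ ∀ s, e s = 1 ∨ e s = -1}
  let f : T → (b → Bool) := fun e k => decide ((k : Dual K W) ⟨e.1, e.2.1⟩ = 1)
  have hf : Function.Injective f := by
    intro e e' hee
    have key : ∀ k ∈ b, k ⟨e.1, e.2.1⟩ = k ⟨e'.1, e'.2.1⟩ := by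
      intro k hk
      have h2 := congrFun hee ⟨k, hk⟩
      simp only [f, decide_eq_decide] at h2
      obtain ⟨s, rfl⟩ := hb hk
      have e1 : v s ⟨e.1, e.2.1⟩ = e.1 s := rfl
      have e2 : v s ⟨e'.1, e'.2.1⟩ = e'.1 s := rfl
      rw [e1, e2] at h2 ⊢
      rcases e.2.2 s with h | h <;> rcases e'.2.2 s with h' | h' <;> rw [h, h'] at h2 ⊢
      · exact absurd (h2.mp rfl).symm h1
      · exact absurd (h2.mpr rfl).symm h1
    have key2 : ∀ k ∈ Submodule.span K b, k ⟨e.1, e.2.1⟩ = k ⟨e'.1, e'.2.1⟩ := by
      intro k hk
      induction hk using Submodule.span_induction with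
      | mem x hx => exact key x hx
      | zero => rfl
      | add x y _ _ hx hy => simp only [LinearMap.add_apply, hx, hy]
      | smul a x _ hx => simp only [LinearMap.smul_apply, hx]
    apply Subtype.ext
    funext s
    have : v s ∈ Submodule.span K b := by
      rw [hspan]
      exact Submodule.subset_span ⟨s, rfl⟩
    exact key2 (v s) this
  have h1 : Nat.card T ≤ Nat.card (b → Bool) := Nat.card_le_card_of_injective f hf
  have h2 : Nat.card (b → Bool) = 2 ^ Fintype.card b := by
    rw [Nat.card_eq_fintype_card]; simp
  calc T.ncard = Nat.card T := (Nat.card_coe_set_eq T).symm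
    _ ≤ 2 ^ Fintype.card b := by rw [← h2]; exact h1
    _ ≤ 2 ^ finrank K W := Nat.pow_le_pow_right (by norm_num) hcard

/-- Odd functions orthogonal to a space of odd functions. -/
lemma finrank_orthogonal_le {K : Type*} [Field K] (h2 : (2 : K) ≠ 0) {S : Type*} [Fintype S]
    (c : S → S) (hc : ∀ s, c (c s) = s) (X : Finset S) (hX : ∀ s, s ∈ X ↔ c s ∉ X)
    (U W : Submodule K (S → K)) (hU : ∀ v ∈ U, ∀ s, v (c s) = - v s)
    (hW : ∀ v ∈ W, ∀ s, v (c s) = - v s) (hUW : ∀ v ∈ U, ∀ w ∈ W, ∑ s, v s * w s = 0) :
    finrank K W + finrank K U ≤ X.card := by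
  classical
  let ρ : (S → K) →ₗ[K] (X → K) := LinearMap.pi (fun x : X => LinearMap.proj (x : S))
  have hρ : ∀ v : S → K, (∀ s, v (c s) = - v s) → ρ v = 0 → v = 0 := by
    intro v hv h0
    have h1 : ∀ s ∈ X, v s = 0 := fun s hs => congrFun h0 ⟨s, hs⟩
    funext s
    by_cases hs : s ∈ X
    · exact h1 s hs
    · have h3 : c s ∈ X := by
        by_contra h
        exact hs ((hX s).mpr h)
      have h4 := h1 _ h3
      rw [hv s] at h4
      simpa using h4
  -- the pairing in terms of the transversal
  have hpair : ∀ v w : S → K, (∀ s, v (c s) = - v s) → (∀ s, w (c s) = - w s) →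
      ∑ s, v s * w s = 2 * ∑ x : X, v x * w x := by
    intro v w hv hw
    have h1 : ∑ s ∈ Xᶜ, v s * w s = ∑ s ∈ X, v s * w s := by
      apply Finset.sum_nbij' c c
      · intro s hs
        rw [Finset.mem_compl] at hs
        by_contra h
        exact hs ((hX s).mpr h)
      · intro s hs
        rw [Finset.mem_compl]
        exact (hX s).mp hs
      · intro s _
        exact hc s
      · intro s _
        exact hc s
      · intro s _
        rw [hv, hw]
        ring
    rw [← Finset.sum_add_sum_compl X, h1, ← two_mul]
    congr 1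
    exact (Finset.sum_coe_sort X (fun s => v s * w s)).symm
  let ρU : U →ₗ[K] (X → K) := ρ.comp U.subtype
  have hρU : Function.Injective ρU := by
    rw [← LinearMap.ker_eq_bot, LinearMap.ker_eq_bot']
    intro v hv
    apply Subtype.ext
    exact hρ v.1 (hU v.1 v.2) hv
  let UX : Submodule K (X → K) := LinearMap.range ρU
  have hUX : finrank K UX = finrank K U := LinearMap.finrank_range_of_inj hρU
  let θ : W →ₗ[K] UX.dualAnnihilator :=
    { toFun := fun w => ⟨{ toFun := fun v => ∑ x : X, v x * w.1 x
                           map_add' := by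
                            intro a b
                            simp only [Pi.add_apply, add_mul, Finset.sum_add_distrib]
                           map_smul' := by
                            intro a b
                            simp only [Pi.smul_apply, smul_eq_mul, mul_assoc, ← Finset.mul_sum,
                              RingHom.id_apply] }, by
          rw [Submodule.mem_dualAnnihilator]
          rintro _ ⟨v, rfl⟩
          have h1 := hpair v.1 w.1 (hU v.1 v.2) (hW w.1 w.2)
          rw [hUW v.1 v.2 w.1 w.2] at h1
          exact (mul_eq_zero.mp h1.symm).resolve_left h2⟩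
      map_add' := by
        intro a b
        apply Subtype.ext
        apply LinearMap.ext
        intro v
        simp only [Submodule.coe_add, Pi.add_apply, mul_add, Finset.sum_add_distrib,
          LinearMap.coe_mk, AddHom.coe_mk, LinearMap.add_apply]
      map_smul' := by
        intro a b
        apply Subtype.ext
        apply LinearMap.ext
        intro v
        simp only [SetLike.val_smul, Pi.smul_apply, smul_eq_mul, LinearMap.coe_mk, AddHom.coe_mk,
          LinearMap.smul_apply, RingHom.id_apply, Finset.mul_sum]
        apply Finset.sum_congr rfl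
        intro x _
        ring }
  have hθ : Function.Injective θ := by
    have hval : ∀ (w : W) (x : X), (θ w).1 (Pi.single x 1) = w.1 x := by
      intro w x
      change ∑ y : X, (Pi.single x 1 : X → K) y * w.1 y = w.1 x
      rw [Finset.sum_eq_single x]
      · simp
      · intro y _ hy
        rw [Pi.single_eq_of_ne hy, zero_mul]
      · intro h
        exact absurd (Finset.mem_univ x) h
    intro a b hab
    apply Subtype.ext
    have h1 : a.1 - b.1 = 0 := by
      apply hρ
      · intro s
        simp only [Pi.sub_apply, hW a.1 a.2, hW b.1 b.2]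
        ring
      · funext x
        change a.1 x - b.1 x = 0
        rw [← hval a x, ← hval b x, hab, sub_self]
    exact sub_eq_zero.mp h1
  have h3 := LinearMap.finrank_le_finrank_of_injective hθ
  have h4 := Subspace.finrank_add_finrank_dualAnnihilator_eq UX
  have h5 : finrank K (X → K) = X.card := by simp
  omega

end signs

section caseB

variable {S : Type*} [Fintype S] {G : Type*} [Group G] [MulAction G S] {p : ℕ} [Fact p.Prime]

/-- The relations modulo `p`. -/
def RelMod (G : Type*) [Group G] [MulAction G S] (u : S → ZMod p) (e : S → ℤ) : Prop :=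
  ∀ γ : G, ∑ s, u s * (e (γ • s) : ZMod p) = 0

lemma one_ne_neg_one (hp : p ≠ 2) : (1 : ZMod p) ≠ -1 := by
  intro h
  have h1 : (2 : ZMod p) = 0 := by
    have : (1 : ZMod p) + 1 = 0 := by
      nth_rewrite 2 [h]
      ring
    rw [← this]
    norm_num
  have h2 : ((2 : ℕ) : ZMod p) = 0 := by exact_mod_cast h1
  rw [ZMod.natCast_eq_zero_iff] at h2
  exact hp ((Nat.prime_dvd_prime_iff_eq Fact.out Nat.prime_two).mp h2)

lemma two_ne_zero' (hp : p ≠ 2) : (2 : ZMod p) ≠ 0 := by
  intro h
  apply one_ne_neg_one (p := p) hp
  have : (1 : ZMod p) + 1 = 0 := by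
    rw [← h]
    norm_num
  exact eq_neg_of_add_eq_zero_left this

/-- The count for one function. -/
lemma ncard_relMod_le (hp : p ≠ 2) (z : G) (hz : ∀ γ : G, γ * z = z * γ) (hz2 : z * z = 1)
    (X : Finset S) (hX : ∀ s, s ∈ X ↔ z • s ∉ X)
    (u : S → ZMod p) (hu : ∀ s, u (z • s) = - u s) :
    {e : S → ℤ | IsSgn z e ∧ RelMod G u e}.ncard ≤ 2 ^ (X.card - finrank (ZMod p) (trSpan G u)) := by
  classical
  have hodd : ∀ v ∈ trSpan G u, ∀ s, v (z • s) = - v s := by
    intro v hv
    unfold trSpan at hv
    induction hv using Submodule.span_induction with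
    | mem x hx =>
      obtain ⟨γ, rfl⟩ := hx
      intro s
      change u (γ • z • s) = - u (γ • s)
      rw [← mul_smul, hz, mul_smul, hu]
    | zero => simp
    | add x y _ _ hx hy => intro s; simp only [Pi.add_apply, hx, hy]; ring
    | smul a x _ hx => intro s; simp only [Pi.smul_apply, smul_eq_mul, hx]; ring
  let W : Submodule (ZMod p) (S → ZMod p) :=
    { carrier := {w | (∀ s, w (z • s) = - w s) ∧ ∀ v ∈ trSpan G u, ∑ s, v s * w s = 0}
      add_mem' := by
        rintro a b ⟨ha, ha'⟩ ⟨hb, hb'⟩
        refine ⟨fun s => ?_, fun γ hγ => ?_⟩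
        · simp only [Pi.add_apply, ha, hb]; ring
        · simp only [Pi.add_apply, mul_add, Finset.sum_add_distrib, ha' γ hγ, hb' γ hγ, add_zero]
      zero_mem' := by simp
      smul_mem' := by
        rintro r a ⟨ha, ha'⟩
        refine ⟨fun s => ?_, fun γ hγ => ?_⟩
        · simp only [Pi.smul_apply, smul_eq_mul, ha]; ring
        · have : ∑ s, γ s * (r • a) s = r * ∑ s, γ s * a s := by
            rw [Finset.mul_sum]
            apply Finset.sum_congr rfl
            intro s _
            simp only [Pi.smul_apply, smul_eq_mul]; ring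
          rw [this, ha' γ hγ, mul_zero] }
  have h1 := finrank_orthogonal_le (two_ne_zero' (p := p) hp) (fun s : S => z • s)
    (by intro s; rw [← mul_smul, hz2, one_smul]) X hX (trSpan G u) W hodd
    (fun w hw => hw.1) (fun v hv w hw => hw.2 v hv)
  have h2 := ncard_sign_le_field (one_ne_neg_one (p := p) hp) W
  have h3 : {e : S → ℤ | IsSgn z e ∧ RelMod G u e}.ncard
      ≤ {e : S → ZMod p | e ∈ W ∧ ∀ s, e s = 1 ∨ e s = -1}.ncard := by
    apply Set.ncard_le_ncard_of_injOn (fun e s => (e s : ZMod p))
    · rintro e ⟨⟨he1, he2⟩, he3⟩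
      refine ⟨⟨fun s => ?_, ?_⟩, fun s => ?_⟩
      · simp only [he2 s]
        push_cast
        ring
      · intro v hv
        unfold trSpan at hv
        induction hv using Submodule.span_induction with
        | mem x hx =>
          obtain ⟨γ, rfl⟩ := hx
          rw [← he3 γ⁻¹]
          apply Fintype.sum_bijective (fun s => γ • s) (MulAction.bijective γ)
          intro s
          rw [inv_smul_smul]
        | zero => simp
        | add x y _ _ hx hy => simp only [Pi.add_apply, add_mul, Finset.sum_add_distrib, hx, hy,
            add_zero]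
        | smul a x _ hx =>
          have : ∑ s, (a • x) s * (e s : ZMod p) = a * ∑ s, x s * (e s : ZMod p) := by
            rw [Finset.mul_sum]
            apply Finset.sum_congr rfl
            intro s _
            simp only [Pi.smul_apply, smul_eq_mul]; ring
          rw [this, hx, mul_zero]
      · rcases he1 s with h | h
        · left; simp only [h]; norm_num
        · right; simp only [h]; norm_num
    · rintro e ⟨⟨he1, -⟩, -⟩ e' ⟨⟨he1', -⟩, -⟩ h
      funext s
      have h4 := congrFun h s
      simp only at h4
      rcases he1 s with h5 | h5 <;> rcases he1' s with h6 | h6 <;> rw [h5, h6] at h4 ⊢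
      · exfalso
        apply one_ne_neg_one (p := p) hp
        push_cast at h4
        exact h4
      · exfalso
        apply one_ne_neg_one (p := p) hp
        push_cast at h4
        exact h4.symm
  calc _ ≤ _ := h3
    _ ≤ _ := h2
    _ ≤ _ := Nat.pow_le_pow_right (by norm_num) (by omega)

end caseB

end Pool.Agent.Lib.MP_640417_ag
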