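import Mathlib

/-!
# Sylow subgroups of transitive groups and reduction of relations modulo a prime
-/

namespace Pool.Agent.Lib.MP_640417_ag

open Module

section sylow

variable {G S : Type*} [Group G] [Finite G] [MulAction G S] [MulAction.IsPretransitive G S]

/-- If a prime power divides the size of a transitive `G`-set, it divides the size of all the
orbits of a Sylow subgroup. -/
lemma pow_dvd_card_orbit_sylow {p k : ℕ} [Fact p.Prime] (P : Sylow p G)
    (hk : p ^ k ∣ Nat.card S) (s : S) :
    p ^ k ∣ Nat.card (MulAction.orbit P s) := by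
  have h1 : Nat.card (MulAction.orbit P s) * Nat.card (MulAction.stabilizer P s) = Nat.card P := by
    rw [Nat.card_congr (MulAction.orbitEquivQuotientStabilizer P s)]
    exact (Subgroup.card_eq_card_quotient_mul_card_subgroup (MulAction.stabilizer P s)).symm
  have h2 : Nat.card S * Nat.card (MulAction.stabilizer G s) = Nat.card G := by
    rw [Subgroup.card_eq_card_quotient_mul_card_subgroup (MulAction.stabilizer G s)]
    congr 1
    rw [← Nat.card_congr (MulAction.orbitEquivQuotientStabilizer G s),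
      MulAction.orbit_eq_univ, Nat.card_coe_set_eq, Set.ncard_univ]
  have h3 : Nat.card (MulAction.stabilizer P s) ∣ Nat.card (MulAction.stabilizer G s) := by
    let f : MulAction.stabilizer P s →* MulAction.stabilizer G s :=
      { toFun := fun x => ⟨x.1.1, x.2⟩
        map_one' := rfl
        map_mul' := fun _ _ => rfl }
    apply Subgroup.card_dvd_of_injective f
    intro x y hxy
    apply Subtype.ext
    apply Subtype.ext
    exact congrArg (fun z : MulAction.stabilizer G s => z.1) hxy
  have h4 : IsPGroup p (MulAction.stabilizer P s) := P.2.to_subgroup _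
  obtain ⟨a, ha⟩ := IsPGroup.iff_card.mp h4
  have h5 : p ^ (k + a) ∣ Nat.card G := by
    rw [pow_add, ← h2, ← ha]
    exact Nat.mul_dvd_mul hk h3
  have h6 : p ^ (k + a) ∣ Nat.card P := P.pow_dvd_card_of_pow_dvd_card h5
  rw [← h1, ha, pow_add] at h6
  exact Nat.dvd_of_mul_dvd_mul_right (pow_pos (Fact.out : p.Prime).pos a) h6

end sylow

section reduction

variable {S : Type*} [Fintype S]

/-- A nonzero integral relation can be made primitive. -/
lemma exists_primitive_vector (L : AddSubgroup (S → ℤ))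
    (hsat : ∀ (n : ℤ) (v : S → ℤ), n ≠ 0 → n • v ∈ L → v ∈ L) (v : S → ℤ) (hv : v ∈ L)
    (hv0 : v ≠ 0) (p : ℕ) [Fact p.Prime] :
    ∃ u ∈ L, (fun s => (u s : ZMod p)) ≠ 0 := by
  classical
  have hne : ∃ s, v s ≠ 0 := by
    by_contra h
    push Not at h
    exact hv0 (funext h)
  obtain ⟨s₀, hs₀⟩ := hne
  obtain ⟨u, hu1, hu2⟩ := Finset.extract_gcd v (s := (Finset.univ : Finset S)) ⟨s₀, Finset.mem_univ _⟩
  have hgcd : (Finset.univ : Finset S).gcd v ≠ 0 := by
    intro h
    rw [Finset.gcd_eq_zero_iff] at h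
    exact hs₀ (h s₀ (Finset.mem_univ _))
  have huL : u ∈ L := by
    apply hsat _ u hgcd
    have : (Finset.univ : Finset S).gcd v • u = v := by
      funext s
      rw [Pi.smul_apply, smul_eq_mul]
      exact (hu1 s (Finset.mem_univ s)).symm
    rw [this]
    exact hv
  refine ⟨u, huL, ?_⟩
  intro h
  have h1 : ∀ s, (p : ℤ) ∣ u s := by
    intro s
    have := congrFun h s
    simp only [Pi.zero_apply] at this
    exact (ZMod.intCast_zmod_eq_zero_iff_dvd (u s) p).mp this
  have h2 : (p : ℤ) ∣ (Finset.univ : Finset S).gcd u := Finset.dvd_gcd (fun s _ => h1 s)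
  rw [hu2] at h2
  have h3 : (p : ℤ) ∣ 1 := h2
  have h4 : p ∣ 1 := by exact_mod_cast h3
  exact (Fact.out : p.Prime).one_lt.ne' (Nat.dvd_one.mp h4)

/-- A saturated lattice of functions stable under a `p`-group of permutations contains, if it is
nonzero, a vector whose reduction modulo `p` is nonzero and fixed by the group. -/
lemma exists_fixed_reduction (L : AddSubgroup (S → ℤ))
    (hsat : ∀ (n : ℤ) (v : S → ℤ), n ≠ 0 → n • v ∈ L → v ∈ L) (v : S → ℤ) (hv : v ∈ L)
    (hv0 : v ≠ 0) (p : ℕ) [Fact p.Prime] {P : Type*} [Group P] [MulAction P S]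
    (hP : IsPGroup p P) (hstab : ∀ (γ : P), ∀ u ∈ L, (fun s => u (γ • s)) ∈ L) :
    ∃ u ∈ L, (fun s => (u s : ZMod p)) ≠ 0 ∧ ∀ (γ : P) (s : S), (u (γ • s) : ZMod p) = u s := by
  classical
  obtain ⟨u₀, hu₀, hu₀'⟩ := exists_primitive_vector L hsat v hv hv0 p
  let red : (S → ℤ) →+ (S → ZMod p) :=
    { toFun := fun u s => (u s : ZMod p)
      map_zero' := by funext s; simp
      map_add' := by intro a b; funext s; simp }
  let Lb : AddSubgroup (S → ZMod p) := L.map red
  have hLbstab : ∀ (γ : P) (y : S → ZMod p), y ∈ Lb → (fun s => y (γ • s)) ∈ Lb := by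
    rintro γ y ⟨u, hu, rfl⟩
    exact ⟨fun s => u (γ • s), hstab γ u hu, rfl⟩
  let act : MulAction P Lb :=
    { smul := fun γ y => ⟨fun s => y.1 (γ⁻¹ • s), hLbstab γ⁻¹ y.1 y.2⟩
      one_smul := by
        intro y
        apply Subtype.ext
        funext s
        change y.1 ((1 : P)⁻¹ • s) = y.1 s
        rw [inv_one, one_smul]
      mul_smul := by
        intro γ δ y
        apply Subtype.ext
        funext s
        change y.1 ((γ * δ)⁻¹ • s) = y.1 (δ⁻¹ • (γ⁻¹ • s))
        rw [mul_inv_rev, mul_smul] }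
  have hfin : Finite Lb := Subtype.finite
  have hcard : p ∣ Nat.card Lb := by
    have h0 : IsPGroup p (Multiplicative Lb) := by
      intro y
      refine ⟨1, ?_⟩
      rw [pow_one]
      apply Multiplicative.toAdd.injective
      apply Subtype.ext
      funext s
      change ((p • (Multiplicative.toAdd y) : Lb) : S → ZMod p) s = 0
      rw [AddSubgroup.coe_nsmul, Pi.smul_apply, nsmul_eq_mul, CharP.cast_eq_zero, zero_mul]
    have hfin' : Finite (Multiplicative Lb) := hfin
    obtain ⟨m, hm⟩ := IsPGroup.iff_card.mp h0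
    have hm' : Nat.card Lb = p ^ m := hm
    rw [hm']
    apply dvd_pow_self
    intro h2
    have h3 : Nat.card Lb = 1 := by rw [hm', h2, pow_zero]
    have h4 : Subsingleton Lb := (Nat.card_eq_one_iff_unique.mp h3).1
    have h5 : (⟨red u₀, ⟨u₀, hu₀, rfl⟩⟩ : Lb) = 0 := Subsingleton.elim _ _
    exact hu₀' (congrArg (fun z : Lb => z.1) h5)
  obtain ⟨y, hy, hy0⟩ := hP.exists_fixed_point_of_prime_dvd_card_of_fixed_point Lb hcard
    (a := (0 : Lb)) (by
      intro γ
      apply Subtype.ext
      rfl)
  obtain ⟨u, hu, huy⟩ := y.2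
  refine ⟨u, hu, ?_, ?_⟩
  · intro h
    apply hy0
    apply Subtype.ext
    rw [← huy]
    exact h.symm
  · intro γ s
    have h1 := hy γ⁻¹
    have h2 := congrArg (fun z : Lb => z.1 s) h1
    have h3 : y.1 ((γ⁻¹)⁻¹ • s) = y.1 s := h2
    rw [inv_inv, ← huy] at h3
    exact h3

end reduction

end Pool.Agent.Lib.MP_640417_ag
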