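import Pool.Agent.Lib.MP_640417_ag.FpCaseA
import Pool.Agent.Lib.MP_640417_ag.SylowOrbit

/-!
# Counting sign functions with a relation when the degree has a large prime factor
-/

namespace Pool.Agent.Lib.MP_640417_ag

open Module

section orbits

variable {S : Type*} [Fintype S] {G : Type*} [Group G] [MulAction G S]

/-- Large orbits mean few orbits. -/
lemma card_quotient_mul_le (B : Subgroup G) (m : ℕ)
    (h : ∀ s : S, m ≤ Nat.card (MulAction.orbit B s)) :
    Nat.card (MulAction.orbitRel.Quotient B S) * m ≤ Fintype.card S := by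
  classical
  have hfinQ : Finite (MulAction.orbitRel.Quotient B S) := Quotient.finite _
  have : Fintype (MulAction.orbitRel.Quotient B S) := Fintype.ofFinite _
  have hfo : ∀ s : S, Finite (MulAction.orbit B s) := fun s => Subtype.finite
  have : ∀ s : S, Fintype (MulAction.orbit B s) := fun s => Fintype.ofFinite _
  rw [Fintype.card_congr (MulAction.selfEquivSigmaOrbits B S), Fintype.card_sigma,
    Nat.card_eq_fintype_card]
  calc Fintype.card (MulAction.orbitRel.Quotient B S) * m
      = ∑ _ω : MulAction.orbitRel.Quotient B S, m := by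
        rw [Finset.sum_const, smul_eq_mul, Finset.card_univ]
    _ ≤ _ := by
        apply Finset.sum_le_sum
        intro ω _
        rw [← Nat.card_eq_fintype_card]
        exact h _

/-- A subgroup of a larger group has smaller orbits. -/
lemma card_orbit_le_of_le (B N : Subgroup G) (h : B ≤ N) (s : S) :
    Nat.card (MulAction.orbit B s) ≤ Nat.card (MulAction.orbit N s) := by
  have hfo : Finite (MulAction.orbit N s) := Subtype.finite
  apply Nat.card_le_card_of_injective
    (fun x : MulAction.orbit B s => (⟨x.1, by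
      obtain ⟨b, hb⟩ := x.2
      exact ⟨⟨b.1, h b.2⟩, hb⟩⟩ : MulAction.orbit N s))
  intro x y hxy
  apply Subtype.ext
  exact congrArg (fun z : MulAction.orbit N s => z.1) hxy

/-- A transversal of the classes is small when the orbits are large. -/
lemma exists_small_transversal (B : Subgroup G) (z : G)
    (hz : ∀ γ : G, γ * z = z * γ) (hz2 : z * z = 1)
    (hne : ∀ s : S, mkQ B (z • s) ≠ mkQ B s) (m r : ℕ) (hm : 0 < m)
    (h : ∀ s : S, m ≤ Nat.card (MulAction.orbit B s)) (hS : Fintype.card S = 2 * (r * m)) :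
    Nat.card (MulAction.orbitRel.Quotient B S) ≤ 2 * r ∧
    ∃ T : Finset (MulAction.orbitRel.Quotient B S), (∀ q, q ∈ T ↔ actQ B z hz q ∉ T) ∧
      T.card ≤ r := by
  classical
  have hfinQ : Finite (MulAction.orbitRel.Quotient B S) := Quotient.finite _
  have : Fintype (MulAction.orbitRel.Quotient B S) := Fintype.ofFinite _
  have h1 := card_quotient_mul_le B m h
  have h2 : Nat.card (MulAction.orbitRel.Quotient B S) ≤ 2 * r := by
    rw [hS, ← mul_assoc] at h1
    exact Nat.le_of_mul_le_mul_right h1 hm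
  refine ⟨h2, ?_⟩
  obtain ⟨T, hT⟩ := exists_transversal (actQ B z hz) (actQ_actQ B z hz hz2) (by
    intro q
    obtain ⟨s, rfl⟩ := mkQ_surjective (S := S) B q
    rw [actQ_mkQ]
    exact hne s)
  refine ⟨T, hT, ?_⟩
  have h3 := two_mul_card_transversal (actQ B z hz) (actQ_actQ B z hz hz2) T hT
  rw [Nat.card_eq_fintype_card] at h2
  omega

end orbits

section main

variable {S : Type*} [Fintype S] {G : Type*} [Group G] [Finite G] [MulAction G S]
  [MulAction.IsPretransitive G S] {p : ℕ} [Fact p.Prime]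

omit [Finite G] [MulAction.IsPretransitive G S] in
lemma finite_isSgn (z : G) (P : (S → ℤ) → Prop) : {e : S → ℤ | IsSgn z e ∧ P e}.Finite := by
  apply Set.Finite.subset (Set.Finite.pi' (fun _ : S => Set.toFinite ({1, -1} : Set ℤ)))
  rintro e ⟨he, -⟩ s
  rcases he.1 s with h | h <;> simp [h]

/-- **Main counting theorem.** -/
theorem ncard_relation_le (hp : p ≠ 2) (z : G) (hz : ∀ γ : G, γ * z = z * γ) (hz2 : z * z = 1)
    (hzs : ∀ s : S, z • s ≠ s) (s₀ : S) (r k : ℕ) (hr : 0 < r) (hk : 0 < k)
    (hS : Fintype.card S = 2 * (r * p ^ k)) :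
    {e : S → ℤ | IsSgn z e ∧ ∃ v : S → ℤ, v ≠ 0 ∧ (∀ s, v (z • s) = - v s) ∧
      ∀ γ : G, ∑ s, v s * e (γ • s) = 0}.ncard
      ≤ r * p.choose (p / 2) * 2 ^ (r * p ^ k - p)
        + p ^ r * 2 ^ (r * p ^ k - (p / (2 * r) + 1)) := by
  classical
  have hpp : p.Prime := Fact.out
  have hzz : ∀ s : S, z • z • s = s := by
    intro s
    rw [← mul_smul, hz2, one_smul]
  let P : Sylow p G := default
  let D : Subgroup G := P
  have hD : IsPGroup p D := P.isPGroup'
  have hpk : 0 < p ^ k := pow_pos hpp.pos k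
  have hDorb : ∀ s : S, p ^ k ≤ Nat.card (MulAction.orbit D s) := by
    intro s
    have hfo : Finite (MulAction.orbit D s) := Subtype.finite
    have hno : Nonempty (MulAction.orbit D s) := ⟨⟨s, MulAction.mem_orbit_self s⟩⟩
    apply Nat.le_of_dvd Nat.card_pos
    apply pow_dvd_card_orbit_sylow P _ s
    rw [Nat.card_eq_fintype_card, hS]
    exact Dvd.intro_left (2 * r) (by ring)
  obtain ⟨hDcard, TD, hTD, hTDr⟩ := exists_small_transversal D z hz hz2
    (mkQ_ne_of_isPGroup hp D hD z hz hz2 hzs) (p ^ k) r hpk hDorb hS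
  let N : Subgroup G := Subgroup.normalClosure (D : Set G)
  have hDN : D ≤ N := Subgroup.le_normalClosure
  have hN : N.Normal := Subgroup.normalClosure_normal
  set U : Set (S → ZMod p) := {u : S → ZMod p | (∀ s, u (z • s) = - u s) ∧
    ∀ ν ∈ D, ∀ s, u (ν • s) = u s} with hU
  have hUfin : U.Finite := Set.toFinite _
  set A₁ : Set (S → ℤ) := {e : S → ℤ | IsSgn z e ∧ ∃ u : S → ZMod p, u ≠ 0 ∧
    (∀ s, u (z • s) = - u s) ∧ (∀ ν ∈ N, ∀ s, u (ν • s) = u s) ∧ RelMod G u e} with hA₁
  let U' : Finset (S → ZMod p) := hUfin.toFinset.filter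
    (fun u => p / (2 * r) + 1 ≤ finrank (ZMod p) (trSpan G u))
  let A₂ : Set (S → ℤ) := ⋃ u ∈ U', {e : S → ℤ | IsSgn z e ∧ RelMod G u e}
  have hA₁fin : A₁.Finite := finite_isSgn z _
  have hA₂fin : A₂.Finite := by
    apply Set.Finite.biUnion (Finset.finite_toSet U')
    intro u _
    exact finite_isSgn z _
  -- the inclusion
  have hsub : {e : S → ℤ | IsSgn z e ∧ ∃ v : S → ℤ, v ≠ 0 ∧ (∀ s, v (z • s) = - v s) ∧
      ∀ γ : G, ∑ s, v s * e (γ • s) = 0} ⊆ A₁ ∪ A₂ := by
    rintro e ⟨he, v, hv0, hvz, hv⟩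
    let L : AddSubgroup (S → ℤ) :=
      { carrier := {v | (∀ s, v (z • s) = - v s) ∧ ∀ γ : G, ∑ s, v s * e (γ • s) = 0}
        add_mem' := by
          rintro a b ⟨ha, ha'⟩ ⟨hb, hb'⟩
          refine ⟨fun s => ?_, fun γ => ?_⟩
          · simp only [Pi.add_apply, ha, hb]; ring
          · simp only [Pi.add_apply, add_mul, Finset.sum_add_distrib, ha' γ, hb' γ, add_zero]
        zero_mem' := by simp
        neg_mem' := by
          rintro a ⟨ha, ha'⟩
          refine ⟨fun s => ?_, fun γ => ?_⟩
          · simp only [Pi.neg_apply, ha]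
          · simp only [Pi.neg_apply, neg_mul, Finset.sum_neg_distrib, ha' γ, neg_zero] }
    have hLmem : ∀ w, w ∈ L ↔ (∀ s, w (z • s) = - w s) ∧
        ∀ γ : G, ∑ s, w s * e (γ • s) = 0 := fun w => Iff.rfl
    have hsat : ∀ (n : ℤ) (v : S → ℤ), n ≠ 0 → n • v ∈ L → v ∈ L := by
      intro n w hn hw
      rw [hLmem] at hw ⊢
      refine ⟨fun s => ?_, fun γ => ?_⟩
      · have h1 := hw.1 s
        simp only [Pi.smul_apply, smul_eq_mul] at h1
        have h2 : n * (w (z • s) + w s) = 0 := by rw [mul_add, h1]; ring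
        have h3 := (mul_eq_zero.mp h2).resolve_left hn
        exact eq_neg_of_add_eq_zero_left h3
      · have h1 := hw.2 γ
        simp only [Pi.smul_apply, smul_eq_mul, mul_assoc] at h1
        rw [← Finset.mul_sum] at h1
        exact (mul_eq_zero.mp h1).resolve_left hn
    obtain ⟨u, huL, hu0, hufix⟩ := exists_fixed_reduction L hsat v ⟨hvz, hv⟩ hv0 p hD (by
      intro δ w hw
      rw [hLmem] at hw ⊢
      refine ⟨fun s => ?_, fun γ => ?_⟩
      · change w ((δ : G) • z • s) = - w ((δ : G) • s)
        rw [← mul_smul, hz, mul_smul, hw.1]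
      · rw [← hw.2 (γ * (δ : G)⁻¹)]
        apply Fintype.sum_bijective (fun s => (δ : G) • s) (MulAction.bijective (δ : G))
        intro s
        rw [mul_smul, inv_smul_smul]
        rfl)
    set ū : S → ZMod p := fun s => (u s : ZMod p) with hū
    have hūz : ∀ s, ū (z • s) = - ū s := by
      intro s
      simp only [hū]
      rw [huL.1]
      push_cast
      rfl
    have hūD : ∀ ν ∈ D, ∀ s, ū (ν • s) = ū s := fun ν hν s => hufix ⟨ν, hν⟩ s
    have hrel : RelMod G ū e := by
      intro γ
      have h1 : ((∑ s, u s * e (γ • s) : ℤ) : ZMod p) = 0 := by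
        rw [huL.2 γ]
        push_cast
        rfl
      push_cast at h1
      exact h1
    by_cases hsmall : 2 * r * finrank (ZMod p) (trSpan G ū) ≤ p
    · left
      have hconj := fixed_of_small D hD r hr hDcard ū hūD hsmall
      refine ⟨he, ū, hu0, hūz, ?_, hrel⟩
      -- invariance under the normal closure
      let H : Subgroup G :=
        { carrier := {ν | ∀ s, ū (ν • s) = ū s}
          mul_mem' := by
            intro a b ha hb s
            rw [mul_smul, ha, hb]
          one_mem' := by
            intro s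
            rw [one_smul]
          inv_mem' := by
            intro a ha s
            rw [← ha (a⁻¹ • s), smul_inv_smul] }
      have hNH : N ≤ H := by
        change Subgroup.closure _ ≤ H
        rw [Subgroup.closure_le]
        intro x hx
        obtain ⟨δ, hδ, hc⟩ := Group.mem_conjugatesOfSet_iff.mp hx
        obtain ⟨γ, hγ⟩ := isConj_iff.mp hc
        intro s
        rw [← hγ]
        exact hconj γ δ hδ s
      exact fun ν hν => hNH hν
    · right
      rw [Set.mem_iUnion₂]
      refine ⟨ū, ?_, he, hrel⟩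
      rw [Finset.mem_filter, Set.Finite.mem_toFinset]
      refine ⟨⟨hūz, hūD⟩, ?_⟩
      rw [Nat.succ_le_iff, Nat.div_lt_iff_lt_mul (by positivity)]
      push Not at hsmall
      linarith
  -- the count of `A₁`
  have hcount₁ : A₁.ncard ≤ r * p.choose (p / 2) * 2 ^ (r * p ^ k - p) := by
    by_cases hNz : ∀ s : S, mkQ N (z • s) ≠ mkQ N s
    · have hNorb : ∀ s : S, p ^ k ≤ Nat.card (MulAction.orbit N s) := fun s =>
        (hDorb s).trans (card_orbit_le_of_le D N hDN s)
      obtain ⟨-, T, hT, hTr⟩ := exists_small_transversal N z hz hz2 hNz (p ^ k) r hpk hNorb hS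
      have hfo : Finite (MulAction.orbit D s₀) := Subtype.finite
      obtain ⟨T₀, hT₀s, hT₀⟩ : ∃ T₀ : Finset S, (∀ t ∈ T₀, t ∈ MulAction.orbit D s₀) ∧
          T₀.card = p := by
        have h1 : p ≤ (Set.toFinite (MulAction.orbit D s₀)).toFinset.card := by
          rw [← Set.ncard_eq_toFinset_card, ← Nat.card_coe_set_eq]
          calc p = p ^ 1 := (pow_one p).symm
            _ ≤ p ^ k := Nat.pow_le_pow_right hpp.pos hk
            _ ≤ _ := hDorb s₀
        obtain ⟨T₀, h2, h3⟩ := Finset.exists_subset_card_eq h1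
        refine ⟨T₀, fun t ht => ?_, h3⟩
        have := h2 ht
        rwa [Set.Finite.mem_toFinset] at this
      have h2 := ncard_invariant_le hp z hz hz2 hzs N hNz T hT T₀ hT₀ s₀ (by
        intro t ht
        obtain ⟨δ, hδ⟩ := hT₀s t ht
        rw [mkQ_eq_iff]
        exact ⟨δ.1, hDN δ.2, hδ⟩) (r * p ^ k) hS
      exact h2.trans (Nat.mul_le_mul_right _ (Nat.mul_le_mul_right _ hTr))
    · push Not at hNz
      obtain ⟨s₁, hs₁⟩ := hNz
      have hempty : A₁ = ∅ := by
        rw [Set.eq_empty_iff_forall_notMem]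
        rintro e ⟨-, u, hu0, huz, huN, -⟩
        apply hu0
        funext s
        obtain ⟨γ, hγ⟩ := MulAction.exists_smul_eq G s₁ s
        have h1 : mkQ N (z • s) = mkQ N s := by
          rw [← hγ, ← mul_smul, ← hz, mul_smul, mkQ_smul_iff]
          exact hs₁
        obtain ⟨ν, hν, h2⟩ := (mkQ_eq_iff N _ _).mp h1
        have h3 := huN ν hν s
        rw [h2, huz] at h3
        have h4 : (2 : ZMod p) * u s = 0 := by
          rw [two_mul]
          nth_rewrite 1 [← h3]
          ring
        exact (mul_eq_zero.mp h4).resolve_left (two_ne_zero' (p := p) hp)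
      rw [hempty]
      simp
  -- the count of `A₂`
  obtain ⟨X, hX⟩ := exists_transversal (fun s : S => z • s) hzz hzs
  have hXcard : X.card = r * p ^ k := by
    have := two_mul_card_transversal (fun s : S => z • s) hzz X hX
    omega
  have hU'card : U'.card ≤ p ^ r := by
    calc U'.card ≤ hUfin.toFinset.card := Finset.card_filter_le _ _
      _ = U.ncard := (Set.ncard_eq_toFinset_card U hUfin).symm
      _ ≤ p ^ TD.card := ncard_odd_invariant_le D z hz TD hTD
      _ ≤ p ^ r := Nat.pow_le_pow_right hpp.pos hTDr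
  have hcount₂ : A₂.ncard ≤ p ^ r * 2 ^ (r * p ^ k - (p / (2 * r) + 1)) := by
    have hA₂' : A₂ = ((U'.biUnion (fun u => (finite_isSgn z (RelMod G u)).toFinset) :
        Finset (S → ℤ)) : Set (S → ℤ)) := by
      ext e
      simp only [A₂, Set.mem_iUnion, Finset.coe_biUnion, Finset.mem_coe,
        Set.Finite.coe_toFinset]
    rw [hA₂', Set.ncard_coe_finset]
    refine Finset.card_biUnion_le.trans ?_
    have h1 : ∀ u ∈ U', (finite_isSgn z (RelMod G u)).toFinset.card
        ≤ 2 ^ (r * p ^ k - (p / (2 * r) + 1)) := by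
      intro u hu
      rw [Finset.mem_filter, Set.Finite.mem_toFinset] at hu
      rw [← Set.ncard_eq_toFinset_card _ (finite_isSgn z (RelMod G u))]
      refine (ncard_relMod_le hp z hz hz2 X hX u hu.1.1).trans ?_
      apply Nat.pow_le_pow_right (by norm_num)
      rw [hXcard]
      exact Nat.sub_le_sub_left hu.2 _
    refine (Finset.sum_le_sum h1).trans ?_
    rw [Finset.sum_const, smul_eq_mul]
    exact Nat.mul_le_mul_right _ hU'card
  calc _ ≤ (A₁ ∪ A₂).ncard := Set.ncard_le_ncard hsub (hA₁fin.union hA₂fin)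
    _ ≤ A₁.ncard + A₂.ncard := Set.ncard_union_le _ _
    _ ≤ _ := Nat.add_le_add hcount₁ hcount₂

end main

end Pool.Agent.Lib.MP_640417_ag
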