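import Pool.Agent.Lib.MP_640417_ag.OddAlgC

/-!
# Existence of types, the trivial type, small blocks
-/

open MonoidAlgebra Module

namespace Pool.Agent.Lib.MP_640417_ag.OddGal

variable {H : Type} [Group H] [Fintype H]

/-! ### (T2), (T1) -/

/-- (T2) -/
theorem zc_le_rk (e : MonoidAlgebra ℚ H) : zc e ≤ rk e := by
  rw [zc, rk]
  apply Submodule.finrank_mono
  exact fun x hx => hx.1

/-- (T1) a bad sign vector is bad at some type -/
theorem badAt_of_bad (J : Finset (MonoidAlgebra ℚ H)) (hJ : ∀ e ∈ J, IsType e)
    (hsum : ∑ e ∈ J, e = 1) (ε : H → ℤ) (h : Bad ε) : ∃ e ∈ J, BadAt e ε := by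
  obtain ⟨x, hx, hxe⟩ := h
  have h1 : ∃ e ∈ J, e * toQ x ≠ 0 := by
    by_contra hcon
    push Not at hcon
    apply hx
    apply toQ_injective
    rw [map_zero, ← one_mul (toQ x), ← hsum, Finset.sum_mul]
    exact Finset.sum_eq_zero hcon
  obtain ⟨e, he, hex⟩ := h1
  obtain ⟨m, hm, y, hy⟩ := exists_denominator (e * toQ x)
  have hm' : (m : ℚ) ≠ 0 := by exact_mod_cast hm.ne'
  refine ⟨e, he, y, ?_, ?_, ?_⟩
  · rintro rfl
    rw [map_zero] at hy
    rcases smul_eq_zero.1 hy.symm with h | h
    · exact hm' h
    · exact hex h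
  · rw [hy, mul_smul_comm, ← mul_assoc, (hJ e he).idem]
  · apply toQ_injective
    rw [map_mul, hy, smul_mul_assoc, mul_assoc, ← map_mul, hxe]
    simp

/-! ### (T0) -/

/-- coefficients -/
noncomputable def eltEquiv (R : Type) [Field R] (H : Type) [Group H] [Fintype H] :
    (H → R) ≃ₗ[R] MonoidAlgebra R H where
  toFun := elt
  map_add' f g := by ext h; simp
  map_smul' c f := by ext h; rw [coeff_smul_apply]; simp
  invFun a := fun h => a.coeff h
  left_inv f := rfl
  right_inv a := by ext h; rfl

theorem finrank_QH : finrank ℚ (MonoidAlgebra ℚ H) = Fintype.card H := by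
  rw [← (eltEquiv ℚ H).finrank_eq, Module.finrank_fintype_fun_eq_card]

theorem sum_rk (J : Finset (MonoidAlgebra ℚ H)) (hid : ∀ e ∈ J, e * e = e)
    (horth : ∀ e ∈ J, ∀ e' ∈ J, e ≠ e' → e * e' = 0) (hsum : ∑ e ∈ J, e = 1) :
    ∑ e ∈ J, rk e = Fintype.card H := by
  let L : MonoidAlgebra ℚ H →ₗ[ℚ] (∀ e : J, comp e.1) :=
    { toFun := fun x e => ⟨e.1 * x, by
        change e.1 * (e.1 * x) = e.1 * x
        rw [← mul_assoc, hid _ e.2]⟩
      map_add' := fun a b => by
        funext e
        ext1
        simp [mul_add]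
      map_smul' := fun r a => by
        funext e
        ext1
        simp }
  have hbij : Function.Bijective L := by
    constructor
    · rw [injective_iff_map_eq_zero]
      intro x hx
      rw [← one_mul x, ← hsum, Finset.sum_mul]
      refine Finset.sum_eq_zero fun e he => ?_
      have := congrFun hx ⟨e, he⟩
      exact congrArg Subtype.val this
    · intro y
      refine ⟨∑ e : J, (y e).1, ?_⟩
      funext e
      ext1
      change e.1 * (∑ e' : J, (y e').1) = (y e).1
      rw [Finset.mul_sum, Finset.sum_eq_single e]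
      · exact (y e).2
      · intro e' _ hne
        have h1 : e'.1 * (y e').1 = (y e').1 := (y e').2
        rw [← h1, ← mul_assoc, horth e.1 e.2 e'.1 e'.2 (fun h => hne (Subtype.ext h.symm)), zero_mul]
      · intro h
        exact absurd (Finset.mem_univ _) h
  have h1 := (LinearEquiv.ofBijective L hbij).finrank_eq
  rw [finrank_QH, Module.finrank_pi_fintype] at h1
  rw [h1, ← Finset.sum_coe_sort]
  rfl

/-- (T0) the finite family of types -/
theorem exists_types (H : Type) [Group H] [Fintype H] :
    ∃ J : Finset (MonoidAlgebra ℚ H), (∀ e ∈ J, IsType e) ∧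
      (∀ e ∈ J, ∀ e' ∈ J, e ≠ e' → e * e' = 0) ∧ ∑ e ∈ J, e = 1 ∧
      ∑ e ∈ J, rk e = Fintype.card H := by
  classical
  obtain ⟨k, D, d, hD, hA, hd, ⟨φ⟩⟩ :=
    IsSemisimpleRing.exists_algEquiv_pi_matrix_divisionRing ℚ (MonoidAlgebra ℚ H)
  set f : Fin k → MonoidAlgebra ℚ H := fun t => φ.symm (Pi.single t 1) with hf
  have hφf : ∀ t, φ (f t) = Pi.single t 1 := fun t => by simp [hf]
  have hcen : ∀ t, Cen (f t) := by
    intro t b
    apply φ.injective
    rw [map_mul, map_mul, hφf]
    funext j
    by_cases h : j = t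
    · subst h
      simp
    · simp [Pi.single_eq_of_ne h]
  have horth : ∀ t t', t ≠ t' → f t * f t' = 0 := by
    intro t t' h
    apply φ.injective
    rw [map_mul, hφf, hφf, map_zero]
    funext j
    by_cases h' : j = t
    · subst h'
      simp [Pi.single_eq_of_ne h]
    · simp [Pi.single_eq_of_ne h']
  have hid : ∀ t, f t * f t = f t := by
    intro t
    apply φ.injective
    rw [map_mul, hφf, ← Pi.single_mul, one_mul]
  have hinj : Function.Injective f := by
    intro t t' h
    by_contra hne
    have h1 := horth t t' hne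
    rw [h, hid] at h1
    have h2 := congrArg φ h1
    rw [hφf, map_zero] at h2
    have h3 := congrFun h2 t'
    rw [Pi.single_eq_same] at h3
    haveI := hd t'
    exact one_ne_zero h3
  have hsum : ∑ t, f t = 1 := by
    apply φ.injective
    rw [map_sum, map_one]
    simp only [hφf]
    exact Finset.univ_sum_single (1 : ∀ i, Matrix (Fin (d i)) (Fin (d i)) (D i))
  have htype : ∀ t, IsType (f t) := by
    intro t
    haveI := hd t
    refine ⟨hcen t, hid t, ?_, ?_⟩
    · intro h
      have h2 := congrArg φ h
      rw [hφf, map_zero] at h2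
      have h3 := congrFun h2 t
      rw [Pi.single_eq_same] at h3
      exact one_ne_zero h3
    · intro c hc hne
      have h1 : φ c t ∈ Set.center (Matrix (Fin (d t)) (Fin (d t)) (D t)) := by
        rw [Semigroup.mem_center_iff]
        intro g
        have h2 := congrArg (fun z => φ z t) (hc (φ.symm (Pi.single t g)))
        simp only [map_mul, AlgEquiv.apply_symm_apply, Pi.mul_apply, Pi.single_eq_same] at h2
        exact h2.symm
      rw [Matrix.center_eq_scalar_image] at h1
      obtain ⟨l, hl, hlc⟩ := h1
      have hl0 : l ≠ 0 := by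
        rintro rfl
        apply hne
        apply φ.injective
        rw [map_mul, hφf, map_zero]
        funext j
        by_cases h : j = t
        · subst h
          rw [Pi.mul_apply, ← hlc]
          simp
        · simp [Pi.single_eq_of_ne h]
      have hl' : l⁻¹ ∈ Set.center (D t) := by
        rw [Semigroup.mem_center_iff] at hl ⊢
        intro g
        have h5 : Commute g l := hl g
        exact h5.inv_right₀
      have h4 : Matrix.scalar (Fin (d t)) l⁻¹ ∈ Set.center (Matrix (Fin (d t)) (Fin (d t)) (D t)) := by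
        rw [Matrix.center_eq_scalar_image]
        exact ⟨_, hl', rfl⟩
      refine ⟨φ.symm (Pi.single t (Matrix.scalar _ l⁻¹)), ?_, ?_⟩
      · intro b
        apply φ.injective
        rw [map_mul, map_mul, AlgEquiv.apply_symm_apply]
        funext j
        by_cases h : j = t
        · subst h
          rw [Pi.mul_apply, Pi.mul_apply, Pi.single_eq_same]
          exact (Semigroup.mem_center_iff.1 h4 _).symm
        · simp [Pi.single_eq_of_ne h]
      · apply φ.injective
        rw [map_mul, map_mul, AlgEquiv.apply_symm_apply, hφf]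
        funext j
        by_cases h : j = t
        · subst h
          rw [Pi.mul_apply, Pi.mul_apply, Pi.single_eq_same, Pi.single_eq_same, ← hlc, ← map_mul,
            mul_inv_cancel₀ hl0, map_one, mul_one]
        · simp [Pi.single_eq_of_ne h]
  have hsum' : ∑ e ∈ Finset.univ.image f, e = 1 := by
    rw [Finset.sum_image fun a _ b _ h => hinj h, hsum]
  have horth' : ∀ e ∈ Finset.univ.image f, ∀ e' ∈ Finset.univ.image f, e ≠ e' → e * e' = 0 := by
    intro e he e' he' hne
    obtain ⟨t, -, rfl⟩ := Finset.mem_image.1 he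
    obtain ⟨t', -, rfl⟩ := Finset.mem_image.1 he'
    exact horth t t' fun h => hne (by rw [h])
  have htype' : ∀ e ∈ Finset.univ.image f, IsType e := by
    intro e he
    obtain ⟨t, -, rfl⟩ := Finset.mem_image.1 he
    exact htype t
  exact ⟨Finset.univ.image f, htype', horth', hsum',
    sum_rk _ (fun e he => (htype' e he).idem) horth' hsum'⟩

end Pool.Agent.Lib.MP_640417_ag.OddGal
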