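import Pool.Agent.Lib.MP_640417_ag.OddAlgD

/-!
# The trivial type, the conjugation argument, small blocks
-/

open MonoidAlgebra Module
open scoped commutatorElement

namespace Pool.Agent.Lib.MP_640417_ag.OddGal

variable {H : Type} [Group H] [Fintype H]

/-! ### (U5) -/

section Blocks

variable {p : ℕ} [Fact p.Prime] {ι : Type} [Fintype ι] [DecidableEq ι] {D : ι → Type}
    [∀ i, Field (D i)] [∀ i, Algebra (ZMod p) (D i)] {n : ι → ℕ}

open Classical in
/-- the sum of the elements of a subgroup -/
noncomputable def subSum (K : Subgroup H) : MonoidAlgebra ℤ H :=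
  elt fun h => if h ∈ K then 1 else 0

theorem cen_subSum (K : Subgroup H) [hK : K.Normal] : Cen (subSum K) := by
  classical
  rw [cen_iff]
  intro x h
  rw [subSum, coeff_elt, coeff_elt, hK.mem_comm_iff, ← mul_assoc, inv_mul_cancel, one_mul]

theorem single_mul_subSum (K : Subgroup H) {x : H} (hx : x ∈ K) :
    single x 1 * subSum K = subSum K := by
  classical
  ext h
  rw [csm, one_mul, subSum, coeff_elt, coeff_elt]
  congr 1
  rw [eq_iff_iff]
  constructor
  · intro h1
    have := K.mul_mem hx h1
    rwa [mul_inv_cancel_left] at this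
  · intro h1
    exact K.mul_mem (K.inv_mem hx) h1

theorem subSum_eq (K : Subgroup H) :
    subSum K = ∑ h : H, (open Classical in if h ∈ K then (single h 1 : MonoidAlgebra ℤ H) else 0) := by
  classical
  ext h
  rw [subSum, coeff_elt]
  have : (∑ h : H, if h ∈ K then (single h 1 : MonoidAlgebra ℤ H) else 0).coeff h =
      ∑ x : H, (if x ∈ K then (single x 1 : MonoidAlgebra ℤ H) else 0).coeff h := by
    simp
  rw [this, Finset.sum_eq_single h]
  · by_cases hh : h ∈ K
    · simp [hh]
    · simp [hh]
  · intro b _ hb
    by_cases hh : b ∈ K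
    · simp [hh, hb]
    · simp [hh]
  · intro h1
    exact absurd (Finset.mem_univ _) h1

/-- (U5) -/
theorem two_le_n [∀ i, Fintype (D i)] (hp : ¬ p ∣ Fintype.card H) (hn : ∀ i, 0 < n i)
    (w : MonoidAlgebra (ZMod p) H ≃ₐ[ZMod p] ((i : ι) → Matrix (Fin (n i)) (Fin (n i)) (D i)))
    (e : MonoidAlgebra ℚ H) (he : IsType e) (h : zc e < rk e) (i : ι) (hi : i ∈ blocksOf w e) :
    2 ≤ n i := by
  classical
  by_contra hlt
  have hn1 : n i = 1 := by
    have := hn i
    omega
  haveI huniq : Unique (Fin (n i)) := by
    rw [hn1]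
    infer_instance
  obtain ⟨k, hk, c, hc⟩ := exists_denominator_coprime p (by rwa [Nat.card_eq_fintype_card]) e
    he.central he.idem
  have hwc := w_red_of_mem w he.central he.idem hk hc i hi
  have hmul : ∀ A B : Matrix (Fin (n i)) (Fin (n i)) (D i),
      (A * B) default default = A default default * B default default := by
    intro A B
    rw [Matrix.mul_apply, Fintype.sum_unique]
  -- the character of the block
  let ψ : H →* D i :=
    { toFun := fun h => w (single h 1) i default default
      map_one' := by
        have : (single (1 : H) (1 : ZMod p)) = 1 := rfl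
        rw [this, map_one, Pi.one_apply, Matrix.one_apply_eq]
      map_mul' := fun x y => by
        rw [← hmul, ← Pi.mul_apply, ← map_mul, single_mul_single, one_mul] }
  have hψ : ∀ x ∈ commutator H, ψ x = 1 := by
    intro x hx
    have h1 := Abelianization.commutator_subset_ker ψ.toHomUnits hx
    rw [MonoidHom.mem_ker] at h1
    have h2 := congrArg Units.val h1
    simpa using h2
  set K := commutator H with hK
  have hKp : ((Nat.card K : ℕ) : D i) ≠ 0 := by
    have h1 : ¬ p ∣ Nat.card K := fun h => hp (h.trans (by
      rw [← Nat.card_eq_fintype_card]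
      exact Subgroup.card_subgroup_dvd_card K))
    intro h2
    apply h1
    rw [← ZMod.natCast_eq_zero_iff]
    apply (algebraMap (ZMod p) (D i)).injective
    rw [map_natCast, h2, map_zero]
  have hkp : (k : D i) ≠ 0 := by
    intro h2
    apply hk
    rw [← ZMod.natCast_eq_zero_iff]
    apply (algebraMap (ZMod p) (D i)).injective
    rw [map_natCast, h2, map_zero]
  have hwK : w (red p (subSum K)) i default default = (Nat.card K : D i) := by
    have h1 : red p (subSum K) = ∑ h : H, if h ∈ K then (single h 1 : MonoidAlgebra (ZMod p) H)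
        else 0 := by
      rw [subSum_eq, map_sum]
      refine Finset.sum_congr rfl fun h _ => ?_
      by_cases hh : h ∈ K
      · simp [hh, red]
      · simp [hh]
    rw [h1, map_sum, Finset.sum_apply, Matrix.sum_apply]
    have h2 : ∀ h : H, w (if h ∈ K then (single h 1 : MonoidAlgebra (ZMod p) H) else 0) i
        default default = if h ∈ K then 1 else 0 := by
      intro h
      by_cases hh : h ∈ K
      · rw [if_pos hh, if_pos hh]
        exact hψ h hh
      · rw [if_neg hh, if_neg hh]
        simp
    rw [Finset.sum_congr rfl fun h _ => h2 h, Finset.sum_ite, Finset.sum_const_zero, add_zero,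
      Finset.sum_const, nsmul_eq_mul, mul_one, ← Fintype.card_subtype, ← Nat.card_eq_fintype_card]
  -- `subSum K` does not kill `e`
  have hne : toQ (subSum K) * e ≠ 0 := by
    intro h0
    have h1 : subSum K * c = 0 := by
      apply toQ_injective
      rw [map_mul, hc, mul_smul_comm, h0, smul_zero, map_zero]
    have h2 := congrArg (fun y => w (red p y) i default default) h1
    simp only [map_mul, Pi.mul_apply, hmul, hwK, hwc, map_zero, Pi.zero_apply,
      Matrix.zero_apply] at h2
    rw [Matrix.scalar_apply, Matrix.diagonal_apply_eq] at h2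
    rcases mul_eq_zero.1 h2 with h3 | h3
    · exact hKp h3
    · exact hkp h3
  have hKcen : Cen (toQ (subSum K)) := by
    rw [cen_toQ]
    exact cen_subSum K
  obtain ⟨c', hc', hcc⟩ := he.field _ hKcen hne
  have hfix : ∀ x ∈ K, single x 1 * e = e := by
    intro x hx
    have h1 : (single x 1 : MonoidAlgebra ℚ H) * toQ (subSum K) = toQ (subSum K) := by
      have h2 : (single x 1 : MonoidAlgebra ℚ H) = toQ (single x 1) := by simp [toQ]
      rw [h2, ← map_mul, single_mul_subSum K hx]
    conv_lhs => rw [← hcc]
    rw [← mul_assoc, ← mul_assoc, h1, hcc]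
  -- hence the component is commutative
  have hcomm : ∀ a b : MonoidAlgebra ℚ H, e * (a * b) = e * (b * a) := by
    intro a b
    induction a using MonoidAlgebra.induction_linear with
    | zero => simp
    | add f g hf hg => rw [add_mul, mul_add, hf, hg, mul_add, mul_add]
    | single x r =>
      induction b using MonoidAlgebra.induction_linear with
      | zero => simp
      | add f g hf hg => rw [mul_add, mul_add, hf, hg, add_mul, mul_add]
      | single y s =>
        rw [single_mul_single, single_mul_single]
        have h1 : x * y = ⁅x, y⁆ * (y * x) := by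
          rw [commutatorElement_def]
          group
        have h2 : single (x * y) (r * s) = (single ⁅x, y⁆ 1 : MonoidAlgebra ℚ H) *
            single (y * x) (s * r) := by
          rw [single_mul_single, ← h1, one_mul, mul_comm r]
        rw [h2, ← mul_assoc, he.central, hfix _ (Subgroup.commutator_mem_commutator
          (Subgroup.mem_top x) (Subgroup.mem_top y))]
  have hle : comp e ≤ cen e := by
    intro x hx
    have hx' : e * x = x := hx
    refine ⟨hx', fun y => ?_⟩
    rw [← hx', mul_assoc, hcomm, ← mul_assoc, he.central, mul_assoc]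
  have h1 : rk e ≤ zc e := Submodule.finrank_mono hle
  omega

end Blocks

/-! ### (T4) -/

/-- the sum of all group elements -/
noncomputable def sig (R : Type) [Semiring R] (H : Type) [Group H] [Fintype H] :
    MonoidAlgebra R H := elt fun _ => 1

theorem mul_sig (x : MonoidAlgebra ℚ H) : x * sig ℚ H = aug x • sig ℚ H := by
  induction x using MonoidAlgebra.induction_linear with
  | zero => simp [aug]
  | add f g hf hg =>
    rw [add_mul, hf, hg, ← add_smul]
    congr 1
    simp [aug, Finset.sum_add_distrib]
  | single x r =>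
    ext y
    rw [csm, sig, coeff_elt, coeff_smul_apply, coeff_elt, smul_eq_mul]
    congr 1
    simp [aug]

theorem sig_mul (x : MonoidAlgebra ℚ H) : sig ℚ H * x = aug x • sig ℚ H := by
  induction x using MonoidAlgebra.induction_linear with
  | zero => simp [aug]
  | add f g hf hg =>
    rw [mul_add, hf, hg, ← add_smul]
    congr 1
    simp [aug, Finset.sum_add_distrib]
  | single x r =>
    ext y
    rw [cms, sig, coeff_elt, coeff_smul_apply, coeff_elt, smul_eq_mul, mul_comm]
    congr 1
    simp [aug]

theorem sig_ne_zero : sig ℚ H ≠ 0 := by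
  intro h
  have := congrArg (fun x => x.coeff 1) h
  simp [sig] at this

omit [Group H] in
theorem odd_sum_of_signs (hodd : Odd (Fintype.card H)) (ε : H → ℤ) (hε : ε ∈ signs H) :
    Odd (∑ h, ε h) := by
  classical
  rw [signs, Fintype.mem_piFinset] at hε
  have h1 : ∀ h, Odd (ε h) := by
    intro h
    have := hε h
    simp only [Finset.mem_insert, Finset.mem_singleton] at this
    rcases this with h | h
    · rw [h]
      exact odd_one
    · rw [h]
      decide
  have h2 : (2 : ℤ) ∣ ∑ h, (ε h - 1) := by
    refine Finset.dvd_sum fun h _ => ?_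
    obtain ⟨k, hk⟩ := h1 h
    exact ⟨k, by rw [hk]; ring⟩
  rw [Finset.sum_sub_distrib] at h2
  simp only [Finset.sum_const, Finset.card_univ, nsmul_eq_mul, mul_one] at h2
  obtain ⟨k, hk⟩ := h2
  obtain ⟨l, hl⟩ := hodd
  refine ⟨k + l, ?_⟩
  rw [hl] at hk
  push_cast at hk
  linarith

/-- (T4) the trivial type is never bad -/
theorem not_badAt (hodd : Odd (Fintype.card H)) (e : MonoidAlgebra ℚ H) (he : IsType e)
    (h0 : aug e ≠ 0) (ε : H → ℤ) (hε : ε ∈ signs H) : ¬ BadAt e ε := by
  rintro ⟨x, hx, hex, hxe⟩
  have hsc : Cen (sig ℚ H) := by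
    intro b
    rw [mul_sig, sig_mul]
  have hne : sig ℚ H * e ≠ 0 := by
    rw [sig_mul]
    exact smul_ne_zero h0 sig_ne_zero
  obtain ⟨c', hc', hcc⟩ := he.field _ hsc hne
  have h1 : toQ x = (aug (c' * e * toQ x)) • sig ℚ H := by
    rw [← sig_mul, ← mul_assoc, ← mul_assoc, hcc, hex]
  have h2 : toQ x * toQ (elt ε) = 0 := by
    rw [← map_mul, hxe, map_zero]
  rw [h1, smul_mul_assoc, sig_mul, smul_smul] at h2
  have h3 : aug (toQ (elt ε)) ≠ 0 := by
    have h4 : aug (toQ (elt ε)) = ((∑ h, ε h : ℤ) : ℚ) := by
      simp [aug]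
    rw [h4]
    have h5 := odd_sum_of_signs hodd ε hε
    intro h6
    have h7 : ∑ h, ε h = 0 := by exact_mod_cast h6
    rw [h7] at h5
    exact absurd h5 (by decide)
  rcases smul_eq_zero.1 h2 with h4 | h4
  · rcases mul_eq_zero.1 h4 with h5 | h5
    · apply hx
      apply toQ_injective
      rw [h1, h5, zero_smul, map_zero]
    · exact h3 h5
  · exact sig_ne_zero h4

/-! ### (T3) -/

/-- the involution of the group algebra -/
noncomputable def str {R : Type} [Semiring R] (a : MonoidAlgebra R H) : MonoidAlgebra R H :=
  elt fun h => a.coeff h⁻¹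

theorem coeff_str {R : Type} [Semiring R] (a : MonoidAlgebra R H) (h : H) :
    (str a).coeff h = a.coeff h⁻¹ := rfl

theorem str_add {R : Type} [Semiring R] (a b : MonoidAlgebra R H) :
    str (a + b) = str a + str b := by
  ext h
  simp [coeff_str]

theorem str_smul {R : Type} [Semiring R] (r : R) (a : MonoidAlgebra R H) :
    str (r • a) = r • str a := by
  ext h
  rw [coeff_str, coeff_smul_apply, coeff_smul_apply, coeff_str]

theorem str_single {R : Type} [Semiring R] (x : H) (r : R) :
    str (single x r : MonoidAlgebra R H) = single x⁻¹ r := by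
  classical
  ext h
  rw [coeff_str, coeff_single, coeff_single, Finsupp.single_apply, Finsupp.single_apply]
  congr 1
  rw [eq_iff_iff, inv_eq_iff_eq_inv]

theorem str_str {R : Type} [Semiring R] (a : MonoidAlgebra R H) : str (str a) = a := by
  ext h
  rw [coeff_str, coeff_str, inv_inv]

theorem str_mul {R : Type} [CommSemiring R] (a b : MonoidAlgebra R H) :
    str (a * b) = str b * str a := by
  induction a using MonoidAlgebra.induction_linear with
  | zero =>
    have h0 : str (0 : MonoidAlgebra R H) = 0 := by
      ext h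
      simp [coeff_str]
    simp [h0]
  | add f g hf hg => rw [add_mul, str_add, hf, hg, str_add, mul_add]
  | single x r =>
    induction b using MonoidAlgebra.induction_linear with
    | zero =>
      have h0 : str (0 : MonoidAlgebra R H) = 0 := by
        ext h
        simp [coeff_str]
      simp [h0]
    | add f g hf hg => rw [mul_add, str_add, hf, hg, str_add, add_mul]
    | single y s =>
      rw [single_mul_single, str_single, str_single, str_single, single_mul_single, mul_inv_rev,
        mul_comm r]

/-- rational types are self dual -/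
theorem str_eq_self {e : MonoidAlgebra ℚ H} (he : IsType e) : str e = e := by
  classical
  have hcen : Cen (str e) := by
    intro x
    have h1 := he.central (str x)
    have h2 := congrArg str h1
    rw [str_mul, str_mul, str_str] at h2
    exact h2.symm
  have hid : str e * str e = str e := by rw [← str_mul, he.idem]
  have hne : str e * e ≠ 0 := by
    intro h0
    have h1 : (str e * e).coeff 1 = ∑ h, e.coeff h * e.coeff h := by
      have h2 : str e = ∑ h : H, single h⁻¹ (e.coeff h) := by
        ext x
        rw [coeff_str]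
        have : (∑ h : H, single h⁻¹ (e.coeff h) : MonoidAlgebra ℚ H).coeff x =
            ∑ h : H, (single h⁻¹ (e.coeff h) : MonoidAlgebra ℚ H).coeff x := by
          simp
        rw [this, Finset.sum_eq_single x⁻¹]
        · simp
        · intro b _ hb
          rw [coeff_single, Finsupp.single_apply, if_neg]
          rintro rfl
          simp at hb
        · intro h
          exact absurd (Finset.mem_univ _) h
      rw [h2, Finset.sum_mul]
      have : (∑ h : H, single h⁻¹ (e.coeff h) * e : MonoidAlgebra ℚ H).coeff 1 =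
            ∑ h : H, (single h⁻¹ (e.coeff h) * e : MonoidAlgebra ℚ H).coeff 1 := by
          simp
      rw [this]
      refine Finset.sum_congr rfl fun h _ => ?_
      rw [csm]
      simp
    rw [h0] at h1
    have h3 : ∀ h, e.coeff h = 0 := by
      intro h
      have h4 : ∑ h, e.coeff h * e.coeff h = 0 := by
        rw [← h1]
        simp
      have h5 := (Finset.sum_eq_zero_iff_of_nonneg fun h _ => mul_self_nonneg (e.coeff h)).1 h4 h
        (Finset.mem_univ h)
      exact mul_self_eq_zero.1 h5
    apply he.ne_zero
    ext h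
    rw [h3]
    simp
  obtain ⟨c', hc', hcc⟩ := he.field _ hcen hne
  have h1 : str e * e = e := by
    have h3 : str e * e = str e * (str e * c' * e) := by rw [hcc]
    rw [h3, ← mul_assoc, ← mul_assoc, hid, hcc]
  have h2 := congrArg str h1
  rw [str_mul, str_str, h1] at h2
  exact h2.symm

theorem inv_not_conj (hodd : Odd (Fintype.card H)) {h : H} (hc : IsConj h h⁻¹) : h = 1 := by
  obtain ⟨x, hx⟩ := isConj_iff.1 hc
  have h1 : Commute (x ^ 2) h := by
    have h2 : x * h = h⁻¹ * x := by rw [← hx]; group
    have h3 : x * h⁻¹ = h * x := by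
      have h4 : x * h⁻¹ * x⁻¹ = h := by
        have := congrArg Inv.inv hx
        rw [inv_inv] at this
        simpa [mul_assoc] using this
      calc x * h⁻¹ = x * h⁻¹ * x⁻¹ * x := by group
        _ = h * x := by rw [h4]
    change x ^ 2 * h = h * x ^ 2
    rw [pow_two, mul_assoc, h2, ← mul_assoc, h3, mul_assoc]
  have h2 : Commute x h := by
    obtain ⟨k, hk⟩ := hodd
    have h3 : x ^ (2 * (k + 1)) = x := by
      rw [show 2 * (k + 1) = Fintype.card H + 1 by omega, pow_succ, pow_card_eq_one, one_mul]
    rw [← h3, pow_mul]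
    exact h1.pow_left _
  have h3 : h = h⁻¹ := by
    rw [← hx, h2.eq, mul_inv_cancel_right]
  have h4 : h ^ 2 = 1 := by
    rw [pow_two]
    nth_rewrite 2 [h3]
    exact mul_inv_cancel h
  obtain ⟨k, hk⟩ := hodd
  have h5 : h ^ (2 * k + 1) = 1 := by
    rw [← hk]
    exact pow_card_eq_one
  rw [pow_succ, pow_mul, h4, one_pow, one_mul] at h5
  exact h5

/-- (T3) -/
theorem two_le_zc (hodd : Odd (Fintype.card H)) (e : MonoidAlgebra ℚ H) (he : IsType e)
    (h0 : aug e = 0) : 2 ≤ zc e := by
  classical
  have hemem : e ∈ cen e := ⟨he.idem, he.central⟩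
  by_contra hlt
  have hle : finrank ℚ (cen e) ≤ 1 := by
    have : zc e = finrank ℚ (cen e) := rfl
    omega
  -- the centre is spanned by `e`
  have hspan : ∀ y ∈ cen e, ∃ l : ℚ, y = l • e := by
    obtain ⟨v, hv⟩ := finrank_le_one_iff.1 hle
    obtain ⟨a, ha⟩ := hv ⟨e, hemem⟩
    have ha' : a • v.1 = e := congrArg Subtype.val ha
    have ha0 : a ≠ 0 := by
      rintro rfl
      rw [zero_smul] at ha'
      exact he.ne_zero ha'.symm
    intro y hy
    obtain ⟨b, hb⟩ := hv ⟨y, hy⟩
    have hb' : b • v.1 = y := congrArg Subtype.val hb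
    refine ⟨b * a⁻¹, ?_⟩
    rw [← ha', ← hb', smul_smul, mul_assoc, inv_mul_cancel₀ ha0, mul_one]
  -- half of the nontrivial elements
  obtain ⟨F, hF⟩ : ∃ F : ConjClasses H → ℕ, Function.Injective F := by
    haveI : Fintype (ConjClasses H) := Fintype.ofFinite _
    exact ⟨fun c => (Fintype.equivFin (ConjClasses H) c : ℕ), fun a b h =>
      (Fintype.equivFin (ConjClasses H)).injective (Fin.ext h)⟩
  let G : H → ℕ := fun h => F (ConjClasses.mk h)
  have hGc : ∀ x h : H, G (x * h * x⁻¹) = G h := by
    intro x h
    change F _ = F _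
    congr 1
    rw [ConjClasses.mk_eq_mk_iff_isConj, isConj_comm]
    exact isConj_iff.2 ⟨x, rfl⟩
  have hGne : ∀ h : H, h ≠ 1 → G h ≠ G h⁻¹ := by
    intro h hh hG
    apply hh
    apply inv_not_conj hodd
    rw [← ConjClasses.mk_eq_mk_iff_isConj]
    exact hF hG
  set t : MonoidAlgebra ℤ H := elt fun h => if G h < G h⁻¹ then 1 else 0 with ht
  set t' : MonoidAlgebra ℤ H := elt fun h => if G h⁻¹ < G h then 1 else 0 with ht'
  have htt : 1 + t + t' = sig ℤ H := by
    ext h
    have h1 : (1 + t + t').coeff h = (1 : MonoidAlgebra ℤ H).coeff h + t.coeff h + t'.coeff h := by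
      simp
    rw [h1, ht, ht', coeff_elt, coeff_elt, sig, coeff_elt, one_def, coeff_single,
      Finsupp.single_apply]
    by_cases hh : h = 1
    · subst hh
      simp
    · have h2 := hGne h hh
      rw [if_neg (Ne.symm hh)]
      rcases lt_or_gt_of_ne h2 with h3 | h3
      · rw [if_pos h3, if_neg (by omega)]
        norm_num
      · rw [if_neg (by omega), if_pos h3]
        norm_num
  have htc : Cen t := by
    rw [cen_iff]
    intro x h
    rw [ht, coeff_elt, coeff_elt, hGc]
    have h1 : (x * h * x⁻¹)⁻¹ = x * h⁻¹ * x⁻¹ := by group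
    rw [h1, hGc]
  have hst : str (toQ t) = toQ t' := by
    ext h
    rw [coeff_str, coeff_toQ, coeff_toQ, ht, ht', coeff_elt, coeff_elt, inv_inv]
  have htq : Cen (toQ t) := cen_toQ.2 htc
  obtain ⟨l, hl⟩ := hspan (toQ t * e) ⟨by
      rw [← mul_assoc, he.central, mul_assoc, he.idem], by
      intro y
      rw [mul_assoc, he.central, ← mul_assoc, htq, mul_assoc]⟩
  have hl' : toQ t' * e = l • e := by
    have h1 := congrArg str hl
    rw [str_mul, str_smul, str_eq_self he, hst, he.central] at h1
    exact h1
  have hsum : (1 + 2 * l) • e = 0 := by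
    have h1 : toQ (1 + t + t') * e = 0 := by
      have h2 : toQ (sig ℤ H) = sig ℚ H := by
        ext h
        simp [sig]
      rw [htt, h2, sig_mul, h0, zero_smul]
    rw [map_add, map_add, map_one, add_mul, add_mul, one_mul, hl, hl'] at h1
    rw [← h1, add_smul, one_smul, two_mul, add_smul, add_assoc]
  have hl2 : l = -(1 / 2) := by
    rcases smul_eq_zero.1 hsum with h1 | h1
    · linarith
    · exact absurd h1 he.ne_zero
  -- infinite descent
  obtain ⟨m, hm, c, hc⟩ := exists_denominator e
  have hm' : (m : ℚ) ≠ 0 := by exact_mod_cast hm.ne'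
  have hrec : c = (-2 : ℤ) • (t * c) := by
    apply toQ_injective
    rw [toQ_smul, map_mul, hc, mul_smul_comm, hl, hl2, smul_smul, smul_smul]
    congr 1
    push_cast
    ring
  have hpow : ∀ j : ℕ, ∃ d : MonoidAlgebra ℤ H, c = (2 ^ j : ℤ) • d := by
    intro j
    suffices h : c = ((-2) ^ j : ℤ) • (t ^ j * c) by
      refine ⟨((-1) ^ j : ℤ) • (t ^ j * c), ?_⟩
      rw [smul_smul, ← mul_pow, show (2 * -1 : ℤ) = -2 by norm_num]
      exact h
    induction j with
    | zero => simp
    | succ j ih =>
      conv_lhs => rw [ih]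
      conv_lhs => rw [hrec]
      rw [mul_smul_comm, smul_smul, ← mul_assoc, ← pow_succ, ← pow_succ]
  have hc0 : c = 0 := by
    ext h
    have hdvd : ∀ j : ℕ, (2 ^ j : ℤ) ∣ c.coeff h := by
      intro j
      obtain ⟨d, hd⟩ := hpow j
      refine ⟨d.coeff h, ?_⟩
      conv_lhs => rw [hd]
      rw [coeff_smul_apply, smul_eq_mul]
    by_contra hne
    have h1 := hdvd (c.coeff h).natAbs
    have h2 := Int.natAbs_dvd_natAbs.2 h1
    rw [Int.natAbs_pow] at h2
    have h3 := Nat.le_of_dvd (Int.natAbs_pos.2 hne) h2
    have h4 := Nat.lt_two_pow_self (n := (c.coeff h).natAbs)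
    have h5 : (2 : ℤ).natAbs = 2 := rfl
    rw [h5] at h3
    omega
  rw [hc0, map_zero] at hc
  rcases smul_eq_zero.1 hc.symm with h1 | h1
  · exact hm' h1
  · exact he.ne_zero h1

end Pool.Agent.Lib.MP_640417_ag.OddGal
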