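import Pool.Agent.Lib.MP_640417_ag.OddBlockD
import Pool.Agent.Lib.MP_640417_ag.OddAlgE

/-!
# The share of sign vectors which are singular at a given type
-/

namespace Pool.Agent.Lib.MP_640417_ag.OddGal

open Module Finset Matrix

set_option linter.unusedSectionVars false

section CD

variable {H : Type} [Group H] [Fintype H]

/-- At a bad sign vector all blocks are singular. -/
lemma exists_row_of_badAt {p : ℕ} [Fact p.Prime] {ι : Type} [Fintype ι] [DecidableEq ι]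
    {D : ι → Type} [∀ i, Field (D i)] [∀ i, Fintype (D i)] [∀ i, Algebra (ZMod p) (D i)]
    {n : ι → ℕ} (hp : ¬ p ∣ Fintype.card H) (hn : ∀ i, 0 < n i)
    (w : MonoidAlgebra (ZMod p) H ≃ₐ[ZMod p] ((i : ι) → Matrix (Fin (n i)) (Fin (n i)) (D i)))
    (e : MonoidAlgebra ℚ H) (he : IsType e) (ε : H → ℤ) (h : BadAt e ε) (i : ι)
    (hi : i ∈ blocksOf w e) :
    ∃ v : Fin (n i) → D i, v ≠ 0 ∧ v ᵥ* w (red p (elt ε)) i = 0 := by
  obtain ⟨x, _, hx2, hx3⟩ := lemmaA hp hn w e he (elt ε) h i hi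
  have h1 : w (red p x) i * w (red p (elt ε)) i = 0 := by
    rw [← Pi.mul_apply, ← map_mul, ← map_mul, hx2, map_zero, map_zero, Pi.zero_apply]
  obtain ⟨j, hj⟩ : ∃ j, w (red p x) i j ≠ 0 := by
    by_contra h0
    push Not at h0
    exact hx3 (Matrix.ext (fun a b => congrFun (h0 a) b))
  refine ⟨w (red p x) i j, hj, ?_⟩
  have h2 := congrFun h1 j
  rw [Matrix.mul_apply_eq_vecMul] at h2
  exact h2

lemma badSet_subset (e : MonoidAlgebra ℚ H) : badSet e ⊆ signs H := by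
  classical
  exact Finset.filter_subset _ _

lemma badAt_of_mem (e : MonoidAlgebra ℚ H) (ε : H → ℤ) (h : ε ∈ badSet e) : BadAt e ε := by
  classical
  simp only [badSet, Finset.mem_filter] at h
  exact h.2

/-- Lemma C. -/
theorem lemmaC (p : ℕ) [Fact p.Prime] (hp2 : p ≠ 2) (hp : ¬ p ∣ Fintype.card H)
    (e : MonoidAlgebra ℚ H) (he : IsType e) (d : ℕ) (hd2 : zc e * rk e ≤ d ^ 2)
    (hnum : 4 * d * Real.exp (-(2 * ((Fintype.card H / d : ℕ) : ℝ) / p ^ 2)) ≤ 1) :
    ((badSet e).card : ℝ) * (p - 1) ^ zc e ≤ 3 * 2 ^ Fintype.card H := by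
  classical
  obtain ⟨k, D, n, iF, iT, iA, hn, ⟨w⟩⟩ := exists_blocks H p hp
  rw [← sum_finrank_eq hp hn w e he]
  apply card_mul_le_of_singular w (blocksOf w e) (badSet e) (badSet_subset e)
  · intro ε hε i hi
    exact exists_row_of_badAt hp hn w e he ε (badAt_of_mem e ε hε) i hi
  · apply sum_card_relSet_le hp2 w (blocksOf w e) d _ hnum
    have h1 := Finset.sum_sq_le_sum_mul_sum_of_sq_le_mul (blocksOf w e)
      (r := fun i => n i * finrank (ZMod p) (D i)) (f := fun i => finrank (ZMod p) (D i))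
      (g := fun i => n i ^ 2 * finrank (ZMod p) (D i)) (fun _ _ => Nat.zero_le _)
      (fun _ _ => Nat.zero_le _) (fun i _ => le_of_eq (by ring))
    have h2 := sum_sq_le hp hn w e he
    rw [sum_finrank_eq hp hn w e he] at h1
    have h3 : (∑ i ∈ blocksOf w e, n i * finrank (ZMod p) (D i)) ^ 2 ≤ d ^ 2 :=
      h1.trans ((Nat.mul_le_mul_left _ h2).trans hd2)
    exact (Nat.pow_le_pow_iff_left two_ne_zero).mp h3

/-- Lemma D. -/
theorem lemmaD (p : ℕ) [Fact p.Prime] (hp2 : p ≠ 2) (hp : ¬ p ∣ Fintype.card H)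
    (e : MonoidAlgebra ℚ H) (he : IsType e) (h : zc e < rk e) (τ : ℕ)
    (h1 : 2 * (2 * τ + 1) ^ rk e ≤ p)
    (h2 : (p : ℝ) ^ rk e *
      Real.exp (-(2 * (τ / p : ℝ) ^ 2 * (Fintype.card H / (2 * rk e)))) ≤ 1) :
    ((badSet e).card : ℝ) * (p - 1) ^ zc e ≤ 3 * 2 ^ Fintype.card H := by
  classical
  obtain ⟨k, D, n, iF, iT, iA, hn, ⟨w⟩⟩ := exists_blocks H p hp
  rw [← sum_finrank_eq hp hn w e he]
  apply card_mul_le_of_singular w (blocksOf w e) (badSet e) (badSet_subset e)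
  · intro ε hε i hi
    exact exists_row_of_badAt hp hn w e he ε (badAt_of_mem e ε hε) i hi
  · exact sum_card_relSet_leD hp2 w (blocksOf w e) (fun i hi => two_le_n hp hn w e he h i hi)
      (rk e) τ (sum_sq_le hp hn w e he) h1 h2

end CD

end Pool.Agent.Lib.MP_640417_ag.OddGal
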