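import Pool.Agent.Lib.MP_640417_ag.OddNumeric

/-!
# The numerical summation over the types, end
-/

namespace Pool.Agent.Lib.MP_640417_ag.OddGal

open Finset

/-- Types with at least three-dimensional centre (and not too large). -/
lemma bound_three {g z m A : ℕ} {b : ℝ} (hb : 0 ≤ b) (hz : 3 ≤ z) (hm : 0 < m) (hzz : z ≤ zz g)
    (hmg : m ≤ g) (hA : 2 ≤ A) (hbig : ((4 * 2 ^ 34) ^ 4 * 4096) ^ 2 * A ^ 8 * zz g ^ 11 ≤ g)
    (h : HypC g z m b) : b * g * A ≤ 192 * 2 ^ 34 * m := by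
  obtain ⟨s, X, hs0, hs1, hs2, hsg, hX, hX', hAX, hX2, hXg⟩ :=
    exists_params (by omega) hm hzz hmg hA hbig
  have h1 := use_hypC hb hs0 hs1 hsg hX hX2 hXg h
  have hX1r : (1 : ℝ) ≤ X := by exact_mod_cast (by omega : 1 ≤ X)
  have h2 : b * (X : ℝ) ^ 3 ≤ 3 := by
    refine le_trans ?_ h1
    apply mul_le_mul_of_nonneg_left _ hb
    exact pow_le_pow_right₀ hX1r hz
  have hgr : (g : ℝ) ≤ 4 * 2 ^ 34 * s ^ 3 * X ^ 2 := by exact_mod_cast hX'
  have hAXr : (A : ℝ) * zz g ≤ X := by exact_mod_cast hAX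
  have hs2r : (s : ℝ) ^ 4 ≤ 16 * (z * m) := by exact_mod_cast hs2
  have hs0r : (1 : ℝ) ≤ s := by exact_mod_cast hs0
  have hzr : (z : ℝ) ≤ zz g := by exact_mod_cast hzz
  have hZ0 : (0 : ℝ) < zz g := by exact_mod_cast zz_pos g
  have hA0 : (0 : ℝ) ≤ A := Nat.cast_nonneg A
  have hm0 : (0 : ℝ) ≤ m := Nat.cast_nonneg m
  have hs3 : (s : ℝ) ^ 3 ≤ s ^ 4 := pow_le_pow_right₀ hs0r (by norm_num)
  have h3 : (b * g * A) * zz g ≤ (192 * 2 ^ 34 * m) * zz g := by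
    calc (b * g * A) * zz g = b * g * (A * zz g) := by ring
      _ ≤ b * (4 * 2 ^ 34 * s ^ 3 * X ^ 2) * X := by gcongr
      _ = (4 * 2 ^ 34 * s ^ 3) * (b * (X : ℝ) ^ 3) := by ring
      _ ≤ (4 * 2 ^ 34 * s ^ 4) * 3 := by gcongr
      _ ≤ (4 * 2 ^ 34 * (16 * (zz g * m))) * 3 := by
          have : (16 : ℝ) * (z * m) ≤ 16 * (zz g * m) := by gcongr
          gcongr
          linarith
      _ = (192 * 2 ^ 34 * m) * zz g := by ring
  exact le_of_mul_le_mul_right h3 hZ0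

/-- Types with two-dimensional centre. -/
lemma bound_two {g m A : ℕ} {b : ℝ} (hb : 0 ≤ b) (hm : 0 < m) (hzz : 2 ≤ zz g)
    (hmg : m ≤ g) (hA : 2 ≤ A) (hbig : ((4 * 2 ^ 34) ^ 4 * 4096) ^ 2 * A ^ 8 * zz g ^ 11 ≤ g)
    (h : HypC g 2 m b) :
    ∃ s : ℕ, 0 < s ∧ 2 * m ≤ s ^ 4 ∧ s ^ 4 ≤ 32 * m ∧ b * g ≤ 12 * 2 ^ 34 * s ^ 3 := by
  obtain ⟨s, X, hs0, hs1, hs2, hsg, hX, hX', hAX, hX2, hXg⟩ :=
    exists_params (by norm_num) hm hzz hmg hA hbig
  have h1 := use_hypC hb hs0 hs1 hsg hX hX2 hXg h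
  refine ⟨s, hs0, hs1, by omega, ?_⟩
  have hgr : (g : ℝ) ≤ 4 * 2 ^ 34 * s ^ 3 * X ^ 2 := by exact_mod_cast hX'
  calc b * g ≤ b * (4 * 2 ^ 34 * s ^ 3 * X ^ 2) := by gcongr
    _ = (4 * 2 ^ 34 * s ^ 3) * (b * (X : ℝ) ^ 2) := by ring
    _ ≤ (4 * 2 ^ 34 * s ^ 3) * 3 := by gcongr
    _ = 12 * 2 ^ 34 * s ^ 3 := by ring

lemma bound_two_large {g m A S : ℕ} {b : ℝ} (hb : 0 ≤ b) (hm : 0 < m) (hzz : 2 ≤ zz g)
    (hmg : m ≤ g) (hA : 2 ≤ A) (hbig : ((4 * 2 ^ 34) ^ 4 * 4096) ^ 2 * A ^ 8 * zz g ^ 11 ≤ g)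
    (h : HypC g 2 m b) (hS : S ^ 4 ≤ m) : b * g * S ≤ 384 * 2 ^ 34 * m := by
  obtain ⟨s, hs0, hs1, hs2, hbg⟩ := bound_two hb hm hzz hmg hA hbig h
  have h1 : S ≤ s := by
    have h2 : S ^ 4 ≤ s ^ 4 := by omega
    exact (Nat.pow_le_pow_iff_left (by norm_num)).mp h2
  have h1r : (S : ℝ) ≤ s := by exact_mod_cast h1
  have hs2r : (s : ℝ) ^ 4 ≤ 32 * m := by exact_mod_cast hs2
  have hbg0 : 0 ≤ b * g := by positivity
  calc b * g * S ≤ (12 * 2 ^ 34 * s ^ 3) * s := by gcongr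
    _ = 12 * 2 ^ 34 * s ^ 4 := by ring
    _ ≤ 12 * 2 ^ 34 * (32 * m) := by gcongr
    _ = 384 * 2 ^ 34 * m := by ring

lemma bound_two_two {g A : ℕ} {b : ℝ} (hb : 0 ≤ b) (hzz : 2 ≤ zz g)
    (hmg : 2 ≤ g) (hA : 2 ≤ A) (hbig : ((4 * 2 ^ 34) ^ 4 * 4096) ^ 2 * A ^ 8 * zz g ^ 11 ≤ g)
    (h : HypC g 2 2 b) : b * g ≤ 96 * 2 ^ 34 := by
  obtain ⟨s, hs0, hs1, hs2, hbg⟩ := bound_two hb (by norm_num) hzz hmg hA hbig h
  have h1 : s ≤ 2 := by
    by_contra h3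
    have h4 : 3 ^ 4 ≤ s ^ 4 := Nat.pow_le_pow_left (by omega) 4
    omega
  have h1r : (s : ℝ) ≤ 2 := by exact_mod_cast h1
  calc b * g ≤ 12 * 2 ^ 34 * s ^ 3 := hbg
    _ ≤ 12 * 2 ^ 34 * 2 ^ 3 := by gcongr
    _ = 96 * 2 ^ 34 := by norm_num

/-- Types with two-dimensional centre and bounded dimension. -/
lemma bound_small {g m K y : ℕ} {b : ℝ} (hb : 0 ≤ b) (hm : 0 < m) (hmK : m ≤ K)
    (hy : y ^ (8 * K) ≤ g) (hy2 : g < (y + 1) ^ (8 * K)) (hyK : 2 ^ 37 * K ^ 3 ≤ y)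
    (h : HypD g 2 m b) : b * g * y ≤ 12 := by
  have h1 := use_hypD hb hm hmK hy hy2 hyK h
  have hK : 0 < K := lt_of_lt_of_le hm hmK
  have hK3 : 1 ≤ K ^ 3 := Nat.one_le_pow _ _ hK
  have hy0 : 1 ≤ y := by nlinarith
  have hg1 : 1 ≤ g := le_trans (Nat.one_le_pow _ _ hy0) hy
  have hs1 : 1 ≤ Nat.sqrt g := by
    rw [Nat.le_sqrt]
    exact hg1
  have hlt : g < (Nat.sqrt g + 1) * (Nat.sqrt g + 1) := Nat.lt_succ_sqrt g
  have h2 : g ≤ 4 * Nat.sqrt g ^ 2 := by nlinarith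
  have h2r : (g : ℝ) ≤ 4 * ((Nat.sqrt g : ℕ) : ℝ) ^ 2 := by exact_mod_cast h2
  have hy1r : (1 : ℝ) ≤ y := by exact_mod_cast hy0
  push_cast at h1
  calc b * g * y ≤ b * (4 * ((Nat.sqrt g : ℕ) : ℝ) ^ 2) * (y : ℝ) ^ 2 := by
        have : (y : ℝ) ≤ (y : ℝ) ^ 2 := by nlinarith
        gcongr
    _ = 4 * (b * (((Nat.sqrt g : ℕ) : ℝ) * y) ^ 2) := by ring
    _ ≤ 4 * 3 := by gcongr
    _ = 12 := by norm_num

lemma exists_root (g E : ℕ) (hE : 0 < E) : ∃ y : ℕ, y ^ E ≤ g ∧ g < (y + 1) ^ E := by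
  classical
  refine ⟨Nat.findGreatest (fun y => y ^ E ≤ g) g, ?_, ?_⟩
  · exact Nat.findGreatest_spec (P := fun y => y ^ E ≤ g) (m := 0) (Nat.zero_le g)
      (by rw [zero_pow hE.ne']; exact Nat.zero_le g)
  · by_contra h
    rw [not_lt] at h
    rcases Nat.lt_or_ge g (Nat.findGreatest (fun y => y ^ E ≤ g) g + 1) with h1 | h1
    · have h2 : Nat.findGreatest (fun y => y ^ E ≤ g) g + 1
          ≤ (Nat.findGreatest (fun y => y ^ E ≤ g) g + 1) ^ E := Nat.le_self_pow hE.ne' _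
      omega
    · exact Nat.findGreatest_is_greatest (P := fun y => y ^ E ≤ g) (Nat.lt_succ_self _) h1 h

/-- **Numeric summation.** -/
theorem numeric (η : ℝ) (hη : 0 < η) : ∃ M : ℕ, 0 < M ∧ ∀ g N : ℕ, M ≤ g → N * M ≤ g →
    ∀ (J : Type) [Fintype J] (z m : J → ℕ) (b : J → ℝ), ∑ j, m j ≤ g →
      (∀ j, 2 ≤ z j ∧ z j ≤ m j) → (∀ j, 0 ≤ b j) →
      (∀ j, b j ≤ (3 / 4) ^ z j) →
      (∀ j, HypC g (z j) (m j) (b j)) →
      (∀ j, z j < m j → HypD g (z j) (m j) (b j)) →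
      Nat.card {j : J // m j = 2} ≤ N → ∑ j, b j ≤ η := by
  classical
  obtain ⟨A, hA⟩ : ∃ A : ℕ, 2 ≤ A ∧ 192 * 2 ^ 34 ≤ (η / 2) * A := by
    obtain ⟨a, ha⟩ := exists_nat_gt (192 * 2 ^ 34 / (η / 2))
    refine ⟨a + 2, by omega, ?_⟩
    rw [div_lt_iff₀ (by positivity)] at ha
    push_cast
    nlinarith
  obtain ⟨S, hS⟩ : ∃ S : ℕ, 1 ≤ S ∧ 384 * 2 ^ 34 ≤ (η / 2) * S := by
    obtain ⟨a, ha⟩ := exists_nat_gt (384 * 2 ^ 34 / (η / 2))
    refine ⟨a + 1, by omega, ?_⟩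
    rw [div_lt_iff₀ (by positivity)] at ha
    push_cast
    nlinarith
  set K := S ^ 4 with hK
  have hK0 : 0 < K := by
    rw [hK]
    have := hS.1
    positivity
  obtain ⟨Y, hY⟩ : ∃ Y : ℕ, 2 ^ 37 * K ^ 3 ≤ Y ∧ 12 ≤ (η / 2) * Y := by
    obtain ⟨a, ha⟩ := exists_nat_gt (12 / (η / 2))
    refine ⟨a + 2 ^ 37 * K ^ 3, by omega, ?_⟩
    rw [div_lt_iff₀ (by positivity)] at ha
    push_cast
    have : (0 : ℝ) ≤ (η / 2) * (2 ^ 37 * (K : ℝ) ^ 3) := by positivity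
    nlinarith
  obtain ⟨M1, hM1⟩ := eventually_big (((4 * 2 ^ 34) ^ 4 * 4096) ^ 2 * A ^ 8)
  obtain ⟨M2, hM2⟩ : ∃ a : ℕ, 96 * 2 ^ 34 ≤ (η / 2) * a := by
    obtain ⟨a, ha⟩ := exists_nat_gt (96 * 2 ^ 34 / (η / 2))
    refine ⟨a, ?_⟩
    rw [div_lt_iff₀ (by positivity)] at ha
    linarith
  obtain ⟨M3, hM3⟩ : ∃ a : ℕ, 1 ≤ (η / 2) * a := by
    obtain ⟨a, ha⟩ := exists_nat_gt (1 / (η / 2))
    refine ⟨a, ?_⟩
    rw [div_lt_iff₀ (by positivity)] at ha
    linarith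
  refine ⟨M1 + M2 + M3 + Y ^ (8 * K) + 2, by omega, ?_⟩
  intro g N hg hN J _ z m b hsum hzm hb0 hB hC hD hcard
  have hg1 : M1 ≤ g := by omega
  have hg2 : M2 ≤ g := by omega
  have hg3 : M3 ≤ g := by omega
  have hg4 : Y ^ (8 * K) ≤ g := by omega
  have hg0 : 0 < g := by omega
  have hg0r : (0 : ℝ) < g := by exact_mod_cast hg0
  have hbig := hM1 g hg1
  obtain ⟨y, hy1, hy2⟩ := exists_root g (8 * K) (by omega)
  have hYy : Y ≤ y := by
    by_contra h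
    rw [not_le] at h
    have h1 : (y + 1) ^ (8 * K) ≤ Y ^ (8 * K) := Nat.pow_le_pow_left h _
    omega
  have hYyr : (Y : ℝ) ≤ y := by exact_mod_cast hYy
  have hzz2 : 2 ≤ zz g := by
    rw [zz]
    omega
  have hmg : ∀ j, m j ≤ g := fun j =>
    le_trans (Finset.single_le_sum (f := m) (fun _ _ => Nat.zero_le _) (Finset.mem_univ j)) hsum
  -- the individual bounds
  have hmain : ∀ j, m j ≠ 2 → b j * g ≤ (η / 2) * m j := by
    intro j hj
    obtain ⟨hz2, hzmj⟩ := hzm j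
    have hm0 : 0 < m j := by omega
    have hm0r : (1 : ℝ) ≤ m j := by exact_mod_cast hm0
    have hbj := hb0 j
    rcases Nat.lt_or_ge (z j) (zz g) with hz | hz
    · rcases Nat.lt_or_ge 2 (z j) with hz3 | hz3
      · have h1 := bound_three hbj hz3 hm0 hz.le (hmg j) hA.1 hbig (hC j)
        have hA0 : (0 : ℝ) < A := by exact_mod_cast (by omega : 0 < A)
        have h2 : (b j * g) * A ≤ ((η / 2) * m j) * A := by
          calc (b j * g) * A ≤ 192 * 2 ^ 34 * m j := h1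
            _ ≤ ((η / 2) * A) * m j := mul_le_mul_of_nonneg_right hA.2 (by positivity)
            _ = ((η / 2) * m j) * A := by ring
        exact le_of_mul_le_mul_right h2 hA0
      · have hz' : z j = 2 := by omega
        rcases Nat.lt_or_ge (m j) (S ^ 4) with hmS | hmS
        · have h1 := hD j (by omega)
          rw [hz'] at h1
          have h2 := bound_small hbj hm0 hmS.le hy1 hy2 (hY.1.trans hYy) h1
          have hy0 : (0 : ℝ) < y := by
            have : 0 < y := by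
              have := Nat.one_le_pow 3 K hK0
              omega
            exact_mod_cast this
          have h3 : (b j * g) * y ≤ ((η / 2) * m j) * y := by
            calc (b j * g) * y ≤ 12 := h2
              _ ≤ (η / 2) * Y := hY.2
              _ ≤ (η / 2) * y := by gcongr
              _ = ((η / 2) * 1) * y := by ring
              _ ≤ ((η / 2) * m j) * y := by gcongr
          exact le_of_mul_le_mul_right h3 hy0
        · have h1 := hC j
          rw [hz'] at h1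
          have h2 := bound_two_large hbj hm0 hzz2 (hmg j) hA.1 hbig h1 hmS
          have hS0 : (0 : ℝ) < S := by exact_mod_cast hS.1
          have h3 : (b j * g) * S ≤ ((η / 2) * m j) * S := by
            calc (b j * g) * S ≤ 384 * 2 ^ 34 * m j := h2
              _ ≤ ((η / 2) * S) * m j := mul_le_mul_of_nonneg_right hS.2 (by positivity)
              _ = ((η / 2) * m j) * S := by ring
          exact le_of_mul_le_mul_right h3 hS0
    · have h1 := three_quarters_pow g (z j) hz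
      have h2 : b j * g ^ 2 ≤ 1 := by
        refine le_trans ?_ h1
        have := hB j
        gcongr
      have h3 : (b j * g) * g ≤ ((η / 2) * m j) * g := by
        have hg3r : (M3 : ℝ) ≤ g := by exact_mod_cast hg3
        calc (b j * g) * g = b j * g ^ 2 := by ring
          _ ≤ 1 := h2
          _ ≤ (η / 2) * M3 := hM3
          _ ≤ (η / 2) * g := by gcongr
          _ = ((η / 2) * 1) * g := by ring
          _ ≤ ((η / 2) * m j) * g := by gcongr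
      exact le_of_mul_le_mul_right h3 hg0r
  have htwo : ∀ j, m j = 2 → b j * g ≤ 96 * 2 ^ 34 := by
    intro j hj
    obtain ⟨hz2, hzmj⟩ := hzm j
    have hz' : z j = 2 := by omega
    have h1 := hC j
    rw [hz', hj] at h1
    exact bound_two_two (hb0 j) hzz2 (by omega) hA.1 hbig h1
  have hsplit : ∑ j, b j = ∑ j ∈ Finset.univ.filter (fun j => m j = 2), b j
      + ∑ j ∈ Finset.univ.filter (fun j => ¬ m j = 2), b j :=
    (Finset.sum_filter_add_sum_filter_not _ _ _).symm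
  have h1 : (∑ j ∈ Finset.univ.filter (fun j => m j = 2), b j) * g ≤ (η / 2) * g := by
    rw [Finset.sum_mul]
    have h2 : ∑ j ∈ Finset.univ.filter (fun j => m j = 2), b j * g
        ≤ (Finset.univ.filter (fun j => m j = 2)).card • (96 * 2 ^ 34 : ℝ) :=
      Finset.sum_le_card_nsmul _ _ _ (fun j hj => htwo j (Finset.mem_filter.mp hj).2)
    rw [nsmul_eq_mul] at h2
    have h3 : (Finset.univ.filter (fun j => m j = 2)).card ≤ N := by
      rw [Nat.card_eq_fintype_card, Fintype.card_subtype] at hcard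
      exact hcard
    have h4 : (N : ℝ) * M2 ≤ g := by
      have h5 : N * M2 ≤ g := le_trans (Nat.mul_le_mul_left N (by omega)) hN
      exact_mod_cast h5
    have h3r : (((Finset.univ.filter (fun j => m j = 2)).card : ℕ) : ℝ) ≤ N := by exact_mod_cast h3
    calc ∑ j ∈ Finset.univ.filter (fun j => m j = 2), b j * g ≤ _ := h2
      _ ≤ (N : ℝ) * ((η / 2) * M2) := by gcongr
      _ = (η / 2) * (N * M2) := by ring
      _ ≤ (η / 2) * g := by gcongr
  have h2 : (∑ j ∈ Finset.univ.filter (fun j => ¬ m j = 2), b j) * g ≤ (η / 2) * g := by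
    rw [Finset.sum_mul]
    calc ∑ j ∈ Finset.univ.filter (fun j => ¬ m j = 2), b j * g
        ≤ ∑ j ∈ Finset.univ.filter (fun j => ¬ m j = 2), (η / 2) * m j :=
          Finset.sum_le_sum (fun j hj => hmain j (Finset.mem_filter.mp hj).2)
      _ ≤ ∑ j, (η / 2) * m j := by
          apply Finset.sum_le_sum_of_subset_of_nonneg (Finset.filter_subset _ _)
          intro j _ _
          positivity
      _ = (η / 2) * ((∑ j, m j : ℕ) : ℝ) := by
          push_cast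
          rw [Finset.mul_sum]
      _ ≤ (η / 2) * g := by
          have : ((∑ j, m j : ℕ) : ℝ) ≤ g := by exact_mod_cast hsum
          gcongr
  have h3 := le_of_mul_le_mul_right h1 hg0r
  have h4 := le_of_mul_le_mul_right h2 hg0r
  rw [hsplit]
  linarith

end Pool.Agent.Lib.MP_640417_ag.OddGal
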