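import Pool.Agent.Lib.MP_640417_ag.OddAlgE

/-!
# (T8): quadratic types and subgroups of index 3
-/

open MonoidAlgebra Module

namespace Pool.Agent.Lib.MP_640417_ag.OddGal

variable {H : Type} [Group H] [Fintype H]

omit [Fintype H] in
theorem IsType.eq_of_mul_ne_zero {e e' : MonoidAlgebra ℚ H} (he : IsType e) (he' : IsType e')
    (h : e * e' ≠ 0) : e = e' := by
  obtain ⟨c, hc, hcc⟩ := he.field e' he'.central (by rwa [he'.central])
  obtain ⟨c', hc', hcc'⟩ := he'.field e he.central h
  have h1 : e' * e = e := by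
    conv_lhs => rw [← hcc]
    rw [← mul_assoc, ← mul_assoc, he'.idem, hcc]
  have h2 : e * e' = e' := by
    conv_lhs => rw [← hcc']
    rw [← mul_assoc, ← mul_assoc, he.idem, hcc']
  rw [← h1, he'.central, h2]

/-- the kernel of a type -/
def ker (e : MonoidAlgebra ℚ H) : Subgroup H where
  carrier := {h | single h 1 * e = e}
  one_mem' := by
    change (1 : MonoidAlgebra ℚ H) * e = e
    rw [one_mul]
  mul_mem' := by
    intro a b ha hb
    change single (a * b) 1 * e = e
    have h1 : (single (a * b) 1 : MonoidAlgebra ℚ H) = single a 1 * single b 1 := by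
      rw [single_mul_single, one_mul]
    have ha' : single a 1 * e = e := ha
    have hb' : single b 1 * e = e := hb
    rw [h1, mul_assoc, hb', ha']
  inv_mem' := by
    intro a ha
    change single a⁻¹ 1 * e = e
    have ha' : single a 1 * e = e := ha
    conv_lhs => rw [← ha']
    rw [← mul_assoc, single_mul_single, inv_mul_cancel, one_mul]
    exact one_mul e

omit [Fintype H] in
theorem mem_ker {e : MonoidAlgebra ℚ H} {h : H} : h ∈ ker e ↔ single h 1 * e = e := Iff.rfl

omit [Fintype H] in
theorem ker_normal {e : MonoidAlgebra ℚ H} (he : IsType e) : (ker e).Normal := by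
  constructor
  intro n hn g
  rw [mem_ker] at hn ⊢
  have h1 : (single (g * n * g⁻¹) 1 : MonoidAlgebra ℚ H) = single g 1 * single n 1 *
      single g⁻¹ 1 := by
    rw [single_mul_single, single_mul_single, one_mul, one_mul]
  rw [h1, mul_assoc, ← he.central, ← mul_assoc, mul_assoc (single g 1), hn, mul_assoc,
    he.central, ← mul_assoc, single_mul_single, mul_inv_cancel, one_mul]
  exact one_mul e

theorem le_three_of_totient {r : ℕ} (hr : Odd r) (h : r.totient ≤ 2) : r ≤ 3 := by
  by_contra hlt
  have h5 : 5 ≤ r := by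
    rcases hr with ⟨k, hk⟩
    omega
  have hsub : ({1, 2, 4} : Finset ℕ) ⊆ (Finset.range r).filter r.Coprime := by
    intro a ha
    simp only [Finset.mem_insert, Finset.mem_singleton] at ha
    rw [Finset.mem_filter, Finset.mem_range]
    rcases ha with rfl | rfl | rfl
    · exact ⟨by omega, Nat.coprime_one_right r⟩
    · exact ⟨by omega, Nat.coprime_two_right.2 hr⟩
    · refine ⟨by omega, ?_⟩
      rw [show 4 = 2 ^ 2 by norm_num]
      exact Nat.Coprime.pow_right _ (Nat.coprime_two_right.2 hr)
  have h1 := Finset.card_le_card hsub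
  have h2 : r.totient = ((Finset.range r).filter r.Coprime).card := rfl
  rw [← h2] at h1
  have h3 : ({1, 2, 4} : Finset ℕ).card = 3 := by decide
  omega

omit [Fintype H] in
/-- the field of a type -/
theorem exists_field {e : MonoidAlgebra ℚ H} (he : IsType e) :
    ∃ (K : Type) (_ : Field K) (_ : Algebra ℚ K)
      (f : Subalgebra.center ℚ (MonoidAlgebra ℚ H) →ₐ[ℚ] K), Function.Surjective f ∧
      ∀ c, f c = 0 ↔ c.1 * e = 0 := by
  classical
  let I : Ideal (Subalgebra.center ℚ (MonoidAlgebra ℚ H)) :=
    { carrier := {c | c.1 * e = 0}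
      zero_mem' := by simp
      add_mem' := by
        intro a b ha hb
        change (a.1 + b.1) * e = 0
        have ha' : a.1 * e = 0 := ha
        have hb' : b.1 * e = 0 := hb
        rw [add_mul, ha', hb', add_zero]
      smul_mem' := by
        intro a b hb
        change (a.1 * b.1) * e = 0
        have hb' : b.1 * e = 0 := hb
        rw [mul_assoc, hb', mul_zero] }
  have hImem : ∀ c : Subalgebra.center ℚ (MonoidAlgebra ℚ H), c ∈ I ↔ c.1 * e = 0 :=
    fun c => Iff.rfl
  haveI hImax : I.IsMaximal := by
    rw [Ideal.isMaximal_iff]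
    refine ⟨?_, ?_⟩
    · intro h
      rw [hImem] at h
      apply he.ne_zero
      rw [← h]
      exact (one_mul e).symm
    · intro J x hIJ hx hxJ
      rw [hImem] at hx
      obtain ⟨c', hc', hcc⟩ := he.field x.1
        (fun b => (Subalgebra.mem_center_iff.1 x.2 b).symm) hx
      have hc'Z : c' ∈ Subalgebra.center ℚ (MonoidAlgebra ℚ H) :=
        Subalgebra.mem_center_iff.2 fun b => (hc' b).symm
      have h1 : (1 - x * ⟨c', hc'Z⟩ : Subalgebra.center ℚ (MonoidAlgebra ℚ H)) ∈ J := by
        apply hIJ
        rw [hImem]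
        change (1 - x.1 * c') * e = 0
        rw [sub_mul, hcc, one_mul, sub_self]
      have h2 : (x * ⟨c', hc'Z⟩ : Subalgebra.center ℚ (MonoidAlgebra ℚ H)) ∈ J :=
        J.mul_mem_right _ hxJ
      have h3 := J.add_mem h1 h2
      rwa [sub_add_cancel] at h3
  refine ⟨Subalgebra.center ℚ (MonoidAlgebra ℚ H) ⧸ I, Ideal.Quotient.field I, inferInstance,
    Ideal.Quotient.mkₐ ℚ I, Ideal.Quotient.mk_surjective, ?_⟩
  intro c
  rw [← hImem]
  exact Ideal.Quotient.eq_zero_iff_mem

/-- finite odd groups of units in quadratic fields -/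
theorem index_of_quadratic (hodd : Odd (Fintype.card H)) {K : Type} [Field K] [Algebra ℚ K]
    [FiniteDimensional ℚ K] (hfin : finrank ℚ K ≤ 2) (ρ : H →* Kˣ) (hne : ρ.ker ≠ ⊤) :
    ρ.ker.index = 3 := by
  rw [Subgroup.index_ker]
  haveI : Finite ρ.range := (Set.finite_range ρ).to_subtype
  haveI : CharZero K := algebraRat.charZero K
  have hoddr : Odd (Nat.card ρ.range) := by
    have h1 : Nat.card ρ.range ∣ Nat.card H := Subgroup.card_range_dvd ρ
    rw [Nat.card_eq_fintype_card (α := H)] at h1
    exact Odd.of_dvd_nat hodd h1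
  obtain ⟨g, hg⟩ := IsCyclic.exists_ofOrder_eq_natCard (α := ρ.range)
  set r := Nat.card ρ.range with hrdef
  have hprim : IsPrimitiveRoot ((g.1 : Kˣ) : K) r := by
    have h1 : orderOf ((g.1 : Kˣ) : K) = r := by
      rw [orderOf_units, Subgroup.orderOf_coe, hg]
    rw [← h1]
    exact IsPrimitiveRoot.orderOf _
  have hrpos : 0 < r := Nat.card_pos
  have htot : r.totient ≤ 2 := by
    haveI : NeZero (r : ℚ) := ⟨by exact_mod_cast hrpos.ne'⟩
    have h1 := hprim.minpoly_eq_cyclotomic_of_irreducible (K := ℚ)
      (Polynomial.cyclotomic.irreducible_rat hrpos)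
    have h2 := congrArg Polynomial.natDegree h1
    rw [Polynomial.natDegree_cyclotomic] at h2
    rw [h2]
    exact (minpoly.natDegree_le _).trans hfin
  have hr3 := le_three_of_totient hoddr htot
  have hr1 : r ≠ 1 := by
    intro h1
    apply hne
    rw [eq_top_iff]
    intro h _
    rw [MonoidHom.mem_ker]
    haveI : Subsingleton ρ.range := (Nat.card_eq_one_iff_unique.1 h1).1
    have h4 : (⟨ρ h, ⟨h, rfl⟩⟩ : ρ.range) = 1 := Subsingleton.elim _ _
    exact congrArg Subtype.val h4
  obtain ⟨k, hk⟩ := hoddr
  omega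

/-- quadratic types have kernel of index 3 -/
theorem index_ker (hodd : Odd (Fintype.card H)) {e : MonoidAlgebra ℚ H} (he : IsType e)
    (hz : zc e = 2) (hr : rk e = 2) : (ker e).index = 3 := by
  classical
  -- the component is commutative
  have hce : cen e = comp e := by
    refine Submodule.eq_of_le_of_finrank_eq (fun x hx => hx.1) ?_
    have h1 : finrank ℚ (cen e) = 2 := hz
    have h2 : finrank ℚ (comp e) = 2 := hr
    rw [h1, h2]
  have hcen : ∀ h : H, Cen (single h 1 * e) := by
    intro h
    have h1 : (single h 1 * e : MonoidAlgebra ℚ H) ∈ cen e := by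
      rw [hce]
      change e * (single h 1 * e) = single h 1 * e
      rw [he.central, mul_assoc, he.idem]
    exact h1.2
  obtain ⟨K, hK, hKA, f, hf, hf0⟩ := exists_field he
  have hZ : ∀ c : Subalgebra.center ℚ (MonoidAlgebra ℚ H), Cen c.1 := by
    intro c x
    exact (Subalgebra.mem_center_iff.1 c.2 x).symm
  have heZ : e ∈ Subalgebra.center ℚ (MonoidAlgebra ℚ H) :=
    Subalgebra.mem_center_iff.2 fun b => (he.central b).symm
  have hfeq : ∀ a b : Subalgebra.center ℚ (MonoidAlgebra ℚ H), f a = f b ↔
      (a.1 - b.1) * e = 0 := by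
    intro a b
    rw [← sub_eq_zero, ← map_sub, hf0]
    rfl
  haveI : FiniteDimensional ℚ K := by
    haveI : Module.Finite ℚ (Subalgebra.center ℚ (MonoidAlgebra ℚ H)) :=
      inferInstanceAs (Module.Finite ℚ
        (Subalgebra.toSubmodule (Subalgebra.center ℚ (MonoidAlgebra ℚ H))))
    exact Module.Finite.of_surjective f.toLinearMap hf
  have hfin : finrank ℚ K ≤ 2 := by
    let L₀ : cen e →ₗ[ℚ] Subalgebra.center ℚ (MonoidAlgebra ℚ H) :=
      { toFun := fun x => ⟨x.1, Subalgebra.mem_center_iff.2 fun b => (x.2.2 b).symm⟩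
        map_add' := fun a b => rfl
        map_smul' := fun r a => rfl }
    let L : cen e →ₗ[ℚ] K := f.toLinearMap.comp L₀
    have hL : Function.Surjective L := by
      intro y
      obtain ⟨c, rfl⟩ := hf y
      refine ⟨⟨e * c.1, ?_, ?_⟩, ?_⟩
      · rw [← mul_assoc, he.idem]
      · intro b
        rw [mul_assoc, hZ c, ← mul_assoc, he.central, mul_assoc]
      · change f _ = f c
        rw [hfeq]
        change (e * c.1 - c.1) * e = 0
        rw [sub_mul, mul_assoc, hZ c e, ← mul_assoc, he.idem, sub_self]
    have := LinearMap.finrank_le_finrank_of_surjective hL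
    have h2 : finrank ℚ (cen e) = 2 := hz
    omega
  have hone : f ⟨e, heZ⟩ = 1 := by
    rw [← map_one f, hfeq]
    change (e - 1) * e = 0
    rw [sub_mul, one_mul, he.idem, sub_self]
  have hheZ : ∀ h : H, (single h 1 * e : MonoidAlgebra ℚ H) ∈
      Subalgebra.center ℚ (MonoidAlgebra ℚ H) := fun h =>
    Subalgebra.mem_center_iff.2 fun b => (hcen h b).symm
  let ρ₀ : H →* K :=
    { toFun := fun h => f ⟨single h 1 * e, hheZ h⟩
      map_one' := by
        rw [← hone, hfeq]
        change ((1 : MonoidAlgebra ℚ H) * e - e) * e = 0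
        rw [one_mul, sub_self, zero_mul]
      map_mul' := fun a b => by
        rw [← map_mul f, hfeq]
        change (single (a * b) 1 * e - single a 1 * e * (single b 1 * e)) * e = 0
        have h1 : single a 1 * e * (single b 1 * e) = (single (a * b) 1 : MonoidAlgebra ℚ H) * e := by
          rw [mul_assoc, ← mul_assoc e, he.central (single b 1), mul_assoc, he.idem, ← mul_assoc,
            single_mul_single, one_mul]
        rw [h1, sub_self, zero_mul] }
  let ρ : H →* Kˣ := ρ₀.toHomUnits
  have hker : ρ.ker = ker e := by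
    ext h
    rw [MonoidHom.mem_ker, mem_ker]
    have h1 : ρ h = 1 ↔ ρ₀ h = 1 := by
      rw [← Units.val_inj]
      rfl
    rw [h1, ← hone]
    change f ⟨single h 1 * e, hheZ h⟩ = _ ↔ _
    rw [hfeq]
    change (single h 1 * e - e) * e = 0 ↔ _
    rw [sub_mul, mul_assoc, he.idem, sub_eq_zero]
  rw [← hker]
  apply index_of_quadratic hodd hfin
  intro htop
  rw [hker] at htop
  have h2 : ∀ h : H, single h 1 * e = e := by
    intro h
    have h3 : h ∈ ker e := by
      rw [htop]
      exact Subgroup.mem_top h
    exact h3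
  have h3 : ∀ x : MonoidAlgebra ℚ H, x * e = aug x • e := by
    intro x
    induction x using MonoidAlgebra.induction_linear with
    | zero => simp [aug]
    | add f g hf hg =>
      rw [add_mul, hf, hg, ← add_smul]
      congr 1
      simp [aug, Finset.sum_add_distrib]
    | single x r =>
      have h4 : (single x r : MonoidAlgebra ℚ H) = r • single x 1 := by
        rw [smul_single, smul_eq_mul, mul_one]
      rw [h4, smul_mul_assoc, h2]
      congr 1
      simp [aug]
  have h4 : comp e ≤ Submodule.span ℚ {e} := by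
    intro x hx
    have hx' : e * x = x := hx
    rw [← hx', he.central, h3]
    exact Submodule.smul_mem _ _ (Submodule.mem_span_singleton_self e)
  have h5 := (Submodule.finrank_mono h4).trans (finrank_span_le_card (R := ℚ) {e})
  simp only [Set.toFinset_singleton, Finset.card_singleton] at h5
  have h6 : finrank ℚ (comp e) = 2 := hr
  omega

/-- elements fixed by a normal subgroup -/
theorem finrank_fixed_le (M : Subgroup H) [hM : M.Normal] (V : Submodule ℚ (MonoidAlgebra ℚ H))
    (hV : ∀ x ∈ V, ∀ h ∈ M, single h 1 * x = x) : finrank ℚ V ≤ M.index := by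
  classical
  let L : V →ₗ[ℚ] (H ⧸ M → ℚ) :=
    { toFun := fun x q => x.1.coeff q.out
      map_add' := fun a b => by
        funext q
        simp
      map_smul' := fun r a => by
        funext q
        simp }
  have hinv : ∀ x ∈ V, ∀ h ∈ M, ∀ y, x.coeff (h * y) = x.coeff y := by
    intro x hx h hh y
    have h1 : (single h 1 * x).coeff (h * y) = x.coeff (h * y) := by rw [hV x hx h hh]
    rw [csm, inv_mul_cancel_left, one_mul] at h1
    exact h1.symm
  have hL : Function.Injective L := by
    rw [injective_iff_map_eq_zero]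
    intro x hx
    ext y
    have h1 : x.1.coeff (Quotient.out (y : H ⧸ M)) = 0 := congrFun hx (y : H ⧸ M)
    obtain ⟨m, hm⟩ := QuotientGroup.mk_out_eq_mul M y
    rw [hm] at h1
    have h2 : y * m.1 = (y * m.1 * y⁻¹) * y := by group
    rw [h2, hinv x.1 x.2 _ (hM.conj_mem _ m.2 y)] at h1
    rw [h1]
    simp
  have h1 := LinearMap.finrank_le_finrank_of_injective hL
  rw [Module.finrank_fintype_fun_eq_card] at h1
  rw [Subgroup.index, Nat.card_eq_fintype_card]
  exact h1

/-- (T8) -/
theorem card_quadratic_le (hodd : Odd (Fintype.card H)) (J : Finset (MonoidAlgebra ℚ H))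
    (hJ : ∀ e ∈ J, IsType e ∧ aug e = 0 ∧ zc e = 2 ∧ rk e = 2) :
    J.card ≤ {M : Subgroup H | M.index = 3}.ncard := by
  classical
  rw [← Set.ncard_coe_finset]
  refine Set.ncard_le_ncard_of_injOn ker ?_ ?_ (Set.toFinite _)
  · intro e he
    obtain ⟨h1, -, h2, h3⟩ := hJ e he
    exact index_ker hodd h1 h2 h3
  · intro e he e' he' heq
    by_contra hne
    obtain ⟨h1, -, h2, h3⟩ := hJ e he
    obtain ⟨h1', -, h2', h3'⟩ := hJ e' he'
    have horth : e * e' = 0 := by
      by_contra h
      exact hne (h1.eq_of_mul_ne_zero h1' h)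
    have h4 : comp e ⊓ comp e' = ⊥ := by
      rw [eq_bot_iff]
      rintro x ⟨hx, hx'⟩
      have hx1 : e * x = x := hx
      have hx2 : e' * x = x := hx'
      rw [Submodule.mem_bot, ← hx1, ← hx2, ← mul_assoc, horth, zero_mul]
    have h5 := Submodule.finrank_sup_add_finrank_inf_eq (comp e) (comp e')
    rw [h4, finrank_bot, add_zero] at h5
    haveI := ker_normal h1
    have h6 := finrank_fixed_le (ker e) (comp e ⊔ comp e') (by
      intro x hx h hh
      obtain ⟨a, ha, b, hb, rfl⟩ := Submodule.mem_sup.1 hx
      have ha' : e * a = a := ha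
      have hb' : e' * b = b := hb
      have hh1 : single h 1 * e = e := hh
      have hh2 : single h 1 * e' = e' := by
        rw [heq] at hh
        exact hh
      rw [mul_add, ← ha', ← hb', ← mul_assoc, ← mul_assoc, hh1, hh2])
    rw [index_ker hodd h1 h2 h3, h5] at h6
    have h7 : finrank ℚ (comp e) = 2 := h3
    have h8 : finrank ℚ (comp e') = 2 := h3'
    omega

end Pool.Agent.Lib.MP_640417_ag.OddGal
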