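import Pool.Agent.Lib.MP_640417_ag.OddB
import Pool.Agent.Lib.MP_640417_ag.OddQuad
import Pool.Agent.Lib.MP_640417_ag.OddLemmaCD
import Pool.Agent.Lib.MP_640417_ag.OddNumericB

/-!
# The theorem on groups of odd order
-/

open Module

namespace Pool.Agent.Lib.MP_640417_ag.OddGal

theorem card_signs {H : Type} [Fintype H] : (signs H).card = 2 ^ Fintype.card H := by
  classical
  rw [signs, Fintype.card_piFinset]
  simp

/-- (GT) -/
theorem groupTheorem (η : ℝ) (hη : 0 < η) : ∃ M : ℕ, 0 < M ∧ ∀ (H : Type) [Group H] [Fintype H],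
    Odd (Fintype.card H) → M ≤ Fintype.card H →
    {K : Subgroup H | K.index = 3}.ncard * M ≤ Fintype.card H →
    ({ε : H → ℤ | ε ∈ signs H ∧ Bad ε}.ncard : ℝ) ≤ η * 2 ^ Fintype.card H := by
  classical
  obtain ⟨M, hM, hnum⟩ := numeric η hη
  refine ⟨M, hM, fun H _ _ hodd hMg hN => ?_⟩
  obtain ⟨J₀, hJ₀, horth, hsum, hrk⟩ := exists_types H
  set J := J₀.filter (fun e => aug e = 0) with hJ
  have hJt : ∀ e ∈ J, IsType e := fun e he => hJ₀ e (Finset.mem_filter.1 he).1
  have hJa : ∀ e ∈ J, aug e = 0 := fun e he => (Finset.mem_filter.1 he).2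
  set g := Fintype.card H with hg
  have h2g : (0 : ℝ) < 2 ^ g := by positivity
  -- the bad sign vectors
  have hcover : {ε : H → ℤ | ε ∈ signs H ∧ Bad ε} ⊆ ((J.biUnion badSet : Finset (H → ℤ)) : Set _) := by
    rintro ε ⟨hε, hbad⟩
    obtain ⟨e, he, hbe⟩ := badAt_of_bad J₀ hJ₀ hsum ε hbad
    have ha : aug e = 0 := by
      by_contra ha
      exact not_badAt hodd e (hJ₀ e he) ha ε hε hbe
    rw [Finset.mem_coe, Finset.mem_biUnion]
    exact ⟨e, Finset.mem_filter.2 ⟨he, ha⟩, Finset.mem_filter.2 ⟨hε, hbe⟩⟩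
  have hcard : ({ε : H → ℤ | ε ∈ signs H ∧ Bad ε}.ncard : ℝ) ≤
      ∑ e ∈ J, ((badSet e).card : ℝ) := by
    have h1 := Set.ncard_le_ncard hcover (Finset.finite_toSet _)
    rw [Set.ncard_coe_finset] at h1
    have h2 := h1.trans Finset.card_biUnion_le
    exact_mod_cast h2
  -- the numeric theorem
  have hmain := hnum g {K : Subgroup H | K.index = 3}.ncard hMg hN J
    (fun e => zc e.1) (fun e => rk e.1) (fun e => ((badSet e.1).card : ℝ) / 2 ^ g)
    (by
      rw [Finset.sum_coe_sort J (fun e => rk e), ← hrk]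
      exact Finset.sum_le_sum_of_subset (Finset.filter_subset _ _))
    (fun e => ⟨two_le_zc hodd e.1 (hJt _ e.2) (hJa _ e.2), zc_le_rk e.1⟩)
    (fun e => by positivity)
    (fun e => by
      rw [div_le_iff₀ h2g]
      exact lemmaB hodd e.1 (hJt _ e.2) (hJa _ e.2))
    (fun e p d hp hp2 hpg hd hzd hnum => by
      haveI : Fact p.Prime := ⟨hp⟩
      have := lemmaC p hp2 hpg e.1 (hJt _ e.2) d hzd hnum
      rw [div_mul_eq_mul_div, div_le_iff₀ h2g]
      exact this)
    (fun e hlt p τ hp hp2 hpg h1 h2 => by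
      haveI : Fact p.Prime := ⟨hp⟩
      have := lemmaD p hp2 hpg e.1 (hJt _ e.2) hlt τ h1 h2
      rw [div_mul_eq_mul_div, div_le_iff₀ h2g]
      exact this)
    (by
      have h1 := card_quadratic_le hodd (J.filter fun e => rk e = 2) (by
        intro e he
        obtain ⟨he1, he2⟩ := Finset.mem_filter.1 he
        refine ⟨hJt e he1, hJa e he1, ?_, he2⟩
        have h3 := two_le_zc hodd e (hJt e he1) (hJa e he1)
        have h4 := zc_le_rk e
        omega)
      refine le_trans (le_of_eq ?_) h1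
      rw [← Fintype.card_coe, ← Nat.card_eq_fintype_card]
      exact Nat.card_congr
        { toFun := fun j => ⟨j.1.1, Finset.mem_filter.2 ⟨j.1.2, j.2⟩⟩
          invFun := fun j => ⟨⟨j.1, (Finset.mem_filter.1 j.2).1⟩, (Finset.mem_filter.1 j.2).2⟩
          left_inv := fun j => rfl
          right_inv := fun j => rfl })
  rw [← Finset.sum_div] at hmain
  rw [Finset.sum_coe_sort J (fun e => ((badSet e).card : ℝ)), div_le_iff₀ h2g] at hmain
  exact hcard.trans hmain

end Pool.Agent.Lib.MP_640417_ag.OddGal
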