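import Pool.Agent.Lib.MP_640417_ag.OddDefs

/-!
# Integral, rational and modular group algebras of a finite group
-/

open MonoidAlgebra

namespace Pool.Agent.Lib.MP_640417_ag.OddGal

variable {H : Type} [Group H] [Fintype H]

omit [Fintype H] in
@[simp] theorem coeff_toQ (c : MonoidAlgebra ℤ H) (h : H) : (toQ c).coeff h = (c.coeff h : ℚ) := by
  simp [toQ]

omit [Fintype H] in
@[simp] theorem coeff_red (p : ℕ) (c : MonoidAlgebra ℤ H) (h : H) :
    (red p c).coeff h = (c.coeff h : ZMod p) := by
  simp [red]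

omit [Fintype H] in
theorem toQ_injective : Function.Injective (toQ : MonoidAlgebra ℤ H →+* MonoidAlgebra ℚ H) := by
  intro a b hab
  ext h
  have := congrArg (fun x => x.coeff h) hab
  simpa using this

omit [Group H] in
@[simp] theorem coeff_elt {R : Type} [Semiring R] (f : H → R) (h : H) : (elt f).coeff h = f h := rfl

theorem red_surjective (p : ℕ) [NeZero p] : Function.Surjective (red (H := H) p) := by
  intro a
  refine ⟨elt fun h => ((a.coeff h).val : ℤ), ?_⟩
  ext h
  simp

theorem exists_smul_of_red_eq_zero {p : ℕ} {c : MonoidAlgebra ℤ H} (hc : red p c = 0) :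
    ∃ c', c = (p : ℤ) • c' := by
  have h1 : ∀ h, ∃ m : ℤ, c.coeff h = p * m := by
    intro h
    have : ((c.coeff h : ℤ) : ZMod p) = 0 := by
      rw [← coeff_red, hc]
      simp
    exact (ZMod.intCast_zmod_eq_zero_iff_dvd _ _).1 this
  choose m hm using h1
  refine ⟨elt m, ?_⟩
  ext h
  rw [hm, coeff_smul_apply, coeff_elt, smul_eq_mul]

omit [Fintype H] in
theorem red_smul (p : ℕ) (n : ℤ) (c : MonoidAlgebra ℤ H) :
    red p (n • c) = (n : ZMod p) • red p c := by
  ext h
  rw [coeff_red, coeff_smul_apply, coeff_smul_apply, coeff_red]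
  simp

omit [Fintype H] in
theorem toQ_smul (n : ℤ) (c : MonoidAlgebra ℤ H) :
    toQ (n • c) = (n : ℚ) • toQ c := by
  ext h
  rw [coeff_toQ, coeff_smul_apply, coeff_smul_apply, coeff_toQ]
  simp

omit [Fintype H] in
theorem csm {R : Type} [Semiring R] (x : H) (r : R) (a : MonoidAlgebra R H) (y : H) :
    (single x r * a).coeff y = r * a.coeff (x⁻¹ * y) :=
  coeff_single_mul_eq_mul_coeff _ fun _ _ => by rw [eq_inv_mul_iff_mul_eq]

omit [Fintype H] in
theorem cms {R : Type} [Semiring R] (x : H) (r : R) (a : MonoidAlgebra R H) (y : H) :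
    (a * single x r).coeff y = a.coeff (y * x⁻¹) * r :=
  coeff_mul_single_eq_coeff_mul _ fun _ _ => by rw [eq_mul_inv_iff_mul_eq]

/-- central elements -/
abbrev Cen {R : Type} [Mul R] (a : R) : Prop := ∀ x, a * x = x * a

omit [Fintype H] in
theorem cen_iff {R : Type} [CommRing R] (a : MonoidAlgebra R H) :
    Cen a ↔ ∀ x h : H, a.coeff (x * h * x⁻¹) = a.coeff h := by
  constructor
  · intro h x y
    have h1 := h (single x 1)
    have h2 : (single x 1 * a).coeff (x * y) = (a * single x 1).coeff (x * y) := by rw [h1]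
    rw [csm, cms] at h2
    simp only [one_mul, mul_one, inv_mul_cancel_left] at h2
    exact h2.symm
  · intro h b
    induction b using MonoidAlgebra.induction_linear with
    | zero => simp
    | add f g hf hg => rw [add_mul, mul_add, hf, hg]
    | single x r =>
      ext y
      rw [csm, cms, mul_comm]
      congr 1
      have := h x (x⁻¹ * y)
      rw [← this]
      congr 1
      group

omit [Fintype H] in
theorem cen_toQ {c : MonoidAlgebra ℤ H} : Cen (toQ c) ↔ Cen c := by
  rw [cen_iff, cen_iff]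
  simp

omit [Fintype H] in
theorem cen_red (p : ℕ) {c : MonoidAlgebra ℤ H} (hc : Cen c) : Cen (red p c) := by
  rw [cen_iff] at hc ⊢
  intro x h
  rw [coeff_red, coeff_red, hc]

theorem exists_central_lift (p : ℕ) [NeZero p] {a : MonoidAlgebra (ZMod p) H}
    (ha : Cen a) : ∃ c : MonoidAlgebra ℤ H, Cen c ∧ red p c = a := by
  rw [cen_iff] at ha
  refine ⟨elt fun h => ((a.coeff h).val : ℤ), ?_, ?_⟩
  · rw [cen_iff]
    intro x h
    simp only [coeff_elt, ha]
  · ext h
    simp

theorem exists_denominator (a : MonoidAlgebra ℚ H) :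
    ∃ m : ℕ, 0 < m ∧ ∃ c : MonoidAlgebra ℤ H, toQ c = (m : ℚ) • a := by
  classical
  refine ⟨∏ h, (a.coeff h).den, Finset.prod_pos fun h _ => (a.coeff h).den_pos, ?_⟩
  refine ⟨elt fun h => (∏ h' ∈ Finset.univ.erase h, (a.coeff h').den) * (a.coeff h).num, ?_⟩
  ext h
  rw [coeff_toQ, coeff_elt, coeff_smul_apply, ← Finset.mul_prod_erase _ _ (Finset.mem_univ h)]
  push_cast
  rw [smul_eq_mul, mul_comm ((a.coeff h).den : ℚ), mul_assoc]
  congr 1
  rw [mul_comm, Rat.mul_den_eq_num]

/-- central idempotents have denominators prime to `p` -/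
theorem exists_denominator_coprime (p : ℕ) [Fact p.Prime] (hp : ¬ p ∣ Nat.card H)
    (e : MonoidAlgebra ℚ H) (hc : Cen e) (he : e * e = e) :
    ∃ m : ℕ, ¬ p ∣ m ∧ ∃ c : MonoidAlgebra ℤ H, toQ c = (m : ℚ) • e := by
  classical
  have hex := exists_denominator e
  obtain ⟨hm, c, hcm⟩ := Nat.find_spec hex
  set m := Nat.find hex with hmdef
  refine ⟨m, ?_, c, hcm⟩
  rintro ⟨k, hk⟩
  have hpp : p.Prime := Fact.out
  have hk0 : 0 < k := by
    rcases Nat.eq_zero_or_pos k with h | h
    · rw [h] at hk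
      omega
    · exact h
  have hkm : k < m := by
    have := hpp.two_le
    nlinarith
  -- `c² = m c`
  have hcc : c * c = (m : ℤ) • c := by
    apply toQ_injective
    rw [map_mul, toQ_smul, hcm, smul_mul_smul_comm, he, smul_smul]
    norm_cast
  have hcen : Cen c := by
    rw [← cen_toQ, hcm]
    intro b
    rw [mul_smul_comm, smul_mul_assoc, hc]
  have hF := cen_red p hcen
  have hFF : red p c * red p c = 0 := by
    rw [← map_mul, hcc, red_smul]
    have : ((m : ℤ) : ZMod p) = 0 := by
      rw [hk]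
      simp
    rw [this, zero_smul]
  have hF0 : red p c = 0 := by
    haveI : NeZero (Nat.card H : ZMod p) := ⟨by
      rw [Ne, ZMod.natCast_eq_zero_iff]
      exact hp⟩
    obtain ⟨f, hf, hI⟩ := IsSemisimpleRing.ideal_eq_span_idempotent
      (Ideal.span {red p c} : Ideal (MonoidAlgebra (ZMod p) H))
    have hf1 : f ∈ Ideal.span {red p c} := by
      rw [hI]
      exact Ideal.subset_span rfl
    obtain ⟨a, ha⟩ := Ideal.mem_span_singleton'.1 hf1
    have hf0 : f = 0 := by
      have h1 : f * f = f := hf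
      rw [← h1, ← ha, mul_assoc, ← mul_assoc (red p c) a, hF a,
        mul_assoc a, hFF, mul_zero, mul_zero]
    have hc1 : red p c ∈ Ideal.span {f} := by
      rw [← hI]
      exact Ideal.subset_span rfl
    obtain ⟨b, hb⟩ := Ideal.mem_span_singleton'.1 hc1
    rw [← hb, hf0, mul_zero]
  obtain ⟨c', hc'⟩ := exists_smul_of_red_eq_zero hF0
  refine Nat.find_min hex hkm ⟨hk0, c', ?_⟩
  have hp0 : (p : ℚ) ≠ 0 := by exact_mod_cast hpp.ne_zero
  have h1 : (p : ℚ) • toQ c' = (p : ℚ) • ((k : ℚ) • e) := by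
    have h2 : toQ c = ((p : ℤ) : ℚ) • toQ c' := by rw [hc', toQ_smul]
    rw [hcm, hk] at h2
    rw [smul_smul]
    push_cast at h2
    exact h2.symm
  exact smul_right_injective _ hp0 h1

end Pool.Agent.Lib.MP_640417_ag.OddGal
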