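import Mathlib

/-!
# Counting sign vectors whose generating polynomial is divisible by a given polynomial
-/

namespace Pool.Agent.Lib.MP_640417_ag

open Polynomial

/-- The polynomial `∑ (2 #(A a) - m) X ^ a`. -/
noncomputable def sizePoly {h m : ℕ} (A : Fin h → Finset (Fin m)) : ℚ[X] :=
  ∑ a : Fin h, C (2 * ((A a).card : ℚ) - m) * X ^ (a : ℕ)

lemma coeff_sizePoly {h m : ℕ} (A : Fin h → Finset (Fin m)) (a : Fin h) :
    (sizePoly A).coeff a = 2 * ((A a).card : ℚ) - m := by
  classical
  simp only [sizePoly, finset_sum_coeff, coeff_C_mul, coeff_X_pow]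
  rw [Finset.sum_eq_single a]
  · simp
  · intro b _ hb
    have : (a : ℕ) ≠ (b : ℕ) := fun h => hb (Fin.ext h.symm)
    simp [this]
  · intro h; exact absurd (Finset.mem_univ a) h

lemma coeff_sizePoly_of_le {h m : ℕ} (A : Fin h → Finset (Fin m)) (k : ℕ) (hk : h ≤ k) :
    (sizePoly A).coeff k = 0 := by
  classical
  simp only [sizePoly, finset_sum_coeff, coeff_C_mul, coeff_X_pow]
  apply Finset.sum_eq_zero
  intro b _
  have : k ≠ (b : ℕ) := by have := b.2; omega
  simp [this]

lemma count_bound (h m : ℕ) (Q : ℚ[X]) (hQ : Q ≠ 0) (hdeg : Q.natDegree ≤ h) :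
    {A : Fin h → Finset (Fin m) | Q ∣ sizePoly A}.ncard
      ≤ (m.choose (m / 2)) ^ Q.natDegree * (2 ^ m) ^ (h - Q.natDegree) := by
  classical
  set r := Q.natDegree with hr
  let s : Finset (Fin h → Finset (Fin m)) := Finset.univ.filter (fun A => Q ∣ sizePoly A)
  have hs : {A : Fin h → Finset (Fin m) | Q ∣ sizePoly A}.ncard = s.card := by
    rw [← Set.ncard_coe_finset]
    congr 1
    ext A
    simp [s]
  rw [hs]
  let f : (Fin h → Finset (Fin m)) → ({a : Fin h // r ≤ (a : ℕ)} → Finset (Fin m)) :=
    fun A a => A a.1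
  have key : ∀ A ∈ s, ∀ B ∈ s, f A = f B → ∀ a, (A a).card = (B a).card := by
    intro A hA B hB hAB a
    simp only [s, Finset.mem_filter, Finset.mem_univ, true_and] at hA hB
    have hdvd : Q ∣ sizePoly A - sizePoly B := dvd_sub hA hB
    have hzero : sizePoly A - sizePoly B = 0 := by
      by_contra hne
      have h1 : (sizePoly A - sizePoly B).natDegree < r := by
        have h0 : 0 < r := by
          by_contra h0
          have hr0 : r = 0 := by omega
          apply hne
          ext k
          rw [coeff_sub, coeff_zero]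
          by_cases hk : k < h
          · have e1 := coeff_sizePoly A ⟨k, hk⟩
            have e2 := coeff_sizePoly B ⟨k, hk⟩
            have e3 := congrFun hAB ⟨⟨k, hk⟩, by rw [hr0]; exact Nat.zero_le _⟩
            simp only [f] at e3
            simp only at e1 e2
            rw [e1, e2, e3, sub_self]
          · rw [coeff_sizePoly_of_le A k (by omega), coeff_sizePoly_of_le B k (by omega), sub_self]
        rw [natDegree_lt_iff_degree_lt hne, degree_lt_iff_coeff_zero]
        intro k hk
        rw [coeff_sub]
        by_cases hk' : k < h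
        · have e1 := coeff_sizePoly A ⟨k, hk'⟩
          have e2 := coeff_sizePoly B ⟨k, hk'⟩
          have e3 := congrFun hAB ⟨⟨k, hk'⟩, hk⟩
          simp only [f] at e3
          simp only at e1 e2
          rw [e1, e2, e3, sub_self]
        · rw [coeff_sizePoly_of_le A k (by omega), coeff_sizePoly_of_le B k (by omega), sub_self]
      have h2 := natDegree_le_of_dvd hdvd hne
      omega
    have h3 : (sizePoly A).coeff a = (sizePoly B).coeff a := by
      rw [sub_eq_zero] at hzero
      rw [hzero]
    rw [coeff_sizePoly, coeff_sizePoly] at h3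
    have h4 : ((A a).card : ℚ) = ((B a).card : ℚ) := by linarith
    exact_mod_cast h4
  have hfib : ∀ b ∈ s.image f, (s.filter (fun A => f A = b)).card ≤ (m.choose (m / 2)) ^ r := by
    intro b hb
    obtain ⟨A₀, hA₀, rfl⟩ := Finset.mem_image.mp hb
    let t : Fin h → Finset (Finset (Fin m)) := fun a =>
      if r ≤ (a : ℕ) then {A₀ a} else Finset.powersetCard (A₀ a).card Finset.univ
    have hsub : s.filter (fun A => f A = f A₀) ⊆ Fintype.piFinset t := by
      intro A hA
      rw [Finset.mem_filter] at hA
      rw [Fintype.mem_piFinset]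
      intro a
      by_cases ha : r ≤ (a : ℕ)
      · simp only [t, ha, if_true, Finset.mem_singleton]
        exact congrFun hA.2 ⟨a, ha⟩
      · simp only [t, ha, if_false, Finset.mem_powersetCard]
        exact ⟨Finset.subset_univ _, key A hA.1 A₀ hA₀ hA.2 a⟩
    refine (Finset.card_le_card hsub).trans ?_
    rw [Fintype.card_piFinset]
    calc ∏ a, (t a).card ≤ ∏ a : Fin h, (if r ≤ (a : ℕ) then 1 else m.choose (m / 2)) := by
          apply Finset.prod_le_prod' 
          intro a _
          by_cases ha : r ≤ (a : ℕ)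
          · simp [t, ha]
          · simp only [t, ha, if_false, Finset.card_powersetCard, Finset.card_univ,
              Fintype.card_fin]
            exact Nat.choose_le_middle _ _
      _ = (m.choose (m / 2)) ^ r := by
          rw [Finset.prod_ite, Finset.prod_const_one, one_mul, Finset.prod_const]
          congr 1
          have h5 : (Finset.univ.filter (fun a : Fin h => ¬ r ≤ (a : ℕ))).card
              = (Finset.univ.filter (fun a : Fin h => (a : ℕ) < r)).card := by
            congr 1
            ext a
            simp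
          rw [h5, Fin.card_filter_val_lt, min_eq_right hdeg]
  refine (Finset.card_le_mul_card_image s _ hfib).trans ?_
  apply Nat.mul_le_mul_left
  refine (Finset.card_le_univ _).trans ?_
  rw [Fintype.card_fun, Fintype.card_finset, Fintype.card_fin]
  have h6 : Fintype.card {a : Fin h // r ≤ (a : ℕ)} = h - r := by
    rw [Fintype.card_subtype]
    have h7 := Finset.card_filter_add_card_filter_not (s := (Finset.univ : Finset (Fin h)))
      (fun a : Fin h => (a : ℕ) < r)
    rw [Fin.card_filter_val_lt, min_eq_right hdeg, Finset.card_univ, Fintype.card_fin] at h7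
    have h8 : (Finset.univ.filter (fun a : Fin h => r ≤ (a : ℕ))).card
        = (Finset.univ.filter (fun a : Fin h => ¬ (a : ℕ) < r)).card := by
      congr 1
      ext a
      simp
    rw [h8]
    omega
  rw [h6]

/-- `C(2n,n) / 4 ^ n ≤ 1 / √(2n+1)`. -/
lemma centralBinom_sq_le (n : ℕ) : (2 * n + 1) * (n.centralBinom) ^ 2 ≤ 16 ^ n := by
  induction n with
  | zero => simp
  | succ n ih =>
    have h1 := Nat.succ_mul_centralBinom_succ n
    have h2 : (2 * (n + 1) + 1) * ((n + 1).centralBinom) ^ 2 * (n + 1) ^ 2
        ≤ 16 ^ (n + 1) * (n + 1) ^ 2 := by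
      calc (2 * (n + 1) + 1) * ((n + 1).centralBinom) ^ 2 * (n + 1) ^ 2
          = (2 * n + 3) * ((n + 1) * (n + 1).centralBinom) ^ 2 := by ring
        _ = (2 * n + 3) * (2 * (2 * n + 1) * n.centralBinom) ^ 2 := by rw [h1]
        _ = 4 * (2 * n + 3) * (2 * n + 1) * ((2 * n + 1) * n.centralBinom ^ 2) := by ring
        _ ≤ 4 * (2 * n + 3) * (2 * n + 1) * 16 ^ n := Nat.mul_le_mul_left _ ih
        _ ≤ (16 * (n + 1) ^ 2) * 16 ^ n := by
            apply Nat.mul_le_mul_right
            nlinarith
        _ = _ := by ring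
    exact Nat.le_of_mul_le_mul_right h2 (by positivity)

/-- The largest atom of a sum of `m` signs. -/
noncomputable def atom (m : ℕ) : ℝ := (m.choose (m / 2) : ℝ) / 2 ^ m

lemma atom_nonneg (m : ℕ) : 0 ≤ atom m := by unfold atom; positivity

lemma atom_sq_le (m : ℕ) : ((m : ℝ) + 1) * atom m ^ 2 ≤ 1 := by
  have key : (m + 1) * (m.choose (m / 2)) ^ 2 ≤ 4 ^ m := by
    rcases Nat.even_or_odd' m with ⟨n, rfl | rfl⟩
    · have h1 := centralBinom_sq_le n
      have h2 : (2 * n) / 2 = n := by omega
      rw [h2, ← Nat.centralBinom_eq_two_mul_choose, pow_mul]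
      norm_num
      exact h1
    · have h1 := centralBinom_sq_le (n + 1)
      have h2 : (2 * n + 1) / 2 = n := by omega
      rw [h2]
      have h3 : (n + 1).centralBinom = 2 * (2 * n + 1).choose n := by
        rw [Nat.centralBinom_eq_two_mul_choose]
        have h4 : 2 * (n + 1) = (2 * n + 1) + 1 := by ring
        rw [h4, Nat.choose_succ_succ]
        have h5 : (2 * n + 1).choose (n + 1) = (2 * n + 1).choose n := by
          rw [← Nat.choose_symm_of_eq_add (a := n + 1) (b := n) (by ring)]
        rw [h5]; ring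
      rw [h3] at h1
      have h6 : 4 ^ (2 * n + 1) * 4 = 16 ^ (n + 1) := by
        rw [← pow_succ, show 2 * n + 1 + 1 = 2 * (n + 1) by ring, pow_mul]; norm_num
      nlinarith
  unfold atom
  rw [div_pow, ← mul_div_assoc, div_le_one (by positivity), ← pow_mul, mul_comm m 2, pow_mul]
  have h7 : ((2 : ℝ) ^ 2) ^ m = 4 ^ m := by norm_num
  rw [h7]
  exact_mod_cast key

lemma atom_le_one (m : ℕ) : atom m ≤ 1 := by
  have h1 := atom_sq_le m
  have h2 := atom_nonneg m
  by_contra h
  push Not at h
  have h3 : 1 < atom m ^ 2 := by nlinarith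
  have h4 : (0 : ℝ) ≤ m := Nat.cast_nonneg m
  nlinarith

end Pool.Agent.Lib.MP_640417_ag
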