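import Mathlib

/-!
# Group algebra set-up

Definitions for the count of sign vectors which are zero divisors in the group algebra of a group
of odd order.
-/

namespace Pool.Agent.Lib.MP_640417_ag.OddGal

open Module

section defs

variable {H : Type} [Group H] [Fintype H]

/-- The finite set of sign vectors on `H`. -/
noncomputable def signs (H : Type) [Fintype H] : Finset (H → ℤ) := by
  classical exact Fintype.piFinset (fun _ => ({1, -1} : Finset ℤ))

/-- The element of a group ring with given coefficients. -/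
noncomputable def elt {R : Type} [Semiring R] (f : H → R) : MonoidAlgebra R H :=
  .ofCoeff (Finsupp.equivFunOnFinite.symm f)

/-- From integral to rational coefficients. -/
noncomputable def toQ : MonoidAlgebra ℤ H →+* MonoidAlgebra ℚ H :=
  MonoidAlgebra.mapRingHom H (Int.castRingHom ℚ)

/-- Reduction modulo `p`. -/
noncomputable def red (p : ℕ) : MonoidAlgebra ℤ H →+* MonoidAlgebra (ZMod p) H :=
  MonoidAlgebra.mapRingHom H (Int.castRingHom (ZMod p))

/-- The sum of the coefficients. -/
noncomputable def aug (x : MonoidAlgebra ℚ H) : ℚ := ∑ h, x.coeff h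

/-- A type: a central idempotent whose corner in the centre is a field. -/
structure IsType (e : MonoidAlgebra ℚ H) : Prop where
  central : ∀ x, e * x = x * e
  idem : e * e = e
  ne_zero : e ≠ 0
  field : ∀ c : MonoidAlgebra ℚ H, (∀ x, c * x = x * c) → c * e ≠ 0 →
    ∃ c' : MonoidAlgebra ℚ H, (∀ x, c' * x = x * c') ∧ c * c' * e = e

/-- The ideal `e ℚ[H]`. -/
noncomputable def comp (e : MonoidAlgebra ℚ H) : Submodule ℚ (MonoidAlgebra ℚ H) where
  carrier := {x | e * x = x}
  add_mem' := by
    intro a b ha hb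
    simp only [Set.mem_ofPred_eq] at *
    rw [mul_add, ha, hb]
  zero_mem' := by simp
  smul_mem' := by
    intro c x hx
    simp only [Set.mem_ofPred_eq] at *
    rw [mul_smul_comm, hx]

/-- The dimension of `e ℚ[H]`. -/
noncomputable def rk (e : MonoidAlgebra ℚ H) : ℕ := finrank ℚ (comp e)

/-- The centre of `e ℚ[H]`. -/
noncomputable def cen (e : MonoidAlgebra ℚ H) : Submodule ℚ (MonoidAlgebra ℚ H) where
  carrier := {x | e * x = x ∧ ∀ y, x * y = y * x}
  add_mem' := by
    rintro a b ⟨ha, ha'⟩ ⟨hb, hb'⟩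
    refine ⟨by rw [mul_add, ha, hb], fun y => ?_⟩
    rw [add_mul, mul_add, ha', hb']
  zero_mem' := by simp
  smul_mem' := by
    rintro c x ⟨hx, hx'⟩
    refine ⟨by rw [mul_smul_comm, hx], fun y => ?_⟩
    rw [smul_mul_assoc, mul_smul_comm, hx']

/-- The dimension of the centre of `e ℚ[H]`. -/
noncomputable def zc (e : MonoidAlgebra ℚ H) : ℕ := finrank ℚ (cen e)

/-- The sign vector `ε` has a nonzero left annihilator of type `e`. -/
def BadAt (e : MonoidAlgebra ℚ H) (ε : H → ℤ) : Prop :=
  ∃ x : MonoidAlgebra ℤ H, x ≠ 0 ∧ e * toQ x = toQ x ∧ x * elt ε = 0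

open Classical in
/-- The sign vectors with a nonzero left annihilator of type `e`. -/
noncomputable def badSet (e : MonoidAlgebra ℚ H) : Finset (H → ℤ) := (signs H).filter (BadAt e)

/-- The sign vector `ε` has a nonzero left annihilator. -/
def Bad (ε : H → ℤ) : Prop := ∃ x : MonoidAlgebra ℤ H, x ≠ 0 ∧ x * elt ε = 0

open Classical in
/-- The blocks of `𝔽_p[H]` which belong to the type `e`. -/
noncomputable def blocksOf {p : ℕ} {ι : Type} [Fintype ι] {D : ι → Type}
    [∀ i, Field (D i)] [∀ i, Algebra (ZMod p) (D i)] {n : ι → ℕ}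
    (w : MonoidAlgebra (ZMod p) H ≃ₐ[ZMod p] ((i : ι) → Matrix (Fin (n i)) (Fin (n i)) (D i)))
    (e : MonoidAlgebra ℚ H) : Finset ι :=
  Finset.univ.filter (fun i => ∃ x : MonoidAlgebra ℤ H, e * toQ x = toQ x ∧ w (red p x) i ≠ 0)

end defs

end Pool.Agent.Lib.MP_640417_ag.OddGal
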