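import Pool.Agent.Lib.MP_640417_ag.CountPoly

/-!
# The bound tends to zero
-/

namespace Pool.Agent.Lib.MP_640417_ag

open Filter Topology

lemma le_totient_sq (n : ℕ) : (Odd n → n ≤ n.totient ^ 2) ∧ n ≤ 2 * n.totient ^ 2 := by
  induction n using Nat.recOnPosPrimePosCoprime with
  | prime_pow p k hp hk =>
    obtain ⟨j, rfl⟩ : ∃ j, k = j + 1 := ⟨k - 1, by omega⟩
    rw [Nat.totient_prime_pow_succ hp]
    have hodd : 3 ≤ p → p ^ (j + 1) ≤ (p ^ j * (p - 1)) ^ 2 := by
      intro h3
      have h1 : p ≤ (p - 1) ^ 2 := by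
        obtain ⟨q, rfl⟩ : ∃ q, p = q + 1 := ⟨p - 1, by omega⟩
        simp only [Nat.add_sub_cancel]
        nlinarith
      have h2 : 1 ≤ p ^ j := Nat.one_le_pow _ _ (by omega)
      calc p ^ (j + 1) = p ^ j * p := pow_succ p j
        _ ≤ (p ^ j * p ^ j) * (p - 1) ^ 2 := by
            apply Nat.mul_le_mul _ h1
            exact Nat.le_mul_of_pos_left _ (by omega)
        _ = _ := by ring
    rcases hp.eq_two_or_odd with h2 | h2
    · subst h2
      refine ⟨?_, ?_⟩
      · intro h
        exfalso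
        rw [Nat.odd_pow_iff (by omega)] at h
        exact absurd h (by decide)
      · simp only [Nat.add_one_sub_one, mul_one]
        rw [← pow_mul, ← pow_succ']
        apply Nat.pow_le_pow_right (by norm_num)
        omega
    · have h3 : 3 ≤ p := by
        have := hp.two_le
        omega
      have := hodd h3
      exact ⟨fun _ => this, by omega⟩
  | zero => simp
  | one => simp
  | coprime a b ha hb hab iha ihb =>
    rw [Nat.totient_mul hab]
    rcases Nat.even_or_odd a with hea | hoa
    · have hob : Odd b := by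
        rw [← Nat.not_even_iff_odd]
        intro heb
        have h1 : 2 ∣ Nat.gcd a b := Nat.dvd_gcd hea.two_dvd heb.two_dvd
        rw [hab] at h1
        omega
      refine ⟨?_, ?_⟩
      · intro h
        exfalso
        rw [Nat.odd_mul] at h
        exact (Nat.not_even_iff_odd.mpr h.1) hea
      · calc a * b ≤ (2 * a.totient ^ 2) * b.totient ^ 2 := Nat.mul_le_mul iha.2 (ihb.1 hob)
          _ = _ := by ring
    · refine ⟨?_, ?_⟩
      · intro h
        rw [Nat.odd_mul] at h
        calc a * b ≤ a.totient ^ 2 * b.totient ^ 2 := Nat.mul_le_mul (iha.1 h.1) (ihb.1 h.2)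
          _ = _ := by ring
      · calc a * b ≤ a.totient ^ 2 * (2 * b.totient ^ 2) := Nat.mul_le_mul (iha.1 hoa) ihb.2
          _ = _ := by ring

/-- `∑_{h ∣ g} (C(m, ⌊m/2⌋) / 2 ^ m) ^ φ(h)` with `m = g / h`; the term `h = 1` is omitted
for odd `g`. -/
noncomputable def shareBound (g : ℕ) : ℝ :=
  ∑ h ∈ g.divisors.filter (fun h => h ≠ 1 ∨ Even g),
    (((g / h).choose (g / h / 2) : ℝ) / 2 ^ (g / h)) ^ Nat.totient h

lemma shareBound_nonneg (g : ℕ) : 0 ≤ shareBound g := by
  unfold shareBound
  apply Finset.sum_nonneg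
  intro h _
  positivity

lemma tendsto_shareBound : Tendsto shareBound atTop (𝓝 0) := by
  classical
  set r : ℝ := Real.sqrt (1 / 2) with hr
  have hr0 : 0 ≤ r := Real.sqrt_nonneg _
  have hrsq : r ^ 2 = 1 / 2 := Real.sq_sqrt (by norm_num)
  have hr1 : r < 1 := by nlinarith
  have hatom : ∀ m : ℕ, 1 ≤ m → atom m ≤ r := by
    intro m hm
    have h1 := atom_sq_le m
    have h2 := atom_nonneg m
    have h3 : (1 : ℝ) ≤ m := by exact_mod_cast hm
    have h4 : atom m ^ 2 ≤ r ^ 2 := by
      rw [hrsq]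
      nlinarith
    exact le_of_sq_le_sq h4 hr0
  -- a summable dominating function
  obtain ⟨K, hK⟩ : ∃ K : ℝ, ∀ k : ℕ, (k : ℝ) ^ 4 * r ^ k ≤ K := by
    have h1 := tendsto_pow_const_mul_const_pow_of_abs_lt_one 4 (r := r)
      (by rw [abs_of_nonneg hr0]; exact hr1)
    obtain ⟨K, hK⟩ := h1.bddAbove_range
    exact ⟨K, fun k => hK ⟨k, rfl⟩⟩
  let b : ℕ → ℝ := fun h => if h = 0 then 0 else r ^ (Nat.totient h)
  have hb0 : ∀ h, 0 ≤ b h := by
    intro h
    simp only [b]
    split_ifs
    · exact le_refl _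
    · positivity
  have hbsum : Summable b := by
    have h1 : Summable (fun h : ℕ => 4 * K * (1 / (h : ℝ) ^ 2)) :=
      (Real.summable_one_div_nat_pow.mpr (by norm_num)).mul_left _
    refine Summable.of_nonneg_of_le hb0 ?_ h1
    intro h
    by_cases hh : h = 0
    · simp [b, hh]
    · simp only [b, hh, if_false]
      have hhpos : (0 : ℝ) < h := by exact_mod_cast Nat.pos_of_ne_zero hh
      have h2 := hK (Nat.totient h)
      have h3 : (h : ℝ) ≤ 2 * (Nat.totient h : ℝ) ^ 2 := by exact_mod_cast (le_totient_sq h).2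
      have h4 : (h : ℝ) ^ 2 ≤ 4 * (Nat.totient h : ℝ) ^ 4 := by nlinarith
      have h5 : 0 ≤ r ^ (Nat.totient h) := by positivity
      rw [mul_one_div, le_div_iff₀ (by positivity)]
      calc r ^ (Nat.totient h) * (h : ℝ) ^ 2
          ≤ r ^ (Nat.totient h) * (4 * (Nat.totient h : ℝ) ^ 4) :=
            mul_le_mul_of_nonneg_left h4 h5
        _ = 4 * ((Nat.totient h : ℝ) ^ 4 * r ^ (Nat.totient h)) := by ring
        _ ≤ 4 * K := by linarith
  let f : ℕ → ℕ → ℝ := fun g h => if h ∣ g ∧ g ≠ 0 then (atom (g / h)) ^ (Nat.totient h) else 0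
  have hf0 : ∀ g h, 0 ≤ f g h := by
    intro g h
    simp only [f]
    split_ifs
    · exact pow_nonneg (atom_nonneg _) _
    · exact le_refl _
  have hfb : ∀ g h, ‖f g h‖ ≤ b h := by
    intro g h
    rw [Real.norm_of_nonneg (hf0 g h)]
    by_cases hh : h ∣ g ∧ g ≠ 0
    · have hh0 : h ≠ 0 := by
        rintro rfl
        exact hh.2 (Nat.eq_zero_of_zero_dvd hh.1)
      simp only [f, b, hh, hh0, if_false, not_false_iff, and_self, if_true, ne_eq]
      apply pow_le_pow_left₀ (atom_nonneg _)
      apply hatom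
      exact Nat.div_pos (Nat.le_of_dvd (Nat.pos_of_ne_zero hh.2) hh.1) (Nat.pos_of_ne_zero hh0)
    · simp only [f, hh, if_false]
      exact hb0 h
  have hflim : ∀ h, Tendsto (fun g => f g h) atTop (𝓝 0) := by
    intro h
    have h1 : Tendsto (fun g : ℕ => Real.sqrt ((h : ℝ) / g)) atTop (𝓝 0) := by
      have h2 : Tendsto (fun g : ℕ => (h : ℝ) / g) atTop (𝓝 0) :=
        tendsto_const_div_atTop_nhds_zero_nat _
      have h3 := h2.sqrt
      rwa [Real.sqrt_zero] at h3
    refine squeeze_zero (fun g => hf0 g h) ?_ h1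
    intro g
    by_cases hh : h ∣ g ∧ g ≠ 0
    · have hh0 : h ≠ 0 := by
        rintro rfl
        exact hh.2 (Nat.eq_zero_of_zero_dvd hh.1)
      have hhpos : (0 : ℝ) < h := by exact_mod_cast Nat.pos_of_ne_zero hh0
      have hgpos : (0 : ℝ) < g := by exact_mod_cast Nat.pos_of_ne_zero hh.2
      simp only [f, hh, not_false_iff, and_self, if_true, ne_eq]
      have h2 : (atom (g / h)) ^ (Nat.totient h) ≤ atom (g / h) := by
        have h3 : 1 ≤ Nat.totient h := Nat.totient_pos.mpr (Nat.pos_of_ne_zero hh0)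
        calc (atom (g / h)) ^ (Nat.totient h) ≤ (atom (g / h)) ^ 1 :=
              pow_le_pow_of_le_one (atom_nonneg _) (atom_le_one _) h3
          _ = _ := pow_one _
      refine h2.trans ?_
      apply Real.le_sqrt_of_sq_le
      have h4 := atom_sq_le (g / h)
      have h5 : ((g / h : ℕ) : ℝ) = (g : ℝ) / h := Nat.cast_div hh.1 hhpos.ne'
      rw [h5] at h4
      rw [le_div_iff₀ hgpos]
      have h6 : 0 ≤ atom (g / h) ^ 2 := by positivity
      have h7 : (g : ℝ) / h * atom (g / h) ^ 2 ≤ 1 := by nlinarith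
      have h8 : atom (g / h) ^ 2 * g = h * ((g : ℝ) / h * atom (g / h) ^ 2) := by
        field_simp
      rw [h8]
      nlinarith
    · simp only [f, hh, if_false]
      exact Real.sqrt_nonneg _
  have hlim := tendsto_tsum_of_dominated_convergence (𝓕 := atTop) (f := f) (g := fun _ => 0)
    hbsum hflim (Eventually.of_forall hfb)
  rw [tsum_zero] at hlim
  refine squeeze_zero shareBound_nonneg ?_ hlim
  intro g
  by_cases hg : g = 0
  · subst hg
    simp only [shareBound, Nat.divisors_zero, Finset.filter_empty, Finset.sum_empty]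
    exact tsum_nonneg (hf0 0)
  · have h1 : shareBound g ≤ ∑ h ∈ g.divisors, f g h := by
      have h2 : ∑ h ∈ g.divisors.filter (fun h => h ≠ 1 ∨ Even g), f g h
          ≤ ∑ h ∈ g.divisors, f g h :=
        Finset.sum_le_sum_of_subset_of_nonneg (Finset.filter_subset _ _) (fun h _ _ => hf0 g h)
      refine le_trans (le_of_eq ?_) h2
      unfold shareBound
      apply Finset.sum_congr rfl
      intro h hh
      have h3 : h ∣ g := Nat.dvd_of_mem_divisors (Finset.mem_filter.mp hh).1
      simp only [f, h3, hg, not_false_iff, and_self, if_true, ne_eq]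
      rfl
    refine h1.trans ?_
    have hsummable : Summable (f g) :=
      Summable.of_nonneg_of_le (hf0 g) (fun h => by
        have := hfb g h
        rwa [Real.norm_of_nonneg (hf0 g h)] at this) hbsum
    exact hsummable.sum_le_tsum _ (fun h _ => hf0 g h)

end Pool.Agent.Lib.MP_640417_ag
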