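import Mathlib

/-!
# CM types and Galois representations of CM type

`E` is a CM number field. The embeddings of `E` into the algebraic closure of `ℚ` are `Emb E`;
`conjEmb φ` is the complex conjugate of the embedding `φ`, and the absolute Galois group
`AbsGal` of `ℚ` acts on `Emb E` by composition.
-/

namespace Pool.Agent.Lib.MP_640417_ag

open NumberField Module

/-- The embeddings of the number field `E` into the algebraic closure of `ℚ`. -/
abbrev Emb (E : Type) [Field E] [NumberField E] : Type := E →+* AlgebraicClosure ℚ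

/-- The absolute Galois group of `ℚ`: all automorphisms of the field of algebraic numbers. -/
abbrev AbsGal : Type := AlgebraicClosure ℚ ≃+* AlgebraicClosure ℚ

section defs

variable {E : Type} [Field E] [NumberField E]

/-- The action of the absolute Galois group on embeddings by composition. -/
noncomputable def galEmb (τ : AbsGal) (φ : Emb E) : Emb E := τ.toRingHom.comp φ

variable [IsCMField E]

/-- The conjugate embedding `x ↦ φ (x̄)`. -/
noncomputable def conjEmb (φ : Emb E) : Emb E :=
  φ.comp (IsCMField.complexConj E).toRingEquiv.toRingHom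

/-- `Φ` is a CM type on `E`: it contains exactly one embedding out of each conjugate pair. -/
def IsCMType (Φ : Set (Emb E)) : Prop := ∀ φ : Emb E, φ ∈ Φ ↔ conjEmb φ ∉ Φ

/-- `H¹(Aⁿ)` for an abelian variety `A` with complex multiplication by `E`, with
coefficients in `F`: one line for each embedding of `E` and each of the `n` factors. -/
abbrev H1 (E : Type) [Field E] [NumberField E] (n : ℕ) (F : Type) : Type :=
  Emb E × Fin n → F

/-- Galois representations of CM type `(E, Φ)`. For an abelian variety `A` over a number field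
`k₁` with complex multiplication by `E` over `k₁`, of CM type `Φ`, take for `Γ` the Galois group
of `k₁`, for `F` the algebraic closure of `ℚ_ℓ`, for `ψ φ` the character through which `Γ` acts on
the `φ`-line of `V_ℓ(A) ⊗ F`, and for `χ` the cyclotomic character. The field `weights` says that
the product of characters `∏ ψ_φ ^ m_φ` equals `χ ^ k` on an open subgroup if and only if
all the weights `∑_{τφ ∈ Φ} m_φ` (one for each `τ` in the absolute Galois group of `ℚ`)
equal `k`. -/
structure CMGaloisRep (Φ : Set (Emb E)) (Γ : Type) [Group Γ] [TopologicalSpace Γ]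
    (F : Type) [Field F] where
  /-- The character of `Γ` on the `φ`-line of `V_ℓ(A) ⊗ F`. -/
  ψ : Emb E → Γ →* Fˣ
  /-- The cyclotomic character. -/
  χ : Γ →* Fˣ
  /-- The characters `ψ_φ` have the weights prescribed by `Φ`. -/
  weights : ∀ (m : Emb E → ℤ) (k : ℤ),
    (∃ U : OpenSubgroup Γ, ∀ γ ∈ U, ∏ φ : Emb E, ψ φ γ ^ m φ = χ γ ^ k) ↔
      ∀ τ : AbsGal, ∑ φ : Emb E, Set.indicator {φ : Emb E | galEmb τ φ ∈ Φ} m φ = k

end defs

section generic

variable {Γ : Type} [Group Γ] [TopologicalSpace Γ] {F : Type} [Field F]
  {V : Type} [AddCommGroup V] [Module F V]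

/-- For an abelian variety `B` over `k₁` the cohomology algebra `⨁ⱼ Hʲ(B)` is the exterior algebra
on `V = H¹(B)`, and the Galois group `Γ` of `k₁` acts on it through its action `T` on `V`. The
element `x` is a Tate class of codimension `i`: it is homogeneous of degree `2 i`, and, after the
twist by the `i`-th power of the cyclotomic character `χ`, it is fixed by an open subgroup
of `Γ`. -/
def TateClass (T : Γ → V →ₗ[F] V) (χ : Γ →* Fˣ) (i : ℕ) (x : ExteriorAlgebra F V) : Prop :=
  x ∈ ⋀[F]^(2 * i) V ∧
    ∃ U : OpenSubgroup Γ, ∀ γ ∈ U, (χ γ : F) ^ i • ExteriorAlgebra.map (T γ) x = x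

/-- The subalgebra generated by the Tate classes of codimension `1`. -/
noncomputable def divisorAlg (T : Γ → V →ₗ[F] V) (χ : Γ →* Fˣ) :
    Subalgebra F (ExteriorAlgebra F V) :=
  Algebra.adjoin F {x | TateClass T χ 1 x}

/-- `x` is an exotic Tate class of codimension `i`. -/
def ExoticTateClass (T : Γ → V →ₗ[F] V) (χ : Γ →* Fˣ) (i : ℕ) (x : ExteriorAlgebra F V) : Prop :=
  TateClass T χ i x ∧ x ∉ divisorAlg T χ

end generic

section tate

variable {E : Type} [Field E] [NumberField E] {Φ : Set (Emb E)}
  {Γ : Type} [Group Γ] [TopologicalSpace Γ] {F : Type} [Field F]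

/-- The action of `γ` on `H¹(Aⁿ)`, the dual of `V_ℓ(Aⁿ)`. -/
noncomputable def CMGaloisRep.onH1 (ρ : CMGaloisRep Φ Γ F) (n : ℕ) (γ : Γ) :
    H1 E n F →ₗ[F] H1 E n F :=
  LinearMap.pi fun p => ((ρ.ψ p.1 γ)⁻¹ : Fˣ).val • LinearMap.proj p

end tate

end Pool.Agent.Lib.MP_640417_ag
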