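import Pool.Agent.Lib.MP_640417_ag.OddLowerB

/-!
# Lower bound: second moment
-/

open Finset MonoidAlgebra

namespace Pool.Agent.Lib.MP_640417_ag.OddGal

variable {H : Type} [Group H] [Fintype H] [DecidableEq H]

omit [Fintype H] [DecidableEq H] in
theorem card_C3 : Fintype.card C3 = 3 := rfl

omit [DecidableEq H] in
theorem sum_comp_fiber {Q : Type} [Group Q] [Fintype Q] [DecidableEq Q] (f : H →* Q)
    (hf : Function.Surjective f) (u : Q → ℤ) :
    (Fintype.card Q : ℤ) * ∑ h, u (f h) = Fintype.card H * ∑ q, u q := by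
  have h1 : ∑ h, u (f h) = ∑ q, ∑ h ∈ univ.filter (fun h => f h = q), u (f h) :=
    (sum_fiberwise _ _ _).symm
  rw [h1, mul_sum, mul_sum]
  refine sum_congr rfl fun q _ => ?_
  have h2 : ∑ h ∈ univ.filter (fun h => f h = q), u (f h) =
      (univ.filter fun h => f h = q).card * u q := by
    rw [sum_congr rfl fun h hh => by rw [(mem_filter.1 hh).2], sum_const, nsmul_eq_mul]
  rw [h2, ← card_fiber f hf q]
  push_cast
  ring

omit [Group H] [DecidableEq H] in
theorem odd_of_dvd (hodd : Odd (Fintype.card H)) {k m : ℕ} (h : k * m = Fintype.card H) : Odd k :=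
  Odd.of_dvd_nat hodd ⟨m, h.symm⟩

/-- the events of single subgroups: upper bound -/
theorem card_eqSets_le (hodd : Odd (Fintype.card H)) {χ : H →* C3} (hf : Function.Surjective χ) :
    (eqSets χ).card * Fintype.card H ≤ 3 * 2 ^ Fintype.card H := by
  set k := (univ.filter fun h => χ h = 1).card with hk
  have hk1 : k * 3 = Fintype.card H := card_fiber χ hf 1
  have hfib : ∀ q, (univ.filter fun h => χ h = q).card = k := by
    intro q
    have h1 : (univ.filter fun h => χ h = q).card * 3 = Fintype.card H := card_fiber χ hf q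
    omega
  have hkodd : Odd k := odd_of_dvd hodd hk1
  have h1 := card_le_of_determined χ k hfib (univ.erase 1) (eqSets χ) (by
    intro P hP P' hP' hag q _
    rw [eqSets, mem_filter] at hP hP'
    have h2 : cnt χ P 1 = cnt χ P' 1 := by
      rw [cnt, cnt]
      congr 1
      ext a
      rw [mem_filter, mem_filter]
      constructor
      · rintro ⟨h3, h4⟩
        exact ⟨(hag a (by simp [h4])).1 h3, h4⟩
      · rintro ⟨h3, h4⟩
        exact ⟨(hag a (by simp [h4])).2 h3, h4⟩
    rw [hP.2 q 1, h2, hP'.2 1 q])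
  have h2 : (univ.erase (1 : C3)).card = 2 := by
    rw [card_erase_of_mem (mem_univ _), card_univ, card_C3]
  rw [h2, card_C3] at h1
  have h3 := choose_sq_le hkodd
  calc (eqSets χ).card * Fintype.card H
      ≤ (2 ^ (k * (3 - 2)) * k.choose (k / 2) ^ 2) * (k * 3) := by
        rw [← hk1]
        exact Nat.mul_le_mul_right _ h1
    _ = 3 * (2 ^ k * (k.choose (k / 2) ^ 2 * k)) := by
        rw [show 3 - 2 = 1 by norm_num, mul_one]
        ring
    _ ≤ 3 * (2 ^ k * 4 ^ k) := by
        apply Nat.mul_le_mul_left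
        exact Nat.mul_le_mul_left _ h3
    _ = 3 * 2 ^ Fintype.card H := by
        rw [← hk1, ← mul_pow, mul_comm k 3, pow_mul]
        norm_num

/-- the events of single subgroups: lower bound -/
theorem card_eqSets_ge' {χ : H →* C3} (hf : Function.Surjective χ) :
    (9 / 64 : ℝ) * 2 ^ Fintype.card H ≤ (eqSets χ).card * Fintype.card H := by
  set k := (univ.filter fun h => χ h = 1).card with hk
  have hk1 : k * 3 = Fintype.card H := card_fiber χ hf 1
  have hfib : ∀ q, (univ.filter fun h => χ h = q).card = k := by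
    intro q
    have h1 : (univ.filter fun h => χ h = q).card * 3 = Fintype.card H := card_fiber χ hf q
    omega
  have hkpos : 1 ≤ k := by
    have : 0 < Fintype.card H := Fintype.card_pos
    omega
  have h1 := card_eqSets_ge χ k hfib
  rw [card_C3] at h1
  have h2 := sum_choose_cube_ge hkpos
  have h3 : ∑ j ∈ range (k + 1), (k.choose j : ℝ) ^ 3 ≤ (eqSets χ).card := by exact_mod_cast h1
  have hk0 : (0 : ℝ) < k := by exact_mod_cast hkpos
  have h4 := h2.trans h3
  rw [div_le_iff₀ hk0] at h4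
  have h5 : (Fintype.card H : ℝ) = k * 3 := by exact_mod_cast hk1.symm
  have h6 : (2 : ℝ) ^ Fintype.card H = 8 ^ k := by
    rw [← hk1, mul_comm, pow_mul]
    norm_num
  rw [h5, h6]
  nlinarith

/-- the events of pairs of subgroups -/
theorem card_pair_le (hodd : Odd (Fintype.card H)) {χ χ' : H →* C3}
    (hf : Function.Surjective (χ.prod χ')) :
    (eqSets χ ∩ eqSets χ').card * Fintype.card H ^ 2 ≤ 81 * 2 ^ Fintype.card H := by
  set π : H → C3 × C3 := fun h => (χ h, χ' h) with hπ
  set k := (univ.filter fun h => (χ.prod χ') h = 1).card with hk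
  have hQ : Fintype.card (C3 × C3) = 9 := rfl
  have hk1 : k * 9 = Fintype.card H := by
    have := card_fiber (χ.prod χ') hf 1
    rwa [hQ] at this
  have hfib : ∀ q, (univ.filter fun h => π h = q).card = k := by
    intro q
    have h1 := card_fiber (χ.prod χ') hf q
    rw [hQ] at h1
    have h2 : (univ.filter fun h => π h = q) = univ.filter fun h => (χ.prod χ') h = q := rfl
    rw [h2]
    omega
  have hkodd : Odd k := odd_of_dvd hodd hk1
  -- row and column sums
  have hrow : ∀ (P : Finset H) (a : C3), cnt χ P a = ∑ b, cnt π P (a, b) := by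
    intro P a
    have : P.filter (fun h => χ h = a) = univ.biUnion fun b => P.filter fun h => π h = (a, b) := by
      ext h
      simp [hπ, Prod.ext_iff]
    rw [cnt, this, card_biUnion]
    · rfl
    · intro b _ b' _ hbb
      change Disjoint _ _
      rw [disjoint_left]
      intro h hh hh'
      rw [mem_filter] at hh hh'
      have h3 := hh.2.symm.trans hh'.2
      exact hbb (Prod.ext_iff.1 h3).2
  have hcol : ∀ (P : Finset H) (b : C3), cnt χ' P b = ∑ a, cnt π P (a, b) := by
    intro P b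
    have : P.filter (fun h => χ' h = b) = univ.biUnion fun a => P.filter fun h => π h = (a, b) := by
      ext h
      simp [hπ, Prod.ext_iff]
    rw [cnt, this, card_biUnion]
    · rfl
    · intro a _ a' _ haa
      change Disjoint _ _
      rw [disjoint_left]
      intro h hh hh'
      rw [mem_filter] at hh hh'
      have h3 := hh.2.symm.trans hh'.2
      exact haa (Prod.ext_iff.1 h3).1
  let c : ℕ → C3 := fun i => Multiplicative.ofAdd (i : ZMod 3)
  have hC3 : ∀ u : C3 → ℕ, ∑ a, u a = u (c 0) + u (c 1) + u (c 2) := by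
    intro u
    have : (univ : Finset C3) = {c 0, c 1, c 2} := by decide
    rw [this, sum_insert (by decide), sum_insert (by decide), sum_singleton, add_assoc]
  set T : Finset (C3 × C3) := {(c 0, c 0), (c 1, c 1), (c 0, c 1), (c 1, c 2)} with hT
  have hTcard : T.card = 4 := by decide
  have h1 := card_le_of_determined π k hfib T (eqSets χ ∩ eqSets χ') (by
    intro P hP P' hP' hag
    rw [mem_inter, eqSets, eqSets, mem_filter, mem_filter] at hP hP'
    obtain ⟨⟨-, hr⟩, ⟨-, hc⟩⟩ := hP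
    obtain ⟨⟨-, hr'⟩, ⟨-, hc'⟩⟩ := hP'
    have heq : ∀ q, q ∉ T → cnt π P q = cnt π P' q := by
      intro q hq
      rw [cnt, cnt]
      congr 1
      ext a
      rw [mem_filter, mem_filter]
      constructor
      · rintro ⟨h3, h4⟩
        exact ⟨(hag a (by rwa [h4])).1 h3, h4⟩
      · rintro ⟨h3, h4⟩
        exact ⟨(hag a (by rwa [h4])).2 h3, h4⟩
    have e02 := heq (c 0, c 2) (by decide)
    have e10 := heq (c 1, c 0) (by decide)
    have e20 := heq (c 2, c 0) (by decide)
    have e21 := heq (c 2, c 1) (by decide)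
    have e22 := heq (c 2, c 2) (by decide)
    have r01 := hr (c 0) (c 1)
    have r12 := hr (c 1) (c 2)
    have r01' := hr' (c 0) (c 1)
    have r12' := hr' (c 1) (c 2)
    have s01 := hc (c 0) (c 1)
    have s12 := hc (c 1) (c 2)
    have s01' := hc' (c 0) (c 1)
    have s12' := hc' (c 1) (c 2)
    simp only [hrow, hC3] at r01 r12 r01' r12'
    simp only [hcol, hC3] at s01 s12 s01' s12'
    intro q hq
    have hq' : q = (c 0, c 0) ∨ q = (c 1, c 1) ∨ q = (c 0, c 1) ∨ q = (c 1, c 2) := by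
      simpa [hT] using hq
    rcases hq' with rfl | rfl | rfl | rfl <;> omega)
  rw [hTcard, hQ] at h1
  have h3 := choose_sq_le hkodd
  calc (eqSets χ ∩ eqSets χ').card * Fintype.card H ^ 2
      ≤ (2 ^ (k * (9 - 4)) * k.choose (k / 2) ^ 4) * (k * 9) ^ 2 := by
        rw [← hk1]
        exact Nat.mul_le_mul_right _ h1
    _ = 81 * (2 ^ (k * 5) * (k.choose (k / 2) ^ 2 * k) ^ 2) := by
        rw [show 9 - 4 = 5 by norm_num]
        ring
    _ ≤ 81 * (2 ^ (k * 5) * (4 ^ k) ^ 2) := by
        apply Nat.mul_le_mul_left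
        exact Nat.mul_le_mul_left _ (Nat.pow_le_pow_left h3 2)
    _ = 81 * 2 ^ Fintype.card H := by
        rw [← hk1, show (4 : ℕ) = 2 ^ 2 by norm_num, ← pow_mul, ← pow_mul, ← pow_add]
        congr 2
        ring

omit [DecidableEq H] in
/-- the number of subgroups of index 3 -/
theorem two_mul_card_le (hodd : Odd (Fintype.card H)) (𝓜 : Finset (Subgroup H))
    (χ : Subgroup H → H →* C3) (h𝓜 : ∀ M ∈ 𝓜, M.index = 3 ∧ (χ M).ker = M ∧
      Function.Surjective (χ M)) : 2 * 𝓜.card ≤ Fintype.card H := by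
  classical
  set u : C3 → ℤ := fun a => if a = 1 then 2 else -1 with hu
  have hu0 : ∑ a, u a = 0 := by decide
  have hu2 : ∑ a, u a * u a = 6 := by decide
  set F : H → ℤ := fun h => ∑ M ∈ 𝓜, u (χ M h) with hF
  have h1 : ∑ h, F h ^ 2 = 2 * Fintype.card H * 𝓜.card := by
    have h2 : ∀ h, F h ^ 2 = ∑ M ∈ 𝓜, ∑ M' ∈ 𝓜, u (χ M h) * u (χ M' h) := by
      intro h
      rw [sq, hF, sum_mul_sum]
    rw [sum_congr rfl fun h _ => h2 h, sum_comm]
    have h3 : ∀ M ∈ 𝓜, ∑ h, ∑ M' ∈ 𝓜, u (χ M h) * u (χ M' h) = 2 * Fintype.card H := by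
      intro M hM
      rw [sum_comm, sum_eq_single M]
      · have h4 := sum_comp_fiber (χ M) (h𝓜 M hM).2.2 fun a => u a * u a
        rw [hu2, card_C3] at h4
        push_cast at h4
        linarith
      · intro M' hM' hne
        have h5 := surjective_prod hodd (h𝓜 M hM).1 (h𝓜 M' hM').1 (Ne.symm hne) (h𝓜 M hM).2.1
          (h𝓜 M' hM').2.1
        have h4 := sum_comp_fiber ((χ M).prod (χ M')) h5 fun a => u a.1 * u a.2
        have h6 : ∑ a : C3 × C3, u a.1 * u a.2 = 0 := by
          rw [Fintype.sum_prod_type, ← sum_mul_sum, hu0, zero_mul]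
        rw [h6, mul_zero] at h4
        have h7 : (Fintype.card (C3 × C3) : ℤ) ≠ 0 := by
          have : Fintype.card (C3 × C3) = 9 := rfl
          rw [this]
          norm_num
        exact (mul_eq_zero.1 h4).resolve_left h7
      · intro h
        exact absurd hM h
    rw [sum_congr rfl h3, sum_const, nsmul_eq_mul]
    ring
  have h2 : F 1 ^ 2 ≤ ∑ h, F h ^ 2 :=
    single_le_sum (f := fun h => F h ^ 2) (fun h _ => sq_nonneg _) (mem_univ 1)
  have h3 : F 1 = 2 * 𝓜.card := by
    rw [hF]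
    simp only [map_one, hu, if_true, sum_const, nsmul_eq_mul]
    ring
  rw [h1, h3] at h2
  rcases Nat.eq_zero_or_pos 𝓜.card with h4 | h4
  · rw [h4]
    omega
  · have h5 : (0 : ℤ) < 𝓜.card := by exact_mod_cast h4
    have h6 : (2 * (𝓜.card : ℤ)) ≤ Fintype.card H := by nlinarith
    exact_mod_cast h6

/-- **Lower bound.** -/
theorem groupLower (H : Type) [Group H] [Fintype H] (hodd : Odd (Fintype.card H)) :
    ({K : Subgroup H | K.index = 3}.ncard : ℝ) * 2 ^ Fintype.card H ≤
      4000 * Fintype.card H * {ε : H → ℤ | ε ∈ signs H ∧ Bad ε}.ncard := by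
  classical
  have hex : ∀ M : Subgroup H, ∃ χ : H →* C3, M.index = 3 → χ.ker = M ∧ Function.Surjective χ := by
    intro M
    by_cases hM : M.index = 3
    · obtain ⟨χ, hχ⟩ := exists_hom hodd hM
      exact ⟨χ, fun _ => hχ⟩
    · exact ⟨1, fun h => absurd h hM⟩
  choose χ hχ using hex
  set 𝓜 : Finset (Subgroup H) := univ.filter fun M => M.index = 3 with h𝓜
  have hmem : ∀ M ∈ 𝓜, M.index = 3 ∧ (χ M).ker = M ∧ Function.Surjective (χ M) := by
    intro M hM
    have h1 := (mem_filter.1 hM).2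
    exact ⟨h1, hχ M h1⟩
  have hncard : {K : Subgroup H | K.index = 3}.ncard = 𝓜.card := by
    rw [← Set.ncard_coe_finset]
    congr 1
    ext M
    simp [h𝓜]
  rw [hncard]
  set g := Fintype.card H with hg
  set n := 𝓜.card with hn
  have hgpos : 0 < g := Fintype.card_pos
  have hgR : (0 : ℝ) < g := by exact_mod_cast hgpos
  have h2g : (0 : ℝ) < 2 ^ g := by positivity
  set U : Finset (Finset H) := 𝓜.biUnion fun M => eqSets (χ M) with hU
  -- bad sign vectors
  have hUbad : U.card ≤ {ε : H → ℤ | ε ∈ signs H ∧ Bad ε}.ncard := by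
    rw [← Set.ncard_coe_finset]
    refine Set.ncard_le_ncard_of_injOn sgnOf ?_ sgnOf_injective.injOn ?_
    · intro P hP
      rw [mem_coe, hU, mem_biUnion] at hP
      obtain ⟨M, hM, hPM⟩ := hP
      exact ⟨sgnOf_mem P, bad_of_eqSets (hmem M hM).1 (hmem M hM).2.1 (hmem M hM).2.2 hPM⟩
    · apply Set.Finite.subset (finite_toSet (signs H))
      intro ε hε
      exact hε.1
  -- Cauchy-Schwarz
  set f : Finset H → ℝ := fun P => ∑ M ∈ 𝓜, if P ∈ eqSets (χ M) then 1 else 0 with hf
  have hCS : (∑ P ∈ U, f P) ^ 2 ≤ U.card * ∑ P ∈ U, f P ^ 2 := sq_sum_le_card_mul_sum_sq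
  have hsum1 : ∑ P ∈ U, f P = ∑ M ∈ 𝓜, ((eqSets (χ M)).card : ℝ) := by
    rw [hf, sum_comm]
    refine sum_congr rfl fun M hM => ?_
    rw [sum_boole]
    congr 2
    ext P
    rw [mem_filter]
    exact ⟨fun h => h.2, fun h => ⟨mem_biUnion.2 ⟨M, hM, h⟩, h⟩⟩
  have hsum2 : ∑ P ∈ U, f P ^ 2 = ∑ M ∈ 𝓜, ∑ M' ∈ 𝓜, ((eqSets (χ M) ∩ eqSets (χ M')).card : ℝ) := by
    have h1 : ∀ P, f P ^ 2 = ∑ M ∈ 𝓜, ∑ M' ∈ 𝓜,
        if P ∈ eqSets (χ M) ∩ eqSets (χ M') then (1 : ℝ) else 0 := by
      intro P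
      rw [sq, hf, sum_mul_sum]
      refine sum_congr rfl fun M _ => sum_congr rfl fun M' _ => ?_
      by_cases h2 : P ∈ eqSets (χ M) <;> by_cases h3 : P ∈ eqSets (χ M') <;> simp [h2, h3]
    rw [sum_congr rfl fun P _ => h1 P, sum_comm]
    refine sum_congr rfl fun M hM => ?_
    rw [sum_comm]
    refine sum_congr rfl fun M' hM' => ?_
    rw [sum_boole]
    congr 2
    ext P
    rw [mem_filter]
    exact ⟨fun h => h.2, fun h => ⟨mem_biUnion.2 ⟨M, hM, (mem_inter.1 h).1⟩, h⟩⟩
  -- the bounds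
  have hlow : (n : ℝ) * (9 / 64 * 2 ^ g / g) ≤ ∑ P ∈ U, f P := by
    rw [hsum1, ← nsmul_eq_mul, hn]
    apply card_nsmul_le_sum
    intro M hM
    rw [div_le_iff₀ hgR]
    exact card_eqSets_ge' (hmem M hM).2.2
  have hup : ∑ P ∈ U, f P ^ 2 ≤ n * (3 * 2 ^ g / g + n * (81 * 2 ^ g / g ^ 2)) := by
    rw [hsum2, ← nsmul_eq_mul, hn]
    apply sum_le_card_nsmul
    intro M hM
    rw [← add_sum_erase _ _ hM]
    apply add_le_add
    · rw [inter_self, le_div_iff₀ hgR]
      have := card_eqSets_le hodd (hmem M hM).2.2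
      exact_mod_cast this
    · have h1 : ∑ M' ∈ 𝓜.erase M, ((eqSets (χ M) ∩ eqSets (χ M')).card : ℝ) ≤
          (𝓜.erase M).card • (81 * 2 ^ g / (g : ℝ) ^ 2) := by
        apply sum_le_card_nsmul
        intro M' hM'
        have hM'2 := mem_of_mem_erase hM'
        have hne := ne_of_mem_erase hM'
        rw [le_div_iff₀ (by positivity)]
        have := card_pair_le hodd (surjective_prod hodd (hmem M hM).1 (hmem M' hM'2).1
          (Ne.symm hne) (hmem M hM).2.1 (hmem M' hM'2).2.1)
        exact_mod_cast this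
      refine h1.trans ?_
      rw [nsmul_eq_mul]
      apply mul_le_mul_of_nonneg_right _ (by positivity)
      exact_mod_cast card_le_card (erase_subset _ _)
  have h2n : (2 : ℝ) * n ≤ g := by
    have := two_mul_card_le hodd 𝓜 χ hmem
    exact_mod_cast this
  have hn0 : (0 : ℝ) ≤ n := Nat.cast_nonneg _
  -- conclusion
  have hfin : ((n : ℝ) * (9 / 64 * 2 ^ g / g)) ^ 2 ≤
      U.card * (n * (3 * 2 ^ g / g + n * (81 * 2 ^ g / g ^ 2))) := by
    calc ((n : ℝ) * (9 / 64 * 2 ^ g / g)) ^ 2 ≤ (∑ P ∈ U, f P) ^ 2 :=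
          pow_le_pow_left₀ (by positivity) hlow 2
      _ ≤ U.card * ∑ P ∈ U, f P ^ 2 := hCS
      _ ≤ _ := mul_le_mul_of_nonneg_left hup (Nat.cast_nonneg _)
  have hU0 : (0 : ℝ) ≤ U.card := Nat.cast_nonneg _
  have hmain : (n : ℝ) * 2 ^ g ≤ 4000 * g * U.card := by
    rcases eq_or_lt_of_le hn0 with h0 | h0
    · rw [← h0, zero_mul]
      positivity
    · have h1 : ((n : ℝ) * (9 / 64 * 2 ^ g / g)) ^ 2 = (n * (2 ^ g / g ^ 2)) * (81 / 4096 * (n * 2 ^ g)) := by
        field_simp
        norm_num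
      have h2 : (U.card : ℝ) * (n * (3 * 2 ^ g / g + n * (81 * 2 ^ g / g ^ 2))) =
          (n * (2 ^ g / g ^ 2)) * (U.card * (3 * g + 81 * n)) := by
        field_simp
      rw [h1, h2] at hfin
      have h3 := le_of_mul_le_mul_left hfin (by positivity)
      nlinarith [mul_le_mul_of_nonneg_left h2n hU0]
  refine hmain.trans ?_
  apply mul_le_mul_of_nonneg_left _ (by positivity)
  exact_mod_cast hUbad

end Pool.Agent.Lib.MP_640417_ag.OddGal
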