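import Pool.Agent.Lib.MP_640417_ag.OddGroup
import Pool.Agent.Lib.MP_640417_ag.OddLower

/-!
# Sign vectors with a nontrivial stabiliser

In a group of odd order `g` at most `g * 2 ^ (g / 3)` sign vectors are invariant under the
(left or right) translation by some `h ≠ 1`.
-/

open Finset

namespace Pool.Agent.Lib.MP_640417_ag.OddGal

variable {H : Type} [Group H] [Fintype H]

omit [Group H] in
theorem mem_signs {ε : H → ℤ} : ε ∈ signs H ↔ ∀ x, ε x = 1 ∨ ε x = -1 := by
  classical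
  rw [signs, Fintype.mem_piFinset]
  simp

/-- Sign vectors invariant under left translation by `h ≠ 1`. -/
theorem card_invariant_le (hodd : Odd (Fintype.card H)) {h : H} (hh : h ≠ 1) :
    {ε : H → ℤ | ε ∈ signs H ∧ ∀ x, ε (h * x) = ε x}.ncard ≤ 2 ^ (Fintype.card H / 3) := by
  classical
  set K : Subgroup H := Subgroup.zpowers h with hK
  -- the orbits
  have hcardK : 3 ≤ Nat.card K := by
    have h1 : Nat.card K ∣ Fintype.card H := by
      rw [← Nat.card_eq_fintype_card]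
      exact Subgroup.card_subgroup_dvd_card K
    have h2 : Odd (Nat.card K) := Odd.of_dvd_nat hodd h1
    have h3 : Nat.card K ≠ 1 := by
      rw [Ne, Subgroup.card_eq_one, hK, Subgroup.zpowers_eq_bot]
      exact hh
    have h4 : 0 < Nat.card K := Nat.card_pos
    obtain ⟨m, hm⟩ := h2
    omega
  let R := QuotientGroup.rightRel K
  have hQ : Nat.card (Quotient R) ≤ Fintype.card H / 3 := by
    have h1 : Nat.card (Quotient R) = K.index := by
      rw [Subgroup.index]
      exact Nat.card_congr (QuotientGroup.quotientRightRelEquivQuotientLeftRel K)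
    rw [h1, Nat.le_div_iff_mul_le (by norm_num)]
    calc K.index * 3 ≤ K.index * Nat.card K := Nat.mul_le_mul_left _ hcardK
      _ = Fintype.card H := by rw [Subgroup.index_mul_card, Nat.card_eq_fintype_card]
  have hinv : ∀ ε : H → ℤ, (∀ x, ε (h * x) = ε x) → ∀ k ∈ K, ∀ x, ε (k * x) = ε x := by
    intro ε hε
    let S : Subgroup H :=
      { carrier := {k | ∀ x, ε (k * x) = ε x}
        mul_mem' := fun {a b} ha hb x => by rw [mul_assoc, ha, hb]
        one_mem' := fun x => by rw [one_mul]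
        inv_mem' := fun {a} ha x => by rw [← ha (a⁻¹ * x), mul_inv_cancel_left] }
    have hle : K ≤ S := by
      rw [hK, Subgroup.zpowers_le]
      exact hε
    exact fun k hk => hle hk
  calc {ε : H → ℤ | ε ∈ signs H ∧ ∀ x, ε (h * x) = ε x}.ncard
      ≤ (Set.univ : Set (Quotient R → Bool)).ncard := by
        refine Set.ncard_le_ncard_of_injOn (fun ε q => decide (ε q.out = 1))
          (fun _ _ => Set.mem_univ _) ?_ (Set.toFinite _)
        rintro ε ⟨h1, h2⟩ ε' ⟨h1', h2'⟩ heq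
        funext x
        have h3 : ∀ δ : H → ℤ, (∀ x, δ (h * x) = δ x) → δ x = δ (Quotient.mk R x).out := by
          intro δ hδ
          have h4 : R.r ((Quotient.mk R x).out) x := Quotient.exact (Quotient.out_eq _)
          have h5 : x * ((Quotient.mk R x).out)⁻¹ ∈ K := QuotientGroup.rightRel_apply.mp h4
          have h6 := hinv δ hδ _ h5 ((Quotient.mk R x).out)
          rw [inv_mul_cancel_right] at h6
          exact h6
        rw [h3 ε h2, h3 ε' h2']
        have h7 := congrFun heq (Quotient.mk R x)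
        simp only [decide_eq_decide] at h7
        rcases mem_signs.1 h1 ((Quotient.mk R x).out) with h8 | h8
        · rw [h8, h7.1 h8]
        · rcases mem_signs.1 h1' ((Quotient.mk R x).out) with h9 | h9
          · rw [h7.2 h9, h9]
          · rw [h8, h9]
    _ = 2 ^ Nat.card (Quotient R) := by
        rw [Set.ncard_univ, Nat.card_fun]
        simp
    _ ≤ 2 ^ (Fintype.card H / 3) := Nat.pow_le_pow_right (by norm_num) hQ

/-- Sign vectors with a nontrivial left stabiliser are rare. -/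
theorem card_imprimitive_le (hodd : Odd (Fintype.card H)) :
    {ε : H → ℤ | ε ∈ signs H ∧ ∃ h : H, h ≠ 1 ∧ ∀ x, ε (h * x) = ε x}.ncard ≤
      Fintype.card H * 2 ^ (Fintype.card H / 3) := by
  classical
  have hsub : {ε : H → ℤ | ε ∈ signs H ∧ ∃ h : H, h ≠ 1 ∧ ∀ x, ε (h * x) = ε x} ⊆
      ⋃ h ∈ (Finset.univ.filter (fun h : H => h ≠ 1)),
        {ε : H → ℤ | ε ∈ signs H ∧ ∀ x, ε (h * x) = ε x} := by
    rintro ε ⟨h1, h, hh, h2⟩
    simp only [Set.mem_iUnion]
    exact ⟨h, by simpa using hh, h1, h2⟩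
  have hfin : ∀ h : H, {ε : H → ℤ | ε ∈ signs H ∧ ∀ x, ε (h * x) = ε x}.Finite := fun h =>
    (finite_toSet (signs H)).subset (fun ε hε => hε.1)
  calc _ ≤ (⋃ h ∈ (Finset.univ.filter (fun h : H => h ≠ 1)),
        {ε : H → ℤ | ε ∈ signs H ∧ ∀ x, ε (h * x) = ε x}).ncard := by
          exact Set.ncard_le_ncard hsub
            (Set.Finite.biUnion (Finset.finite_toSet _) (fun h _ => hfin h))
    _ ≤ ∑ h ∈ (Finset.univ.filter (fun h : H => h ≠ 1)),
        {ε : H → ℤ | ε ∈ signs H ∧ ∀ x, ε (h * x) = ε x}.ncard :=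
          Finset.set_ncard_biUnion_le _ _
    _ ≤ ∑ h ∈ (Finset.univ.filter (fun h : H => h ≠ 1)), 2 ^ (Fintype.card H / 3) :=
          Finset.sum_le_sum (fun h hh => card_invariant_le hodd (Finset.mem_filter.1 hh).2)
    _ = (Finset.univ.filter (fun h : H => h ≠ 1)).card * 2 ^ (Fintype.card H / 3) := by
          rw [Finset.sum_const, smul_eq_mul]
    _ ≤ _ := Nat.mul_le_mul_right _ (Finset.card_le_univ _)

/-- Sign vectors with a nontrivial right stabiliser are rare. -/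
theorem card_imprimitive_le' (hodd : Odd (Fintype.card H)) :
    {ε : H → ℤ | ε ∈ signs H ∧ ∃ h : H, h ≠ 1 ∧ ∀ x, ε (x * h) = ε x}.ncard ≤
      Fintype.card H * 2 ^ (Fintype.card H / 3) := by
  classical
  refine le_trans ?_ (card_imprimitive_le hodd)
  refine Set.ncard_le_ncard_of_injOn (fun ε x => ε x⁻¹) ?_ ?_
    ((finite_toSet (signs H)).subset (fun ε hε => hε.1))
  · rintro ε ⟨h1, h, hh, h2⟩
    refine ⟨mem_signs.2 (fun x => mem_signs.1 h1 x⁻¹), h⁻¹, inv_ne_one.2 hh, fun x => ?_⟩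
    simp only [mul_inv_rev, inv_inv]
    exact h2 _
  · intro ε _ ε' _ heq
    funext x
    have := congrFun heq x⁻¹
    simpa using this

theorem num_aux (k : ℕ) (hk : 12 ≤ k) : 8000 * (3 * k + 2) ^ 2 ≤ 4 ^ k := by
  induction k, hk using Nat.le_induction with
  | base => norm_num
  | succ k hk ih =>
    have h1 : 8000 * (3 * (k + 1) + 2) ^ 2 ≤ 4 * (8000 * (3 * k + 2) ^ 2) := by nlinarith
    calc 8000 * (3 * (k + 1) + 2) ^ 2 ≤ 4 * (8000 * (3 * k + 2) ^ 2) := h1
      _ ≤ 4 * 4 ^ k := Nat.mul_le_mul_left _ ih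
      _ = 4 ^ (k + 1) := by rw [pow_succ]; ring

theorem num_aux' (g : ℕ) (hg : 36 ≤ g) : 8000 * g ^ 2 * 2 ^ (g / 3) ≤ 2 ^ g := by
  have h1 := num_aux (g / 3) (by omega)
  have h2 : g ≤ 3 * (g / 3) + 2 := by omega
  have h3 : 2 * (g / 3) + g / 3 ≤ g := by omega
  calc 8000 * g ^ 2 * 2 ^ (g / 3) ≤ 8000 * (3 * (g / 3) + 2) ^ 2 * 2 ^ (g / 3) := by gcongr
    _ ≤ 4 ^ (g / 3) * 2 ^ (g / 3) := Nat.mul_le_mul_right _ h1
    _ = 2 ^ (2 * (g / 3) + g / 3) := by
      rw [pow_add, pow_mul]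
      norm_num
    _ ≤ 2 ^ g := Nat.pow_le_pow_right (by norm_num) h3

/-- **Lower bound for primitive sign vectors.** -/
theorem groupLowerPrim (H : Type) [Group H] [Fintype H] (hodd : Odd (Fintype.card H))
    (hg : 36 ≤ Fintype.card H) :
    ({K : Subgroup H | K.index = 3}.ncard : ℝ) * 2 ^ Fintype.card H ≤
      8000 * Fintype.card H * {ε : H → ℤ | ε ∈ signs H ∧ Bad ε ∧
        ¬ ∃ h : H, h ≠ 1 ∧ ∀ x, ε (h * x) = ε x}.ncard := by
  classical
  set g := Fintype.card H with hgdef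
  set B' := {ε : H → ℤ | ε ∈ signs H ∧ Bad ε ∧
        ¬ ∃ h : H, h ≠ 1 ∧ ∀ x, ε (h * x) = ε x}.ncard with hB'
  have hlow := groupLower H hodd
  have himp := card_imprimitive_le hodd
  have hsub : {ε : H → ℤ | ε ∈ signs H ∧ Bad ε} ⊆
      {ε : H → ℤ | ε ∈ signs H ∧ Bad ε ∧ ¬ ∃ h : H, h ≠ 1 ∧ ∀ x, ε (h * x) = ε x} ∪
      {ε : H → ℤ | ε ∈ signs H ∧ ∃ h : H, h ≠ 1 ∧ ∀ x, ε (h * x) = ε x} := by
    rintro ε ⟨h1, h2⟩
    by_cases h3 : ∃ h : H, h ≠ 1 ∧ ∀ x, ε (h * x) = ε x
    · exact Or.inr ⟨h1, h3⟩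
    · exact Or.inl ⟨h1, h2, h3⟩
  have hfin : (signs H : Set (H → ℤ)).Finite := finite_toSet _
  have hle : {ε : H → ℤ | ε ∈ signs H ∧ Bad ε}.ncard ≤ B' + g * 2 ^ (g / 3) := by
    refine (Set.ncard_le_ncard hsub ?_).trans ((Set.ncard_union_le _ _).trans ?_)
    · exact (hfin.subset (fun ε hε => hε.1)).union (hfin.subset (fun ε hε => hε.1))
    · exact Nat.add_le_add_left himp _
  rcases Nat.eq_zero_or_pos {K : Subgroup H | K.index = 3}.ncard with h0 | hpos
  · rw [h0]
    simp only [Nat.cast_zero, zero_mul]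
    positivity
  · have h1 : (1 : ℝ) ≤ {K : Subgroup H | K.index = 3}.ncard := by exact_mod_cast hpos
    have h2 : (8000 : ℝ) * g ^ 2 * 2 ^ (g / 3) ≤ 2 ^ g := by exact_mod_cast num_aux' g hg
    have h3 : ({ε : H → ℤ | ε ∈ signs H ∧ Bad ε}.ncard : ℝ) ≤ B' + g * 2 ^ (g / 3) := by
      exact_mod_cast hle
    have h4 : (0 : ℝ) < g := by
      have : 0 < g := Fintype.card_pos
      exact_mod_cast this
    have h5 : (4000 : ℝ) * g * {ε : H → ℤ | ε ∈ signs H ∧ Bad ε}.ncard ≤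
        4000 * g * (B' + g * 2 ^ (g / 3)) := by gcongr
    have h6 : (2 : ℝ) ^ g ≤ ({K : Subgroup H | K.index = 3}.ncard : ℝ) * 2 ^ g := by
      have : (0 : ℝ) < 2 ^ g := by positivity
      nlinarith
    nlinarith

end Pool.Agent.Lib.MP_640417_ag.OddGal
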