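import Pool.Agent.Lib.MP_640417_ag.Exotic

/-!
# Monomial Tate classes
-/

namespace Pool.Agent.Lib.MP_640417_ag

open NumberField Module

variable {E : Type} [Field E] [NumberField E] {Φ : Set (Emb E)}
  {Γ : Type} [Group Γ] [TopologicalSpace Γ] {F : Type} [Field F]

open Classical in
/-- A monomial whose weights are all equal to `i` is a Tate class of codimension `i`. -/
lemma isTateClass_monomial {n i : ℕ} [DecidableEq (Emb E × Fin n)] (ρ : CMGaloisRep Φ Γ F)
    (v : Fin (2 * i) → Emb E × Fin n)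
    (hw : ∀ τ : AbsGal, (Finset.univ.filter (fun k => galEmb τ (v k).1 ∈ Φ)).card = i) :
    ρ.IsTateClass n i (exteriorPower.ιMulti F (2 * i) (fun k => Pi.single (v k) (1 : F))) := by
  classical
  let m : Emb E → ℤ := fun φ => ((Finset.univ.filter (fun k => (v k).1 = φ)).card : ℤ)
  obtain ⟨U, hU⟩ := (ρ.weights m i).mpr (by
    intro τ
    have h1 : ∑ φ : Emb E, Set.indicator {φ : Emb E | galEmb τ φ ∈ Φ} m φ
        = ∑ φ ∈ Finset.univ.filter (fun φ : Emb E => galEmb τ φ ∈ Φ), m φ := by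
      rw [Finset.sum_filter]
      apply Finset.sum_congr rfl
      intro φ _
      by_cases h : galEmb τ φ ∈ Φ
      · rw [Set.indicator_of_mem (by exact h), if_pos h]
      · rw [Set.indicator_of_notMem (by exact h), if_neg h]
    rw [h1]
    have h2 := hw τ
    have h3 : (Finset.univ.filter (fun k => galEmb τ (v k).1 ∈ Φ)).card
        = ∑ φ ∈ Finset.univ.filter (fun φ : Emb E => galEmb τ φ ∈ Φ),
          (Finset.univ.filter (fun k => (v k).1 = φ)).card := by
      rw [Finset.card_eq_sum_card_fiberwise (f := fun k => (v k).1)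
        (t := Finset.univ.filter (fun φ : Emb E => galEmb τ φ ∈ Φ))]
      · apply Finset.sum_congr rfl
        intro φ hφ
        congr 1
        ext k
        simp only [Finset.mem_filter, Finset.mem_univ, true_and]
        constructor
        · rintro ⟨_, h⟩; exact h
        · intro h
          rw [h]
          exact ⟨(Finset.mem_filter.mp hφ).2, rfl⟩
      · intro k hk
        simp only [Finset.coe_filter, Finset.mem_univ, true_and] at hk ⊢
        exact hk
    rw [h3] at h2
    simp only [m]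
    exact_mod_cast h2)
  refine ⟨U, fun γ hγ => ?_⟩
  have h1 := hU γ hγ
  have h2 : ∏ k, ρ.ψ (v k).1 γ = ρ.χ γ ^ i := by
    rw [← zpow_natCast, ← h1]
    rw [← Finset.prod_fiberwise_of_maps_to (s := Finset.univ) (t := Finset.univ)
      (g := fun k => (v k).1) (fun _ _ => Finset.mem_univ _)]
    apply Finset.prod_congr rfl
    intro φ _
    have h4 : ∏ k ∈ Finset.univ.filter (fun k => (v k).1 = φ), ρ.ψ (v k).1 γ
        = ∏ k ∈ Finset.univ.filter (fun k => (v k).1 = φ), ρ.ψ φ γ := by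
      apply Finset.prod_congr rfl
      intro k hk
      rw [(Finset.mem_filter.mp hk).2]
    rw [h4, Finset.prod_const]
    simp only [m, zpow_natCast]
  rw [exteriorPower.map_apply_ιMulti]
  have h4 : (⇑(ρ.onH1 n γ) ∘ fun k => (Pi.single (v k) (1 : F) : H1 E n F))
      = fun k : Fin (2 * i) => (fun k => ((ρ.ψ (v k).1 γ)⁻¹ : Fˣ).val) k
        • (fun k => (Pi.single (v k) (1 : F) : H1 E n F)) k := by
    funext k
    exact onH1_single ρ γ (v k)
  rw [h4, AlternatingMap.map_smul_univ, smul_smul]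
  have h5 : (ρ.χ γ : F) ^ i * ∏ k : Fin (2 * i), ((ρ.ψ (v k).1 γ)⁻¹ : Fˣ).val = 1 := by
    have h6 : ∏ k : Fin (2 * i), ((ρ.ψ (v k).1 γ)⁻¹ : Fˣ).val
        = ((∏ k, ρ.ψ (v k).1 γ)⁻¹ : Fˣ).val := by
      rw [← Finset.prod_inv_distrib, Units.coe_prod]
    rw [h6, h2, ← Units.val_pow_eq_pow_val, ← Units.val_mul, mul_inv_cancel]
    rfl
  rw [h5, one_smul]

/-- The coefficients of a Tate class: if the coefficient at a monomial is nonzero, all weights of
the monomial equal `i`. -/
lemma coe_eq_sum_monomials {n i : ℕ} [DecidableEq (Emb E × Fin n)] (ρ : CMGaloisRep Φ Γ F)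
    (x : ⋀[F]^(2 * i) (H1 E n F)) (hx : ρ.IsTateClass n i x)
    (A : Subalgebra F (ExteriorAlgebra F (H1 E n F)))
    (hA : ∀ l : List (Emb E × Fin n), l.Nodup → l.length = 2 * i →
      (∀ τ : AbsGal, ∑ φ : Emb E, Set.indicator {φ : Emb E | galEmb τ φ ∈ Φ}
        (multFun l.toFinset) φ = i) → mono F l ∈ A) :
    (x : ExteriorAlgebra F (H1 E n F)) ∈ A := by
  classical
  obtain ⟨U, hU⟩ := hx
  let lo : LinearOrder (Emb E × Fin n) := linearOrderOfSTO WellOrderingRel
  let b : Basis (Emb E × Fin n) F (H1 E n F) := Pi.basisFun F (Emb E × Fin n)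
  let B := b.exteriorPower (2 * i)
  have hmap : ∀ (γ : Γ) (s : Set.powersetCard (Emb E × Fin n) (2 * i)),
      exteriorPower.map (2 * i) (ρ.onH1 n γ) (B s)
        = (∏ p ∈ s.1, ((ρ.ψ p.1 γ)⁻¹ : Fˣ).val) • B s := by
    intro γ s
    simp only [B, exteriorPower.basis_apply]
    rw [exteriorPower.map_apply_ιMulti_family]
    have h1 : (⇑(ρ.onH1 n γ) ∘ ⇑b) = fun p => ((ρ.ψ p.1 γ)⁻¹ : Fˣ).val • b p := by
      funext p
      simp only [Function.comp_apply, b, Pi.basisFun_apply]
      exact onH1_single ρ γ p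
    rw [h1]
    simp only [exteriorPower.ιMulti_family]
    have h2 : ((fun p => ((ρ.ψ p.1 γ)⁻¹ : Fˣ).val • b p) ∘
        ⇑(Set.powersetCard.ofFinEmbEquiv.symm s))
        = fun k => (fun k => ((ρ.ψ (Set.powersetCard.ofFinEmbEquiv.symm s k).1 γ)⁻¹ : Fˣ).val) k
          • (⇑b ∘ ⇑(Set.powersetCard.ofFinEmbEquiv.symm s)) k := rfl
    rw [h2, AlternatingMap.map_smul_univ]
    congr 1
    have h3 : s.1 = Finset.univ.map (Set.powersetCard.ofFinEmbEquiv.symm s).toEmbedding := by
      ext p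
      simp only [Finset.mem_map, Finset.mem_univ, true_and]
      exact (Set.powersetCard.mem_range_ofFinEmbEquiv_symm_iff_mem s p).symm
    rw [h3, Finset.prod_map]
    rfl
  have hcoef : ∀ s : Set.powersetCard (Emb E × Fin n) (2 * i), B.repr x s ≠ 0 →
      ∀ γ ∈ U, ∏ φ : Emb E, ρ.ψ φ γ ^ multFun s.1 φ = ρ.χ γ ^ (i : ℤ) := by
    intro s hs γ hγ
    have h1 := hU γ hγ
    have h2 : B.repr (((ρ.χ γ : F) ^ i) • exteriorPower.map (2 * i) (ρ.onH1 n γ) x) s
        = ((ρ.χ γ : F) ^ i) * ((∏ p ∈ s.1, ((ρ.ψ p.1 γ)⁻¹ : Fˣ).val) * B.repr x s) := by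
      rw [map_smul, Finsupp.smul_apply, smul_eq_mul]
      congr 1
      have h3 : exteriorPower.map (2 * i) (ρ.onH1 n γ) x
          = ∑ t, B.repr x t • (∏ p ∈ t.1, ((ρ.ψ p.1 γ)⁻¹ : Fˣ).val) • B t := by
        conv_lhs => rw [← B.sum_repr x]
        rw [map_sum]
        apply Finset.sum_congr rfl
        intro t _
        rw [map_smul, hmap]
      rw [h3, map_sum, Finsupp.finsetSum_apply]
      rw [Finset.sum_eq_single s]
      · simp only [map_smul, Basis.repr_self, Finsupp.smul_apply, smul_eq_mul,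
          Finsupp.single_eq_same, mul_one]
        ring
      · intro t _ hts
        simp only [map_smul, Basis.repr_self, Finsupp.smul_apply, smul_eq_mul]
        rw [Finsupp.single_eq_of_ne (Ne.symm hts)]
        simp
      · intro h; exact absurd (Finset.mem_univ s) h
    rw [h1] at h2
    have h4 : ((ρ.χ γ : F) ^ i) * (∏ p ∈ s.1, ((ρ.ψ p.1 γ)⁻¹ : Fˣ).val) = 1 := by
      have h5 : (((ρ.χ γ : F) ^ i) * (∏ p ∈ s.1, ((ρ.ψ p.1 γ)⁻¹ : Fˣ).val)) * B.repr x s
          = 1 * B.repr x s := by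
        rw [mul_assoc, ← h2, one_mul]
      exact mul_right_cancel₀ hs h5
    have h6 : (∏ p ∈ s.1, ((ρ.ψ p.1 γ)⁻¹ : Fˣ).val) = ((∏ p ∈ s.1, ρ.ψ p.1 γ)⁻¹ : Fˣ).val := by
      rw [← Finset.prod_inv_distrib, Units.coe_prod]
    rw [h6, prod_psi_eq] at h4
    have h7 : (ρ.χ γ) ^ i * (∏ φ : Emb E, ρ.ψ φ γ ^ multFun s.1 φ)⁻¹ = 1 := by
      apply Units.ext
      rw [Units.val_mul, Units.val_pow_eq_pow_val, h4]
      rfl
    rw [zpow_natCast]
    exact (mul_inv_eq_one.mp h7).symm
  have hxsum : (x : ExteriorAlgebra F (H1 E n F))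
      = ∑ s, B.repr x s • ((B s : ⋀[F]^(2 * i) (H1 E n F)) : ExteriorAlgebra F (H1 E n F)) := by
    conv_lhs => rw [← B.sum_repr x]
    rw [Submodule.coe_sum]
    rfl
  rw [hxsum]
  apply Subalgebra.sum_mem
  intro s _
  by_cases hs : B.repr x s = 0
  · rw [hs, zero_smul]
    exact Subalgebra.zero_mem _
  · apply Subalgebra.smul_mem
    let l : List (Emb E × Fin n) :=
      List.ofFn (fun k : Fin (2 * i) => Set.powersetCard.ofFinEmbEquiv.symm s k)
    have hBs : ((B s : ⋀[F]^(2 * i) (H1 E n F)) : ExteriorAlgebra F (H1 E n F)) = mono F l := by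
      simp only [B, exteriorPower.basis_apply]
      rw [exteriorPower.ιMulti_family_apply_coe]
      simp only [ExteriorAlgebra.ιMulti_family, ExteriorAlgebra.ιMulti_apply, mono, l,
        List.map_ofFn]
      congr 2
      funext k
      simp only [Function.comp_apply, ev, b, Pi.basisFun_apply]
    rw [hBs]
    have hlnodup : l.Nodup := by
      rw [List.nodup_ofFn]
      exact (Set.powersetCard.ofFinEmbEquiv.symm s).injective
    have hltoFinset : l.toFinset = s.1 := by
      ext p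
      rw [List.mem_toFinset, List.mem_ofFn]
      exact Set.powersetCard.mem_range_ofFinEmbEquiv_symm_iff_mem s p
    apply hA l hlnodup
    · simp only [l, List.length_ofFn]
    · rw [hltoFinset]
      exact (ρ.weights (multFun s.1) i).mp ⟨U, hcoef s hs⟩

end Pool.Agent.Lib.MP_640417_ag
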