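import Pool.Agent.Lib.MP_640417_ag.IntRelation
import Pool.Agent.Lib.MP_640417_ag.Monomial

/-!
# Relations of primitive CM types give exotic Tate classes

The converse of `exists_relation`: if `Φ` is a CM type such that no two embeddings lie in the same
translates of `Φ` (the type is primitive), then a nonzero odd relation between the translates
of the sign vector of `Φ` gives an exotic Tate class on a power, for every Galois
representation of CM type `(E, Φ)`.
-/

namespace Pool.Agent.Lib.MP_640417_ag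

open NumberField Module

variable {E : Type} [Field E] [NumberField E] [IsCMField E] {Φ : Set (Emb E)}
  {Γ : Type} [Group Γ] [TopologicalSpace Γ] {F : Type} [Field F]

omit [IsCMField E] in
/-- The set of pairs in which `φ` occurs `m φ` times. -/
lemma multFun_filter {n : ℕ} (m : Emb E → ℕ) (hm : ∀ φ, m φ ≤ n) (φ : Emb E) :
    multFun (Finset.univ.filter (fun p : Emb E × Fin n => (p.2 : ℕ) < m p.1)) φ = m φ := by
  classical
  have h2 : ((Finset.univ.filter (fun a : Fin n => (a : ℕ) < m φ)).map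
      ⟨fun a => (φ, a), fun a b hab => (Prod.ext_iff.mp hab).2⟩ :
      Finset (Emb E × Fin n)).card = m φ := by
    rw [Finset.card_map, Fin.card_filter_val_lt]
    exact min_eq_right (hm φ)
  simp only [multFun]
  congr 1
  refine Eq.trans (congrArg Finset.card ?_) h2
  ext ⟨ψ, a⟩
  simp only [Finset.mem_filter, Finset.mem_univ, true_and, Finset.mem_map,
    Function.Embedding.coeFn_mk, Prod.mk.injEq]
  constructor
  · rintro ⟨h1, rfl⟩
    exact ⟨a, h1, rfl, rfl⟩
  · rintro ⟨b, h1, rfl, rfl⟩
    exact ⟨h1, rfl⟩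

omit [IsCMField E] in
lemma sum_mult {n : ℕ} (s : Finset (Emb E × Fin n)) (f : Emb E → ℤ) :
    ∑ p ∈ s, f p.1 = ∑ φ : Emb E, multFun s φ * f φ := by
  classical
  rw [← Finset.sum_fiberwise_of_maps_to (s := s) (t := Finset.univ) (g := fun p => p.1)
    (fun _ _ => Finset.mem_univ _)]
  apply Finset.sum_congr rfl
  intro φ _
  have : ∑ p ∈ s.filter (fun p => p.1 = φ), f p.1 = ∑ p ∈ s.filter (fun p => p.1 = φ), f φ := by
    apply Finset.sum_congr rfl
    intro p hp
    rw [(Finset.mem_filter.mp hp).2]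
  rw [this, Finset.sum_const, nsmul_eq_mul]
  simp only [multFun]

omit [IsCMField E] in
lemma map_scale_mono {n : ℕ} [DecidableEq (Emb E × Fin n)] (c : Emb E × Fin n → F)
    (l : List (Emb E × Fin n)) :
    ExteriorAlgebra.map (LinearMap.pi fun p => c p • LinearMap.proj p :
      H1 E n F →ₗ[F] H1 E n F) (mono F l) = (l.map c).prod • mono F l := by
  induction l with
  | nil => simp [mono]
  | cons p t ih =>
    have e1 : mono F (p :: t) = ev F p * mono F t := by simp [mono]
    rw [e1, map_mul, ih, List.map_cons, List.prod_cons]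
    have e2 : ExteriorAlgebra.map (LinearMap.pi fun p => c p • LinearMap.proj p :
      H1 E n F →ₗ[F] H1 E n F) (ev F p) = c p • ev F p := by
      simp only [ev]
      rw [ExteriorAlgebra.map_apply_ι, ← map_smul]
      congr 1
      funext q
      simp only [LinearMap.pi_apply, LinearMap.smul_apply, LinearMap.proj_apply,
        Pi.smul_apply, smul_eq_mul]
      by_cases h : q = p
      · subst h; rfl
      · simp [Pi.single_eq_of_ne h]
    rw [e2, smul_mul_smul_comm]

/-- **Relations give exotic classes.** -/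
theorem exists_exotic_of_relation [CharZero F] (hΦ : IsCMType Φ)
    (hprim : ∀ φ ψ : Emb E, (∀ τ : AbsGal, galEmb τ φ ∈ Φ ↔ galEmb τ ψ ∈ Φ) → φ = ψ)
    {v : Emb E → ℤ} (hv : v ∈ relLattice Φ) (hv0 : v ≠ 0) (ρ : CMGaloisRep Φ Γ F) :
    ∃ (n i : ℕ) (x : ExteriorAlgebra F (H1 E n F)), ExoticTateClass (ρ.onH1 n) ρ.χ i x := by
  classical
  obtain ⟨hodd, hrel⟩ := (mem_relLattice v).mp hv
  let m : Emb E → ℕ := fun φ => (v φ).toNat
  let n : ℕ := ∑ φ, m φ
  have hmn : ∀ φ, m φ ≤ n := fun φ => Finset.single_le_sum (f := m) (fun _ _ => Nat.zero_le _)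
    (Finset.mem_univ φ)
  let s : Finset (Emb E × Fin n) :=
    Finset.univ.filter (fun p : Emb E × Fin n => (p.2 : ℕ) < m p.1)
  have hmult : ∀ φ, multFun s φ = m φ := multFun_filter m hmn
  have hvm : ∀ φ, v φ = m φ - m (conjEmb φ) := by
    intro φ
    simp only [m, hodd φ]
    omega
  -- weights
  have hsgn : ∀ τ : AbsGal, ∑ φ, (m φ : ℤ) * sgnZ Φ (galEmb τ φ) = 0 := by
    intro τ
    have h1 := hrel τ
    have h2 : ∑ φ, v φ * sgnZ Φ (galEmb τ φ) = 2 * ∑ φ, (m φ : ℤ) * sgnZ Φ (galEmb τ φ) := by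
      have e1 : ∑ φ, v φ * sgnZ Φ (galEmb τ φ) = ∑ φ, (m φ : ℤ) * sgnZ Φ (galEmb τ φ)
          - ∑ φ, (m (conjEmb φ) : ℤ) * sgnZ Φ (galEmb τ φ) := by
        rw [← Finset.sum_sub_distrib]
        apply Finset.sum_congr rfl
        intro φ _
        rw [← sub_mul, ← hvm φ]
      have e2 : ∑ φ, (m (conjEmb φ) : ℤ) * sgnZ Φ (galEmb τ φ)
          = ∑ φ, (m φ : ℤ) * sgnZ Φ (galEmb τ (conjEmb φ)) := by
        have hbij : Function.Bijective (conjEmb (E := E)) :=
          Function.Involutive.bijective conjEmb_conjEmb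
        apply Fintype.sum_bijective conjEmb hbij
        intro φ
        rw [conjEmb_conjEmb]
      have e3 : ∑ φ, (m φ : ℤ) * sgnZ Φ (galEmb τ (conjEmb φ))
          = - ∑ φ, (m φ : ℤ) * sgnZ Φ (galEmb τ φ) := by
        rw [← Finset.sum_neg_distrib]
        apply Finset.sum_congr rfl
        intro φ _
        rw [galEmb_conjEmb, sgnZ_conj hΦ]; ring
      rw [e1, e2, e3]; ring
    rw [h2] at h1
    omega
  have hhalf : ∀ τ : AbsGal, (s.card : ℤ)
      = 2 * ((s.filter (fun p => galEmb τ p.1 ∈ Φ)).card : ℤ) := by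
    intro τ
    have h1 := sum_mult s (fun φ => sgnZ Φ (galEmb τ φ))
    have h2 : ∑ φ, multFun s φ * sgnZ Φ (galEmb τ φ) = 0 := by
      rw [← hsgn τ]
      apply Finset.sum_congr rfl
      intro φ _
      rw [hmult]
    rw [h2] at h1
    have h3 : ∑ p ∈ s, sgnZ Φ (galEmb τ p.1)
        = 2 * ((s.filter (fun p => galEmb τ p.1 ∈ Φ)).card : ℤ) - s.card := by
      have e1 : ∀ p ∈ s, sgnZ Φ (galEmb τ p.1) = 2 * (if galEmb τ p.1 ∈ Φ then (1 : ℤ) else 0) - 1 := by
        intro p _
        by_cases h : galEmb τ p.1 ∈ Φ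
        · simp [sgnZ, h]
        · simp [sgnZ, h]
      rw [Finset.sum_congr rfl e1, Finset.sum_sub_distrib, ← Finset.mul_sum, Finset.sum_boole]
      simp
    rw [h3] at h1
    linarith
  obtain ⟨i, hi⟩ : ∃ i : ℕ, i = (s.filter (fun p => galEmb (1 : AbsGal) p.1 ∈ Φ)).card := ⟨_, rfl⟩
  have hcard : s.card = 2 * i := by
    have := hhalf 1
    rw [← hi] at this
    exact_mod_cast this
  have hw : ∀ τ : AbsGal, (s.filter (fun p => galEmb τ p.1 ∈ Φ)).card = i := by
    intro τ
    have h1 := hhalf τ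
    have h2 := hhalf 1
    rw [h2, ← hi] at h1
    have : (i : ℤ) = ((s.filter (fun p => galEmb τ p.1 ∈ Φ)).card : ℤ) := by linarith
    exact_mod_cast this.symm
  let lo : LinearOrder (Emb E × Fin n) := linearOrderOfSTO WellOrderingRel
  let b : Basis (Emb E × Fin n) F (H1 E n F) := Pi.basisFun F (Emb E × Fin n)
  let B := b.exteriorPower (2 * i)
  let S : Set.powersetCard (Emb E × Fin n) (2 * i) := ⟨s, Set.powersetCard.mem_iff.mpr hcard⟩
  let w : Fin (2 * i) → Emb E × Fin n := fun k => Set.powersetCard.ofFinEmbEquiv.symm S k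
  have hwinj : Function.Injective w := (Set.powersetCard.ofFinEmbEquiv.symm S).injective
  have hsw : s = Finset.univ.map ⟨w, hwinj⟩ := by
    ext p
    simp only [Finset.mem_map, Finset.mem_univ, true_and]
    exact (Set.powersetCard.mem_range_ofFinEmbEquiv_symm_iff_mem S p).symm
  have hTate : ρ.IsTateClass n i
      (exteriorPower.ιMulti F (2 * i) (fun k => Pi.single (w k) (1 : F))) := by
    apply isTateClass_monomial
    intro τ
    have h1 := hw τ
    rw [hsw, Finset.filter_map, Finset.card_map] at h1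
    exact h1
  have hBS : (exteriorPower.ιMulti F (2 * i) (fun k => Pi.single (w k) (1 : F))) = B S := by
    simp only [B, exteriorPower.basis_apply]
    rw [exteriorPower.ιMulti_family]
    congr 1
    funext k
    simp only [b, Function.comp_apply, Pi.basisFun_apply, w]
  have hne : (exteriorPower.ιMulti F (2 * i) (fun k => (Pi.single (w k) (1 : F) : H1 E n F)))
      ≠ 0 := by
    rw [hBS]
    exact B.ne_zero S
  refine ⟨n, i, (exteriorPower.ιMulti F (2 * i) (fun k => Pi.single (w k) (1 : F)) :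
    ⋀[F]^(2 * i) (H1 E n F)), (exoticTateClass_iff ρ n i _).mpr ⟨_, rfl, hTate, ?_⟩⟩
  -- the scaling
  let c : Emb E × Fin n → F := fun p => (2 : F) ^ (v p.1)
  let sc : H1 E n F →ₗ[F] H1 E n F := LinearMap.pi fun p => c p • LinearMap.proj p
  let A : Subalgebra F (ExteriorAlgebra F (H1 E n F)) :=
    AlgHom.equalizer (ExteriorAlgebra.map sc) (AlgHom.id F _)
  have hAmem : ∀ l : List (Emb E × Fin n), (l.map c).prod = 1 → mono F l ∈ A := by
    intro l hl
    rw [AlgHom.mem_equalizer]
    rw [map_scale_mono c l, hl, one_smul]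
    rfl
  have hle : ρ.divisorAlgebra n ≤ A := by
    apply Algebra.adjoin_le
    rintro y ⟨z, hz, rfl⟩
    apply coe_eq_sum_monomials ρ z hz A
    intro l hnd hlen hwt
    apply hAmem
    match l, hlen, hnd, hwt with
    | [p, q], _, hnd, hwt =>
      have hpq : p ≠ q := by
        intro h
        rw [h] at hnd
        simp at hnd
      have hwt' : ∀ τ : AbsGal, (if galEmb τ p.1 ∈ Φ then (1 : ℤ) else 0)
          + (if galEmb τ q.1 ∈ Φ then 1 else 0) = 1 := by
        intro τ
        have h1 := hwt τ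
        have h2 := sum_mult [p, q].toFinset (fun φ => if galEmb τ φ ∈ Φ then (1 : ℤ) else 0)
        have h3 : ∑ φ : Emb E, Set.indicator {φ : Emb E | galEmb τ φ ∈ Φ}
            (multFun [p, q].toFinset) φ = ∑ φ : Emb E, multFun [p, q].toFinset φ
              * (if galEmb τ φ ∈ Φ then (1 : ℤ) else 0) := by
          apply Finset.sum_congr rfl
          intro φ _
          by_cases h : galEmb τ φ ∈ Φ
          · rw [Set.indicator_of_mem (by exact h)]; simp [h]
          · rw [Set.indicator_of_notMem (by exact h)]; simp [h]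
        rw [h3, ← h2] at h1
        rw [show [p, q].toFinset = {p, q} by simp, Finset.sum_pair hpq] at h1
        simpa using h1
      have hq : q.1 = conjEmb p.1 := by
        apply hprim
        intro τ
        have h1 := hwt' τ
        have h2 := hΦ (galEmb τ p.1)
        rw [← galEmb_conjEmb] at h2
        by_cases h3 : galEmb τ p.1 ∈ Φ
        · have h4 := h2.mp h3
          by_cases h5 : galEmb τ q.1 ∈ Φ
          · simp [h3, h5] at h1
          · exact ⟨fun h => absurd h h5, fun h => absurd h h4⟩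
        · have h4 : galEmb τ (conjEmb p.1) ∈ Φ := by
            by_contra h
            exact h3 (h2.mpr h)
          by_cases h5 : galEmb τ q.1 ∈ Φ
          · exact ⟨fun _ => h4, fun _ => h5⟩
          · simp [h3, h5] at h1
      simp only [List.map_cons, List.map_nil, List.prod_cons, List.prod_nil, mul_one, c, hq, hodd]
      rw [← zpow_add₀ (two_ne_zero), add_neg_cancel, zpow_zero]
  intro hmem
  have hA := hle hmem
  have hmono : ((exteriorPower.ιMulti F (2 * i) (fun k => (Pi.single (w k) (1 : F) : H1 E n F)) :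
      ⋀[F]^(2 * i) (H1 E n F)) : ExteriorAlgebra F (H1 E n F)) = mono F (List.ofFn w) := by
    rw [exteriorPower.ιMulti_apply_coe, ExteriorAlgebra.ιMulti_apply, mono, List.map_ofFn]
    rfl
  rw [hmono, AlgHom.mem_equalizer] at hA
  have hA2 := map_scale_mono c (List.ofFn w)
  rw [show (ExteriorAlgebra.map sc) (mono F (List.ofFn w)) = mono F (List.ofFn w) from hA] at hA2
  have hprod : ((List.ofFn w).map c).prod = (2 : F) ^ (∑ φ, (m φ) * (m φ)) := by
    rw [List.map_ofFn, List.prod_ofFn]
    have e1 : ∏ k, (c ∘ w) k = ∏ p ∈ s, c p := by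
      rw [hsw, Finset.prod_map]
      rfl
    rw [e1]
    have e2 : ∏ p ∈ s, c p = (2 : F) ^ (∑ p ∈ s, v p.1) := by
      simp only [c]
      induction s using Finset.induction_on with
      | empty => simp
      | insert a t ha ih =>
        rw [Finset.prod_insert ha, Finset.sum_insert ha, ih, zpow_add₀ two_ne_zero]
    rw [e2, sum_mult s v]
    have e3 : ∑ φ : Emb E, multFun s φ * v φ = ((∑ φ, (m φ) * (m φ) : ℕ) : ℤ) := by
      push_cast
      apply Finset.sum_congr rfl
      intro φ _
      rw [hmult]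
      simp only [m]
      rcases le_or_gt (v φ) 0 with h | h
      · have : (v φ).toNat = 0 := Int.toNat_of_nonpos h
        rw [this]; simp
      · rw [Int.toNat_of_nonneg h.le]
    rw [e3, zpow_natCast]
  rw [hprod] at hA2
  have hNpos : ∑ φ, (m φ) * (m φ) ≠ 0 := by
    intro h0
    have h1 : ∀ φ, m φ = 0 := by
      intro φ
      have := (Finset.sum_eq_zero_iff.mp h0) φ (Finset.mem_univ φ)
      exact mul_self_eq_zero.mp this
    apply hv0
    funext φ
    rw [hvm φ, h1, h1]
    simp
  have h2N : ((2 : F) ^ (∑ φ, (m φ) * (m φ)) - 1) ≠ 0 := by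
    intro h
    have h3 : ((2 : ℕ) : F) ^ (∑ φ, (m φ) * (m φ)) = 1 := by
      have := sub_eq_zero.mp h
      exact_mod_cast this
    have h4 : (2 : ℕ) ^ (∑ φ, (m φ) * (m φ)) = 1 := by exact_mod_cast h3
    have := Nat.one_lt_two_pow hNpos
    omega
  have hzero : mono F (List.ofFn w) = 0 := by
    have h5 : ((2 : F) ^ (∑ φ, (m φ) * (m φ)) - 1) • mono F (List.ofFn w) = 0 := by
      rw [sub_smul, one_smul, ← hA2, sub_self]
    exact (smul_eq_zero.mp h5).resolve_left h2N
  rw [← hmono] at hzero
  exact hne (Subtype.ext hzero)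

end Pool.Agent.Lib.MP_640417_ag
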