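import Pool.Agent.Lib.MP_640417_ag.OddCM
import Pool.Agent.Lib.MP_640417_ag.OddImprim
import Pool.Agent.Lib.MP_640417_ag.RelExotic

/-!
# Galois CM fields of degree `2g` with `g` odd: bad sign vectors give exotic CM types
-/

namespace Pool.Agent.Lib.MP_640417_ag.OddGal

open NumberField Module

section

variable {E : Type} [Field E] [NumberField E] [IsCMField E]

/-- No two embeddings lie in the same translates of `Φ`. -/
def Primitive (Φ : Set (Emb E)) : Prop :=
  ∀ φ ψ : Emb E, (∀ τ : AbsGal, galEmb τ φ ∈ Φ ↔ galEmb τ ψ ∈ Φ) → φ = ψ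

/-- The set of embeddings attached to a sign vector on a complement of complex conjugation. -/
def typeOf (φ₀ : Emb E) {K : Subgroup (E ≃ₐ[ℚ] E)} (ε : K → ℤ) : Set (Emb E) :=
  {φ | ∃ k : K, (φ = embOf φ₀ k ∧ ε k⁻¹ = 1) ∨ (φ = embOf φ₀ (k * conjAut E) ∧ ε k⁻¹ = -1)}

variable (φ₀ : Emb E) {K : Subgroup (E ≃ₐ[ℚ] E)}

lemma mem_typeOf (hcK : ∀ k k' : K, (k : E ≃ₐ[ℚ] E) ≠ k' * conjAut E) (ε : K → ℤ) (k : K) :
    embOf φ₀ k ∈ typeOf φ₀ ε ↔ ε k⁻¹ = 1 := by
  constructor
  · rintro ⟨k', (⟨h1, h2⟩ | ⟨h1, h2⟩)⟩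
    · have h3 : k = k' := Subtype.ext (embOf_injective φ₀ h1)
      rw [h3]; exact h2
    · exact absurd (embOf_injective φ₀ h1) (hcK k k')
  · intro h
    exact ⟨k, Or.inl ⟨rfl, h⟩⟩

lemma mem_typeOf' (hcK : ∀ k k' : K, (k : E ≃ₐ[ℚ] E) ≠ k' * conjAut E) (ε : K → ℤ) (k : K) :
    embOf φ₀ (k * conjAut E) ∈ typeOf φ₀ ε ↔ ε k⁻¹ = -1 := by
  constructor
  · rintro ⟨k', (⟨h1, h2⟩ | ⟨h1, h2⟩)⟩
    · exact absurd (embOf_injective φ₀ h1).symm (hcK k' k)
    · have h3 : k = k' := Subtype.ext (mul_right_cancel (embOf_injective φ₀ h1))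
      rw [h3]; exact h2
  · intro h
    exact ⟨k, Or.inr ⟨rfl, h⟩⟩

/-- The integral function on the embeddings attached to an element of the group ring. -/
noncomputable def funOf {K : Subgroup (E ≃ₐ[ℚ] E)} (x : MonoidAlgebra ℤ K) (φ : Emb E) : ℤ := by
  classical exact if h : ∃ k : K, φ = embOf φ₀ k then x.coeff h.choose else
    if h : ∃ k : K, φ = embOf φ₀ (k * conjAut E) then - x.coeff h.choose else 0

lemma funOf_embOf (x : MonoidAlgebra ℤ K) (k : K) : funOf φ₀ x (embOf φ₀ k) = x.coeff k := by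
  classical
  have h : ∃ k' : K, embOf φ₀ (k : E ≃ₐ[ℚ] E) = embOf φ₀ k' := ⟨k, rfl⟩
  rw [funOf, dif_pos h]
  have h1 := embOf_injective φ₀ h.choose_spec
  rw [← Subtype.ext h1]

lemma funOf_embOf' (hcK : ∀ k k' : K, (k : E ≃ₐ[ℚ] E) ≠ k' * conjAut E)
    (x : MonoidAlgebra ℤ K) (k : K) :
    funOf φ₀ x (embOf φ₀ (k * conjAut E)) = - x.coeff k := by
  classical
  have h0 : ¬ ∃ k' : K, embOf φ₀ (k * conjAut E : E ≃ₐ[ℚ] E) = embOf φ₀ k' := by
    rintro ⟨k', h⟩
    exact hcK k' k (embOf_injective φ₀ h).symm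
  have h : ∃ k' : K, embOf φ₀ (k * conjAut E : E ≃ₐ[ℚ] E) = embOf φ₀ (k' * conjAut E) := ⟨k, rfl⟩
  rw [funOf, dif_neg h0, dif_pos h]
  have h1 := mul_right_cancel (embOf_injective φ₀ h.choose_spec)
  rw [← Subtype.ext h1]

end

section main

variable {E : Type} [Field E] [NumberField E] [IsCMField E] [IsGalois ℚ E]

/-- The complement of complex conjugation. -/
theorem exists_compl (g : ℕ) (hE : finrank ℚ E = 2 * g) (hodd : Odd g) :
    ∃ (K : Subgroup (E ≃ₐ[ℚ] E)) (_ : Fintype K), Fintype.card K = g ∧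
      (∀ σ : E ≃ₐ[ℚ] E, ∃ k : K, σ = k ∨ σ = k * conjAut E) ∧
      (∀ k k' : K, (k : E ≃ₐ[ℚ] E) ≠ k' * conjAut E) ∧
      ∃ q : (E ≃ₐ[ℚ] E) →* K, Function.Surjective q ∧
        q.ker = Subgroup.zpowers (conjAut E) := by
  classical
  set G := E ≃ₐ[ℚ] E with hG
  set c : G := conjAut E with hc
  have hcc : c * c = 1 := conjAut_mul_self
  have hc1 : c ≠ 1 := conjAut_ne_one
  have hcomm : ∀ σ : G, σ * c = c * σ := conjAut_comm
  have hcardG : Nat.card G = 2 * g := by rw [IsGalois.card_aut_eq_finrank, hE]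
  let N : Subgroup G := Subgroup.zpowers c
  have hordc : orderOf c = 2 := by
    apply orderOf_eq_prime
    · rw [sq]; exact hcc
    · exact hc1
  have hNcard : Nat.card N = 2 := by rw [Nat.card_zpowers, hordc]
  have hmemN : ∀ σ : G, σ ∈ N ↔ σ = 1 ∨ σ = c := by
    intro σ
    constructor
    · intro h
      obtain ⟨k, rfl⟩ := Subgroup.mem_zpowers_iff.mp h
      rcases Int.even_or_odd' k with ⟨m, rfl | rfl⟩
      · left
        rw [zpow_mul, zpow_ofNat, sq, hcc, one_zpow]
      · right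
        rw [zpow_add, zpow_mul, zpow_ofNat, sq, hcc, one_zpow, one_mul, zpow_one]
    · rintro (rfl | rfl)
      · exact one_mem N
      · exact Subgroup.mem_zpowers c
  have hNn : N.Normal := by
    refine ⟨fun n hn σ => ?_⟩
    rw [hmemN] at hn ⊢
    rcases hn with rfl | rfl
    · left; simp
    · right
      rw [hcomm, mul_assoc, mul_inv_cancel, mul_one]
  have hNind : N.index = g := by
    have h1 := N.card_mul_index
    rw [hNcard, hcardG] at h1
    omega
  obtain ⟨K, hK⟩ := Subgroup.exists_right_complement'_of_coprime (N := N)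
    (by rw [hNcard, hNind]; exact (Nat.coprime_two_left).mpr hodd)
  have hKcard : Nat.card K = g := by
    have h1 := hK.card_mul_card
    rw [hNcard, hcardG] at h1
    omega
  have : Fintype K := Fintype.ofFinite K
  refine ⟨K, this, by rw [← Nat.card_eq_fintype_card]; exact hKcard, ?_, ?_, ?_⟩
  · intro σ
    obtain ⟨⟨n, k⟩, hnk⟩ := hK.surjective σ
    simp only at hnk
    rcases (hmemN n).mp n.2 with h | h
    · exact ⟨k, Or.inl (by rw [← hnk, h, one_mul])⟩
    · exact ⟨k, Or.inr (by rw [← hnk, h, hcomm])⟩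
  · intro k k' h
    have h1 : c ∈ K := by
      have h2 : c = (k' : G)⁻¹ * k := by rw [h]; group
      rw [h2]
      exact K.mul_mem (K.inv_mem k'.2) k.2
    have h2 : c ∈ N ⊓ K := ⟨Subgroup.mem_zpowers c, h1⟩
    rw [hK.isCompl.inf_eq_bot, Subgroup.mem_bot] at h2
    exact hc1 h2
  · let e : G ⧸ N ≃* K := hK.symm.QuotientMulEquiv
    refine ⟨e.toMonoidHom.comp (QuotientGroup.mk' N),
      e.surjective.comp (QuotientGroup.mk'_surjective N), ?_⟩
    ext σ
    rw [MonoidHom.mem_ker]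
    change e (QuotientGroup.mk' N σ) = 1 ↔ σ ∈ N
    rw [MulEquiv.map_eq_one_iff, ← MonoidHom.mem_ker, QuotientGroup.ker_mk']

/-- The cubic subfields correspond to the subgroups of index 3. -/
theorem ncard_cubic_le (g : ℕ) (hE : finrank ℚ E = 2 * g) (hodd : Odd g)
    (K : Subgroup (E ≃ₐ[ℚ] E)) [Fintype K] (hcard : Fintype.card K = g)
    (hdec : ∀ σ : E ≃ₐ[ℚ] E, ∃ k : K, σ = k ∨ σ = k * conjAut E)
    (q : (E ≃ₐ[ℚ] E) →* K) (hq : Function.Surjective q)
    (hker : q.ker = Subgroup.zpowers (conjAut E)) :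
    {F : IntermediateField ℚ E | finrank ℚ F = 3}.ncard ≤
      {M : Subgroup K | M.index = 3}.ncard := by
  classical
  have hle : ∀ F : IntermediateField ℚ E, finrank ℚ F = 3 → q.ker ≤ F.fixingSubgroup := by
    intro F hF
    rw [hker, Subgroup.zpowers_le]
    set L := F.fixingSubgroup with hL
    have hidx : L.index = 3 := by
      rw [← IntermediateField.finrank_eq_fixingSubgroup_index, hF]
    have h1 := L.card_mul_index
    rw [hidx, IsGalois.card_aut_eq_finrank, hE] at h1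
    have h2 : 2 ∣ Nat.card L := by omega
    haveI : Fact (Nat.Prime 2) := ⟨Nat.prime_two⟩
    obtain ⟨ℓ, hℓ⟩ := exists_prime_orderOf_dvd_card' 2 h2
    have hℓ2 : (ℓ : E ≃ₐ[ℚ] E) * ℓ = 1 := by
      have := pow_orderOf_eq_one ℓ
      rw [hℓ, sq] at this
      exact congrArg Subtype.val this
    have hℓ1 : (ℓ : E ≃ₐ[ℚ] E) ≠ 1 := by
      intro h
      have : ℓ = 1 := Subtype.ext h
      rw [this, orderOf_one] at hℓ
      exact absurd hℓ (by norm_num)
    have hK2 : ∀ k : K, k * k = 1 → k = 1 := by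
      intro k hk
      have h3 : orderOf k ∣ 2 := orderOf_dvd_of_pow_eq_one (by rw [sq]; exact hk)
      have h4 : orderOf k ∣ g := by rw [← hcard]; exact orderOf_dvd_card
      have h5 : orderOf k ∣ 1 := by
        have h6 := Nat.dvd_gcd h3 h4
        rwa [(Nat.coprime_two_left.mpr hodd : Nat.gcd 2 g = 1)] at h6
      exact orderOf_eq_one_iff.mp (Nat.dvd_one.mp h5)
    obtain ⟨k, hk | hk⟩ := hdec ℓ
    · exfalso
      apply hℓ1
      rw [hk]
      have h3 : k * k = 1 := by
        apply Subtype.ext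
        rw [Subgroup.coe_mul, ← hk, hℓ2]
        rfl
      rw [hK2 k h3]
      rfl
    · have h3 : k * k = 1 := by
        apply Subtype.ext
        rw [Subgroup.coe_mul]
        have h4 : ((k : E ≃ₐ[ℚ] E) * conjAut E) * ((k : E ≃ₐ[ℚ] E) * conjAut E)
            = (k : E ≃ₐ[ℚ] E) * k := by
          rw [mul_assoc, ← mul_assoc (conjAut E), ← conjAut_comm, mul_assoc (k : E ≃ₐ[ℚ] E),
            conjAut_mul_self, mul_one]
        rw [← h4, ← hk, hℓ2]
        rfl
      rw [hK2 k h3] at hk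
      rw [Subgroup.coe_one, one_mul] at hk
      rw [← hk]
      exact ℓ.2
  refine Set.ncard_le_ncard_of_injOn (fun F => F.fixingSubgroup.map q) ?_ ?_ (Set.toFinite _)
  · intro F hF
    rw [Set.mem_ofPred_eq] at hF ⊢
    rw [Subgroup.index_map_eq _ hq (hle F hF),
      ← IntermediateField.finrank_eq_fixingSubgroup_index, hF]
  · intro F hF F' hF' h
    have h1 := congrArg (Subgroup.comap q) h
    simp only [Subgroup.comap_map_eq, sup_eq_left.mpr (hle F hF), sup_eq_left.mpr (hle F' hF')]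
      at h1
    have h2 := congrArg IntermediateField.fixedField h1
    simp only [IsGalois.fixedField_fixingSubgroup] at h2
    exact h2

/-- **Dictionary.** Bad sign vectors without stabiliser give primitive CM types with a
relation. -/
theorem exists_complement_lower (g : ℕ) (hE : finrank ℚ E = 2 * g) (hodd : Odd g) :
    ∃ (K : Subgroup (E ≃ₐ[ℚ] E)) (_ : Fintype K), Fintype.card K = g ∧
      {ε : K → ℤ | ε ∈ signs K ∧ Bad ε ∧ ¬ ∃ h : K, h ≠ 1 ∧ ∀ x, ε (h * x) = ε x}.ncard ≤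
        {Φ : Set (Emb E) | IsCMType Φ ∧ Primitive Φ ∧ ∃ v ∈ relLattice Φ, v ≠ 0}.ncard ∧
      {F : IntermediateField ℚ E | finrank ℚ F = 3}.ncard ≤
        {M : Subgroup K | M.index = 3}.ncard := by
  classical
  obtain ⟨K, iK, hcard, hdec, hcK, q, hq, hker⟩ := exists_compl g hE hodd
  refine ⟨K, iK, hcard, ?_, ncard_cubic_le g hE hodd K hcard hdec q hq hker⟩
  obtain ⟨φ₀⟩ : Nonempty (Emb E) := by
    rw [← Fintype.card_pos_iff, card_emb]
    exact finrank_pos
  have hbij := embOf_bijective φ₀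
  have hs : ∀ ε : K → ℤ, ε ∈ signs K → ∀ k : K, sgnZ (typeOf φ₀ ε) (embOf φ₀ k) = ε k⁻¹ := by
    intro ε hε k
    rw [sgnZ]
    rcases mem_signs.1 hε k⁻¹ with h | h
    · rw [if_pos ((mem_typeOf φ₀ hcK ε k).mpr h), h]
    · rw [if_neg (fun h' => by
        have := (mem_typeOf φ₀ hcK ε k).mp h'
        omega), h]
  have hCM : ∀ ε : K → ℤ, ε ∈ signs K → IsCMType (typeOf φ₀ ε) := by
    intro ε hε φ
    obtain ⟨σ, rfl⟩ := hbij.2 φ
    obtain ⟨k, hk | hk⟩ := hdec σ
    · rw [hk, conjEmb_embOf, mem_typeOf φ₀ hcK, mem_typeOf' φ₀ hcK]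
      rcases mem_signs.1 hε k⁻¹ with h | h <;> simp [h]
    · rw [hk, conjEmb_embOf, mul_assoc, conjAut_mul_self, mul_one, mem_typeOf φ₀ hcK,
        mem_typeOf' φ₀ hcK]
      rcases mem_signs.1 hε k⁻¹ with h | h <;> simp [h]
  refine Set.ncard_le_ncard_of_injOn (fun ε => typeOf φ₀ ε) ?_ ?_ (Set.toFinite _)
  · rintro ε ⟨hε, ⟨x, hx0, hx⟩, hprim⟩
    have hΦ := hCM ε hε
    refine ⟨hΦ, ?_, funOf φ₀ x, ?_, ?_⟩
    · -- primitive
      intro φ ψ hφψ
      obtain ⟨σ, rfl⟩ := hbij.2 φ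
      obtain ⟨σ', rfl⟩ := hbij.2 ψ
      have h1 : ∀ ρ : E ≃ₐ[ℚ] E, embOf φ₀ (ρ * σ) ∈ typeOf φ₀ ε ↔
          embOf φ₀ (ρ * σ') ∈ typeOf φ₀ ε := by
        intro ρ
        obtain ⟨τ, hτ⟩ := exists_tau φ₀ ρ
        rw [← hτ σ, ← hτ σ']
        exact hφψ τ
      have h2 : ∀ ρ : E ≃ₐ[ℚ] E, embOf φ₀ ρ ∈ typeOf φ₀ ε ↔
          embOf φ₀ (ρ * (σ⁻¹ * σ')) ∈ typeOf φ₀ ε := by
        intro ρ
        have h3 := h1 (ρ * σ⁻¹)
        rw [inv_mul_cancel_right, mul_assoc] at h3
        exact h3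
      obtain ⟨k₀, hk₀ | hk₀⟩ := hdec (σ⁻¹ * σ')
      · have h3 : ∀ x : K, ε (k₀⁻¹ * x) = ε x := by
          intro x
          have h4 := h2 (x⁻¹ : K)
          rw [hk₀, ← Subgroup.coe_mul, mem_typeOf φ₀ hcK, mem_typeOf φ₀ hcK, inv_inv,
            mul_inv_rev, inv_inv] at h4
          rcases mem_signs.1 hε x with h5 | h5
          · rw [h5, h4.mp h5]
          · rcases mem_signs.1 hε (k₀⁻¹ * x) with h6 | h6
            · rw [h4.mpr h6] at h5
              omega
            · rw [h5, h6]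
        have h4 : k₀⁻¹ = 1 := by
          by_contra h5
          exact hprim ⟨k₀⁻¹, h5, h3⟩
        rw [inv_eq_one] at h4
        rw [h4, Subgroup.coe_one, inv_mul_eq_one] at hk₀
        rw [hk₀]
      · exfalso
        have h3 : ∀ x : K, ε (k₀⁻¹ * x) = - ε x := by
          intro x
          have h4 := h2 (x⁻¹ : K)
          rw [hk₀, ← mul_assoc, ← Subgroup.coe_mul, mem_typeOf φ₀ hcK, mem_typeOf' φ₀ hcK,
            inv_inv, mul_inv_rev, inv_inv] at h4
          rcases mem_signs.1 hε x with h5 | h5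
          · rw [h5, h4.mp h5]
          · rcases mem_signs.1 hε (k₀⁻¹ * x) with h6 | h6
            · rw [h5, h6]; norm_num
            · rw [h4.mpr h6] at h5
              omega
        have h4 : ∀ n : ℕ, ε ((k₀⁻¹) ^ n * 1) = (-1) ^ n * ε 1 := by
          intro n
          induction n with
          | zero => simp
          | succ n ih =>
            rw [pow_succ', mul_assoc, h3, ih, pow_succ]
            ring
        have h5 := h4 g
        rw [show (k₀⁻¹) ^ g = 1 by rw [← hcard]; exact pow_card_eq_one, hodd.neg_one_pow,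
          mul_one] at h5
        rcases mem_signs.1 hε 1 with h6 | h6 <;> rw [h6] at h5 <;> omega
    · -- relation
      rw [mem_relLattice]
      constructor
      · intro φ
        obtain ⟨σ, rfl⟩ := hbij.2 φ
        obtain ⟨k, hk | hk⟩ := hdec σ
        · rw [hk, conjEmb_embOf, funOf_embOf' φ₀ hcK, funOf_embOf]
        · rw [hk, conjEmb_embOf, mul_assoc, conjAut_mul_self, mul_one, funOf_embOf' φ₀ hcK,
            funOf_embOf, neg_neg]
      · intro τ
        obtain ⟨ρ, hρ⟩ := hbij.2 (galEmb τ φ₀)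
        have hτ : ∀ σ : E ≃ₐ[ℚ] E, galEmb τ (embOf φ₀ σ) = embOf φ₀ (ρ * σ) := by
          intro σ
          apply RingHom.ext
          intro y
          exact (congrArg (fun f : Emb E => f (σ y)) hρ).symm
        have h2 : ∑ φ : Emb E, funOf φ₀ x φ * sgnZ (typeOf φ₀ ε) (galEmb τ φ)
            = ∑ σ : E ≃ₐ[ℚ] E, funOf φ₀ x (embOf φ₀ σ) *
              sgnZ (typeOf φ₀ ε) (galEmb τ (embOf φ₀ σ)) :=
          (Function.Bijective.sum_comp hbij
            (fun φ => funOf φ₀ x φ * sgnZ (typeOf φ₀ ε) (galEmb τ φ))).symm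
        have h3 : ∑ σ : E ≃ₐ[ℚ] E, funOf φ₀ x (embOf φ₀ σ) *
              sgnZ (typeOf φ₀ ε) (galEmb τ (embOf φ₀ σ))
            = ∑ y : K × Fin 2, funOf φ₀ x (embOf φ₀ (y.1 * conjAut E ^ (y.2 : ℕ)))
              * sgnZ (typeOf φ₀ ε) (galEmb τ (embOf φ₀ (y.1 * conjAut E ^ (y.2 : ℕ)))) := by
          symm
          apply Fintype.sum_bijective (fun y : K × Fin 2 =>
            ((y.1 : E ≃ₐ[ℚ] E) * conjAut E ^ (y.2 : ℕ)))
          · constructor
            · rintro ⟨k, i⟩ ⟨k', i'⟩ h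
              simp only at h
              fin_cases i <;> fin_cases i'
              · simp at h
                rw [h]
              · simp at h
                exact absurd h (hcK k k')
              · simp at h
                exact absurd h.symm (hcK k' k)
              · simp at h
                rw [h]
            · intro σ
              obtain ⟨k, hk⟩ := hdec σ
              rcases hk with rfl | rfl
              · exact ⟨(k, 0), by simp⟩
              · exact ⟨(k, 1), by simp⟩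
          · intro y
            rfl
        have h4 : ∑ y : K × Fin 2, funOf φ₀ x (embOf φ₀ (y.1 * conjAut E ^ (y.2 : ℕ)))
              * sgnZ (typeOf φ₀ ε) (galEmb τ (embOf φ₀ (y.1 * conjAut E ^ (y.2 : ℕ))))
            = 2 * ∑ k : K, x.coeff k * sgnZ (typeOf φ₀ ε) (embOf φ₀ (ρ * k)) := by
          rw [Fintype.sum_prod_type, Finset.mul_sum]
          apply Finset.sum_congr rfl
          intro k _
          rw [Fin.sum_univ_two]
          simp only [Fin.val_zero, pow_zero, mul_one, Fin.val_one, pow_one]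
          rw [funOf_embOf, funOf_embOf' φ₀ hcK, ← conjEmb_embOf, galEmb_conjEmb, sgnZ_conj hΦ, hτ]
          ring
        rw [h2, h3, h4]
        have hcoef : ∀ k' : K, ∑ k : K, x.coeff k * ε (k⁻¹ * k'⁻¹) = 0 := by
          intro k'
          have h5 := congrArg (fun z : MonoidAlgebra ℤ K => z.coeff k'⁻¹) hx
          simp only [MonoidAlgebra.coeff_mul_apply_left, MonoidAlgebra.coeff_zero,
            Finsupp.coe_zero, Pi.zero_apply] at h5
          rw [Finsupp.sum_fintype _ _ (by simp)] at h5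
          simpa [elt] using h5
        have h6 : ∑ k : K, x.coeff k * sgnZ (typeOf φ₀ ε) (embOf φ₀ (ρ * k)) = 0 := by
          obtain ⟨k', hk' | hk'⟩ := hdec ρ
          · rw [← hcoef k']
            apply Finset.sum_congr rfl
            intro k _
            rw [hk', ← Subgroup.coe_mul, hs ε hε, mul_inv_rev]
          · rw [← neg_eq_zero, ← Finset.sum_neg_distrib, ← hcoef k']
            apply Finset.sum_congr rfl
            intro k _
            rw [hk', mul_assoc, ← conjAut_comm, ← mul_assoc, ← Subgroup.coe_mul,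
              ← conjEmb_embOf, sgnZ_conj hΦ, hs ε hε, mul_inv_rev]
            ring
        rw [h6, mul_zero]
    · -- nonzero
      intro h0
      apply hx0
      ext k
      have h1 := congrFun h0 (embOf φ₀ (k : E ≃ₐ[ℚ] E))
      rw [funOf_embOf] at h1
      simpa using h1
  · rintro ε ⟨hε, -⟩ ε' ⟨hε', -⟩ heq
    simp only at heq
    funext k
    have h1 := hs ε hε k⁻¹
    have h2 := hs ε' hε' k⁻¹
    rw [heq, inv_inv] at h1
    rw [inv_inv] at h2
    rw [← h1, h2]

end main

end Pool.Agent.Lib.MP_640417_ag.OddGal
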