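import Pool.Agent.Lib.MP_640417_ag.EmbFacts

/-!
# Embeddings of CM fields: restriction to the real subfield, and sign functions
-/

namespace Pool.Agent.Lib.MP_640417_ag

open NumberField Module

lemma exists_preimage_of_fixed {E L : Type} [Field E] [Field L] [CharZero E] [CharZero L]
    [IsAlgClosed L] (halg : Algebra.IsAlgebraic ℚ L) (φ : E →+* L) (x : L)
    (hx : ∀ τ : L ≃+* L, (∀ y : E, τ (φ y) = φ y) → τ x = x) : ∃ y : E, φ y = x := by
  let _ : Algebra E L := φ.toAlgebra
  have st : IsScalarTower ℚ E L := IsScalarTower.rat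
  have alg : Algebra.IsAlgebraic E L := Algebra.IsAlgebraic.tower_top (K := ℚ) E
  have clo : IsAlgClosure E L := ⟨inferInstance, alg⟩
  have gal : IsGalois E L := by
    have : Normal E L := IsAlgClosure.normal E L
    exact ⟨⟩
  have h := (InfiniteGalois.mem_range_algebraMap_iff_fixed (k := E) (K := L) x).mpr (by
    intro τ
    exact hx τ.toRingEquiv (fun y => τ.commutes y))
  obtain ⟨y, hy⟩ := h
  exact ⟨y, hy⟩

variable {E : Type} [Field E] [NumberField E]

lemma exists_preimage_of_fixed_emb (φ : Emb E) (x : AlgebraicClosure ℚ)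
    (hx : ∀ τ : AbsGal, galEmb τ φ = φ → τ x = x) : ∃ y : E, φ y = x := by
  apply exists_preimage_of_fixed (isAlgebraic_rat_of_alg _) φ x
  intro τ hτ
  apply hx τ
  apply RingHom.ext
  intro y
  exact hτ y

lemma exists_rat_of_fixed (x : AlgebraicClosure ℚ) (hx : ∀ τ : AbsGal, τ x = x) :
    ∃ q : ℚ, (q : AlgebraicClosure ℚ) = x := by
  obtain ⟨q, hq⟩ := exists_preimage_of_fixed (E := ℚ) (isAlgebraic_rat_of_alg _)
    (Rat.castHom (AlgebraicClosure ℚ)) x (fun τ _ => hx τ)
  exact ⟨q, hq⟩

variable [IsCMField E]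

/-- Two embeddings which agree on the maximal real subfield are equal or complex conjugate. -/
lemma eq_or_eq_conj_of_restrict (φ ψ : Emb E)
    (h : ∀ x ∈ maximalRealSubfield E, φ x = ψ x) : ψ = φ ∨ ψ = conjEmb φ := by
  let cc := IsCMField.complexConj E
  have hcc : ∀ x, cc (cc x) = x := fun x => IsCMField.complexConj_apply_apply E x
  have hmem : ∀ x, cc x = x → x ∈ maximalRealSubfield E := fun x hx =>
    (IsCMField.complexConj_eq_self_iff E x).mp hx
  -- an element with `cc α = - α`
  obtain ⟨z, hz⟩ : ∃ z, cc z ≠ z := by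
    by_contra hcon
    push Not at hcon
    apply IsCMField.complexConj_ne_one E
    apply AlgEquiv.ext
    exact hcon
  set α := z - cc z with hα
  have hα0 : α ≠ 0 := by
    rw [hα, sub_ne_zero]; exact hz.symm
  have hccα : cc α = - α := by
    rw [hα, map_sub, hcc]; ring
  have hα2 : φ (α * α) = ψ (α * α) := by
    apply h
    apply hmem
    rw [map_mul, hccα]; ring
  have hsign : ψ α = φ α ∨ ψ α = - φ α := by
    rw [map_mul, map_mul] at hα2
    exact mul_self_eq_mul_self_iff.mp hα2.symm
  have hdecomp : ∀ x : E, x = (x + cc x) / 2 + ((x - cc x) / (2 * α)) * α := by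
    intro x
    have h2 : (2 : E) ≠ 0 := two_ne_zero
    field_simp
    ring
  have hr1 : ∀ x : E, (x + cc x) / 2 ∈ maximalRealSubfield E := by
    intro x
    apply hmem
    rw [map_div₀, map_add, hcc, map_ofNat, add_comm]
  have hr2 : ∀ x : E, (x - cc x) / (2 * α) ∈ maximalRealSubfield E := by
    intro x
    apply hmem
    rw [map_div₀, map_sub, hcc, map_mul, map_ofNat, hccα]
    rw [show (2 : E) * -α = -(2 * α) by ring, div_neg, ← neg_div]
    congr 1
    ring
  have hccx : ∀ x : E, cc x = (x + cc x) / 2 - ((x - cc x) / (2 * α)) * α := by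
    intro x
    have h2 : (2 : E) ≠ 0 := two_ne_zero
    field_simp
    ring
  rcases hsign with hs | hs
  · left
    apply RingHom.ext
    intro x
    rw [hdecomp x, map_add, map_mul, map_add, map_mul, ← h _ (hr1 x), ← h _ (hr2 x), hs]
  · right
    apply RingHom.ext
    intro x
    rw [conjEmb_apply]
    change ψ x = φ (cc x)
    rw [hccx x, map_sub, map_mul, h _ (hr1 x), h _ (hr2 x)]
    conv_lhs => rw [hdecomp x]
    rw [map_add, map_mul, hs]
    ring

/-- A sign function on the embeddings which is odd under complex conjugation and preserved up to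
sign by the Galois group comes from an imaginary quadratic subfield `ℚ(y)`, `y² = q < 0`. -/
lemma exists_imaginary_quadratic (s : Emb E → ℝ) (hs : ∀ φ, s φ = 1 ∨ s φ = -1)
    (hodd : ∀ φ, s (conjEmb φ) = - s φ)
    (hgal : ∀ τ : AbsGal, (∀ φ, s (galEmb τ φ) = s φ) ∨ (∀ φ, s (galEmb τ φ) = - s φ)) :
    ∃ (y : E) (q : ℚ) (r : AlgebraicClosure ℚ), q < 0 ∧ y ^ 2 = (q : E) ∧
      r ^ 2 = (q : AlgebraicClosure ℚ) ∧ ∀ φ : Emb E, s φ = 1 ↔ φ y = r := by
  classical
  -- integer version of the sign function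
  let t : Emb E → ℤ := fun φ => if s φ = 1 then 1 else -1
  have ht1 : ∀ φ, t φ = 1 ∨ t φ = -1 := by
    intro φ; simp only [t]; split_ifs <;> simp
  have hst : ∀ φ, s φ = (t φ : ℝ) := by
    intro φ
    rcases hs φ with h | h <;> simp only [t, h] <;> norm_num
  have htodd : ∀ φ, t (conjEmb φ) = - t φ := by
    intro φ
    have := hodd φ
    rw [hst, hst] at this
    exact_mod_cast this
  have htgal : ∀ τ : AbsGal, (∀ φ, t (galEmb τ φ) = t φ) ∨ (∀ φ, t (galEmb τ φ) = - t φ) := by
    intro τ
    rcases hgal τ with h | h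
    · left; intro φ
      have := h φ
      rw [hst, hst] at this
      exact_mod_cast this
    · right; intro φ
      have := h φ
      rw [hst, hst] at this
      exact_mod_cast this
  -- `θ`
  obtain ⟨x, hx⟩ : ∃ x : E, ∑ φ : Emb E, (t φ : AlgebraicClosure ℚ) * φ x ≠ 0 := by
    by_contra hcon
    push Not at hcon
    have hli := linearIndependent_monoidHom E (AlgebraicClosure ℚ)
    obtain ⟨φ₀⟩ : Nonempty (Emb E) := by
      have h1 : 0 < Fintype.card (Emb E) := by
        rw [card_emb]; exact Module.finrank_pos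
      exact Fintype.card_pos_iff.mp h1
    let inc : Emb E → (E →* AlgebraicClosure ℚ) := fun φ => (φ : E →* AlgebraicClosure ℚ)
    have hinc : Function.Injective inc := by
      intro a b hab
      apply RingHom.ext
      intro y
      exact congrArg (fun f : E →* AlgebraicClosure ℚ => f y) hab
    have hli2 := hli.comp inc hinc
    have h3 : ∀ φ, (t φ : AlgebraicClosure ℚ) = 0 := by
      apply Fintype.linearIndependent_iff.mp hli2
      funext y
      have := hcon y
      simp only [Finset.sum_apply, Pi.smul_apply, smul_eq_mul, Pi.zero_apply]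
      exact this
    have h4 := h3 φ₀
    rcases ht1 φ₀ with h | h <;> rw [h] at h4 <;> simp at h4
  set θ : AlgebraicClosure ℚ := ∑ φ : Emb E, (t φ : AlgebraicClosure ℚ) * φ x with hθ
  have hτθ : ∀ τ : AbsGal, τ θ = ∑ φ : Emb E, (t φ : AlgebraicClosure ℚ) * galEmb τ φ x := by
    intro τ
    rw [hθ, map_sum]
    apply Finset.sum_congr rfl
    intro φ _
    rw [map_mul, map_intCast]
    rfl
  have hbij : ∀ τ : AbsGal, Function.Bijective (fun φ : Emb E => galEmb τ φ) := by
    intro τ
    let _ := galAction E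
    exact MulAction.bijective τ
  have hτθ1 : ∀ τ : AbsGal, (∀ φ, t (galEmb τ φ) = t φ) → τ θ = θ := by
    intro τ h
    rw [hτθ, hθ]
    apply Fintype.sum_bijective (fun φ => galEmb τ φ) (hbij τ)
    intro φ
    rw [h φ]
  have hτθ2 : ∀ τ : AbsGal, (∀ φ, t (galEmb τ φ) = - t φ) → τ θ = - θ := by
    intro τ h
    rw [hτθ, hθ, ← Finset.sum_neg_distrib]
    apply Fintype.sum_bijective (fun φ => galEmb τ φ) (hbij τ)
    intro φ
    rw [h φ]
    push_cast
    ring
  -- a base embedding with sign one
  obtain ⟨φ₀, hφ₀⟩ : ∃ φ₀, t φ₀ = 1 := by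
    obtain ⟨φ₁⟩ : Nonempty (Emb E) := by
      have h1 : 0 < Fintype.card (Emb E) := by
        rw [card_emb]; exact Module.finrank_pos
      exact Fintype.card_pos_iff.mp h1
    rcases ht1 φ₁ with h | h
    · exact ⟨φ₁, h⟩
    · refine ⟨conjEmb φ₁, ?_⟩
      rw [htodd, h]; norm_num
  obtain ⟨y, hy⟩ : ∃ y : E, φ₀ y = θ := by
    apply exists_preimage_of_fixed_emb
    intro τ hτ
    rcases htgal τ with h | h
    · exact hτθ1 τ h
    · exfalso
      have := h φ₀
      rw [hτ] at this
      rw [hφ₀] at this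
      norm_num at this
  have hφy : ∀ φ : Emb E, φ y = (t φ : AlgebraicClosure ℚ) * θ := by
    intro φ
    obtain ⟨τ, rfl⟩ := exists_galEmb_eq φ₀ φ
    rw [galEmb_apply, hy]
    rcases htgal τ with h | h
    · rw [h φ₀, hφ₀, hτθ1 τ h]; push_cast; ring
    · rw [h φ₀, hφ₀, hτθ2 τ h]; push_cast; ring
  obtain ⟨q, hq⟩ : ∃ q : ℚ, (q : AlgebraicClosure ℚ) = θ ^ 2 := by
    apply exists_rat_of_fixed
    intro τ
    rw [map_pow]
    rcases htgal τ with h | h
    · rw [hτθ1 τ h]
    · rw [hτθ2 τ h]; ring
  have hy2 : y ^ 2 = (q : E) := by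
    apply φ₀.injective
    rw [map_pow, hy, map_ratCast, hq]
  have hybar : IsCMField.complexConj E y = - y := by
    apply φ₀.injective
    have h1 := hφy (conjEmb φ₀)
    rw [conjEmb_apply, htodd, hφ₀] at h1
    rw [h1, map_neg, hy]; push_cast; ring
  have hy0 : y ≠ 0 := by
    intro h0
    apply hx
    rw [← hy, h0, map_zero]
  have hqneg : q < 0 := by
    -- embed into `ℂ`
    obtain ⟨f⟩ : Nonempty (E →+* ℂ) := inferInstance
    have h1 : (f y) ^ 2 = (q : ℂ) := by
      rw [← map_pow, hy2, map_ratCast]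
    have h2 : (starRingEnd ℂ) (f y) = - f y := by
      rw [← IsCMField.complexEmbedding_complexConj E f y, hybar, map_neg]
    have hre : (f y).re = 0 := by
      have h3 := congrArg Complex.re h2
      simp only [Complex.conj_re, Complex.neg_re] at h3
      linarith
    have him : (f y).im ≠ 0 := by
      intro h3
      apply hy0
      apply f.injective
      rw [map_zero]
      exact Complex.ext hre h3
    have h4 : ((q : ℝ) : ℂ) = ((-(f y).im ^ 2 : ℝ) : ℂ) := by
      have h5 : f y = ((f y).im : ℂ) * Complex.I := by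
        apply Complex.ext <;> simp [hre]
      have h6 : ((q : ℝ) : ℂ) = (q : ℂ) := by push_cast; rfl
      rw [h6, ← h1, h5]
      push_cast
      rw [mul_pow, Complex.I_sq]
      simp
    have h7 : (q : ℝ) = -(f y).im ^ 2 := by exact_mod_cast h4
    have h8 : (q : ℝ) < 0 := by
      rw [h7]
      have := sq_pos_of_ne_zero him
      linarith
    exact_mod_cast h8
  refine ⟨y, q, θ, hqneg, hy2, hq.symm, fun φ => ?_⟩
  rw [hφy φ, hst φ]
  have hθ0 : θ ≠ 0 := hx
  rcases ht1 φ with h | h
  · rw [h]; simp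
  · rw [h]
    constructor
    · intro h1; norm_num at h1
    · intro h1
      exfalso
      have h2 : (2 : AlgebraicClosure ℚ) * θ = 0 := by
        push_cast at h1
        linear_combination -h1
      rcases mul_eq_zero.mp h2 with h3 | h3
      · exact two_ne_zero h3
      · exact hθ0 h3

end Pool.Agent.Lib.MP_640417_ag
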