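import Pool.Agent.Lib.MP_640417_ag.IntRelation

/-!
# Complex conjugation as an element of the Galois group
-/

namespace Pool.Agent.Lib.MP_640417_ag

open NumberField Module

lemma normal_rat_of_alg (a : Algebra ℚ (AlgebraicClosure ℚ)) :
    Normal ℚ (AlgebraicClosure ℚ) := by
  have h : a = AlgebraicClosure.instAlgebra ℚ := Subsingleton.elim _ _
  subst h
  have h1 : Algebra.IsAlgebraic ℚ (AlgebraicClosure ℚ) := AlgebraicClosure.isAlgebraic ℚ
  rw [normal_iff]
  intro x
  exact ⟨(Algebra.IsAlgebraic.isAlgebraic x).isIntegral, IsAlgClosed.splits _⟩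

/-- Some element of the absolute Galois group acts on all embeddings of all CM fields as complex
conjugation. -/
lemma exists_galEmb_conj (E : Type) [Field E] [NumberField E] [IsCMField E] :
    ∃ τ : AbsGal, ∀ φ : Emb E, galEmb τ φ = conjEmb φ := by
  have hI : Algebra.IsAlgebraic ℚ (AlgebraicClosure ℚ) := isAlgebraic_rat_of_alg _
  let ι : AlgebraicClosure ℚ →+* ℂ := (IsAlgClosed.lift (M := ℂ) (R := ℚ)
    (S := AlgebraicClosure ℚ)).toRingHom
  let _ : Algebra (AlgebraicClosure ℚ) ℂ := ι.toAlgebra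
  have st : IsScalarTower ℚ (AlgebraicClosure ℚ) ℂ := IsScalarTower.rat
  have hn : Normal ℚ (AlgebraicClosure ℚ) := normal_rat_of_alg _
  let χ : ℂ ≃ₐ[ℚ] ℂ := AlgEquiv.ofRingEquiv (f := starRingAut) (by intro x; simp)
  let τ := AlgEquiv.restrictNormal χ (AlgebraicClosure ℚ)
  have hτ : ∀ x, ι (τ x) = starRingEnd ℂ (ι x) := fun x => AlgEquiv.restrictNormal_commutes χ _ x
  refine ⟨τ.toRingEquiv, fun φ => ?_⟩
  apply RingHom.ext
  intro x
  apply ι.injective
  change ι (τ (φ x)) = ι (φ (IsCMField.complexConj E x))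
  rw [hτ]
  exact (IsCMField.complexEmbedding_complexConj E (ι.comp φ) x).symm

end Pool.Agent.Lib.MP_640417_ag
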