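import Pool.Agent.Lib.MP_640417_ag.CountPoly

/-!
# Averages of powers of `|cos|` over the residues modulo `p`
-/

namespace Pool.Agent.Lib.MP_640417_ag

open Finset

/-- `|cos (2 π t / p)|` for a residue `t` modulo `p`. -/
noncomputable def cosAbs (p : ℕ) (t : ZMod p) : ℝ := |Real.cos (2 * Real.pi * (t.val : ℝ) / p)|

/-- The mean of `|cos (2 π t / p)| ^ a` over the residues `t` modulo `p`. -/
noncomputable def cosAvg (p : ℕ) [NeZero p] (a : ℝ) : ℝ := (∑ t : ZMod p, cosAbs p t ^ a) / p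

section basic

variable {p : ℕ}

lemma cosAbs_nonneg (t : ZMod p) : 0 ≤ cosAbs p t := abs_nonneg _

lemma cosAbs_le_one (t : ZMod p) : cosAbs p t ≤ 1 := Real.abs_cos_le_one _

lemma cosAbs_zero [NeZero p] : cosAbs p 0 = 1 := by
  simp [cosAbs]

variable [NeZero p]

lemma exp_two_pi_val_neg (t : ZMod p) :
    ZMod.stdAddChar (-t) = (ZMod.stdAddChar t)⁻¹ := AddChar.map_neg_eq_inv _ _

/-- The real part of the standard character. -/
lemma stdAddChar_re (t : ZMod p) :
    ((ZMod.stdAddChar t : ℂ)) = Complex.exp (((2 * Real.pi * (t.val : ℝ) / p : ℝ) : ℂ) * Complex.I) := by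
  rw [ZMod.stdAddChar_apply, ZMod.toCircle_apply]
  congr 1
  push_cast
  ring

lemma stdAddChar_add_neg (t : ZMod p) :
    (ZMod.stdAddChar t : ℂ) + ZMod.stdAddChar (-t)
      = ((2 * Real.cos (2 * Real.pi * (t.val : ℝ) / p) : ℝ) : ℂ) := by
  rw [exp_two_pi_val_neg, stdAddChar_re, ← Complex.exp_neg]
  push_cast
  rw [Complex.two_cos]
  congr 2
  ring

lemma cosAbs_eq_norm (t : ZMod p) :
    2 * cosAbs p t = ‖(ZMod.stdAddChar t : ℂ) + ZMod.stdAddChar (-t)‖ := by
  rw [stdAddChar_add_neg, Complex.norm_real, Real.norm_eq_abs, abs_mul, cosAbs]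
  norm_num

lemma cosAbs_neg (t : ZMod p) : cosAbs p (-t) = cosAbs p t := by
  have h1 := cosAbs_eq_norm t
  have h2 := cosAbs_eq_norm (-t)
  rw [neg_neg, add_comm] at h2
  linarith

lemma cosAvg_nonneg (a : ℝ) : 0 ≤ cosAvg p a := by
  unfold cosAvg
  apply div_nonneg _ (Nat.cast_nonneg _)
  exact Finset.sum_nonneg (fun t _ => Real.rpow_nonneg (cosAbs_nonneg t) a)

lemma cosAvg_le_one (a : ℝ) (ha : 0 ≤ a) : cosAvg p a ≤ 1 := by
  unfold cosAvg
  have hp : (0 : ℝ) < p := by exact_mod_cast Nat.pos_of_ne_zero (NeZero.ne p)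
  rw [div_le_one hp]
  calc ∑ t : ZMod p, cosAbs p t ^ a ≤ ∑ _t : ZMod p, (1 : ℝ) :=
        Finset.sum_le_sum (fun t _ => Real.rpow_le_one (cosAbs_nonneg t) (cosAbs_le_one t) ha)
    _ = p := by simp [ZMod.card]

lemma cosAvg_anti {a b : ℝ} (ha : 0 ≤ a) (hab : a ≤ b) : cosAvg p b ≤ cosAvg p a := by
  unfold cosAvg
  have hp : (0 : ℝ) < p := by exact_mod_cast Nat.pos_of_ne_zero (NeZero.ne p)
  apply div_le_div_of_nonneg_right _ hp.le
  exact Finset.sum_le_sum (fun t _ =>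
    Real.rpow_le_rpow_of_exponent_ge' (cosAbs_nonneg t) (cosAbs_le_one t) ha hab)

end basic

section bounds

open Real

variable {p : ℕ} [hp : Fact p.Prime]

/-- Away from the residue `0` the cosine is bounded away from `1`. -/
lemma cosAbs_le_exp (hp2 : p ≠ 2) (t : ZMod p) (ht : t ≠ 0) :
    cosAbs p t ≤ Real.exp (-(2 / (p : ℝ) ^ 2)) := by
  have hp0 : (0 : ℝ) < p := by exact_mod_cast hp.out.pos
  set u : ℝ := 2 * (t.val : ℝ) / p with hu
  set n : ℤ := round u with hn
  have h1 : |u - n| ≤ 1 / 2 := abs_sub_round u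
  have h2 : 1 / (p : ℝ) ≤ |u - n| := by
    have h3 : (2 * (t.val : ℤ) - n * p) ≠ 0 := by
      intro h
      have h4 : (p : ℤ) ∣ 2 * (t.val : ℤ) := ⟨n, by linarith⟩
      have h5 : p ∣ 2 * t.val := by exact_mod_cast h4
      rcases (Nat.Prime.dvd_mul hp.out).mp h5 with h6 | h6
      · exact hp2 ((Nat.prime_dvd_prime_iff_eq hp.out Nat.prime_two).mp h6)
      · have h7 : t.val = 0 := Nat.eq_zero_of_dvd_of_lt h6 (ZMod.val_lt t)
        exact ht ((ZMod.val_eq_zero t).mp h7)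
    have h4 : (1 : ℝ) ≤ |(2 * (t.val : ℝ) - n * p)| := by
      have h5 : (1 : ℤ) ≤ |(2 * (t.val : ℤ) - n * p)| := Int.one_le_abs h3
      have h6 : ((|(2 * (t.val : ℤ) - n * p)| : ℤ) : ℝ) = |(2 * (t.val : ℝ) - n * p)| := by
        push_cast
        rfl
      rw [← h6]
      exact_mod_cast h5
    have h5 : |2 * (t.val : ℝ) - n * p| = |u - n| * p := by
      rw [← abs_of_pos hp0, ← abs_mul, abs_of_pos hp0]
      congr 1
      rw [hu]
      field_simp
    rw [h5] at h4
    rw [div_le_iff₀ hp0]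
    exact h4
  have h3 : cosAbs p t = |Real.cos (Real.pi * |u - n|)| := by
    unfold cosAbs
    have h4 : 2 * Real.pi * (t.val : ℝ) / p = Real.pi * (u - n) + n * Real.pi := by
      rw [hu]
      field_simp
      ring
    rw [h4]
    have h5 : |Real.cos (Real.pi * (u - n) + n * Real.pi)| = |Real.cos (Real.pi * (u - n))| := by
      rw [Real.cos_add_int_mul_pi, abs_mul, abs_zpow]
      simp
    rw [h5]
    rcases abs_cases (u - n) with ⟨h6, -⟩ | ⟨h6, -⟩
    · rw [h6]
    · rw [h6, mul_neg, Real.cos_neg]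
  have hpi := Real.pi_pos
  set y : ℝ := Real.pi * |u - n| with hy
  have hy0 : 0 ≤ y := by positivity
  have hy1 : y ≤ Real.pi / 2 := by
    rw [hy]
    nlinarith
  have hy2 : Real.pi / p ≤ y := by
    rw [hy, div_eq_mul_one_div]
    exact mul_le_mul_of_nonneg_left h2 hpi.le
  have hcos : 0 ≤ Real.cos y := Real.cos_nonneg_of_mem_Icc ⟨by linarith, hy1⟩
  rw [h3, abs_of_nonneg hcos]
  have h4 : Real.cos y ≤ 1 - 2 / Real.pi ^ 2 * y ^ 2 := by
    apply Real.cos_le_one_sub_mul_cos_sq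
    rw [abs_of_nonneg hy0]
    linarith
  have h5 : 2 / (p : ℝ) ^ 2 ≤ 2 / Real.pi ^ 2 * y ^ 2 := by
    have h6 : (Real.pi / p) ^ 2 ≤ y ^ 2 := pow_le_pow_left₀ (by positivity) hy2 2
    calc 2 / (p : ℝ) ^ 2 = 2 / Real.pi ^ 2 * (Real.pi / p) ^ 2 := by field_simp
      _ ≤ _ := mul_le_mul_of_nonneg_left h6 (by positivity)
  have h6 := Real.add_one_le_exp (-(2 / (p : ℝ) ^ 2))
  linarith

/-- The mean is close to `1 / p` when `a` is large compared with `p ^ 2`. -/
lemma mul_cosAvg_le (hp2 : p ≠ 2) (a : ℝ) (ha : 0 ≤ a) :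
    p * cosAvg p a ≤ 1 + p * Real.exp (-(2 * a / (p : ℝ) ^ 2)) := by
  have hp0 : (0 : ℝ) < p := by exact_mod_cast hp.out.pos
  unfold cosAvg
  rw [mul_div_cancel₀ _ hp0.ne', ← Finset.add_sum_erase _ _ (Finset.mem_univ (0 : ZMod p)),
    cosAbs_zero, Real.one_rpow]
  gcongr
  calc ∑ t ∈ Finset.univ.erase (0 : ZMod p), cosAbs p t ^ a
      ≤ ∑ _t ∈ Finset.univ.erase (0 : ZMod p), Real.exp (-(2 * a / (p : ℝ) ^ 2)) := by
        apply Finset.sum_le_sum
        intro t ht
        have h1 := cosAbs_le_exp hp2 t (Finset.ne_of_mem_erase ht)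
        calc cosAbs p t ^ a ≤ (Real.exp (-(2 / (p : ℝ) ^ 2))) ^ a :=
              Real.rpow_le_rpow (cosAbs_nonneg t) h1 ha
          _ = _ := by
              rw [← Real.exp_mul]
              congr 1
              ring
    _ ≤ _ := by
        rw [Finset.sum_const, nsmul_eq_mul]
        apply mul_le_mul_of_nonneg_right _ (Real.exp_pos _).le
        have h2 : (Finset.univ.erase (0 : ZMod p)).card ≤ p := by
          calc _ ≤ (Finset.univ : Finset (ZMod p)).card := Finset.card_le_card (Finset.erase_subset _ _)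
            _ = p := by rw [Finset.card_univ, ZMod.card]
        exact_mod_cast h2

/-- Even powers: the mean counts the sums of `2 m` signs equal to zero. -/
lemma cosAvg_two_mul (hp2 : p ≠ 2) (m : ℕ) (hm : m < p) :
    cosAvg p ((2 * m : ℕ) : ℝ) = (m.centralBinom : ℝ) / 4 ^ m := by
  have hp0 : (0 : ℝ) < p := by exact_mod_cast hp.out.pos
  have hpC : (p : ℂ) ≠ 0 := by exact_mod_cast hp.out.ne_zero
  have h1 : ∀ t : ZMod p, (((4 : ℝ) ^ m * cosAbs p t ^ (2 * m) : ℝ) : ℂ)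
      = ∑ j ∈ range (2 * m + 1), ((2 * m).choose j : ℂ) *
        ZMod.stdAddChar (t * ((2 * j : ℕ) - (2 * m : ℕ) : ZMod p)) := by
    intro t
    have h2 : ((4 : ℝ) ^ m * cosAbs p t ^ (2 * m) : ℝ)
        = (2 * Real.cos (2 * Real.pi * (t.val : ℝ) / p)) ^ (2 * m) := by
      unfold cosAbs
      rw [mul_pow, pow_mul, sq_abs, ← pow_mul]
      congr 1
      rw [pow_mul]
      norm_num
    rw [h2, Complex.ofReal_pow, ← stdAddChar_add_neg, add_pow]
    apply Finset.sum_congr rfl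
    intro j hj
    rw [Finset.mem_range] at hj
    rw [mul_comm, ← AddChar.map_nsmul_eq_pow, ← AddChar.map_nsmul_eq_pow, ← AddChar.map_add_eq_mul]
    congr 2
    have h3 : j ≤ 2 * m := by omega
    rw [nsmul_eq_mul, nsmul_eq_mul, Nat.cast_sub h3]
    push_cast
    ring
  have h2 : (((4 : ℝ) ^ m * ∑ t : ZMod p, cosAbs p t ^ (2 * m) : ℝ) : ℂ)
      = (m.centralBinom : ℂ) * p := by
    rw [Finset.mul_sum]
    rw [Complex.ofReal_sum]
    rw [Finset.sum_congr rfl (fun t _ => h1 t), Finset.sum_comm]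
    have h3 : ∀ j ∈ range (2 * m + 1), ∑ t : ZMod p, ((2 * m).choose j : ℂ) *
        ZMod.stdAddChar (t * ((2 * j : ℕ) - (2 * m : ℕ) : ZMod p))
        = if j = m then (m.centralBinom : ℂ) * p else 0 := by
      intro j hj
      rw [Finset.mem_range] at hj
      rw [← Finset.mul_sum, AddChar.sum_mulShift _ (ZMod.isPrimitive_stdAddChar p)]
      have h4 : (((2 * j : ℕ) - (2 * m : ℕ) : ZMod p) = 0) ↔ j = m := by
        constructor
        · intro h
          rw [sub_eq_zero] at h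
          have h5 : (2 : ZMod p) * ((j : ZMod p) - m) = 0 := by
            push_cast at h
            rw [mul_sub, h, sub_self]
          have h6 : (2 : ZMod p) ≠ 0 := by
            intro h7
            have h8 : ((2 : ℕ) : ZMod p) = 0 := by exact_mod_cast h7
            rw [ZMod.natCast_eq_zero_iff] at h8
            exact hp2 ((Nat.prime_dvd_prime_iff_eq hp.out Nat.prime_two).mp h8)
          have h7 := (mul_eq_zero.mp h5).resolve_left h6
          rw [sub_eq_zero] at h7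
          have h8 : (j : ℤ) ≡ m [ZMOD p] := by
            rw [← ZMod.intCast_eq_intCast_iff]
            exact_mod_cast h7
          have h9 : (p : ℤ) ∣ (m : ℤ) - j := (Int.modEq_iff_dvd.mp h8)
          have h10 : (m : ℤ) - j = 0 := by
            apply Int.eq_zero_of_abs_lt_dvd h9
            rw [abs_lt]
            constructor <;> omega
          omega
        · rintro rfl
          simp
      simp only [h4]
      split_ifs with h5
      · rw [h5, ZMod.card, Nat.centralBinom]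
      · simp
    rw [Finset.sum_congr rfl h3, Finset.sum_ite_eq']
    rw [if_pos (Finset.mem_range.mpr (by omega))]
  have h3 : (4 : ℝ) ^ m * ∑ t : ZMod p, cosAbs p t ^ (2 * m) = (m.centralBinom : ℝ) * p := by
    exact_mod_cast h2
  unfold cosAvg
  simp_rw [Real.rpow_natCast]
  rw [div_eq_div_iff hp0.ne' (by positivity)]
  linarith

lemma cosAvg_le_inv_sqrt (hp2 : p ≠ 2) (m : ℕ) (hm : m < p) (a : ℝ) (ha : ((2 * m : ℕ) : ℝ) ≤ a) :
    cosAvg p a ≤ 1 / Real.sqrt (2 * m + 1) := by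
  have h1 := cosAvg_anti (p := p) (a := ((2 * m : ℕ) : ℝ)) (b := a) (Nat.cast_nonneg _) ha
  rw [cosAvg_two_mul hp2 m hm] at h1
  refine h1.trans ?_
  have h2 := centralBinom_sq_le m
  have h3 : (m.centralBinom : ℝ) ^ 2 * (2 * m + 1) ≤ (4 ^ m) ^ 2 := by
    have : ((m.centralBinom ^ 2 * (2 * m + 1) : ℕ) : ℝ) ≤ ((16 ^ m : ℕ) : ℝ) := by
      exact_mod_cast (by nlinarith [h2] : m.centralBinom ^ 2 * (2 * m + 1) ≤ 16 ^ m)
    push_cast at this
    calc (m.centralBinom : ℝ) ^ 2 * (2 * m + 1) ≤ 16 ^ m := this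
      _ = (4 ^ m) ^ 2 := by rw [← pow_mul, mul_comm m 2, pow_mul]; norm_num
  have hpos : (0 : ℝ) < 2 * m + 1 := by positivity
  rw [div_le_div_iff₀ (by positivity) (Real.sqrt_pos.mpr hpos), one_mul]
  have h4 : (m.centralBinom : ℝ) * Real.sqrt (2 * m + 1) = Real.sqrt ((m.centralBinom : ℝ) ^ 2 * (2 * m + 1)) := by
    rw [Real.sqrt_mul (by positivity), Real.sqrt_sq (by positivity)]
  rw [h4]
  calc Real.sqrt ((m.centralBinom : ℝ) ^ 2 * (2 * m + 1)) ≤ Real.sqrt ((4 ^ m) ^ 2) :=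
        Real.sqrt_le_sqrt h3
    _ = 4 ^ m := Real.sqrt_sq (by positivity)

end bounds

end Pool.Agent.Lib.MP_640417_ag
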