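import Mathlib

/-!
# Relations under a permutation that is transitive on conjugate pairs
-/

namespace Pool.Agent.Lib.MP_640417_ag

open Polynomial

section orbit

variable {S : Type*} [Fintype S] [DecidableEq S]

/-- If the iterates of `F` on `x₀` meet every pair `{s, c s}`, then the first `g` of them form a
transversal and `F^g x₀ ∈ {x₀, c x₀}`. -/
lemma orbit_transversal (c F : S → S) (hc : ∀ s, c (c s) = s) (hne : ∀ s, c s ≠ s)
    (hF : Function.Injective F) (hcomm : ∀ s, F (c s) = c (F s)) (x₀ : S) (g : ℕ)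
    (hg : Fintype.card S = 2 * g) (htr : ∀ s, ∃ n : ℕ, s = F^[n] x₀ ∨ s = c (F^[n] x₀)) :
    (F^[g] x₀ = x₀ ∨ F^[g] x₀ = c x₀) ∧
      (∀ i < g, ∀ j < g, F^[i] x₀ = F^[j] x₀ ∨ F^[i] x₀ = c (F^[j] x₀) → i = j) ∧
      (∀ s, ∃ j < g, s = F^[j] x₀ ∨ s = c (F^[j] x₀)) := by
  classical
  have hcF : ∀ (n : ℕ) (s : S), F^[n] (c s) = c (F^[n] s) := by
    intro n
    induction n with
    | zero => intro s; rfl
    | succ n ih => intro s; rw [Function.iterate_succ_apply, hcomm, ih,
        Function.iterate_succ_apply]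
  -- some positive iterate comes back to the pair
  have hex : ∃ p : ℕ, 0 < p ∧ (F^[p] x₀ = x₀ ∨ F^[p] x₀ = c x₀) := by
    obtain ⟨i, j, hij, h⟩ := Finite.exists_ne_map_eq_of_infinite (fun n : ℕ => F^[n] x₀)
    rcases lt_or_gt_of_ne hij with h1 | h1
    · refine ⟨j - i, by omega, Or.inl ?_⟩
      have h2 : F^[i] (F^[j - i] x₀) = F^[i] x₀ := by
        rw [← Function.iterate_add_apply, h]
        congr 2; omega
      exact hF.iterate i h2
    · refine ⟨i - j, by omega, Or.inl ?_⟩
      have h2 : F^[j] (F^[i - j] x₀) = F^[j] x₀ := by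
        rw [← Function.iterate_add_apply, ← h]
        congr 2; omega
      exact hF.iterate j h2
  let p := Nat.find hex
  obtain ⟨hp0, hp⟩ := Nat.find_spec hex
  have hmin : ∀ q, 0 < q → q < p → ¬ (F^[q] x₀ = x₀ ∨ F^[q] x₀ = c x₀) := by
    intro q hq0 hqp h
    exact Nat.find_min hex hqp ⟨hq0, h⟩
  have hdist : ∀ i < p, ∀ j < p, F^[i] x₀ = F^[j] x₀ ∨ F^[i] x₀ = c (F^[j] x₀) → i = j := by
    have aux : ∀ i j : ℕ, i < j → j < p → ¬ (F^[j] x₀ = F^[i] x₀ ∨ F^[j] x₀ = c (F^[i] x₀)) := by
      intro i j hij hjp h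
      apply hmin (j - i) (by omega) (by omega)
      have e : F^[j] x₀ = F^[i] (F^[j - i] x₀) := by
        rw [← Function.iterate_add_apply]
        congr 2; omega
      rw [e] at h
      rcases h with h | h
      · left; exact hF.iterate i h
      · right
        rw [← hcF] at h
        exact hF.iterate i h
    intro i hi j hj h
    rcases lt_trichotomy i j with h1 | h1 | h1
    · exfalso
      apply aux i j h1 hj
      rcases h with h | h
      · left; exact h.symm
      · right; rw [h, hc]
    · exact h1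
    · exfalso
      exact aux j i h1 hi h
  -- reduction of exponents modulo `p`
  have hred : ∀ n : ℕ, ∃ j < p, F^[n] x₀ = F^[j] x₀ ∨ F^[n] x₀ = c (F^[j] x₀) := by
    intro n
    induction n using Nat.strong_induction_on with
    | _ n ih =>
      by_cases hn : n < p
      · exact ⟨n, hn, Or.inl rfl⟩
      · obtain ⟨j, hj, h⟩ := ih (n - p) (by omega)
        refine ⟨j, hj, ?_⟩
        have e : F^[n] x₀ = F^[n - p] (F^[p] x₀) := by
          rw [← Function.iterate_add_apply]
          congr 2
          have : p ≤ n := by omega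
          omega
        rw [e]
        rcases hp with hp' | hp'
        · rw [hp']; exact h
        · rw [hp', hcF]
          rcases h with h | h
          · right; rw [h]
          · left; rw [h, hc]
  have hcover : ∀ s, ∃ j < p, s = F^[j] x₀ ∨ s = c (F^[j] x₀) := by
    intro s
    obtain ⟨n, hn⟩ := htr s
    obtain ⟨j, hj, h⟩ := hred n
    refine ⟨j, hj, ?_⟩
    rcases hn with rfl | rfl
    · exact h
    · rcases h with h | h
      · right; rw [h]
      · left; rw [h, hc]
  -- counting
  have hpg : p = g := by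
    let f : Fin p × Bool → S := fun q => if q.2 then F^[q.1.1] x₀ else c (F^[q.1.1] x₀)
    have hf : Function.Bijective f := by
      constructor
      · rintro ⟨⟨i, hi⟩, b⟩ ⟨⟨j, hj⟩, b'⟩ h
        have hij : i = j := by
          cases b <;> cases b' <;> simp only [f, Bool.false_eq_true, if_false, if_true] at h
          · apply hdist i hi j hj; left
            rw [← hc (F^[i] x₀), h, hc]
          · apply hdist i hi j hj; right
            rw [← hc (F^[i] x₀), h]
          · apply hdist i hi j hj; right; exact h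
          · apply hdist i hi j hj; left; exact h
        subst hij
        cases b <;> cases b' <;> simp only [f, Bool.false_eq_true, if_false, if_true] at h
        · rfl
        · exact absurd h (hne _)
        · exact absurd h.symm (hne _)
        · rfl
      · intro s
        obtain ⟨j, hj, h⟩ := hcover s
        rcases h with h | h
        · exact ⟨(⟨j, hj⟩, true), by simp [f, h]⟩
        · exact ⟨(⟨j, hj⟩, false), by simp [f, h]⟩
    have h1 := Fintype.card_of_bijective hf
    rw [Fintype.card_prod, Fintype.card_fin, Fintype.card_bool, hg] at h1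
    omega
  rw [← hpg]
  exact ⟨hp, hdist, hcover⟩

end orbit

section functional

/-- If a nonzero sequence `v` with `v (i + g) = η v i` is orthogonal to all shifts of
`e 0, …, e (g - 1)`, then `∑ e_j X ^ j` is not coprime to `X ^ g - η`. -/
lemma not_isCoprime_of_relation (g : ℕ) (η : ℚ) (e v : ℕ → ℚ)
    (hv : ∀ i, v (i + g) = η * v i) (hne : ∃ i, v i ≠ 0)
    (horth : ∀ k, ∑ j ∈ Finset.range g, e j * v (j + k) = 0) :
    ¬ IsCoprime (∑ j ∈ Finset.range g, C (e j) * X ^ j) (X ^ g - C η : ℚ[X]) := by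
  rintro ⟨a, b, hab⟩
  let lam : ℚ[X] →ₗ[ℚ] ℚ := Polynomial.lsum (fun i => LinearMap.mulRight ℚ (v i))
  have hlamX : ∀ (q : ℚ) (k : ℕ), lam (C q * X ^ k) = q * v k := by
    intro q k
    simp only [lam, Polynomial.lsum_apply]
    rw [C_mul_X_pow_eq_monomial, Polynomial.sum_monomial_index]
    · rfl
    · simp
  have h1 : ∀ (P : ℚ[X]), lam (P * ∑ j ∈ Finset.range g, C (e j) * X ^ j) = 0 := by
    intro P
    induction P using Polynomial.induction_on' with
    | add p q hp hq => rw [add_mul, map_add, hp, hq, add_zero]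
    | monomial k q =>
      rw [← C_mul_X_pow_eq_monomial, Finset.mul_sum, map_sum]
      have : ∀ j ∈ Finset.range g, lam (C q * X ^ k * (C (e j) * X ^ j))
          = q * (e j * v (j + k)) := by
        intro j _
        have e1 : C q * X ^ k * (C (e j) * X ^ j) = C (q * e j) * X ^ (j + k) := by
          rw [C_mul, pow_add]; ring
        rw [e1, hlamX]; ring
      rw [Finset.sum_congr rfl this, ← Finset.mul_sum, horth k, mul_zero]
  have h2 : ∀ (P : ℚ[X]), lam (P * (X ^ g - C η)) = 0 := by
    intro P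
    induction P using Polynomial.induction_on' with
    | add p q hp hq => rw [add_mul, map_add, hp, hq, add_zero]
    | monomial k q =>
      rw [← C_mul_X_pow_eq_monomial]
      have e1 : C q * X ^ k * (X ^ g - C η) = C q * X ^ (k + g) - C (q * η) * X ^ k := by
        rw [C_mul, pow_add]; ring
      rw [e1, map_sub, hlamX, hlamX, hv]; ring
  obtain ⟨i, hi⟩ := hne
  apply hi
  have h3 : lam (X ^ i) = v i := by
    have := hlamX 1 i
    rw [C_1, one_mul, one_mul] at this
    exact this
  rw [← h3]
  have h4 : (X ^ i : ℚ[X]) = (X ^ i * a) * (∑ j ∈ Finset.range g, C (e j) * X ^ j)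
      + (X ^ i * b) * (X ^ g - C η) := by
    calc (X ^ i : ℚ[X]) = X ^ i * (a * (∑ j ∈ Finset.range g, C (e j) * X ^ j)
          + b * (X ^ g - C η)) := by rw [hab, mul_one]
      _ = _ := by ring
  rw [h4, map_add, h1, h2, add_zero]

/-- The order of the roots of unity that are relevant for divisors `h` of `g`. -/
noncomputable def ordFor (η : ℚ) (h : ℕ) : ℕ := if η = 1 then h else 2 * h

/-- The relevant cyclotomic factors. -/
lemma exists_cyclotomic_dvd (g : ℕ) (hg : 0 < g) (η : ℚ) (hη : η = 1 ∨ η = -1) (P : ℚ[X])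
    (hP : ¬ IsCoprime P (X ^ g - C η : ℚ[X])) :
    ∃ h, h ∣ g ∧ cyclotomic (ordFor η h) ℚ ∣ P ∧ cyclotomic (ordFor η h) ℚ ∣ X ^ h - C η := by
  have hirr : ∀ n, 0 < n → ∀ P : ℚ[X], ¬ IsCoprime P (cyclotomic n ℚ) → cyclotomic n ℚ ∣ P := by
    intro n hn P hP
    have h1 := (cyclotomic.irreducible_rat hn)
    rcases EuclideanDomain.dvd_or_coprime (cyclotomic n ℚ) P h1 with h2 | h2
    · exact h2
    · exact absurd h2.symm hP
  rcases hη with rfl | rfl
  · rw [C_1, ← prod_cyclotomic_eq_X_pow_sub_one hg ℚ] at hP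
    obtain ⟨n, hn, hnP⟩ : ∃ n ∈ g.divisors, ¬ IsCoprime P (cyclotomic n ℚ) := by
      by_contra hcon
      push Not at hcon
      exact hP (IsCoprime.prod_right hcon)
    have hn0 : 0 < n := Nat.pos_of_mem_divisors hn
    have hord : ordFor 1 n = n := by simp [ordFor]
    refine ⟨n, Nat.dvd_of_mem_divisors hn, ?_, ?_⟩
    · rw [hord]; exact hirr n hn0 P hnP
    rw [hord, C_1, ← prod_cyclotomic_eq_X_pow_sub_one hn0 ℚ]
    exact Finset.dvd_prod_of_mem _ (Nat.mem_divisors_self n hn0.ne')
  · -- `X ^ h + 1` as a product of cyclotomic polynomials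
    have hfac : ∀ h : ℕ, 0 < h → (X ^ h - C (-1) : ℚ[X])
        = ∏ n ∈ (2 * h).divisors \ h.divisors, cyclotomic n ℚ := by
      intro h hh
      have h1 : (X ^ h - 1 : ℚ[X]) * (X ^ h - C (-1)) = X ^ (2 * h) - 1 := by
        rw [C_neg, C_1, two_mul, pow_add]; ring
      have hsub : h.divisors ⊆ (2 * h).divisors :=
        Nat.divisors_subset_of_dvd (by omega) (dvd_mul_left h 2)
      have h2 : (X ^ (2 * h) - 1 : ℚ[X])
          = (∏ n ∈ h.divisors, cyclotomic n ℚ) *
            ∏ n ∈ (2 * h).divisors \ h.divisors, cyclotomic n ℚ := by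
        rw [← prod_cyclotomic_eq_X_pow_sub_one (by omega : 0 < 2 * h) ℚ,
          mul_comm (∏ n ∈ h.divisors, cyclotomic n ℚ), Finset.prod_sdiff hsub]
      rw [prod_cyclotomic_eq_X_pow_sub_one hh ℚ, ← h1] at h2
      have h3 : (X ^ h - 1 : ℚ[X]) ≠ 0 := by
        have := (monic_X_pow_sub_C (1 : ℚ) hh.ne').ne_zero
        rwa [C_1] at this
      exact mul_left_cancel₀ h3 h2
    rw [hfac g hg] at hP
    obtain ⟨n, hn, hnP⟩ : ∃ n ∈ (2 * g).divisors \ g.divisors, ¬ IsCoprime P (cyclotomic n ℚ) := by
      by_contra hcon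
      push Not at hcon
      exact hP (IsCoprime.prod_right hcon)
    rw [Finset.mem_sdiff, Nat.mem_divisors, Nat.mem_divisors] at hn
    obtain ⟨⟨hn1, -⟩, hn2⟩ := hn
    have hn0 : 0 < n := Nat.pos_of_dvd_of_pos hn1 (by omega)
    have heven : Even n := by
      by_contra hodd
      rw [Nat.not_even_iff_odd] at hodd
      apply hn2
      refine ⟨?_, by omega⟩
      exact (Nat.Coprime.dvd_of_dvd_mul_left (Nat.coprime_two_right.mpr hodd) hn1)
    obtain ⟨h, hh⟩ := heven
    have hh' : n = 2 * h := by omega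
    subst hh'
    have hh0 : 0 < h := by omega
    have hord : ordFor (-1) h = 2 * h := by
      have : ¬ ((-1 : ℚ) = 1) := by norm_num
      simp [ordFor, this]
    refine ⟨h, Nat.dvd_of_mul_dvd_mul_left (by norm_num : 0 < 2) hn1, ?_, ?_⟩
    · rw [hord]; exact hirr _ hn0 P hnP
    · rw [hord, hfac h hh0]
      apply Finset.dvd_prod_of_mem
      rw [Finset.mem_sdiff]
      refine ⟨Nat.mem_divisors_self _ hn0.ne', ?_⟩
      rw [Nat.mem_divisors]
      rintro ⟨h5, -⟩
      have := Nat.le_of_dvd hh0 h5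
      omega

end functional

end Pool.Agent.Lib.MP_640417_ag
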