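import Pool.Agent.Lib.MP_640417_ag.CMRep

/-!
# Basic facts on embeddings of CM fields
-/

namespace Pool.Agent.Lib.MP_640417_ag

open NumberField Module

variable {E : Type} [Field E] [NumberField E]

lemma galEmb_apply (τ : AbsGal) (φ : Emb E) (x : E) : galEmb τ φ x = τ (φ x) := rfl

/-- The Galois action on embeddings. -/
@[reducible] noncomputable def galAction (E : Type) [Field E] [NumberField E] :
    MulAction AbsGal (Emb E) where
  smul τ φ := galEmb τ φ
  one_smul φ := by
    apply RingHom.ext
    intro x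
    rfl
  mul_smul σ τ φ := by
    apply RingHom.ext
    intro x
    rfl

lemma isAlgebraic_rat_of_alg (a : Algebra ℚ (AlgebraicClosure ℚ)) :
    Algebra.IsAlgebraic ℚ (AlgebraicClosure ℚ) := by
  have h : a = AlgebraicClosure.instAlgebra ℚ := Subsingleton.elim _ _
  subst h
  exact AlgebraicClosure.isAlgebraic ℚ

lemma exists_lift_of_embeddings {E L M : Type} [Field E] [Field L] [Field M] [CharZero E]
    [CharZero L] [IsAlgClosed M] (halg : Algebra.IsAlgebraic ℚ L) (φ : E →+* L) (ψ : E →+* M) :
    ∃ f : L →+* M, ∀ x : E, f (φ x) = ψ x := by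
  let _ : Algebra E L := φ.toAlgebra
  let _ : Algebra E M := ψ.toAlgebra
  have st : IsScalarTower ℚ E L := IsScalarTower.rat
  have alg : Algebra.IsAlgebraic E L := Algebra.IsAlgebraic.tower_top (K := ℚ) E
  let f : L →ₐ[E] M := IsAlgClosed.lift
  exact ⟨f.toRingHom, fun x => f.commutes x⟩

lemma exists_galEmb_eq (φ ψ : Emb E) : ∃ τ : AbsGal, galEmb τ φ = ψ := by
  have halg : Algebra.IsAlgebraic ℚ (AlgebraicClosure ℚ) := isAlgebraic_rat_of_alg _
  obtain ⟨f, hf⟩ := exists_lift_of_embeddings halg φ ψ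
  let f' : AlgebraicClosure ℚ →ₐ[ℚ] AlgebraicClosure ℚ := RingHom.toRatAlgHom f
  have hbij : Function.Bijective f' := Algebra.IsAlgebraic.algHom_bijective f'
  refine ⟨RingEquiv.ofBijective f hbij, ?_⟩
  apply RingHom.ext
  intro x
  exact hf x

lemma isPretransitive_galAction (E : Type) [Field E] [NumberField E] :
    @MulAction.IsPretransitive AbsGal (Emb E) (galAction E).toSMul := by
  let _ := galAction E
  exact ⟨fun φ ψ => exists_galEmb_eq φ ψ⟩

lemma card_emb (E : Type) [Field E] [NumberField E] :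
    Fintype.card (Emb E) = finrank ℚ E := Embeddings.card E (AlgebraicClosure ℚ)

variable [IsCMField E]

lemma conjEmb_apply (φ : Emb E) (x : E) : conjEmb φ x = φ (IsCMField.complexConj E x) := rfl

lemma conjEmb_conjEmb (φ : Emb E) : conjEmb (conjEmb φ) = φ := by
  apply RingHom.ext
  intro x
  simp only [conjEmb_apply, IsCMField.complexConj_apply_apply]

lemma conjEmb_ne (φ : Emb E) : conjEmb φ ≠ φ := by
  intro h
  apply IsCMField.complexConj_ne_one E
  apply AlgEquiv.ext
  intro x
  have h1 := congrArg (fun f : Emb E => f x) h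
  simp only [conjEmb_apply] at h1
  exact φ.injective h1

lemma galEmb_conjEmb (τ : AbsGal) (φ : Emb E) : galEmb τ (conjEmb φ) = conjEmb (galEmb τ φ) := rfl

end Pool.Agent.Lib.MP_640417_ag
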