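import Pool.Agent.Lib.MP_640417_ag.CMRep

/-!
# Tate classes as elements of exterior powers

Working definitions, with a translation from those of `CMRep.lean`.
-/

namespace Pool.Agent.Lib.MP_640417_ag

open NumberField Module

section generic

variable {Γ : Type} [Group Γ] [TopologicalSpace Γ] {F : Type} [Field F]
  {V : Type} [AddCommGroup V] [Module F V]

lemma coe_exteriorPower_map (m : ℕ) (f : V →ₗ[F] V) (z : ⋀[F]^m V) :
    ((exteriorPower.map m f z : ⋀[F]^m V) : ExteriorAlgebra F V) =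
      ExteriorAlgebra.map f (z : ExteriorAlgebra F V) := by
  have h : (⋀[F]^m V).subtype ∘ₗ exteriorPower.map m f =
      (ExteriorAlgebra.map f).toLinearMap ∘ₗ (⋀[F]^m V).subtype := by
    apply exteriorPower.linearMap_ext
    ext a
    simp [ExteriorAlgebra.map_apply_ιMulti]
  exact LinearMap.congr_fun h z

end generic

section tate

variable {E : Type} [Field E] [NumberField E] {Φ : Set (Emb E)}
  {Γ : Type} [Group Γ] [TopologicalSpace Γ] {F : Type} [Field F]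

/-- `x` in `H^{2i}(Aⁿ)(i) = ⋀^{2i} H¹(Aⁿ)(i)` is a Tate class of codimension `i`:
it is fixed by an open subgroup of `Γ`. -/
def CMGaloisRep.IsTateClass (ρ : CMGaloisRep Φ Γ F) (n i : ℕ) (x : ⋀[F]^(2 * i) (H1 E n F)) :
    Prop :=
  ∃ U : OpenSubgroup Γ, ∀ γ ∈ U,
    ((ρ.χ γ : F) ^ i) • exteriorPower.map (2 * i) (ρ.onH1 n γ) x = x

/-- The subalgebra of `⨁ⱼ H^{2j}(Aⁿ)(j)` generated by the Tate classes of codimension `1`. -/
noncomputable def CMGaloisRep.divisorAlgebra (ρ : CMGaloisRep Φ Γ F) (n : ℕ) :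
    Subalgebra F (ExteriorAlgebra F (H1 E n F)) :=
  Algebra.adjoin F
    {y | ∃ z : ⋀[F]^(2 * 1) (H1 E n F), ρ.IsTateClass n 1 z ∧
      (z : ExteriorAlgebra F (H1 E n F)) = y}

/-- `x` is an exotic Tate class of codimension `i` on `Aⁿ`. -/
def CMGaloisRep.IsExotic (ρ : CMGaloisRep Φ Γ F) (n i : ℕ) (x : ⋀[F]^(2 * i) (H1 E n F)) :
    Prop :=
  ρ.IsTateClass n i x ∧ (x : ExteriorAlgebra F (H1 E n F)) ∉ ρ.divisorAlgebra n

lemma tateClass_iff (ρ : CMGaloisRep Φ Γ F) (n i : ℕ) (x : ExteriorAlgebra F (H1 E n F)) :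
    TateClass (ρ.onH1 n) ρ.χ i x ↔
      ∃ z : ⋀[F]^(2 * i) (H1 E n F), (z : ExteriorAlgebra F (H1 E n F)) = x ∧
        ρ.IsTateClass n i z := by
  constructor
  · rintro ⟨hx, U, hU⟩
    refine ⟨⟨x, hx⟩, rfl, U, fun γ hγ => ?_⟩
    apply Subtype.ext
    have := hU γ hγ
    rw [Submodule.coe_smul, coe_exteriorPower_map]
    exact this
  · rintro ⟨z, rfl, U, hU⟩
    refine ⟨z.2, U, fun γ hγ => ?_⟩
    have := congrArg (fun w : ⋀[F]^(2 * i) (H1 E n F) => (w : ExteriorAlgebra F (H1 E n F)))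
      (hU γ hγ)
    simp only [Submodule.coe_smul, coe_exteriorPower_map] at this
    exact this

lemma divisorAlg_eq (ρ : CMGaloisRep Φ Γ F) (n : ℕ) :
    divisorAlg (ρ.onH1 n) ρ.χ = ρ.divisorAlgebra n := by
  unfold divisorAlg CMGaloisRep.divisorAlgebra
  congr 1
  ext x
  simp only [Set.mem_ofPred_eq]
  rw [tateClass_iff]
  constructor
  · rintro ⟨z, h1, h2⟩; exact ⟨z, h2, h1⟩
  · rintro ⟨z, h1, h2⟩; exact ⟨z, h2, h1⟩

lemma exoticTateClass_iff (ρ : CMGaloisRep Φ Γ F) (n i : ℕ) (x : ExteriorAlgebra F (H1 E n F)) :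
    ExoticTateClass (ρ.onH1 n) ρ.χ i x ↔
      ∃ z : ⋀[F]^(2 * i) (H1 E n F), (z : ExteriorAlgebra F (H1 E n F)) = x ∧
        ρ.IsExotic n i z := by
  unfold ExoticTateClass CMGaloisRep.IsExotic
  rw [tateClass_iff, divisorAlg_eq]
  constructor
  · rintro ⟨⟨z, rfl, h2⟩, h3⟩
    exact ⟨z, rfl, h2, h3⟩
  · rintro ⟨z, rfl, h2, h3⟩
    exact ⟨⟨z, rfl, h2⟩, h3⟩

end tate

end Pool.Agent.Lib.MP_640417_ag
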