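import Pool.Agent.Lib.MP_640417_ag.EmbFacts
import Pool.Agent.Lib.MP_640417_ag.TateClass

/-!
# Tate classes in terms of monomials
-/

namespace Pool.Agent.Lib.MP_640417_ag

open NumberField Module

section monomials

variable {I : Type} {F : Type} [Field F]

/-- The standard basis vector as an element of the exterior algebra. -/
noncomputable def ev [DecidableEq I] (F : Type) [Field F] (p : I) : ExteriorAlgebra F (I → F) :=
  ExteriorAlgebra.ι F (Pi.single p (1 : F))

/-- The monomial attached to a list. -/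
noncomputable def mono [DecidableEq I] (F : Type) [Field F] (l : List I) :
    ExteriorAlgebra F (I → F) := (l.map (ev F)).prod

lemma mono_perm [DecidableEq I] {l l' : List I} (h : l.Perm l') :
    mono F l = mono F l' ∨ mono F l = - mono F l' := by
  induction h with
  | nil => left; rfl
  | cons x _ ih =>
    rcases ih with h | h
    · left
      simp only [mono, List.map_cons, List.prod_cons] at h ⊢
      rw [h]
    · right
      simp only [mono, List.map_cons, List.prod_cons] at h ⊢
      rw [h, mul_neg]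
  | swap x y l =>
    right
    simp only [mono, List.map_cons, List.prod_cons, ← mul_assoc, ev]
    have := ExteriorAlgebra.ι_add_mul_swap (R := F) (Pi.single x (1 : F) : I → F) (Pi.single y 1)
    rw [← neg_mul, eq_neg_of_add_eq_zero_right this]
  | trans _ _ ih1 ih2 =>
    rcases ih1 with h1 | h1 <;> rcases ih2 with h2 | h2
    · left; rw [h1, h2]
    · right; rw [h1, h2]
    · right; rw [h1, h2]
    · left; rw [h1, h2, neg_neg]

/-- If `c` is a fixed point free involution on a type `J`, `π : I → J` is a map, and `A` is a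
subalgebra containing all products `e_p e_q` with `π q = c (π p)`, then `A` contains every
monomial in which `π⁻¹ φ` and `π⁻¹ (c φ)` have the same number of elements for every `φ`. -/
lemma mono_mem [DecidableEq I] {J : Type} [DecidableEq J] (c : J → J) (hc : ∀ s, c (c s) = s)
    (hne : ∀ s, c s ≠ s) (π : I → J) (A : Subalgebra F (ExteriorAlgebra F (I → F)))
    (hA : ∀ p q : I, π q = c (π p) → ev F p * ev F q ∈ A) :
    ∀ (N : ℕ) (l : List I), l.length = N →
      (∀ φ, (l.map π).count φ = (l.map π).count (c φ)) → mono F l ∈ A := by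
  intro N
  induction N using Nat.strong_induction_on with
  | _ N ih =>
    intro l hl hcount
    match l, hl, hcount with
    | [], _, _ =>
      simp only [mono, List.map_nil, List.prod_nil]
      exact A.one_mem
    | p :: t, hl, hcount =>
      have h1 : 0 < ((p :: t).map π).count (c (π p)) := by
        rw [← hcount (π p)]
        simp
      have h2 : c (π p) ∈ (t.map π) := by
        have h3 := List.count_pos_iff.mp h1
        simp only [List.map_cons, List.mem_cons] at h3
        rcases h3 with h3 | h3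
        · exact absurd h3 (hne _)
        · exact h3
      obtain ⟨q, hq, hqp⟩ := List.mem_map.mp h2
      have hperm : t.Perm (q :: t.erase q) := List.perm_cons_erase hq
      have hlen : (t.erase q).length < N := by
        rw [List.length_erase_of_mem hq]
        simp only [List.length_cons] at hl
        omega
      have hcount' : ∀ φ, ((t.erase q).map π).count φ = ((t.erase q).map π).count (c φ) := by
        intro φ
        have e1 : ∀ ψ, (t.map π).count ψ = ((q :: t.erase q).map π).count ψ := fun ψ =>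
          (hperm.map π).count_eq ψ
        have e2 := hcount φ
        simp only [List.map_cons, List.count_cons, e1, hqp] at e2
        have e3 : (c (π p) == φ) = (π p == c φ) := by
          rw [Bool.eq_iff_iff, beq_iff_eq, beq_iff_eq]
          constructor
          · rintro rfl; rw [hc]
          · intro h; rw [h, hc]
        have e4 : (c (π p) == c φ) = (π p == φ) := by
          rw [Bool.eq_iff_iff, beq_iff_eq, beq_iff_eq]
          constructor
          · intro h; rw [← hc (π p), h, hc]
          · rintro rfl; rfl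
        rw [e3, e4] at e2
        omega
      have hrec := ih _ hlen (t.erase q) rfl hcount'
      have hprod : mono F (p :: q :: t.erase q) ∈ A := by
        simp only [mono, List.map_cons, List.prod_cons, ← mul_assoc]
        exact A.mul_mem (hA p q hqp) hrec
      rcases mono_perm (F := F) (List.Perm.cons p hperm) with h | h
      · rw [h]; exact hprod
      · rw [h]; exact A.neg_mem hprod

end monomials

section exotic

variable {E : Type} [Field E] [NumberField E]

/-- The multiplicity function of a finite set of pairs (embedding, factor). -/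
noncomputable def multFun {n : ℕ} (s : Finset (Emb E × Fin n)) (φ : Emb E) : ℤ := by
  classical exact ((s.filter (fun p => p.1 = φ)).card : ℤ)

lemma prod_psi_eq {Γ : Type} [Group Γ] {F : Type} [Field F] (ψ : Emb E → Γ →* Fˣ) {n : ℕ}
    (s : Finset (Emb E × Fin n)) (γ : Γ) :
    ∏ p ∈ s, ψ p.1 γ = ∏ φ : Emb E, ψ φ γ ^ multFun s φ := by
  classical
  rw [← Finset.prod_fiberwise_of_maps_to (s := s) (t := Finset.univ) (g := fun p => p.1)
    (fun _ _ => Finset.mem_univ _)]
  apply Finset.prod_congr rfl
  intro φ _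
  have : ∏ p ∈ s.filter (fun p => p.1 = φ), ψ p.1 γ
      = ∏ p ∈ s.filter (fun p => p.1 = φ), ψ φ γ := by
    apply Finset.prod_congr rfl
    intro p hp
    rw [(Finset.mem_filter.mp hp).2]
  rw [this, Finset.prod_const]
  simp only [multFun, zpow_natCast]

variable [IsCMField E] {Φ : Set (Emb E)}
  {Γ : Type} [Group Γ] [TopologicalSpace Γ] {F : Type} [Field F]

omit [IsCMField E] in
lemma onH1_single {n : ℕ} [DecidableEq (Emb E × Fin n)] (ρ : CMGaloisRep Φ Γ F) (γ : Γ)
    (p : Emb E × Fin n) :
    ρ.onH1 n γ (Pi.single p (1 : F)) = ((ρ.ψ p.1 γ)⁻¹ : Fˣ).val • Pi.single p (1 : F) := by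
  funext q
  simp only [CMGaloisRep.onH1, LinearMap.pi_apply, LinearMap.smul_apply, LinearMap.proj_apply,
    Pi.smul_apply, smul_eq_mul]
  by_cases h : q = p
  · subst h; rfl
  · simp [Pi.single_eq_of_ne h]

/-- The products of two basis vectors attached to conjugate embeddings are Tate classes. -/
lemma pair_mem_divisorAlgebra {n : ℕ} [DecidableEq (Emb E × Fin n)] (ρ : CMGaloisRep Φ Γ F)
    (hΦ : IsCMType Φ) (p q : Emb E × Fin n) (h : q.1 = conjEmb p.1) :
    ev F p * ev F q ∈ ρ.divisorAlgebra n := by
  classical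
  apply Algebra.subset_adjoin
  let v : Fin (2 * 1) → H1 E n F := ![Pi.single p (1 : F), Pi.single q (1 : F)]
  refine ⟨exteriorPower.ιMulti F (2 * 1) v, ?_, ?_⟩
  · -- Tate class
    obtain ⟨U, hU⟩ := (ρ.weights (fun φ => (if φ = p.1 then 1 else 0) + (if φ = q.1 then 1 else 0))
      1).mpr (by
        intro τ
        have e1 : ∀ φ : Emb E, Set.indicator {φ : Emb E | galEmb τ φ ∈ Φ}
            (fun φ => (if φ = p.1 then (1 : ℤ) else 0) + (if φ = q.1 then 1 else 0)) φ
            = (if φ = p.1 then (if galEmb τ p.1 ∈ Φ then (1 : ℤ) else 0) else 0)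
              + (if φ = q.1 then (if galEmb τ q.1 ∈ Φ then (1 : ℤ) else 0) else 0) := by
          intro φ
          by_cases h1 : φ = p.1
          · by_cases h2 : φ = q.1
            · by_cases h3 : galEmb τ φ ∈ Φ
              · rw [Set.indicator_of_mem (by exact h3)]
                simp [← h1, ← h2, h3]
              · rw [Set.indicator_of_notMem (by exact h3)]
                simp [← h1, ← h2, h3]
            · by_cases h3 : galEmb τ φ ∈ Φ
              · rw [Set.indicator_of_mem (by exact h3)]
                simp [← h1, h2, h3]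
              · rw [Set.indicator_of_notMem (by exact h3)]
                simp [← h1, h2, h3]
          · by_cases h2 : φ = q.1
            · by_cases h3 : galEmb τ φ ∈ Φ
              · rw [Set.indicator_of_mem (by exact h3)]
                simp [h1, ← h2, h3]
              · rw [Set.indicator_of_notMem (by exact h3)]
                simp [h1, ← h2, h3]
            · by_cases h3 : galEmb τ φ ∈ Φ
              · rw [Set.indicator_of_mem (by exact h3)]
                simp [h1, h2]
              · rw [Set.indicator_of_notMem (by exact h3)]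
                simp [h1, h2]
        rw [Finset.sum_congr rfl (fun φ _ => e1 φ), Finset.sum_add_distrib,
          Finset.sum_ite_eq' Finset.univ p.1, Finset.sum_ite_eq' Finset.univ q.1]
        simp only [Finset.mem_univ, if_true]
        rw [h, galEmb_conjEmb]
        by_cases h4 : galEmb τ p.1 ∈ Φ
        · have h5 : conjEmb (galEmb τ p.1) ∉ Φ := (hΦ _).mp h4
          simp [h4, h5]
        · have h5 : conjEmb (galEmb τ p.1) ∈ Φ := by
            by_contra h6
            exact h4 ((hΦ _).mpr h6)
          simp [h4, h5])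
    refine ⟨U, fun γ hγ => ?_⟩
    have h1 := hU γ hγ
    have hne : p.1 ≠ q.1 := by
      rw [h]
      exact (conjEmb_ne p.1).symm
    have h2 : ρ.ψ p.1 γ * ρ.ψ q.1 γ = ρ.χ γ := by
      rw [zpow_one] at h1
      rw [← h1]
      have e3 : ∀ φ : Emb E, (ρ.ψ φ γ) ^ ((if φ = p.1 then (1 : ℤ) else 0)
          + (if φ = q.1 then 1 else 0)) = (if φ = p.1 then ρ.ψ p.1 γ else 1)
            * (if φ = q.1 then ρ.ψ q.1 γ else 1) := by
        intro φ
        by_cases h3 : φ = p.1
        · subst h3
          simp [hne]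
        · by_cases h4 : φ = q.1
          · subst h4
            simp [h3]
          · simp [h3, h4]
      rw [Finset.prod_congr rfl (fun φ _ => e3 φ), Finset.prod_mul_distrib,
        Finset.prod_ite_eq' Finset.univ p.1, Finset.prod_ite_eq' Finset.univ q.1]
      simp
    rw [exteriorPower.map_apply_ιMulti]
    have h3 : (fun k => ρ.onH1 n γ (v k)) = fun k : Fin (2 * 1) =>
        (![((ρ.ψ p.1 γ)⁻¹ : Fˣ).val, ((ρ.ψ q.1 γ)⁻¹ : Fˣ).val] : Fin (2 * 1) → F) k • v k := by
      funext k
      fin_cases k
      · exact onH1_single ρ γ p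
      · exact onH1_single ρ γ q
    have h4 : (⇑(ρ.onH1 n γ) ∘ v) = fun k : Fin (2 * 1) =>
        (![((ρ.ψ p.1 γ)⁻¹ : Fˣ).val, ((ρ.ψ q.1 γ)⁻¹ : Fˣ).val] : Fin (2 * 1) → F) k • v k := h3
    rw [h4, AlternatingMap.map_smul_univ, smul_smul]
    have h5 : (ρ.χ γ : F) ^ 1 * ∏ k : Fin (2 * 1),
        (![((ρ.ψ p.1 γ)⁻¹ : Fˣ).val, ((ρ.ψ q.1 γ)⁻¹ : Fˣ).val] : Fin (2 * 1) → F) k = 1 := by
      have : ∏ k : Fin (2 * 1),
        (![((ρ.ψ p.1 γ)⁻¹ : Fˣ).val, ((ρ.ψ q.1 γ)⁻¹ : Fˣ).val] : Fin (2 * 1) → F) k
          = ((ρ.ψ p.1 γ)⁻¹ : Fˣ).val * ((ρ.ψ q.1 γ)⁻¹ : Fˣ).val := by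
        exact Fin.prod_univ_two _
      rw [this, ← h2, pow_one, ← Units.val_mul, ← Units.val_mul]
      rw [show ρ.ψ p.1 γ * ρ.ψ q.1 γ * ((ρ.ψ p.1 γ)⁻¹ * (ρ.ψ q.1 γ)⁻¹) = 1 by
        rw [mul_comm (ρ.ψ p.1 γ)⁻¹, ← mul_inv_rev, mul_inv_cancel]]
      rfl
    rw [h5, one_smul]
  · rw [exteriorPower.ιMulti_apply_coe, ExteriorAlgebra.ιMulti_apply]
    simp only [v, ev]
    rw [show List.ofFn (fun k : Fin (2 * 1) => ExteriorAlgebra.ι F
      ((![Pi.single p (1 : F), Pi.single q (1 : F)] : Fin (2 * 1) → H1 E n F) k))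
      = [ExteriorAlgebra.ι F (Pi.single p (1 : F)), ExteriorAlgebra.ι F (Pi.single q (1 : F))]
      from rfl]
    simp

omit [IsCMField E] in
lemma count_toList_map {n : ℕ} [DecidableEq (Emb E)] (s : Finset (Emb E × Fin n)) (φ : Emb E) :
    (((s.toList.map Prod.fst).count φ : ℕ) : ℤ) = multFun s φ := by
  classical
  simp only [multFun]
  congr 1
  rw [← Multiset.coe_count, ← Multiset.map_coe, Finset.coe_toList, Multiset.count_map]
  rw [Finset.card_def, Finset.filter_val]
  congr 1
  convert Multiset.filter_congr (s := s.val) (p := fun a : Emb E × Fin n => φ = a.1)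
    (q := fun p : Emb E × Fin n => p.1 = φ) (fun x _ => eq_comm)

/-- An exotic Tate class of codimension `i` produces a set of `2 i` pairs (embedding, factor)
with all weights equal to `i`, which is not balanced under complex conjugation. -/
lemma exists_of_isExotic {n i : ℕ} (ρ : CMGaloisRep Φ Γ F) (hΦ : IsCMType Φ)
    (x : ⋀[F]^(2 * i) (H1 E n F)) (hx : ρ.IsExotic n i x) :
    ∃ s : Finset (Emb E × Fin n), s.card = 2 * i ∧
      (∀ τ : AbsGal, ∑ φ : Emb E, Set.indicator {φ : Emb E | galEmb τ φ ∈ Φ} (multFun s) φ = i) ∧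
      ∃ φ : Emb E, multFun s φ ≠ multFun s (conjEmb φ) := by
  classical
  by_contra hcon
  push Not at hcon
  obtain ⟨⟨U, hU⟩, hnot⟩ := hx
  apply hnot
  let lo : LinearOrder (Emb E × Fin n) := linearOrderOfSTO WellOrderingRel
  let b : Basis (Emb E × Fin n) F (H1 E n F) := Pi.basisFun F (Emb E × Fin n)
  let B := b.exteriorPower (2 * i)
  have hmap : ∀ (γ : Γ) (s : Set.powersetCard (Emb E × Fin n) (2 * i)),
      exteriorPower.map (2 * i) (ρ.onH1 n γ) (B s)
        = (∏ p ∈ s.1, ((ρ.ψ p.1 γ)⁻¹ : Fˣ).val) • B s := by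
    intro γ s
    simp only [B, exteriorPower.basis_apply]
    rw [exteriorPower.map_apply_ιMulti_family]
    have h1 : (⇑(ρ.onH1 n γ) ∘ ⇑b) = fun p => ((ρ.ψ p.1 γ)⁻¹ : Fˣ).val • b p := by
      funext p
      simp only [Function.comp_apply, b, Pi.basisFun_apply]
      exact onH1_single ρ γ p
    rw [h1]
    simp only [exteriorPower.ιMulti_family]
    have h2 : ((fun p => ((ρ.ψ p.1 γ)⁻¹ : Fˣ).val • b p) ∘
        ⇑(Set.powersetCard.ofFinEmbEquiv.symm s))
        = fun k => (fun k => ((ρ.ψ (Set.powersetCard.ofFinEmbEquiv.symm s k).1 γ)⁻¹ : Fˣ).val) k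
          • (⇑b ∘ ⇑(Set.powersetCard.ofFinEmbEquiv.symm s)) k := rfl
    rw [h2, AlternatingMap.map_smul_univ]
    congr 1
    have h3 : s.1 = Finset.univ.map (Set.powersetCard.ofFinEmbEquiv.symm s).toEmbedding := by
      ext p
      simp only [Finset.mem_map, Finset.mem_univ, true_and]
      exact (Set.powersetCard.mem_range_ofFinEmbEquiv_symm_iff_mem s p).symm
    rw [h3, Finset.prod_map]
    rfl
  have hcoef : ∀ s : Set.powersetCard (Emb E × Fin n) (2 * i), B.repr x s ≠ 0 →
      ∀ γ ∈ U, ∏ φ : Emb E, ρ.ψ φ γ ^ multFun s.1 φ = ρ.χ γ ^ (i : ℤ) := by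
    intro s hs γ hγ
    have h1 := hU γ hγ
    have h2 : B.repr (((ρ.χ γ : F) ^ i) • exteriorPower.map (2 * i) (ρ.onH1 n γ) x) s
        = ((ρ.χ γ : F) ^ i) * ((∏ p ∈ s.1, ((ρ.ψ p.1 γ)⁻¹ : Fˣ).val) * B.repr x s) := by
      rw [map_smul, Finsupp.smul_apply, smul_eq_mul]
      congr 1
      have h3 : exteriorPower.map (2 * i) (ρ.onH1 n γ) x
          = ∑ t, B.repr x t • (∏ p ∈ t.1, ((ρ.ψ p.1 γ)⁻¹ : Fˣ).val) • B t := by
        conv_lhs => rw [← B.sum_repr x]
        rw [map_sum]
        apply Finset.sum_congr rfl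
        intro t _
        rw [map_smul, hmap]
      rw [h3, map_sum, Finsupp.finsetSum_apply]
      rw [Finset.sum_eq_single s]
      · simp only [map_smul, Basis.repr_self, Finsupp.smul_apply, smul_eq_mul,
          Finsupp.single_eq_same, mul_one]
        ring
      · intro t _ hts
        simp only [map_smul, Basis.repr_self, Finsupp.smul_apply, smul_eq_mul]
        rw [Finsupp.single_eq_of_ne (Ne.symm hts)]
        simp
      · intro h; exact absurd (Finset.mem_univ s) h
    rw [h1] at h2
    have h4 : ((ρ.χ γ : F) ^ i) * (∏ p ∈ s.1, ((ρ.ψ p.1 γ)⁻¹ : Fˣ).val) = 1 := by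
      have h5 : (((ρ.χ γ : F) ^ i) * (∏ p ∈ s.1, ((ρ.ψ p.1 γ)⁻¹ : Fˣ).val)) * B.repr x s
          = 1 * B.repr x s := by
        rw [mul_assoc, ← h2, one_mul]
      exact mul_right_cancel₀ hs h5
    have h6 : (∏ p ∈ s.1, ((ρ.ψ p.1 γ)⁻¹ : Fˣ).val) = ((∏ p ∈ s.1, ρ.ψ p.1 γ)⁻¹ : Fˣ).val := by
      rw [← Finset.prod_inv_distrib, Units.coe_prod]
    rw [h6, prod_psi_eq] at h4
    have h7 : (ρ.χ γ) ^ i * (∏ φ : Emb E, ρ.ψ φ γ ^ multFun s.1 φ)⁻¹ = 1 := by
      apply Units.ext
      rw [Units.val_mul, Units.val_pow_eq_pow_val, h4]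
      rfl
    rw [zpow_natCast]
    exact (mul_inv_eq_one.mp h7).symm
  have hbal : ∀ s : Set.powersetCard (Emb E × Fin n) (2 * i), B.repr x s ≠ 0 →
      ∀ φ : Emb E, multFun s.1 φ = multFun s.1 (conjEmb φ) := by
    intro s hs
    exact hcon s.1 (Set.powersetCard.mem_iff.mp s.2)
      ((ρ.weights (multFun s.1) i).mp ⟨U, hcoef s hs⟩)
  -- now every basis vector occurring in `x` lies in the divisor algebra
  have hxsum : (x : ExteriorAlgebra F (H1 E n F))
      = ∑ s, B.repr x s • ((B s : ⋀[F]^(2 * i) (H1 E n F)) : ExteriorAlgebra F (H1 E n F)) := by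
    conv_lhs => rw [← B.sum_repr x]
    rw [Submodule.coe_sum]
    rfl
  rw [hxsum]
  apply Subalgebra.sum_mem
  intro s _
  by_cases hs : B.repr x s = 0
  · rw [hs, zero_smul]
    exact Subalgebra.zero_mem _
  · apply Subalgebra.smul_mem
    -- the basis vector is a monomial
    let l : List (Emb E × Fin n) :=
      List.ofFn (fun k : Fin (2 * i) => Set.powersetCard.ofFinEmbEquiv.symm s k)
    have hBs : ((B s : ⋀[F]^(2 * i) (H1 E n F)) : ExteriorAlgebra F (H1 E n F)) = mono F l := by
      simp only [B, exteriorPower.basis_apply]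
      rw [exteriorPower.ιMulti_family_apply_coe]
      simp only [ExteriorAlgebra.ιMulti_family, ExteriorAlgebra.ιMulti_apply, mono, l,
        List.map_ofFn]
      congr 2
      funext k
      simp only [Function.comp_apply, ev, b, Pi.basisFun_apply]
    rw [hBs]
    have hlnodup : l.Nodup := by
      rw [List.nodup_ofFn]
      exact (Set.powersetCard.ofFinEmbEquiv.symm s).injective
    have hltoFinset : l.toFinset = s.1 := by
      ext p
      rw [List.mem_toFinset, List.mem_ofFn]
      exact Set.powersetCard.mem_range_ofFinEmbEquiv_symm_iff_mem s p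
    have hlperm : l.Perm s.1.toList := by
      rw [← hltoFinset]
      exact (List.toFinset_toList hlnodup).symm
    have hcount : ∀ φ, (l.map Prod.fst).count φ = (l.map Prod.fst).count (conjEmb φ) := by
      intro φ
      have e1 : ∀ ψ, ((l.map Prod.fst).count ψ : ℤ) = multFun s.1 ψ := by
        intro ψ
        rw [(hlperm.map Prod.fst).count_eq ψ]
        exact count_toList_map s.1 ψ
      have e2 := hbal s hs φ
      rw [← e1, ← e1] at e2
      exact_mod_cast e2
    exact mono_mem (F := F) conjEmb conjEmb_conjEmb conjEmb_ne Prod.fst (ρ.divisorAlgebra n)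
      (fun p q h => pair_mem_divisorAlgebra ρ hΦ p q h) l.length l rfl hcount

end exotic

end Pool.Agent.Lib.MP_640417_ag
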