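import Pool.Agent.Lib.MP_640417_ag.Exotic
import Pool.Agent.Lib.MP_640417_ag.SylowOrbit

/-!
# The lattice of relations of a CM type
-/

namespace Pool.Agent.Lib.MP_640417_ag

open NumberField Module

variable {E : Type} [Field E] [NumberField E]

/-- The integral sign vector of a set of embeddings. -/
noncomputable def sgnZ (Φ : Set (Emb E)) (φ : Emb E) : ℤ := by
  classical exact if φ ∈ Φ then 1 else -1

lemma sgnZ_eq_one_or (Φ : Set (Emb E)) (φ : Emb E) : sgnZ Φ φ = 1 ∨ sgnZ Φ φ = -1 := by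
  classical
  simp only [sgnZ]
  by_cases h : φ ∈ Φ <;> simp [h]

variable [IsCMField E] {Φ : Set (Emb E)}

lemma sgnZ_conj (hΦ : IsCMType Φ) (φ : Emb E) : sgnZ Φ (conjEmb φ) = - sgnZ Φ φ := by
  classical
  simp only [sgnZ]
  by_cases h2 : φ ∈ Φ
  · have := (hΦ φ).mp h2
    simp [h2, this]
  · have : conjEmb φ ∈ Φ := by
      by_contra h3
      exact h2 ((hΦ φ).mpr h3)
    simp [h2, this]

/-- The lattice of odd integral relations between the translates of the sign vector of `Φ`. -/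
noncomputable def relLattice (Φ : Set (Emb E)) : AddSubgroup (Emb E → ℤ) where
  carrier := {v | (∀ φ, v (conjEmb φ) = - v φ) ∧
    ∀ τ : AbsGal, ∑ φ, v φ * sgnZ Φ (galEmb τ φ) = 0}
  add_mem' := by
    rintro a b ⟨ha, ha'⟩ ⟨hb, hb'⟩
    refine ⟨fun s => ?_, fun γ => ?_⟩
    · simp only [Pi.add_apply, ha s, hb s]; ring
    · simp only [Pi.add_apply, add_mul, Finset.sum_add_distrib, ha' γ, hb' γ, add_zero]
  zero_mem' := by
    refine ⟨fun s => ?_, fun γ => ?_⟩
    · simp
    · simp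
  neg_mem' := by
    rintro a ⟨ha, ha'⟩
    refine ⟨fun s => ?_, fun γ => ?_⟩
    · simp only [Pi.neg_apply, ha s]
    · simp only [Pi.neg_apply, neg_mul, Finset.sum_neg_distrib, ha' γ, neg_zero]

lemma mem_relLattice (v : Emb E → ℤ) : v ∈ relLattice Φ ↔ (∀ φ, v (conjEmb φ) = - v φ) ∧
    ∀ τ : AbsGal, ∑ φ, v φ * sgnZ Φ (galEmb τ φ) = 0 := Iff.rfl

lemma relLattice_saturated (n : ℤ) (v : Emb E → ℤ) (hn : n ≠ 0) (h : n • v ∈ relLattice Φ) :
    v ∈ relLattice Φ := by
  obtain ⟨h1, h2⟩ := h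
  refine ⟨fun φ => ?_, fun τ => ?_⟩
  · have := h1 φ
    simp only [Pi.smul_apply, smul_eq_mul] at this
    have h3 : n * v (conjEmb φ) = n * (- v φ) := by rw [this]; ring
    exact mul_left_cancel₀ hn h3
  · have := h2 τ
    simp only [Pi.smul_apply, smul_eq_mul, mul_assoc, ← Finset.mul_sum] at this
    exact (mul_eq_zero.mp this).resolve_left hn

lemma galEmb_mul (σ τ : AbsGal) (φ : Emb E) : galEmb (σ * τ) φ = galEmb σ (galEmb τ φ) := rfl

lemma relLattice_stable (τ : AbsGal) (v : Emb E → ℤ) (hv : v ∈ relLattice Φ) :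
    (fun φ => v (galEmb τ φ)) ∈ relLattice Φ := by
  obtain ⟨h1, h2⟩ := hv
  refine ⟨fun φ => ?_, fun σ => ?_⟩
  · change v (galEmb τ (conjEmb φ)) = - v (galEmb τ φ)
    rw [galEmb_conjEmb]
    exact h1 _
  · rw [← h2 (σ * τ⁻¹)]
    have hbij : Function.Bijective (galEmb (E := E) τ) := by
      let act := galAction E
      exact MulAction.bijective (β := Emb E) τ
    apply Fintype.sum_bijective (galEmb τ) hbij
    intro φ
    have : galEmb (σ * τ⁻¹) (galEmb τ φ) = galEmb σ φ := by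
      rw [← galEmb_mul, mul_assoc, inv_mul_cancel, mul_one]
    rw [this]

/-- An exotic Tate class yields a nonzero relation. -/
lemma exists_relation {Γ : Type} [Group Γ] [TopologicalSpace Γ] {F : Type} [Field F]
    (ρ : CMGaloisRep Φ Γ F) (hΦ : IsCMType Φ) (n i : ℕ) (x : ExteriorAlgebra F (H1 E n F))
    (hx : ExoticTateClass (ρ.onH1 n) ρ.χ i x) : ∃ v ∈ relLattice Φ, v ≠ 0 := by
  classical
  obtain ⟨x', -, hx'⟩ := (exoticTateClass_iff ρ n i x).mp hx
  obtain ⟨s, hs, hw, φ₁, hφ₁⟩ := exists_of_isExotic ρ hΦ x' hx'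
  have hsum : ∀ τ : AbsGal, ∑ φ, multFun s φ * sgnZ Φ (galEmb τ φ) = 0 := by
    intro τ
    have e1 : ∀ φ, multFun s φ * sgnZ Φ (galEmb τ φ)
        = 2 * (Set.indicator {φ : Emb E | galEmb τ φ ∈ Φ} (multFun s) φ) - multFun s φ := by
      intro φ
      by_cases h : galEmb τ φ ∈ Φ
      · rw [Set.indicator_of_mem (by exact h)]
        simp only [sgnZ, h, if_true]
        ring
      · rw [Set.indicator_of_notMem (by exact h)]
        simp only [sgnZ, h, if_false]
        ring
    rw [Finset.sum_congr rfl (fun φ _ => e1 φ), Finset.sum_sub_distrib, ← Finset.mul_sum, hw τ]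
    have e2 : ∑ φ, multFun s φ = 2 * (i : ℤ) := by
      have e3 : ∑ φ : Emb E, (s.filter (fun p => p.1 = φ)).card = s.card := by
        symm
        exact Finset.card_eq_sum_card_fiberwise (fun p _ => Finset.mem_univ p.1)
      have e4 : ∑ φ, multFun s φ = ((∑ φ : Emb E, (s.filter (fun p => p.1 = φ)).card : ℕ) : ℤ) := by
        rw [Nat.cast_sum]
        apply Finset.sum_congr rfl
        intro φ _
        simp only [multFun]
      rw [e4, e3, hs]; push_cast; ring
    rw [e2]; ring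
  have hsum2 : ∀ τ : AbsGal, ∑ φ, multFun s (conjEmb φ) * sgnZ Φ (galEmb τ φ) = 0 := by
    intro τ
    have e1 : ∑ φ, multFun s (conjEmb φ) * sgnZ Φ (galEmb τ φ)
        = ∑ φ, multFun s φ * sgnZ Φ (galEmb τ (conjEmb φ)) := by
      have hbij : Function.Bijective (conjEmb (E := E)) :=
        Function.Involutive.bijective conjEmb_conjEmb
      apply Fintype.sum_bijective conjEmb hbij
      intro φ
      rw [conjEmb_conjEmb]
    rw [e1]
    have e2 : ∀ φ, multFun s φ * sgnZ Φ (galEmb τ (conjEmb φ))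
        = - (multFun s φ * sgnZ Φ (galEmb τ φ)) := by
      intro φ
      rw [galEmb_conjEmb, sgnZ_conj hΦ]; ring
    rw [Finset.sum_congr rfl (fun φ _ => e2 φ), Finset.sum_neg_distrib, hsum, neg_zero]
  refine ⟨fun φ => multFun s φ - multFun s (conjEmb φ), ⟨fun φ => ?_, fun τ => ?_⟩, ?_⟩
  · simp only [conjEmb_conjEmb]; ring
  · simp only [sub_mul]
    rw [Finset.sum_sub_distrib, hsum τ, hsum2 τ, sub_zero]
  · intro h
    have := congrFun h φ₁
    simp only [Pi.zero_apply] at this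
    apply hφ₁
    linarith

/-- The finite Galois group acting on the embeddings. -/
noncomputable def galGroup (E : Type) [Field E] [NumberField E] : Subgroup (Equiv.Perm (Emb E)) :=
  let _ := galAction E
  (MulAction.toPermHom AbsGal (Emb E)).range

omit [IsCMField E] in
lemma exists_of_galGroup (γ : galGroup E) : ∃ τ : AbsGal, ∀ φ : Emb E, γ • φ = galEmb τ φ := by
  obtain ⟨τ, hτ⟩ := γ.2
  refine ⟨τ, fun φ => ?_⟩
  have : (γ.1 : Equiv.Perm (Emb E)) φ = galEmb τ φ := by
    rw [← hτ]; rfl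
  exact this

omit [IsCMField E] in
lemma isPretransitive_galGroup : MulAction.IsPretransitive (galGroup E) (Emb E) := by
  refine ⟨fun φ ψ => ?_⟩
  obtain ⟨τ, hτ⟩ := exists_galEmb_eq φ ψ
  let act := galAction E
  exact ⟨⟨MulAction.toPermHom AbsGal (Emb E) τ, ⟨τ, rfl⟩⟩, hτ⟩

end Pool.Agent.Lib.MP_640417_ag
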