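import Pool.Agent.Lib.MP_640417_ag.FpCount

/-!
# Orbits of a subgroup and a central involution
-/

namespace Pool.Agent.Lib.MP_640417_ag

open Module

section general

/-- Sums of invariant functions in terms of a transversal. -/
lemma sum_eq_two_mul_of_transversal {A R : Type*} [Fintype A] [CommRing R] (c : A → A)
    (hc : ∀ s, c (c s) = s) (X : Finset A) (hX : ∀ s, s ∈ X ↔ c s ∉ X) (F : A → R)
    (hF : ∀ s, F (c s) = F s) : ∑ s, F s = 2 * ∑ s ∈ X, F s := by
  classical
  have h1 : ∑ s ∈ Xᶜ, F s = ∑ s ∈ X, F s := by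
    apply Finset.sum_nbij' c c
    · intro s hs
      rw [Finset.mem_compl] at hs
      by_contra h
      exact hs ((hX s).mpr h)
    · intro s hs
      rw [Finset.mem_compl]
      exact (hX s).mp hs
    · intro s _
      exact hc s
    · intro s _
      exact hc s
    · intro s _
      rw [hF]
  rw [← Finset.sum_add_sum_compl X, h1, ← two_mul]

/-- Few subsets of a set with `p` elements have twice a given number of elements modulo `p`. -/
lemma card_powerset_mod_le (p : ℕ) [Fact p.Prime] (hp : p ≠ 2) {A : Type*} [DecidableEq A]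
    (T : Finset A) (hT : T.card = p) (x : ZMod p) :
    (T.powerset.filter (fun B => ((2 * B.card : ℕ) : ZMod p) = x)).card ≤ p.choose (p / 2) := by
  have hp3 : 3 ≤ p := by
    have := (Fact.out : p.Prime).two_le
    omega
  by_cases h : ∃ B ∈ T.powerset.filter (fun B => ((2 * B.card : ℕ) : ZMod p) = x),
      B.card ≠ 0 ∧ B.card ≠ p
  · obtain ⟨B₀, hB₀, h0, h1⟩ := h
    rw [Finset.mem_filter, Finset.mem_powerset] at hB₀
    have hB₀p : B₀.card ≤ p := hT ▸ Finset.card_le_card hB₀.1
    have hsub : T.powerset.filter (fun B => ((2 * B.card : ℕ) : ZMod p) = x)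
        ⊆ T.powersetCard B₀.card := by
      intro B hB
      rw [Finset.mem_filter, Finset.mem_powerset] at hB
      rw [Finset.mem_powersetCard]
      refine ⟨hB.1, ?_⟩
      have hBp : B.card ≤ p := hT ▸ Finset.card_le_card hB.1
      have h2 : ((2 * B.card : ℕ) : ZMod p) = ((2 * B₀.card : ℕ) : ZMod p) := by
        rw [hB.2, hB₀.2]
      push_cast at h2
      have h3 : ((B.card : ℕ) : ZMod p) = ((B₀.card : ℕ) : ZMod p) :=
        mul_left_cancel₀ (two_ne_zero' (p := p) hp) h2
      rw [ZMod.natCast_eq_natCast_iff'] at h3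
      rw [Nat.mod_eq_of_lt (a := B₀.card) (by omega)] at h3
      rcases Nat.lt_or_ge B.card p with h4 | h4
      · rw [Nat.mod_eq_of_lt h4] at h3
        exact h3
      · have h5 : B.card = p := le_antisymm hBp h4
        rw [h5, Nat.mod_self] at h3
        exact absurd h3.symm h0
    calc _ ≤ (T.powersetCard B₀.card).card := Finset.card_le_card hsub
      _ = p.choose B₀.card := by rw [Finset.card_powersetCard, hT]
      _ ≤ p.choose (p / 2) := Nat.choose_le_middle _ _
  · push Not at h
    have hsub : T.powerset.filter (fun B => ((2 * B.card : ℕ) : ZMod p) = x) ⊆ {∅, T} := by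
      intro B hB
      have h1 := h B hB
      rw [Finset.mem_filter, Finset.mem_powerset] at hB
      rw [Finset.mem_insert, Finset.mem_singleton]
      by_cases h2 : B.card = 0
      · left
        exact Finset.card_eq_zero.mp h2
      · right
        apply Finset.eq_of_subset_of_card_le hB.1
        rw [hT, h1 h2]
    calc _ ≤ ({∅, T} : Finset (Finset A)).card := Finset.card_le_card hsub
      _ ≤ 2 := Finset.card_le_two
      _ ≤ p.choose 1 := by rw [Nat.choose_one_right]; omega
      _ ≤ p.choose (p / 2) := Nat.choose_le_middle _ _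

end general

section orbits

variable {S : Type*} [Fintype S] {G : Type*} [Group G] [MulAction G S]

/-- The class of a point modulo a subgroup. -/
def mkQ (B : Subgroup G) (s : S) : MulAction.orbitRel.Quotient B S := Quotient.mk _ s

omit [Fintype S] in
lemma mkQ_eq_iff (B : Subgroup G) (x y : S) : mkQ B x = mkQ B y ↔ ∃ ν ∈ B, ν • y = x := by
  constructor
  · intro h
    obtain ⟨ν, hν⟩ := Quotient.exact h
    exact ⟨ν, ν.2, hν⟩
  · rintro ⟨ν, hν, h⟩
    apply Quotient.sound
    exact ⟨⟨ν, hν⟩, h⟩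

omit [Fintype S] in
lemma mkQ_surjective (B : Subgroup G) : Function.Surjective (mkQ (S := S) B) :=
  fun q => Quotient.exists_rep q

/-- The action of a central element on the classes. -/
def actQ (B : Subgroup G) (z : G) (hz : ∀ γ : G, γ * z = z * γ) :
    MulAction.orbitRel.Quotient B S → MulAction.orbitRel.Quotient B S :=
  Quotient.map (fun s => z • s) (by
    rintro x y ⟨ν, hν⟩
    refine ⟨ν, ?_⟩
    change (ν : G) • z • y = z • x
    have hν' : (ν : G) • y = x := hν
    rw [← mul_smul, hz, mul_smul, hν'])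

omit [Fintype S] in
lemma actQ_mkQ (B : Subgroup G) (z : G) (hz : ∀ γ : G, γ * z = z * γ) (s : S) :
    actQ B z hz (mkQ B s) = mkQ B (z • s) := rfl

omit [Fintype S] in
lemma actQ_actQ (B : Subgroup G) (z : G) (hz : ∀ γ : G, γ * z = z * γ) (hz2 : z * z = 1)
    (q : MulAction.orbitRel.Quotient B S) : actQ B z hz (actQ B z hz q) = q := by
  obtain ⟨s, rfl⟩ := mkQ_surjective B q
  rw [actQ_mkQ, actQ_mkQ, ← mul_smul, hz2, one_smul]

omit [Fintype S] in
lemma mkQ_smul_iff (N : Subgroup G) [hN : N.Normal] (γ : G) (x y : S) :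
    mkQ N (γ • x) = mkQ N (γ • y) ↔ mkQ N x = mkQ N y := by
  rw [mkQ_eq_iff, mkQ_eq_iff]
  constructor
  · rintro ⟨ν, hν, h⟩
    refine ⟨γ⁻¹ * ν * γ, ?_, ?_⟩
    · have := hN.conj_mem ν hν γ⁻¹
      rwa [inv_inv] at this
    · rw [mul_smul, mul_smul, h, inv_smul_smul]
  · rintro ⟨ν, hν, h⟩
    refine ⟨γ * ν * γ⁻¹, hN.conj_mem ν hν γ, ?_⟩
    rw [mul_smul, mul_smul, inv_smul_smul, h]

omit [Fintype S] in
/-- For a `p`-group, `p` odd, a point and its image under `z` are in different orbits. -/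
lemma mkQ_ne_of_isPGroup {p : ℕ} [Fact p.Prime] (hp : p ≠ 2) (D : Subgroup G) (hD : IsPGroup p D)
    (z : G) (hz : ∀ γ : G, γ * z = z * γ) (hz2 : z * z = 1) (hzs : ∀ s : S, z • s ≠ s) (s : S) :
    mkQ D (z • s) ≠ mkQ D s := by
  intro h
  obtain ⟨ν, hν, hνs⟩ := (mkQ_eq_iff D _ _).mp h
  have h1 : ν ^ 2 • s = s := by
    rw [pow_two, mul_smul, hνs, ← mul_smul, hz, mul_smul, hνs, ← mul_smul, hz2, one_smul]
  obtain ⟨k, hk⟩ := hD ⟨ν, hν⟩
  have hk1 : ν ^ p ^ k = 1 := by
    have := congrArg (fun x : D => (x : G)) hk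
    simpa using this
  have h2 : Nat.Coprime 2 (orderOf ν) := by
    apply Nat.Coprime.coprime_dvd_right (orderOf_dvd_of_pow_eq_one hk1)
    apply Nat.Coprime.pow_right
    exact (Nat.coprime_primes Nat.prime_two Fact.out).mpr (Ne.symm hp)
  obtain ⟨m, hm⟩ := exists_pow_eq_self_of_coprime h2
  have h3 : ν ^ 2 ∈ MulAction.stabilizer G s := h1
  have h4 := (MulAction.stabilizer G s).pow_mem h3 m
  rw [hm] at h4
  have h5 : ν • s = s := h4
  exact hzs s (hνs.symm.trans h5)

/-- The number of odd `B`-invariant functions. -/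
lemma ncard_odd_invariant_le {p : ℕ} [Fact p.Prime] (B : Subgroup G) (z : G)
    (hz : ∀ γ : G, γ * z = z * γ) (T : Finset (MulAction.orbitRel.Quotient B S))
    (hT : ∀ q, q ∈ T ↔ actQ B z hz q ∉ T) :
    {u : S → ZMod p | (∀ s, u (z • s) = - u s) ∧ ∀ ν ∈ B, ∀ s, u (ν • s) = u s}.ncard
      ≤ p ^ T.card := by
  classical
  have hrep : ∀ q : MulAction.orbitRel.Quotient B S, ∃ s, mkQ B s = q := mkQ_surjective B
  choose rep hrep using hrep
  have hinj : Set.InjOn (fun (u : S → ZMod p) (q : T) => u (rep q))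
      {u : S → ZMod p | (∀ s, u (z • s) = - u s) ∧ ∀ ν ∈ B, ∀ s, u (ν • s) = u s} := by
    rintro u ⟨hu1, hu2⟩ v ⟨hv1, hv2⟩ h
    have hcu : ∀ x y, mkQ B x = mkQ B y → u x = u y := by
      intro x y hxy
      obtain ⟨ν, hν, rfl⟩ := (mkQ_eq_iff B _ _).mp hxy
      exact hu2 ν hν y
    have hcv : ∀ x y, mkQ B x = mkQ B y → v x = v y := by
      intro x y hxy
      obtain ⟨ν, hν, rfl⟩ := (mkQ_eq_iff B _ _).mp hxy
      exact hv2 ν hν y
    have h1 : ∀ s, mkQ B s ∈ T → u s = v s := by
      intro s hs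
      have h2 := congrFun h ⟨mkQ B s, hs⟩
      simp only at h2
      rw [hcu s _ (hrep _).symm, hcv s _ (hrep _).symm]
      exact h2
    funext s
    by_cases hs : mkQ B s ∈ T
    · exact h1 s hs
    · have h2 : mkQ B (z • s) ∈ T := by
        rw [← actQ_mkQ B z hz]
        by_contra h3
        exact hs ((hT _).mpr h3)
      have h3 := h1 _ h2
      rw [hu1, hv1] at h3
      exact neg_injective h3
  calc _ ≤ (Set.univ : Set (T → ZMod p)).ncard :=
        Set.ncard_le_ncard_of_injOn _ (fun _ _ => Set.mem_univ _) hinj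
    _ = p ^ T.card := by
        rw [Set.ncard_univ, Nat.card_eq_fintype_card, Fintype.card_fun, ZMod.card]
        simp

end orbits

end Pool.Agent.Lib.MP_640417_ag
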