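import Pool.Agent.Lib.MP_640417_ag.CosBound
import Pool.Agent.Lib.MP_640417_ag.FpCount
import Pool.Agent.Lib.MP_640417_ag.FpOrbits

/-!
# Sign functions orthogonal modulo `p` to a stable space of odd functions

A finite group `G` acts transitively on the finite set `S` of `2 g` points, `z` is a central
element of order two without fixed points, and `W` is a `G`-stable space of odd functions
`S → ZMod p` of dimension `D`. The number of sign functions orthogonal to `W` is at most
`2 ^ g * κ ^ D`, where `κ` is the mean of `|cos (2 π t / p)| ^ a` over the residues and `a D ≤ g`.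
-/

namespace Pool.Agent.Lib.MP_640417_ag

open Module Finset

/-- A space of functions has a base: a set of points such that the restriction is bijective. -/
lemma exists_base {K : Type*} [Field K] {S : Type*} [Finite S] (W : Submodule K (S → K)) :
    ∃ t : Fin (finrank K W) → S, Function.Bijective (fun (w : W) i => (w : S → K) (t i)) := by
  classical
  have : Fintype S := Fintype.ofFinite S
  let v : S → Dual K W := fun s => (LinearMap.proj s).comp W.subtype
  obtain ⟨b, hb, hspan, hli⟩ := exists_linearIndependent K (Set.range v)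
  have hbfin : b.Finite := (Set.finite_range v).subset hb
  have : Fintype b := hbfin.fintype
  have hinj0 : ∀ w : W, (∀ k ∈ b, k w = 0) → w = 0 := by
    intro w hw
    have key : ∀ k ∈ Submodule.span K b, k w = 0 := by
      intro k hk
      induction hk using Submodule.span_induction with
      | mem x hx => exact hw x hx
      | zero => rfl
      | add x y _ _ hx hy => simp only [LinearMap.add_apply, hx, hy, add_zero]
      | smul a x _ hx => simp only [LinearMap.smul_apply, hx, smul_zero]
    apply Subtype.ext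
    funext s
    exact key (v s) (by rw [hspan]; exact Submodule.subset_span ⟨s, rfl⟩)
  have hle : Fintype.card b ≤ finrank K W := by
    have h := hli.fintype_card_le_finrank
    rwa [Subspace.dual_finrank_eq] at h
  have hge : finrank K W ≤ Fintype.card b := by
    let L : W →ₗ[K] (b → K) := LinearMap.pi (fun k => (k : Dual K W))
    have hL : Function.Injective L := by
      rw [← LinearMap.ker_eq_bot, LinearMap.ker_eq_bot']
      intro w hw
      apply hinj0
      intro k hk
      exact congrFun hw ⟨k, hk⟩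
    have := LinearMap.finrank_le_finrank_of_injective hL
    simpa using this
  have hcard : Fintype.card (Fin (finrank K W)) = Fintype.card b := by
    rw [Fintype.card_fin]
    omega
  let eqv : Fin (finrank K W) ≃ b := Fintype.equivOfCardEq hcard
  choose pt hpt using fun k : b => hb k.2
  refine ⟨fun i => pt (eqv i), ?_⟩
  let L : W →ₗ[K] (Fin (finrank K W) → K) := LinearMap.pi (fun i => v (pt (eqv i)))
  have hL : Function.Injective L := by
    rw [← LinearMap.ker_eq_bot, LinearMap.ker_eq_bot']
    intro w hw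
    apply hinj0
    intro k hk
    have h1 := congrFun hw (eqv.symm ⟨k, hk⟩)
    have h2 : v (pt (eqv (eqv.symm ⟨k, hk⟩))) = k := by
      rw [Equiv.apply_symm_apply, hpt]
    change v (pt (eqv (eqv.symm ⟨k, hk⟩))) w = 0 at h1
    rwa [h2] at h1
  have hS : Function.Surjective L := by
    rw [← LinearMap.injective_iff_surjective_of_finrank_eq_finrank (by simp)]
    exact hL
  exact ⟨hL, hS⟩

section pack

variable {S : Type*} [Fintype S] {G : Type*} [Group G] [Fintype G] [MulAction G S]
  [MulAction.IsPretransitive G S]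

/-- Products over an orbit map. -/
lemma prod_orbit_pow {M : Type*} [CommMonoid M] (h : S → M) (t : S) :
    (∏ γ : G, h (γ • t)) ^ Fintype.card S = (∏ s, h s) ^ Fintype.card G := by
  have h1 : ∀ t' : S, ∏ γ : G, h (γ • t') = ∏ γ : G, h (γ • t) := by
    intro t'
    obtain ⟨δ, hδ⟩ := MulAction.exists_smul_eq G t t'
    rw [← hδ]
    apply Fintype.prod_equiv (Equiv.mulRight δ)
    intro γ
    simp [mul_smul]
  have h2 : ∏ t' : S, ∏ γ : G, h (γ • t') = (∏ γ : G, h (γ • t)) ^ Fintype.card S := by
    rw [Finset.prod_congr rfl (fun t' _ => h1 t'), Finset.prod_const, Finset.card_univ]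
  have h3 : ∏ t' : S, ∏ γ : G, h (γ • t') = (∏ s, h s) ^ Fintype.card G := by
    rw [Finset.prod_comm]
    have h4 : ∀ γ : G, ∏ t' : S, h (γ • t') = ∏ s, h s := fun γ =>
      Fintype.prod_equiv (MulAction.toPerm γ) _ _ (fun s => rfl)
    rw [Finset.prod_congr rfl (fun γ _ => h4 γ), Finset.prod_const, Finset.card_univ]
  rw [← h2, h3]

/-- The arithmetic and geometric mean inequality over the translates of a base. -/
lemma prod_le_mean {D : ℕ} (hD : 0 < D) (t : Fin D → S) (h : S → ℝ) (h0 : ∀ s, 0 ≤ h s)
    (h1 : ∀ s, h s ≤ 1) (X : Finset S) (hX : (∏ s, h s) = (∏ x ∈ X, h x) ^ 2)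
    (hS : Fintype.card S = 2 * X.card) (hS0 : 0 < X.card) (a : ℝ) (ha : 0 ≤ a)
    (haD : a * D ≤ X.card) :
    ∏ x ∈ X, h x ≤ (∑ γ : G, ∏ i, h (γ • t i) ^ a) / Fintype.card G := by
  classical
  have hG0 : (0 : ℝ) < Fintype.card G := by exact_mod_cast Fintype.card_pos
  have hD0 : (0 : ℝ) < D := by exact_mod_cast hD
  have hg0 : (0 : ℝ) < X.card := by exact_mod_cast hS0
  set P : G → ℝ := fun γ => ∏ i, h (γ • t i) with hP
  have hP0 : ∀ γ, 0 ≤ P γ := fun γ => Finset.prod_nonneg (fun i _ => h0 _)
  have hP1 : ∀ γ, P γ ≤ 1 := fun γ => Finset.prod_le_one (fun i _ => h0 _) (fun i _ => h1 _)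
  set Q : ℝ := ∏ γ : G, P γ with hQ
  have hQ0 : 0 ≤ Q := Finset.prod_nonneg (fun γ _ => hP0 γ)
  set R : ℝ := ∏ x ∈ X, h x with hR
  have hR0 : 0 ≤ R := Finset.prod_nonneg (fun x _ => h0 x)
  -- the identity
  have hid : Q ^ (2 * X.card) = R ^ (2 * (Fintype.card G * D)) := by
    have h2 : Q = ∏ i, ∏ γ : G, h (γ • t i) := by
      rw [hQ]
      simp only [hP]
      rw [Finset.prod_comm]
    rw [h2, ← hS, ← Finset.prod_pow]
    have h3 : ∀ i, (∏ γ : G, h (γ • t i)) ^ Fintype.card S = R ^ (2 * Fintype.card G) := by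
      intro i
      rw [prod_orbit_pow, hX, ← pow_mul]
    rw [Finset.prod_congr rfl (fun i _ => h3 i), Finset.prod_const, Finset.card_univ,
      Fintype.card_fin, ← pow_mul]
    congr 1
    ring
  set b : ℝ := X.card / D with hb
  have hb0 : 0 < b := by positivity
  have hRQ : R = Q ^ (b / Fintype.card G) := by
    have hN : (2 * (Fintype.card G * D) : ℕ) ≠ 0 := by positivity
    have h2 : (Q ^ (b / Fintype.card G)) ^ (2 * (Fintype.card G * D)) = R ^ (2 * (Fintype.card G * D)) := by
      rw [← hid, ← Real.rpow_natCast, ← Real.rpow_mul hQ0, ← Real.rpow_natCast Q (2 * X.card)]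
      congr 1
      rw [hb]
      push_cast
      field_simp
    exact ((pow_left_inj₀ (Real.rpow_nonneg hQ0 _) hR0 hN).mp h2).symm
  have hgm := Real.geom_mean_le_arith_mean_weighted (Finset.univ : Finset G)
    (fun _ => (1 : ℝ) / Fintype.card G) (fun γ => P γ ^ b) (fun _ _ => by positivity)
    (by rw [Finset.sum_const, Finset.card_univ, nsmul_eq_mul]; field_simp)
    (fun γ _ => Real.rpow_nonneg (hP0 γ) _)
  have h4 : ∏ γ : G, (P γ ^ b) ^ ((1 : ℝ) / Fintype.card G) = R := by
    rw [hRQ, hQ, ← Real.finsetProd_rpow _ _ (fun γ _ => hP0 γ)]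
    apply Finset.prod_congr rfl
    intro γ _
    rw [← Real.rpow_mul (hP0 γ)]
    congr 1
    ring
  rw [h4] at hgm
  refine hgm.trans ?_
  rw [Finset.sum_div]
  apply Finset.sum_le_sum
  intro γ _
  rw [one_div, inv_mul_eq_div]
  apply div_le_div_of_nonneg_right _ hG0.le
  have h5 : ∏ i, h (γ • t i) ^ a = P γ ^ a := by
    rw [hP]
    exact Real.finsetProd_rpow _ _ (fun i _ => h0 _) a
  rw [h5]
  apply Real.rpow_le_rpow_of_exponent_ge' (hP0 γ) (hP1 γ) ha
  rw [hb, le_div_iff₀ hD0]
  exact haD

end pack

section count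

variable {S : Type*} [Fintype S] {p : ℕ} [hp : Fact p.Prime]

omit [Fintype S] hp in
lemma addChar_map_sum {A M ι : Type*} [AddCommMonoid A] [CommMonoid M] (ψ : AddChar A M)
    (T : Finset ι) (f : ι → A) : ψ (∑ i ∈ T, f i) = ∏ i ∈ T, ψ (f i) := by
  classical
  induction T using Finset.induction_on with
  | empty => simp
  | insert j T hj ih => rw [Finset.sum_insert hj, Finset.prod_insert hj, AddChar.map_add_eq_mul, ih]

/-- The Fourier formula for the number of sign patterns orthogonal to a space. -/
lemma card_mul_card_le [DecidableEq S] (X : Finset S)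
    (W : Submodule (ZMod p) (S → ZMod p)) (Good : Finset (Finset S))
    (hGood' : ∀ A, A ∈ Good ↔ A ⊆ X ∧ ∀ w ∈ W, ∑ x ∈ A, w x - ∑ x ∈ X \ A, w x = 0) :
    (Good.card : ℝ) * Nat.card W
      ≤ 2 ^ X.card * ∑ᶠ w : W, ∏ x ∈ X, cosAbs p ((w : S → ZMod p) x) := by
  classical
  have hfinW : Finite W := Subtype.finite
  have : Fintype W := Fintype.ofFinite W
  rw [Nat.card_eq_fintype_card, finsum_eq_sum_of_fintype]
  -- the linear functional of a set
  let ℓ : Finset S → W →+ ZMod p := fun A =>
    { toFun := fun w => ∑ x ∈ A, (w : S → ZMod p) x - ∑ x ∈ X \ A, (w : S → ZMod p) x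
      map_zero' := by simp
      map_add' := by
        intro v w
        simp only [Submodule.coe_add, Pi.add_apply, Finset.sum_add_distrib]
        ring }
  have hgood : ∀ A : Finset S, (∀ w ∈ W, ∑ x ∈ A, w x - ∑ x ∈ X \ A, w x = 0) →
      ∑ w : W, (ZMod.stdAddChar (ℓ A w) : ℂ) = Fintype.card W := by
    intro A hA
    have h1 : ∀ w : W, (ZMod.stdAddChar (ℓ A w) : ℂ) = 1 := by
      intro w
      have : ℓ A w = 0 := hA w w.2
      rw [this, AddChar.map_zero_eq_one]
    rw [Finset.sum_congr rfl (fun w _ => h1 w)]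
    simp
  have hbad : ∀ A : Finset S, ¬ (∀ w ∈ W, ∑ x ∈ A, w x - ∑ x ∈ X \ A, w x = 0) →
      ∑ w : W, (ZMod.stdAddChar (ℓ A w) : ℂ) = 0 := by
    intro A hA
    push Not at hA
    obtain ⟨w, hw, hw0⟩ := hA
    have h1 : (ZMod.stdAddChar (N := p)).compAddMonoidHom (ℓ A) ≠ 1 := by
      intro h
      have h2 := (ZMod.isPrimitive_stdAddChar p) hw0
      apply h2
      ext u
      have h3 : ((ZMod.stdAddChar (N := p)).compAddMonoidHom (ℓ A)) (u • (⟨w, hw⟩ : W)) = 1 := by
        rw [h]
        rfl
      rw [AddChar.compAddMonoidHom_apply] at h3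
      have h4 : ℓ A (u • (⟨w, hw⟩ : W)) = (∑ x ∈ A, w x - ∑ x ∈ X \ A, w x) * u := by
        change ∑ x ∈ A, (u • w) x - ∑ x ∈ X \ A, (u • w) x = _
        simp only [Pi.smul_apply, smul_eq_mul, ← Finset.mul_sum]
        ring
      rw [h4] at h3
      rw [AddChar.mulShift_apply, AddChar.one_apply]
      exact h3
    exact AddChar.sum_eq_zero_of_ne_one h1
  have hGood : Good = X.powerset.filter (fun A => ∀ w ∈ W, ∑ x ∈ A, w x - ∑ x ∈ X \ A, w x = 0) := by
    ext A
    rw [hGood', Finset.mem_filter, Finset.mem_powerset]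
  have h1 : ((Good.card : ℂ)) * Fintype.card W
      = ∑ A ∈ X.powerset, ∑ w : W, (ZMod.stdAddChar (ℓ A w) : ℂ) := by
    rw [← Finset.sum_filter_add_sum_filter_not X.powerset
      (fun A => ∀ w ∈ W, ∑ x ∈ A, w x - ∑ x ∈ X \ A, w x = 0)]
    rw [Finset.sum_congr rfl (fun A hA => hgood A (Finset.mem_filter.mp hA).2)]
    rw [Finset.sum_congr rfl (fun A hA => hbad A (Finset.mem_filter.mp hA).2)]
    rw [Finset.sum_const, nsmul_eq_mul, Finset.sum_const_zero, add_zero, ← hGood]
  have h2 : ∑ A ∈ X.powerset, ∑ w : W, (ZMod.stdAddChar (ℓ A w) : ℂ)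
      = ∑ w : W, ∏ x ∈ X, ((ZMod.stdAddChar ((w : S → ZMod p) x) : ℂ)
        + ZMod.stdAddChar (-((w : S → ZMod p) x))) := by
    rw [Finset.sum_comm]
    apply Finset.sum_congr rfl
    intro w _
    rw [Finset.prod_add]
    apply Finset.sum_congr rfl
    intro A _
    rw [← addChar_map_sum, ← addChar_map_sum, ← AddChar.map_add_eq_mul]
    congr 1
    change ∑ x ∈ A, (w : S → ZMod p) x - ∑ x ∈ X \ A, (w : S → ZMod p) x = _
    rw [Finset.sum_neg_distrib]
    ring
  have h3 : ‖((Good.card : ℂ)) * Fintype.card W‖ = (Good.card : ℝ) * Fintype.card W := by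
    rw [norm_mul, Complex.norm_natCast, Complex.norm_natCast]
  rw [← h3, h1, h2]
  refine (norm_sum_le _ _).trans ?_
  rw [Finset.mul_sum]
  apply Finset.sum_le_sum
  intro w _
  rw [norm_prod]
  rw [Finset.prod_congr rfl (fun x _ => (cosAbs_eq_norm ((w : S → ZMod p) x)).symm),
    Finset.prod_mul_distrib, Finset.prod_const]

variable {G : Type*} [Group G] [Finite G] [MulAction G S] [MulAction.IsPretransitive G S]

/-- **Counting sign functions orthogonal to a stable space modulo `p`.** -/
theorem ncard_orth_le (hp2 : p ≠ 2) (z : G) (hzz : ∀ s : S, z • z • s = s)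
    (X : Finset S) (hX : ∀ s, s ∈ X ↔ z • s ∉ X)
    (W : Submodule (ZMod p) (S → ZMod p)) (hWodd : ∀ w ∈ W, ∀ s, w (z • s) = - w s)
    (hWG : ∀ w ∈ W, ∀ γ : G, (fun s => w (γ • s)) ∈ W) (a : ℝ) (ha : 0 ≤ a)
    (haD : a * finrank (ZMod p) W ≤ X.card) :
    ({e : S → ℤ | IsSgn z e ∧ ∀ w ∈ W, ∑ s, w s * (e s : ZMod p) = 0}.ncard : ℝ)
      ≤ 2 ^ X.card * cosAvg p a ^ finrank (ZMod p) W := by
  classical
  have : Fintype G := Fintype.ofFinite G
  have hp0 : (0 : ℝ) < p := by exact_mod_cast hp.out.pos
  have hcardS := two_mul_card_transversal (fun s : S => z • s) hzz X hX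
  have hfinW : Finite W := Subtype.finite
  have : Fintype W := Fintype.ofFinite W
  set Good := X.powerset.filter (fun A => ∀ w ∈ W, ∑ x ∈ A, w x - ∑ x ∈ X \ A, w x = 0)
    with hGood
  -- the injection
  have hinj : {e : S → ℤ | IsSgn z e ∧ ∀ w ∈ W, ∑ s, w s * (e s : ZMod p) = 0}.ncard
      ≤ Good.card := by
    rw [← Set.ncard_coe_finset]
    apply Set.ncard_le_ncard_of_injOn (fun e => X.filter (fun x => e x = 1))
    · rintro e ⟨he, hw⟩
      rw [Finset.mem_coe, hGood, Finset.mem_filter, Finset.mem_powerset]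
      refine ⟨Finset.filter_subset _ _, fun w hwW => ?_⟩
      have h1 := hw w hwW
      rw [sum_eq_two_mul_of_transversal (fun s : S => z • s) hzz X hX _ (by
        intro s
        rw [hWodd w hwW, he.2]
        push_cast
        ring)] at h1
      have h2 : (2 : ZMod p) ≠ 0 := two_ne_zero' (p := p) hp2
      have h3 := (mul_eq_zero.mp h1).resolve_left h2
      rw [← h3, ← Finset.sum_filter_add_sum_filter_not X (fun x => e x = 1)
        (fun x => w x * (e x : ZMod p)), sub_eq_add_neg]
      congr 1
      · apply Finset.sum_congr rfl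
        intro x hx
        rw [(Finset.mem_filter.mp hx).2]
        push_cast
        ring
      · rw [← Finset.sum_neg_distrib]
        have h4 : X \ X.filter (fun x => e x = 1) = X.filter (fun x => ¬ e x = 1) := by
          ext x
          simp only [Finset.mem_sdiff, Finset.mem_filter]
          tauto
        rw [h4]
        apply Finset.sum_congr rfl
        intro x hx
        have h5 := (he.1 x).resolve_left (Finset.mem_filter.mp hx).2
        rw [h5]
        push_cast
        ring
    · rintro e ⟨he, -⟩ e' ⟨he', -⟩ hee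
      have key : ∀ x ∈ X, e x = e' x := by
        intro x hx
        have h1 : x ∈ X.filter (fun x => e x = 1) ↔ x ∈ X.filter (fun x => e' x = 1) := by
          rw [show X.filter (fun x => e x = 1) = X.filter (fun x => e' x = 1) from hee]
        simp only [Finset.mem_filter, hx, true_and] at h1
        rcases he.1 x with h | h <;> rcases he'.1 x with h' | h' <;> rw [h, h'] at h1 ⊢ <;>
          norm_num at h1
      funext s
      by_cases hs : s ∈ X
      · exact key s hs
      · have h1 : z • s ∈ X := by
          by_contra h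
          exact hs ((hX s).mpr h)
        have h2 := key _ h1
        rw [he.2, he'.2] at h2
        linarith
  have hinj' : ({e : S → ℤ | IsSgn z e ∧ ∀ w ∈ W, ∑ s, w s * (e s : ZMod p) = 0}.ncard : ℝ)
      ≤ (Good.card : ℝ) := by exact_mod_cast hinj
  refine hinj'.trans ?_
  rcases Nat.eq_zero_or_pos (finrank (ZMod p) W) with hD | hD
  · rw [hD, pow_zero, mul_one]
    have h1 : Good.card ≤ 2 ^ X.card := by
      calc Good.card ≤ X.powerset.card := Finset.card_filter_le _ _
        _ = _ := Finset.card_powerset X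
    exact_mod_cast h1
  · have hmain := card_mul_card_le (p := p) X W Good (by
      intro A
      rw [hGood, Finset.mem_filter, Finset.mem_powerset])
    rw [finsum_eq_sum_of_fintype, Nat.card_eq_fintype_card] at hmain
    have hWcard : Fintype.card W = p ^ finrank (ZMod p) W := by
      rw [Module.card_eq_pow_finrank (K := ZMod p) (V := W), ZMod.card]
    have hXpos : 0 < X.card := by
      obtain ⟨t, -⟩ := exists_base W
      have hne : Nonempty S := ⟨t ⟨0, hD⟩⟩
      have : 0 < Fintype.card S := Fintype.card_pos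
      omega
    obtain ⟨t, ht⟩ := exists_base W
    have hG0 : (0 : ℝ) < Fintype.card G := by exact_mod_cast Fintype.card_pos
    -- the sum over `W` of the products over one base
    have hbase : ∀ γ : G, ∑ w : W, ∏ i, cosAbs p ((w : S → ZMod p) (γ • t i)) ^ a
        = (∑ u : ZMod p, cosAbs p u ^ a) ^ finrank (ZMod p) W := by
      intro γ
      let f : W → W := fun w => ⟨fun s => (w : S → ZMod p) (γ • s), hWG w w.2 γ⟩
      have hf : Function.Bijective f := by
        rw [← Finite.injective_iff_bijective]
        intro v w hvw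
        apply Subtype.ext
        funext s
        have h1 := congrFun (congrArg Subtype.val hvw) (γ⁻¹ • s)
        simpa [f] using h1
      have h1 : ∑ w : W, ∏ i, cosAbs p ((w : S → ZMod p) (γ • t i)) ^ a
          = ∑ w : W, ∏ i, cosAbs p ((w : S → ZMod p) (t i)) ^ a :=
        Fintype.sum_bijective f hf _ _ (fun w => rfl)
      have h2 : ∑ w : W, ∏ i, cosAbs p ((w : S → ZMod p) (t i)) ^ a
          = ∑ y : Fin (finrank (ZMod p) W) → ZMod p, ∏ i, cosAbs p (y i) ^ a :=
        Fintype.sum_bijective _ ht _ _ (fun w => rfl)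
      have h3 := Finset.prod_univ_sum (fun _ : Fin (finrank (ZMod p) W) => (Finset.univ : Finset (ZMod p)))
        (fun _ u => cosAbs p u ^ a)
      rw [Fintype.piFinset_univ, Finset.prod_const, Finset.card_univ, Fintype.card_fin] at h3
      rw [h1, h2, h3]
    have hsum : ∑ w : W, ∏ x ∈ X, cosAbs p ((w : S → ZMod p) x)
        ≤ (∑ u : ZMod p, cosAbs p u ^ a) ^ finrank (ZMod p) W := by
      calc ∑ w : W, ∏ x ∈ X, cosAbs p ((w : S → ZMod p) x)
          ≤ ∑ w : W, (∑ γ : G, ∏ i, cosAbs p ((w : S → ZMod p) (γ • t i)) ^ a)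
            / Fintype.card G := by
            apply Finset.sum_le_sum
            intro w _
            apply prod_le_mean hD t (fun s => cosAbs p ((w : S → ZMod p) s))
              (fun s => cosAbs_nonneg _) (fun s => cosAbs_le_one _) X _ hcardS.symm hXpos a ha haD
            rw [← Finset.prod_mul_prod_compl X, pow_two]
            congr 1
            refine Finset.prod_bij' (fun s _ => z • s) (fun s _ => z • s) ?_ ?_ ?_ ?_ ?_
            · intro s hs
              rw [Finset.mem_compl] at hs
              by_contra h4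
              exact hs ((hX s).mpr h4)
            · intro s hs
              rw [Finset.mem_compl]
              exact (hX s).mp hs
            · intro s _; exact hzz s
            · intro s _; exact hzz s
            · intro s _
              rw [hWodd w w.2, cosAbs_neg]
        _ = (∑ γ : G, ∑ w : W, ∏ i, cosAbs p ((w : S → ZMod p) (γ • t i)) ^ a)
            / Fintype.card G := by
            rw [← Finset.sum_div, Finset.sum_comm]
        _ = _ := by
            rw [Finset.sum_congr rfl (fun γ _ => hbase γ), Finset.sum_const, Finset.card_univ,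
              nsmul_eq_mul]
            field_simp
    have h5 : (Good.card : ℝ) * p ^ finrank (ZMod p) W
        ≤ 2 ^ X.card * (∑ u : ZMod p, cosAbs p u ^ a) ^ finrank (ZMod p) W := by
      have h6 := hmain.trans (mul_le_mul_of_nonneg_left hsum (by positivity))
      rw [hWcard] at h6
      push_cast at h6
      exact h6
    have h7 : (∑ u : ZMod p, cosAbs p u ^ a) = p * cosAvg p a := by
      unfold cosAvg
      field_simp
    rw [h7, mul_pow] at h5
    have h8 : (0 : ℝ) < (p : ℝ) ^ finrank (ZMod p) W := by positivity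
    have h9 : (Good.card : ℝ) * p ^ finrank (ZMod p) W
        ≤ (2 ^ X.card * cosAvg p a ^ finrank (ZMod p) W) * p ^ finrank (ZMod p) W := by
      linarith
    exact le_of_mul_le_mul_right h9 h8

end count

end Pool.Agent.Lib.MP_640417_ag
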