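import Pool.Agent.Lib.MP_640417_ag.FpOrbits

/-!
# Relations modulo `p` invariant under a normal subgroup
-/

namespace Pool.Agent.Lib.MP_640417_ag

open Module Polynomial

variable {S : Type*} [Fintype S] {G : Type*} [Group G] [MulAction G S] {p : ℕ} [Fact p.Prime]

/-- The matrix of orbit sums. -/
noncomputable def orbMat (p : ℕ) (N : Subgroup G) (T : Finset (MulAction.orbitRel.Quotient N S))
    (γ : T → G) (e : S → ℤ) : Matrix T T (ZMod p) := by
  classical
  exact fun q q' => ∑ s, if mkQ N s = q'.1 then (e (γ q • s) : ZMod p) else 0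

/-- **The invariant case.** -/
theorem ncard_invariant_le [MulAction.IsPretransitive G S] (hp : p ≠ 2) (z : G)
    (hz : ∀ γ : G, γ * z = z * γ) (hz2 : z * z = 1) (hzs : ∀ s : S, z • s ≠ s)
    (N : Subgroup G) [hN : N.Normal] (hNz : ∀ s : S, mkQ N (z • s) ≠ mkQ N s)
    (T : Finset (MulAction.orbitRel.Quotient N S)) (hT : ∀ q, q ∈ T ↔ actQ N z hz q ∉ T)
    (T₀ : Finset S) (hT₀ : T₀.card = p) (s₀ : S) (hs₀ : ∀ t ∈ T₀, mkQ N t = mkQ N s₀)
    (g : ℕ) (hg : Fintype.card S = 2 * g) :
    {e : S → ℤ | IsSgn z e ∧ ∃ u : S → ZMod p, u ≠ 0 ∧ (∀ s, u (z • s) = - u s) ∧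
      (∀ ν ∈ N, ∀ s, u (ν • s) = u s) ∧ RelMod G u e}.ncard
      ≤ T.card * p.choose (p / 2) * 2 ^ (g - p) := by
  classical
  have hzz : ∀ s : S, z • z • s = s := by
    intro s
    rw [← mul_smul, hz2, one_smul]
  -- a transversal containing `T₀`
  obtain ⟨X₁, hX₁⟩ := exists_transversal (fun s : S => z • s) hzz hzs
  have hT₀z : ∀ t ∈ T₀, z • t ∉ T₀ := by
    intro t ht h
    exact hNz t ((hs₀ _ h).trans (hs₀ _ ht).symm)
  let X : Finset S := Finset.univ.filter (fun s => s ∈ T₀ ∨ (z • s ∉ T₀ ∧ s ∈ X₁))
  have hXmem : ∀ s, s ∈ X ↔ (s ∈ T₀ ∨ (z • s ∉ T₀ ∧ s ∈ X₁)) := by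
    intro s
    simp only [X, Finset.mem_filter, Finset.mem_univ, true_and]
  have hX : ∀ s, s ∈ X ↔ z • s ∉ X := by
    intro s
    rw [hXmem, hXmem, hzz]
    have h1 := hX₁ s
    by_cases ha : s ∈ T₀
    · have := hT₀z s ha
      simp [ha, this]
    · by_cases hb : z • s ∈ T₀
      · simp [ha, hb]
      · simp only [ha, hb, false_or, not_false_eq_true, true_and]
        exact h1
  have hT₀X : T₀ ⊆ X := fun t ht => (hXmem t).mpr (Or.inl ht)
  have hXcard : X.card = g := by
    have := two_mul_card_transversal (fun s : S => z • s) hzz X hX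
    omega
  let Y : Finset S := X \ T₀
  have hYcard : Y.card = g - p := by
    rw [Finset.card_sdiff_of_subset hT₀X, hXcard, hT₀]
  -- representatives
  have hrep : ∀ q : T, ∃ γ : G, mkQ N (γ⁻¹ • s₀) = q.1 := by
    intro q
    obtain ⟨s, hs⟩ := mkQ_surjective N q.1
    obtain ⟨γ, hγ⟩ := MulAction.exists_smul_eq G s s₀
    refine ⟨γ, ?_⟩
    rw [← hγ, inv_smul_smul, hs]
  choose γ hγ using hrep
  set Bad : Set (S → ℤ) := {e : S → ℤ | IsSgn z e ∧ ∃ u : S → ZMod p, u ≠ 0 ∧
    (∀ s, u (z • s) = - u s) ∧ (∀ ν ∈ N, ∀ s, u (ν • s) = u s) ∧ RelMod G u e} with hBad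
  -- class of `γ q • s`
  have hclass : ∀ (q : T) (s : S), mkQ N (γ q • s) = mkQ N s₀ ↔ mkQ N s = q.1 := by
    intro q s
    have h1 : s₀ = γ q • (γ q)⁻¹ • s₀ := (smul_inv_smul _ _).symm
    rw [h1, mkQ_smul_iff, hγ]
  -- the two functions with the same restriction to `Y` agree away from `T₀`
  have hagree : ∀ e e' : S → ℤ, IsSgn z e → IsSgn z e' → (∀ y ∈ Y, (e y = 1 ↔ e' y = 1)) →
      ∀ y : S, y ∉ T₀ → z • y ∉ T₀ → e y = e' y := by
    intro e e' he he' h y hy hzy
    have h1 : ∀ y ∈ Y, e y = e' y := by
      intro y hy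
      rcases he.1 y with h2 | h2 <;> rcases he'.1 y with h3 | h3
      · rw [h2, h3]
      · have := (h y hy).mp h2
        rw [h3] at this
        norm_num at this
      · have := (h y hy).mpr h3
        rw [h2] at this
        norm_num at this
      · rw [h2, h3]
    by_cases hyX : y ∈ X
    · exact h1 y (Finset.mem_sdiff.mpr ⟨hyX, hy⟩)
    · have h2 : z • y ∈ X := by
        by_contra h3
        exact hyX ((hX y).mpr h3)
      have h3 := h1 _ (Finset.mem_sdiff.mpr ⟨h2, hzy⟩)
      rw [he.2, he'.2] at h3
      exact neg_injective h3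
  -- the matrix of `e`
  have hmat : ∀ e e' : S → ℤ, IsSgn z e → IsSgn z e' → (∀ y ∈ Y, (e y = 1 ↔ e' y = 1)) →
      orbMat p N T γ e = orbMat p N T γ e'
        + Matrix.scalar T ((∑ t ∈ T₀, (e t : ZMod p)) - ∑ t ∈ T₀, (e' t : ZMod p)) := by
    intro e e' he he' h
    ext q q'
    rw [Matrix.add_apply, Matrix.scalar_apply, Matrix.diagonal_apply]
    by_cases hqq : q = q'
    · subst hqq
      rw [if_pos rfl]
      have key : ∀ f : S → ℤ, orbMat p N T γ f q q
          = ∑ t ∈ T₀, (f t : ZMod p) + ∑ s, (if mkQ N s = mkQ N s₀ ∧ s ∉ T₀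
            then (f s : ZMod p) else 0) := by
        intro f
        have h1 : orbMat p N T γ f q q
            = ∑ s, (if mkQ N s = mkQ N s₀ then (f s : ZMod p) else 0) := by
          unfold orbMat
          apply Fintype.sum_bijective (fun s => γ q • s) (MulAction.bijective (γ q))
          intro s
          simp only [hclass q s]
        have h2 : ∑ t ∈ T₀, (f t : ZMod p) = ∑ s, (if s ∈ T₀ then (f s : ZMod p) else 0) := by
          rw [Finset.sum_ite_mem, Finset.univ_inter]
        rw [h1, h2, ← Finset.sum_add_distrib]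
        apply Finset.sum_congr rfl
        intro s _
        by_cases ha : s ∈ T₀
        · simp [ha, hs₀ s ha]
        · simp [ha]
      rw [key e, key e']
      have h3 : ∑ s, (if mkQ N s = mkQ N s₀ ∧ s ∉ T₀ then (e s : ZMod p) else 0)
          = ∑ s, (if mkQ N s = mkQ N s₀ ∧ s ∉ T₀ then (e' s : ZMod p) else 0) := by
        apply Finset.sum_congr rfl
        intro s _
        by_cases ha : mkQ N s = mkQ N s₀ ∧ s ∉ T₀
        · rw [if_pos ha, if_pos ha, hagree e e' he he' h s ha.2 (fun hb => by
            exact hNz s ((hs₀ _ hb).trans ha.1.symm))]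
        · rw [if_neg ha, if_neg ha]
      rw [h3]
      ring
    · rw [if_neg hqq, add_zero]
      unfold orbMat
      apply Finset.sum_congr rfl
      intro s _
      by_cases ha : mkQ N s = q'.1
      · rw [if_pos ha, if_pos ha, hagree e e' he he' h (γ q • s) (fun hb => by
          have h1 := (hclass q s).mp (hs₀ _ hb)
          exact hqq (Subtype.ext (h1.symm.trans ha))) (fun hb => by
          have h1 := hs₀ _ hb
          rw [← mul_smul, ← hz, mul_smul] at h1
          have h2 := (hclass q (z • s)).mp h1
          rw [← actQ_mkQ N z hz, ha] at h2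
          have h3 := (hT q'.1).mp q'.2
          rw [h2] at h3
          exact h3 q.2)]
      · rw [if_neg ha, if_neg ha]
  -- elements of `Bad` have singular matrix
  have hdet : ∀ e ∈ Bad, (orbMat p N T γ e).det = 0 := by
    rintro e ⟨he, u, hu0, huz, huN, hrel⟩
    have hcu : ∀ x y, mkQ N x = mkQ N y → u x = u y := by
      intro x y hxy
      obtain ⟨ν, hν, rfl⟩ := (mkQ_eq_iff N _ _).mp hxy
      exact huN ν hν y
    have hrepQ : ∀ q : MulAction.orbitRel.Quotient N S, ∃ s, mkQ N s = q := mkQ_surjective N
    choose rep hrep using hrepQ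
    let ũ : MulAction.orbitRel.Quotient N S → ZMod p := fun q => u (rep q)
    have hũ : ∀ s, u s = ũ (mkQ N s) := fun s => hcu _ _ (hrep _).symm
    have hũz : ∀ q, ũ (actQ N z hz q) = - ũ q := by
      intro q
      obtain ⟨s, rfl⟩ := mkQ_surjective N q
      rw [actQ_mkQ, ← hũ, ← hũ, huz]
    rw [← Matrix.exists_mulVec_eq_zero_iff]
    refine ⟨fun q => ũ q.1, ?_, ?_⟩
    · intro h
      apply hu0
      have h1 : ∀ q ∈ T, ũ q = 0 := fun q hq => congrFun h ⟨q, hq⟩
      funext s
      rw [hũ]
      by_cases hs : mkQ N s ∈ T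
      · exact h1 _ hs
      · have h2 : actQ N z hz (mkQ N s) ∈ T := by
          by_contra h3
          exact hs ((hT _).mpr h3)
        have h3 := h1 _ h2
        rw [hũz] at h3
        exact neg_eq_zero.mp h3
    · funext q
      have hfinQ : Finite (MulAction.orbitRel.Quotient N S) := Quotient.finite _
      have : Fintype (MulAction.orbitRel.Quotient N S) := Fintype.ofFinite _
      let A : MulAction.orbitRel.Quotient N S → ZMod p :=
        fun q' => ∑ s, if mkQ N s = q' then (e (γ q • s) : ZMod p) else 0
      have hA : ∀ q', A (actQ N z hz q') = - A q' := by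
        intro q'
        simp only [A]
        rw [← Finset.sum_neg_distrib]
        symm
        apply Fintype.sum_bijective (fun s => z • s) (MulAction.bijective z)
        intro s
        have h1 : mkQ N (z • s) = actQ N z hz q' ↔ mkQ N s = q' := by
          constructor
          · intro h
            have h2 := congrArg (actQ N z hz) h
            rw [actQ_actQ N z hz hz2, actQ_mkQ, hzz] at h2
            exact h2
          · rintro rfl
            rfl
        have h2 : e (γ q • z • s) = - e (γ q • s) := by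
          rw [← mul_smul, hz, mul_smul, he.2]
        simp only [h1, h2]
        by_cases h3 : mkQ N s = q' <;> simp [h3]
      have h1 : ∑ q', ũ q' * A q' = 0 := by
        rw [← hrel (γ q)]
        have h2 : ∀ q', ũ q' * A q' = ∑ s, if mkQ N s = q' then u s * (e (γ q • s) : ZMod p)
            else 0 := by
          intro q'
          simp only [A, Finset.mul_sum]
          apply Finset.sum_congr rfl
          intro s _
          by_cases h3 : mkQ N s = q'
          · rw [if_pos h3, if_pos h3, hũ s, h3]
          · rw [if_neg h3, if_neg h3, mul_zero]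
        simp only [h2]
        rw [Finset.sum_comm]
        apply Finset.sum_congr rfl
        intro s _
        rw [Finset.sum_ite_eq]
        simp
      rw [sum_eq_two_mul_of_transversal (actQ N z hz) (actQ_actQ N z hz hz2) T hT _ (by
        intro q'
        rw [hũz, hA]
        ring)] at h1
      have h2 := (mul_eq_zero.mp h1).resolve_left (two_ne_zero' (p := p) hp)
      change ∑ q' : T, orbMat p N T γ e q q' * ũ q'.1 = 0
      rw [← h2, ← Finset.sum_coe_sort T]
      apply Finset.sum_congr rfl
      intro q' _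
      rw [mul_comm]
      rfl
  -- finiteness
  have hfin : Bad.Finite := by
    apply Set.Finite.subset (Set.Finite.pi' (fun _ : S => Set.toFinite ({1, -1} : Set ℤ)))
    rintro e ⟨he, -⟩ s
    rcases he.1 s with h | h <;> simp [h]
  let F : Finset (S → ℤ) := hfin.toFinset
  have hFmem : ∀ e, e ∈ F ↔ e ∈ Bad := fun e => hfin.mem_toFinset
  have hBF : Bad.ncard = F.card := Set.ncard_eq_toFinset_card Bad hfin
  rw [hBF]
  let β : (S → ℤ) → Finset S := fun e => Y.filter (fun y => e y = 1)
  have hβ : ∀ e ∈ F, β e ∈ Y.powerset := fun e _ =>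
    Finset.mem_powerset.mpr (Finset.filter_subset _ _)
  have hβeq : ∀ e e', β e = β e' → ∀ y ∈ Y, (e y = 1 ↔ e' y = 1) := by
    intro e e' h y hy
    have h1 : y ∈ β e ↔ y ∈ β e' := by rw [h]
    simp only [β, Finset.mem_filter, hy, true_and] at h1
    exact h1
  have hfiber : ∀ b ∈ Y.powerset, (F.filter (fun e => β e = b)).card
      ≤ T.card * p.choose (p / 2) := by
    intro b _
    rcases (F.filter (fun e => β e = b)).eq_empty_or_nonempty with h0 | ⟨e₁, he₁⟩
    · rw [h0]
      simp
    rw [Finset.mem_filter, hFmem] at he₁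
    set M := orbMat p N T γ e₁ with hM
    set x₁ : ZMod p := ∑ t ∈ T₀, (e₁ t : ZMod p) with hx₁
    let R : Finset (ZMod p) := (-M).charpoly.roots.toFinset
    have hne : (-M).charpoly ≠ 0 := (Matrix.charpoly_monic _).ne_zero
    have hR : R.card ≤ T.card := by
      calc R.card ≤ Multiset.card (-M).charpoly.roots := Multiset.toFinset_card_le _
        _ ≤ (-M).charpoly.natDegree := Polynomial.card_roots' _
        _ = T.card := by rw [Matrix.charpoly_natDegree_eq_dim, Fintype.card_coe]
    let Z : Finset (Finset S) := R.biUnion (fun μ =>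
      T₀.powerset.filter (fun B => ((2 * B.card : ℕ) : ZMod p) = μ + x₁))
    have hZ : Z.card ≤ T.card * p.choose (p / 2) := by
      calc Z.card ≤ ∑ μ ∈ R, (T₀.powerset.filter
              (fun B => ((2 * B.card : ℕ) : ZMod p) = μ + x₁)).card := Finset.card_biUnion_le
        _ ≤ ∑ _μ ∈ R, p.choose (p / 2) :=
            Finset.sum_le_sum (fun μ _ => card_powerset_mod_le p hp T₀ hT₀ _)
        _ = R.card * p.choose (p / 2) := by rw [Finset.sum_const, smul_eq_mul]
        _ ≤ T.card * p.choose (p / 2) := Nat.mul_le_mul_right _ hR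
    refine le_trans ?_ hZ
    apply Finset.card_le_card_of_injOn (fun e => T₀.filter (fun t => e t = 1))
    · intro e he
      rw [Finset.mem_coe, Finset.mem_filter, hFmem] at he
      have h1 := hmat e e₁ he.1.1 he₁.1.1 (hβeq _ _ (he.2.trans he₁.2.symm))
      have h2 := hdet e he.1
      rw [h1] at h2
      rw [Finset.mem_coe, Finset.mem_biUnion]
      refine ⟨(∑ t ∈ T₀, (e t : ZMod p)) - x₁, ?_, ?_⟩
      · rw [Multiset.mem_toFinset, Polynomial.mem_roots hne, Polynomial.IsRoot.def,
          Matrix.eval_charpoly, sub_neg_eq_add, add_comm]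
        exact h2
      · rw [Finset.mem_filter, Finset.mem_powerset]
        refine ⟨Finset.filter_subset _ _, ?_⟩
        rw [sub_add_cancel]
        have h3 : ∀ t, (e t : ZMod p) = 2 * (if e t = 1 then 1 else 0) - 1 := by
          intro t
          rcases he.1.1.1 t with h | h
          · rw [h, if_pos rfl]
            push_cast
            ring
          · rw [h, if_neg (by norm_num)]
            push_cast
            ring
        rw [Finset.sum_congr rfl (fun t _ => h3 t), Finset.sum_sub_distrib, ← Finset.mul_sum,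
          Finset.sum_boole, Finset.sum_const, hT₀]
        simp
    · intro e he e' he' hee
      rw [Finset.mem_coe, Finset.mem_filter, hFmem] at he he'
      have hT₀eq : ∀ t ∈ T₀, e t = e' t := by
        intro t ht
        have h1 : t ∈ T₀.filter (fun t => e t = 1) ↔ t ∈ T₀.filter (fun t => e' t = 1) := by
          simp only at hee
          rw [hee]
        simp only [Finset.mem_filter, ht, true_and] at h1
        rcases he.1.1.1 t with h2 | h2 <;> rcases he'.1.1.1 t with h3 | h3
        · rw [h2, h3]
        · have := h1.mp h2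
          rw [h3] at this
          norm_num at this
        · have := h1.mpr h3
          rw [h2] at this
          norm_num at this
        · rw [h2, h3]
      funext s
      by_cases h1 : s ∈ T₀
      · exact hT₀eq s h1
      by_cases h2 : z • s ∈ T₀
      · have h3 := hT₀eq _ h2
        rw [he.1.1.2, he'.1.1.2] at h3
        exact neg_injective h3
      · exact hagree e e' he.1.1 he'.1.1 (hβeq _ _ (he.2.trans he'.2.symm)) s h1 h2
  have hbound := Finset.card_le_mul_card_image_of_maps_to hβ _ hfiber
  rw [Finset.card_powerset, hYcard] at hbound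
  exact hbound

end Pool.Agent.Lib.MP_640417_ag
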