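import Pool.Agent.Lib.MP_640417_ag.FpPoly
import Pool.Agent.Lib.MP_640417_ag.SylowOrbit

/-!
# Translates of invariant functions modulo `p`

`G` acts on the finite set `S` and `D` is a `p`-subgroup of `G`. If the translates of a
`D`-invariant function `u : S → ZMod p` span a space of small dimension, then `u` is invariant
under all conjugates of `D`.
-/

namespace Pool.Agent.Lib.MP_640417_ag

open Module Polynomial

section core

variable {S : Type*} [Fintype S] {G : Type*} [Group G] [MulAction G S] {p : ℕ} [Fact p.Prime]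

/-- Translation of functions. -/
def shiftMap (p : ℕ) (S : Type*) {G : Type*} [Group G] [MulAction G S] (δ : G) :
    Module.End (ZMod p) (S → ZMod p) where
  toFun v s := v (δ • s)
  map_add' _ _ := rfl
  map_smul' _ _ := rfl

omit [Fintype S] in
lemma shiftMap_pow_apply (δ : G) (v : S → ZMod p) (n : ℕ) (s : S) :
    ((shiftMap p S δ) ^ n) v s = v (δ ^ n • s) := by
  induction n generalizing v with
  | zero => simp
  | succ n ih =>
    rw [pow_succ, Module.End.mul_apply, ih]
    change v (δ • δ ^ n • s) = _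
    rw [← mul_smul, pow_succ']

omit [Fintype S] in
lemma shiftMap_sub_one_nilpotent (δ : G) (k : ℕ) (hδ : δ ^ p ^ k = 1) :
    (shiftMap p S δ - 1) ^ p ^ k = 0 := by
  have h1 : (shiftMap p S δ) ^ p ^ k = 1 := by
    apply LinearMap.ext
    intro v
    funext s
    rw [shiftMap_pow_apply, hδ, one_smul]
    rfl
  have h2 : ((X : (ZMod p)[X]) - 1) ^ p ^ k = X ^ p ^ k - 1 := by
    rw [sub_pow_char_pow, one_pow]
  have h3 := congrArg (aeval (shiftMap p S δ)) h2
  simpa [h1] using h3

/-- The span of the translates of `u`. -/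
def trSpan (G : Type*) [Group G] [MulAction G S] (u : S → ZMod p) :
    Submodule (ZMod p) (S → ZMod p) :=
  Submodule.span (ZMod p) (Set.range (fun γ : G => fun s => u (γ • s)))

omit [Fintype S] in
lemma mem_trSpan_self (u : S → ZMod p) : u ∈ trSpan G u := by
  apply Submodule.subset_span
  exact ⟨1, by funext s; simp⟩

omit [Fintype S] in
lemma shiftMap_mem_trSpan (u : S → ZMod p) (δ : G) (v : S → ZMod p) (hv : v ∈ trSpan G u) :
    shiftMap p S δ v ∈ trSpan G u := by
  have h1 : trSpan G u ≤ (trSpan G u).comap (shiftMap p S δ) := by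
    unfold trSpan
    rw [Submodule.span_le]
    rintro _ ⟨γ, rfl⟩
    apply Submodule.subset_span
    refine ⟨γ * δ, ?_⟩
    funext s
    change u ((γ * δ) • s) = u (γ • δ • s)
    rw [mul_smul]
  exact h1 hv

omit [Fintype S] in
lemma iterate_fwdDiff_orbit (δ : G) (v : S → ZMod p) (s : S) (k : ℕ) :
    ∀ n, (fwdDiff 1)^[k] (fun j : ℕ => v (δ ^ j • s)) n
      = ((shiftMap p S δ - 1) ^ k) v (δ ^ n • s) := by
  induction k generalizing v with
  | zero => intro n; simp
  | succ k ih =>
    intro n
    rw [Function.iterate_succ_apply]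
    have h1 : fwdDiff 1 (fun j : ℕ => v (δ ^ j • s))
        = fun j : ℕ => ((shiftMap p S δ - 1) v) (δ ^ j • s) := by
      funext j
      simp only [fwdDiff]
      change v (δ ^ (j + 1) • s) - v (δ ^ j • s) = v (δ • δ ^ j • s) - v (δ ^ j • s)
      rw [← mul_smul, ← pow_succ']
    rw [h1, ih, pow_succ]
    rfl

lemma pow_finrank_eq_zero (u : S → ZMod p) (δ : G) (k : ℕ) (hδ : δ ^ p ^ k = 1) :
    ((shiftMap p S δ - 1) ^ finrank (ZMod p) (trSpan G u)) u = 0 := by
  classical
  let T : Module.End (ZMod p) (trSpan G u) :=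
    (shiftMap p S δ).restrict (fun v hv => shiftMap_mem_trSpan u δ v hv)
  have hT : ∀ (n : ℕ) (v : trSpan G u), (((T - 1) ^ n) v : S → ZMod p)
      = ((shiftMap p S δ - 1) ^ n) v := by
    intro n
    induction n with
    | zero => intro v; rfl
    | succ n ih =>
      intro v
      rw [pow_succ, pow_succ, Module.End.mul_apply, Module.End.mul_apply, ih]
      rfl
  let d := finrank (ZMod p) (trSpan G u)
  have h1 : (T - 1) ^ (p ^ k + d) = 0 := by
    apply LinearMap.ext
    intro v
    apply Subtype.ext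
    rw [hT, pow_add, Module.End.mul_apply, shiftMap_sub_one_nilpotent δ k hδ]
    rfl
  have h2 := Module.End.ker_pow_eq_ker_pow_finrank_of_le (f := T - 1) (m := p ^ k + d)
    (Nat.le_add_left _ _)
  rw [h1, LinearMap.ker_zero] at h2
  have h3 : (⟨u, mem_trSpan_self u⟩ : trSpan G u) ∈ LinearMap.ker ((T - 1) ^ d) := by
    rw [← h2]
    exact Submodule.mem_top
  rw [LinearMap.mem_ker] at h3
  have h4 := hT d ⟨u, mem_trSpan_self u⟩
  rw [h3] at h4
  exact h4.symm

/-- **Small span implies invariance under conjugates.** -/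
theorem fixed_of_small (D : Subgroup G) (hD : IsPGroup p D) (r : ℕ) (hr : 0 < r)
    (hcard : Nat.card (MulAction.orbitRel.Quotient D S) ≤ 2 * r)
    (u : S → ZMod p) (hu : ∀ δ ∈ D, ∀ s, u (δ • s) = u s)
    (hsmall : 2 * r * finrank (ZMod p) (trSpan G u) ≤ p) :
    ∀ γ : G, ∀ δ ∈ D, ∀ s, u ((γ * δ * γ⁻¹) • s) = u s := by
  classical
  intro γ δ hδ s
  by_cases hs : (γ * δ * γ⁻¹) • s = s
  · rw [hs]
  by_cases hu0 : u = 0
  · rw [hu0]
    rfl
  set δ' : G := γ * δ * γ⁻¹ with hδ'
  obtain ⟨k, hk⟩ := hD ⟨δ, hδ⟩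
  have hk1 : δ ^ p ^ k = 1 := by
    have := congrArg (fun x : D => (x : G)) hk
    simpa using this
  have hk' : δ' ^ p ^ k = 1 := by
    rw [hδ', conj_pow, hk1, mul_one, mul_inv_cancel]
  set d := finrank (ZMod p) (trSpan G u) with hd
  have hd1 : 1 ≤ d := by
    by_contra hcon
    have hd0 : finrank (ZMod p) (trSpan G u) = 0 := by omega
    have h1 := Submodule.finrank_eq_zero.mp hd0
    have h2 : u ∈ trSpan G u := mem_trSpan_self u
    rw [h1, Submodule.mem_bot] at h2
    exact hu0 h2
  have hdp : d ≤ p := by nlinarith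
  have hp0 : 0 < p := (Fact.out : p.Prime).pos
  -- the points `δ' ^ j • s`, `j < p`, are distinct
  have hdist : ∀ i j : ℕ, i < j → j < p → δ' ^ i • s ≠ δ' ^ j • s := by
    intro i j hij hj h
    have h1 : δ' ^ (j - i) • s = s := by
      have h2 : δ' ^ j = δ' ^ i * δ' ^ (j - i) := by
        rw [← pow_add]
        congr 1
        omega
      rw [h2, mul_smul] at h
      exact (MulAction.injective _ h).symm
    have h3 : (j - i).Coprime (orderOf δ') := by
      have h4 : orderOf δ' ∣ p ^ k := orderOf_dvd_of_pow_eq_one hk'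
      apply Nat.Coprime.coprime_dvd_right h4
      apply Nat.Coprime.pow_right
      rw [Nat.coprime_comm]
      apply (Nat.Prime.coprime_iff_not_dvd Fact.out).mpr
      intro h5
      have := Nat.le_of_dvd (by omega) h5
      omega
    obtain ⟨m, hm⟩ := exists_pow_eq_self_of_coprime h3
    apply hs
    have h6 : δ' ^ (j - i) ∈ MulAction.stabilizer G s := h1
    have h7 := (MulAction.stabilizer G s).pow_mem h6 m
    rw [hm] at h7
    exact h7
  -- pigeonhole
  let mk : S → MulAction.orbitRel.Quotient D S := fun x => Quotient.mk _ x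
  have hfinQ : Finite (MulAction.orbitRel.Quotient D S) := Quotient.finite _
  have : Fintype (MulAction.orbitRel.Quotient D S) := Fintype.ofFinite _
  obtain ⟨q, -, hq⟩ := Finset.exists_le_card_fiber_of_mul_le_card_of_maps_to
    (s := Finset.range p) (t := Finset.univ) (f := fun j => mk (δ' ^ j • s)) (n := d)
    (fun _ _ => Finset.mem_univ _) ⟨mk s, Finset.mem_univ _⟩ (by
      rw [Finset.card_univ, Finset.card_range, ← Nat.card_eq_fintype_card]
      exact (Nat.mul_le_mul_right d hcard).trans hsmall)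
  set J := (Finset.range p).filter (fun j => mk (δ' ^ j • s) = q) with hJ
  have hJne : J.Nonempty := by
    rw [← Finset.card_pos]
    omega
  obtain ⟨j₀, hj₀⟩ := hJne
  have hconst : ∀ x y : S, mk x = mk y → u x = u y := by
    intro x y hxy
    have h1 := Quotient.exact hxy
    obtain ⟨ν, hν⟩ := h1
    have h2 : (ν : G) • y = x := hν
    rw [← h2]
    exact hu ν ν.2 y
  have hf := iterate_fwdDiff_orbit δ' u s d
  have hall := eq_const_of_many_values p d hd1 hdp (fun j : ℕ => u (δ' ^ j • s))
    (by
      intro n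
      rw [hf, pow_finrank_eq_zero u δ' k hk']
      rfl)
    (u (δ' ^ j₀ • s)) J
    (by
      intro j hj
      rw [hJ, Finset.mem_filter, Finset.mem_range] at hj
      exact hj.1)
    hq
    (by
      intro j hj
      rw [hJ, Finset.mem_filter] at hj hj₀
      apply hconst
      rw [hj.2, hj₀.2])
  have h0 := hall 0
  have h1 := hall 1
  simp only [pow_zero, one_smul, pow_one] at h0 h1
  rw [h1, h0]

end core

end Pool.Agent.Lib.MP_640417_ag
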