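import Mathlib

/-!
# Numerical estimates for the count with a large prime factor
-/

namespace Pool.Agent.Lib.MP_640417_ag

lemma centralBinom_sq_le (m : ℕ) : m.centralBinom ^ 2 * (2 * m + 1) ≤ 16 ^ m := by
  induction m with
  | zero => simp
  | succ n ih =>
    have h := Nat.succ_mul_centralBinom_succ n
    have h1 : ((n + 1) * (n + 1).centralBinom) ^ 2 * (2 * (n + 1) + 1)
        ≤ (n + 1) ^ 2 * 16 ^ (n + 1) := by
      rw [h]
      calc (2 * (2 * n + 1) * n.centralBinom) ^ 2 * (2 * (n + 1) + 1)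
          = (4 * ((2 * n + 1) * (2 * n + 3))) * (n.centralBinom ^ 2 * (2 * n + 1)) := by ring
        _ ≤ (4 * ((2 * n + 1) * (2 * n + 3))) * 16 ^ n := Nat.mul_le_mul_left _ ih
        _ ≤ (16 * (n + 1) ^ 2) * 16 ^ n := by
            apply Nat.mul_le_mul_right
            nlinarith
        _ = (n + 1) ^ 2 * 16 ^ (n + 1) := by ring
    rw [mul_pow, mul_assoc] at h1
    exact Nat.le_of_mul_le_mul_left h1 (by positivity)

lemma choose_half_sq_mul_le (p : ℕ) (hp : Odd p) : p.choose (p / 2) ^ 2 * p ≤ 4 ^ p := by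
  obtain ⟨m, rfl⟩ := hp
  have h0 : (2 * m + 1) / 2 = m := by omega
  rw [h0]
  have h1 : (m + 1).centralBinom = 2 * (2 * m + 1).choose m := by
    rw [Nat.centralBinom_eq_two_mul_choose]
    have h2 : 2 * (m + 1) = (2 * m + 1) + 1 := by ring
    rw [h2, Nat.choose_succ_succ, ← Nat.choose_symm_half m]
    ring
  have h3 := centralBinom_sq_le (m + 1)
  rw [h1] at h3
  have h4 : 4 * ((2 * m + 1).choose m ^ 2 * (2 * m + 1)) ≤ 4 * 4 ^ (2 * m + 1) := by
    calc 4 * ((2 * m + 1).choose m ^ 2 * (2 * m + 1))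
        ≤ (2 * (2 * m + 1).choose m) ^ 2 * (2 * (m + 1) + 1) := by
          rw [mul_pow, ← mul_assoc]
          apply Nat.mul_le_mul (by norm_num)
          omega
      _ ≤ 16 ^ (m + 1) := h3
      _ = 4 * 4 ^ (2 * m + 1) := by
          rw [show (16 : ℕ) = 4 ^ 2 by norm_num, ← pow_mul, ← pow_succ']
          congr 1
  exact Nat.le_of_mul_le_mul_left h4 (by norm_num)

/-- The final estimate. -/
lemma bound_le (p r k : ℕ) (hp : p.Prime) (hp2 : p ≠ 2) (hr : 0 < r) (hk : 0 < k)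
    (hlarge : p ^ (4 * r ^ 2) ≤ 2 ^ p) :
    ((r * p.choose (p / 2) * 2 ^ (r * p ^ k - p)
        + p ^ r * 2 ^ (r * p ^ k - (p / (2 * r) + 1)) : ℕ) : ℝ)
      ≤ 2 * r / Real.sqrt p * 2 ^ (r * p ^ k) := by
  have hp3 : 3 ≤ p := by
    have := hp.two_le
    omega
  have hodd : Odd p := hp.odd_of_ne_two hp2
  set g := r * p ^ k with hg
  have hgp : p ≤ g := by
    calc p = 1 * p ^ 1 := by ring
      _ ≤ r * p ^ k := Nat.mul_le_mul hr (Nat.pow_le_pow_right (by omega) hk)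
  set m := p / (2 * r) + 1 with hm
  have hmg : m ≤ g := by
    have h1 : p / (2 * r) ≤ p / 2 := Nat.div_le_div_left (by omega) (by norm_num)
    omega
  have hsq : (0 : ℝ) < Real.sqrt p := Real.sqrt_pos.mpr (by exact_mod_cast hp.pos)
  have hsq2 : Real.sqrt p ^ 2 = p := Real.sq_sqrt (by positivity)
  have hsq1 : 1 ≤ Real.sqrt p := by
    rw [Real.one_le_sqrt]
    exact_mod_cast hp.one_lt.le
  -- first term
  have h1 : (p.choose (p / 2) : ℝ) * Real.sqrt p ≤ 2 ^ p := by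
    have h2 := choose_half_sq_mul_le p hodd
    have h3 : ((p.choose (p / 2) : ℝ) * Real.sqrt p) ^ 2 ≤ (2 ^ p) ^ 2 := by
      rw [mul_pow, hsq2, ← pow_mul, mul_comm p 2, pow_mul]
      norm_num
      exact_mod_cast h2
    exact (pow_le_pow_iff_left₀ (by positivity) (by positivity) (by norm_num)).mp h3
  have h2 : ((r * p.choose (p / 2) * 2 ^ (g - p) : ℕ) : ℝ) ≤ r / Real.sqrt p * 2 ^ g := by
    rw [div_mul_eq_mul_div, le_div_iff₀ hsq]
    push_cast
    calc (r : ℝ) * (p.choose (p / 2)) * 2 ^ (g - p) * Real.sqrt p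
        = r * ((p.choose (p / 2) : ℝ) * Real.sqrt p) * 2 ^ (g - p) := by ring
      _ ≤ r * 2 ^ p * 2 ^ (g - p) := by gcongr
      _ = r * 2 ^ g := by rw [mul_assoc, ← pow_add, Nat.add_sub_cancel' hgp]
  -- second term
  have h3 : p ^ (2 * r) ≤ 2 ^ m := by
    have h4 : (p ^ (2 * r)) ^ (2 * r) ≤ (2 ^ m) ^ (2 * r) := by
      calc (p ^ (2 * r)) ^ (2 * r) = p ^ (4 * r ^ 2) := by rw [← pow_mul]; congr 1; ring
        _ ≤ 2 ^ p := hlarge
        _ ≤ 2 ^ (m * (2 * r)) := by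
            apply Nat.pow_le_pow_right (by norm_num)
            have := Nat.lt_div_mul_add (a := p) (b := 2 * r) (by omega)
            rw [hm, Nat.add_mul, one_mul]
            exact this.le
        _ = (2 ^ m) ^ (2 * r) := by rw [← pow_mul]
    exact (Nat.pow_le_pow_iff_left (by omega)).mp h4
  have h5 : ((p ^ r * 2 ^ (g - m) : ℕ) : ℝ) ≤ r / Real.sqrt p * 2 ^ g := by
    rw [div_mul_eq_mul_div, le_div_iff₀ hsq]
    push_cast
    have h6 : ((p : ℝ) ^ (2 * r)) ≤ 2 ^ m := by exact_mod_cast h3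
    have h7 : Real.sqrt p ≤ (p : ℝ) ^ r := by
      calc Real.sqrt p ≤ Real.sqrt p ^ 2 := by nlinarith
        _ = (p : ℝ) ^ 1 := by rw [hsq2, pow_one]
        _ ≤ (p : ℝ) ^ r := by
            apply pow_le_pow_right₀ _ hr
            exact_mod_cast hp.one_lt.le
    calc (p : ℝ) ^ r * 2 ^ (g - m) * Real.sqrt p
        ≤ (p : ℝ) ^ r * 2 ^ (g - m) * (p : ℝ) ^ r := by gcongr
      _ = (p : ℝ) ^ (2 * r) * 2 ^ (g - m) := by ring
      _ ≤ 2 ^ m * 2 ^ (g - m) := by gcongr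
      _ = 1 * 2 ^ g := by rw [← pow_add, Nat.add_sub_cancel' hmg, one_mul]
      _ ≤ r * 2 ^ g := by
          gcongr
          exact_mod_cast hr
  have h8 : (2 * r / Real.sqrt p * 2 ^ g : ℝ) = r / Real.sqrt p * 2 ^ g
      + r / Real.sqrt p * 2 ^ g := by ring
  rw [h8, Nat.cast_add]
  exact add_le_add h2 h5

end Pool.Agent.Lib.MP_640417_ag
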