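import Mathlib

/-!
# Functions with small difference order over `ZMod p`
-/

namespace Pool.Agent.Lib.MP_640417_ag

open Polynomial

/-- A function `ℕ → ZMod p` killed by the `d`-th power of the difference operator, `1 ≤ d ≤ p`,
which takes the value `c` at `d` numbers below `p`, is constant. -/
lemma eq_const_of_many_values (p : ℕ) [Fact p.Prime] (d : ℕ) (hd : 1 ≤ d) (hdp : d ≤ p)
    (f : ℕ → ZMod p) (hf : ∀ n, (fwdDiff 1)^[d] f n = 0) (c : ZMod p) (J : Finset ℕ)
    (hJ : ∀ j ∈ J, j < p) (hJd : d ≤ J.card) (hJc : ∀ j ∈ J, f j = c) : ∀ n, f n = c := by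
  classical
  have hf' : ∀ k, d ≤ k → ∀ n, (fwdDiff 1)^[k] f n = 0 := by
    intro k hk
    induction k, hk using Nat.le_induction with
    | base => exact hf
    | succ k hk ih =>
      intro n
      rw [Function.iterate_succ_apply']
      simp only [fwdDiff, ih, sub_zero]
  have hnewton : ∀ n, f n = ∑ k ∈ Finset.range d, (n.choose k : ZMod p) * (fwdDiff 1)^[k] f 0 := by
    intro n
    have h1 := shift_eq_sum_fwdDiff_iter 1 f n 0
    simp only [smul_eq_mul, mul_one, zero_add] at h1
    rw [h1]
    have h2 : ∀ m, ∑ k ∈ Finset.range m, (n.choose k : ZMod p) * (fwdDiff 1)^[k] f 0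
        = ∑ k ∈ Finset.range m, n.choose k • (fwdDiff 1)^[k] f 0 := by
      intro m
      apply Finset.sum_congr rfl
      intro k _
      rw [nsmul_eq_mul]
    rw [h2]
    rcases le_total (n + 1) d with h | h
    · apply Finset.sum_subset
      · intro x hx
        rw [Finset.mem_range] at hx ⊢
        omega
      · intro x _ hx
        rw [Finset.mem_range] at hx
        rw [Nat.choose_eq_zero_of_lt (by omega), zero_smul]
    · symm
      apply Finset.sum_subset
      · intro x hx
        rw [Finset.mem_range] at hx ⊢
        omega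
      · intro x _ hx
        rw [Finset.mem_range] at hx
        rw [hf' x (by omega), smul_zero]
  let P : (ZMod p)[X] := ∑ k ∈ Finset.range d,
    C ((fwdDiff 1)^[k] f 0 * ((k.factorial : ZMod p))⁻¹) * descPochhammer (ZMod p) k - C c
  have hPeval : ∀ n : ℕ, P.eval (n : ZMod p) = f n - c := by
    intro n
    rw [hnewton n]
    simp only [P, eval_sub, eval_finset_sum, eval_mul, eval_C]
    congr 1
    apply Finset.sum_congr rfl
    intro k hk
    rw [Finset.mem_range] at hk
    have hk0 : (k.factorial : ZMod p) ≠ 0 := by
      intro h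
      rw [ZMod.natCast_eq_zero_iff] at h
      have := ((Fact.out : p.Prime).dvd_factorial).mp h
      omega
    rw [descPochhammer_eval_eq_descFactorial, Nat.descFactorial_eq_factorial_mul_choose]
    push_cast
    field_simp
  have hPdeg : P.natDegree ≤ d - 1 := by
    apply (natDegree_sub_le _ _).trans
    rw [natDegree_C, max_le_iff]
    refine ⟨?_, Nat.zero_le _⟩
    apply natDegree_sum_le_of_forall_le
    intro k hk
    rw [Finset.mem_range] at hk
    apply (natDegree_C_mul_le _ _).trans
    rw [descPochhammer_natDegree]
    omega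
  have hP0 : P = 0 := by
    by_contra hP
    have h1 : (J.image (fun j : ℕ => (j : ZMod p))).card = J.card := by
      apply Finset.card_image_of_injOn
      intro a ha b hb hab
      simp only at hab
      rw [ZMod.natCast_eq_natCast_iff'] at hab
      rw [Nat.mod_eq_of_lt (hJ a ha), Nat.mod_eq_of_lt (hJ b hb)] at hab
      exact hab
    have h2 : J.image (fun j : ℕ => (j : ZMod p)) ⊆ P.roots.toFinset := by
      intro x hx
      rw [Finset.mem_image] at hx
      obtain ⟨j, hj, rfl⟩ := hx
      rw [Multiset.mem_toFinset, mem_roots hP, IsRoot.def, hPeval, hJc j hj, sub_self]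
    have h3 := Finset.card_le_card h2
    have h4 := P.roots.toFinset_card_le
    have h5 := P.card_roots'
    omega
  intro n
  have := hPeval n
  rw [hP0, eval_zero] at this
  exact (sub_eq_zero.mp this.symm)

end Pool.Agent.Lib.MP_640417_ag
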