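import Pool.Agent.Lib.MP_640417_ag.EmbFacts

/-!
# Galois representations of CM type exist (sanity check for the definition)
-/

namespace Pool.Agent.Lib.MP_640417_ag

open NumberField Module

variable {E : Type} [Field E] [NumberField E]

lemma prod_zpow_eq_zpow_sum {M : Type} [CommGroup M] {ι : Type} (s : Finset ι) (f : ι → ℤ)
    (a : M) : ∏ i ∈ s, a ^ f i = a ^ ∑ i ∈ s, f i := by
  classical
  induction s using Finset.induction_on with
  | empty => simp
  | insert x s hx ih => rw [Finset.prod_insert hx, Finset.sum_insert hx, ih, zpow_add]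

/-- For every set `Φ` of embeddings and every field `F` of characteristic zero there is a
group `Γ` (a split torus, with the indiscrete topology) and a `CMGaloisRep Φ Γ F`. -/
lemma exists_cmGaloisRep (Φ : Set (Emb E)) (F : Type) [Field F] [CharZero F] :
    ∃ (Γ : Type) (_ : Group Γ) (_ : TopologicalSpace Γ), Nonempty (CMGaloisRep Φ Γ F) := by
  classical
  let T : Finset (Set (Emb E)) :=
    Finset.univ.filter (fun Ψ => ∃ τ : AbsGal, Ψ = {φ : Emb E | galEmb τ φ ∈ Φ})
  let Γ : Type := Set (Emb E) → Multiplicative ℤ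
  let u : Fˣ := Units.mk0 (2 : F) two_ne_zero
  have hu : ∀ a b : ℤ, u ^ a = u ^ b → a = b := by
    have h2 : ∀ n : ℕ, u ^ n = 1 → n = 0 := by
      intro n hn
      have h3 : ((2 : F)) ^ n = 1 := by
        have := congrArg Units.val hn
        simpa [u] using this
      have h4 : (2 : ℕ) ^ n = 1 := by exact_mod_cast h3
      by_contra h5
      have := Nat.one_lt_two_pow h5
      omega
    intro a b hab
    have h6 : u ^ (a - b) = 1 := by rw [zpow_sub, hab, mul_inv_cancel]
    rcases Int.natAbs_eq (a - b) with h7 | h7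
    · rw [h7, zpow_natCast] at h6
      have := h2 _ h6
      omega
    · rw [h7, zpow_neg, zpow_natCast, inv_eq_one] at h6
      have := h2 _ h6
      omega
  let e : Set (Emb E) → Γ →* Fˣ := fun Ψ => (zpowersHom Fˣ u).comp (Pi.evalMonoidHom _ Ψ)
  let ψ : Emb E → Γ →* Fˣ := fun φ => ∏ Ψ ∈ T, if φ ∈ Ψ then e Ψ else 1
  let χ : Γ →* Fˣ := ∏ Ψ ∈ T, e Ψ
  have hprod : ∀ (m : Emb E → ℤ) (γ : Γ), ∏ φ : Emb E, ψ φ γ ^ m φ
      = ∏ Ψ ∈ T, e Ψ γ ^ (∑ φ : Emb E, Set.indicator Ψ m φ) := by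
    intro m γ
    have h1 : ∀ φ : Emb E, ψ φ γ ^ m φ = ∏ Ψ ∈ T, e Ψ γ ^ (Set.indicator Ψ m φ) := by
      intro φ
      simp only [ψ, MonoidHom.finsetProd_apply]
      rw [← Finset.prod_zpow]
      apply Finset.prod_congr rfl
      intro Ψ _
      by_cases h : φ ∈ Ψ
      · simp [h]
      · simp [h]
    rw [Finset.prod_congr rfl (fun φ _ => h1 φ), Finset.prod_comm]
    apply Finset.prod_congr rfl
    intro Ψ _
    exact (prod_zpow_eq_zpow_sum _ _ _)
  let top : TopologicalSpace Γ := ⊤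
  refine ⟨Γ, inferInstance, top, ⟨⟨ψ, χ, ?_⟩⟩⟩
  intro m k
  constructor
  · rintro ⟨U, hU⟩ τ
    have hUtop : ∀ γ : Γ, γ ∈ U := by
      intro γ
      have hopen : IsOpen (U : Set Γ) := U.isOpen
      rcases TopologicalSpace.isOpen_top_iff _ |>.mp hopen with h | h
      · exfalso
        have : (1 : Γ) ∈ (U : Set Γ) := U.one_mem
        rw [h] at this
        exact this
      · have : γ ∈ (U : Set Γ) := by rw [h]; trivial
        exact this
    let Ψ₀ : Set (Emb E) := {φ : Emb E | galEmb τ φ ∈ Φ}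
    have hΨ₀ : Ψ₀ ∈ T := by
      simp only [T, Finset.mem_filter, Finset.mem_univ, true_and]
      exact ⟨τ, rfl⟩
    let γ : Γ := Pi.mulSingle Ψ₀ (Multiplicative.ofAdd 1)
    have h1 := hU γ (hUtop γ)
    rw [hprod m γ] at h1
    have he : ∀ Ψ, e Ψ γ = if Ψ = Ψ₀ then u else 1 := by
      intro Ψ
      have e0 : e Ψ γ = u ^ Multiplicative.toAdd (γ Ψ) := rfl
      rw [e0]
      by_cases h : Ψ = Ψ₀
      · have e1 : γ Ψ = Multiplicative.ofAdd 1 := by rw [h]; exact Pi.mulSingle_eq_same _ _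
        rw [e1, if_pos h, toAdd_ofAdd, zpow_one]
      · have e1 : γ Ψ = 1 := Pi.mulSingle_eq_of_ne h _
        rw [e1, if_neg h, toAdd_one, zpow_zero]
    have hl : ∏ Ψ ∈ T, e Ψ γ ^ (∑ φ : Emb E, Set.indicator Ψ m φ)
        = u ^ (∑ φ : Emb E, Set.indicator Ψ₀ m φ) := by
      rw [Finset.prod_eq_single Ψ₀]
      · rw [he]; simp
      · intro Ψ _ h
        rw [he]; simp [h]
      · intro h; exact absurd hΨ₀ h
    have hr : χ γ = u := by
      simp only [χ, MonoidHom.finsetProd_apply]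
      rw [Finset.prod_eq_single Ψ₀]
      · rw [he]; simp
      · intro Ψ _ h
        rw [he]; simp [h]
      · intro h; exact absurd hΨ₀ h
    rw [hl, hr] at h1
    exact hu _ _ h1
  · intro h
    refine ⟨⟨⊤, isOpen_univ⟩, fun γ _ => ?_⟩
    rw [hprod m γ]
    simp only [χ, MonoidHom.finsetProd_apply]
    rw [← Finset.prod_zpow]
    apply Finset.prod_congr rfl
    intro Ψ hΨ
    obtain ⟨τ, rfl⟩ := (Finset.mem_filter.mp hΨ).2
    rw [h τ]

end Pool.Agent.Lib.MP_640417_ag
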