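import Pool.Agent.Lib.MP_640417_ag.NondegCyclic

/-!
# Existence of sign functions without odd relations: the general statement
-/

namespace Pool.Agent.Lib.MP_640417_ag

variable {S : Type*} [Fintype S] {G : Type*} [Group G] [MulAction G S]

/-- **Two-groups.** -/
theorem good_of_two_group [Finite G] [MulAction.IsPretransitive G S] [FaithfulSMul G S]
    (hG : IsPGroup 2 G) (z : G) (hz : ∀ γ : G, γ * z = z * γ) (hz2 : z * z = 1)
    (hzs : ∀ s : S, z • s ≠ s) (s₀ : S) (hcard : 16 ∣ Nat.card S) : Good S z := by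
  classical
  have hz1 : z ≠ 1 := by
    intro h
    apply hzs s₀
    rw [h, one_smul]
  by_cases hno : ∀ t : G, t * t = 1 → t ≠ 1 → t ≠ z → ∃ x : G, x * t ≠ t * x ∧ x * t ≠ t * z * x
  swap
  · push Not at hno
    obtain ⟨t, ht2, ht1, htz, ht⟩ := hno
    have ht' : ∀ γ : G, γ * t = t * γ ∨ γ * t = t * z * γ := by
      intro γ
      by_cases h : γ * t = t * γ
      · exact Or.inl h
      · exact Or.inr (ht γ h)
    by_cases hcent : ∀ γ : G, γ * t = t * γ
    · apply good_of_central_involution z t hz hz2 hzs ht2 _ _ s₀ hcent hG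
        (dvd_trans (by norm_num) hcard)
      · intro s hs
        apply ht1
        apply FaithfulSMul.eq_of_smul_eq_smul (α := S)
        intro s'
        obtain ⟨γ, rfl⟩ := MulAction.exists_smul_eq G s s'
        rw [← mul_smul, ← hcent, mul_smul, hs, one_smul]
      · intro s hs
        apply htz
        apply FaithfulSMul.eq_of_smul_eq_smul (α := S)
        intro s'
        obtain ⟨γ, rfl⟩ := MulAction.exists_smul_eq G s s'
        rw [← mul_smul, ← hcent, mul_smul, hs, ← mul_smul, hz, mul_smul]
    · push Not at hcent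
      obtain ⟨x₀, hx₀⟩ := hcent
      have hx₀' := (ht' x₀).resolve_left hx₀
      by_cases hfix : ∃ s₁ : S, t • s₁ = s₁
      · obtain ⟨s₁, hs₁⟩ := hfix
        exact good_of_involution_fixed z t x₀ hz hz2 hzs ht2 s₁ hs₁ ht' hx₀'
      · push Not at hfix
        apply good_of_involution_free z t x₀ hz hz2 hzs ht2 hfix _ s₀ ht' hx₀' hG hcard
        intro s hs
        apply hfix (x₀ • s)
        have h1 : t * x₀ = z * (x₀ * t) := by
          rw [hx₀', ← mul_assoc, ← mul_assoc, ← hz t, mul_assoc t z z, hz2, mul_one]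
        rw [← mul_smul, h1, mul_smul, mul_smul, hs, ← mul_smul x₀, hz, mul_smul, ← mul_smul z,
          hz2, one_smul]
  obtain ⟨r, m, hord, hrz, hidx⟩ := exists_cyclic_index_two hG z hz hz2 hz1 hno
  have hfree : ∀ (g : G), g ∈ Subgroup.zpowers r → ∀ s : S, g • s = s → g = 1 := by
    intro g hg s hs
    by_contra hne
    obtain ⟨k, hk⟩ := exists_pow_eq_z hG r z _ hord hrz g hg hne
    apply hzs s
    rw [← hk]
    have : g ∈ MulAction.stabilizer G s := hs
    exact (MulAction.stabilizer G s).pow_mem this k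
  have hinj : ∀ (s : S) (i j : Fin (2 * 2 ^ m)), r ^ (i : ℕ) • s = r ^ (j : ℕ) • s → i = j := by
    intro s i j h
    have h1 : ((r ^ (j : ℕ))⁻¹ * r ^ (i : ℕ)) • s = s := by
      rw [mul_smul, h, inv_smul_smul]
    have h2 := hfree _ (Subgroup.mul_mem _
      (Subgroup.inv_mem _ (Subgroup.pow_mem _ (Subgroup.mem_zpowers r) _))
      (Subgroup.pow_mem _ (Subgroup.mem_zpowers r) _)) s h1
    have h3 : r ^ (i : ℕ) = r ^ (j : ℕ) := (inv_mul_eq_one.mp h2).symm
    apply Fin.ext
    apply pow_injOn_Iio_orderOf _ _ h3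
    · rw [Set.mem_Iio, hord]
      exact i.2
    · rw [Set.mem_Iio, hord]
      exact j.2
  have hpow : ∀ g ∈ Subgroup.zpowers r, ∃ i : Fin (2 * 2 ^ m), r ^ (i : ℕ) = g := by
    intro g hg
    rw [← mem_powers_iff_mem_zpowers] at hg
    obtain ⟨i, hi⟩ := hg
    have hpos : 0 < orderOf r := orderOf_pos r
    refine ⟨⟨i % orderOf r, ?_⟩, ?_⟩
    · have := Nat.mod_lt i hpos
      rw [hord] at this ⊢
      exact this
    · simp only
      rw [pow_mod_orderOf]
      exact hi
  by_cases htr : ∀ s : S, ∃ g ∈ Subgroup.zpowers r, g • s₀ = s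
  · -- the cyclic subgroup is transitive
    apply good_of_cyclic_transitive z r (2 ^ m) hrz hz hz2 s₀
    constructor
    · rintro ⟨_, i⟩ ⟨_, j⟩ h
      have := hinj s₀ i j h
      rw [this]
    · intro s
      obtain ⟨g, hg, hgs⟩ := htr s
      obtain ⟨i, hi⟩ := hpow g hg
      refine ⟨((), i), ?_⟩
      simp only [hi, hgs]
  · push Not at htr
    obtain ⟨s₁, hs₁⟩ := htr
    obtain ⟨y₀, hy₀⟩ := MulAction.exists_smul_eq G s₀ s₁
    have hy₀M : y₀ ∉ Subgroup.zpowers r := fun h => hs₁ y₀ h hy₀
    have hyM : ∀ y ∉ Subgroup.zpowers r, ∀ g ∈ Subgroup.zpowers r, y • s₀ ≠ g • s₀ := by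
      intro y hy g hg h
      have h1 := hidx y₀ y⁻¹ hy₀M (fun h => hy (by simpa using Subgroup.inv_mem _ h))
      apply hs₁ (y₀ * y⁻¹ * g) (Subgroup.mul_mem _ h1 hg)
      rw [mul_smul, ← h, mul_smul, inv_smul_smul, hy₀]
    have hbij : ∀ y ∉ Subgroup.zpowers r, Function.Bijective
        (fun p : Bool × Fin (2 * 2 ^ m) => r ^ (p.2 : ℕ) • (if p.1 then s₀ else y • s₀)) := by
      intro y hy
      have hmix : ∀ i j : Fin (2 * 2 ^ m), r ^ (i : ℕ) • s₀ ≠ r ^ (j : ℕ) • y • s₀ := by
        intro i j h
        apply hyM y hy ((r ^ (j : ℕ))⁻¹ * r ^ (i : ℕ)) (Subgroup.mul_mem _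
          (Subgroup.inv_mem _ (Subgroup.pow_mem _ (Subgroup.mem_zpowers r) _))
          (Subgroup.pow_mem _ (Subgroup.mem_zpowers r) _))
        rw [mul_smul, h, inv_smul_smul]
      constructor
      · rintro ⟨b, i⟩ ⟨c, j⟩ h
        cases b <;> cases c
        · have := hinj (y • s₀) i j (by simpa using h)
          rw [this]
        · exfalso
          exact hmix j i (by simpa using h.symm)
        · exfalso
          exact hmix i j (by simpa using h)
        · have := hinj s₀ i j (by simpa using h)
          rw [this]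
      · intro s
        obtain ⟨γ, rfl⟩ := MulAction.exists_smul_eq G s₀ s
        by_cases hγ : γ ∈ Subgroup.zpowers r
        · obtain ⟨i, hi⟩ := hpow γ hγ
          refine ⟨(true, i), ?_⟩
          simp only [hi, if_true]
        · have h1 := hidx γ y⁻¹ hγ (fun h => hy (by simpa using Subgroup.inv_mem _ h))
          obtain ⟨i, hi⟩ := hpow _ h1
          refine ⟨(false, i), ?_⟩
          simp only [hi, Bool.false_eq_true, if_false]
          rw [mul_smul, inv_smul_smul]
    by_cases hsq : ∃ y ∉ Subgroup.zpowers r, y * y ≠ 1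
    · obtain ⟨y, hy, hy1⟩ := hsq
      obtain ⟨k, hk⟩ := exists_pow_eq_z hG r z _ hord hrz (y * y) (hidx y y hy hy) hy1
      exact good_of_index_two_y z r (2 ^ m) hrz hz hz2 s₀ y (hbij y hy) k hk
    · push Not at hsq
      have hcard2 : Nat.card S = 2 * (2 * 2 ^ m) := by
        rw [← Nat.card_congr (Equiv.ofBijective _ (hbij y₀ hy₀M)), Nat.card_prod]
        simp
      rw [hcard2] at hcard
      have h4 : 4 ∣ 2 ^ m := by
        obtain ⟨c, hc⟩ := hcard
        exact ⟨c, by omega⟩
      obtain ⟨n, hn⟩ := h4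
      have hn0 : 0 < n := by
        rcases Nat.eq_zero_or_pos n with h | h
        · rw [h, mul_zero] at hn
          have : 0 < 2 ^ m := by positivity
          omega
        · exact h
      have hb := hbij y₀ hy₀M
      rw [hn] at hb hrz
      apply good_of_dihedral z r n hn0 hrz hz hz2 hzs s₀ y₀ (hsq y₀ hy₀M) (hsq (y₀ * r) _) hb
      intro h
      apply hy₀M
      have := Subgroup.mul_mem _ h (Subgroup.inv_mem _ (Subgroup.mem_zpowers r))
      simpa using this

/-- **Existence of a sign function without odd relations**, except when the set has four or eight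
elements. -/
theorem exists_good [Finite G] [MulAction.IsPretransitive G S] [FaithfulSMul G S]
    (z : G) (hz : ∀ γ : G, γ * z = z * γ) (hz2 : z * z = 1)
    (hzs : ∀ s : S, z • s ≠ s) (s₀ : S) (h4 : Nat.card S ≠ 4) (h8 : Nat.card S ≠ 8) :
    Good S z := by
  classical
  have hcpos : Nat.card S ≠ 0 := by
    have : Nonempty S := ⟨s₀⟩
    exact Nat.card_pos.ne'
  by_cases hodd : ∃ p : ℕ, p.Prime ∧ p ≠ 2 ∧ p ∣ Nat.card S
  · obtain ⟨p, hp, hp2, hpS⟩ := hodd
    have : Fact p.Prime := ⟨hp⟩
    exact good_of_odd_prime z hz hz2 hzs s₀ p hp2 hpS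
  · push Not at hodd
    obtain ⟨k, hk⟩ : ∃ k, Nat.card S = 2 ^ k :=
      ⟨_, Nat.eq_prime_pow_of_unique_prime_dvd hcpos (fun {d} hd hdS => by
        by_contra hne
        exact hodd d hd hne hdS)⟩
    -- a Sylow subgroup containing `z`
    have hzP : IsPGroup 2 (Subgroup.zpowers z) := by
      intro g
      obtain ⟨g, hg⟩ := g
      obtain ⟨i, rfl⟩ := Subgroup.mem_zpowers_iff.mp hg
      refine ⟨1, ?_⟩
      ext
      push_cast
      rw [pow_two, ← zpow_add, ← two_mul, zpow_mul, zpow_ofNat, pow_two, hz2, one_zpow]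
    obtain ⟨P, hP⟩ := hzP.exists_le_sylow
    let zP : P := ⟨z, hP (Subgroup.mem_zpowers z)⟩
    have hPtr : MulAction.IsPretransitive P S := by
      have h1 : ∀ s : S, MulAction.orbit P s = Set.univ := by
        intro s
        have h2 := pow_dvd_card_orbit_sylow P (k := k) (by rw [hk]) s
        apply Set.eq_univ_of_forall
        have h3 : Nat.card S ≤ Nat.card (MulAction.orbit P s) := by
          rw [hk]
          apply Nat.le_of_dvd _ h2
          have : Nonempty (MulAction.orbit P s) := ⟨⟨s, MulAction.mem_orbit_self s⟩⟩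
          exact Nat.card_pos
        have h4 : (MulAction.orbit P s) = Set.univ := by
          apply Set.eq_of_subset_of_ncard_le (Set.subset_univ _) _ (Set.toFinite _)
          rw [Set.ncard_univ, ← Nat.card_coe_set_eq]
          exact h3
        rw [h4]
        exact fun _ => Set.mem_univ _
      exact ⟨fun s s' => by
        have : s' ∈ MulAction.orbit P s := by rw [h1]; exact Set.mem_univ _
        exact this⟩
    have hPfaith : FaithfulSMul P S := by
      refine ⟨fun {a b} h => ?_⟩
      apply Subtype.ext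
      apply FaithfulSMul.eq_of_smul_eq_smul (α := S)
      exact h
    have hkk : k = 0 ∨ k = 1 ∨ k = 2 ∨ k = 3 ∨ 4 ≤ k := by omega
    have heven : 2 ∣ Nat.card S := by
      have h1 := sum_eq_two_mul_sign (fun s : S => z • s)
        (by intro s; rw [← mul_smul, hz2, one_smul]) (fun _ => 1)
      obtain ⟨e, he, hec, -⟩ := exists_sign (fun s : S => z • s) (fun s : S => s)
        (by intro s; rw [← mul_smul, hz2, one_smul]) (fun _ => rfl) (fun _ => rfl) hzs hzs
      have h2 := h1 e (fun _ => rfl) he hec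
      rw [Finset.sum_const, Finset.card_univ, ← Nat.card_eq_fintype_card, nsmul_eq_mul,
        mul_one] at h2
      have h3 : (2 : ℤ) ∣ (Nat.card S : ℤ) := Dvd.intro _ h2.symm
      exact_mod_cast h3
    rcases hkk with rfl | rfl | rfl | rfl | hk4
    · exfalso
      rw [hk] at heven
      omega
    · -- two elements
      have hall : ∀ s : S, s = s₀ ∨ s = z • s₀ := by
        have h1 : ({s₀, z • s₀} : Finset S) = Finset.univ := by
          apply Finset.eq_univ_of_card
          rw [Finset.card_pair (fun h => hzs s₀ h.symm), ← Nat.card_eq_fintype_card, hk, pow_one]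
        intro s
        have : s ∈ ({s₀, z • s₀} : Finset S) := by rw [h1]; exact Finset.mem_univ _
        simpa using this
      obtain ⟨e, he, hec, -⟩ := exists_sign (fun s : S => z • s) (fun s : S => s)
        (by intro s; rw [← mul_smul, hz2, one_smul]) (fun _ => rfl) (fun _ => rfl) hzs hzs
      refine ⟨e, ⟨he, hec⟩, ?_⟩
      apply eq_zero_of_zero z hz e s₀
      intro v hv
      have h1 := hv.2 1
      simp only [one_smul] at h1
      have h2 : ∀ s, v s * e s = v s₀ * e s₀ := by
        intro s
        rcases hall s with h | h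
        · rw [h]
        · rw [h, hv.1, hec]
          ring
      rw [Finset.sum_congr rfl (fun s _ => h2 s), Finset.sum_const, Finset.card_univ,
        ← Nat.card_eq_fintype_card, hk] at h1
      rcases he s₀ with h | h <;> rw [h] at h1 <;> simpa using h1
    · exact absurd hk (by simpa using h4)
    · exact absurd hk (by simpa using h8)
    · have h16 : 16 ∣ Nat.card S := by
        rw [hk]
        exact pow_dvd_pow 2 hk4
      have hgood : Good S zP := good_of_two_group P.2 zP
        (fun γ => Subtype.ext (hz (γ : G))) (Subtype.ext hz2) hzs s₀ h16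
      exact hgood.of_subgroup P.1 zP
  done

end Pool.Agent.Lib.MP_640417_ag
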