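import Mathlib

/-!
# Finite `2`-groups with a central involution `z` and no other involution `t` whose conjugates lie
in `{t, t z}`
-/

namespace Pool.Agent.Lib.MP_640417_ag

section normal

lemma exists_central_in_normal {Q : Type*} [Group Q] [Finite Q] (hQ : IsPGroup 2 Q)
    (C : Subgroup Q) [hCn : C.Normal] (hC : C ≠ ⊥) :
    ∃ c ∈ C, c ≠ 1 ∧ c * c = 1 ∧ ∀ x, x * c = c * x := by
  have hdvd : 2 ∣ Nat.card C := by
    have hCp : IsPGroup 2 C := hQ.to_subgroup C
    obtain ⟨k, hk⟩ := IsPGroup.iff_card.mp hCp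
    rw [hk]
    rcases Nat.eq_zero_or_pos k with rfl | hk0
    · exfalso
      apply hC
      rw [pow_zero] at hk
      exact Subgroup.card_eq_one.mp hk
    · exact dvd_pow_self 2 hk0.ne'
  have hact : IsPGroup 2 (ConjAct Q) := hQ
  obtain ⟨b, hb, hb1⟩ := hact.exists_fixed_point_of_prime_dvd_card_of_fixed_point C hdvd
    (a := 1) (by
      intro g
      ext
      simp)
  have hbc : ∀ x : Q, x * (b : Q) = b * x := by
    intro x
    have h1 := hb (ConjAct.toConjAct x)
    have h2 := congrArg (fun y : C => (y : Q)) h1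
    simp only [ConjAct.Subgroup.val_conj_smul, ConjAct.toConjAct_smul] at h2
    exact mul_inv_eq_iff_eq_mul.mp h2
  have hb1' : (b : Q) ≠ 1 := by
    intro h
    apply hb1
    ext
    rw [h]
    rfl
  -- take a power of order two
  obtain ⟨k, hk⟩ := IsPGroup.iff_orderOf.mp hQ b
  rcases Nat.eq_zero_or_pos k with rfl | hk0
  · exfalso
    rw [pow_zero, orderOf_eq_one_iff] at hk
    exact hb1' hk
  obtain ⟨j, rfl⟩ : ∃ j, k = j + 1 := ⟨k - 1, by omega⟩
  refine ⟨(b : Q) ^ 2 ^ j, C.pow_mem b.2 _, ?_, ?_, ?_⟩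
  · intro h
    have h1 := orderOf_dvd_of_pow_eq_one h
    rw [hk] at h1
    have h2 := Nat.le_of_dvd (by positivity) h1
    rw [pow_succ] at h2
    have : 0 < 2 ^ j := by positivity
    omega
  · rw [← pow_add, ← two_mul, ← pow_succ', ← hk, pow_orderOf_eq_one]
  · intro x
    have : Commute x (b : Q) := hbc x
    exact this.pow_right _

lemma exists_step {G : Type*} [Group G] [Finite G] (hG : IsPGroup 2 G)
    (M C : Subgroup G) [M.Normal] [hCn : C.Normal] (hMC : M < C) :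
    ∃ c ∈ C, c ∉ M ∧ c * c ∈ M ∧ ∀ x, x * c * x⁻¹ * c⁻¹ ∈ M := by
  have hQ : IsPGroup 2 (G ⧸ M) := hG.to_quotient M
  have hn : (C.map (QuotientGroup.mk' M)).Normal :=
    hCn.map _ (QuotientGroup.mk'_surjective M)
  obtain ⟨cb, hcb, hcb1, hcb2, hcb3⟩ := exists_central_in_normal hQ (C.map (QuotientGroup.mk' M))
    (by
      intro h
      rw [Subgroup.map_eq_bot_iff, QuotientGroup.ker_mk'] at h
      exact absurd h (not_le_of_gt hMC))
  obtain ⟨c, hc, rfl⟩ := hcb
  refine ⟨c, hc, ?_, ?_, ?_⟩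
  · intro h
    exact hcb1 ((QuotientGroup.eq_one_iff c).mpr h)
  · exact (QuotientGroup.eq_one_iff (c * c)).mp hcb2
  · intro x
    rw [← QuotientGroup.eq_one_iff]
    have h1 := hcb3 (QuotientGroup.mk' M x)
    change ((QuotientGroup.mk' M) x) * (QuotientGroup.mk' M) c * ((QuotientGroup.mk' M) x)⁻¹ *
      ((QuotientGroup.mk' M) c)⁻¹ = 1
    rw [h1]
    group

end normal

section cyclic

variable {G : Type*} [Group G]

/-- the unique involution of a cyclic group -/
lemma eq_of_sq_eq_one (r z : G) (n : ℕ) (hr : orderOf r = 2 * n) (hrz : r ^ n = z)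
    (m : G) (hm : m ∈ Subgroup.zpowers r) (hm2 : m * m = 1) : m = 1 ∨ m = z := by
  obtain ⟨k, rfl⟩ := Subgroup.mem_zpowers_iff.mp hm
  rw [← zpow_add] at hm2
  have h1 := orderOf_dvd_iff_zpow_eq_one.mpr hm2
  rw [hr] at h1
  push_cast at h1
  obtain ⟨j, hj⟩ := h1
  have h2 : k = n * j := by
    have : (2 : ℤ) * k = 2 * (n * j) := by linarith
    linarith
  have hzz : z ^ (2 : ℤ) = 1 := by
    rw [← hrz, ← zpow_natCast, ← zpow_mul]
    have : ((n : ℤ) * 2) = ((2 * n : ℕ) : ℤ) := by push_cast; ring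
    rw [this, zpow_natCast, ← hr, pow_orderOf_eq_one]
  rw [h2, zpow_mul, zpow_natCast, hrz]
  rcases Int.even_or_odd' j with ⟨i, hi | hi⟩
  · left
    rw [hi, zpow_mul, hzz, one_zpow]
  · right
    rw [hi, zpow_add, zpow_mul, hzz, one_zpow, one_mul, zpow_one]

lemma exists_pow_eq_z [Finite G] (hG : IsPGroup 2 G) (r z : G) (n : ℕ)
    (hr : orderOf r = 2 * n) (hrz : r ^ n = z) (m : G) (hm : m ∈ Subgroup.zpowers r)
    (hm1 : m ≠ 1) : ∃ k : ℕ, m ^ k = z := by
  obtain ⟨k, hk⟩ := IsPGroup.iff_orderOf.mp hG m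
  rcases Nat.eq_zero_or_pos k with rfl | hk0
  · exfalso
    rw [pow_zero, orderOf_eq_one_iff] at hk
    exact hm1 hk
  obtain ⟨j, rfl⟩ : ∃ j, k = j + 1 := ⟨k - 1, by omega⟩
  refine ⟨2 ^ j, ?_⟩
  have h1 : m ^ 2 ^ j * m ^ 2 ^ j = 1 := by
    rw [← pow_add, ← two_mul, ← pow_succ', ← hk, pow_orderOf_eq_one]
  rcases eq_of_sq_eq_one r z n hr hrz (m ^ 2 ^ j) (Subgroup.pow_mem _ hm _) h1 with h | h
  · exfalso
    have h1 := orderOf_dvd_of_pow_eq_one h
    rw [hk] at h1
    have h2 := Nat.le_of_dvd (by positivity) h1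
    rw [pow_succ] at h2
    have : 0 < 2 ^ j := by positivity
    omega
  · exact h

/-- A maximal normal cyclic subgroup containing `z` is its own centralizer. -/
lemma exists_max_cyclic [Finite G] (hG : IsPGroup 2 G) (z : G) (hz : ∀ γ : G, γ * z = z * γ)
    (hz2 : z * z = 1) (hz1 : z ≠ 1)
    (hno : ∀ t : G, t * t = 1 → t ≠ 1 → t ≠ z → ∃ x : G, x * t ≠ t * x ∧ x * t ≠ t * z * x) :
    ∃ (r : G) (m : ℕ), orderOf r = 2 * 2 ^ m ∧ r ^ (2 ^ m) = z ∧ (Subgroup.zpowers r).Normal ∧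
      ∀ x, x * r = r * x → x ∈ Subgroup.zpowers r := by
  classical
  let T : Set G := {r | (Subgroup.zpowers r).Normal ∧ z ∈ Subgroup.zpowers r}
  have hTne : T.Nonempty := by
    refine ⟨z, ⟨fun n hn g => ?_⟩, Subgroup.mem_zpowers z⟩
    obtain ⟨k, rfl⟩ := Subgroup.mem_zpowers_iff.mp hn
    have h1 : Commute g z := hz g
    have h2 : g * z ^ k = z ^ k * g := h1.zpow_right k
    rw [h2, mul_inv_cancel_right]
    exact Subgroup.zpow_mem _ (Subgroup.mem_zpowers z) k
  obtain ⟨r, hrT, hmax⟩ := Set.exists_max_image T orderOf (Set.toFinite T) hTne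
  obtain ⟨hnorm, hzr⟩ := hrT
  obtain ⟨k, hk⟩ := IsPGroup.iff_orderOf.mp hG r
  rcases Nat.eq_zero_or_pos k with rfl | hk0
  · exfalso
    rw [pow_zero, orderOf_eq_one_iff] at hk
    rw [hk, Subgroup.zpowers_one_eq_bot, Subgroup.mem_bot] at hzr
    exact hz1 hzr
  obtain ⟨m, rfl⟩ : ∃ j, k = j + 1 := ⟨k - 1, by omega⟩
  have hord : orderOf r = 2 * 2 ^ m := by rw [hk, pow_succ']
  have hrz : r ^ (2 ^ m) = z := by
    rcases eq_of_sq_eq_one r (r ^ (2 ^ m)) (2 ^ m) hord rfl z hzr hz2 with h | h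
    · exact absurd h hz1
    · exact h.symm
  refine ⟨r, m, hord, hrz, hnorm, ?_⟩
  intro x hx
  by_contra hxM
  have hcomm : ∀ y : G, y * r = r * y → ∀ k : ℤ, y * r ^ k = r ^ k * y := by
    intro y hy k
    have h1 : Commute y r := hy
    exact h1.zpow_right k
  have hMC : Subgroup.zpowers r < Subgroup.centralizer (Subgroup.zpowers r : Set G) := by
    refine lt_of_le_of_ne ?_ ?_
    · intro y hy
      rw [Subgroup.mem_centralizer_iff]
      intro w hw
      obtain ⟨i, rfl⟩ := Subgroup.mem_zpowers_iff.mp hy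
      obtain ⟨j, rfl⟩ := Subgroup.mem_zpowers_iff.mp hw
      rw [← zpow_add, ← zpow_add, add_comm]
    · intro h
      apply hxM
      rw [h, Subgroup.mem_centralizer_iff]
      intro w hw
      obtain ⟨j, rfl⟩ := Subgroup.mem_zpowers_iff.mp hw
      exact (hcomm x hx j).symm
  obtain ⟨c, hcC, hcM, hc2, hcx⟩ := exists_step hG (Subgroup.zpowers r)
    (Subgroup.centralizer (Subgroup.zpowers r : Set G)) hMC
  have hcr : c * r = r * c :=
    ((Subgroup.mem_centralizer_iff.mp hcC) r (Subgroup.mem_zpowers r)).symm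
  obtain ⟨j, hj⟩ := Subgroup.mem_zpowers_iff.mp hc2
  rcases Int.even_or_odd' j with ⟨i, hi | hi⟩
  · -- even: an involution outside
    let t : G := c * r ^ (-i)
    have htr : t * r = r * t := by
      change c * r ^ (-i) * r = r * (c * r ^ (-i))
      rw [mul_assoc, ← zpow_add_one, ← mul_assoc, ← hcr, mul_assoc, ← zpow_one_add, add_comm]
    have ht2 : t * t = 1 := by
      change c * r ^ (-i) * (c * r ^ (-i)) = 1
      have h1 : r ^ (-i) * c = c * r ^ (-i) := (hcomm c hcr (-i)).symm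
      calc c * r ^ (-i) * (c * r ^ (-i)) = c * (r ^ (-i) * c) * r ^ (-i) := by
            simp only [mul_assoc]
        _ = c * (c * r ^ (-i)) * r ^ (-i) := by rw [h1]
        _ = (c * c) * (r ^ (-i) * r ^ (-i)) := by simp only [mul_assoc]
        _ = 1 := by
            rw [← hj, ← zpow_add, ← zpow_add, hi]
            have : 2 * i + (-i + -i) = 0 := by ring
            rw [this, zpow_zero]
    have htM : t ∉ Subgroup.zpowers r := by
      intro h
      apply hcM
      have h1 := Subgroup.mul_mem _ h (Subgroup.zpow_mem _ (Subgroup.mem_zpowers r) i)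
      have h2 : t * r ^ i = c := by
        change c * r ^ (-i) * r ^ i = c
        rw [mul_assoc, ← zpow_add]
        simp
      rw [h2] at h1
      exact h1
    obtain ⟨y, hy1, hy2⟩ := hno t ht2
      (fun h => htM (by rw [h]; exact Subgroup.one_mem _))
      (fun h => htM (by rw [h]; exact hzr))
    -- the commutator lies in the cyclic group
    have hyt : t⁻¹ * (y * t * y⁻¹) ∈ Subgroup.zpowers r := by
      rw [← QuotientGroup.eq_one_iff]
      have h1 : (QuotientGroup.mk' (Subgroup.zpowers r)) r = 1 :=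
        (QuotientGroup.eq_one_iff r).mpr (Subgroup.mem_zpowers r)
      have h2 : (QuotientGroup.mk' (Subgroup.zpowers r)) (y * c * y⁻¹ * c⁻¹) = 1 :=
        (QuotientGroup.eq_one_iff _).mpr (hcx y)
      change (QuotientGroup.mk' (Subgroup.zpowers r))
        ((c * r ^ (-i))⁻¹ * (y * (c * r ^ (-i)) * y⁻¹)) = 1
      simp only [map_mul, map_inv, map_zpow, h1, one_zpow, mul_one] at h2 ⊢
      exact inv_mul_eq_one.mpr (mul_inv_eq_one.mp h2).symm
    obtain ⟨a, ha⟩ := Subgroup.mem_zpowers_iff.mp hyt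
    have h3 : y * t * y⁻¹ = t * r ^ a := by rw [ha]; group
    have h4 : r ^ a * r ^ a = 1 := by
      have h5 : (y * t * y⁻¹) * (y * t * y⁻¹) = 1 := by
        calc (y * t * y⁻¹) * (y * t * y⁻¹) = y * (t * t) * y⁻¹ := by group
          _ = 1 := by rw [ht2]; group
      rw [h3] at h5
      calc r ^ a * r ^ a = (t * t) * (r ^ a * r ^ a) := by rw [ht2, one_mul]
        _ = t * (t * r ^ a) * r ^ a := by simp only [mul_assoc]
        _ = t * (r ^ a * t) * r ^ a := by rw [hcomm t htr a]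
        _ = (t * r ^ a) * (t * r ^ a) := by simp only [mul_assoc]
        _ = 1 := h5
    rcases eq_of_sq_eq_one r z _ hord hrz (r ^ a)
      (Subgroup.zpow_mem _ (Subgroup.mem_zpowers r) a) h4 with h | h
    · rw [h, mul_one] at h3
      exact hy1 (mul_inv_eq_iff_eq_mul.mp h3)
    · rw [h] at h3
      exact hy2 (mul_inv_eq_iff_eq_mul.mp h3)
  · -- odd: a larger cyclic normal subgroup
    have hcop : IsCoprime j (2 * 2 ^ m : ℤ) := by
      rw [← pow_succ']
      apply IsCoprime.pow_right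
      rw [hi]
      exact ⟨1, -i, by ring⟩
    obtain ⟨a, b, hab⟩ := hcop
    have hrc : r ∈ Subgroup.zpowers c := by
      have h1 : r = (c * c) ^ a := by
        rw [← hj, ← zpow_mul]
        have h2 : j * a = 1 + (-b) * ((orderOf r : ℕ) : ℤ) := by
          rw [hord]
          push_cast
          linarith
        rw [h2, zpow_add, zpow_one, mul_comm (-b), zpow_mul, zpow_natCast, pow_orderOf_eq_one,
          one_zpow, mul_one]
      rw [h1]
      exact Subgroup.zpow_mem _ (Subgroup.mul_mem _ (Subgroup.mem_zpowers c)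
        (Subgroup.mem_zpowers c)) a
    have hle : Subgroup.zpowers r ≤ Subgroup.zpowers c := by
      rw [Subgroup.zpowers_le]
      exact hrc
    have hcT : c ∈ T := by
      refine ⟨⟨fun n hn g => ?_⟩, hle hzr⟩
      obtain ⟨k, rfl⟩ := Subgroup.mem_zpowers_iff.mp hn
      rw [← conj_zpow]
      apply Subgroup.zpow_mem
      have h1 := Subgroup.mul_mem _ (hle (hcx g)) (Subgroup.mem_zpowers c)
      simpa using h1
    have hle2 := hmax c hcT
    have heq : Subgroup.zpowers r = Subgroup.zpowers c := by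
      apply Subgroup.eq_of_le_of_card_ge hle
      rw [Nat.card_zpowers, Nat.card_zpowers]
      exact hle2
    exact hcM (heq ▸ Subgroup.mem_zpowers c)

/-- No element outside the cyclic subgroup multiplies the generator by `z`. -/
lemma no_conj_z (z : G) (hz : ∀ γ : G, γ * z = z * γ) (hz2 : z * z = 1) (hz1 : z ≠ 1)
    (hno : ∀ t : G, t * t = 1 → t ≠ 1 → t ≠ z → ∃ x : G, x * t ≠ t * x ∧ x * t ≠ t * z * x)
    (r : G) (n : ℕ) (hord : orderOf r = 2 * (4 * n)) (hrz : r ^ (4 * n) = z)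
    (hcop : IsCoprime (1 + 2 * n : ℤ) (4 * n))
    (hnorm : (Subgroup.zpowers r).Normal) (hself : ∀ x, x * r = r * x → x ∈ Subgroup.zpowers r)
    (x : G) (hx : x * r * x⁻¹ = r * z) (hx2 : x * x ∈ Subgroup.zpowers r) :
    x ∈ Subgroup.zpowers r := by
  by_contra hxM
  have hzcomm : ∀ g : G, Commute g z := hz
  have hzM : z ∈ Subgroup.zpowers r := by
    rw [← hrz]
    exact Subgroup.pow_mem _ (Subgroup.mem_zpowers r) _
  have hzz : z ^ (2 : ℤ) = 1 := by
    rw [zpow_ofNat, pow_two, hz2]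
  have hzpow : ∀ k : ℤ, z ^ k = r ^ (4 * n * k) := by
    intro k
    rw [zpow_mul, ← hrz]
    congr 1
    rw [← zpow_natCast]
    push_cast
    rfl
  -- elements acting like `x`
  have hact : ∀ y : G, y * r * y⁻¹ = r * z → ∀ k : ℤ, y * r ^ k * y⁻¹ = r ^ (k + 4 * n * k) := by
    intro y hy k
    rw [← conj_zpow, hy, (hzcomm r).mul_zpow, hzpow, ← zpow_add]
  obtain ⟨j, hj⟩ := Subgroup.mem_zpowers_iff.mp hx2
  have hjeven : ∃ i, j = 2 * i := by
    have h1 := hact x hx j
    have h2 : x * r ^ j * x⁻¹ = r ^ j := by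
      rw [hj]
      group
    rw [h2] at h1
    have h3 : z ^ j = 1 := by
      rw [hzpow]
      have h4 : r ^ (j + 4 * (n : ℤ) * j) = r ^ j * r ^ (4 * (n : ℤ) * j) := zpow_add _ _ _
      rw [h4] at h1
      exact (mul_eq_left.mp h1.symm)
    rcases Int.even_or_odd' j with ⟨i, hi | hi⟩
    · exact ⟨i, hi⟩
    · exfalso
      rw [hi, zpow_add, zpow_mul, hzz, one_zpow, one_mul, zpow_one] at h3
      exact hz1 h3
  obtain ⟨i, hi⟩ := hjeven
  have hrord : ∀ k : ℤ, r ^ (8 * n * k) = 1 := by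
    intro k
    rw [zpow_mul]
    have : (8 * (n : ℤ)) = ((orderOf r : ℕ) : ℤ) := by rw [hord]; push_cast; ring
    rw [this, zpow_natCast, pow_orderOf_eq_one, one_zpow]
  -- conjugation by `x` is an involution on the cyclic group
  let k : ℤ := -i * (1 - 2 * n)
  let t : G := x * r ^ k
  have htact : t * r * t⁻¹ = r * z := by
    change x * r ^ k * r * (x * r ^ k)⁻¹ = r * z
    rw [← hx]
    group
  have ht2 : t * t = 1 := by
    have h1 := hact x hx k
    have h2 : t * t = (x * r ^ k * x⁻¹) * (x * x) * r ^ k := by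
      change x * r ^ k * (x * r ^ k) = _
      group
    rw [h2, h1, ← hj, ← zpow_add, ← zpow_add, hi]
    have h3 : k + 4 * (n : ℤ) * k + 2 * i + k = 8 * n * (i * n) := by
      simp only [k]
      ring
    rw [h3, hrord]
  have htM : t ∉ Subgroup.zpowers r := by
    intro h
    apply hxM
    have h1 := Subgroup.mul_mem _ h (Subgroup.zpow_mem _ (Subgroup.mem_zpowers r) (-k))
    have h2 : t * r ^ (-k) = x := by
      change x * r ^ k * r ^ (-k) = x
      rw [mul_assoc, ← zpow_add]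
      simp
    rw [h2] at h1
    exact h1
  obtain ⟨y, hy1, hy2⟩ := hno t ht2
    (fun h => htM (by rw [h]; exact Subgroup.one_mem _))
    (fun h => htM (by rw [h]; exact hzM))
  let q : G := y * t * y⁻¹
  have hq2 : q * q = 1 := by
    calc q * q = y * (t * t) * y⁻¹ := by simp only [q]; group
      _ = 1 := by rw [ht2]; group
  have hqM : q ∉ Subgroup.zpowers r := by
    intro h
    apply htM
    have h1 := hnorm.conj_mem q h y⁻¹
    have h2 : y⁻¹ * q * y⁻¹⁻¹ = t := by simp only [q]; group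
    rw [h2] at h1
    exact h1
  have hqr2 : q * r ^ (2 : ℤ) * q⁻¹ = r ^ (2 : ℤ) := by
    have h1 := hnorm.conj_mem r (Subgroup.mem_zpowers r) y⁻¹
    obtain ⟨w, hw⟩ := Subgroup.mem_zpowers_iff.mp h1
    rw [inv_inv] at hw
    have h2 : y⁻¹ * r ^ (2 : ℤ) * y = r ^ (w * 2) := by
      have := conj_zpow (i := 2) (a := y⁻¹) (b := r)
      rw [inv_inv] at this
      rw [← this, ← hw, ← zpow_mul]
    have h3 := hact t htact (w * 2)
    have h4 : r ^ (w * 2 + 4 * (n : ℤ) * (w * 2)) = r ^ (w * 2) := by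
      rw [zpow_add]
      have : 4 * (n : ℤ) * (w * 2) = 8 * n * w := by ring
      rw [this, hrord, mul_one]
    rw [h4] at h3
    calc q * r ^ (2 : ℤ) * q⁻¹ = y * (t * (y⁻¹ * r ^ (2 : ℤ) * y) * t⁻¹) * y⁻¹ := by
          simp only [q]; group
      _ = y * r ^ (w * 2) * y⁻¹ := by rw [h2, h3]
      _ = r ^ (2 : ℤ) := by rw [← h2]; group
  obtain ⟨w, hw⟩ := Subgroup.mem_zpowers_iff.mp (hnorm.conj_mem r (Subgroup.mem_zpowers r) q)
  have hp : r ^ (w - 1) * r ^ (w - 1) = 1 := by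
    have h1 : q * r ^ (2 : ℤ) * q⁻¹ = r ^ (w * 2) := by
      rw [← conj_zpow, ← hw, ← zpow_mul]
    rw [hqr2] at h1
    rw [← zpow_add]
    have h2 : w - 1 + (w - 1) = w * 2 + -2 := by ring
    rw [h2, zpow_add, ← h1, ← zpow_add]
    simp
  rcases eq_of_sq_eq_one r z _ hord hrz (r ^ (w - 1))
      (Subgroup.zpow_mem _ (Subgroup.mem_zpowers r) _) hp with h | h
  · apply hqM
    apply hself
    have h1 : r ^ w = r := by
      have : r ^ w = r ^ (w - 1) * r := by rw [← zpow_add_one]; congr 1; ring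
      rw [this, h, one_mul]
    rw [h1] at hw
    exact (mul_inv_eq_iff_eq_mul.mp hw.symm)
  · have h1 : r ^ w = r * z := by
      have : r ^ w = r ^ (w - 1) * r := by rw [← zpow_add_one]; congr 1; ring
      rw [this, h, hz r]
    rw [h1] at hw
    -- `q r q⁻¹ = r z`
    have hl : t⁻¹ * q ∈ Subgroup.zpowers r := by
      apply hself
      have h2 : q * r = r * z * q := mul_inv_eq_iff_eq_mul.mp hw.symm
      have h3 : t⁻¹ * (r * z) = r * t⁻¹ := by
        rw [← htact]
        group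
      calc t⁻¹ * q * r = t⁻¹ * (q * r) := by rw [mul_assoc]
        _ = t⁻¹ * (r * z) * q := by rw [h2]; simp only [mul_assoc]
        _ = r * (t⁻¹ * q) := by rw [h3, mul_assoc]
    obtain ⟨a, ha⟩ := Subgroup.mem_zpowers_iff.mp hl
    have hqt : q = t * r ^ a := by rw [ha]; group
    have h2 := hact t htact a
    have h3 : r ^ (a + 4 * (n : ℤ) * a) * r ^ a = 1 := by
      calc r ^ (a + 4 * (n : ℤ) * a) * r ^ a = (t * r ^ a * t⁻¹) * (t * t) * r ^ a := by
            rw [h2, ht2, mul_one]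
        _ = (t * r ^ a) * (t * r ^ a) := by group
        _ = 1 := by rw [← hqt, hq2]
    have h4 : r ^ a * r ^ a = 1 := by
      rw [← zpow_add] at h3
      have h5 := orderOf_dvd_iff_zpow_eq_one.mpr h3
      rw [hord] at h5
      push_cast at h5
      obtain ⟨b, hb⟩ := h5
      have h6 : (4 * (n : ℤ)) ∣ a * (1 + 2 * n) := ⟨b, by linarith⟩
      have h7 : (4 * (n : ℤ)) ∣ a := (IsCoprime.symm hcop).dvd_of_dvd_mul_right h6
      obtain ⟨c, hc⟩ := h7
      rw [← zpow_add, hc]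
      have : 4 * (n : ℤ) * c + 4 * n * c = 8 * n * c := by ring
      rw [this, hrord]
    have h8 : y * t = q * y := by simp only [q]; group
    rcases eq_of_sq_eq_one r z _ hord hrz (r ^ a)
        (Subgroup.zpow_mem _ (Subgroup.mem_zpowers r) _) h4 with h | h
    · apply hy1
      rw [h8, hqt, h, mul_one]
    · apply hy2
      rw [h8, hqt, h]

lemma conj_pow_two (x r : G) (u : ℤ) (hu : x * r * x⁻¹ = r ^ u) :
    (x * x) * r * (x * x)⁻¹ = r ^ (u * u) := by
  calc (x * x) * r * (x * x)⁻¹ = x * (x * r * x⁻¹) * x⁻¹ := by group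
    _ = x * r ^ u * x⁻¹ := by rw [hu]
    _ = (x * r * x⁻¹) ^ u := conj_zpow.symm
    _ = r ^ (u * u) := by rw [hu, ← zpow_mul]

lemma core_step (z : G) (hz : ∀ γ : G, γ * z = z * γ) (hz2 : z * z = 1) (hz1 : z ≠ 1)
    (hno : ∀ t : G, t * t = 1 → t ≠ 1 → t ≠ z → ∃ x : G, x * t ≠ t * x ∧ x * t ≠ t * z * x)
    (r : G) (m : ℕ) (hord : orderOf r = 2 * 2 ^ m) (hrz : r ^ (2 ^ m) = z)
    (hnorm : (Subgroup.zpowers r).Normal) (hself : ∀ x, x * r = r * x → x ∈ Subgroup.zpowers r)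
    (x : G) (u : ℤ) (hu : x * r * x⁻¹ = r ^ u) (h4 : 4 ∣ u - 1)
    (hx2 : x * x ∈ Subgroup.zpowers r) : x ∈ Subgroup.zpowers r := by
  by_contra hxM
  obtain ⟨a, ha⟩ := h4
  have h1 : r ^ (u * u) = r := by
    rw [← conj_pow_two x r u hu]
    obtain ⟨j, hj⟩ := Subgroup.mem_zpowers_iff.mp hx2
    rw [← hj, ← zpow_add_one, add_comm, zpow_one_add, mul_inv_cancel_right]
  have h2 : r ^ (u * u - 1) = 1 := by
    rw [zpow_sub_one, h1, mul_inv_cancel]
  have h3 := orderOf_dvd_iff_zpow_eq_one.mpr h2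
  rw [hord] at h3
  push_cast at h3
  have hdvd : (2 ^ m : ℤ) ∣ u - 1 := by
    obtain ⟨b, hb⟩ := h3
    have h5 : (2 ^ m : ℤ) ∣ (u - 1) * (2 * a + 1) := by
      refine ⟨b, ?_⟩
      have hu' : u = 4 * a + 1 := by linarith
      rw [hu'] at hb ⊢
      linarith
    have hcop : IsCoprime (2 ^ m : ℤ) (2 * a + 1) := by
      apply IsCoprime.pow_left
      exact ⟨-a, 1, by ring⟩
    exact hcop.dvd_of_dvd_mul_right h5
  obtain ⟨c, hc⟩ := hdvd
  have hzc : r ^ (2 ^ m * c : ℤ) = z ^ c := by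
    rw [zpow_mul, ← hrz]
    congr 1
    rw [← zpow_natCast]
    push_cast
    rfl
  have hru : r ^ u = r * z ^ c := by
    have : u = 1 + 2 ^ m * c := by linarith
    rw [this, zpow_add, zpow_one, hzc]
  have hzz : z ^ (2 : ℤ) = 1 := by
    rw [zpow_ofNat, pow_two, hz2]
  rcases Int.even_or_odd' c with ⟨i, hi | hi⟩
  · rw [hi, zpow_mul, hzz, one_zpow, mul_one] at hru
    rw [hru] at hu
    exact hxM (hself x (mul_inv_eq_iff_eq_mul.mp hu))
  · rw [hi, zpow_add, zpow_mul, hzz, one_zpow, one_mul, zpow_one] at hru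
    rw [hru] at hu
    -- `m ≥ 2`
    have hm : 2 ≤ m := by
      by_contra hm
      have hm' : m = 0 ∨ m = 1 := by omega
      rcases hm' with rfl | rfl
      · rw [hi] at hc
        norm_num at hc
        omega
      · rw [hi] at hc
        norm_num at hc
        omega
    obtain ⟨l, rfl⟩ : ∃ l, m = l + 2 := ⟨m - 2, by omega⟩
    have hpow : 2 ^ (l + 2) = 4 * 2 ^ l := by
      rw [pow_add]
      ring
    rw [hpow] at hord hrz
    exact hxM (no_conj_z z hz hz2 hz1 hno r (2 ^ l) hord hrz (by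
      push_cast
      have : (4 * 2 ^ l : ℤ) = 2 ^ (l + 2) := by rw [pow_add]; ring
      rw [this]
      apply IsCoprime.pow_right
      exact ⟨1, -2 ^ l, by ring⟩) hnorm hself x hu hx2)

lemma mem_of_four_dvd (z : G) (hz : ∀ γ : G, γ * z = z * γ) (hz2 : z * z = 1) (hz1 : z ≠ 1)
    (hno : ∀ t : G, t * t = 1 → t ≠ 1 → t ≠ z → ∃ x : G, x * t ≠ t * x ∧ x * t ≠ t * z * x)
    (r : G) (m : ℕ) (hord : orderOf r = 2 * 2 ^ m) (hrz : r ^ (2 ^ m) = z)
    (hnorm : (Subgroup.zpowers r).Normal) (hself : ∀ x, x * r = r * x → x ∈ Subgroup.zpowers r)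
    (K : ℕ) : ∀ (x : G) (u : ℤ), x ^ 2 ^ K ∈ Subgroup.zpowers r → x * r * x⁻¹ = r ^ u →
      4 ∣ u - 1 → x ∈ Subgroup.zpowers r := by
  induction K with
  | zero =>
    intro x u hx _ _
    simpa using hx
  | succ K ih =>
    intro x u hx hu h4
    apply core_step z hz hz2 hz1 hno r m hord hrz hnorm hself x u hu h4
    apply ih (x * x) (u * u) _ (conj_pow_two x r u hu)
    · obtain ⟨a, ha⟩ := h4
      refine ⟨a * (u + 1), ?_⟩
      have : u * u - 1 = (u - 1) * (u + 1) := by ring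
      rw [this, ha]
      ring
    · rw [← pow_two, ← pow_mul, ← pow_succ']
      exact hx

/-- The cyclic subgroup has index at most two. -/
theorem exists_cyclic_index_two [Finite G] (hG : IsPGroup 2 G) (z : G)
    (hz : ∀ γ : G, γ * z = z * γ) (hz2 : z * z = 1) (hz1 : z ≠ 1)
    (hno : ∀ t : G, t * t = 1 → t ≠ 1 → t ≠ z → ∃ x : G, x * t ≠ t * x ∧ x * t ≠ t * z * x) :
    ∃ (r : G) (m : ℕ), orderOf r = 2 * 2 ^ m ∧ r ^ (2 ^ m) = z ∧
      ∀ x y, x ∉ Subgroup.zpowers r → y ∉ Subgroup.zpowers r → x * y ∈ Subgroup.zpowers r := by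
  obtain ⟨r, m, hord, hrz, hnorm, hself⟩ := exists_max_cyclic hG z hz hz2 hz1 hno
  refine ⟨r, m, hord, hrz, ?_⟩
  have hexp : ∀ x : G, ∃ u : ℤ, x * r * x⁻¹ = r ^ u := by
    intro x
    obtain ⟨u, hu⟩ := Subgroup.mem_zpowers_iff.mp (hnorm.conj_mem r (Subgroup.mem_zpowers r) x)
    exact ⟨u, hu.symm⟩
  have hodd : ∀ (x : G) (u : ℤ), x * r * x⁻¹ = r ^ u → Odd u := by
    intro x u hu
    rcases Int.even_or_odd' u with ⟨i, hi | hi⟩
    · exfalso
      have h1 : (x * r * x⁻¹) ^ 2 ^ m = z := by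
        rw [conj_pow, hrz, hz, mul_inv_cancel_right]
      rw [hu, hi, ← zpow_natCast, ← zpow_mul] at h1
      have h2 : 2 * i * ((2 ^ m : ℕ) : ℤ) = ((orderOf r : ℕ) : ℤ) * i := by
        rw [hord]
        push_cast
        ring
      rw [h2, zpow_mul, zpow_natCast, pow_orderOf_eq_one, one_zpow] at h1
      exact hz1 h1.symm
    · exact ⟨i, hi⟩
  have hmem : ∀ (x : G) (u : ℤ), x * r * x⁻¹ = r ^ u → 4 ∣ u - 1 → x ∈ Subgroup.zpowers r := by
    intro x u hu h4
    obtain ⟨K, hK⟩ := hG x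
    exact mem_of_four_dvd z hz hz2 hz1 hno r m hord hrz hnorm hself K x u
      (by rw [hK]; exact Subgroup.one_mem _) hu h4
  intro x y hx hy
  obtain ⟨u, hu⟩ := hexp x
  obtain ⟨w, hw⟩ := hexp y
  have hu1 := hodd x u hu
  have hw1 := hodd y w hw
  have hu4 : ¬ 4 ∣ u - 1 := fun h => hx (hmem x u hu h)
  have hw4 : ¬ 4 ∣ w - 1 := fun h => hy (hmem y w hw h)
  have hu3 : ∃ a, u = 4 * a + 3 := by
    obtain ⟨a, ha⟩ := hu1
    exact ⟨(u - 3) / 4, by omega⟩
  have hw3 : ∃ a, w = 4 * a + 3 := by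
    obtain ⟨a, ha⟩ := hw1
    exact ⟨(w - 3) / 4, by omega⟩
  obtain ⟨a, ha⟩ := hu3
  obtain ⟨b, hb⟩ := hw3
  apply hmem (x * y) (u * w)
  · calc x * y * r * (x * y)⁻¹ = x * (y * r * y⁻¹) * x⁻¹ := by group
      _ = (x * r * x⁻¹) ^ w := by rw [hw, conj_zpow]
      _ = r ^ (u * w) := by rw [hu, ← zpow_mul]
  · refine ⟨4 * a * b + 3 * a + 3 * b + 2, ?_⟩
    rw [ha, hb]
    ring

end cyclic

end Pool.Agent.Lib.MP_640417_ag
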