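import Pool.Agent.Lib.MP_640417_ag.NondegTwo
import Pool.Agent.Lib.MP_640417_ag.NondegGroup

/-!
# Sign functions without odd relations: groups with a cyclic subgroup of index at most two
-/

namespace Pool.Agent.Lib.MP_640417_ag

section wrap

variable {S : Type*} [Fintype S] {G : Type*} [Group G] [MulAction G S]

lemma exists_wrap {ι : Type*} [Fintype ι] (z r : G) (n : ℕ) (hzr : r ^ n = z)
    (hz2 : z * z = 1) (b : ι → S)
    (hb : Function.Bijective (fun p : ι × Fin (2 * n) => r ^ (p.2 : ℕ) • b p.1)) :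
    ∃ w : S → ℤ, IsSgn z w ∧ (∀ (j : ι) (i : ℕ), i < n → w (r ^ i • b j) = 1) ∧
      ∀ v : S → ℤ, (∀ s, v (z • s) = - v s) →
      ∑ s, v s * w s = 2 * ∑ j, ∑ i ∈ Finset.range n, v (r ^ i • b j) := by
  classical
  let f : ι × Fin (2 * n) ≃ S := Equiv.ofBijective _ hb
  have hf : ∀ p, f p = r ^ (p.2 : ℕ) • b p.1 := fun p => rfl
  let w : S → ℤ := fun s => if ((f.symm s).2 : ℕ) < n then 1 else -1
  have hwf : ∀ p, w (f p) = if (p.2 : ℕ) < n then 1 else -1 := by
    intro p
    simp only [w, Equiv.symm_apply_apply]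
  have hr2n : r ^ (2 * n) = 1 := by
    rw [two_mul, pow_add, hzr, hz2]
  refine ⟨w, ⟨fun s => ?_, fun s => ?_⟩, ?_, ?_⟩
  · simp only [w]
    split_ifs
    · exact Or.inl rfl
    · exact Or.inr rfl
  · obtain ⟨⟨j, i⟩, rfl⟩ := f.surjective s
    by_cases hi : (i : ℕ) < n
    · have h1 : z • f (j, i) = f (j, ⟨n + i, by omega⟩) := by
        rw [hf, hf, ← mul_smul, ← hzr, ← pow_add]
      rw [h1, hwf, hwf]
      simp [hi]
    · have h1 : z • f (j, i) = f (j, ⟨i - n, by omega⟩) := by
        rw [hf, hf, ← mul_smul, ← hzr, ← pow_add]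
        have h2 : n + (i : ℕ) = 2 * n + (i - n) := by omega
        simp only
        rw [h2, pow_add, hr2n, one_mul]
      rw [h1, hwf, hwf]
      have h3 : (i : ℕ) - n < n := by omega
      simp [hi, h3]
  · intro j i hi
    have h1 : r ^ i • b j = f (j, ⟨i, by omega⟩) := rfl
    rw [h1, hwf, if_pos hi]
  · intro v hv
    have h1 : ∑ s, v s * w s = ∑ p : ι × Fin (2 * n), v (f p) * w (f p) :=
      (Equiv.sum_comp f (fun s => v s * w s)).symm
    rw [h1, Fintype.sum_prod_type, Finset.mul_sum]
    apply Finset.sum_congr rfl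
    intro j _
    have h2 : ∑ i : Fin (2 * n), v (f (j, i)) * w (f (j, i))
        = ∑ i ∈ Finset.range (2 * n), v (r ^ i • b j) * (if i < n then 1 else -1) := by
      rw [← Fin.sum_univ_eq_sum_range (fun i => v (r ^ i • b j) * (if i < n then (1 : ℤ) else -1))]
      apply Finset.sum_congr rfl
      intro i _
      rw [hwf, hf]
    rw [h2, two_mul, Finset.sum_range_add, two_mul]
    congr 1
    · apply Finset.sum_congr rfl
      intro i hi
      rw [Finset.mem_range] at hi
      rw [if_pos hi, mul_one]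
    · apply Finset.sum_congr rfl
      intro i hi
      rw [if_neg (by omega), pow_add, hzr, mul_smul, hv]
      ring

omit [Fintype S] in
lemma diff_wrap (z r : G) (n : ℕ) (hzr : r ^ n = z) (hz : ∀ γ : G, γ * z = z * γ) (v : S → ℤ)
    (hv : ∀ s, v (z • s) = - v s) (γ : G) (b : S) :
    ∑ i ∈ Finset.range n, v (γ • r ^ i • b) - ∑ i ∈ Finset.range n, v ((γ * r) • r ^ i • b)
      = 2 * v (γ • b) := by
  have h1 : ∀ i, v ((γ * r) • r ^ i • b) = v (γ • r ^ (i + 1) • b) := by
    intro i
    rw [mul_smul, ← mul_smul r, ← pow_succ']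
  simp only [h1]
  have h2 := Finset.sum_range_succ (fun i => v (γ • r ^ i • b)) n
  have h3 := Finset.sum_range_succ' (fun i => v (γ • r ^ i • b)) n
  rw [h2] at h3
  simp only [pow_zero, one_smul] at h3
  have h4 : v (γ • r ^ n • b) = - v (γ • b) := by
    rw [hzr, ← mul_smul, hz, mul_smul, hv]
  rw [h4] at h3
  linarith

end wrap

section cases

variable {S : Type*} [Fintype S] {G : Type*} [Group G] [MulAction G S]

/-- relation sums for all translates -/
lemma rel_translate (z : G) (hz : ∀ γ : G, γ * z = z * γ) (e v : S → ℤ) (hv : v ∈ oddRel z e)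
    (γ : G) : ∑ s, v (γ • s) * e s = 0 := by
  have h1 := (oddRel_comp z hz e γ v hv).2 1
  simpa only [one_smul] using h1

/-- **Case C1.** -/
theorem good_of_cyclic_transitive [MulAction.IsPretransitive G S] (z r : G) (n : ℕ)
    (hzr : r ^ n = z) (hz : ∀ γ : G, γ * z = z * γ) (hz2 : z * z = 1) (s₀ : S)
    (hb : Function.Bijective (fun p : Unit × Fin (2 * n) => r ^ (p.2 : ℕ) • s₀)) : Good S z := by
  obtain ⟨w, hw, -, hsum⟩ := exists_wrap z r n hzr hz2 (fun _ : Unit => s₀) hb
  refine ⟨w, hw, ?_⟩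
  apply eq_zero_of_zero z hz w s₀
  intro v hv
  have h1 : ∀ γ : G, ∑ i ∈ Finset.range n, v (γ • r ^ i • s₀) = 0 := by
    intro γ
    have h2 := hsum (fun s => v (γ • s)) (oddRel_comp z hz w γ v hv).1
    rw [rel_translate z hz w v hv γ] at h2
    simp only [Finset.univ_unique, Finset.sum_const, Finset.card_singleton, one_smul] at h2
    linarith
  have h3 := diff_wrap z r n hzr hz v hv.1 1 s₀
  rw [h1, h1, one_smul] at h3
  linarith

/-- **Case C2, with an element outside of order larger than two.** -/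
theorem good_of_index_two_y [MulAction.IsPretransitive G S] (z r : G) (n : ℕ)
    (hzr : r ^ n = z) (hz : ∀ γ : G, γ * z = z * γ) (hz2 : z * z = 1) (s₀ : S) (y : G)
    (hb : Function.Bijective (fun p : Bool × Fin (2 * n) => r ^ (p.2 : ℕ) •
      (if p.1 then s₀ else y • s₀))) (k : ℕ) (hy : (y * y) ^ k = z) : Good S z := by
  obtain ⟨w, hw, -, hsum⟩ := exists_wrap z r n hzr hz2 (fun p : Bool => if p then s₀ else y • s₀) hb
  refine ⟨w, hw, ?_⟩
  apply eq_zero_of_zero z hz w s₀
  intro v hv
  have h1 : ∀ γ : G, ∑ i ∈ Finset.range n, v (γ • r ^ i • s₀)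
      + ∑ i ∈ Finset.range n, v (γ • r ^ i • y • s₀) = 0 := by
    intro γ
    have h2 := hsum (fun s => v (γ • s)) (oddRel_comp z hz w γ v hv).1
    rw [rel_translate z hz w v hv γ] at h2
    simp only [Fintype.sum_bool, if_true, Bool.false_eq_true, if_false] at h2
    linarith
  have h2 : ∀ γ : G, v (γ • s₀) + v (γ • y • s₀) = 0 := by
    intro γ
    have h3 := diff_wrap z r n hzr hz v hv.1 γ s₀
    have h4 := diff_wrap z r n hzr hz v hv.1 γ (y • s₀)
    have h5 := h1 γ
    have h6 := h1 (γ * r)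
    linarith
  have h3 : ∀ j : ℕ, v ((y * y) ^ j • s₀) = v s₀ := by
    intro j
    induction j with
    | zero => rw [pow_zero, one_smul]
    | succ j ih =>
      have h4 := h2 ((y * y) ^ j)
      have h5 := h2 ((y * y) ^ j * y)
      have h6 : ((y * y) ^ j * y) • y • s₀ = (y * y) ^ (j + 1) • s₀ := by
        rw [← mul_smul, pow_succ, mul_assoc]
      have h7 : ((y * y) ^ j * y) • s₀ = (y * y) ^ j • y • s₀ := mul_smul _ _ _
      rw [h6, h7] at h5
      linarith
  have h4 := h3 k
  rw [hy, hv.1] at h4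
  linarith

/-- The recursion of the dihedral case. -/
lemma dihedral_recursion (a b : ℤ → ℤ) (n : ℕ) (hn : 0 < n)
    (h1 : ∀ i, a i + b i - b (i + 1) + b (i + 2) = 0)
    (h2 : ∀ i, a i + b i - a (i - 1) + a (i - 2) = 0)
    (hper : ∀ i, a (i + 4 * n) = - a i) : a 0 = 0 := by
  have h3 : ∀ i, a (i + 2) - 2 * a (i + 1) + 2 * a i - 2 * a (i - 1) + a (i - 2) = 0 := by
    intro i
    have e0 := h1 i
    have e1 := h2 i
    have e2 := h2 (i + 1)
    have e3 := h2 (i + 2)
    have f1 : i + 1 - 1 = i := by ring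
    have f2 : i + 1 - 2 = i - 1 := by ring
    have f3 : i + 2 - 1 = i + 1 := by ring
    have f4 : i + 2 - 2 = i := by ring
    rw [f1, f2] at e2
    rw [f3, f4] at e3
    linarith
  let c : ℤ → ℤ := fun i => a (i + 2) + a i
  have hc : ∀ i, c (i + 2) - 2 * c (i + 1) + c i = 0 := by
    intro i
    have e := h3 (i + 2)
    simp only [c]
    have f1 : i + 2 - 2 = i := by ring
    have f2 : i + 2 - 1 = i + 1 := by ring
    have f3 : i + 2 + 1 = i + 1 + 2 := by ring
    rw [f1, f2, f3] at e
    linarith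
  have hd : ∀ (k : ℕ) (i : ℤ), c (i + k + 1) - c (i + k) = c (i + 1) - c i := by
    intro k
    induction k with
    | zero => intro i; simp
    | succ k ih =>
      intro i
      have e := hc (i + k)
      have e2 := ih i
      push_cast
      have f1 : i + (k + 1 : ℤ) + 1 = i + k + 2 := by ring
      have f2 : i + (k + 1 : ℤ) = i + k + 1 := by ring
      rw [f1, f2]
      linarith
  have hck : ∀ (k : ℕ) (i : ℤ), c (i + k) = c i + k * (c (i + 1) - c i) := by
    intro k
    induction k with
    | zero => intro i; simp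
    | succ k ih =>
      intro i
      have e := hd k i
      have e2 := ih i
      push_cast
      have f2 : i + (k + 1 : ℤ) = i + k + 1 := by ring
      rw [f2]
      linarith
  have hcper : ∀ i, c (i + 4 * n) = - c i := by
    intro i
    simp only [c]
    have f1 : i + 4 * (n : ℤ) + 2 = i + 2 + 4 * n := by ring
    rw [f1, hper, hper]
    ring
  have hstep : ∀ i, c (i + 1) = c i := by
    intro i
    have e := hck (8 * n) i
    have e2 := hcper (i + 4 * n)
    have e2' := hcper i
    push_cast at e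
    have f1 : i + 4 * (n : ℤ) + 4 * n = i + 8 * n := by ring
    rw [f1] at e2
    have e3 : (8 * n : ℤ) * (c (i + 1) - c i) = 0 := by linarith
    have e4 : (8 * n : ℤ) ≠ 0 := by positivity
    have e5 := (mul_eq_zero.mp e3).resolve_left e4
    linarith
  have hc0 : ∀ i, c i = 0 := by
    intro i
    have e := hck (4 * n) i
    push_cast at e
    rw [hstep, hcper] at e
    linarith
  have ha2 : ∀ i, a (i + 2) = - a i := by
    intro i
    have := hc0 i
    simp only [c] at this
    linarith
  have ha4 : ∀ k : ℕ, a (4 * k) = a 0 := by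
    intro k
    induction k with
    | zero => simp
    | succ k ih =>
      have e1 := ha2 (4 * k)
      have e2 := ha2 (4 * k + 2)
      push_cast
      have f : (4 : ℤ) * (k + 1) = 4 * k + 2 + 2 := by ring
      rw [f, e2, e1, ih]
      ring
  have e := hper 0
  rw [zero_add, ha4] at e
  linarith

/-- **Case C2, dihedral.** -/
theorem good_of_dihedral [MulAction.IsPretransitive G S] (z r : G) (n : ℕ) (hn : 0 < n)
    (hzr : r ^ (4 * n) = z) (hz : ∀ γ : G, γ * z = z * γ) (hz2 : z * z = 1)
    (hzs : ∀ s : S, z • s ≠ s) (s₀ : S) (t : G) (ht2 : t * t = 1) (htr : (t * r) * (t * r) = 1)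
    (hb : Function.Bijective (fun p : Bool × Fin (2 * (4 * n)) => r ^ (p.2 : ℕ) •
      (if p.1 then s₀ else t • s₀))) : Good S z := by
  obtain ⟨w, hw, hw1, hsum⟩ := exists_wrap z r (4 * n) hzr hz2
    (fun p : Bool => if p then s₀ else t • s₀) hb
  obtain ⟨e, he, hflip⟩ := exists_flip z hz2 hzs w hw (r • t • s₀)
  have hwa : w (r • t • s₀) = 1 := by
    have := hw1 false 1 (by omega)
    simpa using this
  refine ⟨e, he, ?_⟩
  apply eq_zero_of_zero z hz e s₀
  intro v hv
  have h1 : ∀ γ : G, ∑ i ∈ Finset.range (4 * n), v (γ • r ^ i • s₀)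
      + ∑ i ∈ Finset.range (4 * n), v (γ • r ^ i • t • s₀) = 2 * v (γ • r • t • s₀) := by
    intro γ
    have h2 := hsum (fun s => v (γ • s)) (oddRel_comp z hz e γ v hv).1
    have h3 := hflip (fun s => v (γ • s)) (oddRel_comp z hz e γ v hv).1
    rw [rel_translate z hz e v hv γ, h2, hwa] at h3
    simp only [Fintype.sum_bool, if_true, Bool.false_eq_true, if_false] at h3
    linarith
  have h2 : ∀ γ : G, v (γ • s₀) + v (γ • t • s₀) - v (γ • r • t • s₀)
      + v ((γ * r) • r • t • s₀) = 0 := by
    intro γ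
    have h3 := diff_wrap z r (4 * n) hzr hz v hv.1 γ s₀
    have h4 := diff_wrap z r (4 * n) hzr hz v hv.1 γ (t • s₀)
    have h5 := h1 γ
    have h6 := h1 (γ * r)
    linarith
  have htrt : t * r = r⁻¹ * t := by
    have h3 : t * r = (t * r)⁻¹ := eq_inv_of_mul_eq_one_left htr
    have h4 : t⁻¹ = t := inv_eq_of_mul_eq_one_left ht2
    rw [h3, mul_inv_rev, h4]
  have hrt : r * t = t * r⁻¹ := by
    have : r * (t * r) = t := by rw [htrt, mul_inv_cancel_left]
    rw [← mul_assoc] at this
    exact eq_mul_inv_of_mul_eq this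
  have key := dihedral_recursion (fun i => v (r ^ i • s₀)) (fun i => v (r ^ i • t • s₀)) n hn
    (by
      intro i
      have h3 := h2 (r ^ i)
      simp only [← mul_smul] at h3 ⊢
      have f1 : r ^ (i + 1) = r ^ i * r := zpow_add_one _ _
      have f2 : r ^ (i + 2) = r ^ i * r * r := by
        have : i + 2 = i + 1 + 1 := by ring
        rw [this, zpow_add_one, zpow_add_one]
      rw [f1, f2]
      simp only [mul_assoc] at h3 ⊢
      exact h3)
    (by
      intro i
      have h3 := h2 (r ^ i * t)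
      simp only [← mul_smul] at h3 ⊢
      have f1 : r ^ (i - 1) = r ^ i * t * (r * t) := by
        rw [hrt, ← mul_assoc, mul_assoc (r ^ i) t t, ht2, mul_one, zpow_sub_one]
      have f2 : r ^ (i - 2) = r ^ i * t * r * (r * t) := by
        have h4 : i - 2 = i - 1 - 1 := by ring
        have h5 : r ^ i * t * r = r ^ i * r⁻¹ * t := by
          rw [mul_assoc, htrt, ← mul_assoc]
        rw [h4, h5, hrt, ← mul_assoc, mul_assoc _ t t, ht2, mul_one, zpow_sub_one, zpow_sub_one]
      rw [f1, f2]
      have f3 : r ^ i * t * t = r ^ i := by rw [mul_assoc, ht2, mul_one]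
      rw [f3] at h3
      linarith)
    (by
      intro i
      have f1 : r ^ (i + 4 * (n : ℤ)) = z * r ^ i := by
        rw [zpow_add, ← hz, ← hzr]
        congr 1
        have : (4 * (n : ℤ)) = ((4 * n : ℕ) : ℤ) := by push_cast; ring
        rw [this, zpow_natCast]
      rw [f1, mul_smul, hv.1])
  simpa using key

end cases

end Pool.Agent.Lib.MP_640417_ag
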