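import Pool.Agent.Lib.MP_640417_ag.Nondeg

/-!
# Sign functions without odd relations: `2`-groups with a suitable involution
-/

namespace Pool.Agent.Lib.MP_640417_ag

section sums

variable {S : Type*} [Fintype S]

lemma exists_sign (c d : S → S) (hc : ∀ s, c (c s) = s) (hd : ∀ s, d (d s) = s)
    (hcd : ∀ s, c (d s) = d (c s)) (h1 : ∀ s, c s ≠ s) (h2 : ∀ s, c s ≠ d s) :
    ∃ e : S → ℤ, (∀ s, e s = 1 ∨ e s = -1) ∧ (∀ s, e (c s) = - e s) ∧ ∀ s, e (d s) = e s := by
  classical
  let f : S ≃ Fin (Fintype.card S) := Fintype.equivFin S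
  let m : S → Fin (Fintype.card S) := fun s => min (f s) (f (d s))
  have hmd : ∀ s, m (d s) = m s := by
    intro s
    simp only [m, hd]
    exact min_comm _ _
  have hmc : ∀ s, m s ≠ m (c s) := by
    intro s h
    have hL : m s = f s ∨ m s = f (d s) := min_choice _ _
    have hR : m (c s) = f (c s) ∨ m (c s) = f (d (c s)) := min_choice _ _
    rcases hL with hL | hL <;> rcases hR with hR | hR <;> rw [hL, hR] at h <;>
      have h := f.injective h
    · exact h1 s h.symm
    · apply h2 s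
      have := congrArg d h
      rw [hd] at this
      exact this.symm
    · exact h2 s h.symm
    · apply h1 s
      have := congrArg d h
      rw [hd, hd] at this
      exact this.symm
  refine ⟨fun s => if m s < m (c s) then 1 else -1, ?_, ?_, ?_⟩
  · intro s
    by_cases h : m s < m (c s) <;> simp [h]
  · intro s
    simp only [hc]
    rcases lt_or_gt_of_ne (hmc s) with h | h
    · rw [if_neg (not_lt.mpr h.le), if_pos h]
    · rw [if_pos h, if_neg (not_lt.mpr h.le)]
      norm_num
  · intro s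
    simp only [hmd, hcd]

lemma sum_eq_two_mul_sign (c : S → S) (hc : ∀ s, c (c s) = s) (F e : S → ℤ)
    (hF : ∀ s, F (c s) = F s) (he : ∀ s, e s = 1 ∨ e s = -1) (hec : ∀ s, e (c s) = - e s) :
    ∑ s, F s = 2 * ∑ s, (if e s = 1 then F s else 0) := by
  classical
  have hbij : Function.Bijective c := Function.Involutive.bijective hc
  have h1 : ∑ s, (if e s = 1 then F s else 0) = ∑ s, (if e s = 1 then 0 else F s) := by
    apply Fintype.sum_bijective c hbij
    intro s
    rw [hec, hF]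
    rcases he s with h | h <;> rw [h] <;> norm_num
  have h2 : ∑ s, F s = ∑ s, (if e s = 1 then F s else 0) + ∑ s, (if e s = 1 then 0 else F s) := by
    rw [← Finset.sum_add_distrib]
    apply Finset.sum_congr rfl
    intro s _
    split_ifs <;> simp
  rw [h2, ← h1]
  ring

/-- Sums of functions invariant under two commuting fixed point free involutions with fixed point
free product. -/
lemma four_dvd_sum (c d : S → S) (hc : ∀ s, c (c s) = s) (hd : ∀ s, d (d s) = s)
    (hcd : ∀ s, c (d s) = d (c s)) (h1 : ∀ s, c s ≠ s) (h2 : ∀ s, c s ≠ d s) (h3 : ∀ s, d s ≠ s)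
    (F : S → ℤ) (hFc : ∀ s, F (c s) = F s) (hFd : ∀ s, F (d s) = F s) : (4 : ℤ) ∣ ∑ s, F s := by
  obtain ⟨e, he, hec, hed⟩ := exists_sign c d hc hd hcd h1 h2
  obtain ⟨e', he', hec', hed'⟩ := exists_sign d c hd hc (fun s => (hcd s).symm) h3
    (fun s => (h2 s).symm)
  rw [sum_eq_two_mul_sign c hc F e hFc he hec,
    sum_eq_two_mul_sign d hd _ e' (fun s => by simp only [hed, hFd]) he' hec', ← mul_assoc]
  exact Dvd.intro _ rfl

end sums

section flip

variable {S : Type*} [Fintype S] {G : Type*} [Group G] [MulAction G S]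

lemma exists_flip (z : G) (hz2 : z * z = 1) (hzs : ∀ s : S, z • s ≠ s) (w : S → ℤ)
    (hw : IsSgn z w) (a : S) :
    ∃ e : S → ℤ, IsSgn z e ∧ ∀ v : S → ℤ, (∀ s, v (z • s) = - v s) →
      ∑ s, v s * e s = ∑ s, v s * w s - 4 * (v a * w a) := by
  classical
  obtain ⟨hwpm, hwz⟩ := hw
  let e : S → ℤ := fun s => if s = a ∨ s = z • a then - w s else w s
  have hzz : ∀ s : S, z • z • s = s := by
    intro s
    rw [← mul_smul, hz2, one_smul]
  have he : IsSgn z e := by
    refine ⟨fun s => ?_, fun s => ?_⟩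
    · simp only [e]
      rcases hwpm s with h | h <;> split_ifs <;> simp [h]
    · have h1 : (z • s = a ∨ z • s = z • a) ↔ (s = a ∨ s = z • a) := by
        constructor
        · rintro (h | h)
          · right; rw [← h, hzz]
          · left; exact MulAction.injective z h
        · rintro (h | h)
          · right; rw [h]
          · left; rw [h, hzz]
      simp only [e, h1]
      split_ifs
      · rw [hwz]
      · rw [hwz]
  refine ⟨e, he, ?_⟩
  intro v hv
  have h2 : ∀ s, v s * e s = v s * w s - (if s = a then 2 * (v s * w s) else 0)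
      - (if s = z • a then 2 * (v s * w s) else 0) := by
    intro s
    by_cases ha : s = a
    · simp only [e, ha, true_or, if_true]
      rw [if_neg (fun h => hzs a h.symm)]
      ring
    · by_cases hb : s = z • a
      · simp only [e, hb, or_true, if_true]
        rw [if_neg (hzs a)]
        ring
      · simp only [e, ha, hb, or_false, if_false]
        ring
  rw [Finset.sum_congr rfl (fun s _ => h2 s), Finset.sum_sub_distrib, Finset.sum_sub_distrib,
    Finset.sum_ite_eq' Finset.univ a, Finset.sum_ite_eq' Finset.univ (z • a)]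
  simp only [Finset.mem_univ, if_true, hv, hwz]
  ring

end flip

section involution

variable {S : Type*} [Fintype S] {G : Type*} [Group G] [MulAction G S]

/-- The parity lemma. -/
lemma parity_contradiction (z t : G) (hz : ∀ γ : G, γ * z = z * γ) (hz2 : z * z = 1)
    (hzs : ∀ s : S, z • s ≠ s) (ht2 : t * t = 1) (hts : ∀ s : S, t • s ≠ s)
    (htz : ∀ s : S, t • s ≠ z • s) (e₀ v : S → ℤ) (he₀ : IsSgn z e₀)
    (he₀t : ∀ s, e₀ (t • s) = - e₀ s) (s₀ : S) (hvz : ∀ s, v (z • s) = - v s)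
    (hvt : ∀ s, v (t • s) = - v s) (hodd : Odd (v s₀))
    (hcard : 8 ∣ Nat.card {s : S // Odd (v s)})
    (hsum : ∑ s, v s * e₀ s = 4 * (v s₀ * e₀ s₀)) : False := by
  classical
  let I : S → ℤ := fun s => if Odd (v s) then 1 else 0
  have hev : ∀ s, ∃ k, v s * e₀ s = I s + 2 * k := by
    intro s
    by_cases h : Odd (v s)
    · have h1 : Odd (v s * e₀ s) := by
        apply h.mul
        rcases he₀.1 s with h2 | h2 <;> rw [h2] <;> decide
      obtain ⟨k, hk⟩ := h1
      refine ⟨k, ?_⟩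
      simp only [I, if_pos h, hk]
      ring
    · have h1 : Even (v s * e₀ s) := by
        rw [Int.not_odd_iff_even] at h
        exact h.mul_right _
      obtain ⟨k, hk⟩ := h1
      refine ⟨k, ?_⟩
      simp only [I, if_neg h, hk]
      ring
  choose F₁ hF₁ using hev
  have hIz : ∀ s, I (z • s) = I s := by
    intro s
    simp only [I, hvz]
    congr 1
    simp
  have hIt : ∀ s, I (t • s) = I s := by
    intro s
    simp only [I, hvt]
    congr 1
    simp
  have hFz : ∀ s, F₁ (z • s) = F₁ s := by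
    intro s
    have h1 := hF₁ (z • s)
    have h2 := hF₁ s
    rw [hvz, he₀.2, hIz] at h1
    linarith
  have hFt : ∀ s, F₁ (t • s) = F₁ s := by
    intro s
    have h1 := hF₁ (t • s)
    have h2 := hF₁ s
    rw [hvt, he₀t, hIt] at h1
    linarith
  have h4 : (4 : ℤ) ∣ ∑ s, F₁ s := by
    apply four_dvd_sum (fun s : S => z • s) (fun s => t • s)
    · intro s
      rw [← mul_smul, hz2, one_smul]
    · intro s
      rw [← mul_smul, ht2, one_smul]
    · intro s
      rw [← mul_smul, ← mul_smul, hz]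
    · exact hzs
    · intro s h
      exact htz s h.symm
    · exact hts
    · exact hFz
    · exact hFt
  have hI : ∑ s, I s = (Nat.card {s : S // Odd (v s)} : ℤ) := by
    simp only [I]
    rw [Finset.sum_ite, Finset.sum_const_zero, add_zero, Finset.sum_const, nsmul_eq_mul, mul_one,
      Nat.card_eq_fintype_card, Fintype.card_subtype]
  have h5 : ∑ s, v s * e₀ s = (Nat.card {s : S // Odd (v s)} : ℤ) + 2 * ∑ s, F₁ s := by
    rw [← hI, Finset.mul_sum, ← Finset.sum_add_distrib]
    exact Finset.sum_congr rfl (fun s _ => hF₁ s)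
  have h6 : Odd (v s₀ * e₀ s₀) := by
    apply hodd.mul
    rcases he₀.1 s₀ with h2 | h2 <;> rw [h2] <;> decide
  obtain ⟨a, ha⟩ := hcard
  obtain ⟨b, hb⟩ := h4
  obtain ⟨c, hc⟩ := h6
  rw [hsum, hc, hb, ha] at h5
  push_cast at h5
  omega

lemma exists_sign_involution (z t : G) (hz : ∀ γ : G, γ * z = z * γ) (hz2 : z * z = 1)
    (hzs : ∀ s : S, z • s ≠ s) (ht2 : t * t = 1) (hts : ∀ s : S, t • s ≠ s) :
    ∃ e₀ : S → ℤ, IsSgn z e₀ ∧ ∀ s, e₀ (t • s) = - e₀ s := by
  obtain ⟨e₀, h1, h2, h3⟩ := exists_sign (fun s : S => z • s) (fun s : S => (z * t) • s)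
    (by intro s; rw [← mul_smul, hz2, one_smul])
    (by
      intro s
      rw [← mul_smul]
      have : z * t * (z * t) = 1 := by
        rw [mul_assoc, ← mul_assoc t z t, hz t, mul_assoc, ht2, mul_one, hz2]
      rw [this, one_smul])
    (by intro s; rw [← mul_smul, ← mul_smul, hz])
    hzs
    (by
      intro s h
      rw [mul_smul] at h
      exact hts s (MulAction.injective z h).symm)
  refine ⟨e₀, ⟨h1, h2⟩, fun s => ?_⟩
  have h4 := h3 (z • s)
  have h5 : (z * t) • z • s = t • s := by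
    rw [← mul_smul, mul_assoc, hz t, ← mul_assoc, hz2, one_mul]
  rw [h5, h2] at h4
  exact h4

/-- Invariant relations vanish on the orbit of `s₀` under the centralizer of `t`. -/
lemma exists_good_sign (z t : G) (hz : ∀ γ : G, γ * z = z * γ) (hz2 : z * z = 1)
    (hzs : ∀ s : S, z • s ≠ s) (ht2 : t * t = 1) (hts : ∀ s : S, t • s ≠ s) (s₀ : S) :
    ∃ e₀ e : S → ℤ, IsSgn z e₀ ∧ (∀ s, e₀ (t • s) = - e₀ s) ∧ IsSgn z e ∧
      (∀ v : S → ℤ, (∀ s, v (z • s) = - v s) →
        ∑ s, v s * e s = ∑ s, v s * e₀ s - 4 * (v s₀ * e₀ s₀)) ∧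
      (∀ v ∈ oddRel z e, (∀ s, v (t • s) = v s) → ∀ γ : G, γ * t = t * γ → v (γ • s₀) = 0) := by
  obtain ⟨e₀, he₀, he₀t⟩ := exists_sign_involution z t hz hz2 hzs ht2 hts
  obtain ⟨e, he, hflip⟩ := exists_flip z hz2 hzs e₀ he₀ s₀
  refine ⟨e₀, e, he₀, he₀t, he, hflip, ?_⟩
  have hbase : ∀ v ∈ oddRel z e, (∀ s, v (t • s) = v s) → v s₀ = 0 := by
    intro v hv hvt
    have h1 := hv.2 1
    simp only [one_smul] at h1
    rw [hflip v hv.1] at h1
    have h2 : ∑ s, v s * e₀ s = - ∑ s, v s * e₀ s := by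
      rw [← Finset.sum_neg_distrib]
      apply Fintype.sum_bijective (fun s => t • s) (MulAction.bijective t)
      intro s
      rw [hvt, he₀t]
      ring
    have h3 : ∑ s, v s * e₀ s = 0 := by linarith
    rw [h3] at h1
    rcases he₀.1 s₀ with h | h <;> rw [h] at h1 <;> linarith
  intro v hv hvt γ hγ
  apply hbase (fun s => v (γ • s)) (oddRel_comp z hz e γ v hv)
  intro s
  rw [← mul_smul, hγ, mul_smul, hvt]

/-- **Case A**: a central involution different from `z`. -/
theorem good_of_central_involution [MulAction.IsPretransitive G S] (z t : G)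
    (hz : ∀ γ : G, γ * z = z * γ) (hz2 : z * z = 1) (hzs : ∀ s : S, z • s ≠ s) (ht2 : t * t = 1)
    (hts : ∀ s : S, t • s ≠ s) (htz : ∀ s : S, t • s ≠ z • s) (s₀ : S)
    (ht : ∀ γ : G, γ * t = t * γ) (hG : IsPGroup 2 G) (hcard : 8 ∣ Nat.card S) : Good S z := by
  classical
  obtain ⟨e₀, e, he₀, he₀t, he, hflip, hrel⟩ := exists_good_sign z t hz hz2 hzs ht2 hts s₀
  refine ⟨e, he, ?_⟩
  intro v hv
  by_contra hv0
  obtain ⟨u, hu, hodd⟩ := exists_odd_values z hz hG e v hv hv0
  have hut : ∀ s, u (t • s) = - u s := by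
    intro s
    have h1 : (fun s => u s + u (t • s)) ∈ oddRel z e :=
      (oddRel z e).add_mem hu (oddRel_comp z hz e t u hu)
    obtain ⟨γ, hγ⟩ := MulAction.exists_smul_eq G s₀ s
    have h2 := hrel _ h1 (by
      intro s
      rw [← mul_smul t t, ht2, one_smul]
      ring) γ (ht γ)
    rw [hγ] at h2
    linarith
  apply parity_contradiction z t hz hz2 hzs ht2 hts htz e₀ u he₀ he₀t s₀ hu.1 hut (hodd s₀)
  · have : Nat.card {s : S // Odd (u s)} = Nat.card S := by
      apply Nat.card_congr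
      exact Equiv.subtypeUnivEquiv hodd
    rw [this]
    exact hcard
  · have h1 := hu.2 1
    simp only [one_smul] at h1
    rw [hflip u hu.1] at h1
    linarith

/-- Reduction to invariant relations. -/
lemma reduce_to_invariant (z t x₀ : G) (hz : ∀ γ : G, γ * z = z * γ)
    (ht2 : t * t = 1) (hx₀ : x₀ * t = t * z * x₀) (e : S → ℤ)
    (h : ∀ v ∈ oddRel z e, (∀ s, v (t • s) = v s) → v = 0) : ∀ v ∈ oddRel z e, v = 0 := by
  intro v hv
  have h1 : (fun s => v s + v (t • s)) ∈ oddRel z e :=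
    (oddRel z e).add_mem hv (oddRel_comp z hz e t v hv)
  have h2 := h _ h1 (by
    intro s
    rw [← mul_smul t t, ht2, one_smul]
    ring)
  have h3 : ∀ s, v (t • s) = - v s := by
    intro s
    have := congrFun h2 s
    simp only [Pi.zero_apply] at this
    linarith
  have h4 := h _ (oddRel_comp z hz e x₀ v hv) (by
    intro s
    rw [← mul_smul, hx₀, mul_smul, mul_smul, h3, hv.1]
    ring)
  funext s
  have := congrFun h4 (x₀⁻¹ • s)
  simpa using this

/-- **Case B, free action.** -/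
theorem good_of_involution_free [MulAction.IsPretransitive G S] (z t x₀ : G)
    (hz : ∀ γ : G, γ * z = z * γ) (hz2 : z * z = 1) (hzs : ∀ s : S, z • s ≠ s) (ht2 : t * t = 1)
    (hts : ∀ s : S, t • s ≠ s) (htz : ∀ s : S, t • s ≠ z • s) (s₀ : S)
    (ht : ∀ γ : G, γ * t = t * γ ∨ γ * t = t * z * γ) (hx₀ : x₀ * t = t * z * x₀)
    (hG : IsPGroup 2 G) (hcard : 16 ∣ Nat.card S) : Good S z := by
  classical
  obtain ⟨e₀, e, he₀, he₀t, he, hflip, hrel⟩ := exists_good_sign z t hz hz2 hzs ht2 hts s₀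
  refine ⟨e, he, ?_⟩
  apply reduce_to_invariant z t x₀ hz ht2 hx₀
  intro v hv hvt
  by_contra hv0
  let L : AddSubgroup (S → ℤ) :=
    { carrier := {v | v ∈ oddRel z e ∧ ∀ s, v (t • s) = v s}
      add_mem' := by
        rintro a b ⟨ha, ha'⟩ ⟨hb, hb'⟩
        refine ⟨(oddRel z e).add_mem ha hb, fun s => ?_⟩
        simp only [Pi.add_apply, ha' s, hb' s]
      zero_mem' := ⟨(oddRel z e).zero_mem, fun s => rfl⟩
      neg_mem' := by
        rintro a ⟨ha, ha'⟩
        refine ⟨(oddRel z e).neg_mem ha, fun s => ?_⟩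
        simp only [Pi.neg_apply, ha' s] }
  let P₁ : Subgroup G := Subgroup.centralizer {t}
  have hP₁ : ∀ γ : G, γ ∈ P₁ ↔ γ * t = t * γ := by
    intro γ
    simp only [P₁, Subgroup.mem_centralizer_singleton_iff]
  obtain ⟨u, hu, hu0, hinv⟩ := exists_fixed_reduction L
    (by
      intro n v hn hnv
      refine ⟨oddRel_saturated z e n v hn hnv.1, fun s => ?_⟩
      have := hnv.2 s
      simp only [Pi.smul_apply, smul_eq_mul] at this
      exact mul_left_cancel₀ hn this)
    v ⟨hv, hvt⟩ hv0 2 (P := P₁) (hG.to_subgroup P₁)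
    (by
      intro γ u hu
      refine ⟨oddRel_comp z hz e (γ : G) u hu.1, fun s => ?_⟩
      change u ((γ : G) • t • s) = u ((γ : G) • s)
      rw [← mul_smul, (hP₁ _).mp γ.2, mul_smul, hu.2])
  have hparity : ∀ (γ : G), γ * t = t * γ → ∀ s, (Odd (u (γ • s)) ↔ Odd (u s)) := by
    intro γ hγ s
    have h1 := hinv ⟨γ, (hP₁ γ).mpr hγ⟩ s
    change ((u (γ • s) : ℤ) : ZMod 2) = u s at h1
    have h2 : (2 : ℤ) ∣ u (γ • s) - u s := by
      have := (ZMod.intCast_zmod_eq_zero_iff_dvd (u (γ • s) - u s) 2).mp (by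
        push_cast
        rw [h1, sub_self])
      exact_mod_cast this
    obtain ⟨k, hk⟩ := h2
    have h3 : u (γ • s) = u s + 2 * k := by linarith
    rw [h3]
    constructor
    · intro h
      have := h.sub_even (even_two_mul k)
      simpa using this
    · intro h
      exact h.add_even (even_two_mul k)
  have hzero : ∀ (γ : G), γ * t = t * γ → u (γ • s₀) = 0 := fun γ hγ => hrel u hu.1 hu.2 γ hγ
  have hx₀' : x₀⁻¹ * t = t * z * x₀⁻¹ := by
    have h1 : t = x₀⁻¹ * (t * z * x₀) := by rw [← hx₀]; group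
    have h2 : x₀⁻¹ * (t * z * x₀) * x₀⁻¹ = x₀⁻¹ * t * z := by group
    rw [← h1] at h2
    rw [mul_assoc, ← hz, ← mul_assoc, h2, mul_assoc, hz2, mul_one]
  have hsplit : ∀ s : S, (∃ γ : G, γ * t = t * γ ∧ γ • s₀ = s) ∨
      (∃ γ : G, γ * t = t * γ ∧ γ • x₀⁻¹ • s₀ = s) := by
    intro s
    obtain ⟨γ, hγ⟩ := MulAction.exists_smul_eq G s₀ s
    rcases ht γ with h | h
    · exact Or.inl ⟨γ, h, hγ⟩
    · refine Or.inr ⟨γ * x₀, ?_, ?_⟩
      · rw [mul_assoc, hx₀, ← mul_assoc, ← mul_assoc, h, mul_assoc (t * z) γ z, hz γ,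
          ← mul_assoc, mul_assoc t z z, hz2, mul_one, mul_assoc]
      · rw [mul_smul, smul_inv_smul, hγ]
  have hodd1 : Odd (u (x₀⁻¹ • s₀)) := by
    by_contra hne
    apply hu0
    funext s
    have h1 : ¬ Odd (u s) := by
      rcases hsplit s with ⟨γ, hγ, rfl⟩ | ⟨γ, hγ, rfl⟩
      · rw [hzero γ hγ]
        decide
      · rw [hparity γ hγ]
        exact hne
    rw [Int.not_odd_iff_even] at h1
    exact (ZMod.intCast_zmod_eq_zero_iff_dvd _ _).mpr (by exact_mod_cast h1.two_dvd)
  have hodd2 : ∀ s, Odd (u (x₀ • s)) ↔ ¬ Odd (u s) := by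
    intro s
    rcases hsplit s with ⟨γ, hγ, rfl⟩ | ⟨γ, hγ, rfl⟩
    · rw [hzero γ hγ]
      have h1 : (x₀ * γ * x₀) * t = t * (x₀ * γ * x₀) := by
        rw [mul_assoc, hx₀, ← mul_assoc, ← mul_assoc, mul_assoc x₀ γ t, hγ, ← mul_assoc, hx₀,
          mul_assoc (t * z * x₀) γ z, hz γ]
        rw [← mul_assoc, mul_assoc (t * z) x₀ z, hz x₀, ← mul_assoc, mul_assoc t z z, hz2, mul_one,
          mul_assoc t x₀ γ, mul_assoc]
      have h2 : x₀ • γ • s₀ = (x₀ * γ * x₀) • x₀⁻¹ • s₀ := by
        rw [← mul_smul, ← mul_smul]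
        congr 1
        group
      rw [h2, hparity _ h1]
      simp [hodd1]
    · have h1 : (x₀ * γ * x₀⁻¹) * t = t * (x₀ * γ * x₀⁻¹) := by
        rw [mul_assoc, hx₀', ← mul_assoc, ← mul_assoc, mul_assoc x₀ γ t, hγ, ← mul_assoc, hx₀,
          mul_assoc (t * z * x₀) γ z, hz γ]
        rw [← mul_assoc, mul_assoc (t * z) x₀ z, hz x₀, ← mul_assoc, mul_assoc t z z, hz2, mul_one,
          mul_assoc t x₀ γ, mul_assoc]
      have h2 : x₀ • γ • x₀⁻¹ • s₀ = (x₀ * γ * x₀⁻¹) • s₀ := by
        rw [← mul_smul, ← mul_smul, mul_assoc]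
      rw [h2, hzero _ h1, hparity _ hγ]
      simp [hodd1]
  -- the translated relation
  have hu' := oddRel_comp z hz e x₀⁻¹ u hu.1
  apply parity_contradiction z t hz hz2 hzs ht2 hts htz e₀ (fun s => u (x₀⁻¹ • s)) he₀ he₀t s₀
    hu'.1 _ hodd1
  · have h1 : Nat.card {s : S // Odd (u (x₀⁻¹ • s))} = Nat.card {s : S // Odd (u s)} := by
      apply Nat.card_congr
      exact (MulAction.toPerm x₀⁻¹).subtypeEquiv (fun s => Iff.rfl)
    have h2 : Nat.card {s : S // Odd (u s)} = Nat.card {s : S // ¬ Odd (u s)} := by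
      apply Nat.card_congr
      exact (MulAction.toPerm x₀⁻¹).subtypeEquiv (fun s => by
        have := hodd2 (x₀⁻¹ • s)
        rw [smul_inv_smul] at this
        exact this)
    have h3 : Nat.card S = Nat.card {s : S // Odd (u s)} + Nat.card {s : S // ¬ Odd (u s)} := by
      rw [Nat.card_eq_fintype_card, Nat.card_eq_fintype_card, Nat.card_eq_fintype_card,
        Fintype.card_subtype_compl]
      have := Fintype.card_subtype_le (fun s : S => Odd (u s))
      omega
    rw [h1]
    omega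
  · have h1 := hu'.2 1
    simp only [one_smul] at h1
    rw [hflip _ hu'.1] at h1
    linarith
  · intro s
    rw [← mul_smul, hx₀', mul_smul, mul_smul, hu.2, hu.1.1]

/-- **Case B, with fixed points.** -/
theorem good_of_involution_fixed [MulAction.IsPretransitive G S] (z t x₀ : G)
    (hz : ∀ γ : G, γ * z = z * γ) (hz2 : z * z = 1) (hzs : ∀ s : S, z • s ≠ s) (ht2 : t * t = 1)
    (s₁ : S) (hs₁ : t • s₁ = s₁)
    (ht : ∀ γ : G, γ * t = t * γ ∨ γ * t = t * z * γ) (hx₀ : x₀ * t = t * z * x₀) : Good S z := by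
  classical
  obtain ⟨e₀, he₀, he₀z, -⟩ := exists_sign (fun s : S => z • s) (fun s : S => s)
    (by intro s; rw [← mul_smul, hz2, one_smul]) (fun _ => rfl) (fun _ => rfl) hzs hzs
  have hx₀' : x₀⁻¹ * t = t * z * x₀⁻¹ := by
    have h1 : t = x₀⁻¹ * (t * z * x₀) := by rw [← hx₀]; group
    have h2 : x₀⁻¹ * (t * z * x₀) * x₀⁻¹ = x₀⁻¹ * t * z := by group
    rw [← h1] at h2
    rw [mul_assoc, ← hz, ← mul_assoc, h2, mul_assoc, hz2, mul_one]
  have hdich : ∀ s : S, t • s = s ∨ t • s = z • s := by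
    intro s
    obtain ⟨γ, rfl⟩ := MulAction.exists_smul_eq G s₁ s
    rcases ht γ with h | h
    · left
      rw [← mul_smul, ← h, mul_smul, hs₁]
    · right
      have h1 : t * γ = z * (γ * t) := by
        rw [h, ← mul_assoc, ← mul_assoc, ← hz t, mul_assoc t z z, hz2, mul_one]
      rw [← mul_smul, h1, mul_smul, mul_smul, hs₁]
  let w : S → ℤ := fun s => if t • s = s then e₀ s else e₀ (x₀⁻¹ • s)
  have hw : IsSgn z w := by
    refine ⟨fun s => ?_, fun s => ?_⟩
    · simp only [w]
      split_ifs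
      · exact he₀ _
      · exact he₀ _
    · have h1 : (t • z • s = z • s) ↔ (t • s = s) := by
        rw [← mul_smul, hz, mul_smul]
        exact ⟨fun h => MulAction.injective z h, fun h => by rw [h]⟩
      simp only [w, h1]
      split_ifs
      · exact he₀z _
      · rw [← mul_smul, hz, mul_smul]
        exact he₀z _
  obtain ⟨e, he, hflip⟩ := exists_flip z hz2 hzs w hw (x₀ • s₁)
  refine ⟨e, he, ?_⟩
  apply reduce_to_invariant z t x₀ hz ht2 hx₀
  have hS₂ : ∀ v ∈ oddRel z e, (∀ s, v (t • s) = v s) → ∀ s, t • s ≠ s → v s = 0 := by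
    intro v hv hvt s hs
    have h1 := (hdich s).resolve_left hs
    have h2 := hvt s
    rw [h1, hv.1] at h2
    linarith
  have hx₀s : ∀ s : S, t • s = s → t • x₀ • s ≠ x₀ • s := by
    intro s hs h
    have h1 : t * x₀ = z * (x₀ * t) := by
      rw [hx₀, ← mul_assoc, ← mul_assoc, ← hz t, mul_assoc t z z, hz2, mul_one]
    rw [← mul_smul, h1, mul_smul, mul_smul, hs] at h
    exact hzs _ h
  have hbase : ∀ v ∈ oddRel z e, (∀ s, v (t • s) = v s) → v s₁ = 0 := by
    intro v hv hvt
    have h1 := hv.2 1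
    simp only [one_smul] at h1
    rw [hflip v hv.1, hS₂ v hv hvt _ (hx₀s s₁ hs₁), zero_mul, mul_zero, sub_zero] at h1
    have hv' := oddRel_comp z hz e x₀⁻¹ v hv
    have h2 := hv'.2 1
    simp only [one_smul] at h2
    rw [hflip _ hv'.1] at h2
    simp only [inv_smul_smul] at h2
    have h3 : ∑ s, v (x₀⁻¹ • s) * w s = ∑ s, v s * w s := by
      symm
      apply Fintype.sum_bijective (fun s => x₀ • s) (MulAction.bijective x₀)
      intro s
      rw [inv_smul_smul]
      by_cases hs : t • s = s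
      · simp only [w, if_pos hs, if_neg (hx₀s s hs), inv_smul_smul]
      · rw [hS₂ v hv hvt s hs]
        ring
    rw [h3, h1] at h2
    rcases hw.1 (x₀ • s₁) with h | h <;> rw [h] at h2 <;> linarith
  intro v hv hvt
  funext s
  by_cases hs : t • s = s
  · obtain ⟨γ, rfl⟩ := MulAction.exists_smul_eq G s₁ s
    have hγ : γ * t = t * γ := by
      rcases ht γ with h | h
      · exact h
      · exfalso
        have h1 : t * γ = z * (γ * t) := by
          rw [h, ← mul_assoc, ← mul_assoc, ← hz t, mul_assoc t z z, hz2, mul_one]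
        rw [← mul_smul, h1, mul_smul, mul_smul, hs₁] at hs
        exact hzs _ hs
    apply hbase (fun s => v (γ • s)) (oddRel_comp z hz e γ v hv)
    intro s
    rw [← mul_smul, hγ, mul_smul, hvt]
  · exact hS₂ v hv hvt s hs

end involution

end Pool.Agent.Lib.MP_640417_ag
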