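import Pool.Agent.Lib.MP_640417_ag.OddAlgA

/-!
# Rational types and modular blocks: Lemma A
-/

open MonoidAlgebra

namespace Pool.Agent.Lib.MP_640417_ag.OddGal

variable {H : Type} [Group H] [Fintype H]

section Blocks

variable {p : ℕ} [Fact p.Prime] {ι : Type} [Fintype ι] [DecidableEq ι] {D : ι → Type}
    [∀ i, Field (D i)] [∀ i, Algebra (ZMod p) (D i)] {n : ι → ℕ}
    (w : MonoidAlgebra (ZMod p) H ≃ₐ[ZMod p] ((i : ι) → Matrix (Fin (n i)) (Fin (n i)) (D i)))

omit [Fintype H] [DecidableEq ι] in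
theorem mem_blocksOf (e : MonoidAlgebra ℚ H) (i : ι) : i ∈ blocksOf w e ↔
    ∃ x : MonoidAlgebra ℤ H, e * toQ x = toQ x ∧ w (red p x) i ≠ 0 := by
  simp [blocksOf]

/-- the idempotent of a block -/
noncomputable def blk (i : ι) : MonoidAlgebra (ZMod p) H := w.symm (Pi.single i 1)

omit [Fintype H] [Fintype ι] in
theorem w_blk (i : ι) : w (blk w i) = Pi.single i 1 := by simp [blk]

omit [Fintype H] [Fintype ι] in
theorem cen_blk (i : ι) : Cen (blk w i) := by
  intro b
  apply w.injective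
  rw [map_mul, map_mul, w_blk]
  funext j
  by_cases h : j = i
  · subst h
    simp
  · simp [Pi.single_eq_of_ne h]

omit [Fintype H] [Fintype ι] in
theorem mul_blk_eq_zero {i : ι} {x : MonoidAlgebra (ZMod p) H} (hx : w x i = 0) :
    x * blk w i = 0 := by
  apply w.injective
  rw [map_mul, map_zero, w_blk]
  funext j
  by_cases h : j = i
  · subst h
    simp [hx]
  · simp [Pi.single_eq_of_ne h]

omit [Fintype H] [DecidableEq ι] in
theorem mem_blocksOf_iff {e : MonoidAlgebra ℚ H} (he : e * e = e) {k : ℕ} (hk : ¬ p ∣ k)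
    {c : MonoidAlgebra ℤ H} (hc : toQ c = (k : ℚ) • e) (i : ι) :
    i ∈ blocksOf w e ↔ w (red p c) i ≠ 0 := by
  rw [mem_blocksOf]
  constructor
  · rintro ⟨x, hx, hx'⟩ h0
    have h1 : c * x = (k : ℤ) • x := by
      apply toQ_injective
      rw [map_mul, toQ_smul, hc, smul_mul_assoc, hx]
      norm_cast
    have h2 := congrArg (fun y => w (red p y) i) h1
    simp only [map_mul, red_smul, map_smul, Pi.mul_apply, Pi.smul_apply, h0, zero_mul] at h2
    have h3 : ((k : ℤ) : ZMod p) ≠ 0 := by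
      rw [Int.cast_natCast, Ne, ZMod.natCast_eq_zero_iff]
      exact hk
    exact hx' ((smul_eq_zero.1 h2.symm).resolve_left h3)
  · intro h
    refine ⟨c, ?_, h⟩
    rw [hc, mul_smul_comm, he]

instance instFiniteInt : Module.Finite ℤ (MonoidAlgebra ℤ H) := by
  let f : (H → ℤ) →ₗ[ℤ] MonoidAlgebra ℤ H :=
    { toFun := elt
      map_add' := fun a b => by ext h; simp
      map_smul' := fun a b => by ext h; rw [coeff_smul_apply]; simp }
  exact Module.Finite.of_surjective f fun a => ⟨fun h => a.coeff h, by ext h; rfl⟩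

omit [Fintype H] in
/-- the integral relations: `x` in the `e`-part with `x * a = 0` -/
def relMod (e : MonoidAlgebra ℚ H) (a : MonoidAlgebra ℤ H) :
    Submodule ℤ (MonoidAlgebra ℤ H) where
  carrier := {x | e * toQ x = toQ x ∧ x * a = 0}
  zero_mem' := by simp
  add_mem' := by
    rintro x y ⟨hx, hx'⟩ ⟨hy, hy'⟩
    exact ⟨by rw [map_add, mul_add, hx, hy], by rw [add_mul, hx', hy', add_zero]⟩
  smul_mem' := by
    rintro n x ⟨hx, hx'⟩
    exact ⟨by rw [toQ_smul, mul_smul_comm, hx], by rw [smul_mul_assoc, hx', smul_zero]⟩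

theorem lemmaA_aux (hp : ¬ p ∣ Fintype.card H)
    (e : MonoidAlgebra ℚ H) (he : IsType e) (a v : MonoidAlgebra ℤ H)
    (hv : v ≠ 0) (hve : e * toQ v = toQ v) (hva : v * a = 0)
    (i : ι) (hi : i ∈ blocksOf w e) :
    ∃ x : MonoidAlgebra ℤ H, e * toQ x = toQ x ∧ x * a = 0 ∧ w (red p x) i ≠ 0 := by
  by_contra hcon
  push Not at hcon
  obtain ⟨k, hk, c, hc⟩ := exists_denominator_coprime p (by rwa [Nat.card_eq_fintype_card]) e
    he.central he.idem
  obtain ⟨θ, hθ, hθ'⟩ := exists_central_lift p (cen_blk w i)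
  have hpp : p.Prime := Fact.out
  -- right multiplication by `θ`
  let f : Module.End ℤ (relMod e a) :=
    { toFun := fun x => ⟨x.1 * θ, by
        refine ⟨?_, ?_⟩
        · rw [map_mul, ← mul_assoc, x.2.1]
        · rw [mul_assoc, hθ, ← mul_assoc, x.2.2, zero_mul]⟩
      map_add' := fun x y => by
        ext1
        simp [add_mul]
      map_smul' := fun r x => by
        ext1
        change (r • x.1) * θ = r • (x.1 * θ)
        rw [smul_mul_assoc] }
  have hrange : LinearMap.range f ≤ (Ideal.span {(p : ℤ)}) • ⊤ := by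
    rintro _ ⟨x, rfl⟩
    have h0 : red p (x.1 * θ) = 0 := by
      rw [map_mul, hθ']
      exact mul_blk_eq_zero w (hcon x.1 x.2.1 x.2.2)
    obtain ⟨y, hy⟩ := exists_smul_of_red_eq_zero h0
    have hp0 : (p : ℤ) ≠ 0 := by exact_mod_cast hpp.ne_zero
    have hpQ : ((p : ℤ) : ℚ) ≠ 0 := by exact_mod_cast hpp.ne_zero
    have hfx := (f x).2
    have hyN : y ∈ relMod e a := by
      have h1 : (f x : MonoidAlgebra ℤ H) = (p : ℤ) • y := hy
      rw [h1] at hfx
      refine ⟨?_, ?_⟩
      · have h2 := hfx.1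
        rw [toQ_smul, mul_smul_comm] at h2
        exact smul_right_injective _ hpQ h2
      · have h2 := hfx.2
        rw [smul_mul_assoc] at h2
        exact (smul_eq_zero.1 h2).resolve_left hp0
    have h1 : f x = (p : ℤ) • (⟨y, hyN⟩ : relMod e a) := Subtype.ext hy
    rw [h1]
    exact Submodule.smul_mem_smul (Ideal.mem_span_singleton_self _) Submodule.mem_top
  haveI : Module.Finite ℤ (relMod e a) := inferInstance
  obtain ⟨q, hq, -, hqc, hq0⟩ :=
    LinearMap.exists_monic_and_natDegree_eq_and_coeff_mem_pow_and_aeval_eq_zero ℤ f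
      (Ideal.span {(p : ℤ)}) hrange
  -- powers of `f`
  have hpow : ∀ (k : ℕ) (x : relMod e a), ((f ^ k) x : MonoidAlgebra ℤ H) = x.1 * θ ^ k := by
    intro k
    induction k with
    | zero => intro x; simp
    | succ k ih =>
      intro x
      rw [pow_succ, Module.End.mul_apply, ih, pow_succ']
      change x.1 * θ * θ ^ k = _
      rw [mul_assoc]
  have haev : ∀ x : relMod e a, x.1 * Polynomial.aeval θ q = 0 := by
    intro x
    have h1 : ((Polynomial.aeval f q) x : MonoidAlgebra ℤ H) = x.1 * Polynomial.aeval θ q := by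
      rw [Polynomial.aeval_eq_sum_range, Polynomial.aeval_eq_sum_range, LinearMap.sum_apply,
        Finset.mul_sum, AddSubmonoidClass.coe_finsetSum]
      refine Finset.sum_congr rfl fun k _ => ?_
      rw [LinearMap.smul_apply, SetLike.val_smul, hpow, mul_smul_comm]
    rw [← h1, hq0]
    simp
  have hqcen : Cen (Polynomial.aeval θ q) := by
    intro b
    have h1 : Commute (Polynomial.aeval θ q) b := by
      rw [Polynomial.aeval_eq_sum_range]
      refine Commute.sum_left _ _ _ fun k _ => ?_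
      exact Commute.smul_left (Commute.pow_left (hθ b) k) _
    exact h1
  have hzero : Polynomial.aeval θ q * c = 0 := by
    apply toQ_injective
    rw [map_mul, hc, map_zero, mul_smul_comm]
    by_contra hne
    have hne' : toQ (Polynomial.aeval θ q) * e ≠ 0 := by
      intro h
      rw [h, smul_zero] at hne
      exact hne rfl
    obtain ⟨c', hc', hcc⟩ := he.field _ (cen_toQ.2 hqcen) hne'
    apply hv
    apply toQ_injective
    rw [map_zero, ← hve, ← hcc, cen_toQ.2 hqcen c', mul_assoc, mul_assoc,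
      cen_toQ.2 hqcen (e * toQ v), mul_assoc e, ← map_mul,
      haev ⟨v, hve, hva⟩]
    simp
  have hF : red p (Polynomial.aeval θ q) = red p θ ^ q.natDegree := by
    rw [Polynomial.aeval_eq_sum_range, map_sum, Finset.sum_range_succ, Finset.sum_eq_zero, zero_add,
      red_smul]
    · have h1 : q.coeff q.natDegree = 1 := hq
      rw [h1, Int.cast_one, one_smul, map_pow]
    · intro k hk
      rw [Finset.mem_range] at hk
      have h1 := hqc k
      rw [Ideal.span_singleton_pow, Ideal.mem_span_singleton] at h1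
      have h2 : (p : ℤ) ∣ q.coeff k := (dvd_pow_self _ (by omega)).trans h1
      rw [red_smul, (ZMod.intCast_zmod_eq_zero_iff_dvd _ _).2 h2, zero_smul]
  have h1 := congrArg (fun y => w (red p y) i) hzero
  simp only [map_mul, hF, hθ', map_pow, w_blk, Pi.mul_apply, Pi.pow_apply, Pi.single_eq_same,
    one_pow, one_mul, map_zero, Pi.zero_apply] at h1
  exact (mem_blocksOf_iff w he.idem hk hc i).1 hi h1

/-- (U2) **Lemma A.** -/
theorem lemmaA [∀ i, Fintype (D i)] (hp : ¬ p ∣ Fintype.card H) (_hn : ∀ i, 0 < n i)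
    (w : MonoidAlgebra (ZMod p) H ≃ₐ[ZMod p] ((i : ι) → Matrix (Fin (n i)) (Fin (n i)) (D i)))
    (e : MonoidAlgebra ℚ H) (he : IsType e) (a : MonoidAlgebra ℤ H)
    (h : ∃ x : MonoidAlgebra ℤ H, x ≠ 0 ∧ e * toQ x = toQ x ∧ x * a = 0)
    (i : ι) (hi : i ∈ blocksOf w e) :
    ∃ x : MonoidAlgebra ℤ H, e * toQ x = toQ x ∧ x * a = 0 ∧ w (red p x) i ≠ 0 := by
  obtain ⟨v, hv, hve, hva⟩ := h
  exact lemmaA_aux w hp e he a v hv hve hva i hi

end Blocks

/-- (U1) existence of the block decomposition -/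
theorem exists_blocks (H : Type) [Group H] [Fintype H] (p : ℕ) [Fact p.Prime]
    (hp : ¬ p ∣ Fintype.card H) :
    ∃ (k : ℕ) (D : Fin k → Type) (n : Fin k → ℕ) (_ : ∀ i, Field (D i)) (_ : ∀ i, Fintype (D i))
      (_ : ∀ i, Algebra (ZMod p) (D i)), (∀ i, 0 < n i) ∧
      Nonempty (MonoidAlgebra (ZMod p) H ≃ₐ[ZMod p]
        ((i : Fin k) → Matrix (Fin (n i)) (Fin (n i)) (D i))) := by
  haveI : NeZero (Nat.card H : ZMod p) := ⟨by
    rw [Ne, ZMod.natCast_eq_zero_iff, Nat.card_eq_fintype_card]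
    exact hp⟩
  haveI : Module.Finite (ZMod p) (MonoidAlgebra (ZMod p) H) := by
    let f : (H → ZMod p) →ₗ[ZMod p] MonoidAlgebra (ZMod p) H :=
      { toFun := elt
        map_add' := fun a b => by ext h; simp
        map_smul' := fun a b => by ext h; rw [coeff_smul_apply]; simp }
    exact Module.Finite.of_surjective f fun a => ⟨fun h => a.coeff h, by ext h; rfl⟩
  obtain ⟨k, D, d, hD, hA, hF, hd, ⟨w⟩⟩ :=
    IsSemisimpleRing.exists_algEquiv_pi_matrix_divisionRing_finite (ZMod p)
      (MonoidAlgebra (ZMod p) H)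
  have hfin : ∀ i, Finite (D i) := fun i => Module.finite_of_finite (ZMod p)
  exact ⟨k, D, d, fun i => littleWedderburn (D i), fun i => Fintype.ofFinite _, hA,
    fun i => Nat.pos_of_ne_zero (NeZero.ne _), ⟨w⟩⟩

end Pool.Agent.Lib.MP_640417_ag.OddGal
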