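import Pool.Agent.Lib.MP_640417_ag.OddAlgB

/-!
# Dimensions of rational types and of modular blocks
-/

open MonoidAlgebra Module

namespace Pool.Agent.Lib.MP_640417_ag.OddGal

variable {H : Type} [Group H] [Fintype H]

/-! ### Lifting linear independence -/

omit [Fintype H] in
theorem torsionfree_int (p : ℤ) (hp : p ≠ 0) {x : MonoidAlgebra ℤ H} (h : p • x = 0) : x = 0 :=
  (smul_eq_zero.1 h).resolve_left hp

omit [Fintype H] in
/-- linear independence mod `p` implies linear independence over `ℚ` -/
theorem linearIndependent_of_red {p : ℕ} [Fact p.Prime] {κ : Type} [Fintype κ]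
    (x : κ → MonoidAlgebra ℤ H) (h : LinearIndependent (ZMod p) fun j => red p (x j)) :
    LinearIndependent ℚ fun j => toQ (x j) := by
  have hpp : p.Prime := Fact.out
  have key : ∀ (k : ℕ) (a : κ → ℤ), ∑ j, a j • x j = 0 → ∀ j, (p : ℤ) ^ k ∣ a j := by
    intro k
    induction k with
    | zero => intro a _ j; simp
    | succ k ih =>
      intro a ha j
      have h1 : ∀ j, (p : ℤ) ∣ a j := by
        intro j
        have h2 : ∑ j, ((a j : ℤ) : ZMod p) • red p (x j) = 0 := by
          have := congrArg (red p) ha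
          rw [map_sum, map_zero] at this
          rw [← this]
          exact Finset.sum_congr rfl fun j _ => (red_smul _ _ _).symm
        have h3 := Fintype.linearIndependent_iff.1 h _ h2 j
        exact (ZMod.intCast_zmod_eq_zero_iff_dvd _ _).1 h3
      choose b hb using h1
      have h4 : ∑ j, b j • x j = 0 := by
        apply torsionfree_int (p : ℤ) (by exact_mod_cast hpp.ne_zero)
        rw [Finset.smul_sum, ← ha]
        refine Finset.sum_congr rfl fun j _ => ?_
        rw [smul_smul, ← hb]
      rw [hb j, pow_succ']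
      exact mul_dvd_mul_left _ (ih b h4 j)
  have hZ : LinearIndependent ℤ x := by
    rw [Fintype.linearIndependent_iff]
    intro a ha j
    by_contra hne
    have h1 := key (a j).natAbs a ha j
    have h2 := Int.natAbs_dvd_natAbs.2 h1
    rw [Int.natAbs_pow, Int.natAbs_natCast] at h2
    have h3 := Nat.le_of_dvd (Int.natAbs_pos.2 hne) h2
    have h4 := Nat.lt_pow_self hpp.one_lt (n := (a j).natAbs)
    omega
  have hQ : LinearIndependent ℤ fun j => toQ (x j) := by
    let T : MonoidAlgebra ℤ H →ₗ[ℤ] MonoidAlgebra ℚ H := toQ.toAddMonoidHom.toIntLinearMap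
    exact hZ.map_injOn T (toQ_injective.injOn)
  exact (LinearIndependent.iff_fractionRing ℤ ℚ).1 hQ

instance finiteQ : Module.Finite ℚ (MonoidAlgebra ℚ H) := by
  let f : (H → ℚ) →ₗ[ℚ] MonoidAlgebra ℚ H :=
    { toFun := elt
      map_add' := fun a b => by ext h; simp
      map_smul' := fun a b => by ext h; rw [coeff_smul_apply]; simp }
  exact Module.Finite.of_surjective f fun a => ⟨fun h => a.coeff h, by ext h; rfl⟩

theorem finrank_le_of_lift {p : ℕ} [Fact p.Prime] {V : Type} [AddCommGroup V]
    [Module (ZMod p) V] [Module.Finite (ZMod p) V] (L : V →ₗ[ZMod p] MonoidAlgebra (ZMod p) H)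
    (hL : Function.Injective L) (W : Submodule ℚ (MonoidAlgebra ℚ H))
    (h : ∀ v, ∃ x : MonoidAlgebra ℤ H, red p x = L v ∧ toQ x ∈ W) :
    finrank (ZMod p) V ≤ finrank ℚ W := by
  choose f hf hfW using h
  let b := Module.finBasis (ZMod p) V
  have h1 : LinearIndependent (ZMod p) fun j => red p (f (b j)) := by
    have : (fun j => red p (f (b j))) = L ∘ b := funext fun j => hf _
    rw [this]
    exact b.linearIndependent.map_injOn L hL.injOn
  have h2 := linearIndependent_of_red _ h1
  have h3 : LinearIndependent ℚ fun j => (⟨toQ (f (b j)), hfW _⟩ : W) := by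
    apply LinearIndependent.of_comp W.subtype
    exact h2
  have h4 := h3.fintype_card_le_finrank
  simpa using h4

/-! ### The centre of a group algebra -/

/-- the centre of `R[H]` -/
def cenAll (R : Type) [Field R] (H : Type) [Group H] : Submodule R (MonoidAlgebra R H) where
  carrier := {x | Cen x}
  zero_mem' := by
    intro x
    simp
  add_mem' := by
    intro a b ha hb x
    rw [add_mul, mul_add, ha, hb]
  smul_mem' := by
    intro c a ha x
    rw [smul_mul_assoc, mul_smul_comm, ha]

/-- class functions -/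
noncomputable def cenEquiv (R : Type) [Field R] (H : Type) [Group H] [Fintype H] :
    (ConjClasses H → R) ≃ₗ[R] cenAll R H where
  toFun f := ⟨elt fun h => f (ConjClasses.mk h), by
    change Cen _
    rw [cen_iff]
    intro x h
    rw [coeff_elt, coeff_elt]
    congr 1
    rw [ConjClasses.mk_eq_mk_iff_isConj, isConj_comm]
    exact isConj_iff.2 ⟨x, rfl⟩⟩
  map_add' f g := by
    ext h
    simp
  map_smul' c f := by
    ext h
    simp
  invFun a := fun c => Quotient.liftOn c (fun h => a.1.coeff h) (by
    intro h h' hh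
    have hh' : IsConj h h' := hh
    obtain ⟨x, hx⟩ := isConj_iff.1 hh'
    have := (cen_iff a.1).1 a.2 x h
    rw [hx] at this
    exact this.symm)
  left_inv f := by
    funext c
    induction c using Quotient.inductionOn with
    | h a => rfl
  right_inv a := by
    ext h
    rfl

theorem finrank_cenAll (R : Type) [Field R] (H : Type) [Group H] [Fintype H] :
    finrank R (cenAll R H) = Nat.card (ConjClasses H) := by
  classical
  haveI : Fintype (ConjClasses H) := Fintype.ofFinite _
  rw [← (cenEquiv R H).finrank_eq, Module.finrank_fintype_fun_eq_card, Nat.card_eq_fintype_card]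

section Blocks

variable {p : ℕ} [Fact p.Prime] {ι : Type} [Fintype ι] [DecidableEq ι] {D : ι → Type}
    [∀ i, Field (D i)] [∀ i, Algebra (ZMod p) (D i)] {n : ι → ℕ}
    (w : MonoidAlgebra (ZMod p) H ≃ₐ[ZMod p] ((i : ι) → Matrix (Fin (n i)) (Fin (n i)) (D i)))

omit [Fintype H] [Fintype ι] in
/-- central elements are scalar in every block -/
theorem exists_scalar {y : MonoidAlgebra (ZMod p) H} (hy : Cen y) (i : ι) :
    ∃ l : D i, w y i = Matrix.scalar _ l := by
  have h1 : w y i ∈ Set.range (Matrix.scalar (Fin (n i))) := by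
    rw [Matrix.mem_range_scalar_iff_commute_single']
    intro a b
    have h2 := hy (w.symm (Pi.single i (Matrix.single a b 1)))
    have h3 := congrArg (fun z => w z i) h2
    simp only [map_mul, AlgEquiv.apply_symm_apply, Pi.mul_apply, Pi.single_eq_same] at h3
    exact h3.symm
  obtain ⟨l, hl⟩ := h1
  exact ⟨l, hl.symm⟩

omit [Fintype H] in
theorem w_red_of_mem {e : MonoidAlgebra ℚ H} (hcen : Cen e) (he : e * e = e) {k : ℕ}
    (hk : ¬ p ∣ k) {c : MonoidAlgebra ℤ H} (hc : toQ c = (k : ℚ) • e) (i : ι)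
    (hi : i ∈ blocksOf w e) : w (red p c) i = Matrix.scalar _ (k : D i) := by
  have hcc : Cen c := by
    rw [← cen_toQ, hc]
    intro b
    rw [mul_smul_comm, smul_mul_assoc, hcen]
  obtain ⟨l, hl⟩ := exists_scalar w (cen_red p hcc) i
  have h0 := (mem_blocksOf_iff w he hk hc i).1 hi
  have hsq : c * c = (k : ℤ) • c := by
    apply toQ_injective
    rw [map_mul, toQ_smul, hc, smul_mul_smul_comm, he, smul_smul]
    norm_cast
  have h1 := congrArg (fun y => w (red p y) i) hsq
  simp only [map_mul, red_smul, map_smul, Pi.mul_apply, Pi.smul_apply] at h1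
  rw [hl] at h1 h0
  have hne : Nonempty (Fin (n i)) := by
    by_contra hne
    rw [not_nonempty_iff] at hne
    exact h0 (Subsingleton.elim _ _)
  obtain ⟨a⟩ := hne
  have h2 := congrArg (fun M : Matrix (Fin (n i)) (Fin (n i)) (D i) => M a a) h1
  simp only [Matrix.scalar_apply, Matrix.diagonal_mul_diagonal, Matrix.diagonal_apply_eq,
    Matrix.smul_apply] at h2
  have h3 : l ≠ 0 := by
    rintro rfl
    simp at h0
  have h4 : l = (k : D i) := by
    have h5 : ((k : ℤ) : ZMod p) • l = (k : D i) * l := by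
      rw [Algebra.smul_def, map_intCast, Int.cast_natCast]
    rw [h5] at h2
    exact mul_right_cancel₀ h3 h2
  rw [hl, h4]

omit [Fintype H] in
theorem exists_lift_aux {e : MonoidAlgebra ℚ H} (hcen : Cen e) (he : e * e = e) {k : ℕ}
    (hk : ¬ p ∣ k) {c : MonoidAlgebra ℤ H} (hc : toQ c = (k : ℚ) • e)
    {y : MonoidAlgebra (ZMod p) H} (hy : ∀ i, i ∉ blocksOf w e → w y i = 0)
    {x : MonoidAlgebra ℤ H} (hx : red p x = (k : ZMod p)⁻¹ • y) :
    red p (x * c) = y ∧ e * toQ (x * c) = toQ (x * c) := by
  constructor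
  · apply w.injective
    funext i
    rw [map_mul, map_mul, hx, map_smul, Pi.mul_apply, Pi.smul_apply]
    by_cases hi : i ∈ blocksOf w e
    · rw [w_red_of_mem w hcen he hk hc i hi, Matrix.scalar_apply]
      have hk' : (k : ZMod p) ≠ 0 := by
        rw [Ne, ZMod.natCast_eq_zero_iff]
        exact hk
      ext a b
      rw [Matrix.mul_diagonal, Matrix.smul_apply, Algebra.smul_def, map_inv₀, map_natCast,
        mul_comm, ← mul_assoc, mul_inv_cancel₀, one_mul]
      intro h0
      apply hk'
      apply (algebraMap (ZMod p) (D i)).injective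
      rw [map_natCast, map_zero, h0]
    · rw [hy i hi, smul_zero, zero_mul]
  · rw [map_mul, hc, ← mul_assoc, hcen, mul_assoc, mul_smul_comm, he]

/-- (U4), for central idempotents -/
theorem sum_sq_le_aux [∀ i, Fintype (D i)] (hp : ¬ p ∣ Fintype.card H)
    (e : MonoidAlgebra ℚ H) (hcen : Cen e) (he : e * e = e) :
    ∑ i ∈ blocksOf w e, n i ^ 2 * finrank (ZMod p) (D i) ≤ rk e := by
  obtain ⟨k, hk, c, hc⟩ := exists_denominator_coprime p (by rwa [Nat.card_eq_fintype_card]) e
    hcen he
  let L : (∀ i : blocksOf w e, Matrix (Fin (n i)) (Fin (n i)) (D i)) →ₗ[ZMod p]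
      MonoidAlgebra (ZMod p) H :=
    { toFun := fun y => w.symm fun i => if h : i ∈ blocksOf w e then y ⟨i, h⟩ else 0
      map_add' := fun a b => by
        rw [← map_add]
        congr 1
        funext i
        by_cases h : i ∈ blocksOf w e <;> simp [h]
      map_smul' := fun r a => by
        rw [RingHom.id_apply, ← map_smul]
        congr 1
        funext i
        by_cases h : i ∈ blocksOf w e <;> simp [h] }
  have hL : Function.Injective L := by
    intro a b hab
    have h1 := w.symm.injective hab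
    funext i
    have h2 := congrFun h1 i
    simpa using h2
  have h1 := finrank_le_of_lift L hL (comp e) (fun y => by
    obtain ⟨x, hx⟩ := red_surjective p ((k : ZMod p)⁻¹ • L y)
    obtain ⟨h2, h3⟩ := exists_lift_aux w hcen he hk hc (y := L y) (fun i hi => by
      simp [L, hi]) hx
    exact ⟨x * c, h2, h3⟩)
  rw [Module.finrank_pi_fintype] at h1
  refine le_trans (le_of_eq ?_) h1
  rw [← Finset.sum_coe_sort]
  refine Finset.sum_congr rfl fun i _ => ?_
  rw [Module.finrank_matrix, Fintype.card_fin]
  ring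

/-- (U4) -/
theorem sum_sq_le [∀ i, Fintype (D i)] (hp : ¬ p ∣ Fintype.card H) (_hn : ∀ i, 0 < n i)
    (w : MonoidAlgebra (ZMod p) H ≃ₐ[ZMod p] ((i : ι) → Matrix (Fin (n i)) (Fin (n i)) (D i)))
    (e : MonoidAlgebra ℚ H) (he : IsType e) :
    ∑ i ∈ blocksOf w e, n i ^ 2 * finrank (ZMod p) (D i) ≤ rk e :=
  sum_sq_le_aux w hp e he.central he.idem

theorem sum_finrank_le_aux [∀ i, Fintype (D i)] (hp : ¬ p ∣ Fintype.card H) (hn : ∀ i, 0 < n i)
    (e : MonoidAlgebra ℚ H) (hcen : Cen e) (he : e * e = e) :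
    ∑ i ∈ blocksOf w e, finrank (ZMod p) (D i) ≤ zc e := by
  obtain ⟨k, hk, c, hc⟩ := exists_denominator_coprime p (by rwa [Nat.card_eq_fintype_card]) e
    hcen he
  have hcc : Cen c := by
    rw [← cen_toQ, hc]
    intro b
    rw [mul_smul_comm, smul_mul_assoc, hcen]
  let L : (∀ i : blocksOf w e, D i) →ₗ[ZMod p] MonoidAlgebra (ZMod p) H :=
    { toFun := fun y => w.symm fun i =>
        if h : i ∈ blocksOf w e then Matrix.scalar _ (y ⟨i, h⟩) else 0
      map_add' := fun a b => by
        rw [← map_add]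
        congr 1
        funext i
        by_cases h : i ∈ blocksOf w e
        · simp only [h, dite_true, Pi.add_apply, map_add]
        · simp [h]
      map_smul' := fun r a => by
        rw [RingHom.id_apply, ← map_smul]
        congr 1
        funext i
        by_cases h : i ∈ blocksOf w e
        · simp only [h, dite_true, Pi.smul_apply]
          ext x y
          by_cases hxy : x = y
          · subst hxy
            simp
          · simp [hxy]
        · simp [h] }
  have hwL : ∀ y i, w (L y) i = if h : i ∈ blocksOf w e then Matrix.scalar _ (y ⟨i, h⟩) else 0 := by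
    intro y i
    simp [L]
  have hL : Function.Injective L := by
    intro a b hab
    funext i
    have h2 := hwL a i
    rw [hab, hwL b i] at h2
    simp only [i.2, dite_true] at h2
    have h3 := congrArg (fun M : Matrix (Fin (n i)) (Fin (n i)) (D i) => M ⟨0, hn i⟩ ⟨0, hn i⟩) h2
    simpa using h3.symm
  have hLc : ∀ y, Cen (L y) := by
    intro y b
    apply w.injective
    rw [map_mul, map_mul]
    funext i
    rw [Pi.mul_apply, Pi.mul_apply, hwL]
    by_cases h : i ∈ blocksOf w e
    · simp only [h, dite_true]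
      ext x z
      simp [mul_comm]
    · simp [h]
  have h1 := finrank_le_of_lift L hL (cen e) (fun y => by
    obtain ⟨x, hxc, hx⟩ := exists_central_lift p (a := (k : ZMod p)⁻¹ • L y) (by
      intro b
      rw [mul_smul_comm, smul_mul_assoc, hLc])
    obtain ⟨h2, h3⟩ := exists_lift_aux w hcen he hk hc (y := L y) (fun i hi => by
      rw [hwL]
      simp [hi]) hx
    refine ⟨x * c, h2, h3, ?_⟩
    change Cen _
    rw [cen_toQ]
    intro b
    rw [mul_assoc, hcc, ← mul_assoc, hxc, mul_assoc])
  rw [Module.finrank_pi_fintype] at h1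
  refine le_trans (le_of_eq ?_) h1
  rw [← Finset.sum_coe_sort]

omit [DecidableEq ι] in
theorem mem_blocksOf_or (hp : ¬ p ∣ Fintype.card H) (hn : ∀ i, 0 < n i)
    {e : MonoidAlgebra ℚ H} (hcen : Cen e) (he : e * e = e) (i : ι) :
    i ∈ blocksOf w e ∨ i ∈ blocksOf w (1 - e) := by
  have hcen' : Cen (1 - e) := by
    intro x
    rw [sub_mul, mul_sub, hcen, one_mul, mul_one]
  have he' : (1 - e) * (1 - e) = 1 - e := by
    rw [sub_mul, mul_sub, mul_sub, he]
    simp
  have hp' : ¬ p ∣ Nat.card H := by rwa [Nat.card_eq_fintype_card]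
  obtain ⟨k, hk, c, hc⟩ := exists_denominator_coprime p hp' e hcen he
  obtain ⟨k', hk', c', hc'⟩ := exists_denominator_coprime p hp' (1 - e) hcen' he'
  rw [mem_blocksOf_iff w he hk hc, mem_blocksOf_iff w he' hk' hc']
  by_contra hcon
  push Not at hcon
  have h1 : (k' : ℤ) • c + (k : ℤ) • c' = ((k * k' : ℕ) : ℤ) • (1 : MonoidAlgebra ℤ H) := by
    apply toQ_injective
    rw [map_add, toQ_smul, toQ_smul, toQ_smul, hc, hc', map_one, smul_smul, smul_smul]
    push_cast
    rw [mul_comm (k' : ℚ), ← smul_add]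
    simp
  have h2 := congrArg (fun y => w (red p y) i) h1
  simp only [map_add, red_smul, map_smul, map_one, Pi.add_apply, Pi.smul_apply, hcon.1, hcon.2,
    smul_zero, add_zero, Pi.one_apply] at h2
  have h3 := congrArg (fun M : Matrix (Fin (n i)) (Fin (n i)) (D i) => M ⟨0, hn i⟩ ⟨0, hn i⟩) h2
  simp only [Matrix.zero_apply, Matrix.smul_apply, Matrix.one_apply_eq] at h3
  have h4 : (((k * k' : ℕ) : ℤ) : ZMod p) ≠ 0 := by
    rw [Int.cast_natCast, Ne, ZMod.natCast_eq_zero_iff]
    intro h
    rcases (Nat.Prime.dvd_mul Fact.out).1 h with h | h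
    · exact hk h
    · exact hk' h
  rcases smul_eq_zero.1 h3.symm with h | h
  · exact h4 h
  · exact one_ne_zero h

omit [Fintype H] in
theorem finrank_cenAll_le [∀ i, Fintype (D i)] (hn : ∀ i, 0 < n i)
    (w : MonoidAlgebra (ZMod p) H ≃ₐ[ZMod p] ((i : ι) → Matrix (Fin (n i)) (Fin (n i)) (D i))) :
    finrank (ZMod p) (cenAll (ZMod p) H) ≤ ∑ i, finrank (ZMod p) (D i) := by
  haveI : ∀ i, Module.Finite (ZMod p) (D i) := fun i => Module.Finite.of_finite
  let L : cenAll (ZMod p) H →ₗ[ZMod p] (∀ i, D i) :=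
    { toFun := fun y i => w y.1 i ⟨0, hn i⟩ ⟨0, hn i⟩
      map_add' := fun a b => by
        funext i
        simp
      map_smul' := fun r a => by
        funext i
        simp }
  have hL : Function.Injective L := by
    intro a b hab
    apply Subtype.ext
    apply w.injective
    funext i
    obtain ⟨l, hl⟩ := exists_scalar w a.2 i
    obtain ⟨l', hl'⟩ := exists_scalar w b.2 i
    have h1 : w a.1 i ⟨0, hn i⟩ ⟨0, hn i⟩ = w b.1 i ⟨0, hn i⟩ ⟨0, hn i⟩ := congrFun hab i
    rw [hl, hl'] at h1 ⊢
    have h2 : l = l' := by simpa using h1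
    rw [h2]
  have := LinearMap.finrank_le_finrank_of_injective hL
  rwa [Module.finrank_pi_fintype] at this

theorem zc_add_le {e : MonoidAlgebra ℚ H} (he : e * e = e) :
    zc e + zc (1 - e) ≤ finrank ℚ (cenAll ℚ H) := by
  have h1 : cen e ⊓ cen (1 - e) = ⊥ := by
    rw [eq_bot_iff]
    rintro x ⟨⟨h1, -⟩, ⟨h2, -⟩⟩
    rw [Submodule.mem_bot]
    rw [← h2, ← h1, ← mul_assoc, sub_mul, he]
    simp
  have h2 := Submodule.finrank_sup_add_finrank_inf_eq (cen e) (cen (1 - e))
  rw [h1, finrank_bot, add_zero] at h2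
  rw [zc, zc, ← h2]
  apply Submodule.finrank_mono
  rw [sup_le_iff]
  exact ⟨fun x hx => hx.2, fun x hx => hx.2⟩

/-- (U3) -/
theorem sum_finrank_eq [∀ i, Fintype (D i)] (hp : ¬ p ∣ Fintype.card H) (hn : ∀ i, 0 < n i)
    (w : MonoidAlgebra (ZMod p) H ≃ₐ[ZMod p] ((i : ι) → Matrix (Fin (n i)) (Fin (n i)) (D i)))
    (e : MonoidAlgebra ℚ H) (he : IsType e) :
    ∑ i ∈ blocksOf w e, finrank (ZMod p) (D i) = zc e := by
  have hcen' : Cen (1 - e) := by
    intro x
    rw [sub_mul, mul_sub, he.central, one_mul, mul_one]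
  have he' : (1 - e) * (1 - e) = 1 - e := by
    rw [sub_mul, mul_sub, mul_sub, he.idem]
    simp
  have h1 := sum_finrank_le_aux w hp hn e he.central he.idem
  have h2 := sum_finrank_le_aux w hp hn (1 - e) hcen' he'
  have h3 := zc_add_le he.idem
  have h4 := finrank_cenAll_le hn w
  rw [finrank_cenAll] at h3 h4
  have h5 : ∑ i, finrank (ZMod p) (D i) ≤ ∑ i ∈ blocksOf w e, finrank (ZMod p) (D i) +
      ∑ i ∈ blocksOf w (1 - e), finrank (ZMod p) (D i) := by
    have : (Finset.univ : Finset ι) = blocksOf w e ∪ blocksOf w (1 - e) := by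
      ext i
      simp only [Finset.mem_univ, Finset.mem_union, true_iff]
      exact mem_blocksOf_or w hp hn he.central he.idem i
    rw [this, ← Finset.sum_union_inter]
    exact Nat.le_add_right _ _
  omega

end Blocks

end Pool.Agent.Lib.MP_640417_ag.OddGal
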