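import Pool.Agent.Lib.MP_640417_ag.OddAlgE

/-!
# Lemma B: the prime 2
-/

open MonoidAlgebra Module

namespace Pool.Agent.Lib.MP_640417_ag.OddGal

/-! ### Singular matrices over a field with `2 ^ f` elements -/

theorem prodB (n : ℕ) (hn : 1 ≤ n) :
    (1 / 4 : ℝ) + (1 / 2) ^ (n + 1) ≤ ∏ j ∈ Finset.range n, (1 - (1 / 2 : ℝ) ^ (j + 1)) := by
  induction n, hn using Nat.le_induction with
  | base => norm_num
  | succ n hn ih =>
    rw [Finset.prod_range_succ]
    have h1 : (0 : ℝ) < (1 / 2) ^ (n + 1) := by positivity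
    have h2 : (1 / 2 : ℝ) ^ (n + 1) ≤ 1 / 4 := by
      calc (1 / 2 : ℝ) ^ (n + 1) ≤ (1 / 2) ^ 2 :=
            pow_le_pow_of_le_one (by norm_num) (by norm_num) (by omega)
        _ = 1 / 4 := by norm_num
    have h3 : (0 : ℝ) ≤ 1 - (1 / 2) ^ (n + 1) := by linarith
    calc (1 / 4 : ℝ) + (1 / 2) ^ (n + 1 + 1)
        ≤ (1 / 4 + (1 / 2) ^ (n + 1)) * (1 - (1 / 2) ^ (n + 1)) := by
          rw [pow_succ (1 / 2 : ℝ) (n + 1)]
          nlinarith
      _ ≤ _ := mul_le_mul_of_nonneg_right ih h3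

theorem prodA (r : ℝ) (h0 : 0 < r) (h1 : r ≤ 1 / 2) (n : ℕ) :
    1 - r / (1 - r) + r ^ n * (r / (1 - r)) ≤ ∏ j ∈ Finset.range n, (1 - r ^ (j + 1)) := by
  have hr : 0 < 1 - r := by linarith
  have ha : r / (1 - r) ≤ 1 := by
    rw [div_le_one hr]
    linarith
  have ha0 : 0 < r / (1 - r) := by positivity
  induction n with
  | zero => simp
  | succ n ih =>
    rw [Finset.prod_range_succ]
    have hp1 : r ^ (n + 1) ≤ 1 := pow_le_one₀ h0.le (by linarith)
    have hp0 : 0 < r ^ (n + 1) := by positivity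
    have hp2 : r ^ n ≤ 1 := pow_le_one₀ h0.le (by linarith)
    have h3 : (0 : ℝ) ≤ 1 - r ^ (n + 1) := by linarith
    refine le_trans ?_ (mul_le_mul_of_nonneg_right ih h3)
    set a := r / (1 - r) with hadef
    have har : a * (1 - r) = r := by
      rw [hadef]
      field_simp
    have h4 : r ^ n * a - r ^ (n + 1) = r ^ (n + 1) * a := by
      rw [pow_succ]
      linear_combination (r ^ n) * har
    have h5 : 0 ≤ r ^ n * a := by positivity
    have h6 : r ^ n * a ≤ a := by nlinarith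
    nlinarith

/-- most matrices over a field with `2 ^ f` elements are regular -/
theorem prod_ge (f : ℕ) (hf : 1 ≤ f) (n : ℕ) :
    1 - (3 / 4 : ℝ) ^ f ≤ ∏ j ∈ Finset.range n, (1 - ((2 : ℝ) ^ f)⁻¹ ^ (j + 1)) := by
  rcases Nat.eq_or_lt_of_le hf with h1 | h1
  · subst h1
    rcases Nat.eq_zero_or_pos n with hn | hn
    · subst hn
      norm_num
    · have := prodB n hn
      have h2 : (0 : ℝ) < (1 / 2) ^ (n + 1) := by positivity
      have h3 : ((2 : ℝ) ^ 1)⁻¹ = 1 / 2 := by norm_num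
      rw [h3]
      linarith
  · have hq : (3 : ℝ) < 2 ^ f := by
      calc (3 : ℝ) < 2 ^ 2 := by norm_num
        _ ≤ 2 ^ f := pow_le_pow_right₀ (by norm_num) h1
    have hr0 : (0 : ℝ) < ((2 : ℝ) ^ f)⁻¹ := by positivity
    have hr1 : ((2 : ℝ) ^ f)⁻¹ ≤ 1 / 2 := by
      rw [inv_le_comm₀ (by positivity) (by norm_num)]
      linarith
    have h2 := prodA _ hr0 hr1 n
    have h3 : ((2 : ℝ) ^ f)⁻¹ / (1 - ((2 : ℝ) ^ f)⁻¹) ≤ (3 / 4) ^ f := by
      have h4 : ((2 : ℝ) ^ f)⁻¹ / (1 - ((2 : ℝ) ^ f)⁻¹) = 1 / (2 ^ f - 1) := by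
        have : (2 : ℝ) ^ f - 1 ≠ 0 := by linarith
        field_simp
      rw [h4]
      have h5 : ∀ m : ℕ, (4 / 3 : ℝ) ^ (m + 2) ≤ 2 ^ (m + 2) - 1 := by
        intro m
        induction m with
        | zero => norm_num
        | succ m ih =>
          have h6 : (4 / 3 : ℝ) ^ (m + 1 + 2) = (4 / 3) ^ (m + 2) * (4 / 3) := by ring
          have h7 : (2 : ℝ) ^ (m + 1 + 2) = 2 ^ (m + 2) * 2 := by ring
          have h8 : (1 : ℝ) ≤ (4 / 3) ^ (m + 2) := one_le_pow₀ (by norm_num)
          rw [h6, h7]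
          linarith
      have h6 := h5 (f - 2)
      rw [show f - 2 + 2 = f by omega] at h6
      have h7 : (3 / 4 : ℝ) ^ f = 1 / (4 / 3) ^ f := by
        rw [← one_div_pow]
        norm_num
      rw [h7]
      exact one_div_le_one_div_of_le (by positivity) h6
    have h4 : 0 ≤ ((2 : ℝ) ^ f)⁻¹ ^ n * (((2 : ℝ) ^ f)⁻¹ / (1 - ((2 : ℝ) ^ f)⁻¹)) := by
      have : 0 < 1 - ((2 : ℝ) ^ f)⁻¹ := by linarith
      positivity
    linarith

theorem card_nonunits_le {K : Type} [Field K] [Fintype K] (f : ℕ) (hf : 1 ≤ f)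
    (hK : Fintype.card K = 2 ^ f) (n : ℕ) [DecidablePred fun M : Matrix (Fin n) (Fin n) K => IsUnit M]
    [DecidableEq K] :
    ((Finset.univ.filter fun M : Matrix (Fin n) (Fin n) K => ¬ IsUnit M).card : ℝ) ≤
      (3 / 4) ^ f * Fintype.card (Matrix (Fin n) (Fin n) K) := by
  classical
  have h1 : (Finset.univ.filter fun M : Matrix (Fin n) (Fin n) K => IsUnit M).card =
      Nat.card (GL (Fin n) K) := by
    rw [Nat.card_eq_fintype_card, ← Fintype.card_subtype]
    exact Fintype.card_congr (Equiv.ofBijective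
      (fun M : {M : Matrix (Fin n) (Fin n) K // IsUnit M} => (M.2.unit : GL (Fin n) K))
      ⟨fun a b h => Subtype.ext (by
        have := congrArg Units.val h
        simpa using this), fun u => ⟨⟨u.1, u.isUnit⟩, by ext1; simp⟩⟩)
  have h2 := Finset.card_filter_add_card_filter_not (s := (Finset.univ : Finset (Matrix (Fin n) (Fin n) K)))
    (fun M => IsUnit M)
  rw [h1, Matrix.card_GL_field, Finset.card_univ] at h2
  set q : ℕ := Fintype.card K with hq
  have hq1 : 1 ≤ q := by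
    rw [hK]
    exact Nat.one_le_two_pow
  have hq0 : (q : ℝ) ≠ 0 := by
    have : 0 < q := hq1
    positivity
  have hcard : (Fintype.card (Matrix (Fin n) (Fin n) K) : ℝ) = ∏ _j ∈ Finset.range n, (q : ℝ) ^ n := by
    have h9 : Fintype.card (Matrix (Fin n) (Fin n) K) = Fintype.card (Fin n → Fin n → K) := rfl
    rw [Finset.prod_const, Finset.card_range, h9, Fintype.card_fun, Fintype.card_fun,
      Fintype.card_fin, ← hq]
    push_cast
    rfl
  have hprod : ((∏ i : Fin n, (q ^ n - q ^ (i : ℕ)) : ℕ) : ℝ) =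
      Fintype.card (Matrix (Fin n) (Fin n) K) * ∏ j ∈ Finset.range n, (1 - ((q : ℝ))⁻¹ ^ (j + 1)) := by
    rw [hcard, ← Finset.prod_mul_distrib, Fin.prod_univ_eq_prod_range (fun i => q ^ n - q ^ i) n,
      ← Finset.prod_range_reflect, Nat.cast_prod]
    refine Finset.prod_congr rfl fun j hj => ?_
    rw [Finset.mem_range] at hj
    have h3 : q ^ (n - 1 - j) ≤ q ^ n := Nat.pow_le_pow_right hq1 (by omega)
    rw [Nat.cast_sub h3, mul_sub, mul_one]
    push_cast
    congr 1
    have h4 : n = (n - 1 - j) + (j + 1) := by omega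
    conv_rhs => rw [h4]
    rw [pow_add, inv_pow, mul_assoc, mul_inv_cancel₀ (pow_ne_zero _ hq0), mul_one]
  have h5 := prod_ge f hf n
  have h6 : (q : ℝ) = 2 ^ f := by
    rw [hK]
    push_cast
    rfl
  rw [← h6] at h5
  have h7 := congrArg (Nat.cast : ℕ → ℝ) h2
  rw [Nat.cast_add, hprod] at h7
  have h8 : (0 : ℝ) ≤ Fintype.card (Matrix (Fin n) (Fin n) K) := Nat.cast_nonneg _
  nlinarith [mul_le_mul_of_nonneg_left h5 h8]

/-! ### Lemma B -/

variable {H : Type} [Group H] [Fintype H]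

theorem card_filter_blocks {p : ℕ} [Fact p.Prime] {k : ℕ} {D : Fin k → Type}
    [∀ i, Field (D i)] [∀ i, Fintype (D i)] [∀ i, Algebra (ZMod p) (D i)] {n : Fin k → ℕ}
    (w : MonoidAlgebra (ZMod p) H ≃ₐ[ZMod p] ((i : Fin k) → Matrix (Fin (n i)) (Fin (n i)) (D i)))
    (hp2 : p = 2) (B : Finset (Fin k)) :
    ({f : H → ZMod p | ∀ i ∈ B, ¬ IsUnit (w (elt f) i)}.ncard : ℝ) ≤
      (3 / 4) ^ (∑ i ∈ B, finrank (ZMod p) (D i)) * 2 ^ Fintype.card H := by
  classical
  subst hp2
  set S : ∀ i : Fin k, Finset (Matrix (Fin (n i)) (Fin (n i)) (D i)) := fun i =>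
    if i ∈ B then Finset.univ.filter (fun M => ¬ IsUnit M) else Finset.univ with hS
  have hinj : Function.Injective fun f : H → ZMod 2 => w (elt f) := by
    intro f g hfg
    have h1 := w.injective hfg
    funext h
    have := congrArg (fun x => x.coeff h) h1
    simpa using this
  have h1 : {f : H → ZMod 2 | ∀ i ∈ B, ¬ IsUnit (w (elt f) i)}.ncard ≤ (Fintype.piFinset S).card := by
    rw [← Set.ncard_coe_finset]
    refine Set.ncard_le_ncard_of_injOn (fun f => w (elt f)) ?_ hinj.injOn (Finset.finite_toSet _)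
    intro f hf
    rw [Finset.mem_coe, Fintype.mem_piFinset]
    intro i
    by_cases hi : i ∈ B
    · simp only [hS, if_pos hi, Finset.mem_filter, Finset.mem_univ, true_and]
      exact hf i hi
    · simp [hS, if_neg hi]
  have h2 : ∀ i, ((S i).card : ℝ) ≤ (if i ∈ B then (3 / 4 : ℝ) ^ finrank (ZMod 2) (D i) else 1) *
      Fintype.card (Matrix (Fin (n i)) (Fin (n i)) (D i)) := by
    intro i
    by_cases hi : i ∈ B
    · simp only [hS, if_pos hi]
      haveI : Module.Finite (ZMod 2) (D i) := Module.Finite.of_finite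
      have h3 : Fintype.card (D i) = 2 ^ finrank (ZMod 2) (D i) := by
        rw [Module.card_eq_pow_finrank (K := ZMod 2), ZMod.card]
      have h4 := card_nonunits_le (K := D i) (finrank (ZMod 2) (D i)) Module.finrank_pos h3 (n i)
      convert h4
    · simp [hS, if_neg hi]
  have h3 : ∏ i, (Fintype.card (Matrix (Fin (n i)) (Fin (n i)) (D i)) : ℝ) =
      2 ^ Fintype.card H := by
    rw [← Nat.cast_prod, ← Fintype.card_pi]
    have h4 : Fintype.card (∀ i, Matrix (Fin (n i)) (Fin (n i)) (D i)) = 2 ^ Fintype.card H := by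
      rw [← Fintype.card_congr ((eltEquiv (ZMod 2) H).toEquiv.trans w.toEquiv), Fintype.card_fun,
        ZMod.card]
    rw [h4]
    push_cast
    rfl
  calc ({f : H → ZMod 2 | ∀ i ∈ B, ¬ IsUnit (w (elt f) i)}.ncard : ℝ)
      ≤ ((Fintype.piFinset S).card : ℝ) := by exact_mod_cast h1
    _ = ∏ i, ((S i).card : ℝ) := by rw [Fintype.card_piFinset, Nat.cast_prod]
    _ ≤ ∏ i, ((if i ∈ B then (3 / 4 : ℝ) ^ finrank (ZMod 2) (D i) else 1) *
        Fintype.card (Matrix (Fin (n i)) (Fin (n i)) (D i))) :=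
        Finset.prod_le_prod (fun i _ => Nat.cast_nonneg _) fun i _ => h2 i
    _ = _ := by
        rw [Finset.prod_mul_distrib, h3, Finset.prod_ite_mem, Finset.univ_inter,
          Finset.prod_pow_eq_pow_sum]

/-- Lemma B -/
theorem lemmaB (hodd : Odd (Fintype.card H)) (e : MonoidAlgebra ℚ H) (he : IsType e)
    (h0 : aug e = 0) :
    ((badSet e).card : ℝ) ≤ (3 / 4) ^ zc e * 2 ^ Fintype.card H := by
  classical
  haveI : Fact (Nat.Prime 2) := ⟨Nat.prime_two⟩
  have hp : ¬ 2 ∣ Fintype.card H := by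
    intro h
    rw [← even_iff_two_dvd] at h
    exact (Nat.not_even_iff_odd.2 hodd) h
  obtain ⟨k, D, n, hD, hDf, hDa, hn, ⟨w⟩⟩ := exists_blocks H 2 hp
  rw [← sum_finrank_eq hp hn w e he]
  refine le_trans ?_ (card_filter_blocks w rfl (blocksOf w e))
  have hsub : ((badSet e : Finset (H → ℤ)) : Set (H → ℤ)).ncard ≤
      {f : H → ZMod 2 | ∀ i ∈ blocksOf w e, ¬ IsUnit (w (elt f) i)}.ncard := by
    have hval : ∀ ε ∈ badSet e, ∀ h, ε h = 1 ∨ ε h = -1 := by
      intro ε hε h
      have h1 := (Finset.mem_filter.1 hε).1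
      rw [signs, Fintype.mem_piFinset] at h1
      simpa using h1 h
    refine Set.ncard_le_ncard_of_injOn (fun ε h => (((1 - ε h) / 2 : ℤ) : ZMod 2)) ?_ ?_
      (Set.toFinite _)
    · intro ε hε i hi hunit
      have hε' : ε ∈ badSet e := hε
      have h1 := (Finset.mem_filter.1 hε').2
      set δ : H → ℤ := fun h => (1 - ε h) / 2 with hδ
      have hεδ : elt ε = sig ℤ H - (2 : ℤ) • elt δ := by
        ext h
        have h2 : (sig ℤ H - (2 : ℤ) • elt δ).coeff h = 1 - 2 * δ h := by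
          have h3 : (sig ℤ H - (2 : ℤ) • elt δ).coeff h =
            (sig ℤ H).coeff h - ((2 : ℤ) • elt δ).coeff h := by simp
          rw [h3, coeff_smul_apply, sig, coeff_elt, coeff_elt, smul_eq_mul]
        rw [h2, coeff_elt]
        have h4 : δ h = (1 - ε h) / 2 := rfl
        rcases hval ε hε' h with h3 | h3 <;> rw [h4, h3] <;> norm_num
      obtain ⟨x, hx, hex, hxe⟩ := h1
      have hxs : x * sig ℤ H = 0 := by
        apply toQ_injective
        have h2 : toQ (sig ℤ H) = sig ℚ H := by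
          ext h
          simp [sig]
        rw [map_mul, h2, ← hex, he.central, mul_assoc, mul_sig, h0, zero_smul, mul_zero, map_zero]
      have hxd : x * elt δ = 0 := by
        rw [hεδ, mul_sub, hxs, zero_sub, neg_eq_zero, mul_smul_comm] at hxe
        exact torsionfree_int 2 (by norm_num) hxe
      obtain ⟨y, hy, hyd, hyw⟩ := lemmaA hp hn w e he (elt δ) ⟨x, hx, hex, hxd⟩ i hi
      have h2 : w (red 2 y) i * w (red 2 (elt δ)) i = 0 := by
        rw [← Pi.mul_apply, ← map_mul, ← map_mul, hyd]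
        simp
      have h3 : red 2 (elt δ) = elt fun h => ((δ h : ℤ) : ZMod 2) := by
        ext h
        simp
      rw [h3] at h2
      exact hyw ((hunit.mul_left_eq_zero).1 h2)
    · intro ε hε ε' hε' heq
      funext h
      have h1 : (((1 - ε h) / 2 : ℤ) : ZMod 2) = (((1 - ε' h) / 2 : ℤ) : ZMod 2) := congrFun heq h
      rcases hval ε hε h with h2 | h2 <;> rcases hval ε' hε' h with h3 | h3 <;>
        rw [h2, h3] at h1 ⊢
      · norm_num at h1
      · norm_num at h1
  rw [Set.ncard_coe_finset] at hsub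
  exact_mod_cast hsub

end Pool.Agent.Lib.MP_640417_ag.OddGal
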