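import Pool.Agent.Lib.MP_640417_ag.OddRel

/-!
# Sign vectors which are singular in a set of blocks
-/

namespace Pool.Agent.Lib.MP_640417_ag.OddGal

open Module Finset Matrix

set_option linter.unusedSectionVars false

section blocks

variable {H : Type} [Group H] [Fintype H] {p : ℕ} [Fact p.Prime]
  {ι : Type} [Fintype ι] [DecidableEq ι] {D : ι → Type}
  [∀ i, Field (D i)] [∀ i, Fintype (D i)] [∀ i, Algebra (ZMod p) (D i)] {n : ι → ℕ}

/-- The row vectors of the blocks in `I`. -/
abbrev Rows {ι : Type} (D : ι → Type) (n : ι → ℕ) (I : Finset ι) : Type :=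
  (i : I) → (Fin (n i) → D i)

/-- The right action on row vectors, as a linear map in the group algebra element. -/
noncomputable def act
    (w : MonoidAlgebra (ZMod p) H ≃ₐ[ZMod p] ((i : ι) → Matrix (Fin (n i)) (Fin (n i)) (D i)))
    (I : Finset ι) (u : Rows D n I) : MonoidAlgebra (ZMod p) H →ₗ[ZMod p] Rows D n I where
  toFun a := fun i => u i ᵥ* w a i
  map_add' a b := by
    funext i
    rw [map_add, Pi.add_apply, Matrix.vecMul_add]
    rfl
  map_smul' c a := by
    funext i
    rw [map_smul, Pi.smul_apply, Matrix.vecMul_smul]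
    rfl

lemma act_apply
    (w : MonoidAlgebra (ZMod p) H ≃ₐ[ZMod p] ((i : ι) → Matrix (Fin (n i)) (Fin (n i)) (D i)))
    (I : Finset ι) (u : Rows D n I) (a : MonoidAlgebra (ZMod p) H) (i : I) :
    act w I u a i = u i ᵥ* w a i := rfl

lemma act_surjective
    (w : MonoidAlgebra (ZMod p) H ≃ₐ[ZMod p] ((i : ι) → Matrix (Fin (n i)) (Fin (n i)) (D i)))
    (I : Finset ι) (u : Rows D n I) (hu : ∀ i, u i ≠ 0) : Function.Surjective (act w I u) := by
  classical
  intro s
  have h1 : ∀ i : I, ∃ A : Matrix (Fin (n i)) (Fin (n i)) (D i), u i ᵥ* A = s i := by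
    intro i
    obtain ⟨j, hj⟩ := Function.ne_iff.mp (hu i)
    rw [Pi.zero_apply] at hj
    refine ⟨Matrix.of (fun k l => if k = j then (u i j)⁻¹ * s i l else 0), ?_⟩
    funext l
    rw [Matrix.vecMul, dotProduct]
    rw [Finset.sum_eq_single j]
    · rw [Matrix.of_apply, if_pos rfl, ← mul_assoc, mul_inv_cancel₀ hj, one_mul]
    · intro k _ hk
      rw [Matrix.of_apply, if_neg hk, mul_zero]
    · intro h
      exact absurd (Finset.mem_univ j) h
  choose A hA using h1
  refine ⟨w.symm (fun i => if h : i ∈ I then A ⟨i, h⟩ else 0), ?_⟩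
  funext i
  rw [act_apply, AlgEquiv.apply_symm_apply, dif_pos i.2]
  exact hA i

/-- The image of a sign vector. -/
lemma red_elt (ε : H → ℤ) :
    red p (elt ε) = ∑ h, ((ε h : ℤ) : ZMod p) • MonoidAlgebra.single h (1 : ZMod p) := by
  classical
  ext k
  rw [red, MonoidAlgebra.coeff_mapRingHom]
  simp only [elt, MonoidAlgebra.coeff_ofCoeff, Finsupp.equivFunOnFinite_symm_apply_apply,
    MonoidAlgebra.coeff_sum, MonoidAlgebra.coeff_smul, MonoidAlgebra.coeff_single,
    Finsupp.coe_finsetSum, Finset.sum_apply, Finsupp.smul_apply, smul_eq_mul]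
  rw [Finset.sum_eq_single k]
  · simp
  · intro b _ hb
    rw [Finsupp.single_apply, if_neg hb, mul_zero]
  · intro h
    exact absurd (Finset.mem_univ k) h

lemma span_act_single [Finite H]
    (w : MonoidAlgebra (ZMod p) H ≃ₐ[ZMod p] ((i : ι) → Matrix (Fin (n i)) (Fin (n i)) (D i)))
    (I : Finset ι) (u : Rows D n I) (hs : Function.Surjective (act w I u)) :
    Submodule.span (ZMod p)
      (Set.range (fun h : H => act w I u (MonoidAlgebra.single h (1 : ZMod p)))) = ⊤ := by
  classical
  have := Fintype.ofFinite H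
  rw [eq_top_iff]
  intro s _
  obtain ⟨a, rfl⟩ := hs s
  have h1 : a = ∑ h, a.coeff h • MonoidAlgebra.single h (1 : ZMod p) := by
    ext k
    simp [MonoidAlgebra.coeff_sum]
  rw [h1, map_sum]
  apply Submodule.sum_mem
  intro h _
  rw [map_smul]
  exact Submodule.smul_mem _ _ (Submodule.subset_span ⟨h, rfl⟩)

/-- Right translation on row vectors. -/
noncomputable def trans
    (w : MonoidAlgebra (ZMod p) H ≃ₐ[ZMod p] ((i : ι) → Matrix (Fin (n i)) (Fin (n i)) (D i)))
    (I : Finset ι) (k : H) : Rows D n I ≃ₗ[ZMod p] Rows D n I where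
  toFun v := fun i => v i ᵥ* w (MonoidAlgebra.single k 1) i
  map_add' a b := by
    funext i
    rw [Pi.add_apply, Matrix.add_vecMul]
    rfl
  map_smul' c a := by
    funext i
    rw [Pi.smul_apply, Matrix.smul_vecMul]
    rfl
  invFun v := fun i => v i ᵥ* w (MonoidAlgebra.single k⁻¹ 1) i
  left_inv v := by
    funext i
    simp only [Matrix.vecMul_vecMul]
    rw [← Pi.mul_apply, ← map_mul, MonoidAlgebra.single_mul_single, mul_inv_cancel, one_mul,
      ← MonoidAlgebra.one_def, map_one, Pi.one_apply, Matrix.vecMul_one]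
  right_inv v := by
    funext i
    simp only [Matrix.vecMul_vecMul]
    rw [← Pi.mul_apply, ← map_mul, MonoidAlgebra.single_mul_single, inv_mul_cancel, one_mul,
      ← MonoidAlgebra.one_def, map_one, Pi.one_apply, Matrix.vecMul_one]

lemma trans_act
    (w : MonoidAlgebra (ZMod p) H ≃ₐ[ZMod p] ((i : ι) → Matrix (Fin (n i)) (Fin (n i)) (D i)))
    (I : Finset ι) (u : Rows D n I) (k h : H) :
    trans w I k (act w I u (MonoidAlgebra.single h 1)) = act w I u (MonoidAlgebra.single (h * k) 1) := by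
  funext i
  change (u i ᵥ* w (MonoidAlgebra.single h 1) i) ᵥ* w (MonoidAlgebra.single k 1) i
    = u i ᵥ* w (MonoidAlgebra.single (h * k) 1) i
  rw [Matrix.vecMul_vecMul, ← Pi.mul_apply, ← map_mul, MonoidAlgebra.single_mul_single, one_mul]

lemma sub_one_pow_le (q f : ℕ) (hq : 0 < q) (hf : 0 < f) : (q - 1) ^ f ≤ q ^ f - 1 := by
  obtain ⟨k, rfl⟩ : ∃ k, f = k + 1 := ⟨f - 1, by omega⟩
  have h1 : (q - 1) ^ k ≤ q ^ k := Nat.pow_le_pow_left (Nat.sub_le q 1) k
  have h2 : 1 ≤ q ^ k := Nat.one_le_pow _ _ hq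
  obtain ⟨r, rfl⟩ : ∃ r, q = r + 1 := ⟨q - 1, by omega⟩
  rw [Nat.add_sub_cancel] at h1 ⊢
  rw [pow_succ, pow_succ]
  have h3 : r ^ k * r ≤ (r + 1) ^ k * r := Nat.mul_le_mul_right r h1
  have h4 : (r + 1) ^ k * (r + 1) = (r + 1) ^ k * r + (r + 1) ^ k := by ring
  omega

/-- Many row vectors are killed by a tuple of singular matrices. -/
lemma pow_le_card_killed (I : Finset ι) (E : (i : I) → Matrix (Fin (n i)) (Fin (n i)) (D i))
    (h : ∀ i : I, ∃ v : Fin (n i) → D i, v ≠ 0 ∧ v ᵥ* E i = 0)
    [DecidablePred (fun u : Rows D n I => (∀ i, u i ≠ 0) ∧ ∀ i, u i ᵥ* E i = 0)] :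
    (p - 1) ^ (∑ i ∈ I, finrank (ZMod p) (D i)) ≤
      ((Finset.univ : Finset (Rows D n I)).filter
        (fun u => (∀ i, u i ≠ 0) ∧ ∀ i, u i ᵥ* E i = 0)).card := by
  classical
  have h1 : (Finset.univ : Finset (Rows D n I)).filter
        (fun u => (∀ i, u i ≠ 0) ∧ ∀ i, u i ᵥ* E i = 0)
      = Fintype.piFinset (fun i : I => (Finset.univ : Finset (Fin (n i) → D i)).filter
        (fun v => v ≠ 0 ∧ v ᵥ* E i = 0)) := by
    ext u
    simp only [Finset.mem_filter, Finset.mem_univ, true_and, Fintype.mem_piFinset]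
    constructor
    · rintro ⟨ha, hb⟩ i
      exact ⟨ha i, hb i⟩
    · intro hu
      exact ⟨fun i => (hu i).1, fun i => (hu i).2⟩
  rw [h1, Fintype.card_piFinset, ← Finset.prod_pow_eq_pow_sum, ← Finset.prod_coe_sort]
  apply Finset.prod_le_prod'
  intro i _
  have hfin : 0 < finrank (ZMod p) (D i) := finrank_pos
  have hcard : Fintype.card (D i) = p ^ finrank (ZMod p) (D i) := by
    rw [← Nat.card_eq_fintype_card, Module.natCard_eq_pow_finrank (K := ZMod p) (V := D i),
      Nat.card_zmod]
  have hp : 0 < p := (Fact.out : p.Prime).pos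
  refine (sub_one_pow_le p _ hp hfin).trans ?_
  rw [← hcard, ← Finset.card_univ, ← Finset.card_erase_of_mem (Finset.mem_univ (0 : D i))]
  obtain ⟨v, hv, hv2⟩ := h i
  apply Finset.card_le_card_of_injOn (fun c => c • v)
  · intro c hc
    rw [Finset.mem_coe, Finset.mem_erase] at hc
    rw [Finset.mem_coe, Finset.mem_filter]
    refine ⟨Finset.mem_univ _, smul_ne_zero hc.1 hv, ?_⟩
    rw [Matrix.smul_vecMul, hv2, smul_zero]
  · intro c _ c' _ hcc
    exact smul_left_injective _ hv hcc

/-- The nonzero row vectors. -/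
noncomputable def fullRows (D : ι → Type) [∀ i, Field (D i)] [∀ i, Fintype (D i)] (n : ι → ℕ)
    (I : Finset ι) : Finset (Rows D n I) := by
  classical exact (Finset.univ : Finset (Rows D n I)).filter (fun u => ∀ i, u i ≠ 0)

lemma mem_fullRows (I : Finset ι) (u : Rows D n I) : u ∈ fullRows D n I ↔ ∀ i, u i ≠ 0 := by
  classical
  simp [fullRows]

/-- Double counting of pairs (sign vector, row vector). -/
theorem card_mul_le_of_singular
    (w : MonoidAlgebra (ZMod p) H ≃ₐ[ZMod p] ((i : ι) → Matrix (Fin (n i)) (Fin (n i)) (D i)))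
    (I : Finset ι) (Bd : Finset (H → ℤ)) (hBd : Bd ⊆ signs H)
    (hsing : ∀ ε ∈ Bd, ∀ i ∈ I, ∃ v : Fin (n i) → D i, v ≠ 0 ∧ v ᵥ* w (red p (elt ε)) i = 0)
    (C : ℝ) (hsum : ∑ u ∈ fullRows D n I,
      ((relSet p (fun h => act w I u (MonoidAlgebra.single h 1))).card : ℝ) ≤ C) :
    (Bd.card : ℝ) * (p - 1) ^ (∑ i ∈ I, finrank (ZMod p) (D i)) ≤ C := by
  classical
  refine le_trans ?_ hsum
  have hp : 1 ≤ p := (Fact.out : p.Prime).pos
  have hcast : ((p : ℝ) - 1) = ((p - 1 : ℕ) : ℝ) := by
    rw [Nat.cast_sub hp]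
    simp
  rw [hcast]
  have h1 : Bd.card * (p - 1) ^ (∑ i ∈ I, finrank (ZMod p) (D i))
      ≤ ∑ u ∈ fullRows D n I, (relSet p (fun h => act w I u (MonoidAlgebra.single h 1))).card := by
    calc Bd.card * (p - 1) ^ (∑ i ∈ I, finrank (ZMod p) (D i))
        = ∑ ε ∈ Bd, (p - 1) ^ (∑ i ∈ I, finrank (ZMod p) (D i)) := by
          rw [Finset.sum_const, smul_eq_mul]
      _ ≤ ∑ ε ∈ Bd, ((fullRows D n I).filter (fun u =>
            ε ∈ relSet p (fun h => act w I u (MonoidAlgebra.single h 1)))).card := by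
          apply Finset.sum_le_sum
          intro ε hε
          refine (pow_le_card_killed (p := p) I (fun i => w (red p (elt ε)) i)
            (fun i => hsing ε hε i i.2)).trans ?_
          apply Finset.card_le_card
          intro u hu
          rw [Finset.mem_filter] at hu
          rw [Finset.mem_filter, mem_fullRows]
          refine ⟨hu.2.1, ?_⟩
          rw [mem_relSet]
          refine ⟨hBd hε, ?_⟩
          have h2 : act w I u (red p (elt ε)) = 0 := by
            funext i
            exact hu.2.2 i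
          rw [red_elt, map_sum] at h2
          rw [← h2]
          apply Finset.sum_congr rfl
          intro h _
          rw [map_smul]
      _ = ∑ u ∈ fullRows D n I, (Bd.filter (fun ε =>
            ε ∈ relSet p (fun h => act w I u (MonoidAlgebra.single h 1)))).card := by
          simp only [Finset.card_filter]
          rw [Finset.sum_comm]
      _ ≤ _ := by
          apply Finset.sum_le_sum
          intro u _
          apply Finset.card_le_card
          intro ε hε
          rw [Finset.mem_filter] at hε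
          exact hε.2
  exact_mod_cast h1

/-- The Fourier bound summed over row vectors. -/
theorem sum_card_relSet_le (hp2 : p ≠ 2)
    (w : MonoidAlgebra (ZMod p) H ≃ₐ[ZMod p] ((i : ι) → Matrix (Fin (n i)) (Fin (n i)) (D i)))
    (I : Finset ι) (d : ℕ) (hd : ∑ i ∈ I, n i * finrank (ZMod p) (D i) ≤ d)
    (hnum : 4 * d * Real.exp (-(2 * ((Fintype.card H / d : ℕ) : ℝ) / p ^ 2)) ≤ 1) :
    ∑ u ∈ fullRows D n I,
      ((relSet p (fun h => act w I u (MonoidAlgebra.single h 1))).card : ℝ)
      ≤ 3 * 2 ^ Fintype.card H := by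
  classical
  have hfr : finrank (ZMod p) (Rows D n I) ≤ d := by
    refine le_trans (le_of_eq ?_) hd
    rw [Module.finrank_pi_fintype,
      ← Finset.sum_coe_sort I (fun i => n i * finrank (ZMod p) (D i))]
    apply Finset.sum_congr rfl
    intro i _
    rw [Module.finrank_pi_fintype]
    simp
  have hS : (0 : ℝ) < Fintype.card (Rows D n I) := by exact_mod_cast Fintype.card_pos
  have h1 : ∀ u ∈ fullRows D n I,
      ((relSet p (fun h => act w I u (MonoidAlgebra.single h 1))).card : ℝ)
        ≤ 3 * 2 ^ Fintype.card H / Fintype.card (Rows D n I) := by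
    intro u hu
    rw [mem_fullRows] at hu
    rw [le_div_iff₀ hS]
    exact card_relSet_le hp2 _ (trans w I) (fun k h => trans_act w I u k h)
      (span_act_single w I u (act_surjective w I u hu)) d hfr hnum
  refine (Finset.sum_le_sum h1).trans ?_
  rw [Finset.sum_const, nsmul_eq_mul, ← mul_div_assoc, div_le_iff₀ hS, mul_comm]
  apply mul_le_mul_of_nonneg_left _ (by positivity)
  exact_mod_cast Finset.card_le_univ _

end blocks

end Pool.Agent.Lib.MP_640417_ag.OddGal
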