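import Pool.Agent.Lib.MP_640417_ag.OddBlockC

/-!
# A finer count for types of small dimension
-/

namespace Pool.Agent.Lib.MP_640417_ag.OddGal

open Module Finset Matrix

set_option linter.unusedSectionVars false

section small

/-- The residue `2a` has a small representative. -/
def IsSmall (p τ : ℕ) (a : ZMod p) : Prop := (2 * a).valMinAbs.natAbs ≤ τ

open Classical in
/-- The residues `a` such that `2a` has a small representative. -/
noncomputable def smallSet (p τ : ℕ) [NeZero p] : Finset (ZMod p) :=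
  Finset.univ.filter (IsSmall p τ)

lemma mem_smallSet (p τ : ℕ) [NeZero p] (a : ZMod p) : a ∈ smallSet p τ ↔ IsSmall p τ a := by
  classical
  simp only [smallSet, Finset.mem_filter, Finset.mem_univ, true_and]

lemma two_ne_zero_zmod (p : ℕ) [Fact p.Prime] (hp2 : p ≠ 2) : (2 : ZMod p) ≠ 0 := by
  intro h0
  have h1 : ((2 : ℕ) : ZMod p) = 0 := by exact_mod_cast h0
  rw [ZMod.natCast_eq_zero_iff] at h1
  exact hp2 ((Nat.prime_dvd_prime_iff_eq Fact.out Nat.prime_two).mp h1)

lemma card_smallSet_le (p τ : ℕ) [Fact p.Prime] (hp2 : p ≠ 2) :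
    (smallSet p τ).card ≤ 2 * τ + 1 := by
  classical
  have h1 : (Finset.Icc (-(τ : ℤ)) τ).card = 2 * τ + 1 := by
    rw [Int.card_Icc]
    omega
  rw [← h1]
  apply Finset.card_le_card_of_injOn (fun a => (2 * a).valMinAbs)
  · intro a ha
    rw [Finset.mem_coe, mem_smallSet, IsSmall] at ha
    rw [Finset.mem_coe, Finset.mem_Icc]
    change -(τ : ℤ) ≤ (2 * a).valMinAbs ∧ (2 * a).valMinAbs ≤ τ
    omega
  · intro a _ b _ hab
    have h2 := congrArg (fun x : ℤ => (x : ZMod p)) hab
    simp only [ZMod.coe_valMinAbs] at h2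
    exact mul_left_cancel₀ (two_ne_zero_zmod p hp2) h2

lemma cs_le_of_not_small (p τ : ℕ) [NeZero p] (a : ZMod p) (h : ¬ IsSmall p τ a) :
    cs p a ≤ Real.exp (-(2 * (τ / p : ℝ) ^ 2)) := by
  refine (cs_le_exp p a).trans ?_
  rw [Real.exp_le_exp]
  rw [IsSmall, not_le] at h
  have hp : (0 : ℝ) < p := Nat.cast_pos.mpr (Nat.pos_of_ne_zero (NeZero.ne p))
  have h1 : (τ : ℝ) ≤ ((2 * a).valMinAbs.natAbs : ℝ) := by exact_mod_cast h.le
  have h4 : (((2 * a).valMinAbs.natAbs : ℕ) : ℝ) ^ 2 = ((2 * a).valMinAbs : ℝ) ^ 2 := by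
    rw [Nat.cast_natAbs, Int.cast_abs, sq_abs]
  rw [← h4, div_pow, ← mul_div_assoc]
  apply neg_le_neg
  gcongr

end small

section except

variable {H : Type} [Group H] [Fintype H] {p : ℕ} [Fact p.Prime]
  {V : Type} [AddCommGroup V] [Module (ZMod p) V] [Fintype V]

open Classical in
/-- The functionals with few large values. -/
noncomputable def exSet (p : ℕ) [Fact p.Prime] [Module (ZMod p) V] [Fintype (Dual (ZMod p) V)]
    (v : H → V) (τ m : ℕ) : Finset (Dual (ZMod p) V) :=
  Finset.univ.filter (fun f =>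
    2 * m * ((Finset.univ : Finset H).filter (fun h => ¬ IsSmall p τ (f (v h)))).card
      < Fintype.card H)

theorem card_exSet_le [Fintype (Dual (ZMod p) V)] (hp2 : p ≠ 2) (v : H → V)
    (T : H → V ≃ₗ[ZMod p] V) (hT : ∀ k h, T k (v h) = v (h * k))
    (hspan : Submodule.span (ZMod p) (Set.range v) = ⊤) (τ m : ℕ)
    (hm : finrank (ZMod p) V ≤ m) :
    (exSet p v τ m).card ≤ 2 * (2 * τ + 1) ^ m := by
  classical
  obtain ⟨κ, a, ha, hsp, hli⟩ := exists_linearIndependent' (ZMod p) v
  have : Finite κ := Finite.of_injective a ha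
  have : Fintype κ := Fintype.ofFinite κ
  let b : Basis κ (ZMod p) V := Basis.mk hli (by rw [hsp, hspan])
  have hb : ∀ i, b i = v (a i) := fun i => by simp [b]
  have hcard : Fintype.card κ = finrank (ZMod p) V := (finrank_eq_card_basis b).symm
  have hg0 : 0 < Fintype.card H := Fintype.card_pos
  -- good pairs
  have h1 : ∀ k : H, ((exSet p v τ m).filter
      (fun f => ∀ i : κ, IsSmall p τ (f (v (a i * k))))).card ≤ (2 * τ + 1) ^ m := by
    intro k
    have h2 : ((exSet p v τ m).filter
        (fun f => ∀ i : κ, IsSmall p τ (f (v (a i * k))))).card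
        ≤ (Fintype.piFinset (fun _ : κ => smallSet p τ)).card := by
      apply Finset.card_le_card_of_injOn (fun f i => f (v (a i * k)))
      · intro f hf
        rw [Finset.mem_coe, Finset.mem_filter] at hf
        rw [Finset.mem_coe, Fintype.mem_piFinset]
        intro i
        rw [mem_smallSet]
        exact hf.2 i
      · intro f _ f' _ hff
        apply (b.map (T k)).ext
        intro i
        rw [Basis.map_apply, hb, hT]
        exact congrFun hff i
    refine h2.trans ?_
    rw [Fintype.card_piFinset, Finset.prod_const, Finset.card_univ, hcard]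
    calc (smallSet p τ).card ^ finrank (ZMod p) V ≤ (2 * τ + 1) ^ finrank (ZMod p) V :=
          Nat.pow_le_pow_left (card_smallSet_le p τ hp2) _
      _ ≤ (2 * τ + 1) ^ m := Nat.pow_le_pow_right (by omega) hm
  have h2 : ∀ f ∈ exSet p v τ m, Fintype.card H
      ≤ 2 * ((Finset.univ : Finset H).filter
        (fun k => ∀ i : κ, IsSmall p τ (f (v (a i * k))))).card := by
    intro f hf
    rw [exSet, Finset.mem_filter] at hf
    have hf2 := hf.2
    set L := ((Finset.univ : Finset H).filter (fun h => ¬ IsSmall p τ (f (v h)))).card with hL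
    have h3 : ((Finset.univ : Finset H).filter
        (fun k => ¬ ∀ i : κ, IsSmall p τ (f (v (a i * k))))).card ≤ Fintype.card κ * L := by
      have h4 : (Finset.univ : Finset H).filter
          (fun k => ¬ ∀ i : κ, IsSmall p τ (f (v (a i * k))))
          ⊆ (Finset.univ : Finset κ).biUnion (fun i => (Finset.univ : Finset H).filter
            (fun k => ¬ IsSmall p τ (f (v (a i * k))))) := by
        intro k hk
        rw [Finset.mem_filter] at hk
        obtain ⟨i, hi⟩ := not_forall.mp hk.2
        rw [Finset.mem_biUnion]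
        exact ⟨i, Finset.mem_univ _, Finset.mem_filter.mpr ⟨Finset.mem_univ _, hi⟩⟩
      refine (Finset.card_le_card h4).trans (Finset.card_biUnion_le.trans ?_)
      rw [← Finset.card_univ, ← smul_eq_mul, ← Finset.sum_const]
      apply Finset.sum_le_sum
      intro i _
      rw [hL]
      apply Finset.card_le_card_of_injOn (fun k => a i * k)
      · intro k hk
        rw [Finset.mem_coe, Finset.mem_filter] at hk ⊢
        exact ⟨Finset.mem_univ _, hk.2⟩
      · intro k _ k' _ hkk
        exact mul_left_cancel hkk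
    have h5 := Finset.card_filter_add_card_filter_not (s := (Finset.univ : Finset H))
      (fun k => ∀ i : κ, IsSmall p τ (f (v (a i * k))))
    rw [Finset.card_univ] at h5
    have h6 : Fintype.card κ * L ≤ m * L := Nat.mul_le_mul_right _ (by rw [hcard]; exact hm)
    have h7 : 2 * m * L = 2 * (m * L) := by ring
    omega
  have h3 : (exSet p v τ m).card * Fintype.card H
      ≤ (2 * (2 * τ + 1) ^ m) * Fintype.card H := by
    calc (exSet p v τ m).card * Fintype.card H
        = ∑ f ∈ exSet p v τ m, Fintype.card H := by rw [Finset.sum_const, smul_eq_mul]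
      _ ≤ ∑ f ∈ exSet p v τ m, 2 * ((Finset.univ : Finset H).filter
          (fun k => ∀ i : κ, IsSmall p τ (f (v (a i * k))))).card := Finset.sum_le_sum h2
      _ = 2 * ∑ k : H, ((exSet p v τ m).filter
          (fun f => ∀ i : κ, IsSmall p τ (f (v (a i * k))))).card := by
          rw [← Finset.mul_sum]
          congr 1
          simp only [Finset.card_filter]
          rw [Finset.sum_comm]
      _ ≤ 2 * ∑ _k : H, (2 * τ + 1) ^ m := by
          apply Nat.mul_le_mul_left
          exact Finset.sum_le_sum (fun k _ => h1 k)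
      _ = (2 * (2 * τ + 1) ^ m) * Fintype.card H := by
          rw [Finset.sum_const, Finset.card_univ, smul_eq_mul]
          ring
  exact Nat.le_of_mul_le_mul_right h3 hg0

lemma prod_le_of_not_mem_exSet [Fintype (Dual (ZMod p) V)] (v : H → V) (τ m : ℕ)
    (f : Dual (ZMod p) V) (hf : f ∉ exSet p v τ m) :
    ∏ h, cs p (f (v h))
      ≤ Real.exp (-(2 * (τ / p : ℝ) ^ 2 * (Fintype.card H / (2 * m)))) := by
  classical
  have hg : 0 < Fintype.card H := Fintype.card_pos
  rw [exSet, Finset.mem_filter, not_and, not_lt] at hf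
  have h1 := hf (Finset.mem_univ _)
  set L := (Finset.univ : Finset H).filter (fun h => ¬ IsSmall p τ (f (v h))) with hL
  have hm : 0 < m := by
    rcases Nat.eq_zero_or_pos m with h0 | h0
    · rw [h0] at h1
      omega
    · exact h0
  calc ∏ h, cs p (f (v h)) ≤ ∏ h ∈ L, cs p (f (v h)) := by
        rw [← Finset.prod_mul_prod_compl L]
        apply mul_le_of_le_one_right
        · exact Finset.prod_nonneg (fun h _ => cs_nonneg p _)
        · exact Finset.prod_le_one (fun h _ => cs_nonneg p _) (fun h _ => cs_le_one p _)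
    _ ≤ ∏ h ∈ L, Real.exp (-(2 * (τ / p : ℝ) ^ 2)) := by
        apply Finset.prod_le_prod (fun h _ => cs_nonneg p _)
        intro h hh
        rw [hL, Finset.mem_filter] at hh
        exact cs_le_of_not_small p τ _ hh.2
    _ = Real.exp (-(2 * (τ / p : ℝ) ^ 2) * L.card) := by
        rw [Finset.prod_const, ← Real.exp_nat_mul, mul_comm]
    _ ≤ _ := by
        rw [Real.exp_le_exp]
        have h2 : (Fintype.card H : ℝ) / (2 * m) ≤ L.card := by
          rw [div_le_iff₀ (by positivity)]
          have : (Fintype.card H : ℝ) ≤ 2 * m * L.card := by exact_mod_cast h1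
          linarith
        have h3 : (0 : ℝ) ≤ 2 * (τ / p : ℝ) ^ 2 := by positivity
        have := mul_le_mul_of_nonneg_left h2 h3
        linarith

end except

section blocks

variable {H : Type} [Group H] [Fintype H] {p : ℕ} [Fact p.Prime]
  {ι : Type} [Fintype ι] [DecidableEq ι] {D : ι → Type}
  [∀ i, Field (D i)] [∀ i, Fintype (D i)] [∀ i, Algebra (ZMod p) (D i)] {n : ι → ℕ}

/-- The matrices of the blocks in `I`. -/
abbrev Mats {ι : Type} (D : ι → Type) (n : ι → ℕ) (I : Finset ι) : Type :=
  (i : I) → Matrix (Fin (n i)) (Fin (n i)) (D i)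

/-- Row vector times matrix. -/
noncomputable def rowMul (p : ℕ) [∀ i, Algebra (ZMod p) (D i)] (I : Finset ι) (u : Rows D n I) :
    Mats D n I →ₗ[ZMod p] Rows D n I where
  toFun A := fun i => u i ᵥ* A i
  map_add' a b := by
    funext i
    rw [Pi.add_apply, Matrix.vecMul_add]
    rfl
  map_smul' c a := by
    funext i
    rw [Pi.smul_apply, Matrix.vecMul_smul]
    rfl

lemma rowMul_surjective (I : Finset ι) (u : Rows D n I) (hu : ∀ i, u i ≠ 0) :
    Function.Surjective (rowMul p I u) := by
  classical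
  intro s
  have h1 : ∀ i : I, ∃ A : Matrix (Fin (n i)) (Fin (n i)) (D i), u i ᵥ* A = s i := by
    intro i
    obtain ⟨j, hj⟩ := Function.ne_iff.mp (hu i)
    rw [Pi.zero_apply] at hj
    refine ⟨Matrix.of (fun k l => if k = j then (u i j)⁻¹ * s i l else 0), ?_⟩
    funext l
    rw [Matrix.vecMul, dotProduct]
    rw [Finset.sum_eq_single j]
    · rw [Matrix.of_apply, if_pos rfl, ← mul_assoc, mul_inv_cancel₀ hj, one_mul]
    · intro k _ hk
      rw [Matrix.of_apply, if_neg hk, mul_zero]
    · intro h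
      exact absurd (Finset.mem_univ j) h
  choose A hA using h1
  exact ⟨A, funext hA⟩

/-- The image of a group element in the blocks of `I`. -/
noncomputable def blkL
    (w : MonoidAlgebra (ZMod p) H ≃ₐ[ZMod p] ((i : ι) → Matrix (Fin (n i)) (Fin (n i)) (D i)))
    (I : Finset ι) : MonoidAlgebra (ZMod p) H →ₗ[ZMod p] Mats D n I where
  toFun a := fun i => w a i
  map_add' a b := by
    funext i
    rw [map_add]
    rfl
  map_smul' c a := by
    funext i
    rw [map_smul]
    rfl

lemma act_eq_rowMul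
    (w : MonoidAlgebra (ZMod p) H ≃ₐ[ZMod p] ((i : ι) → Matrix (Fin (n i)) (Fin (n i)) (D i)))
    (I : Finset ι) (u : Rows D n I) (a : MonoidAlgebra (ZMod p) H) :
    act w I u a = rowMul p I u (blkL w I a) := rfl

lemma blkL_surjective
    (w : MonoidAlgebra (ZMod p) H ≃ₐ[ZMod p] ((i : ι) → Matrix (Fin (n i)) (Fin (n i)) (D i)))
    (I : Finset ι) : Function.Surjective (blkL w I) := by
  classical
  intro A
  refine ⟨w.symm (fun i => if h : i ∈ I then A ⟨i, h⟩ else 0), ?_⟩
  funext i
  change w (w.symm _) i = A i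
  rw [AlgEquiv.apply_symm_apply, dif_pos i.2]

/-- Right translation on matrices. -/
noncomputable def transM
    (w : MonoidAlgebra (ZMod p) H ≃ₐ[ZMod p] ((i : ι) → Matrix (Fin (n i)) (Fin (n i)) (D i)))
    (I : Finset ι) (k : H) : Mats D n I ≃ₗ[ZMod p] Mats D n I where
  toFun v := fun i => v i * w (MonoidAlgebra.single k 1) i
  map_add' a b := by
    funext i
    rw [Pi.add_apply, add_mul]
    rfl
  map_smul' c a := by
    funext i
    rw [Pi.smul_apply, smul_mul_assoc]
    rfl
  invFun v := fun i => v i * w (MonoidAlgebra.single k⁻¹ 1) i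
  left_inv v := by
    funext i
    simp only [mul_assoc]
    rw [← Pi.mul_apply, ← map_mul, MonoidAlgebra.single_mul_single, mul_inv_cancel, one_mul,
      ← MonoidAlgebra.one_def, map_one, Pi.one_apply, mul_one]
  right_inv v := by
    funext i
    simp only [mul_assoc]
    rw [← Pi.mul_apply, ← map_mul, MonoidAlgebra.single_mul_single, inv_mul_cancel, one_mul,
      ← MonoidAlgebra.one_def, map_one, Pi.one_apply, mul_one]

lemma transM_blkL
    (w : MonoidAlgebra (ZMod p) H ≃ₐ[ZMod p] ((i : ι) → Matrix (Fin (n i)) (Fin (n i)) (D i)))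
    (I : Finset ι) (k h : H) :
    transM w I k (blkL w I (MonoidAlgebra.single h 1)) = blkL w I (MonoidAlgebra.single (h * k) 1) := by
  funext i
  change w (MonoidAlgebra.single h 1) i * w (MonoidAlgebra.single k 1) i
    = w (MonoidAlgebra.single (h * k) 1) i
  rw [← Pi.mul_apply, ← map_mul, MonoidAlgebra.single_mul_single, one_mul]

lemma span_blkL_single
    (w : MonoidAlgebra (ZMod p) H ≃ₐ[ZMod p] ((i : ι) → Matrix (Fin (n i)) (Fin (n i)) (D i)))
    (I : Finset ι) :
    Submodule.span (ZMod p)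
      (Set.range (fun h : H => blkL w I (MonoidAlgebra.single h (1 : ZMod p)))) = ⊤ := by
  classical
  rw [eq_top_iff]
  intro s _
  obtain ⟨a, rfl⟩ := blkL_surjective w I s
  have h1 : a = ∑ h, a.coeff h • MonoidAlgebra.single h (1 : ZMod p) := by
    ext k
    simp [MonoidAlgebra.coeff_sum]
  rw [h1, map_sum]
  apply Submodule.sum_mem
  intro h _
  rw [map_smul]
  exact Submodule.smul_mem _ _ (Submodule.subset_span ⟨h, rfl⟩)

lemma card_rows (I : Finset ι) :
    Fintype.card (Rows D n I) = p ^ finrank (ZMod p) (Rows D n I) := by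
  rw [← Nat.card_eq_fintype_card,
    Module.natCard_eq_pow_finrank (K := ZMod p) (V := Rows D n I), Nat.card_zmod]

/-- The pairs (row vector, functional) with a given matrix coefficient. -/
lemma card_fiber_mul_le (I : Finset ι) (hn : ∀ i ∈ I, 2 ≤ n i)
    (f : Dual (ZMod p) (Mats D n I)) (F : Finset (Rows D n I × Dual (ZMod p) (Rows D n I)))
    (hF : ∀ x ∈ F, (∀ i, x.1 i ≠ 0) ∧ x.2 ≠ 0 ∧ x.2 ∘ₗ rowMul p I x.1 = f) :
    F.card * p ≤ Fintype.card (Rows D n I) := by
  classical
  rcases F.eq_empty_or_nonempty with h0 | ⟨⟨u₀, ξ₀⟩, hx0⟩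
  · rw [h0]
    simp
  obtain ⟨hu0, hξ0, hf0⟩ := hF _ hx0
  simp only at hu0 hξ0 hf0
  obtain ⟨r, hr⟩ : ∃ r, ξ₀ r ≠ 0 := by
    by_contra h
    push Not at h
    exact hξ0 (LinearMap.ext h)
  obtain ⟨j, hj⟩ : ∃ j : I, ξ₀ (Pi.single j (r j)) ≠ 0 := by
    by_contra h
    push Not at h
    apply hr
    have h1 : r = ∑ j : I, Pi.single j (r j) := (Finset.univ_sum_single r).symm
    rw [h1, map_sum]
    exact Finset.sum_eq_zero (fun j _ => h j)
  set y := r j with hy
  let W : Submodule (ZMod p) (Rows D n I) :=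
    ((Submodule.span (D j) {u₀ j}).restrictScalars (ZMod p)).comap (LinearMap.proj j)
  have hmemW : ∀ u : Rows D n I, u ∈ W ↔ u j ∈ Submodule.span (D j) {u₀ j} := fun u => Iff.rfl
  have hW : W ≠ ⊤ := by
    intro h
    have h1 : Submodule.span (D j) {u₀ j} = ⊤ := by
      rw [eq_top_iff]
      intro x _
      have h2 : (Pi.single j x : Rows D n I) ∈ W := by rw [h]; trivial
      rw [hmemW, Pi.single_eq_same] at h2
      exact h2
    have h2 := finrank_span_singleton (K := D j) (hu0 j)
    rw [h1, finrank_top] at h2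
    have h3 : finrank (D j) (Fin (n j) → D j) = n j := by simp
    have h4 := hn j j.2
    omega
  have hcardW : Fintype.card W * p ≤ Fintype.card (Rows D n I) := by
    have h1 : finrank (ZMod p) W < finrank (ZMod p) (Rows D n I) := Submodule.finrank_lt hW
    have h2 : Fintype.card W = p ^ finrank (ZMod p) W := by
      rw [← Nat.card_eq_fintype_card,
        Module.natCard_eq_pow_finrank (K := ZMod p) (V := W), Nat.card_zmod]
    rw [h2, card_rows (p := p), ← pow_succ]
    exact Nat.pow_le_pow_right (Fact.out : p.Prime).pos h1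
  refine le_trans (Nat.mul_le_mul_right p ?_) hcardW
  have key : ∀ x ∈ F, x.1 ∈ W := by
    rintro ⟨u, ξ⟩ hx
    obtain ⟨hu, hξ, hfx⟩ := hF _ hx
    simp only at hu hξ hfx
    rw [hmemW]
    change u j ∈ _
    by_cases h1 : u₀ j ∈ Submodule.span (D j) {u j}
    · obtain ⟨c, hc⟩ := Submodule.mem_span_singleton.mp h1
      have hc0 : c ≠ 0 := by
        rintro rfl
        rw [zero_smul] at hc
        exact hu0 j hc.symm
      rw [Submodule.mem_span_singleton]
      exact ⟨c⁻¹, by rw [← hc, smul_smul, inv_mul_cancel₀ hc0, one_smul]⟩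
    · exfalso
      obtain ⟨ℓ, hℓ1, hℓ2⟩ := Submodule.exists_le_ker_of_notMem h1
      have hℓ3 : ℓ (u j) = 0 := hℓ2 (Submodule.mem_span_singleton_self _)
      let B : Matrix (Fin (n j)) (Fin (n j)) (D j) :=
        Matrix.of (fun k l => ℓ (Pi.single k 1) * ((ℓ (u₀ j))⁻¹ * y l))
      have hB : ∀ v : Fin (n j) → D j, v ᵥ* B = (ℓ v * (ℓ (u₀ j))⁻¹) • y := by
        intro v
        funext l
        rw [Matrix.vecMul, dotProduct, Pi.smul_apply, smul_eq_mul]
        have h2 : ℓ v = ∑ k, v k * ℓ (Pi.single k 1) := by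
          conv_lhs => rw [← Finset.univ_sum_single v]
          rw [map_sum]
          apply Finset.sum_congr rfl
          intro k _
          have h3 : (Pi.single k (v k) : Fin (n j) → D j) = v k • Pi.single k 1 := by
            rw [← Pi.single_smul, smul_eq_mul, mul_one]
          rw [h3, map_smul, smul_eq_mul]
        rw [h2, Finset.sum_mul, Finset.sum_mul]
        apply Finset.sum_congr rfl
        intro k _
        change v k * (ℓ (Pi.single k 1) * ((ℓ (u₀ j))⁻¹ * y l)) = _
        ring
      have hA : ∀ v : Rows D n I, rowMul p I v (Pi.single j B) = Pi.single j (v j ᵥ* B) := by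
        intro v
        funext i
        change v i ᵥ* (Pi.single j B : Mats D n I) i = _
        by_cases hij : i = j
        · subst hij
          rw [Pi.single_eq_same, Pi.single_eq_same]
        · rw [Pi.single_eq_of_ne hij, Pi.single_eq_of_ne hij, Matrix.vecMul_zero]
      have h2 : f (Pi.single j B) = 0 := by
        rw [← hfx, LinearMap.comp_apply, hA, hB, hℓ3, zero_mul, zero_smul, Pi.single_zero, map_zero]
      have h3 : f (Pi.single j B) = ξ₀ (Pi.single j y) := by
        rw [← hf0, LinearMap.comp_apply, hA, hB, mul_inv_cancel₀ hℓ1, one_smul]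
      rw [h3] at h2
      exact hj h2
  rw [← Fintype.card_coe]
  apply Fintype.card_le_of_injective (fun x : F => (⟨x.1.1, key x.1 x.2⟩ : W))
  rintro ⟨⟨u, ξ⟩, hx⟩ ⟨⟨u', ξ'⟩, hx'⟩ hxx
  simp only [Subtype.mk.injEq] at hxx
  subst hxx
  obtain ⟨hu, _, hfx⟩ := hF _ hx
  obtain ⟨_, _, hfx'⟩ := hF _ hx'
  simp only at hu hfx hfx'
  simp only [Subtype.mk.injEq, Prod.mk.injEq, true_and]
  apply LinearMap.ext
  intro s
  obtain ⟨A, rfl⟩ := rowMul_surjective (p := p) I u hu s
  have h1 := LinearMap.congr_fun (hfx.trans hfx'.symm) A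
  exact h1

/-- The sum over pairs of row vectors and functionals. -/
theorem sum_card_relSet_leD (hp2 : p ≠ 2)
    (w : MonoidAlgebra (ZMod p) H ≃ₐ[ZMod p] ((i : ι) → Matrix (Fin (n i)) (Fin (n i)) (D i)))
    (I : Finset ι) (hn : ∀ i ∈ I, 2 ≤ n i) (m τ : ℕ)
    (hm : ∑ i ∈ I, n i ^ 2 * finrank (ZMod p) (D i) ≤ m) (h1 : 2 * (2 * τ + 1) ^ m ≤ p)
    (h2 : (p : ℝ) ^ m *
      Real.exp (-(2 * (τ / p : ℝ) ^ 2 * (Fintype.card H / (2 * m)))) ≤ 1) :
    ∑ u ∈ fullRows D n I,
      ((relSet p (fun h => act w I u (MonoidAlgebra.single h 1))).card : ℝ)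
      ≤ 3 * 2 ^ Fintype.card H := by
  classical
  have : Finite (Dual (ZMod p) (Rows D n I)) := Module.finite_of_finite (ZMod p)
  have : Fintype (Dual (ZMod p) (Rows D n I)) := Fintype.ofFinite _
  have : Finite (Dual (ZMod p) (Mats D n I)) := Module.finite_of_finite (ZMod p)
  have : Fintype (Dual (ZMod p) (Mats D n I)) := Fintype.ofFinite _
  have hcard : Fintype.card (Dual (ZMod p) (Rows D n I)) = Fintype.card (Rows D n I) := by
    rw [← Nat.card_eq_fintype_card, ← Nat.card_eq_fintype_card,
      Module.natCard_eq_pow_finrank (K := ZMod p) (V := Dual (ZMod p) (Rows D n I)),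
      Module.natCard_eq_pow_finrank (K := ZMod p) (V := Rows D n I), Subspace.dual_finrank_eq]
  have hfrM : finrank (ZMod p) (Mats D n I) ≤ m := by
    refine le_trans (le_of_eq ?_) hm
    rw [Module.finrank_pi_fintype,
      ← Finset.sum_coe_sort I (fun i => n i ^ 2 * finrank (ZMod p) (D i))]
    apply Finset.sum_congr rfl
    intro i _
    rw [Module.finrank_matrix]
    simp [sq]
  have hfrR : finrank (ZMod p) (Rows D n I) ≤ m := by
    refine le_trans ?_ hm
    rw [Module.finrank_pi_fintype,
      ← Finset.sum_coe_sort I (fun i => n i ^ 2 * finrank (ZMod p) (D i))]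
    apply Finset.sum_le_sum
    intro i _
    rw [Module.finrank_pi_fintype]
    simp only [Finset.sum_const, Finset.card_univ, Fintype.card_fin, smul_eq_mul]
    exact Nat.mul_le_mul_right _ (Nat.le_self_pow two_ne_zero _)
  set S : ℝ := ((Fintype.card (Rows D n I) : ℕ) : ℝ) with hS
  have hS0 : 0 < S := by
    rw [hS]
    exact_mod_cast Fintype.card_pos
  have hp0 : (0 : ℝ) < p := by exact_mod_cast (Fact.out : p.Prime).pos
  have hp1 : (1 : ℝ) ≤ p := by exact_mod_cast (Fact.out : p.Prime).one_lt.le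
  set v : H → Mats D n I := fun h => blkL w I (MonoidAlgebra.single h 1) with hv
  set G : Dual (ZMod p) (Mats D n I) → ℝ := fun f => ∏ h, cs p (f (v h)) with hG
  have hG0 : ∀ f, 0 ≤ G f := fun f => Finset.prod_nonneg (fun h _ => cs_nonneg p _)
  have hG1 : ∀ f, G f ≤ 1 := fun f =>
    Finset.prod_le_one (fun h _ => cs_nonneg p _) (fun h _ => cs_le_one p _)
  set E0 : ℝ := Real.exp (-(2 * (τ / p : ℝ) ^ 2 * (Fintype.card H / (2 * m)))) with hE0
  have hE0pos : 0 < E0 := Real.exp_pos _
  have hSE : S * E0 ≤ 1 := by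
    refine le_trans ?_ h2
    apply mul_le_mul_of_nonneg_right _ hE0pos.le
    rw [hS, card_rows (p := p)]
    push_cast
    exact pow_le_pow_right₀ hp1 hfrR
  set Ex := exSet p v τ m with hEx
  have hExcard : (Ex.card : ℝ) ≤ p := by
    have h3 := card_exSet_le hp2 v (transM w I) (fun k h => transM_blkL w I k h)
      (span_blkL_single w I) τ m hfrM
    exact_mod_cast h3.trans h1
  -- each row vector
  have h3 : ∀ u : Rows D n I,
      ((relSet p (fun h => act w I u (MonoidAlgebra.single h 1))).card : ℝ) * S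
        ≤ 2 ^ Fintype.card H * ∑ ξ : Dual (ZMod p) (Rows D n I), G (ξ ∘ₗ rowMul p I u) := by
    intro u
    have h4 := card_relSet_mul_le (p := p) (fun h => act w I u (MonoidAlgebra.single h 1))
    rw [hcard] at h4
    exact h4
  have h4 : ∑ u ∈ fullRows D n I, ∑ ξ : Dual (ZMod p) (Rows D n I), G (ξ ∘ₗ rowMul p I u)
      ≤ 3 * S := by
    have h5 : ∀ u : Rows D n I, ∑ ξ : Dual (ZMod p) (Rows D n I), G (ξ ∘ₗ rowMul p I u)
        ≤ 1 + ∑ ξ ∈ (Finset.univ : Finset (Dual (ZMod p) (Rows D n I))).erase 0,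
          G (ξ ∘ₗ rowMul p I u) := by
      intro u
      rw [← Finset.add_sum_erase _ _ (Finset.mem_univ (0 : Dual (ZMod p) (Rows D n I)))]
      have := hG1 ((0 : Dual (ZMod p) (Rows D n I)) ∘ₗ rowMul p I u)
      linarith
    refine (Finset.sum_le_sum (fun u _ => h5 u)).trans ?_
    rw [Finset.sum_add_distrib, ← Finset.sum_product']
    have h6 : ∑ u ∈ fullRows D n I, (1 : ℝ) ≤ S := by
      rw [Finset.sum_const, nsmul_eq_mul, mul_one, hS]
      exact_mod_cast Finset.card_le_univ _
    set P := (fullRows D n I) ×ˢ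
      ((Finset.univ : Finset (Dual (ZMod p) (Rows D n I))).erase 0) with hP
    have hPcard : (P.card : ℝ) ≤ S * S := by
      rw [hP, Finset.card_product]
      push_cast
      have ha : ((fullRows D n I).card : ℝ) ≤ S := by
        rw [hS]
        exact_mod_cast Finset.card_le_univ _
      have hb : ((((Finset.univ : Finset (Dual (ZMod p) (Rows D n I))).erase 0).card : ℕ) : ℝ)
          ≤ S := by
        rw [hS, ← hcard]
        exact_mod_cast Finset.card_le_univ _
      gcongr
    have h7 : ∑ x ∈ P, G (x.2 ∘ₗ rowMul p I x.1)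
        ≤ ∑ x ∈ P, ((if x.2 ∘ₗ rowMul p I x.1 ∈ Ex then 1 else 0) + E0) := by
      apply Finset.sum_le_sum
      intro x _
      split_ifs with hx
      · have := hG1 (x.2 ∘ₗ rowMul p I x.1)
        linarith
      · rw [zero_add]
        exact prod_le_of_not_mem_exSet v τ m _ hx
    have h8 : ∑ x ∈ P, ((if x.2 ∘ₗ rowMul p I x.1 ∈ Ex then (1 : ℝ) else 0) + E0)
        = ((P.filter (fun x => x.2 ∘ₗ rowMul p I x.1 ∈ Ex)).card : ℝ) + P.card * E0 := by
      rw [Finset.sum_add_distrib, Finset.sum_const, nsmul_eq_mul]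
      congr 1
      rw [← Finset.sum_filter, Finset.sum_const, nsmul_eq_mul, mul_one]
    have h9 : ((P.filter (fun x => x.2 ∘ₗ rowMul p I x.1 ∈ Ex)).card : ℝ) * p ≤ Ex.card * S := by
      have h10 : (P.filter (fun x => x.2 ∘ₗ rowMul p I x.1 ∈ Ex)).card
          = ∑ f ∈ Ex, ((P.filter (fun x => x.2 ∘ₗ rowMul p I x.1 ∈ Ex)).filter
            (fun x => x.2 ∘ₗ rowMul p I x.1 = f)).card :=
        Finset.card_eq_sum_card_fiberwise (fun x hx => (Finset.mem_filter.mp hx).2)
      have h11 : (P.filter (fun x => x.2 ∘ₗ rowMul p I x.1 ∈ Ex)).card * p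
          ≤ Ex.card * Fintype.card (Rows D n I) := by
        rw [h10, Finset.sum_mul]
        refine (Finset.sum_le_card_nsmul _ _ (Fintype.card (Rows D n I)) ?_).trans ?_
        · intro f _
          apply card_fiber_mul_le I hn f
          intro x hx
          rw [Finset.mem_filter, Finset.mem_filter, hP, Finset.mem_product, mem_fullRows,
            Finset.mem_erase] at hx
          exact ⟨hx.1.1.1, hx.1.1.2.1, hx.2⟩
        · rw [smul_eq_mul]
      rw [hS]
      exact_mod_cast h11
    have h10 : ((P.filter (fun x => x.2 ∘ₗ rowMul p I x.1 ∈ Ex)).card : ℝ) ≤ S := by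
      have h12 : (Ex.card : ℝ) * S ≤ p * S := by gcongr
      have h13 := h9.trans h12
      rw [mul_comm (p : ℝ) S] at h13
      exact le_of_mul_le_mul_right h13 hp0
    have h11 : (P.card : ℝ) * E0 ≤ S := by
      calc (P.card : ℝ) * E0 ≤ S * S * E0 := by gcongr
        _ = S * (S * E0) := by ring
        _ ≤ S * 1 := by gcongr
        _ = S := mul_one S
    linarith [h7, h8.le]
  have h5 : (∑ u ∈ fullRows D n I,
      ((relSet p (fun h => act w I u (MonoidAlgebra.single h 1))).card : ℝ)) * S
      ≤ (3 * 2 ^ Fintype.card H) * S := by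
    rw [Finset.sum_mul]
    refine (Finset.sum_le_sum (fun u _ => h3 u)).trans ?_
    rw [← Finset.mul_sum]
    calc 2 ^ Fintype.card H * ∑ u ∈ fullRows D n I, ∑ ξ : Dual (ZMod p) (Rows D n I),
          G (ξ ∘ₗ rowMul p I u) ≤ 2 ^ Fintype.card H * (3 * S) := by gcongr
      _ = (3 * 2 ^ Fintype.card H) * S := by ring
  exact le_of_mul_le_mul_right h5 hS0

end blocks

end Pool.Agent.Lib.MP_640417_ag.OddGal
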