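import Pool.Agent.Lib.MP_640417_ag.ConjGal
import Pool.Agent.Lib.MP_640417_ag.OddDefs

/-!
# Galois CM fields of degree `2g` with `g` odd

CM types on such a field correspond to sign vectors on a group of order `g`.
-/

namespace Pool.Agent.Lib.MP_640417_ag.OddGal

open NumberField Module

section emb

variable {E : Type} [Field E] [NumberField E]

/-- The embedding `φ₀ ∘ σ`. -/
noncomputable def embOf (φ₀ : Emb E) (σ : E ≃ₐ[ℚ] E) : Emb E := φ₀.comp σ.toRingEquiv.toRingHom

lemma embOf_apply (φ₀ : Emb E) (σ : E ≃ₐ[ℚ] E) (x : E) : embOf φ₀ σ x = φ₀ (σ x) := rfl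

lemma embOf_injective (φ₀ : Emb E) : Function.Injective (embOf φ₀) := by
  intro σ τ h
  apply AlgEquiv.ext
  intro x
  apply φ₀.injective
  exact congrArg (fun f : Emb E => f x) h

lemma embOf_bijective [IsGalois ℚ E] (φ₀ : Emb E) : Function.Bijective (embOf φ₀) := by
  classical
  rw [Fintype.bijective_iff_injective_and_card]
  refine ⟨embOf_injective φ₀, ?_⟩
  rw [card_emb, ← Nat.card_eq_fintype_card, IsGalois.card_aut_eq_finrank]

/-- Every automorphism of `E` is realized by the absolute Galois group. -/
lemma exists_tau (φ₀ : Emb E) (ρ : E ≃ₐ[ℚ] E) :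
    ∃ τ : AbsGal, ∀ σ : E ≃ₐ[ℚ] E, galEmb τ (embOf φ₀ σ) = embOf φ₀ (ρ * σ) := by
  obtain ⟨τ, hτ⟩ := exists_galEmb_eq φ₀ (embOf φ₀ ρ)
  refine ⟨τ, fun σ => ?_⟩
  apply RingHom.ext
  intro x
  have h1 := congrArg (fun f : Emb E => f (σ x)) hτ
  exact h1

variable [IsCMField E]

/-- Complex conjugation as an automorphism over `ℚ`. -/
noncomputable def conjAut (E : Type) [Field E] [NumberField E] [IsCMField E] : E ≃ₐ[ℚ] E :=
  (IsCMField.complexConj E).restrictScalars ℚ

lemma conjEmb_embOf (φ₀ : Emb E) (σ : E ≃ₐ[ℚ] E) :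
    conjEmb (embOf φ₀ σ) = embOf φ₀ (σ * conjAut E) := rfl

lemma conjAut_mul_self : conjAut E * conjAut E = 1 := by
  apply AlgEquiv.ext
  intro x
  exact IsCMField.complexConj_apply_apply E x

lemma conjAut_ne_one : conjAut E ≠ 1 := by
  intro h
  apply IsCMField.complexConj_ne_one E
  apply AlgEquiv.ext
  intro x
  exact congrArg (fun f : E ≃ₐ[ℚ] E => f x) h

lemma conjAut_comm (σ : E ≃ₐ[ℚ] E) : σ * conjAut E = conjAut E * σ := by
  obtain ⟨c, hc⟩ := exists_galEmb_conj E
  obtain ⟨φ₀⟩ : Nonempty (Emb E) := by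
    rw [← Fintype.card_pos_iff, card_emb]
    exact finrank_pos
  apply embOf_injective φ₀
  rw [← conjEmb_embOf, ← hc]
  apply RingHom.ext
  intro x
  have h1 := hc φ₀
  have h2 := congrArg (fun f : Emb E => f (σ x)) h1
  exact h2

end emb

section main

variable {E : Type} [Field E] [NumberField E] [IsCMField E] [IsGalois ℚ E]

/-- **Dictionary.** The CM types with a relation are bounded by the bad sign vectors on a
complement of complex conjugation. -/
theorem exists_complement (g : ℕ) (hE : finrank ℚ E = 2 * g) (hodd : Odd g)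
    (P : Set (Emb E) → Prop)
    (hP : ∀ Φ : Set (Emb E), IsCMType Φ → P Φ → ∃ v ∈ relLattice Φ, v ≠ 0) :
    ∃ (K : Subgroup (E ≃ₐ[ℚ] E)) (_ : Fintype K), Fintype.card K = g ∧
      {Φ : Set (Emb E) | IsCMType Φ ∧ P Φ}.ncard
        ≤ {ε : K → ℤ | ε ∈ signs K ∧ Bad ε}.ncard ∧
      {M : Subgroup K | M.index = 3}.ncard
        ≤ {F : IntermediateField ℚ E | finrank ℚ F = 3}.ncard := by
  classical
  set G := E ≃ₐ[ℚ] E with hG
  set c : G := conjAut E with hc
  have hcc : c * c = 1 := conjAut_mul_self
  have hc1 : c ≠ 1 := conjAut_ne_one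
  have hcomm : ∀ σ : G, σ * c = c * σ := conjAut_comm
  have hcardG : Nat.card G = 2 * g := by rw [IsGalois.card_aut_eq_finrank, hE]
  let N : Subgroup G := Subgroup.zpowers c
  have hordc : orderOf c = 2 := by
    apply orderOf_eq_prime
    · rw [sq]; exact hcc
    · exact hc1
  have hNcard : Nat.card N = 2 := by rw [Nat.card_zpowers, hordc]
  have hmemN : ∀ σ : G, σ ∈ N ↔ σ = 1 ∨ σ = c := by
    intro σ
    constructor
    · intro h
      obtain ⟨k, rfl⟩ := Subgroup.mem_zpowers_iff.mp h
      rcases Int.even_or_odd' k with ⟨m, rfl | rfl⟩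
      · left
        rw [zpow_mul, zpow_ofNat, sq, hcc, one_zpow]
      · right
        rw [zpow_add, zpow_mul, zpow_ofNat, sq, hcc, one_zpow, one_mul, zpow_one]
    · rintro (rfl | rfl)
      · exact one_mem N
      · exact Subgroup.mem_zpowers c
  have hNn : N.Normal := by
    refine ⟨fun n hn σ => ?_⟩
    rw [hmemN] at hn ⊢
    rcases hn with rfl | rfl
    · left; simp
    · right
      rw [hcomm, mul_assoc, mul_inv_cancel, mul_one]
  have hNind : N.index = g := by
    have h1 := N.card_mul_index
    rw [hNcard, hcardG] at h1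
    omega
  obtain ⟨K, hK⟩ := Subgroup.exists_right_complement'_of_coprime (N := N)
    (by rw [hNcard, hNind]; exact (Nat.coprime_two_left).mpr hodd)
  have hKcard : Nat.card K = g := by
    have h1 := hK.card_mul_card
    rw [hNcard, hcardG] at h1
    omega
  have : Fintype K := Fintype.ofFinite K
  refine ⟨K, this, by rw [← Nat.card_eq_fintype_card]; exact hKcard, ?_, ?_⟩
  · -- sign vectors
    obtain ⟨φ₀⟩ : Nonempty (Emb E) := by
      rw [← Fintype.card_pos_iff, card_emb]
      exact finrank_pos
    have hbij := embOf_bijective φ₀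
    -- every automorphism is `k` or `k * c`
    have hdec : ∀ σ : G, ∃ k : K, σ = k ∨ σ = k * c := by
      intro σ
      obtain ⟨⟨n, k⟩, hnk⟩ := hK.surjective σ
      simp only at hnk
      rcases (hmemN n).mp n.2 with h | h
      · exact ⟨k, Or.inl (by rw [← hnk, h, one_mul])⟩
      · exact ⟨k, Or.inr (by rw [← hnk, h, hcomm])⟩
    have hcK : ∀ k k' : K, (k : G) ≠ k' * c := by
      intro k k' h
      have h1 : c ∈ K := by
        have h2 : c = (k' : G)⁻¹ * k := by rw [h]; group
        rw [h2]
        exact K.mul_mem (K.inv_mem k'.2) k.2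
      have h2 : c ∈ N ⊓ K := ⟨Subgroup.mem_zpowers c, h1⟩
      rw [hK.isCompl.inf_eq_bot, Subgroup.mem_bot] at h2
      exact hc1 h2
    let f : Set (Emb E) → (K → ℤ) := fun Φ k => sgnZ Φ (embOf φ₀ ((k⁻¹ : K) : G))
    apply Set.ncard_le_ncard_of_injOn f
    · rintro Φ ⟨hΦ, hPΦ⟩
      obtain ⟨v, hv, hv0⟩ := hP Φ hΦ hPΦ
      rw [mem_relLattice] at hv
      obtain ⟨hvodd, hvrel⟩ := hv
      refine ⟨?_, ?_⟩
      · simp only [signs, Fintype.mem_piFinset, Finset.mem_insert, Finset.mem_singleton]
        intro k
        exact sgnZ_eq_one_or Φ _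
      · refine ⟨elt (fun k : K => v (embOf φ₀ k)), ?_, ?_⟩
        · intro h0
          apply hv0
          funext φ
          obtain ⟨σ, rfl⟩ := hbij.2 φ
          obtain ⟨k, hk⟩ := hdec σ
          have hk0 : v (embOf φ₀ k) = 0 := by
            have h1 := congrArg (fun x : MonoidAlgebra ℤ K => x.coeff k) h0
            simpa [elt] using h1
          rcases hk with rfl | rfl
          · exact hk0
          · rw [← conjEmb_embOf, hvodd, hk0]
            simp
        · ext γ
          rw [MonoidAlgebra.coeff_mul_apply_left, Finsupp.sum_fintype _ _ (by simp)]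
          simp only [elt, MonoidAlgebra.coeff_ofCoeff, Finsupp.equivFunOnFinite_symm_apply_apply,
            MonoidAlgebra.coeff_zero, Finsupp.coe_zero, Pi.zero_apply]
          obtain ⟨τ, hτ⟩ := exists_tau φ₀ ((γ⁻¹ : K) : G)
          have h1 := hvrel τ
          -- rewrite the sum over the embeddings
          have h2 : ∑ φ : Emb E, v φ * sgnZ Φ (galEmb τ φ)
              = ∑ σ : G, v (embOf φ₀ σ) * sgnZ Φ (galEmb τ (embOf φ₀ σ)) :=
            (Function.Bijective.sum_comp hbij
              (fun φ => v φ * sgnZ Φ (galEmb τ φ))).symm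
          have h3 : ∑ σ : G, v (embOf φ₀ σ) * sgnZ Φ (galEmb τ (embOf φ₀ σ))
              = ∑ x : K × Fin 2, v (embOf φ₀ (x.1 * c ^ (x.2 : ℕ)))
                * sgnZ Φ (galEmb τ (embOf φ₀ (x.1 * c ^ (x.2 : ℕ)))) := by
            symm
            apply Fintype.sum_bijective (fun x : K × Fin 2 => ((x.1 : G) * c ^ (x.2 : ℕ)))
            · constructor
              · rintro ⟨k, i⟩ ⟨k', i'⟩ h
                simp only at h
                fin_cases i <;> fin_cases i'
                · simp at h
                  rw [h]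
                · simp at h
                  exact absurd h (hcK k k')
                · simp at h
                  exact absurd h.symm (hcK k' k)
                · simp at h
                  rw [h]
              · intro σ
                obtain ⟨k, hk⟩ := hdec σ
                rcases hk with rfl | rfl
                · exact ⟨(k, 0), by simp⟩
                · exact ⟨(k, 1), by simp⟩
            · intro x
              rfl
          have h4 : ∑ x : K × Fin 2, v (embOf φ₀ (x.1 * c ^ (x.2 : ℕ)))
                * sgnZ Φ (galEmb τ (embOf φ₀ (x.1 * c ^ (x.2 : ℕ))))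
              = 2 * ∑ k : K, v (embOf φ₀ k) * sgnZ Φ (embOf φ₀ ((γ⁻¹ : K) * k)) := by
            rw [Fintype.sum_prod_type, Finset.mul_sum]
            apply Finset.sum_congr rfl
            intro k _
            rw [Fin.sum_univ_two]
            simp only [Fin.val_zero, pow_zero, mul_one, Fin.val_one, pow_one]
            rw [← conjEmb_embOf, hvodd, galEmb_conjEmb, sgnZ_conj hΦ, hτ]
            ring
          rw [h2, h3, h4] at h1
          have h5 : ∑ k : K, v (embOf φ₀ k) * sgnZ Φ (embOf φ₀ ((γ⁻¹ : K) * k)) = 0 := by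
            omega
          rw [← h5]
          apply Finset.sum_congr rfl
          intro k _
          congr 2
    · rintro Φ ⟨hΦ, _⟩ Ψ ⟨hΨ, _⟩ hff
      have hs : ∀ k : K, sgnZ Φ (embOf φ₀ k) = sgnZ Ψ (embOf φ₀ k) := by
        intro k
        have h1 := congrFun hff k⁻¹
        simp only [f, inv_inv] at h1
        exact h1
      ext φ
      obtain ⟨σ, rfl⟩ := hbij.2 φ
      obtain ⟨k, hk⟩ := hdec σ
      have hk1 : embOf φ₀ (k : G) ∈ Φ ↔ embOf φ₀ (k : G) ∈ Ψ := by
        have h1 := hs k
        simp only [sgnZ] at h1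
        by_cases h2 : embOf φ₀ (k : G) ∈ Φ <;> by_cases h3 : embOf φ₀ (k : G) ∈ Ψ <;>
          simp [h2, h3] at h1 ⊢
      rcases hk with rfl | rfl
      · exact hk1
      · rw [← conjEmb_embOf, hΦ, hΨ, conjEmb_conjEmb, hk1]
  · -- cubic subfields
    have hfinI : Finite (IntermediateField ℚ E) := by
      apply Finite.of_injective (fun F : IntermediateField ℚ E => F.fixingSubgroup)
      intro F F' h
      have h1 := congrArg IntermediateField.fixedField h
      simp only [IsGalois.fixedField_fixingSubgroup] at h1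
      exact h1
    let e : G ⧸ N ≃* K := hK.symm.QuotientMulEquiv
    let q : G →* K := e.toMonoidHom.comp (QuotientGroup.mk' N)
    have hq : Function.Surjective q := e.surjective.comp (QuotientGroup.mk'_surjective N)
    apply Set.ncard_le_ncard_of_injOn
      (fun M : Subgroup K => IntermediateField.fixedField (M.comap q))
    · intro M hM
      rw [Set.mem_ofPred_eq] at hM ⊢
      rw [IntermediateField.finrank_eq_fixingSubgroup_index,
        IntermediateField.fixingSubgroup_fixedField, Subgroup.index_comap_of_surjective _ hq, hM]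
    · intro M _ M' _ h
      apply Subgroup.comap_injective hq
      have h1 := congrArg IntermediateField.fixingSubgroup h
      simp only [IntermediateField.fixingSubgroup_fixedField] at h1
      exact h1

end main

end Pool.Agent.Lib.MP_640417_ag.OddGal
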