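import Pool.Agent.Lib.MP_640417_ag.OddCMLower

/-!
# The number of CM types on a Galois CM field of degree `2g`, `g` odd
-/

namespace Pool.Agent.Lib.MP_640417_ag.OddGal

open NumberField Module

variable {E : Type} [Field E] [NumberField E] [IsCMField E] [IsGalois ℚ E]

theorem ncard_cmTypes (g : ℕ) (hE : finrank ℚ E = 2 * g) (hodd : Odd g) :
    {Φ : Set (Emb E) | IsCMType Φ}.ncard = 2 ^ g := by
  classical
  obtain ⟨K, iK, hcard, hdec, hcK, q, hq, hker⟩ := exists_compl g hE hodd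
  obtain ⟨φ₀⟩ : Nonempty (Emb E) := by
    rw [← Fintype.card_pos_iff, card_emb]
    exact finrank_pos
  have hbij := embOf_bijective φ₀
  have hcs : (signs K : Set (K → ℤ)).ncard = 2 ^ g := by
    rw [Set.ncard_coe_finset, card_signs, hcard]
  apply le_antisymm
  · rw [← hcs]
    refine Set.ncard_le_ncard_of_injOn (fun (Φ : Set (Emb E)) (k : K) => sgnZ Φ (embOf φ₀ k))
      ?_ ?_ (Finset.finite_toSet _)
    · intro Φ _
      rw [Finset.mem_coe, mem_signs]
      intro k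
      exact sgnZ_eq_one_or Φ _
    · intro Φ hΦ Ψ hΨ hff
      rw [Set.mem_ofPred_eq] at hΦ hΨ
      ext φ
      obtain ⟨σ, rfl⟩ := hbij.2 φ
      obtain ⟨k, hk⟩ := hdec σ
      have hk1 : embOf φ₀ (k : E ≃ₐ[ℚ] E) ∈ Φ ↔ embOf φ₀ (k : E ≃ₐ[ℚ] E) ∈ Ψ := by
        have h1 := congrFun hff k
        simp only [sgnZ] at h1
        by_cases h2 : embOf φ₀ (k : E ≃ₐ[ℚ] E) ∈ Φ <;>
          by_cases h3 : embOf φ₀ (k : E ≃ₐ[ℚ] E) ∈ Ψ <;> simp [h2, h3] at h1 ⊢
      rcases hk with rfl | rfl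
      · exact hk1
      · rw [← conjEmb_embOf, hΦ, hΨ, conjEmb_conjEmb, hk1]
  · rw [← hcs]
    refine Set.ncard_le_ncard_of_injOn (fun ε : K → ℤ => typeOf φ₀ ε) ?_ ?_ (Set.toFinite _)
    · intro ε hε φ
      rw [Finset.mem_coe] at hε
      obtain ⟨σ, rfl⟩ := hbij.2 φ
      obtain ⟨k, hk | hk⟩ := hdec σ
      · rw [hk, conjEmb_embOf, mem_typeOf φ₀ hcK, mem_typeOf' φ₀ hcK]
        rcases mem_signs.1 hε k⁻¹ with h | h <;> simp [h]
      · rw [hk, conjEmb_embOf, mul_assoc, conjAut_mul_self, mul_one, mem_typeOf φ₀ hcK,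
          mem_typeOf' φ₀ hcK]
        rcases mem_signs.1 hε k⁻¹ with h | h <;> simp [h]
    · intro ε hε ε' hε' heq
      rw [Finset.mem_coe] at hε hε'
      simp only at heq
      funext k
      have h1 := mem_typeOf φ₀ hcK ε k⁻¹
      have h2 := mem_typeOf φ₀ hcK ε' k⁻¹
      rw [heq, h2, inv_inv] at h1
      rcases mem_signs.1 hε k with h | h
      · rw [h, h1.mpr h]
      · rcases mem_signs.1 hε' k with h' | h'
        · rw [h1.mp h', h']
        · rw [h, h']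

end Pool.Agent.Lib.MP_640417_ag.OddGal
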