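import Pool.Agent.Lib.MP_640417_ag.OddDefs

/-!
# Counting signed relations by Fourier analysis
-/

namespace Pool.Agent.Lib.MP_640417_ag.OddGal

open Module Finset

section cosine

/-- `|cos (2πa/p)|`. -/
noncomputable def cs (p : ℕ) (a : ZMod p) : ℝ := |Real.cos (2 * Real.pi * (a.val : ℝ) / p)|

lemma cs_nonneg (p : ℕ) (a : ZMod p) : 0 ≤ cs p a := abs_nonneg _

lemma cs_le_one (p : ℕ) (a : ZMod p) : cs p a ≤ 1 := Real.abs_cos_le_one _

lemma norm_add_neg (p : ℕ) [NeZero p] (a : ZMod p) :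
    ‖(ZMod.stdAddChar a : ℂ) + ZMod.stdAddChar (-a)‖ = 2 * cs p a := by
  rw [AddChar.map_neg_eq_inv, ZMod.stdAddChar_apply, ZMod.toCircle_apply]
  have h1 : (2 * Real.pi * Complex.I * (a.val : ℂ) / p : ℂ)
      = ((2 * Real.pi * (a.val : ℝ) / p : ℝ) : ℂ) * Complex.I := by
    push_cast
    ring
  rw [h1, ← Complex.exp_neg]
  have h2 := Complex.two_cos ((2 * Real.pi * (a.val : ℝ) / p : ℝ) : ℂ)
  rw [← neg_mul, ← h2, norm_mul, ← Complex.ofReal_cos, Complex.norm_real]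
  simp [cs]

lemma cs_eq (p : ℕ) [NeZero p] (a : ZMod p) :
    cs p a = |Real.cos (Real.pi * ((2 * a).valMinAbs : ℝ) / p)| := by
  have h1 : (((2 * a.val : ℤ) - (2 * a).valMinAbs : ℤ) : ZMod p) = 0 := by
    push_cast
    rw [ZMod.natCast_zmod_val]
    ring
  rw [ZMod.intCast_zmod_eq_zero_iff_dvd] at h1
  obtain ⟨k, hk⟩ := h1
  have hp : (p : ℝ) ≠ 0 := Nat.cast_ne_zero.mpr (NeZero.ne p)
  have h2 : 2 * Real.pi * (a.val : ℝ) / p
      = Real.pi * ((2 * a).valMinAbs : ℝ) / p + k * Real.pi := by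
    have h3 : (2 * (a.val : ℝ)) - ((2 * a).valMinAbs : ℝ) = p * k := by exact_mod_cast hk
    have h4 : (2 * (a.val : ℝ)) = ((2 * a).valMinAbs : ℝ) + p * k := by linarith
    field_simp
    linear_combination h4
  rw [cs, h2, Real.cos_add_int_mul_pi, abs_mul]
  simp

lemma cs_le_exp (p : ℕ) [NeZero p] (a : ZMod p) :
    cs p a ≤ Real.exp (-(2 * ((2 * a).valMinAbs : ℝ) ^ 2 / p ^ 2)) := by
  rw [cs_eq]
  set b : ℤ := (2 * a).valMinAbs with hb
  have hp : (0 : ℝ) < p := Nat.cast_pos.mpr (Nat.pos_of_ne_zero (NeZero.ne p))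
  have h1 := ZMod.valMinAbs_mem_Ioc (2 * a)
  rw [Set.mem_Ioc, ← hb] at h1
  obtain ⟨h1, h2⟩ := h1
  have h1' : -(p : ℝ) < (b : ℝ) * 2 := by exact_mod_cast h1
  have h2' : (b : ℝ) * 2 ≤ p := by exact_mod_cast h2
  have h3 : |Real.pi * (b : ℝ) / p| ≤ Real.pi / 2 := by
    rw [abs_div, abs_mul, abs_of_pos Real.pi_pos, abs_of_pos hp, div_le_div_iff₀ hp two_pos]
    have h4 : |(b : ℝ)| * 2 ≤ p := by
      rw [← abs_of_pos (two_pos : (0 : ℝ) < 2), ← abs_mul, abs_le]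
      constructor <;> linarith
    nlinarith [Real.pi_pos]
  have h5 : 0 ≤ Real.cos (Real.pi * (b : ℝ) / p) := by
    apply Real.cos_nonneg_of_neg_pi_div_two_le_of_le
    · linarith [(abs_le.mp h3).1]
    · linarith [(abs_le.mp h3).2]
  rw [abs_of_nonneg h5]
  have h6 : |Real.pi * (b : ℝ) / p| ≤ Real.pi := h3.trans (by linarith [Real.pi_pos])
  refine (Real.cos_le_one_sub_mul_cos_sq h6).trans ?_
  have h7 : 2 / Real.pi ^ 2 * (Real.pi * (b : ℝ) / p) ^ 2 = 2 * (b : ℝ) ^ 2 / p ^ 2 := by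
    have := Real.pi_ne_zero
    field_simp
  rw [h7]
  have h8 := Real.add_one_le_exp (-(2 * (b : ℝ) ^ 2 / p ^ 2))
  linarith

lemma sum_pow_natAbs_le (p : ℕ) [NeZero p] (x : ℝ) (hx : 0 ≤ x) (hx2 : x ≤ 1 / 2) :
    ∑ b : ZMod p, x ^ (b.valMinAbs.natAbs) ≤ 1 + 4 * x := by
  classical
  rw [← Finset.add_sum_erase _ _ (Finset.mem_univ (0 : ZMod p))]
  simp only [ZMod.valMinAbs_zero, Int.natAbs_zero, pow_zero]
  have hgeo : ∀ n : ℕ, ∑ j ∈ Finset.range n, x ^ j ≤ 2 := by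
    intro n
    induction n with
    | zero => simp
    | succ n ih =>
      rw [Finset.sum_range_succ']
      simp only [pow_zero, pow_succ]
      rw [← Finset.sum_mul]
      nlinarith
  have h1 : ∑ b ∈ (Finset.univ : Finset (ZMod p)).erase 0, x ^ (b.valMinAbs.natAbs)
      = ∑ j ∈ Finset.range p, ∑ b ∈ ((Finset.univ : Finset (ZMod p)).erase 0).filter
        (fun b => b.valMinAbs.natAbs - 1 = j), x ^ (b.valMinAbs.natAbs) := by
    rw [Finset.sum_fiberwise_of_maps_to]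
    intro b _
    rw [Finset.mem_range]
    have h2 := ZMod.natAbs_valMinAbs_le b
    have h3 : 0 < p := Nat.pos_of_ne_zero (NeZero.ne p)
    omega
  rw [h1]
  have h2 : ∀ j ∈ Finset.range p, ∑ b ∈ ((Finset.univ : Finset (ZMod p)).erase 0).filter
        (fun b => b.valMinAbs.natAbs - 1 = j), x ^ (b.valMinAbs.natAbs) ≤ 2 * (x ^ j * x) := by
    intro j _
    have h3 : ∀ b ∈ ((Finset.univ : Finset (ZMod p)).erase 0).filter
        (fun b => b.valMinAbs.natAbs - 1 = j), x ^ (b.valMinAbs.natAbs) = x ^ (j + 1) := by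
      intro b hb
      rw [Finset.mem_filter, Finset.mem_erase] at hb
      have h4 : b.valMinAbs.natAbs ≠ 0 := by
        rw [Int.natAbs_ne_zero]
        intro h
        exact hb.1.1 ((ZMod.valMinAbs_eq_zero b).mp h)
      congr 1
      omega
    rw [Finset.sum_congr rfl h3, Finset.sum_const, nsmul_eq_mul]
    have h5 : (((Finset.univ : Finset (ZMod p)).erase 0).filter
        (fun b => b.valMinAbs.natAbs - 1 = j)).card ≤ 2 := by
      refine (Finset.card_le_card (t := {((j + 1 : ℕ) : ZMod p), -((j + 1 : ℕ) : ZMod p)}) ?_).trans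
        Finset.card_le_two
      intro b hb
      rw [Finset.mem_filter, Finset.mem_erase] at hb
      have h4 : b.valMinAbs.natAbs ≠ 0 := by
        rw [Int.natAbs_ne_zero]
        intro h
        exact hb.1.1 ((ZMod.valMinAbs_eq_zero b).mp h)
      have h6 : b.valMinAbs.natAbs = j + 1 := by omega
      rw [Finset.mem_insert, Finset.mem_singleton]
      have h7 := ZMod.coe_valMinAbs b
      rcases Int.natAbs_eq b.valMinAbs with h | h
      · left
        rw [← h7, h, h6]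
        push_cast
        rfl
      · right
        rw [← h7, h, h6]
        push_cast
        rfl
    have h6 : (((((Finset.univ : Finset (ZMod p)).erase 0).filter
        (fun b => b.valMinAbs.natAbs - 1 = j)).card : ℕ) : ℝ) ≤ 2 := by exact_mod_cast h5
    rw [pow_succ]
    exact mul_le_mul_of_nonneg_right h6 (by positivity)
  have h3 := Finset.sum_le_sum h2
  rw [← Finset.mul_sum, ← Finset.sum_mul] at h3
  have h4 := hgeo p
  nlinarith

/-- The sum of the powers of `|cos (2πa/p)|`. -/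
theorem sum_cs_pow_le (p : ℕ) [Fact p.Prime] (hp2 : p ≠ 2) (t : ℕ)
    (h : Real.exp (-(2 * (t : ℝ) / p ^ 2)) ≤ 1 / 2) :
    ∑ a : ZMod p, cs p a ^ t ≤ 1 + 4 * Real.exp (-(2 * (t : ℝ) / p ^ 2)) := by
  refine le_trans ?_ (sum_pow_natAbs_le p _ (Real.exp_pos _).le h)
  have h2 : (2 : ZMod p) ≠ 0 := by
    intro h0
    have h1 : ((2 : ℕ) : ZMod p) = 0 := by exact_mod_cast h0
    rw [ZMod.natCast_eq_zero_iff] at h1
    exact hp2 ((Nat.prime_dvd_prime_iff_eq Fact.out Nat.prime_two).mp h1)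
  rw [← Equiv.sum_comp (Equiv.mulLeft₀ (2 : ZMod p) h2)
    (fun b => Real.exp (-(2 * (t : ℝ) / p ^ 2)) ^ (b.valMinAbs.natAbs))]
  apply Finset.sum_le_sum
  intro a _
  change cs p a ^ t ≤ Real.exp (-(2 * (t : ℝ) / p ^ 2)) ^ ((2 * a).valMinAbs.natAbs)
  have h1 := cs_le_exp p a
  refine (pow_le_pow_left₀ (cs_nonneg p a) h1 t).trans ?_
  rw [← Real.exp_nat_mul, ← Real.exp_nat_mul, Real.exp_le_exp]
  have h3 : ((2 * a).valMinAbs.natAbs : ℝ) ≤ ((2 * a).valMinAbs : ℝ) ^ 2 := by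
    have h4 : (((2 * a).valMinAbs.natAbs : ℕ) : ℝ) ^ 2 = ((2 * a).valMinAbs : ℝ) ^ 2 := by
      rw [Nat.cast_natAbs, Int.cast_abs, sq_abs]
    rw [← h4]
    exact_mod_cast Nat.le_self_pow (two_ne_zero) ((2 * a).valMinAbs.natAbs)
  have h5 : (0 : ℝ) ≤ 2 * t / p ^ 2 := by positivity
  have h6 : (t : ℝ) * -(2 * ((2 * a).valMinAbs : ℝ) ^ 2 / p ^ 2)
      = -((2 * t / p ^ 2) * ((2 * a).valMinAbs : ℝ) ^ 2) := by ring
  have h7 : (((2 * a).valMinAbs.natAbs : ℕ) : ℝ) * -(2 * (t : ℝ) / p ^ 2)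
      = -((2 * t / p ^ 2) * ((2 * a).valMinAbs.natAbs : ℝ)) := by ring
  rw [h6, h7]
  have := mul_le_mul_of_nonneg_left h3 h5
  linarith

theorem sum_cs_pow_pow_le (p : ℕ) [Fact p.Prime] (hp2 : p ≠ 2) (t d : ℕ)
    (h : 4 * d * Real.exp (-(2 * (t : ℝ) / p ^ 2)) ≤ 1) :
    (∑ a : ZMod p, cs p a ^ t) ^ d ≤ 3 := by
  rcases Nat.eq_zero_or_pos d with hd | hd
  · subst hd
    norm_num
  have hd' : (1 : ℝ) ≤ d := by exact_mod_cast hd
  set x := Real.exp (-(2 * (t : ℝ) / p ^ 2)) with hx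
  have hx0 : 0 < x := Real.exp_pos _
  have h1 : x ≤ 1 / 2 := by nlinarith
  have h2 := sum_cs_pow_le p hp2 t h1
  have h0 : 0 ≤ ∑ a : ZMod p, cs p a ^ t :=
    Finset.sum_nonneg (fun a _ => pow_nonneg (cs_nonneg p a) t)
  rw [← hx] at h2
  have h3 : (∑ a : ZMod p, cs p a ^ t) ≤ Real.exp (4 * x) := by
    have := Real.add_one_le_exp (4 * x)
    linarith
  refine (pow_le_pow_left₀ h0 h3 d).trans ?_
  rw [← Real.exp_nat_mul]
  have h4 : (d : ℝ) * (4 * x) ≤ 1 := by linarith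
  refine (Real.exp_le_exp.mpr h4).trans ?_
  have := Real.exp_one_lt_d9
  linarith

end cosine

end Pool.Agent.Lib.MP_640417_ag.OddGal
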