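import Mathlib

/-!
# Counting subsets with prescribed intersections with the classes of a partition
-/

open Finset

namespace Pool.Agent.Lib.MP_640417_ag.OddGal

/-! ### Binomial coefficients -/

theorem centralBinom_sq_le (n : ℕ) : n.centralBinom ^ 2 * (2 * n + 1) ≤ 16 ^ n := by
  induction n with
  | zero => simp
  | succ n ih =>
    have h1 := Nat.succ_mul_centralBinom_succ n
    set A := n.centralBinom with hA
    set B := (n + 1).centralBinom with hB
    have h2 : (n + 1) ^ 2 * (B ^ 2 * (2 * (n + 1) + 1)) ≤ (n + 1) ^ 2 * 16 ^ (n + 1) := by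
      calc (n + 1) ^ 2 * (B ^ 2 * (2 * (n + 1) + 1))
          = ((n + 1) * B) ^ 2 * (2 * n + 3) := by ring
        _ = (2 * (2 * n + 1) * A) ^ 2 * (2 * n + 3) := by rw [h1]
        _ = (A ^ 2 * (2 * n + 1)) * (4 * (2 * n + 1) * (2 * n + 3)) := by ring
        _ ≤ 16 ^ n * (4 * (2 * n + 1) * (2 * n + 3)) := Nat.mul_le_mul_right _ ih
        _ ≤ 16 ^ n * (16 * (n + 1) ^ 2) := by
            apply Nat.mul_le_mul_left
            nlinarith
        _ = (n + 1) ^ 2 * 16 ^ (n + 1) := by ring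
    exact Nat.le_of_mul_le_mul_left h2 (by positivity)

theorem choose_sq_le {k : ℕ} (hk : Odd k) : k.choose (k / 2) ^ 2 * k ≤ 4 ^ k := by
  obtain ⟨n, rfl⟩ := hk
  have h1 : (2 * n + 1) / 2 = n := by omega
  rw [h1]
  have h2 : (n + 1).centralBinom = 2 * (2 * n + 1).choose n := by
    have h5 : (2 * n + 1).choose (n + 1) = (2 * n + 1).choose n := Nat.choose_symm_half n
    have h6 : (2 * (n + 1)).choose (n + 1) = (2 * n + 1).choose n + (2 * n + 1).choose (n + 1) :=
      Nat.choose_succ_succ (2 * n + 1) n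
    rw [Nat.centralBinom_eq_two_mul_choose, h6, h5]
    ring
  have h3 := centralBinom_sq_le (n + 1)
  rw [h2] at h3
  have h4 : (16 : ℕ) ^ (n + 1) = 4 * 4 ^ (2 * n + 1) := by
    rw [show (16 : ℕ) = 4 ^ 2 by norm_num, ← pow_mul]
    ring
  rw [h4] at h3
  nlinarith [sq_nonneg ((2 * n + 1).choose n)]

theorem sum_choose_mul_sq (k : ℕ) :
    ∑ j ∈ range (k + 1), (k.choose j : ℝ) * ((k : ℝ) - 2 * (j : ℝ)) ^ 2 = (k : ℝ) * 2 ^ k := by
  have h1 := congrArg (Polynomial.eval (1 / 2 : ℝ)) (bernsteinPolynomial.variance ℝ k)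
  rw [Polynomial.eval_finsetSum] at h1
  have h2 : ∀ j ∈ range (k + 1), Polynomial.eval (1 / 2 : ℝ)
      ((k • Polynomial.X - (j : Polynomial ℝ)) ^ 2 * bernsteinPolynomial ℝ k j) =
      ((k.choose j : ℝ) * ((k : ℝ) - 2 * j) ^ 2) * (1 / (4 * 2 ^ k)) := by
    intro j hj
    rw [mem_range] at hj
    have h3 : (1 / 2 : ℝ) ^ j * (1 / 2) ^ (k - j) = 1 / 2 ^ k := by
      rw [← pow_add, Nat.add_sub_cancel' (by omega), one_div_pow]
    simp only [bernsteinPolynomial, Polynomial.eval_mul, Polynomial.eval_pow, Polynomial.eval_sub,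
      Polynomial.eval_X, Polynomial.eval_natCast, nsmul_eq_mul, Polynomial.eval_one]
    have h4 : (1 - 1 / 2 : ℝ) = 1 / 2 := by norm_num
    rw [h4]
    calc ((k : ℝ) * (1 / 2) - j) ^ 2 * ((k.choose j : ℝ) * (1 / 2) ^ j * (1 / 2) ^ (k - j))
        = ((k : ℝ) * (1 / 2) - j) ^ 2 * (k.choose j : ℝ) * ((1 / 2) ^ j * (1 / 2) ^ (k - j)) := by
          ring
      _ = _ := by
          rw [h3]
          field_simp
          ring
  rw [sum_congr rfl h2, ← sum_mul] at h1
  simp only [Polynomial.eval_mul, Polynomial.eval_sub, Polynomial.eval_X, nsmul_eq_mul,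
    Polynomial.eval_natCast, Polynomial.eval_one] at h1
  have h5 : (0 : ℝ) < 2 ^ k := by positivity
  field_simp at h1
  linarith

/-- the sum of the cubes of the binomial coefficients -/
theorem sum_choose_cube_ge {k : ℕ} (hk : 1 ≤ k) :
    3 / 64 * 8 ^ k / (k : ℝ) ≤ ∑ j ∈ range (k + 1), (k.choose j : ℝ) ^ 3 := by
  set W := (range (k + 1)).filter (fun j : ℕ => ((k : ℤ) - 2 * (j : ℤ)) ^ 2 ≤ 4 * (k : ℤ)) with hW
  have hk0 : (0 : ℝ) < k := by exact_mod_cast hk
  have h2k : (0 : ℝ) < 2 ^ k := by positivity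
  -- most of the mass is in `W`
  have h1 : ∑ j ∈ (range (k + 1)).filter (fun j : ℕ => ¬ ((k : ℤ) - 2 * (j : ℤ)) ^ 2 ≤ 4 * (k : ℤ)),
      (k.choose j : ℝ) * (4 * k) ≤ k * 2 ^ k := by
    rw [← sum_choose_mul_sq k]
    refine le_trans (sum_le_sum fun j hj => ?_) (sum_le_sum_of_subset_of_nonneg
      (filter_subset _ _) fun j _ _ => by positivity)
    have h2 := (mem_filter.1 hj).2
    push Not at h2
    have h3 : (4 * (k : ℝ)) ≤ ((k : ℝ) - 2 * j) ^ 2 := by
      have : ((4 * k : ℤ) : ℝ) ≤ ((((k : ℤ) - 2 * j) ^ 2 : ℤ) : ℝ) := by exact_mod_cast h2.le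
      push_cast at this
      exact this
    exact mul_le_mul_of_nonneg_left h3 (Nat.cast_nonneg _)
  have h2 : ∑ j ∈ (range (k + 1)).filter (fun j : ℕ => ¬ ((k : ℤ) - 2 * (j : ℤ)) ^ 2 ≤ 4 * (k : ℤ)),
      (k.choose j : ℝ) ≤ 2 ^ k / 4 := by
    rw [← sum_mul] at h1
    have : (∑ j ∈ (range (k + 1)).filter (fun j : ℕ => ¬ ((k : ℤ) - 2 * (j : ℤ)) ^ 2 ≤ 4 * (k : ℤ)),
      (k.choose j : ℝ)) * (4 * k) ≤ (2 ^ k / 4) * (4 * k) := by
      calc _ ≤ (k : ℝ) * 2 ^ k := h1
        _ = _ := by ring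
    exact le_of_mul_le_mul_right this (by positivity)
  have h3 : (3 / 4 : ℝ) * 2 ^ k ≤ ∑ j ∈ W, (k.choose j : ℝ) := by
    have h4 := sum_filter_add_sum_filter_not (range (k + 1))
      (fun j : ℕ => ((k : ℤ) - 2 * (j : ℤ)) ^ 2 ≤ 4 * (k : ℤ)) (fun j => (k.choose j : ℝ))
    have h5 : ∑ j ∈ range (k + 1), (k.choose j : ℝ) = 2 ^ k := by
      have := Nat.sum_range_choose k
      exact_mod_cast this
    rw [h5] at h4
    linarith
  -- the size of `W`
  have h4 : (W.card : ℝ) ^ 2 ≤ 9 * k := by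
    set r := Nat.sqrt (4 * k) with hr
    have hr1 : r * r ≤ 4 * k := Nat.sqrt_le _
    have hr2 : 4 * k < (r + 1) * (r + 1) := Nat.lt_succ_sqrt _
    have hWsub : W ⊆ Icc ((k + 1 - r) / 2) ((k + r) / 2) := by
      intro j hj
      obtain ⟨hj1, hj2⟩ := mem_filter.1 hj
      rw [mem_Icc]
      have h5 : ((k : ℤ) - 2 * j) ^ 2 < ((r : ℤ) + 1) ^ 2 := by
        have : (4 * (k : ℤ)) < ((r : ℤ) + 1) * (r + 1) := by exact_mod_cast hr2
        nlinarith
      have h6 := abs_lt_of_sq_lt_sq h5 (by positivity)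
      rw [abs_lt] at h6
      omega
    have h5 : W.card ≤ r + 1 := by
      refine (card_le_card hWsub).trans ?_
      rw [Nat.card_Icc]
      omega
    have h6 : r ≤ 2 * k := by
      by_contra h
      push Not at h
      nlinarith
    have h7 : W.card ^ 2 ≤ 9 * k := by
      calc W.card ^ 2 ≤ (r + 1) ^ 2 := Nat.pow_le_pow_left h5 2
        _ ≤ 9 * k := by nlinarith
    exact_mod_cast h7
  have hWne : (0 : ℝ) < W.card := by
    rcases Nat.eq_zero_or_pos W.card with h5 | h5
    · rw [card_eq_zero] at h5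
      rw [h5, sum_empty] at h3
      nlinarith
    · exact_mod_cast h5
  have h5 := pow_sum_div_card_le_sum_pow (s := W) (f := fun j => (k.choose j : ℝ))
    (fun j _ => Nat.cast_nonneg _) 2
  have h6 : ∑ j ∈ W, (k.choose j : ℝ) ^ 3 ≤ ∑ j ∈ range (k + 1), (k.choose j : ℝ) ^ 3 :=
    sum_le_sum_of_subset_of_nonneg (filter_subset _ _) fun j _ _ => by positivity
  refine le_trans ?_ (h5.trans h6)
  have h7 : ((3 / 4 : ℝ) * 2 ^ k) ^ 3 ≤ (∑ j ∈ W, (k.choose j : ℝ)) ^ (2 + 1) :=
    pow_le_pow_left₀ (by positivity) h3 3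
  have h8 : ((3 / 4 : ℝ) * 2 ^ k) ^ 3 = 27 / 64 * 8 ^ k := by
    rw [mul_pow, ← pow_mul, mul_comm k, pow_mul]
    norm_num
  rw [h8] at h7
  calc 3 / 64 * 8 ^ k / (k : ℝ) = 27 / 64 * 8 ^ k / (9 * k) := by
        field_simp
        ring
    _ ≤ 27 / 64 * 8 ^ k / (W.card : ℝ) ^ 2 := by
        apply div_le_div_of_nonneg_left (by positivity) (by positivity) h4
    _ ≤ _ := by
        apply div_le_div_of_nonneg_right h7 (by positivity)

/-! ### Subsets and partitions -/

section Partition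

variable {A Q : Type} [Fintype A] [DecidableEq A] [Fintype Q] [DecidableEq Q] (π : A → Q) (k : ℕ)

/-- the number of elements of `P` in a class -/
def cnt (P : Finset A) (q : Q) : ℕ := (P.filter fun a => π a = q).card

theorem card_le_of_determined (hk : ∀ q, (univ.filter fun a => π a = q).card = k) (T : Finset Q)
    (E : Finset (Finset A))
    (h : ∀ P ∈ E, ∀ P' ∈ E, (∀ a, π a ∉ T → (a ∈ P ↔ a ∈ P')) → ∀ q ∈ T, cnt π P q = cnt π P' q) :
    E.card ≤ 2 ^ (k * (Fintype.card Q - T.card)) * k.choose (k / 2) ^ T.card := by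
  have hU : (univ.filter fun a => π a ∉ T).card = k * (Fintype.card Q - T.card) := by
    have h1 : (univ.filter fun a => π a ∉ T) = (univ \ T).biUnion fun q =>
        univ.filter fun a => π a = q := by
      ext a
      simp
    rw [h1, card_biUnion]
    · rw [sum_congr rfl fun q _ => hk q, sum_const, card_sdiff_of_subset (subset_univ _), card_univ,
        smul_eq_mul, mul_comm]
    · intro q _ q' _ hqq
      change Disjoint _ _
      rw [disjoint_left]
      intro a ha ha'
      rw [mem_filter] at ha ha'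
      exact hqq (ha.2.symm.trans ha'.2)
  have himg : (E.image fun P => P.filter fun a => π a ∉ T).card ≤
      2 ^ (k * (Fintype.card Q - T.card)) := by
    rw [← hU, ← card_powerset]
    apply card_le_card
    intro R hR
    obtain ⟨P, -, rfl⟩ := mem_image.1 hR
    rw [mem_powerset]
    exact filter_subset_filter _ (subset_univ _)
  rw [mul_comm]
  refine (card_le_mul_card_image (f := fun P : Finset A => P.filter fun a => π a ∉ T) E
    (k.choose (k / 2) ^ T.card) ?_).trans (Nat.mul_le_mul_left _ himg)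
  intro R hR
  obtain ⟨P₀, hP₀, hP₀R⟩ := mem_image.1 hR
  set G : Q → Finset (Finset A) := fun q => if q ∈ T then
    powersetCard (cnt π P₀ q) (univ.filter fun a => π a = q) else {∅} with hG
  have hcard : (Fintype.piFinset G).card ≤ k.choose (k / 2) ^ T.card := by
    rw [Fintype.card_piFinset]
    have h1 : ∀ q, (G q).card ≤ if q ∈ T then k.choose (k / 2) else 1 := by
      intro q
      by_cases hq : q ∈ T
      · simp only [hG, if_pos hq, card_powersetCard, hk]
        exact Nat.choose_le_middle _ _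
      · simp [hG, if_neg hq]
    refine (prod_le_prod' fun q _ => h1 q).trans (le_of_eq ?_)
    rw [prod_ite_mem, univ_inter, prod_const]
  refine le_trans ?_ hcard
  apply card_le_card_of_injOn (fun P q => if q ∈ T then P.filter (fun a => π a = q) else ∅)
  · intro P hP
    rw [mem_coe, mem_filter] at hP
    rw [mem_coe, Fintype.mem_piFinset]
    intro q
    by_cases hq : q ∈ T
    · simp only [hG, if_pos hq, mem_powersetCard]
      refine ⟨filter_subset_filter _ (subset_univ _), ?_⟩
      apply h P hP.1 P₀ hP₀ _ q hq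
      intro a ha
      have h2 : P.filter (fun a => π a ∉ T) = P₀.filter (fun a => π a ∉ T) := by
        rw [hP.2, ← hP₀R]
      have h3 : a ∈ P.filter (fun a => π a ∉ T) ↔ a ∈ P₀.filter (fun a => π a ∉ T) := by rw [h2]
      simpa [ha] using h3
    · simp [hG, if_neg hq]
  · intro P hP P' hP' heq
    rw [mem_coe, mem_filter] at hP hP'
    ext a
    by_cases ha : π a ∈ T
    · have h1 := congrFun heq (π a)
      simp only [if_pos ha] at h1
      have h2 : a ∈ P.filter (fun b => π b = π a) ↔ a ∈ P'.filter (fun b => π b = π a) := by rw [h1]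
      simpa using h2
    · have h2 : P.filter (fun a => π a ∉ T) = P'.filter (fun a => π a ∉ T) := by
        rw [hP.2, hP'.2]
      have h3 : a ∈ P.filter (fun a => π a ∉ T) ↔ a ∈ P'.filter (fun a => π a ∉ T) := by rw [h2]
      simpa [ha] using h3

/-- the subsets which meet all classes in the same number of points -/
def eqSets : Finset (Finset A) := univ.filter fun P => ∀ q q', cnt π P q = cnt π P q'

theorem card_eqSets_ge [Nonempty Q] (hk : ∀ q, (univ.filter fun a => π a = q).card = k) :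
    ∑ j ∈ range (k + 1), k.choose j ^ Fintype.card Q ≤ (eqSets π).card := by
  have h1 : ∀ j, (Fintype.piFinset fun q => powersetCard j (univ.filter fun a => π a = q)).card =
      k.choose j ^ Fintype.card Q := by
    intro j
    rw [Fintype.card_piFinset]
    simp [hk]
  have hcnt : ∀ (j : ℕ) (F : Q → Finset A),
      F ∈ Fintype.piFinset (fun q => powersetCard j (univ.filter fun a => π a = q)) →
      ∀ q, (univ.biUnion F).filter (fun a => π a = q) = F q := by
    intro j F hF q
    rw [Fintype.mem_piFinset] at hF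
    ext a
    rw [mem_filter, mem_biUnion]
    constructor
    · rintro ⟨⟨q', -, ha⟩, haq⟩
      have h2 := (mem_powersetCard.1 (hF q')).1 ha
      rw [mem_filter] at h2
      rw [← haq, h2.2]
      exact ha
    · intro ha
      have h2 := (mem_powersetCard.1 (hF q)).1 ha
      rw [mem_filter] at h2
      exact ⟨⟨q, mem_univ _, ha⟩, h2.2⟩
  rw [← sum_congr rfl fun j _ => h1 j, ← card_sigma]
  apply card_le_card_of_injOn (fun F => univ.biUnion F.2)
  · rintro ⟨j, F⟩ hF
    rw [mem_coe, mem_sigma] at hF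
    rw [mem_coe, eqSets, mem_filter]
    refine ⟨mem_univ _, fun q q' => ?_⟩
    have h2 := hF.2
    have h3 := Fintype.mem_piFinset.1 h2
    rw [cnt, cnt, hcnt j F h2, hcnt j F h2, (mem_powersetCard.1 (h3 q)).2,
      (mem_powersetCard.1 (h3 q')).2]
  · rintro ⟨j, F⟩ hF ⟨j', F'⟩ hF' heq
    rw [mem_coe, mem_sigma] at hF hF'
    have h2 : F = F' := by
      funext q
      rw [← hcnt j F hF.2 q, ← hcnt j' F' hF'.2 q]
      simp only at heq
      rw [heq]
    subst h2
    obtain ⟨q⟩ := ‹Nonempty Q›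
    have h3 := (mem_powersetCard.1 (Fintype.mem_piFinset.1 hF.2 q)).2
    have h4 := (mem_powersetCard.1 (Fintype.mem_piFinset.1 hF'.2 q)).2
    have h5 : j = j' := h3.symm.trans h4
    subst h5
    rfl

end Partition

end Pool.Agent.Lib.MP_640417_ag.OddGal
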