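import Pool.Agent.Lib.MP_640417_ag.OddLowerA
import Pool.Agent.Lib.MP_640417_ag.OddAlgE

/-!
# Lower bound for the number of singular sign vectors
-/

open Finset MonoidAlgebra

namespace Pool.Agent.Lib.MP_640417_ag.OddGal

variable {H : Type} [Group H] [Fintype H]

/-! ### Subgroups of index 3 -/

/-- the cyclic group of order 3 -/
abbrev C3 : Type := Multiplicative (ZMod 3)

omit [Fintype H] in
theorem normal_of_index_three [Finite H] (hodd : Odd (Nat.card H)) {M : Subgroup H}
    (hM : M.index = 3) : M.Normal := by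
  apply Subgroup.normal_of_index_eq_minFac_card
  rw [hM]
  have h3 : 3 ∣ Nat.card H := hM ▸ M.index_dvd_card
  have h1 : (Nat.card H).minFac ≤ 3 := Nat.minFac_le_of_dvd (by norm_num) h3
  have hne : Nat.card H ≠ 1 := by
    intro h
    rw [h] at h3
    norm_num at h3
  have h2 := Nat.minFac_prime hne
  have h4 : (Nat.card H).minFac ≠ 2 := by
    intro h
    have := Nat.minFac_dvd (Nat.card H)
    rw [h, ← even_iff_two_dvd] at this
    exact (Nat.not_even_iff_odd.2 hodd) this
  have h5 := h2.two_le
  omega

theorem exists_hom (hodd : Odd (Fintype.card H)) {M : Subgroup H} (hM : M.index = 3) :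
    ∃ χ : H →* C3, χ.ker = M ∧ Function.Surjective χ := by
  haveI : M.Normal := normal_of_index_three (by rwa [Nat.card_eq_fintype_card]) hM
  haveI : Fact (Nat.Prime 3) := ⟨Nat.prime_three⟩
  have h1 : Nat.card (H ⧸ M) = 3 := hM
  have h2 : Nat.card C3 = 3 := by
    rw [Nat.card_eq_fintype_card]
    rfl
  let e : H ⧸ M ≃* C3 := mulEquivOfPrimeCardEq (p := 3) h1 h2
  refine ⟨e.toMonoidHom.comp (QuotientGroup.mk' M), ?_, ?_⟩
  · ext x
    rw [MonoidHom.mem_ker]
    change e (QuotientGroup.mk x) = 1 ↔ x ∈ M
    rw [EmbeddingLike.map_eq_one_iff, QuotientGroup.eq_one_iff]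
  · exact e.surjective.comp (QuotientGroup.mk'_surjective M)

theorem card_fiber {Q : Type} [Group Q] [Fintype Q] [DecidableEq Q] (f : H →* Q)
    (hf : Function.Surjective f) (q : Q) :
    (univ.filter fun h => f h = q).card * Fintype.card Q = Fintype.card H := by
  have h1 : Fintype.card H = ∑ q' : Q, (univ.filter fun h => f h = q').card := by
    rw [← card_univ]
    exact card_eq_sum_card_fiberwise fun x _ => mem_univ (f x)
  rw [h1, sum_congr rfl fun q' _ => MonoidHom.card_fiber_eq_of_mem_range f (hf q') (hf q),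
    sum_const, card_univ, smul_eq_mul, mul_comm]

theorem surjective_prod (hodd : Odd (Fintype.card H)) {M M' : Subgroup H} (hM : M.index = 3)
    (hM' : M'.index = 3) (hne : M ≠ M') {χ χ' : H →* C3} (hχ : χ.ker = M) (hχ' : χ'.ker = M') :
    Function.Surjective (χ.prod χ') := by
  have hker : (χ.prod χ').ker = M ⊓ M' := by
    rw [MonoidHom.ker_prod, hχ, hχ']
  have h1 : (M ⊓ M').index = 9 := by
    have h2 : (M ⊓ M').index ≤ 9 := by
      have := Subgroup.index_inf_le (H := M) (K := M')
      rw [hM, hM'] at this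
      exact this
    have h3 : 3 ∣ (M ⊓ M').index := by
      rw [← hM]
      exact Subgroup.index_dvd_of_le inf_le_left
    have h4 : (M ⊓ M').index ≠ 3 := by
      intro h5
      have h6 : M ⊓ M' = M := by
        apply Subgroup.eq_of_le_of_card_ge inf_le_left
        have h7 := (M ⊓ M').index_mul_card
        have h8 := M.index_mul_card
        rw [h5] at h7
        rw [hM] at h8
        omega
      have h7 : M ≤ M' := by
        rw [← h6]
        exact inf_le_right
      apply hne
      apply Subgroup.eq_of_le_of_card_ge h7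
      have h8 := M'.index_mul_card
      have h9 := M.index_mul_card
      rw [hM'] at h8
      rw [hM] at h9
      omega
    have h5 : (M ⊓ M').index ≠ 0 := Subgroup.index_ne_zero_of_finite
    have h6 : Odd (M ⊓ M').index := by
      apply Odd.of_dvd_nat hodd
      rw [← Nat.card_eq_fintype_card]
      exact Subgroup.index_dvd_card _
    obtain ⟨a, ha⟩ := h3
    obtain ⟨b, hb⟩ := h6
    omega
  rw [← MonoidHom.range_eq_top, ← Subgroup.card_eq_iff_eq_top]
  rw [← Subgroup.index_ker, hker, h1]
  rw [Nat.card_prod]
  have h2 : Nat.card C3 = 3 := by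
    rw [Nat.card_eq_fintype_card]
    rfl
  rw [h2]

/-! ### Bad sign vectors from subgroups of index 3 -/

open Classical in
/-- the sign vector of a subset -/
noncomputable def sgnOf (P : Finset H) : H → ℤ := fun h => if h ∈ P then 1 else -1

omit [Group H] in
theorem sgnOf_mem (P : Finset H) : sgnOf P ∈ signs H := by
  classical
  rw [signs, Fintype.mem_piFinset]
  intro h
  rw [sgnOf]
  split_ifs <;> simp

omit [Group H] [Fintype H] in
theorem sgnOf_injective : Function.Injective (sgnOf : Finset H → H → ℤ) := by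
  classical
  intro P P' h
  ext a
  have h1 := congrFun h a
  simp only [sgnOf] at h1
  by_cases h2 : a ∈ P <;> by_cases h3 : a ∈ P' <;> simp [h2, h3] at h1 ⊢

theorem bad_of_eqSets {M : Subgroup H} (hM : M.index = 3) {χ : H →* C3} (hχ : χ.ker = M)
    [DecidableEq H] {P : Finset H} (hf : Function.Surjective χ) (hP : P ∈ eqSets χ) :
    Bad (sgnOf P) := by
  classical
  have hne : M ≠ ⊤ := by
    rintro rfl
    rw [Subgroup.index_top] at hM
    norm_num at hM
  obtain ⟨x, hx⟩ : ∃ x, x ∉ M := by
    by_contra h
    push Not at h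
    exact hne (eq_top_iff.2 fun y _ => h y)
  have hfib : ∀ q, (univ.filter fun h => χ h = q).card * 3 = Fintype.card H := by
    intro q
    have := card_fiber χ hf q
    have h2 : Fintype.card C3 = 3 := rfl
    rwa [h2] at this
  -- the sums over the cosets
  have hsum : ∀ q, ∑ h ∈ univ.filter (fun h => χ h = q), sgnOf P h =
      2 * (cnt χ P q : ℤ) - (univ.filter fun h => χ h = q).card := by
    intro q
    have h1 : ∀ h ∈ univ.filter (fun h => χ h = q), sgnOf P h = 2 * (if h ∈ P then 1 else 0) - 1 := by
      intro h _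
      rw [sgnOf]
      split_ifs <;> norm_num
    rw [sum_congr rfl h1, sum_sub_distrib, ← mul_sum, sum_boole, sum_const, cnt]
    have h2 : (univ.filter (fun h => χ h = q)).filter (fun h => h ∈ P) =
        P.filter (fun h => χ h = q) := by
      ext a
      simp [and_comm]
    rw [h2]
    simp
  have hsum' : ∀ q q', ∑ h ∈ univ.filter (fun h => χ h = q), sgnOf P h =
      ∑ h ∈ univ.filter (fun h => χ h = q'), sgnOf P h := by
    intro q q'
    rw [eqSets, mem_filter] at hP
    rw [hsum, hsum, hP.2 q q']
    have h1 := hfib q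
    have h2 := hfib q'
    have h3 : (univ.filter fun h => χ h = q).card = (univ.filter fun h => χ h = q').card := by omega
    rw [h3]
  have hprod : subSum M * elt (sgnOf P) =
      (∑ h ∈ univ.filter (fun h => χ h = 1), sgnOf P h) • sig ℤ H := by
    ext y
    rw [coeff_smul_apply, sig, coeff_elt, smul_eq_mul, mul_one, hsum' 1 (χ y), subSum_eq,
      Finset.sum_mul]
    have h1 : (∑ h : H, (if h ∈ M then (single h 1 : MonoidAlgebra ℤ H) else 0) *
        elt (sgnOf P)).coeff y = ∑ h : H, ((if h ∈ M then (single h 1 : MonoidAlgebra ℤ H) else 0) *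
        elt (sgnOf P)).coeff y := by simp
    rw [h1]
    have h2 : ∀ h : H, ((if h ∈ M then (single h 1 : MonoidAlgebra ℤ H) else 0) *
        elt (sgnOf P)).coeff y = if χ (h⁻¹ * y) = χ y then sgnOf P (h⁻¹ * y) else 0 := by
      intro h
      have h3 : χ (h⁻¹ * y) = χ y ↔ h ∈ M := by
        rw [map_mul, mul_eq_right, ← MonoidHom.mem_ker, hχ, Subgroup.inv_mem_iff]
      by_cases hh : h ∈ M
      · rw [if_pos hh, if_pos (h3.2 hh), csm, one_mul, coeff_elt]
      · rw [if_neg hh, if_neg (fun h4 => hh (h3.1 h4)), zero_mul]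
        simp
    rw [sum_congr rfl fun h _ => h2 h, sum_filter]
    exact Fintype.sum_equiv ((Equiv.inv H).trans (Equiv.mulRight y)) _ _ fun h => rfl
  refine ⟨(1 - single x 1) * subSum M, ?_, ?_⟩
  · intro h0
    have h1 : ((1 - single x 1) * subSum M).coeff 1 = 1 := by
      have h2 : ((1 - single x 1) * subSum M).coeff 1 = (subSum M).coeff 1 -
          (single x 1 * subSum M).coeff 1 := by
        rw [sub_mul, one_mul]
        simp
      rw [h2, csm, subSum, coeff_elt, coeff_elt, if_pos M.one_mem, if_neg]
      · norm_num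
      · rw [mul_one, Subgroup.inv_mem_iff]
        exact hx
    rw [h0] at h1
    simp at h1
  · rw [mul_assoc, hprod, mul_smul_comm, sub_mul, one_mul]
    have h1 : single x 1 * sig ℤ H = sig ℤ H := by
      ext y
      rw [csm, sig, coeff_elt, coeff_elt, one_mul]
    rw [h1, sub_self, smul_zero]

end Pool.Agent.Lib.MP_640417_ag.OddGal
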