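import Mathlib

/-!
# The numerical summation over the types
-/

namespace Pool.Agent.Lib.MP_640417_ag.OddGal

open Finset

/-- A prime not dividing `g` in a short range. -/
lemma exists_prime_not_dvd (g x : ℕ) (hx : 0 < x) (hg : 0 < g) (h : g < x ^ 16) :
    ∃ p : ℕ, p.Prime ∧ ¬ p ∣ g ∧ x < p ∧ p ≤ 2 ^ 16 * x := by
  by_contra hno
  push Not at hno
  have key : ∀ K : ℕ, K ≤ 16 → ∃ s : Finset ℕ, s.card = K ∧ (∀ p ∈ s, p.Prime ∧ p ∣ g ∧ x < p ∧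
      p ≤ 2 ^ K * x) := by
    intro K
    induction K with
    | zero => exact fun _ => ⟨∅, by simp, by simp⟩
    | succ K ih =>
      intro hK
      obtain ⟨s, hs, hs2⟩ := ih (by omega)
      obtain ⟨p, hp, hp1, hp2⟩ := Nat.exists_prime_lt_and_le_two_mul (2 ^ K * x) (by positivity)
      have h1 : x ≤ 2 ^ K * x := Nat.le_mul_of_pos_left x (by positivity)
      have h2 : 2 * (2 ^ K * x) = 2 ^ (K + 1) * x := by ring
      have h3 : 2 ^ (K + 1) * x ≤ 2 ^ 16 * x :=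
        Nat.mul_le_mul_right x (Nat.pow_le_pow_right (by norm_num) hK)
      have hdvd : p ∣ g := by
        by_contra hnd
        have := hno p hp hnd (by omega)
        omega
      refine ⟨insert p s, ?_, ?_⟩
      · rw [Finset.card_insert_of_notMem, hs]
        intro hmem
        have := (hs2 p hmem).2.2.2
        omega
      · intro q hq
        rw [Finset.mem_insert] at hq
        rcases hq with rfl | hq
        · exact ⟨hp, hdvd, by omega, by omega⟩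
        · obtain ⟨ha, hb, hc, hd⟩ := hs2 q hq
          refine ⟨ha, hb, hc, hd.trans ?_⟩
          exact Nat.mul_le_mul_right x (Nat.pow_le_pow_right (by norm_num) (by omega))
  obtain ⟨s, hs, hs2⟩ := key 16 le_rfl
  have h1 : ∏ p ∈ s, p ∣ g :=
    Finset.prod_primes_dvd g (fun p hp => (hs2 p hp).1.prime) (fun p hp => (hs2 p hp).2.1)
  have h2 : x ^ 16 ≤ ∏ p ∈ s, p := by
    rw [← hs, ← Finset.prod_const]
    exact Finset.prod_le_prod' (fun p hp => (hs2 p hp).2.2.1.le)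
  have h3 := Nat.le_of_dvd hg h1
  omega

/-- The hypothesis coming from the Fourier bound. -/
def HypC (g z m : ℕ) (b : ℝ) : Prop :=
  ∀ p d : ℕ, p.Prime → p ≠ 2 → ¬ p ∣ g → 0 < d → z * m ≤ d ^ 2 →
    4 * d * Real.exp (-(2 * ((g / d : ℕ) : ℝ) / p ^ 2)) ≤ 1 → b * (p - 1) ^ z ≤ 3

/-- The hypothesis coming from the finer count. -/
def HypD (g z m : ℕ) (b : ℝ) : Prop :=
  ∀ p τ : ℕ, p.Prime → p ≠ 2 → ¬ p ∣ g → 2 * (2 * τ + 1) ^ m ≤ p →
    (p : ℝ) ^ m * Real.exp (-(2 * (τ / p : ℝ) ^ 2 * (g / (2 * m)))) ≤ 1 →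
    b * (p - 1) ^ z ≤ 3

lemma four_sq_le_exp (s : ℕ) : 4 * (s : ℝ) ^ 2 ≤ Real.exp (4 * s) := by
  have h1 := Real.quadratic_le_exp_of_nonneg (x := 4 * (s : ℝ)) (by positivity)
  nlinarith [sq_nonneg (s : ℝ), (Nat.cast_nonneg s : (0 : ℝ) ≤ s)]

lemma mul_pow_le_three {b : ℝ} (hb : 0 ≤ b) {p X z : ℕ} (hXp : X < p)
    (h : b * ((p : ℝ) - 1) ^ z ≤ 3) : b * (X : ℝ) ^ z ≤ 3 := by
  refine le_trans ?_ h
  apply mul_le_mul_of_nonneg_left _ hb
  have h1 : (X : ℝ) + 1 ≤ p := by exact_mod_cast hXp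
  exact pow_le_pow_left₀ (Nat.cast_nonneg X) (by linarith) z

/-- Use of the Fourier bound. -/
lemma use_hypC {g z m s X : ℕ} {b : ℝ} (hb : 0 ≤ b) (hs : 0 < s) (hzm : z * m ≤ s ^ 4)
    (hsg : s ^ 2 ≤ g) (hX : 2 ^ 34 * s ^ 3 * X ^ 2 ≤ g) (hX2 : 2 ≤ X) (hXg : g < X ^ 16)
    (h : HypC g z m b) : b * (X : ℝ) ^ z ≤ 3 := by
  have hg : 0 < g := lt_of_lt_of_le (by positivity) hsg
  obtain ⟨p, hp, hpg, hXp, hpX⟩ := exists_prime_not_dvd g X (by omega) hg hXg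
  apply mul_pow_le_three hb hXp
  have hp0 : (0 : ℝ) < p := by exact_mod_cast hp.pos
  have hs0 : (0 : ℝ) < s := by exact_mod_cast hs
  apply h p (s ^ 2) hp (by omega) hpg (by positivity) (by rw [← pow_mul]; exact hzm)
  have h1 : (g : ℝ) ≤ 2 * ((g / s ^ 2 : ℕ) : ℝ) * s ^ 2 := by
    have h2 : 1 ≤ g / s ^ 2 := (Nat.one_le_div_iff (by positivity)).mpr hsg
    have h3 : g < (g / s ^ 2 + 1) * s ^ 2 := by
      rw [mul_comm]
      exact Nat.lt_mul_div_succ g (by positivity)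
    have h4 : g ≤ 2 * (g / s ^ 2) * s ^ 2 := by nlinarith
    exact_mod_cast h4
  have h2 : (2 : ℝ) ^ 34 * s ^ 3 * X ^ 2 ≤ g := by exact_mod_cast hX
  have h3 : (p : ℝ) ^ 2 ≤ 2 ^ 32 * X ^ 2 := by
    have h4 : (p : ℝ) ≤ 2 ^ 16 * X := by exact_mod_cast hpX
    calc (p : ℝ) ^ 2 ≤ (2 ^ 16 * X) ^ 2 := pow_le_pow_left₀ hp0.le h4 2
      _ = 2 ^ 32 * X ^ 2 := by ring
  have h4 : 4 * (s : ℝ) ≤ 2 * ((g / s ^ 2 : ℕ) : ℝ) / p ^ 2 := by
    rw [le_div_iff₀ (by positivity)]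
    have h5 : 4 * (s : ℝ) * p ^ 2 ≤ 4 * s * (2 ^ 32 * X ^ 2) := by gcongr
    have h6 : (4 * (s : ℝ) * (2 ^ 32 * (X : ℝ) ^ 2)) * (s : ℝ) ^ 2
        ≤ (2 * ((g / s ^ 2 : ℕ) : ℝ)) * (s : ℝ) ^ 2 := by
      have h7 : (4 * (s : ℝ) * (2 ^ 32 * (X : ℝ) ^ 2)) * (s : ℝ) ^ 2
          = 2 ^ 34 * (s : ℝ) ^ 3 * (X : ℝ) ^ 2 := by ring
      rw [h7]
      exact h2.trans h1
    exact h5.trans (le_of_mul_le_mul_right h6 (by positivity))
  have h5 : Real.exp (-(2 * ((g / s ^ 2 : ℕ) : ℝ) / p ^ 2)) ≤ Real.exp (-(4 * (s : ℝ))) := by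
    rw [Real.exp_le_exp]
    linarith
  have h6 := four_sq_le_exp s
  push_cast
  calc 4 * (s : ℝ) ^ 2 * Real.exp (-(2 * ((g / s ^ 2 : ℕ) : ℝ) / p ^ 2))
      ≤ Real.exp (4 * s) * Real.exp (-(4 * (s : ℝ))) := by
        gcongr
    _ = 1 := by rw [← Real.exp_add]; simp

/-- Use of the finer count. -/
lemma use_hypD {g z m K y : ℕ} {b : ℝ} (hb : 0 ≤ b) (hm : 0 < m) (hmK : m ≤ K)
    (hy : y ^ (8 * K) ≤ g) (hy2 : g < (y + 1) ^ (8 * K)) (hyK : 2 ^ 37 * K ^ 3 ≤ y)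
    (h : HypD g z m b) : b * ((Nat.sqrt g * y : ℕ) : ℝ) ^ z ≤ 3 := by
  have hK : 0 < K := lt_of_lt_of_le hm hmK
  have hK3 : 1 ≤ K ^ 3 := Nat.one_le_pow _ _ hK
  have hy0 : 2 ^ 37 ≤ y := le_trans (by nlinarith) hyK
  have hypos : 0 < y := lt_of_lt_of_le (by norm_num) hy0
  have hg : 0 < g := lt_of_lt_of_le (by positivity) hy
  have hsq : y ^ (4 * K) ≤ Nat.sqrt g := by
    rw [Nat.le_sqrt, ← pow_add]
    exact le_trans (le_of_eq (by ring_nf)) hy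
  have hsq1 : 1 ≤ Nat.sqrt g := le_trans (Nat.one_le_pow _ _ hypos) hsq
  have hsqle : Nat.sqrt g * Nat.sqrt g ≤ g := Nat.sqrt_le g
  have hltsq : g < (Nat.sqrt g + 1) * (Nat.sqrt g + 1) := Nat.lt_succ_sqrt g
  set X := Nat.sqrt g * y with hX
  have hX1 : 2 ≤ X := by nlinarith
  have hXg : g < X ^ 16 := by
    have h1 : g < X ^ 2 := by
      rw [hX, mul_pow]
      have : 4 ≤ y ^ 2 := by nlinarith
      nlinarith
    exact h1.trans_le (Nat.pow_le_pow_right (by omega) (by norm_num))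
  obtain ⟨p, hp, hpg, hXp, hpX⟩ := exists_prime_not_dvd g X (by omega) hg hXg
  apply mul_pow_le_three hb hXp
  have hp0 : (0 : ℝ) < p := by exact_mod_cast hp.pos
  have hm0 : (0 : ℝ) < m := by exact_mod_cast hm
  have hg0 : (0 : ℝ) < g := by exact_mod_cast hg
  have hyr : (2 : ℝ) ^ 37 ≤ y := by exact_mod_cast hy0
  apply h p (y ^ 2) hp (by omega) hpg
  · have h1 : 2 * y ^ 2 + 1 ≤ 3 * y ^ 2 := by nlinarith
    calc 2 * (2 * y ^ 2 + 1) ^ m ≤ 2 * (3 * y ^ 2) ^ K := by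
          apply Nat.mul_le_mul_left
          calc (2 * y ^ 2 + 1) ^ m ≤ (3 * y ^ 2) ^ m := Nat.pow_le_pow_left h1 m
            _ ≤ (3 * y ^ 2) ^ K := Nat.pow_le_pow_right (by positivity) hmK
      _ ≤ y ^ K * (3 * y ^ 2) ^ K := by
          apply Nat.mul_le_mul_right
          calc 2 ≤ y := by omega
            _ ≤ y ^ K := Nat.le_self_pow hK.ne' y
      _ = 3 ^ K * y ^ (3 * K) := by rw [mul_pow, ← pow_mul]; ring
      _ ≤ y ^ K * y ^ (3 * K) := by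
          apply Nat.mul_le_mul_right
          exact Nat.pow_le_pow_left (by omega) K
      _ = y ^ (4 * K) := by ring
      _ ≤ Nat.sqrt g := hsq
      _ ≤ Nat.sqrt g * y := Nat.le_mul_of_pos_right _ hypos
      _ ≤ p := hXp.le
  · have hpXr : (p : ℝ) ≤ 2 ^ 16 * (Nat.sqrt g * y) := by
      have : (p : ℝ) ≤ ((2 ^ 16 * X : ℕ) : ℝ) := by exact_mod_cast hpX
      rw [hX] at this
      push_cast at this
      have h16 : (2 : ℝ) ^ 16 = 65536 := by norm_num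
      rw [h16]
      exact this
    have hsqr : ((Nat.sqrt g : ℕ) : ℝ) ^ 2 ≤ g := by
      rw [sq]
      exact_mod_cast hsqle
    have hp2 : (p : ℝ) ^ 2 ≤ 2 ^ 32 * g * y ^ 2 := by
      calc (p : ℝ) ^ 2 ≤ (2 ^ 16 * (Nat.sqrt g * y)) ^ 2 := pow_le_pow_left₀ hp0.le hpXr 2
        _ = 2 ^ 32 * ((Nat.sqrt g : ℕ) : ℝ) ^ 2 * y ^ 2 := by ring
        _ ≤ 2 ^ 32 * g * y ^ 2 := by gcongr
    have hE : (y : ℝ) ^ 2 / (2 ^ 32 * K)
        ≤ 2 * ((y ^ 2 : ℕ) / p : ℝ) ^ 2 * (g / (2 * m)) := by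
      have h1 : 2 * ((y ^ 2 : ℕ) / p : ℝ) ^ 2 * (g / (2 * m)) = (y : ℝ) ^ 4 * g / (p ^ 2 * m) := by
        push_cast
        field_simp
      rw [h1, div_le_div_iff₀ (by positivity) (by positivity)]
      have hmKr : (m : ℝ) ≤ K := by exact_mod_cast hmK
      calc (y : ℝ) ^ 2 * (p ^ 2 * m) ≤ (y : ℝ) ^ 2 * ((2 ^ 32 * g * y ^ 2) * K) := by gcongr
        _ = (y : ℝ) ^ 4 * g * (2 ^ 32 * K) := by ring
    have hpexp : (p : ℝ) ^ m ≤ Real.exp ((y : ℝ) ^ 2 / (2 ^ 32 * K)) := by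
      have hp1 : (1 : ℝ) ≤ p := by exact_mod_cast hp.one_lt.le
      have h2e : (2 : ℝ) ≤ Real.exp 1 := by
        have := Real.add_one_le_exp (1 : ℝ)
        linarith
      have hye : ((y : ℝ) + 1) ≤ Real.exp y := Real.add_one_le_exp _
      have h1 : (p : ℝ) ≤ Real.exp (16 + (8 * K + 1) * y) := by
        calc (p : ℝ) ≤ 2 ^ 16 * (Nat.sqrt g * y) := hpXr
          _ ≤ 2 ^ 16 * ((y + 1 : ℝ) ^ (8 * K) * (y + 1)) := by
              have h3 : ((Nat.sqrt g : ℕ) : ℝ) ≤ (y + 1 : ℝ) ^ (8 * K) := by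
                have h4 : Nat.sqrt g ≤ (y + 1) ^ (8 * K) := (Nat.sqrt_le_self g).trans hy2.le
                exact_mod_cast h4
              gcongr
              linarith
          _ = 2 ^ 16 * (y + 1 : ℝ) ^ (8 * K + 1) := by ring
          _ ≤ Real.exp 1 ^ 16 * Real.exp y ^ (8 * K + 1) := by gcongr
          _ = Real.exp (16 + (8 * K + 1) * y) := by
              rw [← Real.exp_nat_mul, ← Real.exp_nat_mul, ← Real.exp_add]
              congr 1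
              push_cast
              ring
      have hKr : (1 : ℝ) ≤ K := by exact_mod_cast hK
      calc (p : ℝ) ^ m ≤ (p : ℝ) ^ K := pow_le_pow_right₀ hp1 hmK
        _ ≤ Real.exp (16 + (8 * K + 1) * y) ^ K := pow_le_pow_left₀ hp0.le h1 K
        _ = Real.exp (K * (16 + (8 * K + 1) * y)) := by rw [← Real.exp_nat_mul]
        _ ≤ Real.exp ((y : ℝ) ^ 2 / (2 ^ 32 * K)) := by
            rw [Real.exp_le_exp, le_div_iff₀ (by positivity)]
            have h5 : (2 : ℝ) ^ 37 * K ^ 3 ≤ y := by exact_mod_cast hyK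
            have h6 : (16 : ℝ) + (8 * K + 1) * y ≤ 25 * K * y := by nlinarith
            have hy1 : (0 : ℝ) ≤ y := by positivity
            calc (K : ℝ) * (16 + (8 * (K : ℝ) + 1) * (y : ℝ)) * (2 ^ 32 * (K : ℝ))
                ≤ (K : ℝ) * (25 * (K : ℝ) * (y : ℝ)) * (2 ^ 32 * (K : ℝ)) := by gcongr
              _ = (25 * 2 ^ 32 * (K : ℝ) ^ 3) * (y : ℝ) := by ring
              _ ≤ (2 ^ 37 * (K : ℝ) ^ 3) * (y : ℝ) := by
                  apply mul_le_mul_of_nonneg_right _ hy1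
                  have : (0 : ℝ) ≤ (K : ℝ) ^ 3 := by positivity
                  nlinarith
              _ ≤ (y : ℝ) * (y : ℝ) := by gcongr
              _ = (y : ℝ) ^ 2 := by ring
    calc (p : ℝ) ^ m * Real.exp (-(2 * ((y ^ 2 : ℕ) / p : ℝ) ^ 2 * (g / (2 * m))))
        ≤ Real.exp ((y : ℝ) ^ 2 / (2 ^ 32 * K)) * Real.exp (-((y : ℝ) ^ 2 / (2 ^ 32 * K))) := by
          apply mul_le_mul hpexp _ (Real.exp_pos _).le (Real.exp_pos _).le
          rw [Real.exp_le_exp]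
          linarith
      _ = 1 := by rw [← Real.exp_add]; simp

lemma exists_fourth (a : ℕ) (ha : 0 < a) : ∃ s : ℕ, 0 < s ∧ a ≤ s ^ 4 ∧ s ^ 4 ≤ 16 * a := by
  have hex : ∃ s : ℕ, a ≤ s ^ 4 := ⟨a, Nat.le_self_pow (by norm_num) a⟩
  classical
  set s := Nat.find hex with hs
  have h1 : a ≤ s ^ 4 := Nat.find_spec hex
  have h0 : 0 < s := by
    rcases Nat.eq_zero_or_pos s with h | h
    · rw [h] at h1
      simp at h1
      omega
    · exact h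
  refine ⟨s, h0, h1, ?_⟩
  have h2 : ¬ a ≤ (s - 1) ^ 4 := Nat.find_min hex (by omega)
  rcases Nat.lt_or_ge s 2 with h | h
  · have : s = 1 := by omega
    rw [this]
    omega
  · have h3 : s ≤ 2 * (s - 1) := by omega
    calc s ^ 4 ≤ (2 * (s - 1)) ^ 4 := Nat.pow_le_pow_left h3 4
      _ = 16 * (s - 1) ^ 4 := by rw [mul_pow]; norm_num
      _ ≤ 16 * a := by omega

/-- A logarithmic quantity. -/
def zz (g : ℕ) : ℕ := 6 * (Nat.log 2 g + 1)

lemma zz_pos (g : ℕ) : 0 < zz g := by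
  rw [zz]
  omega

lemma eventually_big (B : ℕ) : ∃ M : ℕ, ∀ g : ℕ, M ≤ g → B * zz g ^ 11 ≤ g := by
  have h1 : Filter.Tendsto (fun n : ℕ => (n : ℝ) ^ 11 / 2 ^ n) Filter.atTop (nhds 0) :=
    tendsto_pow_const_div_const_pow_of_one_lt 11 (by norm_num)
  have h2 : ∀ᶠ n : ℕ in Filter.atTop, (n : ℝ) ^ 11 / 2 ^ n < 1 / (2 * (B + 1) * 6 ^ 11) :=
    h1.eventually (gt_mem_nhds (by positivity))
  obtain ⟨n0, hn0⟩ := Filter.eventually_atTop.mp h2
  refine ⟨2 ^ n0, fun g hg => ?_⟩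
  have hg0 : g ≠ 0 := by
    have : 0 < 2 ^ n0 := by positivity
    omega
  have hl : n0 ≤ Nat.log 2 g := (Nat.le_log_iff_pow_le (by norm_num) hg0).mpr hg
  have h3 := hn0 (Nat.log 2 g + 1) (by omega)
  rw [div_lt_div_iff₀ (by positivity) (by positivity), one_mul] at h3
  have h4 : 2 ^ Nat.log 2 g ≤ g := Nat.pow_log_le_self 2 hg0
  have h5 : ((Nat.log 2 g + 1 : ℕ) : ℝ) ^ 11 * (2 * (B + 1) * 6 ^ 11) < 2 * g := by
    refine h3.trans_le ?_
    rw [pow_succ, mul_comm]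
    have : (2 : ℝ) ^ Nat.log 2 g ≤ g := by exact_mod_cast h4
    linarith
  have h6 : ((B * zz g ^ 11 : ℕ) : ℝ) ≤ g := by
    rw [zz]
    push_cast at h5 ⊢
    have h7 : (0 : ℝ) ≤ ((Nat.log 2 g : ℝ) + 1) ^ 11 := by positivity
    have h8 : (B : ℝ) * (6 * ((Nat.log 2 g : ℝ) + 1)) ^ 11
        = (B * 6 ^ 11) * ((Nat.log 2 g : ℝ) + 1) ^ 11 := by ring
    rw [h8]
    nlinarith
  exact_mod_cast h6

lemma three_quarters_pow (g z : ℕ) (hz : zz g ≤ z) :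
    ((3 : ℝ) / 4) ^ z * g ^ 2 ≤ 1 := by
  rcases Nat.eq_zero_or_pos g with h | h
  · rw [h]
    simp
  have h1 : g < 2 ^ (Nat.log 2 g + 1) := Nat.lt_pow_succ_log_self (by norm_num) g
  have h2 : ((3 : ℝ) / 4) ^ z ≤ (1 / 2) ^ (2 * (Nat.log 2 g + 1)) := by
    calc ((3 : ℝ) / 4) ^ z ≤ (3 / 4) ^ (zz g) :=
          pow_le_pow_of_le_one (by norm_num) (by norm_num) hz
      _ = ((3 / 4) ^ 3) ^ (2 * (Nat.log 2 g + 1)) := by
          rw [← pow_mul, zz]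
          congr 1
          ring
      _ ≤ (1 / 2) ^ (2 * (Nat.log 2 g + 1)) := by
          apply pow_le_pow_left₀ (by positivity)
          norm_num
  have h3 : (g : ℝ) ^ 2 ≤ (2 : ℝ) ^ (2 * (Nat.log 2 g + 1)) := by
    have h4 : (g : ℝ) ≤ 2 ^ (Nat.log 2 g + 1) := by exact_mod_cast h1.le
    calc (g : ℝ) ^ 2 ≤ (2 ^ (Nat.log 2 g + 1)) ^ 2 := pow_le_pow_left₀ (by positivity) h4 2
      _ = _ := by rw [← pow_mul]; congr 1; ring
  calc ((3 : ℝ) / 4) ^ z * g ^ 2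
      ≤ (1 / 2) ^ (2 * (Nat.log 2 g + 1)) * (2 : ℝ) ^ (2 * (Nat.log 2 g + 1)) := by gcongr
    _ = 1 := by rw [← mul_pow]; norm_num

/-- The parameters for the use of the Fourier bound. -/
lemma exists_params {g z m A : ℕ} (hz : 0 < z) (hm : 0 < m) (hzz : z ≤ zz g) (hmg : m ≤ g)
    (hA : 2 ≤ A) (hbig : ((4 * 2 ^ 34) ^ 4 * 4096) ^ 2 * A ^ 8 * zz g ^ 11 ≤ g) :
    ∃ s X : ℕ, 0 < s ∧ z * m ≤ s ^ 4 ∧ s ^ 4 ≤ 16 * (z * m) ∧ s ^ 2 ≤ g ∧
      2 ^ 34 * s ^ 3 * X ^ 2 ≤ g ∧ g ≤ 4 * 2 ^ 34 * s ^ 3 * X ^ 2 ∧ A * zz g ≤ X ∧ 2 ≤ X ∧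
      g < X ^ 16 := by
  obtain ⟨s, hs0, hs1, hs2⟩ := exists_fourth (z * m) (Nat.mul_pos hz hm)
  set Z := zz g with hZ
  have hZ0 : 0 < Z := zz_pos g
  set c := 2 ^ 34 with hc
  have hc0 : 0 < c := by rw [hc]; positivity
  set E := (4 * c) ^ 4 * 4096 with hE
  have hE0 : 0 < E := by rw [hE]; positivity
  have hg : 0 < g := lt_of_lt_of_le hm hmg
  have hs12 : s ^ 12 ≤ 4096 * Z ^ 3 * g ^ 3 := by
    calc s ^ 12 = (s ^ 4) ^ 3 := by rw [← pow_mul]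
      _ ≤ (16 * (Z * g)) ^ 3 := by
          apply Nat.pow_le_pow_left
          refine hs2.trans (Nat.mul_le_mul_left 16 (Nat.mul_le_mul hzz hmg))
      _ = 4096 * Z ^ 3 * g ^ 3 := by ring
  have hZ11 : Z ^ 3 ≤ Z ^ 11 := Nat.pow_le_pow_right hZ0 (by norm_num)
  have hA8 : 1 ≤ A ^ 8 := Nat.one_le_pow _ _ (by omega)
  have hcs : c * s ^ 3 ≤ g := by
    have h1 : (c * s ^ 3) ^ 4 ≤ g ^ 4 := by
      calc (c * s ^ 3) ^ 4 = c ^ 4 * s ^ 12 := by ring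
        _ ≤ c ^ 4 * (4096 * Z ^ 3 * g ^ 3) := Nat.mul_le_mul_left _ hs12
        _ = (c ^ 4 * 4096) * Z ^ 3 * g ^ 3 := by ring
        _ ≤ E * Z ^ 11 * g ^ 3 := by
            apply Nat.mul_le_mul_right
            apply Nat.mul_le_mul _ hZ11
            rw [hE]
            apply Nat.mul_le_mul_right
            exact Nat.pow_le_pow_left (by omega) 4
        _ ≤ E ^ 2 * A ^ 8 * Z ^ 11 * g ^ 3 := by
            apply Nat.mul_le_mul_right
            apply Nat.mul_le_mul_right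
            calc E = E * 1 := (mul_one E).symm
              _ ≤ E ^ 2 * A ^ 8 := Nat.mul_le_mul (Nat.le_self_pow (by norm_num) E) hA8
        _ ≤ g * g ^ 3 := Nat.mul_le_mul_right _ hbig
        _ = g ^ 4 := by ring
    exact (Nat.pow_le_pow_iff_left (by norm_num)).mp h1
  have hs3 : 0 < c * s ^ 3 := by positivity
  set X := Nat.sqrt (g / (c * s ^ 3)) with hX
  have hX1 : 1 ≤ X := by
    rw [hX, Nat.le_sqrt]
    exact (Nat.one_le_div_iff hs3).mpr hcs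
  have hXle : c * s ^ 3 * X ^ 2 ≤ g := by
    have h1 : X * X ≤ g / (c * s ^ 3) := Nat.sqrt_le _
    calc c * s ^ 3 * X ^ 2 = c * s ^ 3 * (X * X) := by ring
      _ ≤ c * s ^ 3 * (g / (c * s ^ 3)) := Nat.mul_le_mul_left _ h1
      _ ≤ g := Nat.mul_div_le _ _
  have hXlt : g < c * s ^ 3 * ((X + 1) * (X + 1)) := by
    have h1 : g / (c * s ^ 3) < (X + 1) * (X + 1) := Nat.lt_succ_sqrt _
    rw [Nat.div_lt_iff_lt_mul hs3] at h1
    rw [mul_comm]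
    exact h1
  have hXlt2 : g < 4 * c * s ^ 3 * X ^ 2 := by
    refine hXlt.trans_le ?_
    have h1 : (X + 1) * (X + 1) ≤ 4 * X ^ 2 := by nlinarith
    calc c * s ^ 3 * ((X + 1) * (X + 1)) ≤ c * s ^ 3 * (4 * X ^ 2) := Nat.mul_le_mul_left _ h1
      _ = 4 * c * s ^ 3 * X ^ 2 := by ring
  have hkey : g < E * Z ^ 3 * X ^ 8 := by
    have h1 : g ^ 4 < (E * Z ^ 3 * X ^ 8) * g ^ 3 := by
      calc g ^ 4 < (4 * c * s ^ 3 * X ^ 2) ^ 4 := Nat.pow_lt_pow_left hXlt2 (by norm_num)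
        _ = (4 * c) ^ 4 * X ^ 8 * s ^ 12 := by ring
        _ ≤ (4 * c) ^ 4 * X ^ 8 * (4096 * Z ^ 3 * g ^ 3) := Nat.mul_le_mul_left _ hs12
        _ = (E * Z ^ 3 * X ^ 8) * g ^ 3 := by rw [hE]; ring
    have h2 : g * g ^ 3 < (E * Z ^ 3 * X ^ 8) * g ^ 3 := by
      calc g * g ^ 3 = g ^ 4 := by ring
        _ < _ := h1
    exact lt_of_mul_lt_mul_right h2 (Nat.zero_le _)
  have hAX : A * Z ≤ X := by
    by_contra hlt
    rw [not_le] at hlt
    have h1 : g < g := by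
      calc g < E * Z ^ 3 * X ^ 8 := hkey
        _ ≤ E * Z ^ 3 * (A * Z) ^ 8 := Nat.mul_le_mul_left _ (Nat.pow_le_pow_left hlt.le 8)
        _ = E * A ^ 8 * Z ^ 11 := by ring
        _ ≤ E ^ 2 * A ^ 8 * Z ^ 11 := by
            apply Nat.mul_le_mul_right
            apply Nat.mul_le_mul_right
            exact Nat.le_self_pow (by norm_num) E
        _ ≤ g := hbig
    exact lt_irrefl _ h1
  have hX2 : 2 ≤ X := by
    calc 2 ≤ A * 1 := by omega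
      _ ≤ A * Z := Nat.mul_le_mul_left A hZ0
      _ ≤ X := hAX
  refine ⟨s, X, hs0, hs1, hs2, ?_, hXle, hXlt2.le, hAX, hX2, ?_⟩
  · calc s ^ 2 ≤ s ^ 3 := Nat.pow_le_pow_right hs0 (by norm_num)
      _ ≤ c * s ^ 3 := Nat.le_mul_of_pos_left _ hc0
      _ ≤ g := hcs
  · by_contra hle
    rw [not_lt] at hle
    have h1 : g * g < g * g := by
      calc g * g < (E * Z ^ 3 * X ^ 8) * (E * Z ^ 3 * X ^ 8) := Nat.mul_lt_mul'' hkey hkey
        _ = E ^ 2 * Z ^ 6 * X ^ 16 := by ring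
        _ ≤ E ^ 2 * A ^ 8 * Z ^ 11 * g := by
            apply Nat.mul_le_mul _ hle
            apply Nat.mul_le_mul _ (Nat.pow_le_pow_right hZ0 (by norm_num))
            exact Nat.le_mul_of_pos_right _ (by omega)
        _ ≤ g * g := Nat.mul_le_mul_right _ hbig
    exact lt_irrefl _ h1

end Pool.Agent.Lib.MP_640417_ag.OddGal
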