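import Pool.Agent.Lib.MP_640417_ag.OddFourier

/-!
# The number of sign vectors satisfying a relation
-/

namespace Pool.Agent.Lib.MP_640417_ag.OddGal

open Module Finset

set_option linter.unusedSectionVars false

section rel

lemma addChar_map_sum {A M ι : Type*} [AddCommGroup A] [CommMonoid M] (ψ : AddChar A M)
    (s : Finset ι) (f : ι → A) : ψ (∑ i ∈ s, f i) = ∏ i ∈ s, ψ (f i) := by
  classical
  induction s using Finset.induction_on with
  | empty => simp
  | insert a s ha ih => rw [Finset.sum_insert ha, Finset.prod_insert ha, AddChar.map_add_eq_mul, ih]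

variable {H : Type} [Group H] [Fintype H] {p : ℕ} [Fact p.Prime]
  {S : Type} [AddCommGroup S] [Module (ZMod p) S] [Fintype S]

open Classical in
/-- The sign vectors `ε` with `∑ ε h • w h = 0`. -/
noncomputable def relSet (p : ℕ) [Fact p.Prime] [Module (ZMod p) S] (w : H → S) :
    Finset (H → ℤ) :=
  (signs H).filter (fun ε => ∑ h, ((ε h : ℤ) : ZMod p) • w h = 0)

lemma mem_relSet (w : H → S) (ε : H → ℤ) :
    ε ∈ relSet p w ↔ ε ∈ signs H ∧ ∑ h, ((ε h : ℤ) : ZMod p) • w h = 0 := by
  classical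
  simp only [relSet, Finset.mem_filter]

lemma sum_dual_stdAddChar [Fintype (Dual (ZMod p) S)] (v : S) [Decidable (v = 0)] :
    ∑ ξ : Dual (ZMod p) S, (ZMod.stdAddChar (ξ v) : ℂ)
      = if v = 0 then (Fintype.card (Dual (ZMod p) S) : ℂ) else 0 := by
  classical
  let χ : AddChar (Dual (ZMod p) S) ℂ :=
    (ZMod.stdAddChar (N := p)).compAddMonoidHom
      (LinearMap.toAddMonoidHom (Dual.eval (ZMod p) S v))
  have h1 : ∀ ξ : Dual (ZMod p) S, χ ξ = ZMod.stdAddChar (ξ v) := fun ξ => rfl
  have h2 := AddChar.sum_eq_ite χ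
  simp only [h1] at h2
  rw [h2]
  by_cases hv : v = 0
  · rw [if_pos hv, if_pos]
    rw [AddChar.eq_zero_iff]
    intro ξ
    rw [h1, hv, map_zero, AddChar.map_zero_eq_one]
  · rw [if_neg hv, if_neg]
    intro h
    apply hv
    rw [← Module.forall_dual_apply_eq_zero_iff (ZMod p)]
    intro ξ
    have h3 : χ ξ = 1 := by rw [h]; rfl
    rw [h1] at h3
    apply ZMod.injective_stdAddChar
    rw [h3, AddChar.map_zero_eq_one]

omit [Group H] in
/-- Fourier inversion: the number of signed relations. -/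
theorem card_relSet_mul_le [Fintype (Dual (ZMod p) S)] (w : H → S) :
    ((relSet p w).card : ℝ) * Fintype.card (Dual (ZMod p) S)
      ≤ 2 ^ Fintype.card H * ∑ ξ : Dual (ZMod p) S, ∏ h, cs p (ξ (w h)) := by
  classical
  have h1 : ((relSet p w).card : ℂ) * Fintype.card (Dual (ZMod p) S)
      = ∑ ξ : Dual (ZMod p) S,
        ∏ h, ((ZMod.stdAddChar (ξ (w h)) : ℂ) + ZMod.stdAddChar (-(ξ (w h)))) := by
    have h2 : ∀ ξ : Dual (ZMod p) S,
        ∏ h, ((ZMod.stdAddChar (ξ (w h)) : ℂ) + ZMod.stdAddChar (-(ξ (w h))))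
        = ∑ ε ∈ signs H, (ZMod.stdAddChar (ξ (∑ h, ((ε h : ℤ) : ZMod p) • w h)) : ℂ) := by
      intro ξ
      have h3 : ∀ h : H, ((ZMod.stdAddChar (ξ (w h)) : ℂ) + ZMod.stdAddChar (-(ξ (w h))))
          = ∑ x ∈ ({1, -1} : Finset ℤ), (ZMod.stdAddChar (((x : ℤ) : ZMod p) * ξ (w h)) : ℂ) := by
        intro h
        rw [Finset.sum_insert (by norm_num), Finset.sum_singleton]
        simp
      simp only [h3]
      rw [Finset.prod_univ_sum]
      apply Finset.sum_congr
      · simp only [signs]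
      · intro ε _
        rw [map_sum, addChar_map_sum]
        apply Finset.prod_congr rfl
        intro h _
        rw [map_smul, smul_eq_mul]
    simp only [h2]
    rw [Finset.sum_comm]
    simp only [sum_dual_stdAddChar]
    rw [← Finset.sum_filter, Finset.sum_const, nsmul_eq_mul]
    rw [relSet]
  have h2 := congrArg norm h1
  rw [norm_mul, Complex.norm_natCast, Complex.norm_natCast] at h2
  rw [h2]
  refine (norm_sum_le _ _).trans ?_
  rw [Finset.mul_sum]
  apply Finset.sum_le_sum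
  intro ξ _
  rw [norm_prod]
  simp only [norm_add_neg]
  rw [Finset.prod_mul_distrib, Finset.prod_const, Finset.card_univ]

end rel

section amgm

variable {H : Type} [Group H] [Fintype H]

/-- AM-GM for the translates of a base. -/
theorem prod_le_average (y : H → ℝ) (h0 : ∀ h, 0 ≤ y h) (h1 : ∀ h, y h ≤ 1) {κ : Type}
    [Fintype κ] (B : κ → H) (t : ℕ) (ht : Fintype.card κ * t ≤ Fintype.card H) :
    ∏ h, y h ≤ (∑ k : H, (∏ b : κ, y (B b * k)) ^ t) / Fintype.card H := by
  classical
  set g := Fintype.card H with hg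
  have hg0 : 0 < g := Fintype.card_pos
  set P := ∏ h, y h with hP
  have hP0 : 0 ≤ P := Finset.prod_nonneg (fun h _ => h0 h)
  have hP1 : P ≤ 1 := Finset.prod_le_one (fun h _ => h0 h) (fun h _ => h1 h)
  set x : H → ℝ := fun k => (∏ b : κ, y (B b * k)) ^ t with hx
  have hx0 : ∀ k, 0 ≤ x k := fun k => pow_nonneg (Finset.prod_nonneg (fun b _ => h0 _)) t
  have h2 : ∏ k, x k = P ^ (Fintype.card κ * t) := by
    simp only [hx]
    rw [Finset.prod_pow, Finset.prod_comm, pow_mul]
    congr 1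
    have h3 : ∀ b : κ, ∏ k, y (B b * k) = P := fun b => Equiv.prod_comp (Equiv.mulLeft (B b)) y
    simp only [h3]
    rw [Finset.prod_const, Finset.card_univ]
  have h3 : P ^ g ≤ ∏ k, x k := by
    rw [h2]
    exact pow_le_pow_of_le_one hP0 hP1 ht
  have h4 : ∏ k, x k ≤ ((∑ k, x k) / g) ^ g := by
    have h5 := Real.geom_mean_le_arith_mean Finset.univ (fun _ : H => (1 : ℝ)) x
      (fun _ _ => zero_le_one) (by simp [hg.symm, hg0]) (fun k _ => hx0 k)
    simp only [Real.rpow_one, one_mul, Finset.sum_const, Finset.card_univ, nsmul_eq_mul,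
      mul_one] at h5
    rw [← hg] at h5
    have h6 : 0 ≤ ∏ k, x k := Finset.prod_nonneg (fun k _ => hx0 k)
    have h7 := pow_le_pow_left₀ (Real.rpow_nonneg h6 _) h5 g
    rwa [← Real.rpow_natCast, ← Real.rpow_mul h6, inv_mul_cancel₀ (by exact_mod_cast hg0.ne'),
      Real.rpow_one] at h7
  have h5 : 0 ≤ (∑ k, x k) / g := div_nonneg (Finset.sum_nonneg (fun k _ => hx0 k)) (by positivity)
  exact (pow_le_pow_iff_left₀ hP0 h5 hg0.ne').mp (h3.trans h4)

end amgm

section base

variable {H : Type} [Group H] [Fintype H] {p : ℕ} [Fact p.Prime]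
  {S : Type} [AddCommGroup S] [Module (ZMod p) S] [Fintype S]

omit [Fintype S] in
/-- The functionals correspond to their values on a basis. -/
lemma sum_dual_prod [Fintype (Dual (ZMod p) S)] {κ : Type} [Fintype κ] (b : Basis κ (ZMod p) S)
    (F : ZMod p → ℝ) :
    ∑ ξ : Dual (ZMod p) S, ∏ i, F (ξ (b i)) = (∑ a : ZMod p, F a) ^ Fintype.card κ := by
  classical
  have e : Dual (ZMod p) S ≃ (κ → ZMod p) := (b.constr (ZMod p)).toEquiv.symm
  have h1 : ∑ ξ : Dual (ZMod p) S, ∏ i, F (ξ (b i)) = ∑ f : κ → ZMod p, ∏ i, F (f i) := by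
    refine Fintype.sum_equiv (b.constr (ZMod p)).toEquiv.symm _ _ ?_
    intro ξ
    apply Finset.prod_congr rfl
    intro i _
    congr 1
  rw [h1]
  have h2 := Finset.prod_univ_sum (fun _ : κ => (Finset.univ : Finset (ZMod p)))
    (fun _ a => F a)
  rw [Fintype.piFinset_univ] at h2
  rw [← h2, Finset.prod_const, Finset.card_univ]

omit [Fintype S] in
/-- The sum over functionals for a family with translations. -/
theorem sum_prod_cs_le [Fintype (Dual (ZMod p) S)] (w : H → S)
    (T : H → S ≃ₗ[ZMod p] S) (hT : ∀ k h, T k (w h) = w (h * k))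
    (hspan : Submodule.span (ZMod p) (Set.range w) = ⊤) (t : ℕ)
    (ht : finrank (ZMod p) S * t ≤ Fintype.card H) :
    ∑ ξ : Dual (ZMod p) S, ∏ h, cs p (ξ (w h)) ≤ (∑ a : ZMod p, cs p a ^ t) ^ finrank (ZMod p) S := by
  classical
  obtain ⟨κ, a, ha, hsp, hli⟩ := exists_linearIndependent' (ZMod p) w
  have : Finite κ := Finite.of_injective a ha
  have : Fintype κ := Fintype.ofFinite κ
  let b : Basis κ (ZMod p) S := Basis.mk hli (by rw [hsp, hspan])
  have hb : ∀ i, b i = w (a i) := fun i => by simp [b]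
  have hcard : Fintype.card κ = finrank (ZMod p) S := (finrank_eq_card_basis b).symm
  have hg0 : (0 : ℝ) < Fintype.card H := by exact_mod_cast Fintype.card_pos
  have h1 : ∀ ξ : Dual (ZMod p) S, ∏ h, cs p (ξ (w h))
      ≤ (∑ k : H, (∏ i : κ, cs p (ξ (w (a i * k)))) ^ t) / Fintype.card H := by
    intro ξ
    exact prod_le_average (fun h => cs p (ξ (w h))) (fun h => cs_nonneg p _)
      (fun h => cs_le_one p _) a t (by rw [hcard]; exact ht)
  refine (Finset.sum_le_sum (fun ξ _ => h1 ξ)).trans ?_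
  rw [← Finset.sum_div, div_le_iff₀ hg0, Finset.sum_comm]
  have h2 : ∀ k : H, ∑ ξ : Dual (ZMod p) S, (∏ i : κ, cs p (ξ (w (a i * k)))) ^ t
      = (∑ a : ZMod p, cs p a ^ t) ^ finrank (ZMod p) S := by
    intro k
    rw [← hcard, ← sum_dual_prod (b.map (T k)) (fun a => cs p a ^ t)]
    apply Finset.sum_congr rfl
    intro ξ _
    rw [← Finset.prod_pow]
    apply Finset.prod_congr rfl
    intro i _
    rw [Basis.map_apply, hb, hT]
  simp only [h2]
  rw [Finset.sum_const, Finset.card_univ, nsmul_eq_mul, mul_comm]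

/-- The number of signed relations of a spanning family with translations. -/
theorem card_relSet_le (hp2 : p ≠ 2) (w : H → S)
    (T : H → S ≃ₗ[ZMod p] S) (hT : ∀ k h, T k (w h) = w (h * k))
    (hspan : Submodule.span (ZMod p) (Set.range w) = ⊤) (d : ℕ)
    (hd2 : finrank (ZMod p) S ≤ d)
    (hnum : 4 * d * Real.exp (-(2 * ((Fintype.card H / d : ℕ) : ℝ) / p ^ 2)) ≤ 1) :
    ((relSet p w).card : ℝ) * Fintype.card S ≤ 3 * 2 ^ Fintype.card H := by
  classical
  have : Finite (Dual (ZMod p) S) := Module.finite_of_finite (ZMod p)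
  have : Fintype (Dual (ZMod p) S) := Fintype.ofFinite _
  have hcard : Fintype.card (Dual (ZMod p) S) = Fintype.card S := by
    rw [← Nat.card_eq_fintype_card, ← Nat.card_eq_fintype_card,
      Module.natCard_eq_pow_finrank (K := ZMod p) (V := Dual (ZMod p) S),
      Module.natCard_eq_pow_finrank (K := ZMod p) (V := S), Subspace.dual_finrank_eq]
  have h1 := card_relSet_mul_le (p := p) w
  rw [hcard] at h1
  refine h1.trans ?_
  have h2 : finrank (ZMod p) S * (Fintype.card H / d) ≤ Fintype.card H := by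
    calc finrank (ZMod p) S * (Fintype.card H / d) ≤ d * (Fintype.card H / d) :=
          Nat.mul_le_mul_right _ hd2
      _ ≤ Fintype.card H := Nat.mul_div_le _ _
  have h3 := sum_prod_cs_le w T hT hspan (Fintype.card H / d) h2
  have h4 : 4 * ((finrank (ZMod p) S : ℕ) : ℝ) *
      Real.exp (-(2 * ((Fintype.card H / d : ℕ) : ℝ) / p ^ 2)) ≤ 1 := by
    refine le_trans ?_ hnum
    have : ((finrank (ZMod p) S : ℕ) : ℝ) ≤ d := by exact_mod_cast hd2
    gcongr
  have h5 := sum_cs_pow_pow_le p hp2 (Fintype.card H / d) (finrank (ZMod p) S) h4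
  calc 2 ^ Fintype.card H * ∑ ξ : Dual (ZMod p) S, ∏ h, cs p (ξ (w h))
      ≤ 2 ^ Fintype.card H * 3 := by gcongr; exact h3.trans h5
    _ = 3 * 2 ^ Fintype.card H := by ring

end base

end Pool.Agent.Lib.MP_640417_ag.OddGal
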