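import Pool.Agent.Lib.MP_640417_ag.Monomial

/-!
# Factoring monomials
-/

namespace Pool.Agent.Lib.MP_640417_ag

open NumberField Module

section monomials

variable {I : Type} {F : Type} [Field F]

lemma mono_append [DecidableEq I] (l l' : List I) : mono F (l ++ l') = mono F l * mono F l' := by
  simp only [mono, List.map_append, List.prod_append]

lemma mono_mem_of_perm [DecidableEq I] (A : Subalgebra F (ExteriorAlgebra F (I → F)))
    {l l' : List I} (h : l.Perm l') (h' : mono F l' ∈ A) : mono F l ∈ A := by
  rcases mono_perm (F := F) h with e | e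
  · rw [e]; exact h'
  · rw [e]; exact A.neg_mem h'

/-- If a subalgebra contains all products `e_p e_q` with `P p` and not `P q`, then it contains
every monomial with as many factors satisfying `P` as not. -/
lemma mono_mem_of_sign [DecidableEq I] (P : I → Prop) [DecidablePred P]
    (A : Subalgebra F (ExteriorAlgebra F (I → F)))
    (hA : ∀ p q : I, P p → ¬ P q → ev F p * ev F q ∈ A) :
    ∀ (N : ℕ) (l : List I), l.length = N →
      (l.filter (fun p => decide (P p))).length = (l.filter (fun p => decide (¬ P p))).length →
        mono F l ∈ A := by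
  have hA' : ∀ p q : I, ¬ P p → P q → ev F p * ev F q ∈ A := by
    intro p q hp hq
    have h1 := hA q p hq hp
    have h2 := ExteriorAlgebra.ι_add_mul_swap (R := F) (Pi.single p (1 : F) : I → F)
      (Pi.single q 1)
    have h3 : ev F p * ev F q = - (ev F q * ev F p) := by
      simp only [ev]
      exact eq_neg_of_add_eq_zero_left h2
    rw [h3]
    exact A.neg_mem h1
  intro N
  induction N using Nat.strong_induction_on with
  | _ N ih =>
    intro l hl hcount
    match l, hl, hcount with
    | [], _, _ =>
      simp only [mono, List.map_nil, List.prod_nil]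
      exact A.one_mem
    | p :: t, hl, hcount =>
      have hex : ∃ q ∈ t, ¬ (P p ↔ P q) := by
        by_cases hp : P p
        · simp only [List.filter_cons, hp, decide_true, if_true, not_true, decide_false,
            Bool.false_eq_true, if_false, List.length_cons] at hcount
          have h0 : (t.filter (fun p => decide (¬ P p))) ≠ [] := by
            intro h
            rw [h] at hcount
            simp at hcount
          obtain ⟨q, hq⟩ := List.exists_mem_of_ne_nil _ h0
          rw [List.mem_filter] at hq
          refine ⟨q, hq.1, ?_⟩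
          have := of_decide_eq_true hq.2
          tauto
        · simp only [List.filter_cons, hp, decide_true, if_true, not_false_iff, decide_false,
            Bool.false_eq_true, if_false, List.length_cons] at hcount
          have h0 : (t.filter (fun p => decide (P p))) ≠ [] := by
            intro h
            rw [h] at hcount
            simp at hcount
          obtain ⟨q, hq⟩ := List.exists_mem_of_ne_nil _ h0
          rw [List.mem_filter] at hq
          refine ⟨q, hq.1, ?_⟩
          have := of_decide_eq_true hq.2
          tauto
      obtain ⟨q, hq, hpq⟩ := hex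
      have hperm : t.Perm (q :: t.erase q) := List.perm_cons_erase hq
      have hlen : (t.erase q).length < N := by
        rw [List.length_erase_of_mem hq]
        simp only [List.length_cons] at hl
        omega
      have hcount' : ((t.erase q).filter (fun p => decide (P p))).length
          = ((t.erase q).filter (fun p => decide (¬ P p))).length := by
        have e1 : (t.filter (fun p => decide (P p))).length
            = ((q :: t.erase q).filter (fun p => decide (P p))).length :=
          (hperm.filter _).length_eq
        have e2 : (t.filter (fun p => decide (¬ P p))).length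
            = ((q :: t.erase q).filter (fun p => decide (¬ P p))).length :=
          (hperm.filter _).length_eq
        by_cases hp : P p <;> by_cases hq' : P q
        · exact absurd (Iff.intro (fun _ => hq') (fun _ => hp)) hpq
        · simp only [List.filter_cons, hp, hq', decide_true, if_true, not_true, not_false_iff,
            decide_false, Bool.false_eq_true, if_false, List.length_cons] at hcount e1 e2
          omega
        · simp only [List.filter_cons, hp, hq', decide_true, if_true, not_true, not_false_iff,
            decide_false, Bool.false_eq_true, if_false, List.length_cons] at hcount e1 e2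
          omega
        · exact absurd (Iff.intro (fun h => absurd h hp) (fun h => absurd h hq')) hpq
      have hrec := ih _ hlen (t.erase q) rfl hcount'
      have hpair : ev F p * ev F q ∈ A := by
        by_cases hp : P p
        · exact hA p q hp (fun hq' => hpq ⟨fun _ => hq', fun _ => hp⟩)
        · refine hA' p q hp ?_
          by_contra hq'
          exact hpq ⟨fun h => absurd h hp, fun h => absurd h hq'⟩
      have hprod : mono F (p :: q :: t.erase q) ∈ A := by
        simp only [mono, List.map_cons, List.prod_cons, ← mul_assoc]
        exact A.mul_mem hpair hrec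
      exact mono_mem_of_perm A (List.Perm.cons p hperm) hprod

/-- Peeling off monomials that contain each element of `T` exactly once. -/
lemma mono_mem_of_excess [DecidableEq I] {J : Type} [DecidableEq J] (c : J → J)
    (hc : ∀ s, c (c s) = s) (hne : ∀ s, c s ≠ s) (π : I → J)
    (A : Subalgebra F (ExteriorAlgebra F (I → F)))
    (hA : ∀ p q : I, π q = c (π p) → ev F p * ev F q ∈ A)
    (T : Finset J) (hT : ∀ j, j ∈ T ↔ c j ∉ T)
    (hAT : ∀ w : List I, (w.map π).Nodup → (∀ j, j ∈ w.map π ↔ j ∈ T) → mono F w ∈ A) :
    ∀ (k : ℕ) (l : List I), (∀ j ∈ T, (l.map π).count j = (l.map π).count (c j) + k) →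
      mono F l ∈ A := by
  intro k
  induction k with
  | zero =>
    intro l hl
    refine mono_mem c hc hne π A hA l.length l rfl ?_
    intro j
    by_cases hj : j ∈ T
    · rw [hl j hj, add_zero]
    · have hj' : c j ∈ T := by
        by_contra h
        exact hj ((hT j).mpr h)
      have := hl (c j) hj'
      rw [hc, add_zero] at this
      exact this.symm
  | succ k ih =>
    intro l hl
    have hex : ∀ j ∈ T, ∃ p ∈ l, π p = j := by
      intro j hj
      have h1 : 0 < (l.map π).count j := by
        rw [hl j hj]; omega
      have h2 := List.count_pos_iff.mp h1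
      obtain ⟨p, hp, hpj⟩ := List.mem_map.mp h2
      exact ⟨p, hp, hpj⟩
    choose f hf1 hf2 using hex
    let w : List I := T.attach.toList.map (fun j => f j.1 j.2)
    have hwmap : w.map π = T.attach.toList.map Subtype.val := by
      simp only [w, List.map_map]
      apply List.map_congr_left
      intro j _
      simp only [Function.comp_apply]
      exact hf2 j.1 j.2
    have hTnodup : (T.attach.toList.map Subtype.val).Nodup :=
      (List.nodup_map_iff Subtype.val_injective).mpr (Finset.nodup_toList _)
    have hTmem : ∀ j, j ∈ T.attach.toList.map Subtype.val ↔ j ∈ T := by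
      intro j
      simp
    have hwnodup : w.Nodup := by
      apply List.Nodup.of_map π
      rw [hwmap]
      exact hTnodup
    have hsub : w ⊆ l := by
      intro p hp
      simp only [w, List.mem_map] at hp
      obtain ⟨j, _, rfl⟩ := hp
      exact hf1 j.1 j.2
    have hsubperm : w.Subperm l := List.subperm_of_subset hwnodup hsub
    obtain ⟨l', hl'⟩ : ∃ l' : List I, l.Perm (w ++ l') := by
      have h1 : (w : Multiset I) ≤ (l : Multiset I) := hsubperm
      obtain ⟨u, hu⟩ := Multiset.le_iff_exists_add.mp h1
      refine ⟨u.toList, ?_⟩
      rw [← Multiset.coe_eq_coe, hu, ← Multiset.coe_add, Multiset.coe_toList]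
    have hcw : ∀ j, (w.map π).count j = if j ∈ T then 1 else 0 := by
      intro j
      rw [hwmap]
      by_cases hj : j ∈ T
      · rw [if_pos hj]
        exact List.count_eq_one_of_mem hTnodup ((hTmem j).mpr hj)
      · rw [if_neg hj]
        exact List.count_eq_zero_of_not_mem (fun h => hj ((hTmem j).mp h))
    have hl'count : ∀ j ∈ T, (l'.map π).count j = (l'.map π).count (c j) + k := by
      intro j hj
      have e1 : ∀ j, (l.map π).count j = (w.map π).count j + (l'.map π).count j := by
        intro j
        rw [(hl'.map π).count_eq j, List.map_append, List.count_append]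
      have e2 := hl j hj
      rw [e1, e1, hcw, hcw, if_pos hj, if_neg ((hT j).mp hj)] at e2
      omega
    apply mono_mem_of_perm A hl'
    rw [mono_append]
    apply A.mul_mem
    · apply hAT
      · rw [hwmap]; exact hTnodup
      · intro j; rw [hwmap]; exact hTmem j
    · exact ih l' hl'count

end monomials

section orth

variable {E : Type} [Field E] [NumberField E]

/-- The sign vector of a set of embeddings. -/
noncomputable def sgnVec (Φ : Set (Emb E)) (φ : Emb E) : ℝ := by
  classical exact if φ ∈ Φ then 1 else -1

lemma sgnVec_eq_one_or (Φ : Set (Emb E)) (φ : Emb E) : sgnVec Φ φ = 1 ∨ sgnVec Φ φ = -1 := by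
  classical
  simp only [sgnVec]
  by_cases h : φ ∈ Φ <;> simp [h]

lemma sgnVec_eq_one_iff (Φ : Set (Emb E)) (φ : Emb E) : sgnVec Φ φ = 1 ↔ φ ∈ Φ := by
  classical
  simp only [sgnVec]
  by_cases h : φ ∈ Φ
  · simp [h]
  · simp only [h, if_false, iff_false]
    norm_num

variable [IsCMField E] {Φ : Set (Emb E)}

lemma sgnVec_conj (hΦ : IsCMType Φ) (φ : Emb E) : sgnVec Φ (conjEmb φ) = - sgnVec Φ φ := by
  classical
  simp only [sgnVec]
  by_cases h2 : φ ∈ Φ
  · have := (hΦ φ).mp h2
    simp [h2, this]
  · have : conjEmb φ ∈ Φ := by
      by_contra h3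
      exact h2 ((hΦ φ).mpr h3)
    simp [h2, this]

omit [IsCMField E] in
lemma multFun_toFinset {n : ℕ} [DecidableEq (Emb E)] [DecidableEq (Emb E × Fin n)]
    (l : List (Emb E × Fin n)) (hl : l.Nodup) (φ : Emb E) :
    multFun l.toFinset φ = ((l.map Prod.fst).count φ : ℤ) := by
  rw [← count_toList_map]
  have : l.toFinset.toList.Perm l := List.toFinset_toList hl
  rw [(this.map Prod.fst).count_eq φ]

/-- A list all of whose weights equal half its length is orthogonal to the translates of the sign
vector of the CM type. -/
lemma sum_count_eq_zero [DecidableEq (Emb E)] {n i : ℕ} [DecidableEq (Emb E × Fin n)]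
    (l : List (Emb E × Fin n)) (hl : l.Nodup) (hlen : l.length = 2 * i)
    (hw : ∀ τ : AbsGal, ∑ φ : Emb E, Set.indicator {φ : Emb E | galEmb τ φ ∈ Φ}
        (multFun l.toFinset) φ = i) (τ : AbsGal) :
    ∑ φ, ((l.map Prod.fst).count φ : ℝ) * sgnVec Φ (galEmb τ φ) = 0 := by
  classical
  have e1 : ∀ φ, ((l.map Prod.fst).count φ : ℝ) * sgnVec Φ (galEmb τ φ)
      = 2 * ((Set.indicator {φ : Emb E | galEmb τ φ ∈ Φ} (multFun l.toFinset) φ : ℤ) : ℝ)
        - (((l.map Prod.fst).count φ : ℤ) : ℝ) := by
    intro φ
    by_cases h : galEmb τ φ ∈ Φ
    · rw [Set.indicator_of_mem (by exact h), multFun_toFinset l hl φ]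
      simp only [sgnVec, h, if_true]
      push_cast; ring
    · rw [Set.indicator_of_notMem (by exact h)]
      simp only [sgnVec, h, if_false]
      push_cast; ring
  rw [Finset.sum_congr rfl (fun φ _ => e1 φ), Finset.sum_sub_distrib, ← Finset.mul_sum,
    ← Int.cast_sum, ← Int.cast_sum, hw τ]
  have e2 : ∑ φ, ((l.map Prod.fst).count φ : ℤ) = 2 * (i : ℤ) := by
    rw [← Nat.cast_sum]
    have e4 : ∑ φ, (l.map Prod.fst).count φ = (l.map Prod.fst).length := by
      have := Multiset.sum_count_eq_card (s := Finset.univ) (m := (↑(l.map Prod.fst) : Multiset (Emb E)))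
        (fun a _ => Finset.mem_univ a)
      simpa using this
    rw [e4, List.length_map, hlen]
    push_cast; ring
  rw [e2]; push_cast; ring

lemma sum_odd_count_eq_zero [DecidableEq (Emb E)] {n i : ℕ} [DecidableEq (Emb E × Fin n)]
    (hΦ : IsCMType Φ) (l : List (Emb E × Fin n)) (hl : l.Nodup) (hlen : l.length = 2 * i)
    (hw : ∀ τ : AbsGal, ∑ φ : Emb E, Set.indicator {φ : Emb E | galEmb τ φ ∈ Φ}
        (multFun l.toFinset) φ = i) (τ : AbsGal) :
    ∑ φ, (((l.map Prod.fst).count φ : ℝ) - ((l.map Prod.fst).count (conjEmb φ) : ℝ))
      * sgnVec Φ (galEmb τ φ) = 0 := by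
  classical
  have hsum := sum_count_eq_zero l hl hlen hw τ
  have hsum2 : ∑ φ, ((l.map Prod.fst).count (conjEmb φ) : ℝ) * sgnVec Φ (galEmb τ φ) = 0 := by
    have e1 : ∑ φ, ((l.map Prod.fst).count (conjEmb φ) : ℝ) * sgnVec Φ (galEmb τ φ)
        = ∑ φ, ((l.map Prod.fst).count φ : ℝ) * sgnVec Φ (galEmb τ (conjEmb φ)) := by
      have hbij : Function.Bijective (conjEmb (E := E)) :=
        Function.Involutive.bijective conjEmb_conjEmb
      apply Fintype.sum_bijective conjEmb hbij
      intro φ
      rw [conjEmb_conjEmb]
    rw [e1]
    have e2 : ∀ φ, ((l.map Prod.fst).count φ : ℝ) * sgnVec Φ (galEmb τ (conjEmb φ))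
        = - (((l.map Prod.fst).count φ : ℝ) * sgnVec Φ (galEmb τ φ)) := by
      intro φ
      rw [galEmb_conjEmb, sgnVec_conj hΦ]; ring
    rw [Finset.sum_congr rfl (fun φ _ => e2 φ), Finset.sum_neg_distrib, hsum, neg_zero]
  simp only [sub_mul]
  rw [Finset.sum_sub_distrib, hsum, hsum2, sub_zero]

end orth

end Pool.Agent.Lib.MP_640417_ag
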