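import Pool.Agent.Lib.MP_640417_ag.SylowOrbit

/-!
# Relations between the translates of a function of prime power size
-/

namespace Pool.Agent.Lib.MP_640417_ag

open MulAction

section qadic

variable {G X : Type} [Group G] [Finite G] [MulAction G X] [Fintype X]
  [IsPretransitive G X]

/-- If the sum of `t` is prime to `q` and `X` is a transitive `G`-set of `q`-power size, the
translates of `t` satisfy no relation. -/
theorem qadic_eq_zero (q k : ℕ) [Fact q.Prime] (hX : Nat.card X = q ^ k) (t : X → ℤ)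
    (ht : ¬ (q : ℤ) ∣ ∑ x, t x) (v : X → ℤ) (hv : ∀ γ : G, ∑ x, v x * t (γ • x) = 0) :
    v = 0 := by
  classical
  by_contra hv0
  let L : AddSubgroup (X → ℤ) :=
    { carrier := {u | ∀ γ : G, ∑ x, u x * t (γ • x) = 0}
      add_mem' := by
        intro a b ha hb γ
        simp only [Pi.add_apply, add_mul, Finset.sum_add_distrib, ha γ, hb γ, add_zero]
      zero_mem' := by intro γ; simp
      neg_mem' := by
        intro a ha γ
        simp only [Pi.neg_apply, neg_mul, Finset.sum_neg_distrib, ha γ, neg_zero] }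
  have hsat : ∀ (n : ℤ) (u : X → ℤ), n ≠ 0 → n • u ∈ L → u ∈ L := by
    intro n u hn hu γ
    have h1 := hu γ
    simp only [Pi.smul_apply, smul_eq_mul, mul_assoc] at h1
    rw [← Finset.mul_sum] at h1
    exact (mul_eq_zero.mp h1).resolve_left hn
  let S : Sylow q G := default
  obtain ⟨u, hu, hu0, hfix⟩ := exists_fixed_reduction L hsat v hv hv0 q (P := S) S.2 (by
    intro δ u hu γ
    rw [← hu (γ * (δ : G)⁻¹)]
    apply Fintype.sum_bijective (fun x => (δ : G) • x) (MulAction.bijective (δ : G))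
    intro x
    rw [mul_smul, inv_smul_smul]
    rfl)
  -- the Sylow subgroup is transitive
  have htr : ∀ x y : X, ∃ δ : S, δ • x = y := by
    intro x y
    have h1 : q ^ k ∣ Nat.card (orbit S x) := pow_dvd_card_orbit_sylow S (by rw [hX]) x
    have h2 : Nat.card (orbit S x) ≤ Nat.card X :=
      Nat.card_le_card_of_injective (Subtype.val : orbit S x → X) Subtype.val_injective
    have h3 : 0 < Nat.card (orbit S x) := by
      have : Nonempty (orbit S x) := ⟨⟨x, mem_orbit_self x⟩⟩
      exact Nat.card_pos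
    have h4 := Nat.le_of_dvd h3 h1
    have h5 : orbit S x = Set.univ := by
      apply Set.eq_of_subset_of_ncard_le (Set.subset_univ _) _ (Set.toFinite _)
      rw [Set.ncard_univ, hX, ← Nat.card_coe_set_eq]
      exact h4
    have h6 : y ∈ orbit S x := by rw [h5]; trivial
    exact h6
  obtain ⟨x₀, hx₀⟩ : ∃ x₀, (u x₀ : ZMod q) ≠ 0 := by
    by_contra hcon
    push Not at hcon
    exact hu0 (funext hcon)
  have hconst : ∀ x, (u x : ZMod q) = u x₀ := by
    intro x
    obtain ⟨δ, hδ⟩ := htr x₀ x
    rw [← hδ]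
    exact hfix δ x₀
  have h1 : (((∑ x, u x * t ((1 : G) • x) : ℤ)) : ZMod q) = 0 := by
    rw [hu 1]; simp
  push_cast at h1
  simp only [one_smul, hconst] at h1
  rw [← Finset.mul_sum] at h1
  have h2 := (mul_eq_zero.mp h1).resolve_left hx₀
  apply ht
  rw [← ZMod.intCast_zmod_eq_zero_iff_dvd]
  push_cast
  exact h2

/-- The version with a constant. -/
theorem unitary_eq_zero (q k : ℕ) [Fact q.Prime] (hX : Nat.card X = q ^ k) (t : X → ℤ)
    (ht : ¬ (q : ℤ) ∣ ∑ x, t x) (b : ℤ) (hb : 2 * ∑ x, t x ≠ b * q ^ k) (v : X → ℤ)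
    (hv : ∀ γ : G, ∑ x, v x * (2 * t (γ • x) - b) = 0) : v = 0 := by
  classical
  have := Fintype.ofFinite G
  rcases isEmpty_or_nonempty X with hemp | hne
  · funext x
    exact hemp.elim x
  obtain ⟨x₀⟩ := hne
  -- averages
  have hC : ∀ x : X, ∑ γ : G, t (γ • x) = ∑ γ : G, t (γ • x₀) := by
    intro x
    obtain ⟨δ, hδ⟩ := exists_smul_eq G x₀ x
    rw [← hδ]
    apply Fintype.sum_bijective (fun γ : G => γ * δ) (Group.mulRight_bijective δ)
    intro γ
    rw [mul_smul]
  set C := ∑ γ : G, t (γ • x₀) with hCdef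
  have hCT : (Fintype.card X : ℤ) * C = Fintype.card G * ∑ x, t x := by
    have h1 : ∑ x : X, ∑ γ : G, t (γ • x) = ∑ x : X, C := Finset.sum_congr rfl fun x _ => hC x
    rw [Finset.sum_comm] at h1
    have h2 : ∀ γ : G, ∑ x : X, t (γ • x) = ∑ x, t x := by
      intro γ
      exact Fintype.sum_bijective (fun x => γ • x) (MulAction.bijective γ) _ _ (fun x => rfl)
    rw [Finset.sum_congr rfl fun γ _ => h2 γ] at h1
    simp only [Finset.sum_const, Finset.card_univ, nsmul_eq_mul] at h1
    exact h1.symm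
  have hXc : (Fintype.card X : ℤ) = q ^ k := by
    rw [← Nat.card_eq_fintype_card, hX]; push_cast; ring
  have hG : (Fintype.card G : ℤ) ≠ 0 := by
    exact_mod_cast Fintype.card_ne_zero
  have hsum : ∑ x, v x = 0 := by
    have h1 : ∑ γ : G, ∑ x, v x * (2 * t (γ • x) - b) = 0 :=
      Finset.sum_eq_zero fun γ _ => hv γ
    rw [Finset.sum_comm] at h1
    have h2 : ∀ x, ∑ γ : G, v x * (2 * t (γ • x) - b) = v x * (2 * C - Fintype.card G * b) := by
      intro x
      rw [← Finset.mul_sum, Finset.sum_sub_distrib, ← Finset.mul_sum, hC x]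
      simp
    rw [Finset.sum_congr rfl fun x _ => h2 x, ← Finset.sum_mul] at h1
    apply (mul_eq_zero.mp h1).resolve_right
    intro h3
    apply hb
    have h4 : (Fintype.card G : ℤ) * (2 * ∑ x, t x - b * q ^ k) = 0 := by
      have h5 : (Fintype.card X : ℤ) * (2 * C - Fintype.card G * b) = 0 := by
        rw [h3, mul_zero]
      have h6 : (Fintype.card X : ℤ) * (2 * C - Fintype.card G * b) =
          2 * (Fintype.card X * C) - Fintype.card G * (b * Fintype.card X) := by ring
      rw [h6, hCT, hXc] at h5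
      rw [← h5]; ring
    have h5 := (mul_eq_zero.mp h4).resolve_left hG
    linarith
  apply qadic_eq_zero (G := G) q k hX t ht v
  intro γ
  have h1 := hv γ
  have h2 : ∑ x, v x * (2 * t (γ • x) - b) = 2 * ∑ x, v x * t (γ • x) - b * ∑ x, v x := by
    rw [Finset.mul_sum, Finset.mul_sum, ← Finset.sum_sub_distrib]
    apply Finset.sum_congr rfl
    intro x _
    ring
  rw [h2, hsum, mul_zero, sub_zero] at h1
  exact (mul_eq_zero.mp h1).resolve_left (by norm_num)

end qadic

end Pool.Agent.Lib.MP_640417_ag
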