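import Pool.Agent.Lib.MP_640417_ag.CountPoly

/-!
# Reduction of a generating polynomial of signs modulo `X ^ h - η`
-/

namespace Pool.Agent.Lib.MP_640417_ag

open Polynomial

/-- The sets of positions at which `η ^ i * e (a + h i) = 1`. -/
noncomputable def posSet (h m : ℕ) (η : ℚ) (e : ℕ → ℚ) (a : Fin h) : Finset (Fin m) := by
  classical exact Finset.univ.filter (fun i : Fin m => η ^ (i : ℕ) * e (a + h * i) = 1)

lemma two_mul_card_posSet (h m : ℕ) (η : ℚ) (hη : η = 1 ∨ η = -1) (e : ℕ → ℚ)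
    (he : ∀ j, e j = 1 ∨ e j = -1) (a : Fin h) :
    2 * ((posSet h m η e a).card : ℚ) - m = ∑ i : Fin m, η ^ (i : ℕ) * e (a + h * i) := by
  classical
  have h1 : ∀ i : Fin m, η ^ (i : ℕ) * e (a + h * i)
      = 2 * (if η ^ (i : ℕ) * e (a + h * i) = 1 then (1 : ℚ) else 0) - 1 := by
    intro i
    have h2 : η ^ (i : ℕ) = 1 ∨ η ^ (i : ℕ) = -1 := by
      rcases hη with rfl | rfl
      · left; exact one_pow _
      · exact neg_one_pow_eq_or ℚ _
    have h3 : η ^ (i : ℕ) * e (a + h * i) = 1 ∨ η ^ (i : ℕ) * e (a + h * i) = -1 := by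
      rcases h2 with h2 | h2 <;> rcases he (a + h * i) with h4 | h4 <;> rw [h2, h4] <;> norm_num
    rcases h3 with h3 | h3
    · rw [h3]; norm_num
    · rw [h3]; norm_num
  rw [Finset.sum_congr rfl (fun i _ => h1 i), Finset.sum_sub_distrib, ← Finset.mul_sum,
    Finset.sum_boole]
  simp [posSet]

lemma dvd_sizePoly (h m : ℕ) (η : ℚ) (hη : η = 1 ∨ η = -1) (e : ℕ → ℚ)
    (he : ∀ j, e j = 1 ∨ e j = -1) (Q : ℚ[X])
    (hQ1 : Q ∣ ∑ j ∈ Finset.range (m * h), C (e j) * X ^ j) (hQ2 : Q ∣ X ^ h - C η) :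
    Q ∣ sizePoly (posSet h m η e) := by
  classical
  have h1 : ∑ j ∈ Finset.range (m * h), C (e j) * X ^ j
      = ∑ i : Fin m, ∑ a : Fin h, C (e (a + h * i)) * X ^ ((a : ℕ) + h * i) := by
    rw [← Fin.sum_univ_eq_sum_range (fun j => (C (e j) * X ^ j : ℚ[X])) (m * h),
      ← Fintype.sum_prod_type']
    symm
    apply Fintype.sum_equiv finProdFinEquiv
    rintro ⟨i, a⟩
    rfl
  have h2 : sizePoly (posSet h m η e)
      = ∑ i : Fin m, ∑ a : Fin h, C (η ^ (i : ℕ) * e (a + h * i)) * X ^ (a : ℕ) := by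
    rw [Finset.sum_comm]
    unfold sizePoly
    apply Finset.sum_congr rfl
    intro a _
    rw [two_mul_card_posSet h m η hη e he a, map_sum, Finset.sum_mul]
  have h3 : Q ∣ (∑ j ∈ Finset.range (m * h), C (e j) * X ^ j) - sizePoly (posSet h m η e) := by
    rw [h1, h2, ← Finset.sum_sub_distrib]
    apply Finset.dvd_sum
    intro i _
    rw [← Finset.sum_sub_distrib]
    apply Finset.dvd_sum
    intro a _
    have e1 : (C (e (a + h * i)) * X ^ ((a : ℕ) + h * i)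
        - C (η ^ (i : ℕ) * e (a + h * i)) * X ^ (a : ℕ) : ℚ[X])
        = C (e (a + h * i)) * X ^ (a : ℕ) * ((X ^ h) ^ (i : ℕ) - (C η) ^ (i : ℕ)) := by
      rw [pow_add, pow_mul, C_mul, C_pow]; ring
    rw [e1]
    exact Dvd.dvd.mul_left (hQ2.trans (sub_dvd_pow_sub_pow _ _ _)) _
  exact (dvd_sub_right hQ1).mp h3

end Pool.Agent.Lib.MP_640417_ag
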