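import Mathlib

/-!
# Reproducing kernels of subspaces of `S → ℝ`
-/

namespace Pool.Agent.Lib.MP_640417_ag

open Module

variable {S : Type*} [Fintype S]

/-- Every subspace of `S → ℝ` has a reproducing kernel. -/
lemma exists_repKernel (W : Submodule ℝ (S → ℝ)) :
    ∃ p : S → S → ℝ, (∀ t, p t ∈ W) ∧ ∀ t, ∀ w ∈ W, ∑ s, p t s * w s = w t := by
  classical
  let T : W →ₗ[ℝ] Dual ℝ W := LinearMap.mk₂ ℝ (fun w w' => ∑ s, w.1 s * w'.1 s)
    (by intro a b c; simp [add_mul, Finset.sum_add_distrib])
    (by intro r a b; simp [Finset.mul_sum, mul_assoc])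
    (by intro a b c; simp [mul_add, Finset.sum_add_distrib])
    (by intro r a b
        simp only [Submodule.coe_smul, Pi.smul_apply, smul_eq_mul, Finset.mul_sum]
        apply Finset.sum_congr rfl
        intro s _; ring)
  have hinj : Function.Injective T := by
    rw [← LinearMap.ker_eq_bot, LinearMap.ker_eq_bot']
    intro w hw
    have h1 : ∑ s, w.1 s * w.1 s = 0 := by
      have := congrArg (fun f : Dual ℝ W => f w) hw
      simpa [T] using this
    have h2 := (Finset.sum_eq_zero_iff_of_nonneg (fun s _ => mul_self_nonneg (w.1 s))).mp h1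
    apply Subtype.ext
    funext s
    exact mul_self_eq_zero.mp (h2 s (Finset.mem_univ s))
  have hsurj : Function.Surjective T :=
    (LinearMap.injective_iff_surjective_of_finrank_eq_finrank
      (Subspace.dual_finrank_eq (K := ℝ) (V := W)).symm).mp hinj
  have h : ∀ t : S, ∃ w : W, T w = (LinearMap.proj t).comp W.subtype := fun t => hsurj _
  choose q hq using h
  refine ⟨fun t => (q t).1, fun t => (q t).2, fun t w hw => ?_⟩
  have := congrArg (fun f : Dual ℝ W => f ⟨w, hw⟩) (hq t)
  simpa [T] using this

/-- Uniqueness of the reproducing vector. -/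
lemma repKernel_unique (W : Submodule ℝ (S → ℝ)) (a b : S → ℝ) (ha : a ∈ W) (hb : b ∈ W)
    (h : ∀ w ∈ W, ∑ s, a s * w s = ∑ s, b s * w s) : a = b := by
  have hab : a - b ∈ W := W.sub_mem ha hb
  have h1 : ∑ s, (a - b) s * (a - b) s = 0 := by
    have h2 := h _ hab
    have h3 : ∑ s, (a - b) s * (a - b) s = ∑ s, a s * (a - b) s - ∑ s, b s * (a - b) s := by
      rw [← Finset.sum_sub_distrib]
      apply Finset.sum_congr rfl
      intro s _
      simp only [Pi.sub_apply]; ring
    rw [h3, h2, sub_self]
  have h2 := (Finset.sum_eq_zero_iff_of_nonneg (fun s _ => mul_self_nonneg ((a - b) s))).mp h1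
  funext s
  have := mul_self_eq_zero.mp (h2 s (Finset.mem_univ s))
  simp only [Pi.sub_apply] at this
  linarith

/-- The trace of the reproducing kernel is the dimension. -/
lemma repKernel_trace (W : Submodule ℝ (S → ℝ)) (p : S → S → ℝ) (hp : ∀ t, p t ∈ W)
    (hrep : ∀ t, ∀ w ∈ W, ∑ s, p t s * w s = w t) : ∑ t, p t t = finrank ℝ W := by
  classical
  have hsymm : ∀ s t, p s t = p t s := by
    intro s t
    have h1 := hrep s (p t) (hp t)
    have h2 := hrep t (p s) (hp s)
    rw [← h2, ← h1]
    apply Finset.sum_congr rfl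
    intro u _; ring
  let P : (S → ℝ) →ₗ[ℝ] (S → ℝ) := Matrix.toLin' (Matrix.of p)
  have hPapp : ∀ (f : S → ℝ) (s : S), P f s = ∑ t, p s t * f t := by
    intro f s
    simp only [P, Matrix.toLin'_apply, Matrix.mulVec, dotProduct, Matrix.of_apply]
  have hproj : LinearMap.IsProj W P := by
    constructor
    · intro f
      have : P f = ∑ t, f t • p t := by
        funext s
        rw [hPapp, Finset.sum_apply]
        apply Finset.sum_congr rfl
        intro t _
        simp only [Pi.smul_apply, smul_eq_mul]
        rw [hsymm s t]; ring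
      rw [this]
      exact Submodule.sum_mem _ (fun t _ => W.smul_mem _ (hp t))
    · intro w hw
      funext s
      rw [hPapp]
      exact hrep s w hw
  have h1 := hproj.trace
  rw [← h1]
  simp only [P, Matrix.trace_toLin'_eq, Matrix.trace, Matrix.diag_apply, Matrix.of_apply]

end Pool.Agent.Lib.MP_640417_ag
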