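import Mathlib

/-!
# Sign vectors in subspaces, and sign vectors orthogonal to all translates of an odd function
-/

namespace Pool.Agent.Lib.MP_640417_ag

open Module

/-- A subspace of dimension `d` contains at most `2 ^ d` vectors all of whose coordinates
are `1` or `-1`. -/
lemma ncard_sign_le {S : Type*} [Fintype S] (W : Submodule ℝ (S → ℝ)) :
    {e : S → ℝ | e ∈ W ∧ ∀ s, e s = 1 ∨ e s = -1}.ncard ≤ 2 ^ finrank ℝ W := by
  classical
  let v : S → Dual ℝ W := fun s => (LinearMap.proj s).comp W.subtype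
  obtain ⟨b, hb, hspan, hli⟩ := exists_linearIndependent ℝ (Set.range v)
  have hbfin : b.Finite := (Set.finite_range v).subset hb
  have : Fintype b := hbfin.fintype
  have hcard : Fintype.card b ≤ finrank ℝ W := by
    have h := hli.fintype_card_le_finrank
    rwa [Subspace.dual_finrank_eq] at h
  let T : Set (S → ℝ) := {e : S → ℝ | e ∈ W ∧ ∀ s, e s = 1 ∨ e s = -1}
  let f : T → (b → Bool) := fun e k => decide ((k : Dual ℝ W) ⟨e.1, e.2.1⟩ = 1)
  have hf : Function.Injective f := by
    intro e e' hee
    have key : ∀ k ∈ b, k ⟨e.1, e.2.1⟩ = k ⟨e'.1, e'.2.1⟩ := by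
      intro k hk
      have h1 := congrFun hee ⟨k, hk⟩
      simp only [f, decide_eq_decide] at h1
      obtain ⟨s, rfl⟩ := hb hk
      have e1 : v s ⟨e.1, e.2.1⟩ = e.1 s := rfl
      have e2 : v s ⟨e'.1, e'.2.1⟩ = e'.1 s := rfl
      rw [e1, e2] at h1 ⊢
      rcases e.2.2 s with h | h <;> rcases e'.2.2 s with h' | h' <;> rw [h, h'] at h1 ⊢ <;>
        norm_num at h1
    have key2 : ∀ k ∈ Submodule.span ℝ b, k ⟨e.1, e.2.1⟩ = k ⟨e'.1, e'.2.1⟩ := by
      intro k hk
      induction hk using Submodule.span_induction with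
      | mem x hx => exact key x hx
      | zero => rfl
      | add x y _ _ hx hy => simp only [LinearMap.add_apply, hx, hy]
      | smul a x _ hx => simp only [LinearMap.smul_apply, hx]
    apply Subtype.ext
    funext s
    have : v s ∈ Submodule.span ℝ b := by
      rw [hspan]
      exact Submodule.subset_span ⟨s, rfl⟩
    exact key2 (v s) this
  have h1 : Nat.card T ≤ Nat.card (b → Bool) := Nat.card_le_card_of_injective f hf
  have h2 : Nat.card (b → Bool) = 2 ^ Fintype.card b := by
    rw [Nat.card_eq_fintype_card]; simp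
  calc T.ncard = Nat.card T := (Nat.card_coe_set_eq T).symm
    _ ≤ 2 ^ Fintype.card b := by rw [← h2]; exact h1
    _ ≤ 2 ^ finrank ℝ W := Nat.pow_le_pow_right (by norm_num) hcard

end Pool.Agent.Lib.MP_640417_ag
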