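import Mathlib

/-!
# The sign of a permutation commuting with a fixed point free involution
-/

namespace Pool.Agent.Lib.MP_640417_ag

section sign

variable {X : Type} [Fintype X] [DecidableEq X]

lemma sign_mulRight_units (z : ℤˣ) : Equiv.Perm.sign (Equiv.mulRight z : Equiv.Perm ℤˣ) = z := by
  rcases Int.units_eq_one_or z with h | h
  · subst h
    have : (Equiv.mulRight (1 : ℤˣ) : Equiv.Perm ℤˣ) = 1 := by
      ext x; simp
    rw [this, Equiv.Perm.sign_one]
  · subst h
    have : (Equiv.mulRight (-1 : ℤˣ) : Equiv.Perm ℤˣ) = Equiv.swap 1 (-1) := by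
      ext x
      rcases Int.units_eq_one_or x with h | h <;> subst h <;> simp
    rw [this, Equiv.Perm.sign_swap (by decide)]

/-- For a transversal `T` of a fixed point free involution `c`, a permutation `γ` commuting with
`c` and an odd function `e` with values `±1`, the product of `e` over `γ T` is the sign of `γ`
times the product of `e` over `T`. -/
lemma prod_transversal (c : X → X) (hc : ∀ s, c (c s) = s)
    (γ : Equiv.Perm X) (hγ : ∀ s, γ (c s) = c (γ s)) (e : X → ℤˣ) (he : ∀ s, e (c s) = - e s)
    (T : Finset X) (hT : ∀ s, s ∈ T ↔ c s ∉ T) :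
    ∏ s ∈ T, e (γ s) = Equiv.Perm.sign γ * ∏ s ∈ T, e s := by
  classical
  -- representative and sign with respect to `T`
  let r : X → {s // s ∈ T} := fun s => if h : s ∈ T then ⟨s, h⟩ else ⟨c s, by
    by_contra h'
    exact h ((hT s).mpr h')⟩
  let z : X → ℤˣ := fun s => if s ∈ T then 1 else -1
  have hzc : ∀ s, z (c s) = - z s := by
    intro s
    simp only [z]
    by_cases h : s ∈ T
    · have := (hT s).mp h
      simp [h, this]
    · have : c s ∈ T := by
        by_contra h'
        exact h ((hT s).mpr h')
      simp [h, this]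
  have hrc : ∀ s, r (c s) = r s := by
    intro s
    simp only [r]
    by_cases h : s ∈ T
    · have := (hT s).mp h
      simp [h, this, hc]
    · have : c s ∈ T := by
        by_contra h'
        exact h ((hT s).mpr h')
      simp [h, this]
  have hr1 : ∀ t : {s // s ∈ T}, r t.1 = t := by
    intro t; simp [r, t.2]
  have hz1 : ∀ t : {s // s ∈ T}, z t.1 = 1 := by
    intro t; simp [z, t.2]
  have hrz : ∀ s, s = if z s = 1 then (r s).1 else c (r s).1 := by
    intro s
    simp only [r, z]
    by_cases h : s ∈ T
    · simp [h]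
    · simp [h, hc]
  let Ψ : X ≃ {s // s ∈ T} × ℤˣ :=
    { toFun := fun s => (r s, z s)
      invFun := fun p => if p.2 = 1 then p.1.1 else c p.1.1
      left_inv := fun s => (hrz s).symm
      right_inv := by
        rintro ⟨t, u⟩
        rcases Int.units_eq_one_or u with h | h
        · subst h; simp [hr1, hz1]
        · subst h
          have h1 : ((-1 : ℤˣ) = 1) = False := by simp
          simp only [h1, if_false]
          rw [hrc, hr1, hzc, hz1] }
  -- the permutation of `T` induced by `γ`
  have hrγ : ∀ s, r (γ (r s).1) = r (γ s) := by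
    intro s
    conv_rhs => rw [hrz s]
    split_ifs with h
    · rfl
    · rw [hγ, hrc]
  let γT : Equiv.Perm {s // s ∈ T} :=
    { toFun := fun t => r (γ t.1)
      invFun := fun t => r (γ.symm t.1)
      left_inv := by
        intro t
        have h1 : ∀ s, r (γ.symm (r s).1) = r (γ.symm s) := by
          intro s
          conv_rhs => rw [hrz s]
          split_ifs with h
          · rfl
          · have : γ.symm (c (r s).1) = c (γ.symm (r s).1) := by
              apply γ.injective
              rw [hγ]; simp
            rw [this, hrc]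
        simp only
        rw [h1]
        simp [hr1]
      right_inv := by
        intro t
        simp only
        rw [hrγ]
        simp [hr1] }
  have hconj : Ψ.permCongr γ = (Equiv.prodCongrLeft (fun _ : ℤˣ => γT)) *
      (Equiv.prodCongrRight (fun t : {s // s ∈ T} => (Equiv.mulRight (z (γ t.1)) :
        Equiv.Perm ℤˣ))) := by
    apply Equiv.ext
    rintro ⟨t, u⟩
    simp only [Equiv.permCongr_apply, Equiv.Perm.coe_mul, Function.comp_apply]
    rcases Int.units_eq_one_or u with h | h
    · subst h
      have : Ψ.symm (t, 1) = t.1 := by simp [Ψ]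
      rw [this]
      simp [Ψ, γT, Equiv.prodCongrLeft, Equiv.prodCongrRight]
    · subst h
      have : Ψ.symm (t, -1) = c t.1 := by
        have h1 : ((-1 : ℤˣ) = 1) = False := by simp
        simp [Ψ, h1]
      rw [this]
      simp [Ψ, γT, Equiv.prodCongrLeft, Equiv.prodCongrRight, hγ, hrc, hzc]
  have hsign : Equiv.Perm.sign γ = ∏ t : {s // s ∈ T}, z (γ t.1) := by
    rw [← Equiv.Perm.sign_permCongr Ψ γ, hconj, Equiv.Perm.sign_mul,
      Equiv.Perm.sign_prodCongrLeft, Equiv.Perm.sign_prodCongrRight]
    have h1 : ∏ _k : ℤˣ, Equiv.Perm.sign γT = 1 := by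
      rw [Finset.prod_const, Finset.card_univ]
      have : Fintype.card ℤˣ = 2 := by decide
      rw [this]
      exact Int.units_sq _
    rw [h1, one_mul]
    apply Finset.prod_congr rfl
    intro t _
    exact sign_mulRight_units _
  -- the even part
  let f : X → ℤˣ := fun s => e s * z s
  have hfr : ∀ s, f (r s).1 = f s := by
    intro s
    conv_rhs => rw [hrz s]
    split_ifs with h
    · rfl
    · simp only [f]
      rw [he, hzc]; simp
  have hef : ∀ s, e s = f s * z s := by
    intro s
    simp only [f]
    rw [mul_assoc, Int.units_mul_self, mul_one]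
  have h2 : ∏ s ∈ T, e (γ s) = ∏ t : {s // s ∈ T}, e (γ t.1) := by
    rw [← Finset.prod_coe_sort T (fun s => e (γ s))]
  have h3 : ∏ s ∈ T, e s = ∏ t : {s // s ∈ T}, e t.1 := by
    rw [← Finset.prod_coe_sort T (fun s => e s)]
  rw [h2, h3, hsign]
  have h4 : ∏ t : {s // s ∈ T}, e (γ t.1)
      = (∏ t : {s // s ∈ T}, f (γT t).1) * ∏ t : {s // s ∈ T}, z (γ t.1) := by
    rw [← Finset.prod_mul_distrib]
    apply Finset.prod_congr rfl
    intro t _
    rw [hef (γ t.1)]
    congr 1
    exact (hfr (γ t.1)).symm
  rw [h4, Equiv.prod_comp γT (fun t => f t.1), mul_comm]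
  congr 1
  apply Finset.prod_congr rfl
  intro t _
  simp only [f]
  rw [hz1, mul_one]

end sign

end Pool.Agent.Lib.MP_640417_ag
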