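import Pool.Agent.Lib.MP_640417_ag.SignInvol
import Pool.Agent.Lib.MP_640417_ag.SylowOrbit
import Pool.Agent.Lib.MP_640417_ag.Translates

/-!
# The 2-adic criterion for the vanishing of all relations

Let a finite group `G` act on a finite set `X` with an involution `c` commuting with the action,
such that all orbits have `2`-power size and on each nonempty stable set closed under `c` some
element of `G` acts as an odd permutation. Then the translates of an odd function with odd integral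
values satisfy no nontrivial linear relation.
-/

namespace Pool.Agent.Lib.MP_640417_ag

section mod4

/-- The sign `±1` congruent to an odd integer modulo `4`. -/
def chi4 (a : ℤ) : ℤˣ := if a % 4 = 1 then 1 else -1

lemma chi4_spec {a : ℤ} (ha : Odd a) : ∃ k, a = (chi4 a : ℤ) + 4 * k := by
  obtain ⟨m, rfl⟩ := ha
  unfold chi4
  split_ifs with h
  · refine ⟨(2 * m + 1) / 4, ?_⟩
    have := Int.emod_add_mul_ediv (2 * m + 1) 4
    simp only [Units.val_one]
    omega
  · refine ⟨(2 * m + 1 + 1) / 4, ?_⟩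
    simp only [Units.val_neg, Units.val_one]
    omega

lemma units_eq_of_mod4 {a b : ℤˣ} {k : ℤ} (h : (a : ℤ) = b + 4 * k) : a = b := by
  rcases Int.units_eq_one_or a with h1 | h1 <;> rcases Int.units_eq_one_or b with h2 | h2 <;>
    subst h1 <;> subst h2
  · rfl
  · exfalso
    simp only [Units.val_one, Units.val_neg] at h
    omega
  · exfalso
    simp only [Units.val_one, Units.val_neg] at h
    omega
  · rfl

lemma chi4_neg {a : ℤ} (ha : Odd a) : chi4 (-a) = - chi4 a := by
  obtain ⟨k, hk⟩ := chi4_spec ha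
  obtain ⟨l, hl⟩ := chi4_spec ha.neg
  apply units_eq_of_mod4 (k := -k - l)
  rw [Units.val_neg]
  linarith

lemma chi4_mul {a b : ℤ} (ha : Odd a) (hb : Odd b) : chi4 (a * b) = chi4 a * chi4 b := by
  obtain ⟨k, hk⟩ := chi4_spec ha
  obtain ⟨l, hl⟩ := chi4_spec hb
  obtain ⟨m, hm⟩ := chi4_spec (ha.mul hb)
  apply units_eq_of_mod4 (k := chi4 a * l + k * chi4 b + 4 * k * l - m)
  rw [Units.val_mul]
  have : (chi4 (a * b) : ℤ) = a * b - 4 * m := by linarith
  rw [this]
  conv_lhs => rw [hk, hl]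
  ring

/-- A sum of odd integers modulo `4` is determined by the product of their signs. -/
lemma sum_odd_mod4 {X : Type} (A : Finset X) (a : X → ℤ) (ha : ∀ s ∈ A, Odd (a s)) :
    ∃ k : ℤ, ((∏ s ∈ A, chi4 (a s) : ℤˣ) : ℤ) = 1 - A.card + ∑ s ∈ A, a s + 4 * k := by
  classical
  induction A using Finset.induction_on with
  | empty => exact ⟨0, by simp⟩
  | insert x A hx ih =>
    obtain ⟨k, hk⟩ := ih (fun s hs => ha s (Finset.mem_insert_of_mem hs))
    obtain ⟨l, hl⟩ := chi4_spec (ha x (Finset.mem_insert_self x A))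
    rw [Finset.prod_insert hx, Finset.card_insert_of_notMem hx, Finset.sum_insert hx,
      Units.val_mul]
    have key : ∃ m : ℤ, ((chi4 (a x) : ℤ) - 1) * (((∏ s ∈ A, chi4 (a s) : ℤˣ) : ℤ) - 1)
        = 4 * m := by
      rcases Int.units_eq_one_or (chi4 (a x)) with h1 | h1 <;>
      rcases Int.units_eq_one_or (∏ s ∈ A, chi4 (a s)) with h2 | h2 <;> rw [h1, h2]
      · exact ⟨0, by simp⟩
      · exact ⟨0, by simp⟩
      · exact ⟨0, by simp⟩
      · exact ⟨1, by simp⟩
    obtain ⟨m, hm⟩ := key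
    refine ⟨m + k - l, ?_⟩
    push_cast
    have e1 : (chi4 (a x) : ℤ) * ((∏ s ∈ A, chi4 (a s) : ℤˣ) : ℤ)
        = 4 * m + chi4 (a x) + ((∏ s ∈ A, chi4 (a s) : ℤˣ) : ℤ) - 1 := by
      linarith [hm, mul_comm (chi4 (a x) : ℤ) ((∏ s ∈ A, chi4 (a s) : ℤˣ) : ℤ)]
    push_cast at e1 hk
    rw [e1, hk]
    linarith

end mod4

section main

variable {G X : Type} [Group G] [Finite G] [MulAction G X] [Fintype X] [DecidableEq X]

/-- The relation lattice of an integral function `e`. -/
def relL (G : Type) [Group G] [MulAction G X] (c : X → X) (e : X → ℤ) :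
    AddSubgroup (X → ℤ) where
  carrier := {v | (∀ s, v (c s) = - v s) ∧ ∀ γ : G, ∑ s, v s * e (γ • s) = 0}
  add_mem' := by
    rintro a b ⟨ha, ha'⟩ ⟨hb, hb'⟩
    refine ⟨fun s => ?_, fun γ => ?_⟩
    · simp only [Pi.add_apply, ha s, hb s]; ring
    · simp only [Pi.add_apply, add_mul, Finset.sum_add_distrib, ha' γ, hb' γ, add_zero]
  zero_mem' := by
    refine ⟨fun s => ?_, fun γ => ?_⟩
    · simp
    · simp
  neg_mem' := by
    rintro a ⟨ha, ha'⟩
    refine ⟨fun s => ?_, fun γ => ?_⟩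
    · simp only [Pi.neg_apply, ha s]
    · simp only [Pi.neg_apply, neg_mul, Finset.sum_neg_distrib, ha' γ, neg_zero]

omit [DecidableEq X] in
lemma orbit_sylow_eq (P : Sylow 2 G) (s : X) (k : ℕ)
    (hk : Nat.card (MulAction.orbit G s) = 2 ^ k) (γ : G) : ∃ δ : P, δ • s = γ • s := by
  classical
  have h1 := pow_dvd_card_orbit_sylow (S := MulAction.orbit G s) P (k := k) (by rw [hk])
    ⟨s, MulAction.mem_orbit_self s⟩
  have h2 : Nat.card (MulAction.orbit P (⟨s, MulAction.mem_orbit_self s⟩ : MulAction.orbit G s))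
      = Nat.card (MulAction.orbit G s) := by
    apply le_antisymm
    · exact Nat.card_le_card_of_injective _ Subtype.val_injective
    · rw [hk]
      apply Nat.le_of_dvd _ h1
      have : Nonempty (MulAction.orbit P
        (⟨s, MulAction.mem_orbit_self s⟩ : MulAction.orbit G s)) :=
        ⟨⟨_, MulAction.mem_orbit_self _⟩⟩
      exact Nat.card_pos
  have h3 : MulAction.orbit P (⟨s, MulAction.mem_orbit_self s⟩ : MulAction.orbit G s)
      = Set.univ := by
    apply Set.eq_of_subset_of_ncard_le (Set.subset_univ _) _ (Set.toFinite _)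
    rw [Set.ncard_univ, ← Nat.card_coe_set_eq, h2]
  have h4 : (⟨γ • s, MulAction.mem_orbit s γ⟩ : MulAction.orbit G s) ∈
      MulAction.orbit P (⟨s, MulAction.mem_orbit_self s⟩ : MulAction.orbit G s) := by
    rw [h3]; trivial
  obtain ⟨δ, hδ⟩ := h4
  exact ⟨δ, congrArg Subtype.val hδ⟩

/-- The 2-adic criterion. -/
theorem relation_eq_zero (c : X → X) (hc : ∀ s, c (c s) = s)
    (hcG : ∀ (γ : G) (s : X), γ • c s = c (γ • s))
    (hpow : ∀ s : X, ∃ k : ℕ, Nat.card (MulAction.orbit G s) = 2 ^ k)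
    (hodd : ∀ Y : Finset X, Y.Nonempty → (∀ s ∈ Y, c s ∈ Y) →
      ∀ hY : (∀ (γ : G) (s : X), γ • s ∈ Y ↔ s ∈ Y),
      ∃ γ : G, Equiv.Perm.sign ((MulAction.toPerm γ : Equiv.Perm X).subtypePerm
        (p := fun s => s ∈ Y) (fun s => hY γ s)) = -1)
    (e : X → ℤ) (he : ∀ s, Odd (e s)) (hec : ∀ s, e (c s) = - e s)
    (v : X → ℤ) (hvc : ∀ s, v (c s) = - v s) (hv : ∀ γ : G, ∑ s, v s * e (γ • s) = 0) :
    v = 0 := by
  classical
  by_contra hv0
  have hne : ∀ s, c s ≠ s := by
    intro s hs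
    have h1 := hec s
    rw [hs] at h1
    have h2 : e s = 0 := by omega
    have h3 := he s
    rw [h2] at h3
    exact absurd h3 (by decide)
  obtain ⟨P⟩ : Nonempty (Sylow 2 G) := inferInstance
  have hsat : ∀ (n : ℤ) (u : X → ℤ), n ≠ 0 → n • u ∈ relL G c e → u ∈ relL G c e := by
    rintro n u hn ⟨h1, h2⟩
    refine ⟨fun s => ?_, fun γ => ?_⟩
    · have := h1 s
      simp only [Pi.smul_apply, smul_eq_mul] at this
      have h3 : n * u (c s) = n * (- u s) := by rw [this]; ring
      exact mul_left_cancel₀ hn h3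
    · have := h2 γ
      simp only [Pi.smul_apply, smul_eq_mul, mul_assoc, ← Finset.mul_sum] at this
      exact (mul_eq_zero.mp this).resolve_left hn
  have hstab : ∀ (γ : P), ∀ u ∈ relL G c e, (fun s => u (γ • s)) ∈ relL G c e := by
    rintro γ u ⟨h1, h2⟩
    refine ⟨fun s => ?_, fun δ => ?_⟩
    · have : γ • c s = c (γ • s) := hcG γ.1 s
      simp only [this]
      exact h1 _
    · rw [← h2 (δ * (γ : G)⁻¹)]
      apply Fintype.sum_bijective (fun s => γ • s) (MulAction.bijective γ)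
      intro s
      have : (δ * (γ : G)⁻¹) • (γ • s) = δ • s := by
        change (δ * (γ : G)⁻¹) • ((γ : G) • s) = δ • s
        rw [smul_smul, mul_assoc, inv_mul_cancel, mul_one]
      rw [this]
  obtain ⟨u, ⟨huc, hu⟩, hu0, hufix⟩ := exists_fixed_reduction (relL G c e) hsat v ⟨hvc, hv⟩ hv0 2
    P.isPGroup' hstab
  -- the support of the reduction
  let Y : Finset X := Finset.univ.filter (fun s => (u s : ZMod 2) ≠ 0)
  have hYmem : ∀ s, s ∈ Y ↔ Odd (u s) := by
    intro s
    simp only [Y, Finset.mem_filter, Finset.mem_univ, true_and]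
    rw [← Int.not_even_iff_odd, even_iff_two_dvd, not_iff_not]
    exact ZMod.intCast_zmod_eq_zero_iff_dvd (u s) 2
  have hYne : Y.Nonempty := by
    by_contra h
    rw [Finset.not_nonempty_iff_eq_empty] at h
    apply hu0
    funext s
    by_contra h1
    have : s ∈ Y := by simp only [Y, Finset.mem_filter, Finset.mem_univ, true_and]; exact h1
    rw [h] at this
    simp at this
  have hYc : ∀ s ∈ Y, c s ∈ Y := by
    intro s hs
    rw [hYmem] at hs ⊢
    rw [huc]
    exact hs.neg
  have hYG : ∀ (γ : G) (s : X), γ • s ∈ Y ↔ s ∈ Y := by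
    intro γ s
    obtain ⟨k, hk⟩ := hpow s
    obtain ⟨δ, hδ⟩ := orbit_sylow_eq P s k hk γ
    simp only [Y, Finset.mem_filter, Finset.mem_univ, true_and]
    rw [← hδ, hufix δ s]
  -- a transversal
  obtain ⟨T, hT⟩ := exists_transversal c hc hne
  have hhalf : ∀ f : X → ℤ, (∀ s, f (c s) = f s) → ∑ s, f s = 2 * ∑ s ∈ T, f s := by
    intro f hf
    have h1 : ∑ s, f s = ∑ s ∈ T, f s + ∑ s ∈ Tᶜ, f s := (Finset.sum_add_sum_compl T f).symm
    have h2 : ∑ s ∈ Tᶜ, f s = ∑ s ∈ T, f s := by
      symm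
      apply Finset.sum_bij (fun s _ => c s)
      · intro s hs
        rw [Finset.mem_compl]
        exact (hT s).mp hs
      · intro a _ b _ hab
        rw [← hc a, hab, hc]
      · intro b hb
        rw [Finset.mem_compl] at hb
        refine ⟨c b, ?_, hc b⟩
        by_contra h
        exact hb ((hT b).mpr h)
      · intro s _
        exact (hf s).symm
    rw [h1, h2]; ring
  have hhalf0 : ∀ γ : G, ∑ s ∈ T, u s * e (γ • s) = 0 := by
    intro γ
    have h1 := hhalf (fun s => u s * e (γ • s)) (by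
      intro s
      rw [huc, hcG, hec]; ring)
    rw [hu γ] at h1
    omega
  let ε : X → ℤˣ := fun s => chi4 (e s)
  have hεc : ∀ s, ε (c s) = - ε s := by
    intro s
    simp only [ε]
    rw [hec, chi4_neg (he s)]
  let TY : Finset X := T.filter (fun s => s ∈ Y)
  have hconst : ∀ γ : G, ∃ k : ℤ, ((∏ s ∈ TY, chi4 (u s) * ε (γ • s) : ℤˣ) : ℤ)
      = 1 - TY.card - ∑ s ∈ T.filter (fun s => s ∉ Y), u s + 4 * k := by
    intro γ
    have hodd1 : ∀ s ∈ TY, Odd (u s * e (γ • s)) := by
      intro s hs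
      have : s ∈ Y := (Finset.mem_filter.mp hs).2
      exact ((hYmem s).mp this).mul (he _)
    obtain ⟨k, hk⟩ := sum_odd_mod4 TY (fun s => u s * e (γ • s)) hodd1
    have h1 : ∏ s ∈ TY, chi4 (u s * e (γ • s)) = ∏ s ∈ TY, chi4 (u s) * ε (γ • s) := by
      apply Finset.prod_congr rfl
      intro s hs
      have : s ∈ Y := (Finset.mem_filter.mp hs).2
      exact chi4_mul ((hYmem s).mp this) (he _)
    rw [h1] at hk
    have h2 : ∑ s ∈ TY, u s * e (γ • s) + ∑ s ∈ T.filter (fun s => s ∉ Y), u s * e (γ • s)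
        = 0 := by
      rw [← hhalf0 γ]
      exact Finset.sum_filter_add_sum_filter_not T (fun s => s ∈ Y) (fun s => u s * e (γ • s))
    have h3 : ∃ l : ℤ, ∑ s ∈ T.filter (fun s => s ∉ Y), u s * e (γ • s)
        = ∑ s ∈ T.filter (fun s => s ∉ Y), u s + 4 * l := by
      have h4 : ∀ s ∈ T.filter (fun s => s ∉ Y), ∃ l : ℤ, u s * e (γ • s) = u s + 4 * l := by
        intro s hs
        have h5 : s ∉ Y := (Finset.mem_filter.mp hs).2
        rw [hYmem, Int.not_odd_iff_even] at h5
        obtain ⟨a, ha⟩ := h5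
        obtain ⟨b, hb⟩ := he (γ • s)
        refine ⟨a * b, ?_⟩
        rw [ha, hb]; ring
      choose! l hl using h4
      refine ⟨∑ s ∈ T.filter (fun s => s ∉ Y), l s, ?_⟩
      rw [Finset.mul_sum, ← Finset.sum_add_distrib]
      exact Finset.sum_congr rfl hl
    obtain ⟨l, hl⟩ := h3
    refine ⟨k - l, ?_⟩
    rw [hk]
    linarith
  have hconst2 : ∀ γ : G, ∏ s ∈ TY, ε (γ • s) = ∏ s ∈ TY, ε s := by
    intro γ
    obtain ⟨k, hk⟩ := hconst γ
    obtain ⟨l, hl⟩ := hconst 1
    have h1 : ∏ s ∈ TY, chi4 (u s) * ε (γ • s) = ∏ s ∈ TY, chi4 (u s) * ε ((1 : G) • s) := by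
      apply units_eq_of_mod4 (k := k - l)
      rw [hk, hl]; ring
    rw [Finset.prod_mul_distrib, Finset.prod_mul_distrib] at h1
    have h2 := mul_left_cancel h1
    simpa only [one_smul] using h2
  -- apply the sign lemma on `Y`
  obtain ⟨γ, hγ⟩ := hodd Y hYne hYc hYG
  let cY : {s // s ∈ Y} → {s // s ∈ Y} := fun s => ⟨c s.1, hYc s.1 s.2⟩
  let TT : Finset {s // s ∈ Y} := Finset.univ.filter (fun s => s.1 ∈ T)
  have hsign := prod_transversal cY (fun s => Subtype.ext (hc s.1))
    ((MulAction.toPerm γ : Equiv.Perm X).subtypePerm (p := fun s => s ∈ Y) (fun s => hYG γ s))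
    (fun s => Subtype.ext (hcG γ s.1)) (fun s => ε s.1) (fun s => hεc s.1) TT (by
      intro s
      simp only [TT, Finset.mem_filter, Finset.mem_univ, true_and, cY]
      exact hT s.1)
  have htr : ∀ f : X → ℤˣ, ∏ s ∈ TT, f s.1 = ∏ s ∈ TY, f s := by
    intro f
    apply Finset.prod_bij (fun s _ => s.1)
    · intro s hs
      simp only [TT, Finset.mem_filter, Finset.mem_univ, true_and] at hs
      exact Finset.mem_filter.mpr ⟨hs, s.2⟩
    · intro a _ b _ hab
      exact Subtype.ext hab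
    · intro b hb
      obtain ⟨h1, h2⟩ := Finset.mem_filter.mp hb
      exact ⟨⟨b, h2⟩, by simp [TT, h1], rfl⟩
    · intro s _; rfl
  rw [hγ] at hsign
  have h1 : ∏ s ∈ TT, (fun s : {s // s ∈ Y} => ε s.1)
      (((MulAction.toPerm γ : Equiv.Perm X).subtypePerm (p := fun s => s ∈ Y)
        (fun s => hYG γ s)) s) = ∏ s ∈ TY, ε (γ • s) := htr (fun s => ε (γ • s))
  rw [h1, hconst2 γ, htr ε] at hsign
  have h2 : (1 : ℤˣ) = -1 := by
    have h3 : (1 : ℤˣ) * ∏ s ∈ TY, ε s = (-1) * ∏ s ∈ TY, ε s := by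
      rw [one_mul]; exact hsign
    exact mul_right_cancel h3
  exact absurd h2 (by decide)

/-- The 2-adic criterion, in the form in which the inner products are only assumed constant. -/
theorem relation_const_eq_zero (c : X → X) (hc : ∀ s, c (c s) = s)
    (hcG : ∀ (γ : G) (s : X), γ • c s = c (γ • s))
    (hpow : ∀ s : X, ∃ k : ℕ, Nat.card (MulAction.orbit G s) = 2 ^ k)
    (hodd : ∀ Y : Finset X, Y.Nonempty → (∀ s ∈ Y, c s ∈ Y) →
      ∀ hY : (∀ (γ : G) (s : X), γ • s ∈ Y ↔ s ∈ Y),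
      ∃ γ : G, Equiv.Perm.sign ((MulAction.toPerm γ : Equiv.Perm X).subtypePerm
        (p := fun s => s ∈ Y) (fun s => hY γ s)) = -1)
    (e : X → ℤ) (he : ∀ s, Odd (e s)) (hec : ∀ s, e (c s) = - e s)
    (v : X → ℤ) (hvc : ∀ s, v (c s) = - v s) (S : ℤ)
    (hv : ∀ γ : G, ∑ s, v s * e (γ • s) = S) :
    v = 0 := by
  classical
  have hinv : ∀ (γ : G) (s : X), v (γ • s) = v s := by
    intro γ
    have h0 := relation_eq_zero (G := G) c hc hcG hpow hodd e he hec (fun s => v (γ • s) - v s)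
      (by
        intro s
        simp only [hcG, hvc]; ring)
      (by
        intro δ
        simp only [sub_mul]
        rw [Finset.sum_sub_distrib, hv δ]
        have : ∑ s, v (γ • s) * e (δ • s) = S := by
          rw [← hv (δ * γ⁻¹)]
          apply Fintype.sum_bijective (fun s => γ • s) (MulAction.bijective γ)
          intro s
          rw [smul_smul, mul_assoc, inv_mul_cancel, mul_one]
        rw [this, sub_self])
    intro s
    have := congrFun h0 s
    simp only [Pi.zero_apply] at this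
    linarith
  funext s₀
  rw [Pi.zero_apply]
  by_cases hmem : ∃ γ : G, γ • s₀ = c s₀
  · obtain ⟨γ, hγ⟩ := hmem
    have h1 := hinv γ s₀
    rw [hγ, hvc] at h1
    linarith
  · exfalso
    let O : Finset X := Finset.univ.filter (fun s => ∃ γ : G, γ • s₀ = s)
    let Y : Finset X := Finset.univ.filter (fun s => s ∈ O ∨ c s ∈ O)
    have hO : ∀ s, s ∈ O ↔ ∃ γ : G, γ • s₀ = s := by
      intro s; simp [O]
    have hYm : ∀ s, s ∈ Y ↔ s ∈ O ∨ c s ∈ O := by
      intro s; simp [Y]
    have hOG : ∀ (γ : G) (s : X), γ • s ∈ O ↔ s ∈ O := by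
      intro γ s
      rw [hO, hO]
      constructor
      · rintro ⟨δ, hδ⟩
        exact ⟨γ⁻¹ * δ, by rw [mul_smul, hδ, inv_smul_smul]⟩
      · rintro ⟨δ, hδ⟩
        exact ⟨γ * δ, by rw [mul_smul, hδ]⟩
    have hdisj : ∀ s, s ∈ O → c s ∉ O := by
      intro s hs hcs
      obtain ⟨γ, hγ⟩ := (hO s).mp hs
      obtain ⟨δ, hδ⟩ := (hO (c s)).mp hcs
      apply hmem
      refine ⟨γ⁻¹ * δ, ?_⟩
      rw [mul_smul, hδ, ← hγ, ← hcG, inv_smul_smul]
    obtain ⟨γ, hγ⟩ := hodd Y ⟨s₀, (hYm s₀).mpr (Or.inl ((hO s₀).mpr ⟨1, one_smul _ _⟩))⟩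
      (by
        intro s hs
        rw [hYm] at hs ⊢
        rw [hc]
        exact hs.symm)
      (by
        intro γ s
        rw [hYm, hYm, ← hcG, hOG, hOG])
    let Y' := {s // s ∈ Y}
    have hYc : ∀ s ∈ Y, c s ∈ Y := by
      intro s hs
      rw [hYm] at hs ⊢
      rw [hc]
      exact hs.symm
    let cY : {s // s ∈ Y} → {s // s ∈ Y} := fun s => ⟨c s.1, hYc s.1 s.2⟩
    let TT : Finset {s // s ∈ Y} := Finset.univ.filter (fun s => s.1 ∈ O)
    let ε : {s // s ∈ Y} → ℤˣ := fun s => if s.1 ∈ O then 1 else -1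
    have hor : ∀ s : {s // s ∈ Y}, s.1 ∈ O ∨ c s.1 ∈ O := fun s => (hYm s.1).mp s.2
    have hYG : ∀ (γ : G) (s : X), γ • s ∈ Y ↔ s ∈ Y := by
      intro γ s
      rw [hYm, hYm, ← hcG, hOG, hOG]
    have hsign := prod_transversal cY (fun s => Subtype.ext (hc s.1))
      ((MulAction.toPerm γ : Equiv.Perm X).subtypePerm (p := fun s => s ∈ Y) (fun s => hYG γ s))
      (fun s => Subtype.ext (hcG γ s.1)) ε (by
        intro s
        simp only [ε, cY]
        rcases hor s with h | h
        · have := hdisj s.1 h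
          simp [h, this]
        · have h2 : s.1 ∉ O := by
            intro h3
            exact hdisj s.1 h3 h
          simp [h, h2]) TT (by
        intro s
        simp only [TT, Finset.mem_filter, Finset.mem_univ, true_and, cY]
        constructor
        · exact hdisj s.1
        · intro h
          exact (hor s).resolve_right h)
    have h1 : ∏ s ∈ TT, ε (((MulAction.toPerm γ : Equiv.Perm X).subtypePerm (p := fun s => s ∈ Y)
        (fun s => hYG γ s)) s) = 1 := by
      apply Finset.prod_eq_one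
      intro s hs
      simp only [TT, Finset.mem_filter, Finset.mem_univ, true_and] at hs
      have h3 : γ • s.1 ∈ O := (hOG γ s.1).mpr hs
      exact if_pos h3
    have h2 : ∏ s ∈ TT, ε s = 1 := by
      apply Finset.prod_eq_one
      intro s hs
      simp only [TT, Finset.mem_filter, Finset.mem_univ, true_and] at hs
      simp [ε, hs]
    rw [h1, h2, mul_one, hγ] at hsign
    exact absurd hsign (by decide)

end main

end Pool.Agent.Lib.MP_640417_ag
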