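import Pool.Agent.Lib.MP_640417_ag.RepKernel
import Pool.Agent.Lib.MP_640417_ag.Translates

/-!
# Odd functions orthogonal to all translates of a sign vector, for 2-homogeneous actions
-/

namespace Pool.Agent.Lib.MP_640417_ag

open Module

variable {S : Type*} [Fintype S] [DecidableEq S]

/-- Sums of even functions over `S` are twice the sums over a transversal. -/
lemma sum_even_eq (c : S → S) (hc : ∀ s, c (c s) = s) (X : Finset S)
    (hX : ∀ s, s ∈ X ↔ c s ∉ X) (h : S → ℝ) (hh : ∀ s, h (c s) = h s) :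
    ∑ s, h s = 2 * ∑ x ∈ X, h x := by
  have h1 : ∑ s, h s = ∑ s ∈ X, h s + ∑ s ∈ Xᶜ, h s := (Finset.sum_add_sum_compl X h).symm
  have h2 : ∑ s ∈ Xᶜ, h s = ∑ s ∈ X, h s := by
    apply Finset.sum_bij' (fun s _ => c s) (fun s _ => c s)
    · intro s hs
      rw [Finset.mem_compl] at hs
      by_contra h3
      exact hs ((hX s).mpr h3)
    · intro s hs
      rw [Finset.mem_compl]
      exact (hX s).mp hs
    · intro s _; exact hc s
    · intro s _; exact hc s
    · intro s _; exact (hh s).symm
  rw [h1, h2]; ring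

/-- The congruence `x y ≡ x + y - 1 (mod 4)` for signs, summed up. -/
lemma sign_sum_mod_four {ι : Type*} (T : Finset ι) (a b : ι → ℤ)
    (ha : ∀ i ∈ T, a i = 1 ∨ a i = -1) (hb : ∀ i ∈ T, b i = 1 ∨ b i = -1) :
    (4 : ℤ) ∣ (∑ i ∈ T, a i * b i) - (∑ i ∈ T, a i + ∑ i ∈ T, b i - T.card) := by
  have h1 : (∑ i ∈ T, a i * b i) - (∑ i ∈ T, a i + ∑ i ∈ T, b i - T.card)
      = ∑ i ∈ T, (a i * b i - (a i + b i - 1)) := by
    rw [Finset.sum_sub_distrib, Finset.sum_sub_distrib, Finset.sum_add_distrib]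
    simp
  rw [h1]
  apply Finset.dvd_sum
  intro i hi
  rcases ha i hi with h | h <;> rcases hb i hi with h' | h' <;> rw [h, h'] <;> norm_num

lemma sign_sum_mod_two {ι : Type*} (T : Finset ι) (a : ι → ℤ)
    (ha : ∀ i ∈ T, a i = 1 ∨ a i = -1) : (2 : ℤ) ∣ (∑ i ∈ T, a i) - T.card := by
  have h1 : (∑ i ∈ T, a i) - T.card = ∑ i ∈ T, (a i - 1) := by
    rw [Finset.sum_sub_distrib]; simp
  rw [h1]
  apply Finset.dvd_sum
  intro i hi
  rcases ha i hi with h | h <;> rw [h] <;> norm_num

/-- The structure of the space of odd functions orthogonal to all translates of a sign vector,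
when the group acts transitively on unordered pairs of points of `S` modulo the involution. -/
lemma two_homogeneous_core {G : Type*} [Group G] [MulAction G S] [MulAction.IsPretransitive G S]
    (c : S → S) (hc : ∀ s, c (c s) = s) (hne : ∀ s, c s ≠ s)
    (hcomm : ∀ (γ : G) (s : S), γ • c s = c (γ • s))
    (h2 : ∀ s t s' t' : S, t ≠ s → t ≠ c s → t' ≠ s' → t' ≠ c s' → ∃ γ : G,
      ((γ • s = s' ∨ γ • s = c s') ∧ (γ • t = t' ∨ γ • t = c t')) ∨
      ((γ • s = t' ∨ γ • s = c t') ∧ (γ • t = s' ∨ γ • t = c s')))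
    (e : S → ℝ) (he : ∀ s, e s = 1 ∨ e s = -1) (heodd : ∀ s, e (c s) = - e s)
    (g : ℕ) (hg : Fintype.card S = 2 * g)
    (W : Submodule ℝ (S → ℝ))
    (hW : ∀ v, v ∈ W ↔ (∀ s, v (c s) = - v s) ∧ ∀ γ : G, ∑ s, v s * e (γ • s) = 0) :
    W = ⊥ ∨
    (∀ γ : G, (∀ s, e (γ • s) = e s) ∨ (∀ s, e (γ • s) = - e s)) ∨
    (∃ σ : S → ℝ, (∀ s, σ s = 1 ∨ σ s = -1) ∧ σ ∈ W ∧ (∀ w ∈ W, ∃ r : ℝ, w = r • σ) ∧
      ∀ γ : G, (∀ s, σ (γ • s) = σ s) ∨ (∀ s, σ (γ • s) = - σ s)) ∨
    (∃ u v : ℕ, Odd u ∧ Odd v ∧ 3 ≤ u ∧ 3 ≤ v ∧ u * v + 1 = g ∧ (u + v) ∣ g * u) := by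
  classical
  let X : Finset S := Finset.univ.filter (fun s => e s = 1)
  have hXmem : ∀ s, s ∈ X ↔ e s = 1 := by intro s; simp [X]
  have hX : ∀ s, s ∈ X ↔ c s ∉ X := by
    intro s
    rw [hXmem, hXmem, heodd]
    rcases he s with h | h <;> rw [h] <;> norm_num
  have hXcard : X.card = g := by
    have := two_mul_card_transversal c hc X hX
    omega
  obtain ⟨p, hpW, hprep⟩ := exists_repKernel W
  have hsymm : ∀ s t, p s t = p t s := by
    intro s t
    have h1 := hprep s (p t) (hpW t)
    have h3 := hprep t (p s) (hpW s)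
    rw [← h3, ← h1]
    apply Finset.sum_congr rfl
    intro u _; ring
  have hstab : ∀ (γ : G), ∀ v ∈ W, (fun s => v (γ • s)) ∈ W := by
    intro γ v hv
    rw [hW] at hv ⊢
    refine ⟨fun s => ?_, fun γ' => ?_⟩
    · simp only [hcomm]; exact hv.1 (γ • s)
    · rw [← hv.2 (γ' * γ⁻¹)]
      apply Fintype.sum_bijective (fun s => γ • s) (MulAction.bijective γ)
      intro s
      simp only [smul_smul, inv_mul_cancel_right]
  have hinv : ∀ (γ : G) t s, p (γ • t) (γ • s) = p t s := by
    intro γ t s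
    have h1 : (fun s => p (γ • t) (γ • s)) = p t := by
      apply repKernel_unique W _ _ (hstab γ _ (hpW _)) (hpW t)
      intro w hw
      rw [hprep t w hw]
      have h3 : ∑ s, p (γ • t) (γ • s) * w s = ∑ s, p (γ • t) s * w (γ⁻¹ • s) := by
        apply Fintype.sum_bijective (fun s => γ • s) (MulAction.bijective γ)
        intro s
        simp only [inv_smul_smul]
      rw [h3, hprep (γ • t) (fun s => w (γ⁻¹ • s)) (hstab γ⁻¹ w hw), inv_smul_smul]
    exact congrFun h1 s
  have hodd : ∀ t s, p t (c s) = - p t s := fun t s => ((hW _).mp (hpW t)).1 s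
  have hodd' : ∀ t s, p (c t) s = - p t s := by
    intro t s
    rw [hsymm, hodd, hsymm]
  have horth : ∀ (γ : G) t, ∑ s, p t s * e (γ • s) = 0 := fun γ t => ((hW _).mp (hpW t)).2 γ
  have hidem : ∀ s t, ∑ u, p s u * p t u = p s t := by
    intro s t
    rw [hprep s (p t) (hpW t), hsymm]
  have hWbot : (∀ t, p t t = 0) → W = ⊥ := by
    intro h0
    rw [Submodule.eq_bot_iff]
    intro w hw
    funext t
    rw [← hprep t w hw]
    have h1 : ∀ s, p t s = 0 := by
      have h3 := hidem t t
      rw [h0 t] at h3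
      have h4 := (Finset.sum_eq_zero_iff_of_nonneg (fun s _ => mul_self_nonneg (p t s))).mp h3
      intro s
      exact mul_self_eq_zero.mp (h4 s (Finset.mem_univ s))
    simp [h1]
  -- sums over `X`
  have hsumX : ∀ (x : S) (w : S → ℝ), (∀ s, w (c s) = - w s) →
      ∑ s, p x s * w s = 2 * ∑ y ∈ X, p x y * w y := by
    intro x w hw
    apply sum_even_eq c hc X hX
    intro s
    rw [hodd, hw]; ring
  have hrow : ∀ x, ∑ y ∈ X, p x y = 0 := by
    intro x
    have h1 := horth 1 x
    simp only [one_smul] at h1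
    rw [hsumX x e heodd] at h1
    have h3 : ∑ y ∈ X, p x y * e y = ∑ y ∈ X, p x y := by
      apply Finset.sum_congr rfl
      intro y hy
      rw [(hXmem y).mp hy, mul_one]
    rw [h3] at h1
    linarith
  have hidemX : ∀ x z, 2 * ∑ y ∈ X, p x y * p z y = p x z := by
    intro x z
    rw [← hsumX x (p z) (fun s => hodd z s)]
    exact hidem x z
  by_cases hWb : W = ⊥
  · exact Or.inl hWb
  right
  -- the constant diagonal
  obtain ⟨t₀, ht₀⟩ : ∃ t, p t t ≠ 0 := by
    by_contra h
    push Not at h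
    exact hWb (hWbot h)
  set α : ℝ := p t₀ t₀ with hα
  have hdiag : ∀ t, p t t = α := by
    intro t
    obtain ⟨γ, hγ⟩ := MulAction.exists_smul_eq G t₀ t
    rw [← hγ, hinv γ t₀ t₀]
  have hαpos : 0 < α := by
    have h1 := hidem t₀ t₀
    have h3 : 0 ≤ ∑ u, p t₀ u * p t₀ u := Finset.sum_nonneg (fun u _ => mul_self_nonneg _)
    rw [h1] at h3
    exact lt_of_le_of_ne h3 (Ne.symm ht₀)
  -- the constant off-diagonal absolute value
  have hXne : ∀ x ∈ X, ∀ y ∈ X, y ≠ x → y ≠ c x := by
    intro x hx y hy _ h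
    rw [h] at hy
    exact (hX x).mp hx hy
  have hnonemptyX : X.Nonempty := by
    by_contra h
    rw [Finset.not_nonempty_iff_eq_empty] at h
    have : t₀ ∉ X := by rw [h]; exact Finset.notMem_empty _
    apply this
    rw [hX, h]; exact Finset.notMem_empty _
  obtain ⟨x₀, hx₀⟩ := hnonemptyX
  have hexists : ∃ y₀ ∈ X, y₀ ≠ x₀ := by
    by_contra h
    push Not at h
    have h1 := hrow x₀
    have h3 : X = {x₀} := Finset.eq_singleton_iff_unique_mem.mpr ⟨hx₀, h⟩
    rw [h3, Finset.sum_singleton, hdiag] at h1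
    exact hαpos.ne' h1
  obtain ⟨y₀, hy₀, hy₀x₀⟩ := hexists
  set β : ℝ := |p x₀ y₀| with hβ
  have habs : ∀ x t : S, ∀ x' t' : S, t ≠ x → t ≠ c x → t' ≠ x' → t' ≠ c x' →
      |p x t| = |p x' t'| := by
    intro x t x' t' h3 h4 h5 h6
    obtain ⟨γ, hγ⟩ := h2 x t x' t' h3 h4 h5 h6
    have h7 := hinv γ x t
    rcases hγ with ⟨ha | ha, hb | hb⟩ | ⟨ha | ha, hb | hb⟩ <;> rw [ha, hb] at h7 <;>
      try simp only [hodd, hodd', neg_neg] at h7
    · rw [h7]
    · rw [← h7, abs_neg]
    · rw [← h7, abs_neg]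
    · rw [h7]
    · rw [hsymm] at h7; rw [h7]
    · rw [hsymm] at h7; rw [← h7, abs_neg]
    · rw [hsymm] at h7; rw [← h7, abs_neg]
    · rw [hsymm] at h7; rw [h7]
  have hoff : ∀ x ∈ X, ∀ y ∈ X, y ≠ x → |p x y| = β := by
    intro x hx y hy hxy
    exact habs x y x₀ y₀ hxy (hXne x hx y hy hxy) hy₀x₀ (hXne x₀ hx₀ y₀ hy₀ hy₀x₀)
  have hβpos : 0 < β := by
    rcases (abs_nonneg (p x₀ y₀)).lt_or_eq with h | h
    · exact h
    · exfalso
      have h1 := hrow x₀
      rw [← Finset.add_sum_erase X _ hx₀, hdiag] at h1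
      have h3 : ∑ y ∈ X.erase x₀, p x₀ y = 0 := by
        apply Finset.sum_eq_zero
        intro y hy
        rw [Finset.mem_erase] at hy
        have := hoff x₀ hx₀ y hy.2 hy.1
        rw [hβ, ← h] at this
        exact abs_eq_zero.mp this
      rw [h3, add_zero] at h1
      exact hαpos.ne' h1
  -- the integral sign matrix
  let sg : S → S → ℤ := fun x y => if 0 < p x y then 1 else -1
  have hsg : ∀ x y, sg x y = 1 ∨ sg x y = -1 := by
    intro x y
    simp only [sg]
    split_ifs <;> simp
  have hpsg : ∀ x ∈ X, ∀ y ∈ X, y ≠ x → p x y = β * (sg x y : ℝ) := by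
    intro x hx y hy hxy
    have h1 := hoff x hx y hy hxy
    by_cases h : 0 < p x y
    · simp only [sg, h, if_true]
      rw [abs_of_pos h] at h1
      rw [h1]; push_cast; ring
    · simp only [sg, h, if_false]
      rw [abs_of_nonpos (not_lt.mp h)] at h1
      push_cast
      linarith
  have hsgsymm : ∀ x y, sg x y = sg y x := by
    intro x y
    simp only [sg, hsymm x y]
  -- row sums
  have hrowsg : ∀ x ∈ X, α + β * ((∑ y ∈ X.erase x, sg x y : ℤ) : ℝ) = 0 := by
    intro x hx
    have h1 := hrow x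
    rw [← Finset.add_sum_erase X _ hx, hdiag] at h1
    rw [← h1]
    congr 1
    push_cast
    rw [Finset.mul_sum]
    apply Finset.sum_congr rfl
    intro y hy
    rw [Finset.mem_erase] at hy
    exact (hpsg x hx y hy.2 hy.1).symm
  set R : ℤ := ∑ y ∈ X.erase x₀, sg x₀ y with hR
  have hRx : ∀ x ∈ X, ∑ y ∈ X.erase x, sg x y = R := by
    intro x hx
    have h1 := hrowsg x hx
    have h3 := hrowsg x₀ hx₀
    have h4 : β * ((∑ y ∈ X.erase x, sg x y : ℤ) : ℝ) = β * (R : ℝ) := by
      rw [hR]; linarith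
    have h5 := mul_left_cancel₀ hβpos.ne' h4
    exact_mod_cast h5
  have hαR : α + β * (R : ℝ) = 0 := hrowsg x₀ hx₀
  have hRneg : R < 0 := by
    by_contra h
    push Not at h
    have : (0 : ℝ) ≤ R := by exact_mod_cast h
    have := mul_nonneg hβpos.le this
    linarith
  obtain ⟨u, hu⟩ : ∃ u : ℕ, R = - (u : ℤ) := ⟨R.natAbs, by omega⟩
  have hupos : 0 < u := by omega
  have hαu : α = β * u := by
    rw [hu] at hαR; push_cast at hαR; linarith
  have hg2 : 2 ≤ g := by
    rw [← hXcard]
    exact Finset.one_lt_card.mpr ⟨x₀, hx₀, y₀, hy₀, hy₀x₀.symm⟩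
  have hcarderase : ∀ x ∈ X, ((X.erase x).card : ℤ) = (g : ℤ) - 1 := by
    intro x hx
    rw [Finset.card_erase_of_mem hx, hXcard]; omega
  -- the diagonal equation
  have hdiageq : 2 * (α * α + ((g : ℝ) - 1) * (β * β)) = α := by
    have h1 := hidemX x₀ x₀
    rw [hdiag, ← Finset.add_sum_erase X _ hx₀, hdiag] at h1
    have h3 : ∑ y ∈ X.erase x₀, p x₀ y * p x₀ y = ∑ y ∈ X.erase x₀, β * β := by
      apply Finset.sum_congr rfl
      intro y hy
      rw [Finset.mem_erase] at hy
      rw [hpsg x₀ hx₀ y hy.2 hy.1]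
      rcases hsg x₀ y with h | h <;> rw [h] <;> push_cast <;> ring
    have h4 : ((X.erase x₀).card : ℝ) = (g : ℝ) - 1 := by
      have := hcarderase x₀ hx₀
      exact_mod_cast this
    rw [h3, Finset.sum_const, nsmul_eq_mul, h4] at h1
    exact h1
  -- the off-diagonal equations
  let N : S → S → ℤ := fun x z => ∑ y ∈ (X.erase x).erase z, sg x y * sg y z
  have hoffeq : ∀ x ∈ X, ∀ z ∈ X, z ≠ x →
      2 * (2 * α * (sg x z : ℝ) + β * (N x z : ℝ)) = (sg x z : ℝ) := by
    intro x hx z hz hzx
    have h1 := hidemX x z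
    have hzin : z ∈ X.erase x := Finset.mem_erase.mpr ⟨hzx, hz⟩
    rw [← Finset.add_sum_erase X _ hx, ← Finset.add_sum_erase (X.erase x) _ hzin, hdiag,
      hdiag, hsymm z x, hpsg x hx z hz hzx] at h1
    have h3 : ∑ y ∈ (X.erase x).erase z, p x y * p z y = β * β * (N x z : ℝ) := by
      simp only [N]
      push_cast
      rw [Finset.mul_sum]
      apply Finset.sum_congr rfl
      intro y hy
      rw [Finset.mem_erase, Finset.mem_erase] at hy
      rw [hpsg x hx y hy.2.2 hy.2.1, hpsg z hz y hy.2.2 hy.1, hsgsymm z y]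
      ring
    rw [h3] at h1
    have h4 : β * (2 * (2 * α * (sg x z : ℝ) + β * (N x z : ℝ))) = β * (sg x z : ℝ) := by
      rw [← h1]; ring
    exact mul_left_cancel₀ hβpos.ne' h4
  -- the integer `a`
  set a : ℤ := sg x₀ y₀ * N x₀ y₀ with ha
  have haeq : 2 * β * (a : ℝ) = 1 - 4 * α := by
    have h1 := hoffeq x₀ hx₀ y₀ hy₀ hy₀x₀
    rw [ha]
    push_cast
    rcases hsg x₀ y₀ with h | h <;> rw [h] at h1 ⊢ <;> push_cast at h1 ⊢ <;> linarith
  have hNa : ∀ x ∈ X, ∀ z ∈ X, z ≠ x → N x z = a * sg x z := by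
    intro x hx z hz hzx
    have h1 := hoffeq x hx z hz hzx
    have h3 : β * (N x z : ℝ) = β * ((a * sg x z : ℤ) : ℝ) := by
      push_cast
      rcases hsg x z with h | h <;> rw [h] at h1 ⊢ <;> push_cast at h1 ⊢ <;> linarith
    have h4 := mul_left_cancel₀ hβpos.ne' h3
    exact_mod_cast h4
  -- `v`
  have hβv : 2 * β * ((u : ℝ) + ((a : ℝ) + u)) = 1 := by
    rw [hαu] at haeq
    linarith
  have huv : (u : ℤ) * (a + u) = (g : ℤ) - 1 := by
    have h1 : 2 * β * ((u : ℝ) * u + ((g : ℝ) - 1)) = u := by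
      have h3 : β * (2 * β * ((u : ℝ) * u + ((g : ℝ) - 1))) = β * u := by
        rw [hαu] at hdiageq
        linarith
      exact mul_left_cancel₀ hβpos.ne' h3
    have h4 : (2 * β) * ((u : ℝ) * ((u : ℝ) + ((a : ℝ) + u)))
        = (2 * β) * ((u : ℝ) * u + ((g : ℝ) - 1)) := by
      rw [h1]
      calc 2 * β * ((u : ℝ) * ((u : ℝ) + ((a : ℝ) + u)))
          = (u : ℝ) * (2 * β * ((u : ℝ) + ((a : ℝ) + u))) := by ring
        _ = u := by rw [hβv, mul_one]
    have h5 := mul_left_cancel₀ (by positivity) h4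
    have h6 : (u : ℝ) * ((a : ℝ) + u) = (g : ℝ) - 1 := by linarith
    exact_mod_cast h6
  have hvpos : 0 < a + u := by
    by_contra h
    push Not at h
    have h1 : (u : ℤ) * (a + u) ≤ 0 := mul_nonpos_of_nonneg_of_nonpos (by omega) h
    omega
  obtain ⟨v, hv⟩ : ∃ v : ℕ, a + u = (v : ℤ) := ⟨(a + u).natAbs, by omega⟩
  have hvpos' : 0 < v := by omega
  rw [hv] at huv
  -- the dimension
  have hdim : finrank ℝ W * (u + v) = g * u := by
    have h1 := repKernel_trace W p hpW hprep
    have h3 : ∑ t, p t t = 2 * (g : ℝ) * α := by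
      rw [Finset.sum_congr rfl (fun t _ => hdiag t), Finset.sum_const, Finset.card_univ, hg,
        nsmul_eq_mul]
      push_cast; ring
    rw [h3, hαu] at h1
    have h4 : ((finrank ℝ W * (u + v) : ℕ) : ℝ) = ((g * u : ℕ) : ℝ) := by
      push_cast
      rw [← h1]
      have h5 : 2 * β * ((u : ℝ) + v) = 1 := by
        have h6 : ((a : ℝ) + u) = v := by exact_mod_cast hv
        rw [← h6]; exact hβv
      calc 2 * (g : ℝ) * (β * u) * (u + v) = g * u * (2 * β * ((u : ℝ) + v)) := by ring
        _ = g * u := by rw [h5, mul_one]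
    exact_mod_cast h4
  -- the case distinction
  by_cases hallneg : ∀ x ∈ X, ∀ y ∈ X, y ≠ x → sg x y = -1
  · -- all signs negative: the type is induced
    left
    intro γ
    have hconst : ∀ x ∈ X, (α + β) * e (γ • x) = β * ∑ y ∈ X, e (γ • y) := by
      intro x hx
      have h1 := horth γ x
      rw [hsumX x (fun s => e (γ • s)) (fun s => by rw [hcomm, heodd])] at h1
      rw [← Finset.add_sum_erase X _ hx, hdiag] at h1
      have h3 : ∑ y ∈ X.erase x, p x y * e (γ • y) = - β * ∑ y ∈ X.erase x, e (γ • y) := by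
        rw [Finset.mul_sum]
        apply Finset.sum_congr rfl
        intro y hy
        rw [Finset.mem_erase] at hy
        rw [hpsg x hx y hy.2 hy.1, hallneg x hx y hy.2 hy.1]
        push_cast; ring
      rw [h3] at h1
      rw [← Finset.add_sum_erase X _ hx]
      linarith
    have hconst2 : ∀ x ∈ X, e (γ • x) = e (γ • x₀) := by
      intro x hx
      have h1 := hconst x hx
      rw [← hconst x₀ hx₀] at h1
      exact mul_left_cancel₀ (by positivity) h1
    rcases he (γ • x₀) with h | h
    · left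
      intro s
      by_cases hs : s ∈ X
      · rw [hconst2 s hs, h, (hXmem s).mp hs]
      · have hcs : c s ∈ X := by
          by_contra h3
          exact hs ((hX s).mpr h3)
        have h1 := hconst2 _ hcs
        rw [hcomm, heodd, h] at h1
        have h3 := (hXmem _).mp hcs
        rw [heodd] at h3
        linarith
    · right
      intro s
      by_cases hs : s ∈ X
      · rw [hconst2 s hs, h, (hXmem s).mp hs]
      · have hcs : c s ∈ X := by
          by_contra h3
          exact hs ((hX s).mpr h3)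
        have h1 := hconst2 _ hcs
        rw [hcomm, heodd, h] at h1
        have h3 := (hXmem _).mp hcs
        rw [heodd] at h3
        linarith
  · right
    -- a pair with sign `+1` exists
    push Not at hallneg
    obtain ⟨x₁, hx₁, y₁, hy₁, hyx₁, hs₁⟩ := hallneg
    have hs₁' : sg x₁ y₁ = 1 := (hsg x₁ y₁).resolve_right hs₁
    -- a pair with sign `-1` exists
    have hexneg : ∃ y ∈ X, y ≠ x₀ ∧ sg x₀ y = -1 := by
      by_contra h
      push Not at h
      have h1 : R = ∑ y ∈ X.erase x₀, (1 : ℤ) := by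
        rw [hR]
        apply Finset.sum_congr rfl
        intro y hy
        rw [Finset.mem_erase] at hy
        exact (hsg x₀ y).resolve_right (h y hy.2 hy.1)
      rw [Finset.sum_const, nsmul_eq_mul, mul_one, hcarderase x₀ hx₀] at h1
      omega
    obtain ⟨y₂, hy₂, hyx₂, hs₂⟩ := hexneg
    -- congruences modulo 4
    have hmod : ∀ x ∈ X, ∀ z ∈ X, z ≠ x →
        (4 : ℤ) ∣ a * sg x z - (2 * R - 2 * sg x z - (g - 2)) := by
      intro x hx z hz hzx
      have hzin : z ∈ X.erase x := Finset.mem_erase.mpr ⟨hzx, hz⟩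
      have hxin : x ∈ X.erase z := Finset.mem_erase.mpr ⟨hzx.symm, hx⟩
      have h1 := sign_sum_mod_four ((X.erase x).erase z) (fun y => sg x y) (fun y => sg y z)
        (fun y _ => hsg x y) (fun y _ => hsg y z)
      have h3 : ∑ y ∈ (X.erase x).erase z, sg x y = R - sg x z := by
        have h4 := hRx x hx
        rw [← Finset.add_sum_erase (X.erase x) _ hzin] at h4
        omega
      have h5 : ∑ y ∈ (X.erase x).erase z, sg y z = R - sg x z := by
        have h4 := hRx z hz
        rw [← Finset.add_sum_erase (X.erase z) _ hxin, hsgsymm z x] at h4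
        have h6 : ∑ y ∈ (X.erase x).erase z, sg y z = ∑ y ∈ (X.erase z).erase x, sg z y := by
          rw [Finset.erase_right_comm]
          apply Finset.sum_congr rfl
          intro y _
          exact hsgsymm y z
        rw [h6]; omega
      have h7 : (((X.erase x).erase z).card : ℤ) = g - 2 := by
        rw [Finset.card_erase_of_mem hzin]
        have := hcarderase x hx
        have h8 : 0 < (X.erase x).card := Finset.card_pos.mpr ⟨z, hzin⟩
        omega
      have h9 : N x z = ∑ y ∈ (X.erase x).erase z, sg x y * sg y z := rfl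
      rw [h3, h5, h7, ← h9, hNa x hx z hz hzx] at h1
      have h10 : a * sg x z - (2 * R - 2 * sg x z - (g - 2))
          = a * sg x z - (R - sg x z + (R - sg x z) - (g - 2)) := by ring
      rw [h10]; exact h1
    have hm1 := hmod x₁ hx₁ y₁ hy₁ hyx₁
    have hm2 := hmod x₀ hx₀ y₂ hy₂ hyx₂
    rw [hs₁'] at hm1
    rw [hs₂] at hm2
    have hm3 := sign_sum_mod_two (X.erase x₀) (fun y => sg x₀ y) (fun y _ => hsg x₀ y)
    rw [hcarderase x₀ hx₀] at hm3
    have hm3' : (2 : ℤ) ∣ R - (g - 1) := hm3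
    have haeven : (2 : ℤ) ∣ a := by omega
    have hgeven : (2 : ℤ) ∣ g := by omega
    have huodd : Odd u := by
      rw [Nat.odd_iff]; omega
    have hvodd : Odd v := by
      rw [Nat.odd_iff]; omega
    have huv' : u * v + 1 = g := by
      have : ((u * v + 1 : ℕ) : ℤ) = g := by push_cast; omega
      exact_mod_cast this
    by_cases hu1 : u = 1
    · -- Weil type
      left
      have hdim1 : finrank ℝ W = 1 := by
        rw [hu1] at hdim huv'
        have h1 : 1 + v = g := by omega
        rw [h1, mul_one] at hdim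
        have h3 : 0 < g := by omega
        nlinarith [Nat.eq_of_mul_eq_mul_right h3 (by rw [hdim, one_mul] : finrank ℝ W * g = 1 * g)]
      obtain ⟨w, hw0, hwspan⟩ := finrank_eq_one_iff'.mp hdim1
      have hwspan' : ∀ x ∈ W, ∃ r : ℝ, x = r • w.1 := by
        intro x hx
        obtain ⟨r, hr⟩ := hwspan ⟨x, hx⟩
        refine ⟨r, ?_⟩
        have := congrArg Subtype.val hr
        simpa using this.symm
      have hwne : w.1 ≠ 0 := fun h => hw0 (Subtype.ext h)
      have hnormpos : 0 < ∑ s, w.1 s * w.1 s := by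
        rcases (Finset.sum_nonneg (fun s (_ : s ∈ Finset.univ) =>
          mul_self_nonneg (w.1 s))).lt_or_eq with h | h
        · exact h
        · exfalso
          apply hwne
          funext s
          have h4 := (Finset.sum_eq_zero_iff_of_nonneg
            (fun s _ => mul_self_nonneg (w.1 s))).mp h.symm
          exact mul_self_eq_zero.mp (h4 s (Finset.mem_univ s))
      have hpm : ∀ γ : G, (∀ s, w.1 (γ • s) = w.1 s) ∨ (∀ s, w.1 (γ • s) = - w.1 s) := by
        intro γ
        obtain ⟨r, hr⟩ := hwspan' _ (hstab γ w.1 w.2)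
        have hr' : ∀ s, w.1 (γ • s) = r * w.1 s := fun s => congrFun hr s
        have h1 : ∑ s, w.1 (γ • s) * w.1 (γ • s) = ∑ s, w.1 s * w.1 s := by
          apply Fintype.sum_bijective (fun s => γ • s) (MulAction.bijective γ)
          intro s; rfl
        have h3 : ∑ s, w.1 (γ • s) * w.1 (γ • s) = r * r * ∑ s, w.1 s * w.1 s := by
          rw [Finset.mul_sum]
          apply Finset.sum_congr rfl
          intro s _
          rw [hr']; ring
        rw [h1] at h3
        have h4 : r * r = 1 := by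
          have : (r * r) * ∑ s, w.1 s * w.1 s = 1 * ∑ s, w.1 s * w.1 s := by rw [← h3, one_mul]
          exact mul_right_cancel₀ hnormpos.ne' this
        rcases mul_self_eq_one_iff.mp h4 with h | h
        · left; intro s; rw [hr', h, one_mul]
        · right; intro s; rw [hr', h]; ring
      have habsconst : ∀ s, |w.1 s| = |w.1 x₀| := by
        intro s
        obtain ⟨γ, hγ⟩ := MulAction.exists_smul_eq G x₀ s
        rw [← hγ]
        rcases hpm γ with h | h
        · rw [h]
        · rw [h, abs_neg]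
      have hw0pos : 0 < |w.1 x₀| := by
        rcases (abs_nonneg (w.1 x₀)).lt_or_eq with h | h
        · exact h
        · exfalso
          apply hwne
          funext s
          have := habsconst s
          rw [← h] at this
          exact abs_eq_zero.mp this
      refine ⟨|w.1 x₀|⁻¹ • w.1, ?_, ?_, ?_, ?_⟩
      · intro s
        simp only [Pi.smul_apply, smul_eq_mul]
        rw [← habsconst s]
        have hpos : 0 < |w.1 s| := by rw [habsconst s]; exact hw0pos
        rcases abs_choice (w.1 s) with h | h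
        · left; rw [h]; exact inv_mul_cancel₀ (by rw [h] at hpos; exact hpos.ne')
        · right
          rw [h]
          have : w.1 s ≠ 0 := by
            intro h0; rw [h0] at hpos; simp at hpos
          field_simp
      · exact W.smul_mem _ w.2
      · intro x hx
        obtain ⟨r, hr⟩ := hwspan' x hx
        refine ⟨r * |w.1 x₀|, ?_⟩
        rw [hr, smul_smul, mul_assoc, mul_inv_cancel₀ hw0pos.ne', mul_one]
      · intro γ
        rcases hpm γ with h | h
        · left; intro s
          simp only [Pi.smul_apply, smul_eq_mul, h]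
        · right; intro s
          simp only [Pi.smul_apply, smul_eq_mul, h]; ring
    · right
      refine ⟨u, v, huodd, hvodd, ?_, ?_, huv', ?_⟩
      · obtain ⟨k, hk⟩ := huodd
        omega
      · -- `v ≠ 1`
        have hv1 : v ≠ 1 := by
          intro hv1
          rw [hv1, mul_one] at huv'
          -- then all signs in the row of `x₁` are `-1`
          have h1 := hRx x₁ hx₁
          have hyin : y₁ ∈ X.erase x₁ := Finset.mem_erase.mpr ⟨hyx₁, hy₁⟩
          rw [← Finset.add_sum_erase (X.erase x₁) _ hyin, hs₁'] at h1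
          have h3 : ∀ y ∈ (X.erase x₁).erase y₁, (-1 : ℤ) ≤ sg x₁ y := by
            intro y _
            rcases hsg x₁ y with h | h <;> rw [h] <;> norm_num
          have h4 := Finset.sum_le_sum h3
          rw [Finset.sum_const, nsmul_eq_mul, Finset.card_erase_of_mem hyin] at h4
          have h5 := hcarderase x₁ hx₁
          have h6 : 0 < (X.erase x₁).card := Finset.card_pos.mpr ⟨y₁, hyin⟩
          have h7 : (((X.erase x₁).card - 1 : ℕ) : ℤ) = (g : ℤ) - 2 := by omega
          rw [h7] at h4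
          omega
        obtain ⟨k, hk⟩ := hvodd
        omega
      · rw [← hdim]
        exact Dvd.intro_left _ rfl

end Pool.Agent.Lib.MP_640417_ag
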